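import Pool.Agent.Lib.MP_adc574_ag_LF.Px

/-!
# JOB Tau: the dual basis `bb F i` and the functional `tau F`

`F` monic of degree `n ≥ 1`. `h %ₘ F` is additive and `R[x]`-linear (`add_modByMonic`,
`Polynomial.modByMonic` of `C q * h`: uniqueness `Polynomial.div_modByMonic_unique`), `(F * h) %ₘ F = 0`.
The coefficient of `Y ^ l` of `bb F i` is `F.coeff (l + i + 1)` (`coeff_divX`, induction on the iterate),
`bb F i` is monic of degree `n - 1 - i` for `i < n`, and
`F = Y ^ (i + 1) * bb F i + (terms of degree ≤ i)`.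
`tau_bb`: for `j ≤ i` the polynomial `Y ^ j * bb F i` has degree `n - 1 - i + j < n`, with coefficient of
`Y ^ (n - 1)` equal to `1` if `i = j` and `0` if `j < i`. For `j > i`:
`Y ^ j * bb F i = Y ^ (j - i - 1) * (F - r)` with `r` of degree `≤ i`, so modulo `F` it is
`- Y ^ (j - i - 1) * r` of degree `≤ j - 1 < n - 1`.
`mod_eq_sum`: both sides have degree `< n`; the difference `g` has `tau F (X ^ j * g) = 0` for all `j < n`
by `tau_bb`; if `g ≠ 0` has degree `m < n` then `tau F (X ^ (n - 1 - m) * g)` is its leading coefficient.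
-/

set_option autoImplicit false

namespace MPadcLF

open Polynomial MPadcCov

variable {R : Type*} [CommRing R] {n : ℕ} {F : R[X][X]}

private theorem Tau_iter (k : ℕ) : ∀ (G : R[X][X]) (l : ℕ), (divX^[k] G).coeff l = G.coeff (l + k) := by
  induction k with
  | zero => intro G l; rfl
  | succ k ih =>
    intro G l
    rw [Function.iterate_succ_apply, ih, coeff_divX]
    rfl

theorem bb_coeff (F : R[X][X]) (i l : ℕ) : (bb F i).coeff l = F.coeff (l + i + 1) := by
  unfold bb
  rw [Tau_iter]
  rfl

private theorem Tau_bb_deg (hd : F.natDegree = n) (i : ℕ) : (bb F i).natDegree ≤ n - 1 - i := by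
  rw [natDegree_le_iff_coeff_eq_zero]
  intro m hm
  rw [bb_coeff]
  exact coeff_eq_zero_of_natDegree_lt (by omega)

theorem bb_natDegree (hd : F.natDegree = n) (hn : 0 < n) (i : ℕ) :
    (bb F i).natDegree < n := by
  have := Tau_bb_deg hd i
  omega

theorem mod_add (hF : F.Monic) (g h : R[X][X]) : (g + h) %ₘ F = g %ₘ F + h %ₘ F := by
  exact add_modByMonic g h

theorem mod_C_mul (hF : F.Monic) (q : R[X]) (h : R[X][X]) : (C q * h) %ₘ F = C q * (h %ₘ F) := by
  rw [← smul_eq_C_mul, ← smul_eq_C_mul]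
  exact smul_modByMonic q h

theorem mod_mul_self (hF : F.Monic) (h : R[X][X]) : (h * F) %ₘ F = 0 := by
  rw [modByMonic_eq_zero_iff_dvd hF]
  exact Dvd.intro_left h rfl

theorem mod_natDegree (hF : F.Monic) (hd : F.natDegree = n) (hn : 0 < n) (h : R[X][X]) :
    (h %ₘ F).natDegree < n := by
  rw [← hd]
  refine natDegree_modByMonic_lt h hF ?_
  rintro rfl
  rw [natDegree_one] at hd
  omega

theorem mod_eq_self (hF : F.Monic) (hd : F.natDegree = n) {h : R[X][X]} (hh : h.natDegree < n) :
    h %ₘ F = h := by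
  rcases subsingleton_or_nontrivial R with hR | hR
  · exact Subsingleton.elim _ _
  · rw [modByMonic_eq_self_iff hF, degree_eq_natDegree hF.ne_zero, hd]
    exact lt_of_le_of_lt degree_le_natDegree (by exact_mod_cast hh)

theorem exists_mod (hF : F.Monic) (h : R[X][X]) : ∃ e, h = h %ₘ F + e * F := by
  refine ⟨h /ₘ F, ?_⟩
  have h1 := modByMonic_add_div h F
  rw [mul_comm] at h1
  exact h1.symm

theorem mod_eq_zero_iff (hF : F.Monic) (h : R[X][X]) : h %ₘ F = 0 ↔ ∃ e, h = e * F := by
  constructor
  · intro h0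
    obtain ⟨e, he⟩ := exists_mod hF h
    refine ⟨e, ?_⟩
    rw [h0, zero_add] at he
    exact he
  · rintro ⟨e, rfl⟩
    exact mod_mul_self hF e

theorem tau_add (hF : F.Monic) (g h : R[X][X]) : tau F (g + h) = tau F g + tau F h := by
  unfold tau
  rw [mod_add hF, coeff_add]

theorem tau_sub (hF : F.Monic) (g h : R[X][X]) : tau F (g - h) = tau F g - tau F h := by
  have h1 := tau_add hF (g - h) h
  rw [sub_add_cancel] at h1
  rw [h1, add_sub_cancel_right]

theorem tau_sum (hF : F.Monic) {ι : Type*} (s : Finset ι) (f : ι → R[X][X]) :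
    tau F (∑ i ∈ s, f i) = ∑ i ∈ s, tau F (f i) := by
  classical
  induction s using Finset.induction_on with
  | empty =>
    rw [Finset.sum_empty, Finset.sum_empty]
    unfold tau
    rw [zero_modByMonic, coeff_zero]
  | insert a s ha ih => rw [Finset.sum_insert ha, Finset.sum_insert ha, tau_add hF, ih]

theorem tau_C_mul (hF : F.Monic) (q : R[X]) (h : R[X][X]) : tau F (C q * h) = q * tau F h := by
  unfold tau
  rw [mod_C_mul hF, coeff_C_mul]

theorem tau_mul_self (hF : F.Monic) (h : R[X][X]) : tau F (h * F) = 0 := by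
  unfold tau
  rw [mod_mul_self hF, coeff_zero]

theorem tau_mod (hF : F.Monic) (g h : R[X][X]) : tau F (g * (h %ₘ F)) = tau F (g * h) := by
  obtain ⟨e, he⟩ := exists_mod hF h
  have h1 : g * h = g * (h %ₘ F) + (g * e) * F := by
    calc g * h = g * (h %ₘ F + e * F) := by rw [← he]
      _ = g * (h %ₘ F) + (g * e) * F := by ring
  rw [h1, tau_add hF, tau_mul_self hF, add_zero]

private theorem Tau_low (hF : F.Monic) (hd : F.natDegree = n) {h : R[X][X]} (hh : h.natDegree < n) :
    tau F h = h.coeff (n - 1) := by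
  unfold tau
  rw [mod_eq_self hF hd hh, hd]

theorem tau_pow (hF : F.Monic) (hd : F.natDegree = n) (j : ℕ) (hj : j < n) :
    tau F (X ^ j) = if j + 1 = n then 1 else 0 := by
  rw [Tau_low hF hd (lt_of_le_of_lt (natDegree_X_pow_le j) hj), coeff_X_pow]
  by_cases h : j + 1 = n
  · rw [if_pos h, if_pos (by omega)]
  · rw [if_neg h, if_neg (by omega)]

theorem tau_bb (hF : F.Monic) (hd : F.natDegree = n) (i j : ℕ) (hi : i < n) (hj : j < n) :
    tau F (X ^ j * bb F i) = if i = j then 1 else 0 := by
  have hF1 : F.coeff n = 1 := by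
    rw [← hd]
    exact hF
  rcases le_or_gt j i with hji | hji
  · have h1 : (X ^ j * bb F i : R[X][X]).natDegree < n := by
      refine lt_of_le_of_lt natDegree_mul_le ?_
      have h2 := Tau_bb_deg hd i
      have h3 : (X ^ j : R[X][X]).natDegree ≤ j := natDegree_X_pow_le j
      omega
    rw [Tau_low hF hd h1, coeff_X_pow_mul', if_pos (by omega), bb_coeff]
    by_cases hij : i = j
    · rw [if_pos hij]
      have h4 : n - 1 - j + i + 1 = n := by omega
      rw [h4, hF1]
    · rw [if_neg hij]
      exact coeff_eq_zero_of_natDegree_lt (by omega)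
  · rw [if_neg (by omega)]
    have hr : (F - X ^ (i + 1) * bb F i).natDegree ≤ i := by
      rw [natDegree_le_iff_coeff_eq_zero]
      intro m hm
      rw [coeff_sub, coeff_X_pow_mul', if_pos (by omega), bb_coeff]
      have h5 : m - (i + 1) + i + 1 = m := by omega
      rw [h5, sub_self]
    have h6 : X ^ j * bb F i = X ^ (j - (i + 1)) * F -
        X ^ (j - (i + 1)) * (F - X ^ (i + 1) * bb F i) := by
      have h7 : (X : R[X][X]) ^ j = X ^ (j - (i + 1)) * X ^ (i + 1) := by
        rw [← pow_add]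
        congr 1
        omega
      rw [h7]
      ring
    have h8 : (X ^ (j - (i + 1)) * (F - X ^ (i + 1) * bb F i) : R[X][X]).natDegree < n - 1 := by
      refine lt_of_le_of_lt natDegree_mul_le ?_
      have h3 : (X ^ (j - (i + 1)) : R[X][X]).natDegree ≤ j - (i + 1) := natDegree_X_pow_le _
      omega
    rw [h6, tau_sub hF, tau_mul_self hF, Tau_low hF hd (by omega), zero_sub, neg_eq_zero]
    exact coeff_eq_zero_of_natDegree_lt h8

private theorem Tau_dist (g0 : R[X][X]) (c : ℕ → R[X]) (b : ℕ → R[X][X]) (j : ℕ) (s : Finset ℕ) :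
    X ^ j * (g0 - ∑ i ∈ s, C (c i) * b i) = X ^ j * g0 - ∑ i ∈ s, C (c i) * (X ^ j * b i) := by
  rw [mul_sub, Finset.mul_sum]
  have h1 : ∀ i ∈ s, X ^ j * (C (c i) * b i) = C (c i) * (X ^ j * b i) := by
    intro i _
    ring
  rw [Finset.sum_congr rfl h1]

theorem mod_eq_sum (hF : F.Monic) (hd : F.natDegree = n) (h : R[X][X]) :
    h %ₘ F = ∑ j ∈ Finset.range n, C (tau F (X ^ j * h)) * bb F j := by
  rcases Nat.eq_zero_or_pos n with hn | hn
  · subst hn
    have h1 : F = 1 := hF.natDegree_eq_zero.1 hd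
    rw [h1, modByMonic_one, Finset.sum_range_zero]
  have key : ∀ g : R[X][X], g.natDegree < n → (∀ j < n, tau F (X ^ j * g) = 0) → g = 0 := by
    intro g hg hj
    by_contra hne
    have h2 := hj (n - 1 - g.natDegree) (by omega)
    have h3 : (X ^ (n - 1 - g.natDegree) * g : R[X][X]).natDegree < n := by
      refine lt_of_le_of_lt natDegree_mul_le ?_
      have h3 : (X ^ (n - 1 - g.natDegree) : R[X][X]).natDegree ≤ n - 1 - g.natDegree :=
        natDegree_X_pow_le _
      omega
    rw [Tau_low hF hd h3, coeff_X_pow_mul', if_pos (by omega)] at h2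
    have h4 : n - 1 - (n - 1 - g.natDegree) = g.natDegree := by omega
    rw [h4] at h2
    exact hne (leadingCoeff_eq_zero.1 h2)
  have h5 : h %ₘ F - ∑ j ∈ Finset.range n, C (tau F (X ^ j * h)) * bb F j = 0 := by
    apply key
    · refine lt_of_le_of_lt (natDegree_sub_le _ _) ?_
      refine max_lt (mod_natDegree hF hd hn h) ?_
      have h6 : (∑ j ∈ Finset.range n, C (tau F (X ^ j * h)) * bb F j).natDegree ≤ n - 1 := by
        refine natDegree_sum_le_of_forall_le _ _ ?_
        intro i _
        refine le_trans (natDegree_C_mul_le _ _) ?_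
        have := bb_natDegree hd hn i
        omega
      omega
    · intro j hj
      rw [Tau_dist (h %ₘ F) (fun i => tau F (X ^ i * h)) (fun i => bb F i) j, tau_sub hF,
        tau_mod hF, tau_sum hF]
      have h8 : ∀ i ∈ Finset.range n, tau F (C (tau F (X ^ i * h)) * (X ^ j * bb F i)) =
          if i = j then tau F (X ^ j * h) else 0 := by
        intro i hi
        rw [tau_C_mul hF, tau_bb hF hd i j (Finset.mem_range.1 hi) hj]
        by_cases hij : i = j
        · rw [if_pos hij, if_pos hij, mul_one, hij]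
        · rw [if_neg hij, if_neg hij, mul_zero]
      rw [Finset.sum_congr rfl h8, Finset.sum_ite_eq', if_pos (Finset.mem_range.2 hj), sub_self]
  exact sub_eq_zero.1 h5

section map

variable {R' : Type*} [CommRing R'] (φ : R →+* R')

theorem mp_mod (hF : F.Monic) (h : R[X][X]) : mp φ (h %ₘ F) = (mp φ h) %ₘ (mp φ F) := by
  exact map_modByMonic (mapRingHom φ) hF

theorem mp_bb (i : ℕ) : mp φ (bb F i) = bb (mp φ F) i := by
  ext1 l
  rw [bb_coeff, coe_mapRingHom, coeff_map, coeff_map, bb_coeff]

theorem mp_tau [Nontrivial R'] (hF : F.Monic) (h : R[X][X]) :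
    (tau F h).map φ = tau (mp φ F) (mp φ h) := by
  unfold tau
  have h1 : (mp φ F).natDegree = F.natDegree := by
    rw [coe_mapRingHom]
    exact hF.natDegree_map _
  rw [← mp_mod φ hF, h1, coe_mapRingHom, coeff_map]
  rfl

theorem mp_topp (w n : ℕ) : (topp w n F).map φ = topp w n (mp φ F) := by
  unfold topp
  rw [Polynomial.map_sum]
  refine Finset.sum_congr rfl ?_
  intro i _
  rw [Polynomial.map_mul, Polynomial.map_pow, map_C, map_X, coe_mapRingHom, coeff_map,
    coe_mapRingHom, coeff_map]

theorem mp_subb (w n : ℕ) : (subb w n F).map φ = subb w n (mp φ F) := by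
  unfold subb
  rw [Polynomial.map_sum]
  refine Finset.sum_congr rfl ?_
  intro i _
  rw [Polynomial.map_mul, Polynomial.map_pow, map_C, map_X, coe_mapRingHom, coeff_map,
    coe_mapRingHom, coeff_map]

theorem mp_tc [Nontrivial R'] {w n : ℕ} (hF : F.Monic) (c : Gx w n) (h : R[X][X]) :
    φ (tc F c h) = tc (mp φ F) c (mp φ h) := by
  unfold tc
  rw [← coeff_map, mp_tau φ hF, map_mul, map_pow]
  have h1 : mp φ (X : R[X][X]) = X := by
    rw [coe_mapRingHom, map_X]
  rw [h1]

theorem mp_rc [Nontrivial R'] {w n : ℕ} (hF : F.Monic) (c c' : Gx w n) :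
    φ (rc F c c') = rc (mp φ F) c c' := by
  unfold rc
  rw [← coeff_map, mp_tau φ hF, map_mul, map_pow, mp_dN, mp_gg]
  have h1 : mp φ (X : R[X][X]) = X := by
    rw [coe_mapRingHom, map_X]
  rw [h1]

end map

end MPadcLF
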