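import Pool.Agent.Lib.MP_adc574_ag_LF.Wd
import Pool.Agent.Lib.MP_adc574_ag_LF.Tau

/-!
# JOB Nat: everything is preserved by homomorphisms of the coefficient rings

Apply `mp φ` to the defining equations (`mp_px`, `mp_py`, `mp_pT`, `mp_br`, `mp_dN`, `mp_cc`, `mp_bb`,
`mp_gg`, `mp_tc`, `mp_rc`, `mp_topp`, `WD.map`). `hrec`: induction, `mp_mod`.
-/

set_option autoImplicit false

namespace MPadcLF

open Polynomial MPadcCov

variable {R : Type*} [CommRing R] {R' : Type*} [CommRing R'] [Nontrivial R'] (φ : R →+* R')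
  {w n : ℕ} {F : R[X][X]}

omit [Nontrivial R'] in
theorem Sm.map {c : R} (h : Sm F c) : Sm (mp φ F) (φ c) := by
  obtain ⟨u, v, z, h⟩ := h
  refine ⟨mp φ u, mp φ v, mp φ z, ?_⟩
  rw [← mp_px φ F, ← mp_py φ F, ← map_mul, ← map_mul, ← map_mul, ← map_add, ← map_add, h, mp_cc φ]

omit [Nontrivial R'] in
theorem Tp.map {c : R} (h : Tp w n F c) : Tp w n (mp φ F) (φ c) := by
  obtain ⟨u, v, h⟩ := h
  refine ⟨u.map φ, v.map φ, ?_⟩
  rw [← mp_topp φ w n, derivative_map, ← Polynomial.map_mul, ← Polynomial.map_mul,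
    ← Polynomial.map_add, h, Polynomial.map_C]

theorem HB.map (hF : F.Monic) {η : IX w n → R[X][X]} (h : HB w n F η) :
    HB w n (mp φ F) (fun a => mp φ (η a)) := by
  refine ⟨fun c => ?_, fun c => ?_, fun c c' => ?_⟩
  · show mp φ (η (Sum.inl c)) = _
    rw [h.phi c, map_mul, mp_bb φ]
    simp
  · obtain ⟨k, e, hk, he⟩ := h.mm c
    refine ⟨mp φ k, mp φ e, hk.map φ, ?_⟩
    have h1 := congrArg (mp φ) he
    rw [map_mul, map_add, map_add, map_mul, mp_dN F φ, mp_gg φ] at h1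
    have h2 : mp φ (C (X ^ (w * n + 1)) : R[X][X]) = C (X ^ (w * n + 1)) := by simp
    rw [h2] at h1
    exact h1
  · have h1 := congrArg φ (h.jj c c')
    rw [map_add, map_sub, mp_tc φ hF, mp_tc φ hF, mp_rc φ hF, map_zero] at h1
    exact h1

omit [Nontrivial R'] in
theorem IsGM.map {ι : Type} [Fintype ι] {D : R → R} {D' : R' → R'} (hD : IsDer D)
    (hD' : IsDer D') (hφ : ∀ a, φ (D a) = D' (φ a)) {Δ : R} {η : ι → R[X][X]}
    {G : Matrix ι ι R} (h : IsGM D Δ F η G) :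
    IsGM D' (φ Δ) (mp φ F) (fun a => mp φ (η a)) (G.map φ) := by
  intro a
  obtain ⟨α, β, γ, g, e, h1, h2⟩ := h a
  refine ⟨mp φ α, mp φ β, mp φ γ, mp φ g, mp φ e, ?_, ?_⟩
  · have h3 := congrArg (mp φ) h1
    rw [map_mul, map_mul, map_add, map_add, map_mul, map_mul, map_mul, mp_px φ, mp_py φ,
      mp_pT φ hD hD' hφ, mp_cc φ] at h3
    exact h3
  · have h3 := congrArg (mp φ) h2
    rw [map_sub, map_sub, map_sub, map_mul, map_add, map_add, map_mul, map_sum, mp_px φ, mp_py φ,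
      mp_pT φ hD hD' hφ, mp_cc φ, mp_br F φ] at h3
    rw [h3]
    refine congrArg₂ _ (congrArg₂ _ (Finset.sum_congr rfl fun b _ => ?_) rfl) rfl
    rw [map_mul, mp_cc φ, Matrix.map_apply]

theorem hrec_map (hF : F.Monic) (h : R[X][X]) (j : ℕ) :
    mp φ (hrec F h j) = hrec (mp φ F) (mp φ h) j := by
  induction j with
  | zero => exact mp_mod φ hF h
  | succ j ih =>
    rw [hrec, hrec, mp_mod φ hF, map_sub, map_mul, map_mul, map_mul, map_natCast, mp_br F φ,
      mp_br F φ, mp_py φ, ih]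

theorem fo_map (c : Gx w n → R) : mp φ (fo F c) = fo (mp φ F) (fun a => φ (c a)) := by
  unfold fo
  rw [map_sum]
  refine Finset.sum_congr rfl fun a _ => ?_
  rw [map_mul, map_mul, mp_cc φ, mp_bb φ]
  simp

theorem hrec_add (hF : F.Monic) (g h : R[X][X]) (j : ℕ) :
    hrec F (g + h) j = hrec F g j + hrec F h j := by
  induction j with
  | zero => exact mod_add hF g h
  | succ j ih =>
    rw [hrec, hrec, hrec, ← mod_add hF, ih, (isDer_br F).add]
    refine congrArg (fun z => z %ₘ F) ?_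
    ring

theorem hrec_cc_mul (hF : F.Monic) (r : R) (h : R[X][X]) (j : ℕ) :
    hrec F (cc r * h) j = cc r * hrec F h j := by
  induction j with
  | zero => exact mod_C_mul hF (C r) h
  | succ j ih =>
    rw [hrec, hrec, ← mod_C_mul hF (C r), ih]
    rw [br_cc_mul F]
    refine congrArg (fun z => z %ₘ F) ?_
    ring

end MPadcLF
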