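import Pool.Agent.Lib.MP_adc574_ag_LF.Res
import Pool.Agent.Lib.MP_adc574_ag_LF.Nat

/-!
# JOB Bas: the basis pairs and their intersection matrix

Paper 3.4. `N = w n`.
* `fE_mul`: `x ^ N f_c = ev (gg c)` (`N - l - 1 + l + 1 = N`, as `l + 1 ≤ w i ≤ N`).
* `d_fE`: `x ^ (N + 1) F_Y d f_c = ev (dN F N (gg c))` (Leibniz for `x ^ N f_c`, `d x = 1`, `KL.d_ev`).
* `low`: `BDeg (-2) (m_a - d b_a)`. For `inl (i, l)`: `m_a = ev (x ^ l bb F i) / F_Y`, weight
  `l + w (n - 1 - i) ≤ w (n - 1) - 2` (`l + 2 ≤ w i`), `bdeg_ev`, `bdeg_div`. For `inr c`: by `HB.mm` and `d_fE`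
  `x ^ (N + 1) F_Y (m_a - d f_c) = ev k`, `bdeg_div`, and division by `x ^ (N + 1)` (`BDeg.smul`).
* `Jp_basis`: by cases. `inl, inl`: `b = b' = 0`. `inr c, inl c'`: `res Tr (f_c m') =
  res (x ^ (- l - 1) tau (Y ^ i x ^ l' bb F i'))` (`tr_ev_div`, `tau_C_mul`, `tau_bb`, `IsRes.coeff`) `= 1` if
  `c = c'` and `0` otherwise. `inl, inr`: minus that. `inr c, inr c'`:
  `res Tr (f_c m_c') = tc F c (η (inr c'))`, `res Tr (f_c' m_c) = tc F c' (η (inr c))`,
  `res Tr (f_c' d f_c) = rc F c' c` (`x ^ (N + 1) f_c' d f_c = x ^ (- l' - 1) ev (Y ^ i' dN …) / F_Y`); the sum is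
  `0` by `HB.jj`.
* `Jp_lc`: `Jp` is bilinear over `κ` in the pairs (`IsRes.smul`, `IsRes.sum`; `d (c z) = c d z` for constants
  `c`: `dK (pol (C c)) = 0`).
-/

set_option autoImplicit false

namespace MPadcLF

open Polynomial MPadcCov

variable {κ : Type*} [Field κ] {E : Type*} [Field E] [Algebra (RatFunc κ) E] {w n : ℕ}
  {F : κ[X][X]} {y : E} {e : Module.Basis (Fin n) (RatFunc κ) E} {dK : RatFunc κ → RatFunc κ}
  {d : Derivation ℤ E E} {res : RatFunc κ → κ} {η : IX w n → κ[X][X]}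

private theorem bas_le (c : Gx w n) : (c.2 : ℕ) + 2 ≤ w * (c.1 : ℕ) ∧
    w * (c.1 : ℕ) ≤ w * (n - 1) ∧ w * (c.1 : ℕ) ≤ w * n := by
  have h1 : (c.2 : ℕ) < w * (c.1 : ℕ) - 1 := c.2.2
  have h2 : (c.1 : ℕ) < n := c.1.2
  refine ⟨by omega, Nat.mul_le_mul_left w (by omega), Nat.mul_le_mul_left w h2.le⟩

private theorem bas_polX : pol (X : κ[X]) = RatFunc.X := RatFunc.algebraMap_X

private theorem bas_X : (RatFunc.X : RatFunc κ) ≠ 0 := RatFunc.X_ne_zero

theorem KL.fE_mul (H : KL w n F y e dK d) (c : Gx w n) :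
    inE (κ := κ) E (pol (X ^ (w * n))) * fE (κ := κ) y c = ev y (gg c : κ[X][X]) := by
  obtain ⟨h1, -, h2⟩ := bas_le c
  unfold fE gg
  rw [map_mul (ev y), map_pow (ev y), ev_C, ev_X, ← mul_assoc]
  congr 1
  rw [inE, inE, inE, ← map_mul]
  congr 1
  have h3 : w * n = (w * n - (c.2 : ℕ) - 1) + ((c.2 : ℕ) + 1) := by omega
  have h4 : pol (X ^ (w * n) : κ[X]) =
      pol (X ^ (w * n - (c.2 : ℕ) - 1)) * (RatFunc.X : RatFunc κ) ^ ((c.2 : ℕ) + 1) := by
    conv_lhs => rw [h3, pow_add]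
    have h5 : pol (X ^ ((c.2 : ℕ) + 1) : κ[X]) = (RatFunc.X : RatFunc κ) ^ ((c.2 : ℕ) + 1) := by
      rw [pol, map_pow]
      exact congrArg (fun z => z ^ ((c.2 : ℕ) + 1)) bas_polX
    rw [pol, map_mul]
    exact congrArg (fun z => pol (X ^ (w * n - (c.2 : ℕ) - 1) : κ[X]) * z) h5
  rw [h4, mul_assoc, ← mul_pow, mul_inv_cancel₀ bas_X, one_pow, mul_one]

private theorem bas_dle (m : ℕ) : Dle ((RatFunc.X⁻¹ : RatFunc κ) ^ m) (-(m : ℤ)) := by
  have hX : (X ^ m : κ[X]) ≠ 0 := pow_ne_zero _ X_ne_zero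
  refine dle_of_mul hX ?_
  rw [natDegree_X_pow, add_neg_cancel]
  have h1 : pol (X ^ m : κ[X]) * (RatFunc.X⁻¹ : RatFunc κ) ^ m = pol 1 := by
    rw [pol, pol, map_pow, map_one]
    have h2 : (algebraMap κ[X] (RatFunc κ)) X = RatFunc.X := bas_polX
    rw [h2, ← mul_pow, mul_inv_cancel₀ bas_X, one_pow]
  rw [h1, dle_pol_iff, natDegree_one]
  exact Or.inr le_rfl

theorem KL.bdeg_fE (H : KL w n F y e dK d) (c : Gx w n) :
    BDeg e (aa w n) (((w * (c.1 : ℕ) : ℕ) : ℤ) - ((c.2 : ℕ) : ℤ) - 1) (fE (κ := κ) y c) := by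
  have h1 := H.bdeg_ev (WD.ofX_pow (R := κ) (w := w) (c.1 : ℕ))
  rw [map_pow, ev_X] at h1
  unfold fE
  refine BDeg.mono (BDeg.smul (bas_dle ((c.2 : ℕ) + 1)) h1) ?_
  push_cast
  linarith

theorem KL.d_fE (H : KL w n F y e dK d) (c : Gx w n) :
    inE (κ := κ) E (pol (X ^ (w * n + 1))) * ev y (py F) * d (fE (κ := κ) y c) =
      ev y (dN F (w * n) (gg c)) := by
  have h1 := H.fE_mul c
  have h2 := H.d_ev (gg c)
  have h3 : inE (κ := κ) E (pol X) * d (inE (κ := κ) E (pol (X ^ (w * n)))) =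
      ((w * n : ℕ) : E) * inE (κ := κ) E (pol (X ^ (w * n))) := by
    rw [inE, inE, H.d_alg, H.dK_pol, ← map_mul, pol, pol, ← map_mul]
    have h4 : (X : κ[X]) * derivative (X ^ (w * n)) = ((w * n : ℕ) : κ[X]) * X ^ (w * n) := by
      rw [derivative_X_pow]
      rcases Nat.eq_zero_or_pos (w * n) with h0 | h0
      · rw [h0]
        simp
      · obtain ⟨m, hm⟩ : ∃ m, w * n = m + 1 := ⟨w * n - 1, by omega⟩
        rw [hm, Nat.add_sub_cancel, C_eq_natCast, pow_succ]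
        ring
    rw [h4, map_mul, map_mul, map_natCast, map_natCast]
  have h5 : (pol (X ^ (w * n + 1) : κ[X])) = pol X * pol (X ^ (w * n)) := by
    rw [pol, pol, pol, ← map_mul, pow_succ, mul_comm]
  have h6 : ev y (dN F (w * n) (gg c)) = inE (κ := κ) E (pol X) * ev y (br F (gg c)) -
      ((w * n : ℕ) : E) * ev y (gg c : κ[X][X]) * ev y (py F) := by
    unfold dN
    rw [map_sub, map_mul, map_mul, map_mul, map_natCast, ev_C]
  rw [h6, ← h2, ← h1, Derivation.leibniz, smul_eq_mul, smul_eq_mul, h5, inE, map_mul]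
  rw [inE, inE] at h3
  linear_combination (-(fE (κ := κ) y c) * ev y (py F)) * h3

private theorem KL.bas_mEcancel (H : KL w n F y e dK d) (η : IX w n → κ[X][X]) (a : IX w n) :
    mE F y η a * ev y (py F) = ev y (η a) := by
  unfold mE
  exact div_mul_cancel₀ _ H.Fy

theorem KL.low (H : KL w n F y e dK d) (hη : HB w n F η) (a : IX w n) :
    BDeg e (aa w n) (-2) (mE F y η a - d (bE κ y a)) := by
  have hn := H.hn
  have hn1 : ((w * (n - 1) : ℕ) : ℤ) = (w : ℤ) * ((n : ℤ) - 1) := by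
    rw [Nat.cast_mul, Nat.cast_sub (by omega), Nat.cast_one]
  rcases a with c | c
  · obtain ⟨h1, h2, -⟩ := bas_le c
    have e1 : d (bE κ y (Sum.inl c)) = 0 := by
      unfold bE
      rw [Sum.elim_inl, map_zero]
    rw [e1, sub_zero]
    refine H.bdeg_div ?_
    rw [H.bas_mEcancel, hη.phi c]
    have h3 : WD w ((c.2 : ℕ) + w * (n - 1 - (c.1 : ℕ))) (C (X ^ (c.2 : ℕ)) * bb F (c.1 : ℕ)) :=
      (WD.ofC (by rw [natDegree_X_pow])).mul (WD.ofbb H.wt _ c.1.2)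
    refine BDeg.mono (H.bdeg_ev h3) ?_
    have h4 : w * (n - 1 - (c.1 : ℕ)) + w * (c.1 : ℕ) = w * (n - 1) := by
      rw [← mul_add]
      congr 1
      have := c.1.2
      omega
    have h5 : (c.2 : ℕ) + w * (n - 1 - (c.1 : ℕ)) + 2 ≤ w * (n - 1) := by omega
    rw [← hn1]
    have h6 : (((c.2 : ℕ) + w * (n - 1 - (c.1 : ℕ)) + 2 : ℕ) : ℤ) ≤ ((w * (n - 1) : ℕ) : ℤ) := by
      exact_mod_cast h5
    push_cast at h6 ⊢
    linarith
  · obtain ⟨k, g, hk, hg⟩ := hη.mm c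
    have e1 : bE κ y (Sum.inr c : IX w n) = fE (κ := κ) y c := by
      unfold bE
      rw [Sum.elim_inr]
    rw [e1]
    have h1 := H.d_fE c
    have h2 := H.bas_mEcancel η (Sum.inr c)
    have h3 : inE (κ := κ) E (pol (X ^ (w * n + 1))) *
        (mE F y η (Sum.inr c) - d (fE (κ := κ) y c)) * ev y (py F) = ev y k := by
      have h4 := congrArg (ev y) hg
      rw [map_mul, map_add, map_add, map_mul (ev y) g F, H.root, ev_C, ← h1, ← h2] at h4
      linear_combination h4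
    have h5 : BDeg e (aa w n) ((w * n : ℕ) - 1 : ℤ) (inE (κ := κ) E (pol (X ^ (w * n + 1))) *
        (mE F y η (Sum.inr c) - d (fE (κ := κ) y c))) := by
      refine H.bdeg_div ?_
      rw [h3]
      refine BDeg.mono (H.bdeg_ev hk) ?_
      rw [← hn1]
      have h6 : 1 ≤ w * n := Nat.mul_pos H.hw H.hn
      have h7 : w * (n - 1) + w * n - 1 + 1 = w * (n - 1) + w * n := by omega
      have h8 : ((w * (n - 1) + w * n - 1 : ℕ) : ℤ) + 1 = ((w * (n - 1) : ℕ) : ℤ) + ((w * n : ℕ) : ℤ) := by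
        exact_mod_cast h7
      linarith
    have h9 := BDeg.smul (bas_dle (κ := κ) (w * n + 1)) h5
    have h10 : inE (κ := κ) E ((RatFunc.X⁻¹ : RatFunc κ) ^ (w * n + 1)) *
        (inE (κ := κ) E (pol (X ^ (w * n + 1))) * (mE F y η (Sum.inr c) - d (fE (κ := κ) y c))) =
        mE F y η (Sum.inr c) - d (fE (κ := κ) y c) := by
      rw [← mul_assoc, inE, inE, ← map_mul, pol, map_pow]
      have h2 : (algebraMap κ[X] (RatFunc κ)) X = RatFunc.X := bas_polX
      rw [h2, ← mul_pow, inv_mul_cancel₀ bas_X, one_pow, map_one, one_mul]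
    rw [h10] at h9
    refine BDeg.mono h9 ?_
    push_cast
    linarith

theorem KL.d_const (H : KL w n F y e dK d) (c : κ) (z : E) :
    d (inE (κ := κ) E (pol (C c)) * z) = inE (κ := κ) E (pol (C c)) * d z := by
  have h0 : pol (0 : κ[X]) = 0 := map_zero _
  rw [Derivation.leibniz, smul_eq_mul, smul_eq_mul, inE, H.d_alg, H.dK_pol, derivative_C, h0, map_zero,
    mul_zero, add_zero]

private theorem KL.bas_dlc (H : KL w n F y e dK d) (c : IX w n → κ) (b : IX w n → E) :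
    d (lc c b) = lc c (fun a => d (b a)) := by
  unfold lc
  rw [map_sum]
  exact Finset.sum_congr rfl fun a _ => H.d_const _ _

theorem KL.lc_low (H : KL w n F y e dK d) (hη : HB w n F η) (c : IX w n → κ) :
    BDeg e (aa w n) (-2) (lc c (mE F y η) - d (lc c (bE κ y))) := by
  rw [H.bas_dlc]
  unfold lc
  rw [← Finset.sum_sub_distrib]
  refine BDeg.sum _ _ fun a _ => ?_
  rw [← mul_sub]
  have h1 : Dle (pol (C (c a))) 0 := by
    rw [dle_pol_iff, natDegree_C]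
    exact Or.inr le_rfl
  exact BDeg.mono (BDeg.smul h1 (H.low hη a)) (by norm_num)

theorem KL.lc_mE (H : KL w n F y e dK d) (c : IX w n → κ) :
    lc c (mE F y η) * ev y (py F) = ev y (∑ a, cc (c a) * η a) := by
  unfold lc
  rw [Finset.sum_mul, map_sum]
  refine Finset.sum_congr rfl fun a _ => ?_
  rw [mul_assoc, H.bas_mEcancel, map_mul, ev_C]

/-- the residue of `f_c h / F_Y` -/
private theorem KL.bas_tc (H : KL w n F y e dK d) (hr : IsRes res) (c : Gx w n) (h : κ[X][X]) :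
    res (Tr κ E (fE (κ := κ) y c * (ev y h / ev y (py F)))) = tc F c h := by
  have h1 : fE (κ := κ) y c * (ev y h / ev y (py F)) =
      inE (κ := κ) E ((RatFunc.X⁻¹ : RatFunc κ) ^ ((c.2 : ℕ) + 1)) *
        (ev y (X ^ (c.1 : ℕ) * h) / ev y (py F)) := by
    unfold fE
    rw [map_mul, map_pow, ev_X, mul_assoc, mul_div_assoc]
  rw [h1, tr_inE_mul, H.euler, hr.coeff]
  rfl

/-- the residue of `f_c' d f_c` -/
private theorem KL.bas_rc (H : KL w n F y e dK d) (hr : IsRes res) (c c' : Gx w n) :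
    res (Tr κ E (fE (κ := κ) y c' * d (fE (κ := κ) y c))) = rc F c' c := by
  have h0 := H.d_fE c
  have hF := H.Fy
  have h2 : (algebraMap κ[X] (RatFunc κ)) X = RatFunc.X := bas_polX
  have h3 : d (fE (κ := κ) y c) = inE (κ := κ) E ((RatFunc.X⁻¹ : RatFunc κ) ^ (w * n + 1)) *
      (ev y (dN F (w * n) (gg c)) / ev y (py F)) := by
    rw [← h0, mul_comm (inE (κ := κ) E (pol (X ^ (w * n + 1)))), mul_assoc,
      mul_div_cancel_left₀ _ hF, ← mul_assoc, inE, inE, ← map_mul, pol, map_pow, h2, ← mul_pow,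
      inv_mul_cancel₀ bas_X, one_pow, map_one, one_mul]
  have h1 : fE (κ := κ) y c' * d (fE (κ := κ) y c) =
      inE (κ := κ) E ((RatFunc.X⁻¹ : RatFunc κ) ^ ((w * n + 1 + (c'.2 : ℕ)) + 1)) *
        (ev y (X ^ (c'.1 : ℕ) * dN F (w * n) (gg c)) / ev y (py F)) := by
    rw [h3]
    unfold fE
    have h4 : (w * n + 1 + (c'.2 : ℕ)) + 1 = ((c'.2 : ℕ) + 1) + (w * n + 1) := by omega
    have h5 : inE (κ := κ) E ((RatFunc.X⁻¹ : RatFunc κ) ^ ((w * n + 1 + (c'.2 : ℕ)) + 1)) =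
        inE (κ := κ) E ((RatFunc.X⁻¹ : RatFunc κ) ^ ((c'.2 : ℕ) + 1)) *
          inE (κ := κ) E ((RatFunc.X⁻¹ : RatFunc κ) ^ (w * n + 1)) := by
      rw [h4, pow_add]
      exact map_mul _ _ _
    rw [h5, map_mul (ev y), map_pow (ev y), ev_X, mul_div_assoc]
    generalize inE (κ := κ) E ((RatFunc.X⁻¹ : RatFunc κ) ^ ((c'.2 : ℕ) + 1)) = A
    generalize inE (κ := κ) E ((RatFunc.X⁻¹ : RatFunc κ) ^ (w * n + 1)) = B
    ring
  rw [h1, tr_inE_mul, H.euler, hr.coeff]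
  rfl

private theorem bas_tcbb (H : Wt w n F) (c c' : Gx w n) :
    tc F c (C (X ^ (c'.2 : ℕ)) * bb F (c'.1 : ℕ)) = if c = c' then 1 else 0 := by
  unfold tc
  have h1 : (X ^ (c.1 : ℕ) * (C (X ^ (c'.2 : ℕ)) * bb F (c'.1 : ℕ)) : κ[X][X]) =
      C (X ^ (c'.2 : ℕ)) * (X ^ (c.1 : ℕ) * bb F (c'.1 : ℕ)) := by ring
  rw [h1, tau_C_mul H.monic, tau_bb H.monic H.deg _ _ c'.1.2 c.1.2]
  obtain ⟨i, l⟩ := c
  obtain ⟨i', l'⟩ := c'
  by_cases hi : i = i'
  · subst hi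
    rw [if_pos rfl, mul_one, coeff_X_pow]
    by_cases hl : l = l'
    · subst hl
      rw [if_pos rfl, if_pos rfl]
    · rw [if_neg (fun h => hl (Fin.ext h)), if_neg]
      intro h
      exact hl (eq_of_heq (Sigma.mk.inj h).2)
  · rw [if_neg (fun h => hi (Fin.ext h).symm), mul_zero, coeff_zero, if_neg]
    intro h
    exact hi (Sigma.mk.inj h).1

theorem KL.Jp_basis (H : KL w n F y e dK d) (hr : IsRes res) (hη : HB w n F η) (a b : IX w n) :
    Jp res d (mE F y η a) (bE κ y a) (mE F y η b) (bE κ y b) = J0 κ (Gx w n) a b := by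
  have hl : ∀ c : Gx w n, bE κ y (Sum.inl c) = (0 : E) := fun c => by
    unfold bE
    rw [Sum.elim_inl]
  have hrr : ∀ c : Gx w n, bE κ y (Sum.inr c) = fE (κ := κ) y c := fun c => by
    unfold bE
    rw [Sum.elim_inr]
  unfold Jp J0
  rcases a with c | c <;> rcases b with c' | c'
  · rw [hl, hl, Matrix.fromBlocks_apply₁₁, map_zero, zero_mul, zero_mul, mul_zero, sub_zero, add_zero,
      map_zero, hr.zero]
    rfl
  · rw [hl, hrr, Matrix.fromBlocks_apply₁₂, map_zero, zero_mul, mul_zero, add_zero, zero_sub, map_neg,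
      hr.neg, mE, H.bas_tc hr, hη.phi, bas_tcbb H.wt, Matrix.neg_apply, Matrix.one_apply]
    congr 1
    exact if_congr eq_comm rfl rfl
  · rw [hl, hrr, Matrix.fromBlocks_apply₂₁, zero_mul, zero_mul, add_zero, sub_zero,
      mE, H.bas_tc hr, hη.phi, bas_tcbb H.wt, Matrix.one_apply]
  · rw [hrr, hrr, Matrix.fromBlocks_apply₂₂, map_add, map_sub, hr.add, hr.sub, mE, H.bas_tc hr, mE,
      H.bas_tc hr, H.bas_rc hr, hη.jj]
    rfl

private theorem bas_res2 (hr : IsRes res) {ι : Type*} [Fintype ι] (c c' : ι → κ) (z : ι → ι → E) :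
    res (Tr κ E (∑ a, ∑ b, inE (κ := κ) E (pol (C (c a))) * (inE (κ := κ) E (pol (C (c' b))) * z a b))) =
      ∑ a, ∑ b, c a * (c' b * res (Tr κ E (z a b))) := by
  rw [map_sum, hr.sum]
  refine Finset.sum_congr rfl fun a _ => ?_
  rw [map_sum, hr.sum]
  refine Finset.sum_congr rfl fun b _ => ?_
  rw [tr_inE_mul, tr_inE_mul, hr.smul, hr.smul]

theorem KL.Jp_lc (H : KL w n F y e dK d) (hr : IsRes res) (hη : HB w n F η) (c c' : IX w n → κ) :
    Jp res d (lc c (mE F y η)) (lc c (bE κ y)) (lc c' (mE F y η)) (lc c' (bE κ y)) =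
      MPadcLP.BB (J0 κ (Gx w n)) c c' := by
  have h1 : lc c (bE κ y) * lc c' (mE F y η) - lc c' (bE κ y) * lc c (mE F y η) +
      lc c' (bE κ y) * d (lc c (bE κ y)) =
      ∑ a, ∑ b, inE (κ := κ) E (pol (C (c a))) * (inE (κ := κ) E (pol (C (c' b))) *
        (bE κ y a * mE F y η b - bE κ y b * mE F y η a + bE κ y b * d (bE κ y a))) := by
    rw [H.bas_dlc, mul_comm (lc c' (bE κ y)) (lc c (mE F y η)), mul_comm (lc c' (bE κ y)) (lc c _)]
    unfold lc
    rw [Finset.sum_mul_sum, Finset.sum_mul_sum, Finset.sum_mul_sum, ← Finset.sum_sub_distrib,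
      ← Finset.sum_add_distrib]
    refine Finset.sum_congr rfl fun a _ => ?_
    rw [← Finset.sum_sub_distrib, ← Finset.sum_add_distrib]
    refine Finset.sum_congr rfl fun b _ => ?_
    ring
  unfold Jp MPadcLP.BB
  rw [h1, bas_res2 hr]
  unfold dotProduct Matrix.mulVec dotProduct
  refine Finset.sum_congr rfl fun a _ => ?_
  rw [Finset.mul_sum]
  refine Finset.sum_congr rfl fun b _ => ?_
  have h2 := H.Jp_basis hr hη a b
  unfold Jp at h2
  rw [h2]
  ring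

end MPadcLF
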