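import Pool.Agent.Lib.MP_adc574_ag_LF.Px

/-!
# JOB Branch: the branch of the curve at a smooth point

Paper 2.1. Let `F_x (x₀, y₀) ≠ 0`. There is a power series `ξ` with `ξ (0) = x₀` and
`F (ξ, y₀ + s) = 0` (implicit function theorem in `κ⟦s⟧`: `κ⟦s⟧` is Henselian, Mathlib:
`IsAdicComplete (span {X}) κ⟦X⟧` in `RingTheory/AdicCompletion/Completeness.lean` and
`IsAdicComplete.henselianRing`; the polynomial `f (z) = F (z, y₀ + s)` is not monic: after translation
`f = c₀ + c₁ z + c₂ z² + …` with `c₀ ∈ (s)`, `c₁` a unit; the reversed polynomial of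
`v ↦ f (- c₀ v / c₁) / c₀ = 1 - v + c₀ (…)` is monic with the simple root `1` modulo `s`; or construct
`ξ` by recursion on the coefficients). Put `χ (x) = ξ`, `χ (Y) = y₀ + s` (`eval₂RingHom` twice), `c = - χ (F_x)`.
`χ (br F h) = c (χ h)'`: both sides are additive and satisfy the same Leibniz rule in `h`
(`Polynomial.induction_on'` twice), so check it on constants, `x` and `Y`: for `Y`: `br F Y = - F_x`,
`(χ Y)' = 1`. For `x`: `br F x = F_Y` and `- χ(F_x) ξ' = χ (F_Y)` because
`0 = (χ F)' = χ (F_x) ξ' + χ (F_Y)` (chain rule, again by induction: `(χ h)' = χ (h_x) ξ' + χ (h_Y)`).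
If `F_Y (x₀, y₀) ≠ 0` exchange the roles: `χ (x) = x₀ + s`, `χ (Y) = η`, `c = χ (F_Y)`.
-/

set_option autoImplicit false

namespace MPadcLF

open Polynomial MPadcCov

/-- A branch at the point `(x₀, y₀)`. -/
structure IsBranch {κ : Type*} [Field κ] (F : κ[X][X]) (x₀ y₀ : κ) (χ : κ[X][X] →+* PowerSeries κ)
    (c : PowerSeries κ) : Prop where
  unit : IsUnit c
  root : χ F = 0
  const : ∀ r : κ, χ (cc r) = PowerSeries.C r
  cx : PowerSeries.constantCoeff (χ (C X)) = x₀
  cy : PowerSeries.constantCoeff (χ X) = y₀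
  der : ∀ h, χ (br F h) = c * PowerSeries.derivative κ (χ h)

theorem IsBranch.constantCoeff {κ : Type*} [Field κ] {F : κ[X][X]} {x₀ y₀ : κ}
    {χ : κ[X][X] →+* PowerSeries κ} {c : PowerSeries κ} (H : IsBranch F x₀ y₀ χ c) (h : κ[X][X]) :
    PowerSeries.constantCoeff (χ h) = e2 x₀ y₀ h := by
  have key : (PowerSeries.constantCoeff (R := κ)).comp χ = e2 x₀ y₀ := by
    apply Polynomial.ringHom_ext'
    · apply Polynomial.ringHom_ext'
      · ext r
        have h1 := congrArg (PowerSeries.constantCoeff (R := κ)) (H.const r)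
        rw [PowerSeries.constantCoeff_C] at h1
        simp only [RingHom.comp_apply]
        rw [e2]
        simp only [RingHom.comp_apply]
        exact h1.trans (by simp)
      · have h1 := H.cx
        simp only [RingHom.comp_apply]
        rw [e2]
        simp only [RingHom.comp_apply]
        exact h1.trans (by simp)
    · have h1 := H.cy
      simp only [RingHom.comp_apply]
      rw [e2]
      simp only [RingHom.comp_apply]
      exact h1.trans (by simp)
  exact RingHom.congr_fun key h

/-- Hensel's lemma for power series over a field (non-monic polynomials). -/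
private theorem Branch_hensel {κ : Type*} [Field κ] (f : (PowerSeries κ)[X]) (a : κ)
    (h0 : PowerSeries.constantCoeff (f.eval (PowerSeries.C a)) = 0)
    (h1 : PowerSeries.constantCoeff (f.derivative.eval (PowerSeries.C a)) ≠ 0) :
    ∃ ξ : PowerSeries κ, f.eval ξ = 0 ∧ PowerSeries.constantCoeff ξ = a := by
  classical
  have hcc : ∀ (g : (PowerSeries κ)[X]) (x y : PowerSeries κ),
      PowerSeries.constantCoeff x = PowerSeries.constantCoeff y →
      PowerSeries.constantCoeff (g.eval x) = PowerSeries.constantCoeff (g.eval y) := by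
    intro g x y hxy
    have h2 : (PowerSeries.X : PowerSeries κ) ∣ x - y := by
      rw [PowerSeries.X_dvd_iff, map_sub, hxy, sub_self]
    have h3 := h2.trans (sub_dvd_eval_sub x y g)
    rw [PowerSeries.X_dvd_iff, map_sub, sub_eq_zero] at h3
    exact h3
  set d : κ := PowerSeries.constantCoeff (f.derivative.eval (PowerSeries.C a)) with hd
  set u : PowerSeries κ := PowerSeries.C d⁻¹ with hu
  let s : ℕ → PowerSeries κ := fun n => Nat.rec (PowerSeries.C a) (fun _ x => x - u * f.eval x) n
  have s0 : s 0 = PowerSeries.C a := rfl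
  have ss : ∀ n, s (n + 1) = s n - u * f.eval (s n) := fun n => rfl
  have hs : ∀ n, PowerSeries.constantCoeff (s n) = a ∧
      (PowerSeries.X : PowerSeries κ) ^ (n + 1) ∣ f.eval (s n) := by
    intro n
    induction n with
    | zero =>
      refine ⟨by rw [s0, PowerSeries.constantCoeff_C], ?_⟩
      rw [zero_add, pow_one, PowerSeries.X_dvd_iff, s0]
      exact h0
    | succ n ih =>
      obtain ⟨ih1, ih2⟩ := ih
      have hX : (PowerSeries.X : PowerSeries κ) ∣ f.eval (s n) :=
        (dvd_pow_self _ (Nat.succ_ne_zero n)).trans ih2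
      have h4 : PowerSeries.constantCoeff (f.eval (s n)) = 0 := PowerSeries.X_dvd_iff.mp hX
      refine ⟨?_, ?_⟩
      · rw [ss, map_sub, map_mul, h4, mul_zero, sub_zero, ih1]
      · rw [ss]
        obtain ⟨k, hk⟩ := binomExpansion f (s n) (-(u * f.eval (s n)))
        have e1 : s n - u * f.eval (s n) = s n + -(u * f.eval (s n)) := sub_eq_add_neg _ _
        rw [e1, hk]
        have h5 : (PowerSeries.X : PowerSeries κ) ∣ 1 - f.derivative.eval (s n) * u := by
          rw [PowerSeries.X_dvd_iff, map_sub, map_mul, map_one, hu, PowerSeries.constantCoeff_C,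
            hcc f.derivative (s n) (PowerSeries.C a) (by rw [ih1, PowerSeries.constantCoeff_C]), ← hd,
            mul_inv_cancel₀ h1, sub_self]
        have h6 : (PowerSeries.X : PowerSeries κ) ^ (n + 1 + 1) ∣
            f.eval (s n) * (1 - f.derivative.eval (s n) * u) := by
          rw [pow_succ]
          exact mul_dvd_mul ih2 h5
        have h7 : (PowerSeries.X : PowerSeries κ) ^ (n + 1 + 1) ∣ f.eval (s n) * f.eval (s n) := by
          rw [pow_succ]
          exact mul_dvd_mul ih2 hX
        have h8 := dvd_add h6 (h7.mul_left (k * u ^ 2))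
        have e9 : f.eval (s n) + f.derivative.eval (s n) * -(u * f.eval (s n)) +
            k * (-(u * f.eval (s n))) ^ 2 = f.eval (s n) * (1 - f.derivative.eval (s n) * u) +
            k * u ^ 2 * (f.eval (s n) * f.eval (s n)) := by
          ring
        rw [e9]
        exact h8
  have hdiff : ∀ n, (PowerSeries.X : PowerSeries κ) ^ (n + 1) ∣ s (n + 1) - s n := by
    intro n
    have h2 : s (n + 1) - s n = f.eval (s n) * (-u) := by
      rw [ss]
      ring
    rw [h2]
    exact (hs n).2.mul_right _
  have hst : ∀ i m, i ≤ m → PowerSeries.coeff i (s m) = PowerSeries.coeff i (s i) := by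
    intro i m him
    induction m, him using Nat.le_induction with
    | base => rfl
    | succ m hm ih =>
      have h2 := PowerSeries.X_pow_dvd_iff.mp (hdiff m) i (by omega)
      rw [map_sub, sub_eq_zero] at h2
      rw [h2, ih]
  let ξ : PowerSeries κ := PowerSeries.mk fun n => PowerSeries.coeff n (s n)
  have hξ : ∀ n, (PowerSeries.X : PowerSeries κ) ^ (n + 1) ∣ ξ - s n := by
    intro n
    rw [PowerSeries.X_pow_dvd_iff]
    intro i hi
    rw [map_sub, PowerSeries.coeff_mk, hst i n (by omega), sub_self]
  refine ⟨ξ, ?_, ?_⟩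
  · ext n
    have h2 : (PowerSeries.X : PowerSeries κ) ^ (n + 1) ∣ f.eval ξ := by
      have h3 := dvd_add ((hξ n).trans (sub_dvd_eval_sub ξ (s n) f)) (hs n).2
      rwa [sub_add_cancel] at h3
    rw [map_zero]
    exact PowerSeries.X_pow_dvd_iff.mp h2 n (by omega)
  · have h2 : PowerSeries.constantCoeff ξ = PowerSeries.coeff 0 (s 0) := by
      rw [← PowerSeries.coeff_zero_eq_constantCoeff_apply, PowerSeries.coeff_mk]
    rw [h2, s0, PowerSeries.coeff_zero_eq_constantCoeff_apply, PowerSeries.constantCoeff_C]

/-- The homomorphism `x ↦ ξ`, `Y ↦ η`. -/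
private noncomputable def Branch_chi {κ : Type*} [Field κ] (ξ η : PowerSeries κ) :
    κ[X][X] →+* PowerSeries κ :=
  eval₂RingHom (eval₂RingHom (PowerSeries.C (R := κ)) ξ) η

private theorem Branch_chi_cc {κ : Type*} [Field κ] (ξ η : PowerSeries κ) (r : κ) :
    Branch_chi ξ η (cc r) = PowerSeries.C r := by
  simp [Branch_chi, cc]

private theorem Branch_chi_CX {κ : Type*} [Field κ] (ξ η : PowerSeries κ) :
    Branch_chi ξ η (C X) = ξ := by
  simp [Branch_chi]

private theorem Branch_chi_X {κ : Type*} [Field κ] (ξ η : PowerSeries κ) :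
    Branch_chi ξ η X = η := by
  simp [Branch_chi]

private theorem Branch_chain {κ : Type*} [Field κ] (ξ η : PowerSeries κ) (h : κ[X][X]) :
    PowerSeries.derivative κ (Branch_chi ξ η h) =
      Branch_chi ξ η (px h) * PowerSeries.derivative κ ξ +
      Branch_chi ξ η (py h) * PowerSeries.derivative κ η := by
  have hadd : ∀ a b : κ[X][X],
      PowerSeries.derivative κ (Branch_chi ξ η a) =
        Branch_chi ξ η (px a) * PowerSeries.derivative κ ξ +
        Branch_chi ξ η (py a) * PowerSeries.derivative κ η →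
      PowerSeries.derivative κ (Branch_chi ξ η b) =
        Branch_chi ξ η (px b) * PowerSeries.derivative κ ξ +
        Branch_chi ξ η (py b) * PowerSeries.derivative κ η →
      PowerSeries.derivative κ (Branch_chi ξ η (a + b)) =
        Branch_chi ξ η (px (a + b)) * PowerSeries.derivative κ ξ +
        Branch_chi ξ η (py (a + b)) * PowerSeries.derivative κ η := by
    intro a b ha hb
    rw [map_add, map_add, ha, hb, isDer_px.add, isDer_py.add, map_add, map_add]
    ring
  have hmul : ∀ a b : κ[X][X],
      PowerSeries.derivative κ (Branch_chi ξ η a) =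
        Branch_chi ξ η (px a) * PowerSeries.derivative κ ξ +
        Branch_chi ξ η (py a) * PowerSeries.derivative κ η →
      PowerSeries.derivative κ (Branch_chi ξ η b) =
        Branch_chi ξ η (px b) * PowerSeries.derivative κ ξ +
        Branch_chi ξ η (py b) * PowerSeries.derivative κ η →
      PowerSeries.derivative κ (Branch_chi ξ η (a * b)) =
        Branch_chi ξ η (px (a * b)) * PowerSeries.derivative κ ξ +
        Branch_chi ξ η (py (a * b)) * PowerSeries.derivative κ η := by
    intro a b ha hb
    rw [map_mul, Derivation.leibniz, smul_eq_mul, smul_eq_mul, ha, hb, isDer_px.mul, isDer_py.mul,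
      map_add, map_add, map_mul, map_mul, map_mul, map_mul]
    ring
  have hcc : ∀ r : κ, PowerSeries.derivative κ (Branch_chi ξ η (cc r)) =
        Branch_chi ξ η (px (cc r)) * PowerSeries.derivative κ ξ +
        Branch_chi ξ η (py (cc r)) * PowerSeries.derivative κ η := by
    intro r
    rw [Branch_chi_cc, px_C, py_C, derivative_C, C_0, map_zero, zero_mul, zero_mul, add_zero]
    exact (PowerSeries.derivative κ).map_algebraMap r
  have hx : PowerSeries.derivative κ (Branch_chi ξ η (C X)) =
        Branch_chi ξ η (px (C X)) * PowerSeries.derivative κ ξ +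
        Branch_chi ξ η (py (C X)) * PowerSeries.derivative κ η := by
    rw [Branch_chi_CX, px_C, py_C, derivative_X, C_1, map_one, map_zero]
    ring
  have hy : PowerSeries.derivative κ (Branch_chi ξ η X) =
        Branch_chi ξ η (px X) * PowerSeries.derivative κ ξ +
        Branch_chi ξ η (py X) * PowerSeries.derivative κ η := by
    rw [Branch_chi_X, px_X, py_X, map_one, map_zero]
    ring
  have hC : ∀ q : κ[X], PowerSeries.derivative κ (Branch_chi ξ η (C q)) =
        Branch_chi ξ η (px (C q)) * PowerSeries.derivative κ ξ +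
        Branch_chi ξ η (py (C q)) * PowerSeries.derivative κ η := by
    intro q
    induction q using Polynomial.induction_on with
    | C a => exact hcc a
    | add p q hp hq =>
      rw [C_add]
      exact hadd _ _ hp hq
    | monomial n a ih =>
      rw [pow_succ, ← mul_assoc, C_mul]
      exact hmul _ _ ih hx
  induction h using Polynomial.induction_on with
  | C a => exact hC a
  | add p q hp hq => exact hadd _ _ hp hq
  | monomial n a ih =>
    rw [pow_succ, ← mul_assoc]
    exact hmul _ _ ih hy

private theorem Branch_cc_chi {κ : Type*} [Field κ] (ξ η : PowerSeries κ) (x₀ y₀ : κ)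
    (hx : PowerSeries.constantCoeff ξ = x₀) (hy : PowerSeries.constantCoeff η = y₀) (h : κ[X][X]) :
    PowerSeries.constantCoeff (Branch_chi ξ η h) = e2 x₀ y₀ h := by
  have key : (PowerSeries.constantCoeff (R := κ)).comp (Branch_chi ξ η) = e2 x₀ y₀ := by
    apply Polynomial.ringHom_ext'
    · apply Polynomial.ringHom_ext'
      · ext r
        simp [Branch_chi, e2]
      · simp [Branch_chi, e2, hx]
    · simp [Branch_chi, e2, hy]
  exact RingHom.congr_fun key h

theorem exists_branch_x {κ : Type*} [Field κ] (F : κ[X][X]) (x₀ y₀ : κ)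
    (hF : e2 x₀ y₀ F = 0) (hx : e2 x₀ y₀ (px F) ≠ 0) :
    ∃ (χ : κ[X][X] →+* PowerSeries κ) (c : PowerSeries κ), IsBranch F x₀ y₀ χ c ∧
      χ X = PowerSeries.C y₀ + PowerSeries.X := by
  set η : PowerSeries κ := PowerSeries.C y₀ + PowerSeries.X with hη
  have hηc : PowerSeries.constantCoeff η = y₀ := by
    rw [hη, map_add, PowerSeries.constantCoeff_C, PowerSeries.constantCoeff_X, add_zero]
  set Θ : κ[X][X] →+* (PowerSeries κ)[X] :=
    eval₂RingHom (mapRingHom (PowerSeries.C (R := κ))) (C η) with hΘ
  have hev : ∀ (ξ : PowerSeries κ) (h : κ[X][X]), (Θ h).eval ξ = Branch_chi ξ η h := by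
    intro ξ h
    have key : (evalRingHom ξ).comp Θ = Branch_chi ξ η := by
      apply Polynomial.ringHom_ext'
      · apply Polynomial.ringHom_ext'
        · ext r
          simp [Branch_chi, hΘ]
        · simp [Branch_chi, hΘ]
      · simp [Branch_chi, hΘ]
    exact RingHom.congr_fun key h
  have hder : ∀ h : κ[X][X], derivative (Θ h) = Θ (px h) := by
    intro h
    have hadd : ∀ a b : κ[X][X], derivative (Θ a) = Θ (px a) → derivative (Θ b) = Θ (px b) →
        derivative (Θ (a + b)) = Θ (px (a + b)) := by
      intro a b ha hb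
      rw [map_add, derivative_add, ha, hb, isDer_px.add, map_add]
    have hmul : ∀ a b : κ[X][X], derivative (Θ a) = Θ (px a) → derivative (Θ b) = Θ (px b) →
        derivative (Θ (a * b)) = Θ (px (a * b)) := by
      intro a b ha hb
      rw [map_mul, derivative_mul, ha, hb, isDer_px.mul, map_add, map_mul, map_mul]
      ring
    have hx' : derivative (Θ (C X)) = Θ (px (C X)) := by
      rw [px_C, derivative_X, C_1, map_one]
      simp [hΘ]
    have hy' : derivative (Θ X) = Θ (px X) := by
      rw [px_X, map_zero]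
      simp [hΘ]
    have hC : ∀ q : κ[X], derivative (Θ (C q)) = Θ (px (C q)) := by
      intro q
      induction q using Polynomial.induction_on with
      | C a =>
        rw [px_C, derivative_C, C_0, map_zero]
        simp [hΘ]
      | add p q hp hq =>
        rw [C_add]
        exact hadd _ _ hp hq
      | monomial n a ih =>
        rw [pow_succ, ← mul_assoc, C_mul]
        exact hmul _ _ ih hx'
    induction h using Polynomial.induction_on with
    | C a => exact hC a
    | add p q hp hq => exact hadd _ _ hp hq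
    | monomial n a ih =>
      rw [pow_succ, ← mul_assoc]
      exact hmul _ _ ih hy'
  obtain ⟨ξ, hξ, hξ0⟩ := Branch_hensel (Θ F) x₀
    (by rw [hev, Branch_cc_chi _ η x₀ y₀ (PowerSeries.constantCoeff_C x₀) hηc, hF])
    (by rw [hder, hev, Branch_cc_chi _ η x₀ y₀ (PowerSeries.constantCoeff_C x₀) hηc]; exact hx)
  rw [hev] at hξ
  have hη' : PowerSeries.derivative κ η = 1 := by
    rw [hη, map_add, PowerSeries.derivative_X]
    have : PowerSeries.derivative κ (PowerSeries.C y₀) = 0 :=
      (PowerSeries.derivative κ).map_algebraMap y₀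
    rw [this, zero_add]
  refine ⟨Branch_chi ξ η, -Branch_chi ξ η (px F), ⟨?_, hξ, ?_, ?_, ?_, ?_⟩, Branch_chi_X ξ η⟩
  · rw [PowerSeries.isUnit_iff_constantCoeff, map_neg, Branch_cc_chi ξ η x₀ y₀ hξ0 hηc]
    exact (neg_ne_zero.mpr hx).isUnit
  · exact Branch_chi_cc ξ η
  · rw [Branch_chi_CX, hξ0]
  · rw [Branch_chi_X, hηc]
  · intro h
    have e1 := Branch_chain ξ η F
    rw [hξ, map_zero, hη', mul_one] at e1
    rw [Branch_chain ξ η h, hη', mul_one]
    unfold br
    rw [map_sub, map_mul, map_mul]
    linear_combination (-Branch_chi ξ η (px h)) * e1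

theorem exists_branch_y {κ : Type*} [Field κ] (F : κ[X][X]) (x₀ y₀ : κ)
    (hF : e2 x₀ y₀ F = 0) (hy : e2 x₀ y₀ (py F) ≠ 0) :
    ∃ (χ : κ[X][X] →+* PowerSeries κ) (c : PowerSeries κ), IsBranch F x₀ y₀ χ c ∧
      χ (C X) = PowerSeries.C x₀ + PowerSeries.X := by
  set ξ : PowerSeries κ := PowerSeries.C x₀ + PowerSeries.X with hξ
  have hξc : PowerSeries.constantCoeff ξ = x₀ := by
    rw [hξ, map_add, PowerSeries.constantCoeff_C, PowerSeries.constantCoeff_X, add_zero]
  set Θ : κ[X][X] →+* (PowerSeries κ)[X] :=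
    mapRingHom (eval₂RingHom (PowerSeries.C (R := κ)) ξ) with hΘ
  have hev : ∀ (η : PowerSeries κ) (h : κ[X][X]), (Θ h).eval η = Branch_chi ξ η h := by
    intro η h
    rw [hΘ, coe_mapRingHom, eval_map]
    rfl
  have hder : ∀ h : κ[X][X], derivative (Θ h) = Θ (py h) := by
    intro h
    rw [hΘ, coe_mapRingHom, derivative_map]
    rfl
  obtain ⟨η, hη, hη0⟩ := Branch_hensel (Θ F) y₀
    (by rw [hev, Branch_cc_chi ξ _ x₀ y₀ hξc (PowerSeries.constantCoeff_C y₀), hF])
    (by rw [hder, hev, Branch_cc_chi ξ _ x₀ y₀ hξc (PowerSeries.constantCoeff_C y₀)]; exact hy)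
  rw [hev] at hη
  have hξ' : PowerSeries.derivative κ ξ = 1 := by
    rw [hξ, map_add, PowerSeries.derivative_X]
    have : PowerSeries.derivative κ (PowerSeries.C x₀) = 0 :=
      (PowerSeries.derivative κ).map_algebraMap x₀
    rw [this, zero_add]
  refine ⟨Branch_chi ξ η, Branch_chi ξ η (py F), ⟨?_, hη, ?_, ?_, ?_, ?_⟩, Branch_chi_CX ξ η⟩
  · rw [PowerSeries.isUnit_iff_constantCoeff, Branch_cc_chi ξ η x₀ y₀ hξc hη0]
    exact hy.isUnit
  · exact Branch_chi_cc ξ η
  · rw [Branch_chi_CX, hξc]
  · rw [Branch_chi_X, hη0]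
  · intro h
    have e1 := Branch_chain ξ η F
    rw [hη, map_zero, hξ', mul_one] at e1
    rw [Branch_chain ξ η h, hξ', mul_one]
    unfold br
    rw [map_sub, map_mul, map_mul]
    linear_combination Branch_chi ξ η (py h) * e1

end MPadcLF
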