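import Mathlib

/-!
# Descent of ideals of polynomials in two variables along field extensions
-/

set_option autoImplicit false

namespace MPadcLF

open Polynomial

/-- A field extension has a linear retraction. -/
theorem exists_retract {K L : Type*} [Field K] [Field L] (i : K →+* L) :
    ∃ r : L →+ K, (∀ x, r (i x) = x) ∧ ∀ a x, r (i a * x) = a * r x := by
  let _ : Algebra K L := i.toAlgebra
  have hinj : Function.Injective (Algebra.linearMap K L) := i.injective
  obtain ⟨g, hg⟩ := LinearMap.exists_leftInverse_of_injective (Algebra.linearMap K L)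
    (LinearMap.ker_eq_bot.2 hinj)
  refine ⟨g.toAddMonoidHom, fun x => ?_, fun a x => ?_⟩
  · exact LinearMap.congr_fun hg x
  · have h1 : i a * x = a • x := (Algebra.smul_def a x).symm
    rw [h1]
    exact g.map_smul a x

/-- An additive map applied to the coefficients of a polynomial. -/
noncomputable def mapAdd {L K : Type*} [Semiring L] [Semiring K] (r : L →+ K) : L[X] →+ K[X] where
  toFun f := ∑ n ∈ f.support, monomial n (r (f.coeff n))
  map_zero' := by simp
  map_add' f g := by
    have key : ∀ (h : L[X]), (∑ n ∈ h.support, monomial n (r (h.coeff n)) : K[X]) =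
        h.sum fun n c => monomial n (r c) := fun h => rfl
    rw [key, key, key]
    exact Polynomial.sum_add_index _ _ _ (fun n => by simp) (fun n a b => by simp)

theorem coeff_mapAdd {L K : Type*} [Semiring L] [Semiring K] (r : L →+ K) (f : L[X]) (n : ℕ) :
    (mapAdd r f).coeff n = r (f.coeff n) := by
  classical
  change (∑ m ∈ f.support, monomial m (r (f.coeff m)) : K[X]).coeff n = _
  rw [finsetSum_coeff]
  simp only [coeff_monomial]
  rw [Finset.sum_ite_eq']
  split_ifs with h
  · rfl
  · rw [notMem_support_iff.1 h, map_zero]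

/-- The retraction on polynomials. -/
theorem mapAdd_retract {K L : Type*} [CommRing K] [CommRing L] (i : K →+* L) (r : L →+ K)
    (h1 : ∀ x, r (i x) = x) (h2 : ∀ a x, r (i a * x) = a * r x) :
    (∀ f : K[X], mapAdd r (f.map i) = f) ∧
      ∀ (f : K[X]) (g : L[X]), mapAdd r (f.map i * g) = f * mapAdd r g := by
  constructor
  · intro f
    ext n
    rw [coeff_mapAdd, coeff_map, h1]
  · intro f g
    ext n
    rw [coeff_mapAdd, coeff_mul, coeff_mul, map_sum]
    refine Finset.sum_congr rfl fun x _ => ?_
    rw [coeff_map, h2, coeff_mapAdd]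

/-- Membership in an ideal of `K[x, Y]` descends along an extension of fields. -/
theorem mem_of_map_mem {K L : Type*} [Field K] [Field L] (i : K →+* L) (I : Ideal K[X][X])
    (h : K[X][X]) (hm : h.map (mapRingHom i) ∈ I.map (mapRingHom (mapRingHom i))) : h ∈ I := by
  obtain ⟨r, h1, h2⟩ := exists_retract i
  obtain ⟨h3, h4⟩ := mapAdd_retract i r h1 h2
  obtain ⟨h5, h6⟩ := mapAdd_retract (mapRingHom i) (mapAdd r) h3 h4
  have key : ∀ z ∈ I.map (mapRingHom (mapRingHom i)), ∀ a : L[X][X],
      mapAdd (mapAdd r) (a * z) ∈ I := by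
    intro z hz
    rw [Ideal.map] at hz
    induction hz using Submodule.span_induction with
    | mem x hx =>
      intro a
      obtain ⟨f, hf, rfl⟩ := hx
      rw [coe_mapRingHom, mul_comm, h6]
      exact I.mul_mem_right _ hf
    | zero =>
      intro a
      rw [mul_zero, map_zero]
      exact I.zero_mem
    | add x y _ _ hx hy =>
      intro a
      rw [mul_add, map_add]
      exact I.add_mem (hx a) (hy a)
    | smul b x _ hx =>
      intro a
      rw [smul_eq_mul, ← mul_assoc]
      exact hx _
  have h7 := key _ hm 1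
  rw [one_mul, h5] at h7
  exact h7

theorem eq_top_of_map {K L : Type*} [Field K] [Field L] (i : K →+* L) (I : Ideal K[X][X])
    (h : I.map (mapRingHom (mapRingHom i)) = ⊤) : I = ⊤ := by
  rw [Ideal.eq_top_iff_one]
  apply mem_of_map_mem i I 1
  rw [h]
  exact Submodule.mem_top

/-- Proper ideals of `K[x, Y]` have zeros, for `K` algebraically closed. -/
theorem exists_zero {K : Type*} [Field K] [IsAlgClosed K] (I : Ideal K[X][X]) (hI : I ≠ ⊤) :
    ∃ x₀ y₀ : K, ∀ f ∈ I, (f.eval (C y₀)).eval x₀ = 0 := by
  obtain ⟨M, hM, hIM⟩ := Ideal.exists_le_maximal I hI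
  let _ : Field (K[X][X] ⧸ M) := Ideal.Quotient.field M
  have h1 : Algebra.FiniteType K K[X][X] :=
    Algebra.FiniteType.trans (inferInstance : Algebra.FiniteType K K[X]) inferInstance
  have h2 : Algebra.FiniteType K (K[X][X] ⧸ M) :=
    Algebra.FiniteType.of_surjective (Ideal.Quotient.mkₐ K M) (Ideal.Quotient.mkₐ_surjective K M)
  have h3 : Module.Finite K (K[X][X] ⧸ M) := finite_of_finite_type_of_isJacobsonRing K (K[X][X] ⧸ M)
  have h4 : Algebra.IsIntegral K (K[X][X] ⧸ M) := inferInstance
  have h5 := (IsAlgClosed.algebraMap_bijective_of_isIntegral (k := K) (K := K[X][X] ⧸ M)).2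
  obtain ⟨x₀, hx⟩ := h5 (Ideal.Quotient.mk M (C X))
  obtain ⟨y₀, hy⟩ := h5 (Ideal.Quotient.mk M X)
  refine ⟨x₀, y₀, fun f hf => ?_⟩
  have h6 : (algebraMap K (K[X][X] ⧸ M)).comp ((evalRingHom x₀).comp (evalRingHom (C y₀))) =
      Ideal.Quotient.mk M := by
    apply Polynomial.ringHom_ext
    · intro g
      have h7 : (algebraMap K (K[X][X] ⧸ M)).comp (evalRingHom x₀) =
          (Ideal.Quotient.mk M).comp C := by
        apply Polynomial.ringHom_ext
        · intro a
          simp only [RingHom.comp_apply, coe_evalRingHom, eval_C]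
          rfl
        · simp only [RingHom.comp_apply, coe_evalRingHom, eval_X]
          exact hx
      have h8 := RingHom.congr_fun h7 g
      simp only [RingHom.comp_apply, coe_evalRingHom] at h8
      simp only [RingHom.comp_apply, coe_evalRingHom, eval_C]
      exact h8
    · simp only [RingHom.comp_apply, coe_evalRingHom, eval_X, eval_C]
      exact hy
  have h7 := RingHom.congr_fun h6 f
  simp only [RingHom.comp_apply, coe_evalRingHom] at h7
  rw [Ideal.Quotient.eq_zero_iff_mem.2 (hIM hf)] at h7
  exact (map_eq_zero _).1 h7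

/-- Points over `L` of ideals over `K`. -/
theorem ideal_descent {K L : Type*} [Field K] [IsAlgClosed K] [Field L] (i : K →+* L)
    (I : Ideal K[X][X]) (h : I.map (mapRingHom (mapRingHom i)) = ⊤ ∨
      (I.map (mapRingHom (mapRingHom i))).IsMaximal) :
    I = ⊤ ∨ ∃ x₀ y₀ : K, C (X - C x₀) ∈ I ∧ X - C (C y₀) ∈ I := by
  rcases h with h | h
  · exact Or.inl (eq_top_of_map i I h)
  · right
    have hI : I ≠ ⊤ := by
      rintro rfl
      apply h.ne_top
      rw [Ideal.map_top]
    obtain ⟨x₀, y₀, hz⟩ := exists_zero I hI
    -- the ideal of the point over `L`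
    let ev : L[X][X] →+* L := (evalRingHom (i x₀)).comp (evalRingHom (C (i y₀)))
    have hev : ∀ f : K[X][X], ev (f.map (mapRingHom i)) = i ((f.eval (C y₀)).eval x₀) := by
      intro f
      have h1 : ev.comp (mapRingHom (mapRingHom i)) =
          i.comp ((evalRingHom x₀).comp (evalRingHom (C y₀))) := by
        apply Polynomial.ringHom_ext
        · intro g
          have h2 : (evalRingHom (i x₀)).comp (mapRingHom i) = i.comp (evalRingHom x₀) := by
            apply Polynomial.ringHom_ext
            · intro a
              simp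
            · simp
          have h3 := RingHom.congr_fun h2 g
          simp only [RingHom.comp_apply, coe_mapRingHom, coe_evalRingHom] at h3
          simp only [ev, RingHom.comp_apply, coe_mapRingHom, coe_evalRingHom, map_C, eval_C]
          exact h3
        · simp [ev]
      exact RingHom.congr_fun h1 f
    have hle : I.map (mapRingHom (mapRingHom i)) ≤ RingHom.ker ev := by
      rw [Ideal.map_le_iff_le_comap]
      intro f hf
      rw [Ideal.mem_comap, RingHom.mem_ker, coe_mapRingHom, hev, hz f hf, map_zero]
    have hker : RingHom.ker ev ≠ ⊤ := RingHom.ker_ne_top ev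
    have heq := h.eq_of_le hker hle
    refine ⟨x₀, y₀, ?_, ?_⟩
    · apply mem_of_map_mem i
      rw [heq, RingHom.mem_ker, hev]
      simp
    · apply mem_of_map_mem i
      rw [heq, RingHom.mem_ker, hev]
      simp

end MPadcLF
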