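import Mathlib
import Pool.Agent.Lib.MP_adc574_ag_LF.DescA

/-!
# Certificates over a domain from those over a field
-/

set_option autoImplicit false

namespace MPadcLF

open Polynomial

/-- The embedding of `R[x, Y]` in `L[x, Y]`. -/
noncomputable abbrev emb {R L : Type*} [CommRing R] [CommRing L] (φ : R →+* L) :
    R[X][X] →+* L[X][X] := mapRingHom (mapRingHom φ)

/-- Common denominators. -/
theorem exists_denom {R L : Type*} [CommRing R] [IsDomain R] [Field L] [Algebra R L]
    [IsFractionRing R L] (a : L[X][X]) :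
    ∃ (c : R) (a' : R[X][X]), c ≠ 0 ∧ C (C (algebraMap R L c)) * a = emb (algebraMap R L) a' := by
  induction a using Polynomial.induction_on' with
  | add p q hp hq =>
    obtain ⟨c, a, hc, ha⟩ := hp
    obtain ⟨d, b, hd, hb⟩ := hq
    refine ⟨c * d, C (C d) * a + C (C c) * b, mul_ne_zero hc hd, ?_⟩
    rw [(emb (algebraMap R L)).map_add, (emb (algebraMap R L)).map_mul,
      (emb (algebraMap R L)).map_mul, ← ha, ← hb]
    simp only [emb, coe_mapRingHom, map_C, map_mul]
    ring
  | monomial n p =>
    obtain ⟨b, hb0, hb⟩ := IsLocalization.integerNormalization_spec (nonZeroDivisors R) p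
    refine ⟨b, monomial n (IsLocalization.integerNormalization (nonZeroDivisors R) p),
      nonZeroDivisors.ne_zero hb0, ?_⟩
    rw [emb, coe_mapRingHom, map_monomial, C_mul_monomial, coe_mapRingHom]
    congr 1
    rw [hb]
    ext i
    rw [coeff_C_mul, coeff_smul]
    exact (Algebra.smul_def _ _).symm

theorem exists_mem_of_fraction {R L : Type*} [CommRing R] [IsDomain R] [Field L] [Algebra R L]
    [IsFractionRing R L] (I : Ideal R[X][X]) (z : L[X][X]) (hz : z ∈ I.map (emb (algebraMap R L))) :
    ∃ c : R, c ≠ 0 ∧ ∃ f ∈ I, C (C (algebraMap R L c)) * z = emb (algebraMap R L) f := by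
  have key : ∀ z ∈ I.map (emb (algebraMap R L)), ∀ a : L[X][X],
      ∃ c : R, c ≠ 0 ∧ ∃ f ∈ I, C (C (algebraMap R L c)) * (a * z) = emb (algebraMap R L) f := by
    intro z hz
    rw [Ideal.map] at hz
    induction hz using Submodule.span_induction with
    | mem x hx =>
      intro a
      obtain ⟨f, hf, rfl⟩ := hx
      obtain ⟨c, a', hc, ha⟩ := exists_denom (R := R) a
      refine ⟨c, hc, a' * f, I.mul_mem_left _ hf, ?_⟩
      rw [← mul_assoc, ha, map_mul]
    | zero =>
      intro a
      exact ⟨1, one_ne_zero, 0, I.zero_mem, by rw [mul_zero, mul_zero, map_zero]⟩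
    | add x y _ _ hx hy =>
      intro a
      obtain ⟨c, hc, f, hf, hcf⟩ := hx a
      obtain ⟨d, hd, g, hg, hdg⟩ := hy a
      refine ⟨c * d, mul_ne_zero hc hd, C (C d) * f + C (C c) * g,
        I.add_mem (I.mul_mem_left _ hf) (I.mul_mem_left _ hg), ?_⟩
      rw [(emb (algebraMap R L)).map_add, (emb (algebraMap R L)).map_mul,
        (emb (algebraMap R L)).map_mul, ← hcf, ← hdg]
      simp only [emb, coe_mapRingHom, map_C, map_mul]
      ring
    | smul b x _ hx =>
      intro a
      rw [smul_eq_mul, ← mul_assoc a]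
      exact hx _
  obtain ⟨c, hc, f, hf, h1⟩ := key z hz 1
  rw [one_mul] at h1
  exact ⟨c, hc, f, hf, h1⟩

/-- If an ideal of `R[x, Y]` becomes the unit ideal over a field containing `R`, then it contains a
nonzero constant. -/
theorem certificate {R k : Type*} [CommRing R] [IsDomain R] [Field k] (θ : R →+* k)
    (hθ : Function.Injective θ) (I : Ideal R[X][X]) (h : I.map (emb θ) = ⊤) :
    ∃ c : R, c ≠ 0 ∧ C (C c) ∈ I := by
  set i : FractionRing R →+* k := IsFractionRing.lift hθ with hi
  have h1 : emb θ = (emb i).comp (emb (algebraMap R (FractionRing R))) := by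
    rw [emb, emb, emb, mapRingHom_comp, mapRingHom_comp]
    congr 2
    ext x
    rw [RingHom.comp_apply, hi, IsFractionRing.lift_algebraMap]
  rw [h1, ← Ideal.map_map] at h
  have h2 := eq_top_of_map i _ h
  have h3 : (1 : (FractionRing R)[X][X]) ∈ I.map (emb (algebraMap R (FractionRing R))) := by
    rw [h2]
    exact Submodule.mem_top
  obtain ⟨c, hc, f, hf, hcf⟩ := exists_mem_of_fraction I 1 h3
  refine ⟨c, hc, ?_⟩
  have h4 : emb (algebraMap R (FractionRing R)) (C (C c)) =
      emb (algebraMap R (FractionRing R)) f := by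
    rw [← hcf, mul_one]
    simp [emb]
  have h5 : Function.Injective (emb (algebraMap R (FractionRing R))) := by
    apply Polynomial.map_injective
    apply Polynomial.map_injective
    exact IsFractionRing.injective R (FractionRing R)
  rw [h5 h4]
  exact hf

/-- The same for polynomials in one variable. -/
theorem certificate_one {R k : Type*} [CommRing R] [IsDomain R] [Field k] (θ : R →+* k)
    (hθ : Function.Injective θ) (p q : R[X]) (h : IsCoprime (p.map θ) (q.map θ)) :
    ∃ (c : R) (u v : R[X]), c ≠ 0 ∧ u * p + v * q = C c := by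
  set i : FractionRing R →+* k := IsFractionRing.lift hθ with hi
  have h1 : θ = i.comp (algebraMap R (FractionRing R)) := by
    ext x
    rw [RingHom.comp_apply, hi, IsFractionRing.lift_algebraMap]
  rw [h1, ← Polynomial.map_map, ← Polynomial.map_map, isCoprime_map] at h
  obtain ⟨u, v, huv⟩ := h
  have hden : ∀ x : (FractionRing R)[X], ∃ (b : R) (y : R[X]), b ≠ 0 ∧
      C (algebraMap R (FractionRing R) b) * x = y.map (algebraMap R (FractionRing R)) := by
    intro x
    obtain ⟨b, hb0, hb⟩ := IsLocalization.integerNormalization_spec (nonZeroDivisors R) x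
    refine ⟨b, IsLocalization.integerNormalization (nonZeroDivisors R) x,
      nonZeroDivisors.ne_zero hb0, ?_⟩
    rw [hb]
    ext i
    rw [coeff_C_mul, coeff_smul]
    exact (Algebra.smul_def _ _).symm
  obtain ⟨b, u', hb, hu⟩ := hden u
  obtain ⟨d, v', hd, hv⟩ := hden v
  refine ⟨b * d, C d * u', C b * v', mul_ne_zero hb hd, ?_⟩
  apply Polynomial.map_injective _ (IsFractionRing.injective R (FractionRing R))
  rw [Polynomial.map_add, Polynomial.map_mul, Polynomial.map_mul, Polynomial.map_mul,
    Polynomial.map_mul, ← hu, ← hv, map_C, map_C, map_C, map_mul, C_mul]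
  linear_combination (C (algebraMap R (FractionRing R) b) * C (algebraMap R (FractionRing R) d)) *
    huv

end MPadcLF
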