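import Pool.Agent.Lib.MP_adc574_ag_LF.Nat
import Pool.Agent.Lib.MP_adc574_ag_LF.Cert

/-!
# Clearing the denominators of the connection over a domain
-/

set_option autoImplicit false

namespace MPadcLF

open Polynomial MPadcCov

private theorem GmDom_clear {R κ : Type*} [CommRing R] [IsDomain R] [Field κ] [Algebra R κ]
    [IsFractionRing R κ] {ι : Type*} [Fintype ι] [DecidableEq ι] (h : ι → κ[X][X]) :
    ∃ Δ : R, Δ ≠ 0 ∧ ∀ i, ∃ h' : R[X][X], cc (algebraMap R κ Δ) * h i =
      mp (algebraMap R κ) h' := by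
  choose c a' hc ha using fun i => exists_denom (R := R) (h i)
  refine ⟨∏ i, c i, Finset.prod_ne_zero_iff.2 fun i _ => hc i, fun i => ?_⟩
  refine ⟨cc (∏ j ∈ Finset.univ.erase i, c j) * a' i, ?_⟩
  have h1 : mp (algebraMap R κ) (a' i) = C (C (algebraMap R κ (c i))) * h i := (ha i).symm
  have h2 : mp (algebraMap R κ) (cc (∏ j ∈ Finset.univ.erase i, c j)) =
      cc (algebraMap R κ (∏ j ∈ Finset.univ.erase i, c j)) := mp_cc _ _
  rw [RingHom.map_mul (mp (algebraMap R κ)), h1, h2, ← mul_assoc, cc, cc, ← C_mul, ← C_mul,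
    ← map_mul, mul_comm (∏ j ∈ Finset.univ.erase i, c j),
    Finset.mul_prod_erase Finset.univ c (Finset.mem_univ i)]

/-- Clearing denominators. -/
theorem exists_gm_dom {R : Type*} [CommRing R] [IsDomain R] {w n : ℕ} {F : R[X][X]}
    {η : IX w n → R[X][X]} {κ : Type*} [Field κ] [Algebra R κ] [IsFractionRing R κ]
    {D : R → R} (hder : IsDer D) (δ : κ → κ) (hδ : IsDer δ)
    (hδ' : ∀ r : R, δ (algebraMap R κ r) = algebraMap R κ (D r))
    (G : Matrix (IX w n) (IX w n) κ)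
    (hG : IsGM δ 1 (mp (algebraMap R κ) F) (fun a => mp (algebraMap R κ) (η a)) G) :
    ∃ (Δ : R) (G' : Matrix (IX w n) (IX w n) R), Δ ≠ 0 ∧ IsGM D Δ F η G' := by
  classical
  have hG' := hG
  choose α β γ g e' h1 h2 using hG'
  obtain ⟨Δ, hΔ, hcl⟩ := GmDom_clear (R := R) (κ := κ) (ι := (IX w n × IX w n) ⊕ (IX w n × Fin 5))
    (Sum.elim (fun p => cc (G p.1 p.2)) (fun p => ![α p.1, β p.1, γ p.1, g p.1, e' p.1] p.2))
  choose h' hh' using hcl
  have kG : ∀ b a, algebraMap R κ (((h' (Sum.inl (b, a))).coeff 0).coeff 0) =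
      algebraMap R κ Δ * G b a := by
    intro b a
    have h3 := hh' (Sum.inl (b, a))
    have h4 : cc (algebraMap R κ Δ) * cc (G b a) = mp (algebraMap R κ) (h' (Sum.inl (b, a))) := h3
    have h5 : ((mp (algebraMap R κ) (h' (Sum.inl (b, a)))).coeff 0).coeff 0 =
        algebraMap R κ (((h' (Sum.inl (b, a))).coeff 0).coeff 0) := by
      unfold mp
      rw [coe_mapRingHom, coeff_map, coe_mapRingHom, coeff_map]
    rw [← h5, ← h4, ← map_mul, ← map_mul, coeff_C_zero, coeff_C_zero]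
  have kα : ∀ a, cc (algebraMap R κ Δ) * α a = mp (algebraMap R κ) (h' (Sum.inr (a, 0))) :=
    fun a => hh' (Sum.inr (a, 0))
  have kβ : ∀ a, cc (algebraMap R κ Δ) * β a = mp (algebraMap R κ) (h' (Sum.inr (a, 1))) :=
    fun a => hh' (Sum.inr (a, 1))
  have kγ : ∀ a, cc (algebraMap R κ Δ) * γ a = mp (algebraMap R κ) (h' (Sum.inr (a, 2))) :=
    fun a => hh' (Sum.inr (a, 2))
  have kg : ∀ a, cc (algebraMap R κ Δ) * g a = mp (algebraMap R κ) (h' (Sum.inr (a, 3))) :=
    fun a => hh' (Sum.inr (a, 3))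
  have ke : ∀ a, cc (algebraMap R κ Δ) * e' a = mp (algebraMap R κ) (h' (Sum.inr (a, 4))) :=
    fun a => hh' (Sum.inr (a, 4))
  have hinj : Function.Injective (mp (algebraMap R κ)) := by
    have i1 : Function.Injective (algebraMap R κ) := IsFractionRing.injective R κ
    have i2 : Function.Injective (mapRingHom (algebraMap R κ)) := map_injective _ i1
    exact map_injective _ i2
  have hpT : ∀ f : R[X][X], pT δ (mp (algebraMap R κ) f) = mp (algebraMap R κ) (pT D f) :=
    fun f => (mp_pT (algebraMap R κ) hder hδ (fun r => (hδ' r).symm) f).symm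
  have hx : IsDer (px : κ[X][X] → κ[X][X]) := isDer_px
  have hy : IsDer (py : κ[X][X] → κ[X][X]) := isDer_py
  have pxc : ∀ (r : κ) (f : κ[X][X]), px (cc r * f) = cc r * px f := by
    intro r f
    rw [hx.mul, px_C, derivative_C, C_0, mul_zero, add_zero]
  have pyc : ∀ (r : κ) (f : κ[X][X]), py (cc r * f) = cc r * py f := by
    intro r f
    rw [hy.mul, py_C, mul_zero, add_zero]
  refine ⟨Δ, Matrix.of fun b a => ((h' (Sum.inl (b, a))).coeff 0).coeff 0, hΔ, fun a =>
    ⟨h' (Sum.inr (a, 0)), h' (Sum.inr (a, 1)), h' (Sum.inr (a, 2)), h' (Sum.inr (a, 3)),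
      h' (Sum.inr (a, 4)), ?_, ?_⟩⟩
  · apply hinj
    rw [map_mul, map_mul, map_add, map_add, map_mul, map_mul, map_mul, ← hpT, mp_px, mp_py, mp_cc,
      ← kα, ← kβ, ← kγ]
    have h3 := h1 a
    have h4 : (cc (1 : κ) : κ[X][X]) = 1 := by
      rw [cc, C_1, C_1]
    rw [h4, one_mul] at h3
    linear_combination cc (algebraMap R κ Δ) * h3
  · apply hinj
    rw [map_sub, map_sub, map_sub, map_mul, map_add, map_add, map_mul, map_sum, ← hpT, mp_px,
      mp_py, mp_cc, mp_br, ← kα, ← kβ, ← kγ, ← kg, ← ke, pxc, pyc, br_cc_mul]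
    have h3 := h2 a
    have h4 : (cc (1 : κ) : κ[X][X]) = 1 := by
      rw [cc, C_1, C_1]
    rw [h4, one_mul] at h3
    have h5 : ∑ b, mp (algebraMap R κ)
        (cc ((Matrix.of fun b a => ((h' (Sum.inl (b, a))).coeff 0).coeff 0) b a) * η b) =
        cc (algebraMap R κ Δ) * ∑ b, cc (G b a) * mp (algebraMap R κ) (η b) := by
      rw [Finset.mul_sum]
      refine Finset.sum_congr rfl fun b _ => ?_
      rw [map_mul, mp_cc, Matrix.of_apply, kG, cc, C_mul, C_mul]
      ring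
    rw [h5]
    linear_combination cc (algebraMap R κ Δ) * h3

end MPadcLF
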