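import Pool.Agent.Lib.MP_adc574_ag_LF.Px

/-!
# JOB Kos: the Koszul complex and the uniqueness of the connection

Paper 2.6.
* `koszul` (over any commutative ring `R`): if `u F + v F_x + z F_Y = cc σ` and
  `A F_x + B F_Y + Q F = 0` then with `lam = A u - Q v`, `kap = A z - B v`, `mu = B u - Q z`:
  `cc σ A = lam F + kap F_Y`, `cc σ B = mu F - kap F_x`, `cc σ Q = - lam F_x - mu F_Y`, and so
  `cc σ (A_x + B_Y + Q) = (lam_x + mu_Y) F + br F kap` (apply `px`, `py` to the first two;
  `px (cc σ A) = cc σ px A`; `linear_combination`).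
* `gm_unique`: subtract `cc σ'` times the relation of `IsGM` for `∑ cc (v a) η a` (linear combination of the relations for
  the `a`; `D (v a) = 0`) and `cc Δ` times the relation `h`: a syzygy; conclude by `koszul`.
-/

set_option autoImplicit false

namespace MPadcLF

open Polynomial MPadcCov

section koszul

variable {R : Type*} [CommRing R]

private theorem Kos_px_cc (r : R) : px (cc r) = 0 := by
  rw [px_C, derivative_C, C_0]

private theorem Kos_px_cc_mul (r : R) (h : R[X][X]) : px (cc r * h) = cc r * px h := by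
  rw [isDer_px.mul, Kos_px_cc, mul_zero, add_zero]

private theorem Kos_py_cc_mul (r : R) (h : R[X][X]) : py (cc r * h) = cc r * py h := by
  rw [isDer_py.mul, py_C, mul_zero, add_zero]

theorem koszul {F : R[X][X]} {σ : R} {u v z : R[X][X]}
    (h : u * F + v * px F + z * py F = cc σ) {A B Q : R[X][X]}
    (hs : A * px F + B * py F + Q * F = 0) :
    ∃ g e : R[X][X], cc σ * (px A + py B + Q) = br F g + e * F := by
  have hA : cc σ * A = (A * u - Q * v) * F + (A * z - B * v) * py F := by
    linear_combination (-A) * h + v * hs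
  have hB : cc σ * B = (B * u - Q * z) * F - (A * z - B * v) * px F := by
    linear_combination (-B) * h + z * hs
  have hQ : cc σ * Q = -((A * u - Q * v) * px F) - (B * u - Q * z) * py F := by
    linear_combination (-Q) * h + u * hs
  generalize hlam : A * u - Q * v = lam at hA hQ
  generalize hkap : A * z - B * v = kap at hA hB
  generalize hmu : B * u - Q * z = mu at hB hQ
  have h1 : cc σ * px A = lam * px F + F * px lam + (kap * px (py F) + py F * px kap) := by
    rw [← Kos_px_cc_mul, hA, isDer_px.add, isDer_px.mul, isDer_px.mul]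
  have h2 : cc σ * py B = mu * py F + F * py mu - (kap * py (px F) + px F * py kap) := by
    rw [← Kos_py_cc_mul, hB, isDer_py.sub, isDer_py.mul, isDer_py.mul]
  refine ⟨kap, px lam + py mu, ?_⟩
  rw [mul_add, mul_add, h1, h2, hQ, py_px]
  unfold br
  ring

/-- Uniqueness of the connection up to a constant factor. -/
theorem gm_unique {ι : Type} [Fintype ι] {D : R → R} (hD : IsDer D) {F : R[X][X]} {σ : R}
    (hσ : Sm F σ) {Δ σ' : R} {η : ι → R[X][X]} {G : Matrix ι ι R} (hG : IsGM D Δ F η G)
    (v : ι → R) (hv : ∀ a, D (v a) = 0) {α β γ : R[X][X]}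
    (h : cc σ' * (∑ a, cc (v a) * η a) * pT D F = α * px F + β * py F + γ * F) :
    ∃ g e : R[X][X], cc (σ * Δ) * (cc σ' * pT D (∑ a, cc (v a) * η a) - px α - py β - γ) =
      ∑ b, cc (σ * σ' * G.mulVec v b) * η b + br F g + e * F := by
  obtain ⟨u1, u2, u3, hu⟩ := hσ
  unfold IsGM at hG
  choose a1 a2 a3 g1 e1 hG1 hG2 using hG
  -- the linear combination
  have hF : cc Δ * (∑ a, cc (v a) * η a) * pT D F =
      (∑ a, cc (v a) * a1 a) * px F + (∑ a, cc (v a) * a2 a) * py F + (∑ a, cc (v a) * a3 a) * F := by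
    rw [Finset.mul_sum, Finset.sum_mul, Finset.sum_mul, Finset.sum_mul, Finset.sum_mul, ← Finset.sum_add_distrib,
      ← Finset.sum_add_distrib]
    refine Finset.sum_congr rfl fun a _ => ?_
    linear_combination (cc (v a)) * hG1 a
  have hpT : pT D (∑ a, cc (v a) * η a) = ∑ a, cc (v a) * pT D (η a) := by
    rw [(isDer_pT hD).sum]
    refine Finset.sum_congr rfl fun a _ => ?_
    rw [(isDer_pT hD).mul, pT_cc hD, hv a]
    simp [cc]
  have hpx : px (∑ a, cc (v a) * a1 a) = ∑ a, cc (v a) * px (a1 a) := by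
    rw [isDer_px.sum]
    exact Finset.sum_congr rfl fun a _ => Kos_px_cc_mul _ _
  have hpy : py (∑ a, cc (v a) * a2 a) = ∑ a, cc (v a) * py (a2 a) := by
    rw [isDer_py.sum]
    exact Finset.sum_congr rfl fun a _ => Kos_py_cc_mul _ _
  have hbr : br F (∑ a, cc (v a) * g1 a) = ∑ a, cc (v a) * br F (g1 a) := by
    rw [(isDer_br F).sum]
    exact Finset.sum_congr rfl fun a _ => br_cc_mul F _ _
  have hsum : (∑ a, cc (v a) * ∑ b, cc (G b a) * η b) = ∑ b, cc (G.mulVec v b) * η b := by
    simp only [Finset.mul_sum]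
    rw [Finset.sum_comm]
    refine Finset.sum_congr rfl fun b _ => ?_
    have h5 : (cc (G.mulVec v b) : R[X][X]) = ∑ a, cc (G b a) * cc (v a) := by
      unfold Matrix.mulVec dotProduct
      simp only [cc, map_sum, map_mul]
    rw [h5, Finset.sum_mul]
    refine Finset.sum_congr rfl fun a _ => ?_
    ring
  have hR : cc Δ * pT D (∑ a, cc (v a) * η a) - px (∑ a, cc (v a) * a1 a) - py (∑ a, cc (v a) * a2 a) -
      (∑ a, cc (v a) * a3 a) = ∑ b, cc (G.mulVec v b) * η b + br F (∑ a, cc (v a) * g1 a) +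
        (∑ a, cc (v a) * e1 a) * F := by
    rw [hpT, hpx, hpy, hbr, ← hsum, Finset.mul_sum, Finset.sum_mul, ← Finset.sum_sub_distrib, ← Finset.sum_sub_distrib,
      ← Finset.sum_sub_distrib, ← Finset.sum_add_distrib, ← Finset.sum_add_distrib]
    refine Finset.sum_congr rfl fun a _ => ?_
    linear_combination (cc (v a)) * hG2 a
  generalize (∑ a, cc (v a) * a1 a) = A1 at hF hR
  generalize (∑ a, cc (v a) * a2 a) = A2 at hF hR
  generalize (∑ a, cc (v a) * a3 a) = A3 at hF hR
  generalize (∑ a, cc (v a) * g1 a) = G1 at hR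
  generalize (∑ a, cc (v a) * e1 a) = E1 at hR
  generalize pT D (∑ a, cc (v a) * η a) = PS at hR ⊢
  have hs : (cc σ' * A1 - cc Δ * α) * px F + (cc σ' * A2 - cc Δ * β) * py F +
      (cc σ' * A3 - cc Δ * γ) * F = 0 := by
    linear_combination (-cc σ') * hF + (cc Δ) * h
  obtain ⟨g0, e0, h0⟩ := koszul hu hs
  rw [isDer_px.sub, isDer_py.sub, Kos_px_cc_mul, Kos_px_cc_mul, Kos_py_cc_mul, Kos_py_cc_mul] at h0
  refine ⟨cc (σ * σ') * G1 + g0, cc (σ * σ') * E1 + e0, ?_⟩
  have h7 : ∑ b, cc (σ * σ' * G.mulVec v b) * η b = cc σ * cc σ' * ∑ b, cc (G.mulVec v b) * η b := by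
    rw [Finset.mul_sum]
    refine Finset.sum_congr rfl fun b _ => ?_
    simp only [cc, map_mul]
    ring
  have h8 : (cc (σ * Δ) : R[X][X]) = cc σ * cc Δ := by simp only [cc, map_mul]
  have h9 : (cc (σ * σ') : R[X][X]) = cc σ * cc σ' := by simp only [cc, map_mul]
  rw [(isDer_br F).add, br_cc_mul, h7, h8, h9]
  linear_combination (cc σ * cc σ') * hR + h0

end koszul

end MPadcLF
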