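import Pool.Agent.Lib.MP_adc574_ag_LF.Px

/-!
# JOB Loc2: the Jacobian ideal at a node

Paper 2.5. `R = PowerSeries κ`, `J = jac F`, `F_T = pT D F` with `D` the derivative `d / ds`.
* `jac_top`: if `1` is in the Jacobian ideal of the reduction then `J + (s) = (1)`: `1 = j + s h`, so
  `1 = (j + s h) ^ M = j' + s ^ M h ^ M ∈ J`.
* `jac_node`: all `h : R[X][X]` satisfy `h - cc r ∈ J + (s)` for a constant `r = e2 x₀ y₀ (hbar)` (because
  `h (x, Y) - h (x₀, y₀) ∈ (x - x₀, Y - y₀)` and these are in `Jbar` lifted). Iterating `M` times and using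
  `cc (s ^ M) ∈ J`: for all `h` there is `ρ : R` with `h - cc ρ ∈ J`. So `C X - cc ξ ∈ J`, `X - cc η ∈ J`,
  and `h - cc (e2 ξ η h) ∈ J` for all `h` (`h (x, Y) - h (ξ, η) ∈ (x - ξ, Y - η)`). The constant coefficients of `ξ`, `η` are
  `x₀`, `y₀` if `J ≠ 1` (otherwise `jac F = ⊤`, first alternative; note that then everything is trivial). The ideal
  `{r | cc r ∈ J}` of `R` contains `s ^ M`, so it is `(s ^ m)`, `m ≥ 1`. `e2 ξ η` of `F`, `F_x`, `F_Y` are in
  `(s ^ m)`, and the chain rule `(e2 ξ η F)' = e2 ξ η F_T + e2 ξ η F_x * ξ' + e2 ξ η F_Y * η'` gives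
  `e2 ξ η F_T ∈ (s ^ (m - 1))`. So for `h` with `e2 ξ η h ∈ (s)` (constant coefficient `e2 x₀ y₀ hbar = 0`):
  `h F_T ≡ cc (e2 ξ η h * e2 ξ η F_T) ∈ J`.
-/

set_option autoImplicit false

namespace MPadcLF

open Polynomial MPadcCov

variable {κ : Type*} [Field κ]

private theorem Loc2_cc_mul {R : Type*} [CommRing R] (a b : R) : cc (a * b) = cc a * cc b := by
  show C (C (a * b)) = C (C a) * C (C b)
  rw [C_mul, C_mul]

private theorem Loc2_cc_add {R : Type*} [CommRing R] (a b : R) : cc (a + b) = cc a + cc b := by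
  show C (C (a + b)) = C (C a) + C (C b)
  rw [C_add, C_add]

private theorem Loc2_cc_sub {R : Type*} [CommRing R] (a b : R) : cc (a - b) = cc a - cc b := by
  show C (C (a - b)) = C (C a) - C (C b)
  rw [C_sub, C_sub]

private theorem Loc2_cc_pow {R : Type*} [CommRing R] (a : R) (m : ℕ) : cc (a ^ m) = cc a ^ m := by
  show C (C (a ^ m)) = C (C a) ^ m
  rw [C_pow, C_pow]

private theorem Loc2_cc_one {R : Type*} [CommRing R] : cc (1 : R) = 1 := by
  show C (C (1 : R)) = 1
  rw [C_1, C_1]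

private theorem Loc2_cc_zero {R : Type*} [CommRing R] : cc (0 : R) = 0 := by
  show C (C (0 : R)) = 0
  rw [C_0, C_0]

private theorem Loc2_map_surj {R R' : Type*} [CommRing R] [CommRing R'] (φ : R →+* R')
    (h : Function.Surjective φ) : Function.Surjective (mp φ) :=
  map_surjective _ (map_surjective _ h)

/-- The kernel of the reduction is generated by `s`. -/
private theorem Loc2_ker (h : (PowerSeries κ)[X][X])
    (h0 : mp (PowerSeries.constantCoeff (R := κ)) h = 0) :
    ∃ h', h = cc PowerSeries.X * h' := by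
  have h1 : ∀ i j, PowerSeries.X ∣ (h.coeff i).coeff j := by
    intro i j
    rw [PowerSeries.X_dvd_iff]
    have h2 : ((mp (PowerSeries.constantCoeff (R := κ)) h).coeff i).coeff j = 0 := by
      rw [h0, coeff_zero, coeff_zero]
    have h3 : ((mp (PowerSeries.constantCoeff (R := κ)) h).coeff i).coeff j =
        PowerSeries.constantCoeff ((h.coeff i).coeff j) := by
      simp [mp]
    rw [← h3, h2]
  have h5 : cc PowerSeries.X ∣ h := by
    show C (C PowerSeries.X) ∣ h
    rw [C_dvd_iff_dvd_coeff]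
    intro i
    rw [C_dvd_iff_dvd_coeff]
    exact h1 i
  exact h5

private theorem Loc2_lift {F h : (PowerSeries κ)[X][X]}
    (hh : mp (PowerSeries.constantCoeff (R := κ)) h ∈
      jac (mp (PowerSeries.constantCoeff (R := κ)) F)) :
    ∃ h', h - cc PowerSeries.X * h' ∈ jac F := by
  unfold jac at hh
  rw [Ideal.mem_span_insert] at hh
  obtain ⟨u', z, hz, e1⟩ := hh
  rw [Ideal.mem_span_pair] at hz
  obtain ⟨v', w', e2'⟩ := hz
  have hs := Loc2_map_surj (PowerSeries.constantCoeff (R := κ)) PowerSeries.constantCoeff_surj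
  obtain ⟨u, rfl⟩ := hs u'
  obtain ⟨v, rfl⟩ := hs v'
  obtain ⟨w, rfl⟩ := hs w'
  have h0 : mp (PowerSeries.constantCoeff (R := κ)) (h - (u * F + (v * px F + w * py F))) = 0 := by
    rw [map_sub, map_add, map_add, map_mul, map_mul, map_mul, mp_px, mp_py, e2', ← e1, sub_self]
  obtain ⟨h', hh'⟩ := Loc2_ker _ h0
  refine ⟨h', ?_⟩
  have h5 : h - cc PowerSeries.X * h' = u * F + (v * px F + w * py F) := by
    rw [← hh']
    ring
  rw [h5]
  unfold jac
  refine Ideal.add_mem _ (Ideal.mul_mem_left _ _ (Ideal.subset_span (by simp)))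
    (Ideal.add_mem _ (Ideal.mul_mem_left _ _ (Ideal.subset_span (by simp)))
      (Ideal.mul_mem_left _ _ (Ideal.subset_span (by simp))))

private theorem Loc2_red {F h : (PowerSeries κ)[X][X]} (hh : h ∈ jac F) :
    mp (PowerSeries.constantCoeff (R := κ)) h ∈
      jac (mp (PowerSeries.constantCoeff (R := κ)) F) := by
  unfold jac at hh
  rw [Ideal.mem_span_insert] at hh
  obtain ⟨u, z, hz, e1⟩ := hh
  rw [Ideal.mem_span_pair] at hz
  obtain ⟨v, w, e2'⟩ := hz
  rw [e1, ← e2', map_add, map_add, map_mul, map_mul, map_mul, mp_px, mp_py]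
  unfold jac
  refine Ideal.add_mem _ (Ideal.mul_mem_left _ _ (Ideal.subset_span (by simp)))
    (Ideal.add_mem _ (Ideal.mul_mem_left _ _ (Ideal.subset_span (by simp)))
      (Ideal.mul_mem_left _ _ (Ideal.subset_span (by simp))))

theorem jac_top (F : (PowerSeries κ)[X][X]) (M : ℕ) (hM : cc (PowerSeries.X ^ M) ∈ jac F)
    (h : (1 : κ[X][X]) ∈ jac (mp (PowerSeries.constantCoeff (R := κ)) F)) : jac F = ⊤ := by
  have h1 : mp (PowerSeries.constantCoeff (R := κ)) (1 : (PowerSeries κ)[X][X]) ∈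
      jac (mp (PowerSeries.constantCoeff (R := κ)) F) := by
    rw [map_one]
    exact h
  obtain ⟨g, hg⟩ := Loc2_lift h1
  have h2 : 1 - cc PowerSeries.X * g ∣ 1 - (cc PowerSeries.X * g) ^ M := by
    have h3 := sub_dvd_pow_sub_pow 1 (cc PowerSeries.X * g) M
    rwa [one_pow] at h3
  have h4 : 1 - (cc PowerSeries.X * g) ^ M ∈ jac F := Ideal.mem_of_dvd _ h2 hg
  have h5 : (cc PowerSeries.X * g) ^ M ∈ jac F := by
    rw [mul_pow]
    rw [← Loc2_cc_pow]
    exact Ideal.mul_mem_right _ _ hM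
  rw [Ideal.eq_top_iff_one]
  have h7 := Ideal.add_mem _ h4 h5
  rwa [sub_add_cancel] at h7

private theorem Loc2_e2_sub {R : Type*} [CommRing R] (a b : R) (I : Ideal R[X][X])
    (ha : C (X - C a) ∈ I) (hb : X - C (C b) ∈ I) (h : R[X][X]) : h - cc (e2 a b h) ∈ I := by
  have h1 : h - C (eval (C b) h) ∈ I := Ideal.mem_of_dvd _ X_sub_C_dvd_sub_C_eval hb
  have h2 : C (eval (C b) h) - cc (e2 a b h) ∈ I := by
    have h3 : (X - C a) ∣ (eval (C b) h) - C (eval a (eval (C b) h)) := X_sub_C_dvd_sub_C_eval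
    obtain ⟨q, hq⟩ := h3
    have h4 : C (eval (C b) h) - cc (e2 a b h) = C (X - C a) * C q := by
      rw [← C_mul, ← hq, C_sub]
      rfl
    rw [h4]
    exact Ideal.mul_mem_right _ _ ha
  have h5 := Ideal.add_mem _ h1 h2
  rwa [sub_add_sub_cancel] at h5

private theorem Loc2_e2_map {R R' : Type*} [CommRing R] [CommRing R'] (φ : R →+* R') (a b : R)
    (h : R[X][X]) : φ (e2 a b h) = e2 (φ a) (φ b) (mp φ h) := by
  have h1 : φ.comp (e2 a b) = (e2 (φ a) (φ b)).comp (mp φ) := by
    refine ringHom_ext' (ringHom_ext' ?_ ?_) ?_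
    · ext r
      simp [e2, mp]
    · simp [e2, mp]
    · simp [e2, mp]
  exact DFunLike.congr_fun h1 h

private theorem Loc2_chain {R : Type*} [CommRing R] {D : R → R} (hD : IsDer D) (a b : R)
    (h : R[X][X]) :
    D (e2 a b h) = e2 a b (pT D h) + e2 a b (px h) * D a + e2 a b (py h) * D b := by
  have eC : ∀ r : R, e2 a b (cc r) = r := by
    intro r
    simp [e2, cc]
  have eX : e2 a b (C X) = a := by simp [e2]
  have eY : e2 a b (X : R[X][X]) = b := by simp [e2]
  have hadd : ∀ f g : R[X][X],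
      D (e2 a b f) = e2 a b (pT D f) + e2 a b (px f) * D a + e2 a b (py f) * D b →
      D (e2 a b g) = e2 a b (pT D g) + e2 a b (px g) * D a + e2 a b (py g) * D b →
      D (e2 a b (f + g)) = e2 a b (pT D (f + g)) + e2 a b (px (f + g)) * D a +
        e2 a b (py (f + g)) * D b := by
    intro f g hf hg
    rw [map_add, hD.add, hf, hg, (isDer_pT hD).add, isDer_px.add, isDer_py.add, map_add, map_add,
      map_add]
    ring
  have hmul : ∀ f g : R[X][X],
      D (e2 a b f) = e2 a b (pT D f) + e2 a b (px f) * D a + e2 a b (py f) * D b →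
      D (e2 a b g) = e2 a b (pT D g) + e2 a b (px g) * D a + e2 a b (py g) * D b →
      D (e2 a b (f * g)) = e2 a b (pT D (f * g)) + e2 a b (px (f * g)) * D a +
        e2 a b (py (f * g)) * D b := by
    intro f g hf hg
    rw [map_mul, hD.mul, hf, hg, (isDer_pT hD).mul, isDer_px.mul, isDer_py.mul, map_add, map_add,
      map_add, map_mul, map_mul, map_mul, map_mul, map_mul, map_mul]
    ring
  have hcc : ∀ r : R, D (e2 a b (cc r)) = e2 a b (pT D (cc r)) + e2 a b (px (cc r)) * D a +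
      e2 a b (py (cc r)) * D b := by
    intro r
    rw [pT_cc hD, px_C, py_C, derivative_C, eC, eC]
    simp
  have hCX : D (e2 a b (C X)) = e2 a b (pT D (C X)) + e2 a b (px (C X)) * D a +
      e2 a b (py (C X)) * D b := by
    rw [pT_CX hD, px_C, py_C, derivative_X, eX]
    simp
  have hX : D (e2 a b (X : R[X][X])) = e2 a b (pT D X) + e2 a b (px X) * D a +
      e2 a b (py X) * D b := by
    rw [pT_X hD, px_X, py_X, eY]
    simp
  have hC : ∀ q : R[X], D (e2 a b (C q)) = e2 a b (pT D (C q)) + e2 a b (px (C q)) * D a +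
      e2 a b (py (C q)) * D b := by
    intro q
    induction q using Polynomial.induction_on with
    | C r => exact hcc r
    | add p q hp hq =>
      rw [C_add]
      exact hadd _ _ hp hq
    | monomial n r hn =>
      rw [pow_succ, ← mul_assoc, C_mul]
      exact hmul _ _ hn hCX
  induction h using Polynomial.induction_on with
  | C q => exact hC q
  | add p q hp hq => exact hadd _ _ hp hq
  | monomial n q hn =>
    rw [pow_succ, ← mul_assoc]
    exact hmul _ _ hn hX

private theorem Loc2_der : IsDer (fun r => PowerSeries.derivative κ r) := by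
  constructor
  · intro a b
    exact map_add _ a b
  · intro a b
    have h := (PowerSeries.derivative κ).leibniz a b
    rw [smul_eq_mul, smul_eq_mul] at h
    exact h

private theorem Loc2_dvd (J : Ideal (PowerSeries κ)[X][X]) (m : ℕ)
    (hmin : ∀ k, k < m → cc (PowerSeries.X ^ k) ∉ J) (r : PowerSeries κ) (hr : cc r ∈ J) :
    PowerSeries.X ^ m ∣ r := by
  classical
  by_contra hnd
  rw [PowerSeries.X_pow_dvd_iff] at hnd
  push Not at hnd
  obtain ⟨k', hk', hne⟩ := hnd
  have hex : ∃ k, PowerSeries.coeff k r ≠ 0 := ⟨k', hne⟩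
  obtain ⟨n, hn, hspec, hnmin⟩ : ∃ n, n ≤ k' ∧ PowerSeries.coeff n r ≠ 0 ∧
      ∀ j, j < n → PowerSeries.coeff j r = 0 :=
    ⟨Nat.find hex, Nat.find_min' hex hne, Nat.find_spec hex,
      fun j hj => not_not.mp (Nat.find_min hex hj)⟩
  have hd : PowerSeries.X ^ n ∣ r := PowerSeries.X_pow_dvd_iff.mpr hnmin
  obtain ⟨u, hu⟩ := hd
  have h0 : PowerSeries.constantCoeff u ≠ 0 := by
    intro h2
    apply hspec
    rw [hu]
    have h3 := PowerSeries.coeff_X_pow_mul u n 0
    rw [zero_add] at h3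
    rw [h3, PowerSeries.coeff_zero_eq_constantCoeff_apply, h2]
  have hun : IsUnit u := PowerSeries.isUnit_iff_constantCoeff.mpr (isUnit_iff_ne_zero.mpr h0)
  obtain ⟨v, hv⟩ := hun.exists_right_inv
  apply hmin _ (lt_of_le_of_lt hn hk')
  have h4 : cc (PowerSeries.X ^ n) = cc r * cc v := by
    rw [← Loc2_cc_mul, hu, mul_assoc, hv, mul_one]
  rw [h4]
  exact Ideal.mul_mem_right _ _ hr

theorem jac_node (F : (PowerSeries κ)[X][X]) (M : ℕ) (hM : cc (PowerSeries.X ^ M) ∈ jac F)
    (x₀ y₀ : κ) (hx : C (X - C x₀) ∈ jac (mp (PowerSeries.constantCoeff (R := κ)) F))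
    (hy : X - C (C y₀) ∈ jac (mp (PowerSeries.constantCoeff (R := κ)) F)) :
    cc PowerSeries.X * pT (fun r => PowerSeries.derivative κ r) F ∈ jac F ∧
    ∀ h : (PowerSeries κ)[X][X], e2 x₀ y₀ (mp (PowerSeries.constantCoeff (R := κ)) h) = 0 →
      h * pT (fun r => PowerSeries.derivative κ r) F ∈ jac F := by
  classical
  by_cases htop : jac F = ⊤
  · rw [htop]
    exact ⟨Submodule.mem_top, fun _ _ => Submodule.mem_top⟩
  -- every polynomial is a constant modulo `J` and `s`
  have step1 : ∀ h : (PowerSeries κ)[X][X], ∃ (r : PowerSeries κ) (h' : (PowerSeries κ)[X][X]),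
      h - cc r - cc PowerSeries.X * h' ∈ jac F := by
    intro h
    have h1 : mp (PowerSeries.constantCoeff (R := κ))
        (h - cc (PowerSeries.C (e2 x₀ y₀ (mp (PowerSeries.constantCoeff (R := κ)) h)))) ∈
        jac (mp (PowerSeries.constantCoeff (R := κ)) F) := by
      rw [map_sub, mp_cc, PowerSeries.constantCoeff_C]
      exact Loc2_e2_sub x₀ y₀ _ hx hy _
    obtain ⟨h', hh'⟩ := Loc2_lift h1
    exact ⟨_, h', hh'⟩
  have step2 : ∀ (k : ℕ) (h : (PowerSeries κ)[X][X]),
      ∃ (r : PowerSeries κ) (h' : (PowerSeries κ)[X][X]),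
      h - cc r - cc (PowerSeries.X ^ k) * h' ∈ jac F := by
    intro k
    induction k with
    | zero =>
      intro h
      refine ⟨0, h, ?_⟩
      have h1 : h - cc 0 - cc (PowerSeries.X ^ 0) * h = 0 := by
        rw [pow_zero, Loc2_cc_one, Loc2_cc_zero]
        ring
      rw [h1]
      exact Ideal.zero_mem _
    | succ k ih =>
      intro h
      obtain ⟨r, h', hh'⟩ := ih h
      obtain ⟨r2, h2, hh2⟩ := step1 h'
      refine ⟨r + PowerSeries.X ^ k * r2, h2, ?_⟩
      have h3 : h - cc (r + PowerSeries.X ^ k * r2) - cc (PowerSeries.X ^ (k + 1)) * h2 =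
          (h - cc r - cc (PowerSeries.X ^ k) * h') +
            cc (PowerSeries.X ^ k) * (h' - cc r2 - cc PowerSeries.X * h2) := by
        rw [Loc2_cc_add, Loc2_cc_mul, pow_succ, Loc2_cc_mul]
        ring
      rw [h3]
      exact Ideal.add_mem _ hh' (Ideal.mul_mem_left _ _ hh2)
  have step3 : ∀ h : (PowerSeries κ)[X][X], ∃ r : PowerSeries κ, h - cc r ∈ jac F := by
    intro h
    obtain ⟨r, h', hh'⟩ := step2 M h
    refine ⟨r, ?_⟩
    have h1 := Ideal.add_mem _ hh' (Ideal.mul_mem_left _ h' hM)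
    have h2 : h - cc r - cc (PowerSeries.X ^ M) * h' + h' * cc (PowerSeries.X ^ M) = h - cc r := by
      ring
    rwa [h2] at h1
  obtain ⟨ξ, hξ⟩ := step3 (C X)
  obtain ⟨η, hη⟩ := step3 X
  have hξ' : C (X - C ξ) ∈ jac F := by
    rw [C_sub]
    exact hξ
  have key := Loc2_e2_sub ξ η (jac F) hξ' hη
  -- the constant coefficients
  have hconst : ∀ r : κ, cc r ∈ jac (mp (PowerSeries.constantCoeff (R := κ)) F) → r = 0 := by
    intro r hr
    by_contra hne
    apply htop
    refine jac_top F M hM ?_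
    have h1 : (1 : κ[X][X]) = cc r⁻¹ * cc r := by
      rw [← Loc2_cc_mul, inv_mul_cancel₀ hne, Loc2_cc_one]
    rw [h1]
    exact Ideal.mul_mem_left _ _ hr
  have hx0 : PowerSeries.constantCoeff ξ = x₀ := by
    have h1 := Loc2_red hξ'
    have h2 : mp (PowerSeries.constantCoeff (R := κ)) (C (X - C ξ)) =
        C (X - C (PowerSeries.constantCoeff ξ)) := by
      simp [mp]
    rw [h2] at h1
    have h3 := Ideal.sub_mem _ hx h1
    have h4 : (C (X - C x₀) : κ[X][X]) - C (X - C (PowerSeries.constantCoeff ξ)) =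
        cc (PowerSeries.constantCoeff ξ - x₀) := by
      rw [← C_sub, sub_sub_sub_cancel_left, ← C_sub]
    rw [h4] at h3
    exact sub_eq_zero.mp (hconst _ h3)
  have hy0 : PowerSeries.constantCoeff η = y₀ := by
    have h1 := Loc2_red hη
    have h2 : mp (PowerSeries.constantCoeff (R := κ)) (X - cc η) =
        X - C (C (PowerSeries.constantCoeff η)) := by
      simp [mp]
    rw [h2] at h1
    have h3 := Ideal.sub_mem _ hy h1
    have h4 : (X - C (C y₀) : κ[X][X]) - (X - C (C (PowerSeries.constantCoeff η))) =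
        cc (PowerSeries.constantCoeff η - y₀) := by
      rw [sub_sub_sub_cancel_left, ← C_sub, ← C_sub]
    rw [h4] at h3
    exact sub_eq_zero.mp (hconst _ h3)
  -- the minimal power
  have hex : ∃ m, cc (PowerSeries.X ^ m) ∈ jac F := ⟨M, hM⟩
  obtain ⟨m, hm, hmin⟩ : ∃ m, cc (PowerSeries.X ^ m) ∈ jac F ∧
      ∀ k, k < m → cc (PowerSeries.X ^ k) ∉ jac F :=
    ⟨Nat.find hex, Nat.find_spec hex, fun k hk => Nat.find_min hex hk⟩
  have hm1 : 1 ≤ m := by
    rcases Nat.eq_zero_or_pos m with h0 | h0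
    · exfalso
      apply htop
      rw [h0, pow_zero, Loc2_cc_one] at hm
      exact (Ideal.eq_top_iff_one _).mpr hm
    · exact h0
  have hdvd : ∀ r : PowerSeries κ, cc r ∈ jac F → PowerSeries.X ^ m ∣ r :=
    fun r hr => Loc2_dvd (jac F) m hmin r hr
  have hmem : ∀ r : PowerSeries κ, PowerSeries.X ^ m ∣ r → cc r ∈ jac F := by
    rintro r ⟨u, rfl⟩
    rw [mul_comm, Loc2_cc_mul]
    exact Ideal.mul_mem_left _ _ hm
  have hval : ∀ g ∈ jac F, PowerSeries.X ^ m ∣ e2 ξ η g := by
    intro g hg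
    apply hdvd
    have h1 := Ideal.sub_mem _ hg (key g)
    rwa [sub_sub_cancel] at h1
  have hF : PowerSeries.X ^ m ∣ e2 ξ η F := hval _ (Ideal.subset_span (by simp))
  have hFx : PowerSeries.X ^ m ∣ e2 ξ η (px F) := hval _ (Ideal.subset_span (by simp))
  have hFy : PowerSeries.X ^ m ∣ e2 ξ η (py F) := hval _ (Ideal.subset_span (by simp))
  -- the derivative
  have hlow : (PowerSeries.X : PowerSeries κ) ^ (m - 1) ∣ PowerSeries.X ^ m :=
    pow_dvd_pow _ (Nat.sub_le m 1)
  have hDF : (PowerSeries.X : PowerSeries κ) ^ (m - 1) ∣ PowerSeries.derivative κ (e2 ξ η F) := by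
    obtain ⟨u, hu⟩ := hF
    have h1 := (Loc2_der (κ := κ)).mul (PowerSeries.X ^ m) u
    have h2 := (Loc2_der (κ := κ)).pow PowerSeries.X m
    beta_reduce at h1 h2
    rw [hu, h1, h2]
    refine dvd_add (Dvd.dvd.mul_right hlow _) (Dvd.dvd.mul_left ?_ _)
    exact Dvd.dvd.mul_right (Dvd.dvd.mul_left dvd_rfl _) _
  have hFT : (PowerSeries.X : PowerSeries κ) ^ (m - 1) ∣
      e2 ξ η (pT (fun r => PowerSeries.derivative κ r) F) := by
    have h1 := Loc2_chain (Loc2_der (κ := κ)) ξ η F
    beta_reduce at h1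
    have h2 : e2 ξ η (pT (fun r => PowerSeries.derivative κ r) F) =
        PowerSeries.derivative κ (e2 ξ η F) - e2 ξ η (px F) * PowerSeries.derivative κ ξ -
          e2 ξ η (py F) * PowerSeries.derivative κ η := by
      rw [h1]
      ring
    rw [h2]
    exact dvd_sub (dvd_sub hDF (Dvd.dvd.mul_right (hlow.trans hFx) _))
      (Dvd.dvd.mul_right (hlow.trans hFy) _)
  have hfin : ∀ h : (PowerSeries κ)[X][X], PowerSeries.X ∣ e2 ξ η h →
      h * pT (fun r => PowerSeries.derivative κ r) F ∈ jac F := by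
    intro h hh
    have h1 := key (h * pT (fun r => PowerSeries.derivative κ r) F)
    have h2 : cc (e2 ξ η (h * pT (fun r => PowerSeries.derivative κ r) F)) ∈ jac F := by
      apply hmem
      rw [map_mul]
      have h3 : (PowerSeries.X : PowerSeries κ) ^ m = PowerSeries.X * PowerSeries.X ^ (m - 1) := by
        rw [← pow_succ', Nat.sub_add_cancel hm1]
      rw [h3]
      exact mul_dvd_mul hh hFT
    have h4 := Ideal.add_mem _ h1 h2
    rwa [sub_add_cancel] at h4
  constructor
  · apply hfin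
    have h1 : e2 ξ η (cc PowerSeries.X) = PowerSeries.X := by simp [e2, cc]
    rw [h1]
  · intro h hh
    apply hfin
    rw [PowerSeries.X_dvd_iff, Loc2_e2_map, hx0, hy0]
    exact hh

end MPadcLF
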