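import Pool.Agent.Lib.MP_adc574_ag_LF.IntR
import Pool.Agent.Lib.MP_adc574_ag_LF.Loc2
import Pool.Agent.Lib.MP_adc574_ag_LF.Kos
import Pool.Agent.Lib.MP_adc574_ag_LP.Place

/-!
# JOB Hloc: the residue of the connection at a node has rank at most one

Paper 2.6.
* `residue_local` over `R = PowerSeries κ`: existence of `Γ` from `intR` for
  `Δ' = X ^ M * Δ`, `c b = X ^ (M + 1) * G b a`: `X ^ M Δ ∣ X ^ (M + 1) G b a`. Rank one: let `l a = e2 x₀ y₀` of the
  reduction of `η a` (`l = 0` if the Jacobian ideal of the reduction is `1`). For `v : IX w n → κ` with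
  `∑ v a * l a = 0` put `h = ∑ cc (C (v a)) * η a`; by `jac_node` `h * F_T ∈ jac F`; the relation of `IsGM`
  for `h` (linear combination with coefficients `cc (C (v a))`, `D (C (v a)) = 0`) and
  `gm_unique` with `σ' = 1`: `X ^ M Δ ∣ X ^ M ∑ G b a v a`, so `Δ ∣ (G v) b`, hence `X ∣ (Γ v) b`: the constant
  coefficient matrix of `Γ` kills `v`. A matrix `N` with `l ⬝ v = 0 → N v = 0` is `N b a = d b * l a`
  (if `l = 0` then `N = 0`; else choose `a₀` with `l a₀ ≠ 0` and `d b = N b a₀ / l a₀`).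
* `hloc`: base change along `pl k a`; `constantCoeff ∘ pl k a = aeval a` (`constantCoeff_pl`),
  `pl_derivative`, `pl_injective`. `pl k a c₀ = X ^ M * unit`.
-/

set_option autoImplicit false

namespace MPadcLF

open Polynomial MPadcCov MPadcLP

private theorem Hloc_isDer (κ : Type*) [Field κ] :
    IsDer (fun r : PowerSeries κ => PowerSeries.derivative κ r) := by
  constructor
  · intro a b
    exact map_add _ _ _
  · intro a b
    show PowerSeries.derivative κ (a * b) = _
    rw [Derivation.leibniz, smul_eq_mul, smul_eq_mul]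

private theorem Hloc_DC {κ : Type*} [Field κ] (a : κ) :
    PowerSeries.derivative κ (PowerSeries.C a) = 0 := by
  have h := Derivation.map_algebraMap (PowerSeries.derivative κ) a
  exact h

/-- Linear algebra: a matrix killing the kernel of a linear form. -/
private theorem Hloc_rank {κ ι : Type*} [Field κ] [Fintype ι] [DecidableEq ι] (N : Matrix ι ι κ)
    (l : ι → κ) (h : ∀ v : ι → κ, ∑ a, v a * l a = 0 → ∀ b, ∑ a, N b a * v a = 0) :
    ∃ d : ι → κ, ∀ b a, N b a = d b * l a := by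
  by_cases hl : ∀ a, l a = 0
  · refine ⟨0, fun b a => ?_⟩
    have h1 := h (Pi.single a 1) (by simp [hl]) b
    rw [Finset.sum_eq_single a (fun c _ hc => by rw [Pi.single_eq_of_ne hc, mul_zero])
      (fun hn => absurd (Finset.mem_univ a) hn), Pi.single_eq_same, mul_one] at h1
    rw [h1, hl, mul_zero]
  · push Not at hl
    obtain ⟨a₀, ha₀⟩ := hl
    refine ⟨fun b => N b a₀ / l a₀, fun b a => ?_⟩
    have h1 := h (fun c => (if c = a then l a₀ else 0) - if c = a₀ then l a else 0) (by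
      simp only [sub_mul, Finset.sum_sub_distrib, ite_mul, zero_mul, Finset.sum_ite_eq',
        Finset.mem_univ, if_true]
      ring) b
    simp only [mul_sub, Finset.sum_sub_distrib, mul_ite, mul_zero, Finset.sum_ite_eq',
      Finset.mem_univ, if_true] at h1
    field_simp
    linear_combination h1

private theorem Hloc_key {κ : Type*} [Field κ] {w n : ℕ} (hw : 0 < w) (hn : 0 < n)
    {F : (PowerSeries κ)[X][X]} (hF : Wt w n F) {η : IX w n → (PowerSeries κ)[X][X]}
    (hη : HB w n F η) (hP : PLinf w n (mp (PowerSeries.constantCoeff (R := κ)) F))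
    (M : ℕ) (hM : Sm F (PowerSeries.X ^ M)) (Δ : PowerSeries κ) (hΔ : Δ ≠ 0)
    (G : Matrix (IX w n) (IX w n) (PowerSeries κ))
    (hG : IsGM (fun r => PowerSeries.derivative κ r) Δ F η G) (σ' : PowerSeries κ)
    (v : IX w n → κ)
    (h : cc σ' * (∑ a, cc (PowerSeries.C (v a)) * η a) *
      pT (fun r => PowerSeries.derivative κ r) F ∈ jac F) (b : IX w n) :
    Δ ∣ σ' * ∑ a, G b a * PowerSeries.C (v a) := by
  have hm : ∃ α β γ : (PowerSeries κ)[X][X], cc σ' * (∑ a, cc (PowerSeries.C (v a)) * η a) *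
      pT (fun r => PowerSeries.derivative κ r) F = α * px F + β * py F + γ * F := by
    rw [jac, Ideal.mem_span_insert] at h
    obtain ⟨γ, t, ht, h1⟩ := h
    rw [Ideal.mem_span_pair] at ht
    obtain ⟨α, β, h2⟩ := ht
    exact ⟨α, β, γ, by rw [h1, ← h2]; ring⟩
  obtain ⟨α, β, γ, hm⟩ := hm
  obtain ⟨g, e, h3⟩ := gm_unique (Hloc_isDer κ) hM hG (fun a => PowerSeries.C (v a))
    (fun a => Hloc_DC (v a)) hm
  have hX : (PowerSeries.X : PowerSeries κ) ^ M ≠ 0 := pow_ne_zero _ PowerSeries.X_ne_zero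
  have h4 := intR hw hn hF hη hP (PowerSeries.X ^ M * Δ) (mul_ne_zero hX hΔ) _ g e _ h3 b
  rw [mul_assoc] at h4
  have h5 := (mul_dvd_mul_iff_left hX).mp h4
  exact h5

theorem residue_local {κ : Type*} [Field κ] {w n : ℕ} (hw : 0 < w) (hn : 0 < n)
    {F : (PowerSeries κ)[X][X]} (hF : Wt w n F) {η : IX w n → (PowerSeries κ)[X][X]}
    (hη : HB w n F η) (hP : PLinf w n (mp (PowerSeries.constantCoeff (R := κ)) F))
    (M : ℕ) (hM : Sm F (PowerSeries.X ^ M)) (Δ : PowerSeries κ) (hΔ : Δ ≠ 0)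
    (G : Matrix (IX w n) (IX w n) (PowerSeries κ))
    (hG : IsGM (fun r => PowerSeries.derivative κ r) Δ F η G)
    (hJ : (1 : κ[X][X]) ∈ jac (mp (PowerSeries.constantCoeff (R := κ)) F) ∨
      ∃ x₀ y₀ : κ, C (X - C x₀) ∈ jac (mp (PowerSeries.constantCoeff (R := κ)) F) ∧
        X - C (C y₀) ∈ jac (mp (PowerSeries.constantCoeff (R := κ)) F)) :
    ∃ (Γ : Matrix (IX w n) (IX w n) (PowerSeries κ)) (d l : IX w n → κ),
      (∀ i j, Δ * Γ i j = PowerSeries.X * G i j) ∧
      ∀ i j, PowerSeries.constantCoeff (Γ i j) = d i * l j := by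

  classical
  have hMj : cc (PowerSeries.X ^ M) ∈ jac F := by
    obtain ⟨u, v, z, h⟩ := hM
    rw [← h, jac]
    refine Ideal.add_mem _ (Ideal.add_mem _ ?_ ?_) ?_
    · exact Ideal.mul_mem_left _ _ (Ideal.subset_span (by simp))
    · exact Ideal.mul_mem_left _ _ (Ideal.subset_span (by simp))
    · exact Ideal.mul_mem_left _ _ (Ideal.subset_span (by simp))
  have hl : ∃ l : IX w n → κ,
      cc PowerSeries.X * pT (fun r => PowerSeries.derivative κ r) F ∈ jac F ∧
      ∀ v : IX w n → κ, ∑ a, v a * l a = 0 → (∑ a, cc (PowerSeries.C (v a)) * η a) *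
        pT (fun r => PowerSeries.derivative κ r) F ∈ jac F := by
    rcases hJ with h1 | ⟨x₀, y₀, hx, hy⟩
    · have htop := jac_top F M hMj h1
      exact ⟨0, by rw [htop]; trivial, fun v _ => by rw [htop]; trivial⟩
    · obtain ⟨hn1, hn2⟩ := jac_node F M hMj x₀ y₀ hx hy
      refine ⟨fun a => e2 x₀ y₀ (mp (PowerSeries.constantCoeff (R := κ)) (η a)), hn1,
        fun v hv => hn2 _ ?_⟩
      rw [map_sum, map_sum, ← hv]
      refine Finset.sum_congr rfl fun a _ => ?_
      rw [map_mul, map_mul, mp_cc, PowerSeries.constantCoeff_C]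
      congr 1
      simp [e2, cc]
  obtain ⟨l, hl1, hl2⟩ := hl
  have hΓ : ∀ i j, ∃ t : PowerSeries κ, PowerSeries.X * G i j = Δ * t := by
    intro i j
    have h1 := Hloc_key hw hn hF hη hP M hM Δ hΔ G hG PowerSeries.X (Pi.single j 1) (by
      have h2 : ∑ a, cc (PowerSeries.C ((Pi.single j (1 : κ) : IX w n → κ) a)) * η a = η j := by
        rw [Finset.sum_eq_single j]
        · rw [Pi.single_eq_same, map_one, cc, C_1, C_1, one_mul]
        · intro c _ hc
          rw [Pi.single_eq_of_ne hc, map_zero, cc, C_0, C_0, zero_mul]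
        · intro hn
          exact absurd (Finset.mem_univ j) hn
      rw [h2, mul_right_comm]
      exact Ideal.mul_mem_right _ _ hl1) i
    have h3 : ∑ a, G i a * PowerSeries.C ((Pi.single j (1 : κ) : IX w n → κ) a) = G i j := by
      rw [Finset.sum_eq_single j]
      · rw [Pi.single_eq_same, map_one, mul_one]
      · intro c _ hc
        rw [Pi.single_eq_of_ne hc, map_zero, mul_zero]
      · intro hn
        exact absurd (Finset.mem_univ j) hn
    rw [h3] at h1
    exact h1
  choose Γ hΓ' using hΓ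
  obtain ⟨d, hd⟩ := Hloc_rank (Matrix.of fun i j => PowerSeries.constantCoeff (Γ i j)) l (by
    intro v hv b
    have h1 := Hloc_key hw hn hF hη hP M hM Δ hΔ G hG 1 v (by
      rw [cc, C_1, C_1, one_mul]
      exact hl2 v hv) b
    obtain ⟨t, ht⟩ := h1
    rw [one_mul] at ht
    have h2 : Δ * ∑ a, Γ b a * PowerSeries.C (v a) = Δ * (PowerSeries.X * t) := by
      rw [Finset.mul_sum]
      calc ∑ a, Δ * (Γ b a * PowerSeries.C (v a))
          = ∑ a, PowerSeries.X * (G b a * PowerSeries.C (v a)) := by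
            refine Finset.sum_congr rfl fun a _ => ?_
            rw [← mul_assoc, ← hΓ', mul_assoc]
        _ = Δ * (PowerSeries.X * t) := by
            rw [← Finset.mul_sum, ht]
            ring
    have h3 := mul_left_cancel₀ hΔ h2
    have h4 := congrArg (PowerSeries.constantCoeff (R := κ)) h3
    rw [map_mul, PowerSeries.constantCoeff_X, zero_mul, map_sum] at h4
    rw [← h4]
    refine Finset.sum_congr rfl fun a _ => ?_
    rw [map_mul, PowerSeries.constantCoeff_C, Matrix.of_apply])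
  exact ⟨Matrix.of Γ, d, l, fun i j => (hΓ' i j).symm, fun i j => hd i j⟩

theorem hloc {k : Type*} [Field k] [CharZero k] {w n : ℕ} (hw : 0 < w) (hn : 0 < n)
    {F : k[X][X][X]} (hF : Wt w n F) {η : IX w n → k[X][X][X]} (hη : HB w n F η) (Δ : k[X])
    (hΔ : Δ ≠ 0) (G : Matrix (IX w n) (IX w n) k[X])
    (hG : IsGM (fun r => derivative r) Δ F η G) (c₀ : k[X]) (hc₀ : c₀ ≠ 0) (hs : Sm F c₀)
    {Fb : Type*} [Field Fb] [IsAlgClosed Fb] [Algebra k Fb] (a : Fb)
    (hP : PLinf w n (mp (aeval a : k[X] →ₐ[k] Fb).toRingHom F))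
    (hJ : (1 : Fb[X][X]) ∈ jac (mp (aeval a : k[X] →ₐ[k] Fb).toRingHom F) ∨
      ∃ x₀ y₀ : Fb, C (X - C x₀) ∈ jac (mp (aeval a : k[X] →ₐ[k] Fb).toRingHom F) ∧
        X - C (C y₀) ∈ jac (mp (aeval a : k[X] →ₐ[k] Fb).toRingHom F)) :
    ∃ (Γ : Matrix (IX w n) (IX w n) (PowerSeries Fb)) (d l : IX w n → Fb),
      (∀ i j, pl k a Δ * Γ i j = PowerSeries.X * pl k a (G i j)) ∧
      ∀ i j, PowerSeries.constantCoeff (Γ i j) = d i * l j := by

  have hmp : ∀ P : k[X][X][X], mp (PowerSeries.constantCoeff (R := Fb)) (mp (pl k a) P) =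
      mp (aeval a : k[X] →ₐ[k] Fb).toRingHom P := by
    intro P
    have h1 : (PowerSeries.constantCoeff (R := Fb)).comp (pl k a) =
        (aeval a : k[X] →ₐ[k] Fb).toRingHom := RingHom.ext fun x => constantCoeff_pl a x
    unfold mp
    rw [← h1, ← mapRingHom_comp, ← mapRingHom_comp]
    rfl
  have hF' : Wt w n (mp (pl k a) F) := hF.map (pl k a)
  have hη' := hη.map (pl k a) hF.monic
  have hG' := hG.map (pl k a) (isDer_derivative k) (Hloc_isDer Fb)
    (fun r => (pl_derivative a r).symm)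
  have hc1 : pl k a c₀ ≠ 0 := fun h => hc₀ (pl_injective a (by rw [h, map_zero]))
  have hΔ' : pl k a Δ ≠ 0 := fun h => hΔ (pl_injective a (by rw [h, map_zero]))
  have hs' := hs.map (pl k a)
  obtain ⟨U, hU⟩ := PowerSeries.isUnit_divided_by_X_pow_order hc1
  have hM : Sm (mp (pl k a) F) (PowerSeries.X ^ (pl k a c₀).order.toNat) := by
    obtain ⟨u, v, z, h⟩ := hs'
    refine ⟨cc (↑U⁻¹ : PowerSeries Fb) * u, cc (↑U⁻¹ : PowerSeries Fb) * v,
      cc (↑U⁻¹ : PowerSeries Fb) * z, ?_⟩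
    have h2 : cc (↑U⁻¹ : PowerSeries Fb) * cc (pl k a c₀) =
        cc (PowerSeries.X ^ (pl k a c₀).order.toNat) := by
      unfold cc
      rw [← C_mul, ← C_mul]
      congr 2
      conv_lhs => rw [← PowerSeries.X_pow_order_mul_divXPowOrder (f := pl k a c₀), ← hU]
      rw [mul_comm, mul_assoc, Units.mul_inv, mul_one]
    rw [← h2, ← h]
    ring
  obtain ⟨Γ, d, l, h1, h2⟩ := residue_local hw hn hF' hη' (by rw [hmp]; exact hP) _ hM (pl k a Δ)
    hΔ' (G.map (pl k a)) hG' (by rw [hmp]; exact hJ)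
  exact ⟨Γ, d, l, fun i j => by rw [h1, Matrix.map_apply], h2⟩

end MPadcLF
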