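import Pool.Agent.Lib.MP_adc574_ag_LF.Wd
import Pool.Agent.Lib.MP_adc574_ag_LF.Tau

/-!
# JOB ClaimL: independence of the basis

Paper 2.3. Replace `b` by `b %ₘ F` (`exists_mod`; `br F (e F) = (br F e) F`), so `b.natDegree < n`. Let
`N = w n` and `G = C (X ^ N) * b - ∑ c, cc (c (inr c)) * gg c`, of degree `< n` in `Y`. By `HB.mm` and
`dN_pow_mul`, `dN_sub`, `dN_cc_mul`: `C (X ^ (N + 1)) * (∑ a, cc (c a) * η a)` equals
`C (X ^ (N + 1)) * br F b + (…) F` and equals
`∑ cc (c (inl c)) C (X ^ (N + 1 + l)) bb F i + ∑ cc (c (inr c)) (dN F N (gg c) + k_c + e_c F)`, so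
`dN F N G = k + e F` with `k = ∑ inl-terms + ∑ cc (c (inr c)) k_c`, `WD w (w (n - 1) + N - 1) k`
(`w (n - 1 - i) + N + 1 + l ≤ w (n - 1) + N - 1` since `l + 2 ≤ w i`: `l < w i - 1`). By `PLinf`: `WD w N G`.
The coefficient of `x ^ (N - l - 1) Y ^ i` in `G` is `- c (inr (i, l))` (`C (X ^ N) * b` has only exponents
`≥ N` of `x`, and the `gg c` are different monomials), of weight `N - l - 1 + w i > N`: so it is `0`. Then
`WD w N (C (X ^ N) * b)`: `b` has coefficients only at `x ^ 0 Y ^ 0` (`w ≥ 1`): constant. So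
`∑ cc (c (inl c)) C (X ^ l) bb F i = e F` has degree `< n`, so it is `0`; by `tau_bb` (`tau F (X ^ i * ·)`)
`∑ l, c (inl (i, l)) X ^ l = 0` for every `i`.
-/

set_option autoImplicit false

namespace MPadcLF

open Polynomial MPadcCov

private theorem claimL_wd {R : Type*} [CommRing R] {w m : ℕ} {h : R[X][X]} (hh : WD w m h) (j a : ℕ)
    (ha : (h.coeff j).coeff a ≠ 0) : a + w * j ≤ m := by
  have h1 : h.coeff j ≠ 0 := by
    intro h0
    rw [h0, coeff_zero] at ha
    exact ha rfl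
  have h2 := hh j h1
  have h3 := le_natDegree_of_ne_zero ha
  omega

private theorem claimL_dN_sum {R : Type*} [CommRing R] (F : R[X][X]) (N : ℕ) {ι : Type*}
    (s : Finset ι) (f : ι → R[X][X]) : dN F N (∑ i ∈ s, f i) = ∑ i ∈ s, dN F N (f i) :=
  map_sum (AddMonoidHom.mk' (dN F N) (dN_add F N)) f s

private theorem claimL_lt {w n : ℕ} (c : Gx w n) : (c.2 : ℕ) + 2 ≤ w * (c.1 : ℕ) := by
  have h1 : (c.2 : ℕ) < w * (c.1 : ℕ) - 1 := c.2.2
  omega

private theorem claimL_ext {w n : ℕ} (c c' : Gx w n) (h1 : (c.1 : ℕ) = c'.1)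
    (h2 : (c.2 : ℕ) = c'.2) : c = c' := by
  obtain ⟨i, l⟩ := c
  obtain ⟨i', l'⟩ := c'
  have h3 : i = i' := Fin.ext h1
  subst h3
  have h4 : l = l' := Fin.ext h2
  rw [h4]

/-- The coefficients of the sum of the monomials. -/
private theorem claimL_gg {R : Type*} [CommRing R] {w n : ℕ} (d : Gx w n → R) (c : Gx w n) :
    ((∑ c', cc (d c') * gg c' : R[X][X]).coeff (c.1 : ℕ)).coeff (w * n - (c.2 : ℕ) - 1) = d c := by
  classical
  have hle : ∀ c' : Gx w n, (c'.2 : ℕ) + 2 ≤ w * n := fun c' =>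
    (claimL_lt c').trans (Nat.mul_le_mul_left w (Nat.le_of_lt c'.1.2))
  rw [finsetSum_coeff, finsetSum_coeff, Finset.sum_eq_single c]
  · unfold gg cc
    rw [coeff_C_mul, coeff_C_mul, coeff_C_mul, coeff_X_pow, if_pos rfl, mul_one, coeff_X_pow,
      if_pos rfl, mul_one]
  · intro c' _ hne
    unfold gg cc
    rw [coeff_C_mul, coeff_C_mul, coeff_C_mul, coeff_X_pow]
    by_cases h1 : (c.1 : ℕ) = c'.1
    · rw [if_pos h1, mul_one, coeff_X_pow]
      by_cases h2 : w * n - (c.2 : ℕ) - 1 = w * n - (c'.2 : ℕ) - 1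
      · exfalso
        apply hne
        have h3 := hle c
        have h4 := hle c'
        exact claimL_ext c' c h1.symm (by omega)
      · rw [if_neg h2, mul_zero]
    · rw [if_neg h1, mul_zero, coeff_zero, mul_zero]
  · intro h
    exact absurd (Finset.mem_univ c) h

theorem claimL {κ : Type*} [Field κ] {w n : ℕ} (hw : 0 < w) (hn : 0 < n) {F : κ[X][X]}
    (hF : Wt w n F) {η : IX w n → κ[X][X]} (hη : HB w n F η) (hP : PLinf w n F)
    (c : IX w n → κ) (b e : κ[X][X]) (h : ∑ a, cc (c a) * η a = br F b + e * F) :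
    c = 0 ∧ ∃ (r : κ) (g : κ[X][X]), b = cc r + g * F := by
  classical
  obtain ⟨e1, hb⟩ := exists_mod hF.monic b
  have hbd : (b %ₘ F).natDegree < n := mod_natDegree hF.monic hF.deg hn b
  generalize b %ₘ F = b' at hb hbd
  have hbr : br F b = br F b' + (br F e1) * F := by
    rw [hb, (isDer_br F).add, (isDer_br F).mul, br_self]
    ring
  have hs : ∑ c' : Gx w n, cc (c (Sum.inl c')) * η (Sum.inl c') +
      ∑ c' : Gx w n, cc (c (Sum.inr c')) * η (Sum.inr c') = br F b' + (br F e1 + e) * F := by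
    rw [← Fintype.sum_sum_type (fun a => cc (c a) * η a), h, hbr]
    ring
  choose k e2 hk he2 using hη.mm
  obtain ⟨N, hN⟩ : ∃ N, N = w * n := ⟨_, rfl⟩
  rw [← hN] at he2 hk
  have hGd : (C (X ^ N) * b' - ∑ c' : Gx w n, cc (c (Sum.inr c')) * gg c').natDegree < n := by
    have h1 : (C (X ^ N) * b' - ∑ c' : Gx w n, cc (c (Sum.inr c')) * gg c').natDegree ≤ n - 1 := by
      rw [natDegree_le_iff_coeff_eq_zero]
      intro j hj
      have hbj : b'.coeff j = 0 := coeff_eq_zero_of_natDegree_lt (by omega)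
      rw [coeff_sub, coeff_C_mul, hbj, mul_zero, finsetSum_coeff, zero_sub, neg_eq_zero]
      refine Finset.sum_eq_zero fun c' _ => ?_
      unfold gg cc
      rw [coeff_C_mul, coeff_C_mul, coeff_X_pow, if_neg, mul_zero, mul_zero]
      have := c'.1.2
      omega
    omega
  have hdN : dN F N (C (X ^ N) * b' - ∑ c' : Gx w n, cc (c (Sum.inr c')) * gg c') =
      (∑ c' : Gx w n, cc (c (Sum.inl c')) * (C (X ^ (N + 1)) * η (Sum.inl c')) +
        ∑ c' : Gx w n, cc (c (Sum.inr c')) * k c') +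
      (∑ c' : Gx w n, cc (c (Sum.inr c')) * e2 c' - C (X ^ (N + 1)) * (br F e1 + e)) * F := by
    rw [dN_sub, dN_pow_mul, claimL_dN_sum]
    have h1 : ∑ c' : Gx w n, dN F N (cc (c (Sum.inr c')) * gg c') =
        C (X ^ (N + 1)) * (∑ c' : Gx w n, cc (c (Sum.inr c')) * η (Sum.inr c')) -
          ∑ c' : Gx w n, cc (c (Sum.inr c')) * k c' -
          (∑ c' : Gx w n, cc (c (Sum.inr c')) * e2 c') * F := by
      rw [Finset.mul_sum, Finset.sum_mul, ← Finset.sum_sub_distrib, ← Finset.sum_sub_distrib]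
      refine Finset.sum_congr rfl fun c' _ => ?_
      rw [dN_cc_mul]
      have h2 := he2 c'
      linear_combination (-cc (c (Sum.inr c')) : κ[X][X]) * h2
    have h3 : ∑ c' : Gx w n, cc (c (Sum.inl c')) * (C (X ^ (N + 1)) * η (Sum.inl c')) =
        C (X ^ (N + 1)) * ∑ c' : Gx w n, cc (c (Sum.inl c')) * η (Sum.inl c') := by
      rw [Finset.mul_sum]
      refine Finset.sum_congr rfl fun c' _ => ?_
      ring
    rw [h1, h3]
    linear_combination -(C (X ^ (N + 1) : κ[X]) : κ[X][X]) * hs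
  have hkk : WD w (w * (n - 1) + N - 1)
      (∑ c' : Gx w n, cc (c (Sum.inl c')) * (C (X ^ (N + 1)) * η (Sum.inl c')) +
        ∑ c' : Gx w n, cc (c (Sum.inr c')) * k c') := by
    refine (WD.sum _ _ fun c' _ => ?_).add (WD.sum _ _ fun c' _ => ?_)
    · rw [hη.phi c']
      have h1 : WD w (0 + ((N + 1) + ((c'.2 : ℕ) + w * (n - 1 - (c'.1 : ℕ)))))
          (cc (c (Sum.inl c')) * (C (X ^ (N + 1)) * (C (X ^ (c'.2 : ℕ)) * bb F c'.1))) :=
        (WD.ofcc _).mul ((WD.ofC (natDegree_X_pow_le _)).mul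
          ((WD.ofC (natDegree_X_pow_le _)).mul (WD.ofbb hF _ c'.1.2)))
      refine h1.mono ?_
      have h2 := claimL_lt c'
      have h3 : w * (n - 1) = w * (n - 1 - (c'.1 : ℕ)) + w * (c'.1 : ℕ) := by
        rw [← mul_add]
        congr 1
        have := c'.1.2
        omega
      omega
    · have h1 := (WD.ofcc (w := w) (c (Sum.inr c'))).mul (hk c')
      exact h1.mono (by omega)
  have hWG := hP N _ _ _ hGd hdN hkk
  have hinr : ∀ c' : Gx w n, c (Sum.inr c') = 0 := by
    intro c'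
    by_contra hne
    have hle : (c'.2 : ℕ) + 2 ≤ w * n :=
      (claimL_lt c').trans (Nat.mul_le_mul_left w (Nat.le_of_lt c'.1.2))
    have h1 : ((C (X ^ N) * b' - ∑ c' : Gx w n, cc (c (Sum.inr c')) * gg c').coeff
        (c'.1 : ℕ)).coeff (w * n - (c'.2 : ℕ) - 1) = - c (Sum.inr c') := by
      rw [coeff_sub, coeff_sub, claimL_gg (fun c' => c (Sum.inr c')) c', coeff_C_mul,
        coeff_X_pow_mul', if_neg (by omega), zero_sub]
    have h2 := claimL_wd hWG (c'.1 : ℕ) (w * n - (c'.2 : ℕ) - 1) (by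
      rw [h1]
      exact neg_ne_zero.2 hne)
    have h3 := claimL_lt c'
    omega
  have hsum0 : ∑ c' : Gx w n, cc (c (Sum.inr c')) * gg c' = 0 := by
    refine Finset.sum_eq_zero fun c' _ => ?_
    rw [hinr c']
    unfold cc
    rw [C_0, C_0, zero_mul]
  rw [hsum0, sub_zero] at hWG
  have hb' : b' = cc ((b'.coeff 0).coeff 0) := by
    have h1 : ∀ j a, (b'.coeff j).coeff a ≠ 0 → a = 0 ∧ j = 0 := by
      intro j a ha
      have h2 := claimL_wd hWG j (a + N) (by
        rw [coeff_C_mul, coeff_X_pow_mul]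
        exact ha)
      have h3 : w * j = 0 := by omega
      rcases Nat.mul_eq_zero.1 h3 with h4 | h4
      · omega
      · exact ⟨by omega, h4⟩
    ext j a
    unfold cc
    rw [coeff_C]
    by_cases hj : j = 0
    · rw [if_pos hj, coeff_C, hj]
      by_cases ha : a = 0
      · rw [if_pos ha, ha]
      · rw [if_neg ha]
        by_contra hne
        exact ha (h1 0 a hne).1
    · rw [if_neg hj, coeff_zero]
      by_contra hne
      exact hj (h1 j a hne).2
  have hbr0 : br F b' = 0 := by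
    rw [hb', ← mul_one (cc ((b'.coeff 0).coeff 0)), br_cc_mul, (isDer_br F).one, mul_zero]
  have hinl : ∀ c' : Gx w n, c (Sum.inl c') = 0 := by
    intro c'
    have h1 : ∑ c'' : Gx w n, cc (c (Sum.inl c'')) * η (Sum.inl c'') = (br F e1 + e) * F := by
      have h2 : ∑ c'' : Gx w n, cc (c (Sum.inr c'')) * η (Sum.inr c'') = 0 := by
        refine Finset.sum_eq_zero fun c'' _ => ?_
        rw [hinr c'']
        unfold cc
        rw [C_0, C_0, zero_mul]
      rw [h2, add_zero, hbr0, zero_add] at hs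
      exact hs
    have h3 : tau F (X ^ (c'.1 : ℕ) * ∑ c'' : Gx w n, cc (c (Sum.inl c'')) * η (Sum.inl c'')) =
        0 := by
      rw [h1, ← mul_assoc]
      exact tau_mul_self hF.monic _
    rw [Finset.mul_sum, tau_sum hF.monic] at h3
    have h4 : ∀ c'' : Gx w n, tau F (X ^ (c'.1 : ℕ) * (cc (c (Sum.inl c'')) * η (Sum.inl c''))) =
        C (c (Sum.inl c'')) * X ^ (c''.2 : ℕ) * (if (c''.1 : ℕ) = c'.1 then 1 else 0) := by
      intro c''
      rw [hη.phi c'']
      have h5 : (X ^ (c'.1 : ℕ) * (cc (c (Sum.inl c'')) * (C (X ^ (c''.2 : ℕ)) * bb F c''.1)) :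
          κ[X][X]) = C (C (c (Sum.inl c'')) * X ^ (c''.2 : ℕ)) * (X ^ (c'.1 : ℕ) * bb F c''.1) := by
        rw [C_mul]
        ring
      rw [h5, tau_C_mul hF.monic, tau_bb hF.monic hF.deg _ _ c''.1.2 c'.1.2]
    rw [Finset.sum_congr rfl fun c'' _ => h4 c''] at h3
    have h6 := congrArg (fun q : κ[X] => q.coeff (c'.2 : ℕ)) h3
    beta_reduce at h6
    rw [finsetSum_coeff, coeff_zero, Finset.sum_eq_single c'] at h6
    · rw [if_pos rfl, mul_one, coeff_C_mul, coeff_X_pow, if_pos rfl, mul_one] at h6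
      exact h6
    · intro c'' _ hne
      by_cases h7 : (c''.1 : ℕ) = c'.1
      · rw [if_pos h7, mul_one, coeff_C_mul, coeff_X_pow, if_neg, mul_zero]
        intro h8
        exact hne (claimL_ext c'' c' h7 h8.symm)
      · rw [if_neg h7, mul_zero, coeff_zero]
    · intro h7
      exact absurd (Finset.mem_univ c') h7
  refine ⟨?_, (b'.coeff 0).coeff 0, e1, ?_⟩
  · funext a
    rcases a with a | a
    · exact hinl a
    · exact hinr a
  · rw [← hb']
    exact hb

end MPadcLF
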