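import Pool.Agent.Lib.MP_adc574_ag_LF.Branch
import Pool.Agent.Lib.MP_adc574_ag_LF.Tau

/-!
# JOB PLfin: poles of primitives at smooth points

Paper 2.1. Notation: `ord` is the order of a power series (`X ^ m ∣ ·`).
* `branch_ord`: with `Q = χ (C q)`, `β = χ b`: applying `χ` to the relation and dividing by the unit `c`
  (`χ (C q' F_Y) = χ (br F (C q)) = c Q'`): `Q ^ 2 ∣ Q β' - Q' β`. `Q ≠ 0` of order `m` (if `q ≠ 0`:
  `χ` is injective on `κ[x]` because `χ (C X)` is not constant: its derivative is `χ (F_Y) / c`; if it were a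
  constant `x₀` then `C (X - C x₀)` is in the kernel … simply assume `hQ : χ (C q) ≠ 0`). If `β = 0` fine.
  Otherwise write `Q = s ^ m u`, `β = s ^ l v` with units; if `l < m` the coefficient of `s ^ (m + l - 1)` in
  `Q β' - Q' β` is `(l - m) u(0) v(0) ≠ 0`, but `2 m > m + l - 1`.
* `dvd_of_branches` : let `y₀` be a root of multiplicity `e` of `F (x₀, ·)`. If `F_x (x₀, y₀) ≠ 0` take the branch
  with `χ Y = y₀ + s`: write `F = F(x₀, Y) + (x - x₀) H` (`H` exists: `X - C x₀` divides all coefficients of the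
  difference), `H (x₀, y₀) = F_x (x₀, y₀) ≠ 0`, so `χ (x - x₀) * unit = - F (x₀, y₀ + s)` has order exactly `e`.
  By hypothesis `χ (x - x₀)` divides `χ b`, so `s ^ e` divides `χ b`, and
  `b (x₀, y₀ + s) = χ b - χ (x - x₀) (…)`: `s ^ e ∣ b (x₀, y₀ + s)`, i.e. `(Y - y₀) ^ e ∣ b (x₀, Y)`. Otherwise
  `F_Y (x₀, y₀) ≠ 0`, `e = 1`, and `b (x₀, y₀) = 0` since `χ (x - x₀)`, of constant coefficient `0`, divides
  `χ b`. So `F (x₀, Y)` divides `b (x₀, Y)` (`κ` algebraically closed: product over the roots,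
  `Polynomial.dvd_of_…rootMultiplicity` / `Multiset.le_iff_count`). Then `b - F * g` (`g` a lift with
  constant coefficients in `x`) vanishes at `x = x₀`, so it is divisible by `C (X - C x₀)`.
* `pl_fin`: induction on `q.natDegree` (or on the multiset of roots). `q` constant: trivial. `q = (x - x₀) q₁`:
  by `branch_ord` and `dvd_of_branches` `b = (x - x₀) b₁ + g F`; replacing `b` by `(x - x₀) b₁` changes the
  left side by a multiple of `F`; then the left side is `(x - x₀) ^ 2` times the left side for `(q₁, b₁)`,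
  and `(x - x₀) ^ 2 z ∈ (F)` implies `z ∈ (F)` (`C (X - C x₀)` is a nonzerodivisor modulo the monic `F`:
  uniqueness of remainders, `mod_C_mul`).
-/

set_option autoImplicit false

namespace MPadcLF

open Polynomial MPadcCov

variable {κ : Type*} [Field κ] [CharZero κ] {F : κ[X][X]}

omit [CharZero κ] in
private theorem PLfin_root [IsAlgClosed κ] {S : Type*} [CommRing S] [IsDomain S] (φ : κ →+* S) (n : ℕ) :
    ∀ (p : κ[X]), p.natDegree = n → p ≠ 0 → ∀ a : S, p.eval₂ φ a = 0 → ∃ r, a = φ r := by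
  induction n with
  | zero =>
    intro p hp hp0 a ha
    exfalso
    rw [Polynomial.eq_C_of_natDegree_eq_zero hp, eval₂_C] at ha
    apply hp0
    rw [Polynomial.eq_C_of_natDegree_eq_zero hp, (map_eq_zero φ).1 ha, C_0]
  | succ n ih =>
    intro p hp hp0 a ha
    have hdeg : p.degree ≠ 0 := by
      intro h
      have := natDegree_eq_zero_iff_degree_le_zero.2 (le_of_eq h)
      omega
    obtain ⟨r, hr⟩ := IsAlgClosed.exists_root p hdeg
    obtain ⟨p₁, hp₁⟩ := dvd_iff_isRoot.2 hr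
    have hp₁0 : p₁ ≠ 0 := by
      rintro rfl
      apply hp0
      rw [hp₁, mul_zero]
    have hd : p₁.natDegree = n := by
      have h1 := hp
      rw [hp₁, natDegree_mul (X_sub_C_ne_zero r) hp₁0, natDegree_X_sub_C] at h1
      omega
    rw [hp₁, eval₂_mul, mul_eq_zero] at ha
    rcases ha with h | h
    · refine ⟨r, ?_⟩
      rw [eval₂_sub, eval₂_X, eval₂_C] at h
      exact sub_eq_zero.1 h
    · exact ih p₁ hd hp₁0 a h

omit [CharZero κ] in
private theorem PLfin_brC (F : κ[X][X]) (q : κ[X]) : br F (C q) = C (derivative q) * py F := by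
  unfold br
  rw [px_C, py_C]
  ring

omit [CharZero κ] in
private theorem PLfin_brX (F : κ[X][X]) : br F X = - px F := by
  unfold br
  rw [px_X, py_X]
  ring

omit [CharZero κ] in
private theorem PLfin_chiC {x₀ y₀ : κ} {χ : κ[X][X] →+* PowerSeries κ} {c : PowerSeries κ}
    (H : IsBranch F x₀ y₀ χ c) (q : κ[X]) : χ (C q) = q.eval₂ PowerSeries.C (χ (C X)) := by
  have h : χ.comp (C : κ[X] →+* κ[X][X]) = eval₂RingHom PowerSeries.C (χ (C X)) := by
    refine Polynomial.ringHom_ext (fun r => ?_) ?_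
    · rw [RingHom.comp_apply, coe_eval₂RingHom, eval₂_C]
      exact H.const r
    · rw [RingHom.comp_apply, coe_eval₂RingHom, eval₂_X]
  exact congrArg (fun g : κ[X] →+* PowerSeries κ => g q) h

omit [CharZero κ] in
private theorem PLfin_chi {x₀ y₀ : κ} {χ : κ[X][X] →+* PowerSeries κ} {c : PowerSeries κ}
    (_H : IsBranch F x₀ y₀ χ c) (h : κ[X][X]) :
    χ h = h.eval₂ (χ.comp (C : κ[X] →+* κ[X][X])) (χ X) := by
  have h1 : χ = eval₂RingHom (χ.comp (C : κ[X] →+* κ[X][X])) (χ X) := by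
    refine Polynomial.ringHom_ext (fun r => ?_) ?_
    · rw [coe_eval₂RingHom, eval₂_C]
      rfl
    · rw [coe_eval₂RingHom, eval₂_X]
  exact congrArg (fun g : κ[X][X] →+* PowerSeries κ => g h) h1

omit [CharZero κ] in
/-- a branch is injective on `κ[x]` -/
private theorem PLfin_inj [IsAlgClosed κ] (hF : F.Monic) {x₀ y₀ : κ} {χ : κ[X][X] →+* PowerSeries κ}
    {c : PowerSeries κ} (H : IsBranch F x₀ y₀ χ c)
    (hs : e2 x₀ y₀ (px F) ≠ 0 ∨ e2 x₀ y₀ (py F) ≠ 0) {q : κ[X]} (hq : q ≠ 0) : χ (C q) ≠ 0 := by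
  intro h0
  rw [PLfin_chiC H] at h0
  obtain ⟨r, hr⟩ := PLfin_root _ _ q rfl hq _ h0
  have hcomp : χ.comp (C : κ[X] →+* κ[X][X]) = (PowerSeries.C).comp (evalRingHom r) := by
    refine Polynomial.ringHom_ext (fun s => ?_) ?_
    · rw [RingHom.comp_apply, RingHom.comp_apply, coe_evalRingHom, eval_C]
      exact H.const s
    · rw [RingHom.comp_apply, RingHom.comp_apply, coe_evalRingHom, eval_X]
      exact hr
  have h1 := H.root
  rw [PLfin_chi H, hcomp, ← eval₂_map] at h1
  have hmon : (F.map (evalRingHom r)).Monic := hF.map _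
  obtain ⟨s, hs'⟩ := PLfin_root _ _ _ rfl hmon.ne_zero _ h1
  have h2 := H.der (C X)
  rw [PLfin_brC, derivative_X, C_1, one_mul, hr, PowerSeries.derivative_C, mul_zero] at h2
  have h3 := H.der X
  rw [PLfin_brX, hs', PowerSeries.derivative_C, mul_zero, map_neg, neg_eq_zero] at h3
  rcases hs with h | h
  · apply h
    rw [← H.constantCoeff, h3, map_zero]
  · apply h
    rw [← H.constantCoeff, h2, map_zero]

omit [CharZero κ] in
private theorem PLfin_fac {β : PowerSeries κ} (hβ : β ≠ 0) :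
    ∃ (l : ℕ) (v : PowerSeries κ), PowerSeries.constantCoeff v ≠ 0 ∧ β = PowerSeries.X ^ l * v := by
  obtain ⟨n, a, h1, h2⟩ := WfDvdMonoid.max_power_factor hβ (PowerSeries.X_prime (R := κ)).irreducible
  refine ⟨n, a, fun h => h1 (PowerSeries.X_dvd_iff.2 h), h2⟩

omit [CharZero κ] in
private theorem PLfin_der (m : ℕ) (u : PowerSeries κ) :
    PowerSeries.X * PowerSeries.derivative κ (PowerSeries.X ^ m * u) =
      PowerSeries.X ^ m * ((m : PowerSeries κ) * u + PowerSeries.X * PowerSeries.derivative κ u) := by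
  induction m with
  | zero => simp
  | succ m ih =>
    have h1 : (PowerSeries.X ^ (m + 1) * u : PowerSeries κ) = PowerSeries.X * (PowerSeries.X ^ m * u) := by ring
    rw [h1, Derivation.leibniz, PowerSeries.derivative_X, smul_eq_mul, smul_eq_mul, mul_one, mul_add,
      ih]
    push_cast
    ring

private theorem PLfin_dvd {Q β G : PowerSeries κ} (hQ : Q ≠ 0)
    (h : Q * PowerSeries.derivative κ β - PowerSeries.derivative κ Q * β = Q ^ 2 * G) : Q ∣ β := by
  by_cases hβ : β = 0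
  · rw [hβ]; exact dvd_zero _
  obtain ⟨m, u, hu, hQ'⟩ := PLfin_fac hQ
  obtain ⟨l, v, hv, hβ'⟩ := PLfin_fac hβ
  have huu : IsUnit u := PowerSeries.isUnit_iff_constantCoeff.2 (isUnit_iff_ne_zero.2 hu)
  rcases Nat.lt_or_ge l m with hlm | hlm
  · exfalso
    obtain ⟨k, hk⟩ := Nat.exists_eq_add_of_lt hlm
    have h1 : PowerSeries.X ^ (m + l) * (((l : PowerSeries κ) - (m : PowerSeries κ)) * (u * v) +
        PowerSeries.X * (u * PowerSeries.derivative κ v - PowerSeries.derivative κ u * v)) =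
        PowerSeries.X ^ (m + l) * (PowerSeries.X * (PowerSeries.X ^ (k + 1) * (u ^ 2 * G))) := by
      have h2 : PowerSeries.X * (Q * PowerSeries.derivative κ β - PowerSeries.derivative κ Q * β) =
          PowerSeries.X * (Q ^ 2 * G) := by rw [h]
      have h3 : PowerSeries.X * (Q * PowerSeries.derivative κ β - PowerSeries.derivative κ Q * β) =
          Q * (PowerSeries.X * PowerSeries.derivative κ β) - (PowerSeries.X * PowerSeries.derivative κ Q) * β := by
        ring
      rw [h3, hQ', hβ', PLfin_der, PLfin_der] at h2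
      have h4 : (PowerSeries.X : PowerSeries κ) * ((PowerSeries.X ^ m * u) ^ 2 * G) =
          PowerSeries.X ^ (m + l) * (PowerSeries.X * (PowerSeries.X ^ (k + 1) * (u ^ 2 * G))) := by
        rw [hk]
        ring
      rw [← h4, ← h2]
      ring
    have hX : (PowerSeries.X ^ (m + l) : PowerSeries κ) ≠ 0 := pow_ne_zero _ PowerSeries.X_ne_zero
    have h2 := mul_left_cancel₀ hX h1
    have h3 := congrArg (PowerSeries.constantCoeff (R := κ)) h2
    rw [map_add, map_mul, map_mul PowerSeries.constantCoeff PowerSeries.X, map_mul PowerSeries.constantCoeff PowerSeries.X,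
      PowerSeries.constantCoeff_X, zero_mul, zero_mul, add_zero, map_sub, map_natCast, map_natCast, map_mul] at h3
    rcases mul_eq_zero.1 h3 with h4 | h4
    · have h5 : (l : κ) = (m : κ) := sub_eq_zero.1 h4
      have h6 : l = m := by exact_mod_cast h5
      omega
    · rcases mul_eq_zero.1 h4 with h5 | h5
      · exact hu h5
      · exact hv h5
  · obtain ⟨k, hk⟩ := Nat.exists_eq_add_of_le hlm
    obtain ⟨w, hw⟩ := huu
    refine ⟨PowerSeries.X ^ k * (((w⁻¹ : (PowerSeries κ)ˣ) : PowerSeries κ) * v), ?_⟩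
    rw [hQ', hβ', hk, ← hw]
    have h1 : (PowerSeries.X ^ m * (w : PowerSeries κ)) * (PowerSeries.X ^ k * (((w⁻¹ : (PowerSeries κ)ˣ) : PowerSeries κ) * v)) =
        PowerSeries.X ^ (m + k) * v * ((w : PowerSeries κ) * ((w⁻¹ : (PowerSeries κ)ˣ) : PowerSeries κ)) := by ring
    rw [h1, Units.mul_inv, mul_one]

theorem branch_ord {x₀ y₀ : κ} {χ : κ[X][X] →+* PowerSeries κ} {c : PowerSeries κ}
    (H : IsBranch F x₀ y₀ χ c) (q : κ[X]) (hQ : χ (C q) ≠ 0) (b g e : κ[X][X])
    (h : C q * br F b - C (derivative q) * py F * b = C (q ^ 2) * g + e * F) :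
    χ (C q) ∣ χ b := by
  obtain ⟨w, hw⟩ := H.unit
  have h1 := congrArg χ h
  rw [← PLfin_brC F q] at h1
  rw [map_sub, map_mul, map_mul, map_add, map_mul, map_mul χ e, H.root, mul_zero, add_zero, H.der b, H.der (C q),
    C_pow, map_pow] at h1
  refine PLfin_dvd (G := ↑w⁻¹ * χ g) hQ ?_
  rw [← hw] at h1
  have h2 : (χ (C q)) * PowerSeries.derivative κ (χ b) - PowerSeries.derivative κ (χ (C q)) * χ b =
      ↑w⁻¹ * (χ (C q) * ((w : PowerSeries κ) * PowerSeries.derivative κ (χ b)) -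
        (w : PowerSeries κ) * PowerSeries.derivative κ (χ (C q)) * χ b) := by
    have h3 : ↑w⁻¹ * (χ (C q) * ((w : PowerSeries κ) * PowerSeries.derivative κ (χ b)) -
        (w : PowerSeries κ) * PowerSeries.derivative κ (χ (C q)) * χ b) =
        (↑w⁻¹ * (w : PowerSeries κ)) * (χ (C q) * PowerSeries.derivative κ (χ b) -
          PowerSeries.derivative κ (χ (C q)) * χ b) := by ring
    rw [h3, Units.inv_mul, one_mul]
  rw [h2, h1]
  ring

/-- the restriction to `x = x₀` -/
private noncomputable def PLfin_bar (x₀ : κ) (h : κ[X][X]) : κ[X] := h.map (evalRingHom x₀)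

/-- the lift with constant coefficients -/
private noncomputable def PLfin_lift (p : κ[X]) : κ[X][X] := p.map (C : κ →+* κ[X])

omit [CharZero κ] in
private theorem PLfin_e2 (x₀ y₀ : κ) (h : κ[X][X]) : e2 x₀ y₀ h = (PLfin_bar x₀ h).eval y₀ := by
  unfold e2 PLfin_bar
  rw [RingHom.comp_apply, coe_evalRingHom, coe_evalRingHom, eval_map]
  have h1 := Polynomial.hom_eval₂ h (RingHom.id κ[X]) (evalRingHom x₀) (C y₀)
  rw [RingHom.comp_id, coe_evalRingHom, eval_C] at h1
  exact h1

omit [CharZero κ] in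
private theorem PLfin_barlift (x₀ : κ) (p : κ[X]) : PLfin_bar x₀ (PLfin_lift p) = p := by
  unfold PLfin_bar PLfin_lift
  rw [Polynomial.map_map]
  have h : (evalRingHom x₀).comp (C : κ →+* κ[X]) = RingHom.id κ := by
    ext r
    simp
  rw [h, Polynomial.map_id]

omit [CharZero κ] in
private theorem PLfin_dvdbar {x₀ : κ} {h : κ[X][X]} (h0 : PLfin_bar x₀ h = 0) : C (X - C x₀) ∣ h := by
  rw [C_dvd_iff_dvd_coeff]
  intro i
  rw [dvd_iff_isRoot]
  have h1 := congrArg (fun p : κ[X] => p.coeff i) h0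
  simp only [PLfin_bar, coeff_map, coe_evalRingHom, coeff_zero] at h1
  exact h1

omit [CharZero κ] in
private theorem PLfin_split (x₀ : κ) (h : κ[X][X]) :
    ∃ G, h = PLfin_lift (PLfin_bar x₀ h) + C (X - C x₀) * G := by
  have h0 : PLfin_bar x₀ (h - PLfin_lift (PLfin_bar x₀ h)) = 0 := by
    have h1 : PLfin_bar x₀ (h - PLfin_lift (PLfin_bar x₀ h)) =
        PLfin_bar x₀ h - PLfin_bar x₀ (PLfin_lift (PLfin_bar x₀ h)) := by
      unfold PLfin_bar
      rw [Polynomial.map_sub]
    rw [h1, PLfin_barlift, sub_self]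
  obtain ⟨G, hG⟩ := PLfin_dvdbar h0
  exact ⟨G, by rw [← hG]; ring⟩

omit [CharZero κ] in
private theorem PLfin_pxlift (p : κ[X]) : px (PLfin_lift p) = 0 := by
  unfold px PLfin_lift
  ext1 m
  rw [coeff_cm (isDer_derivative κ).zero, coeff_map, derivative_C, coeff_zero]

omit [CharZero κ] in
private theorem PLfin_pow_dvd {x₀ y₀ : κ} {χ : κ[X][X] →+* PowerSeries κ} {c : PowerSeries κ}
    (H : IsBranch F x₀ y₀ χ c) (hX : χ X = PowerSeries.C y₀ + PowerSeries.X) {p : κ[X]} (e : ℕ)
    (h : (X - C y₀) ^ e ∣ p) : PowerSeries.X ^ e ∣ χ (PLfin_lift p) := by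
  obtain ⟨r, rfl⟩ := h
  have h1 : PLfin_lift ((X - C y₀) ^ e * r) = (X - cc y₀) ^ e * PLfin_lift r := by
    unfold PLfin_lift
    rw [Polynomial.map_mul, Polynomial.map_pow, Polynomial.map_sub, map_X, map_C]
  have h2 : χ (X - cc y₀) = PowerSeries.X := by
    rw [map_sub, hX, H.const]
    ring
  rw [h1, map_mul, map_pow, h2]
  exact dvd_mul_right _ _

omit [CharZero κ] in
private theorem PLfin_of_pow_dvd {x₀ y₀ : κ} {χ : κ[X][X] →+* PowerSeries κ} {c : PowerSeries κ}
    (H : IsBranch F x₀ y₀ χ c) (hX : χ X = PowerSeries.C y₀ + PowerSeries.X) {p : κ[X]} (e : ℕ)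
    (h : PowerSeries.X ^ e ∣ χ (PLfin_lift p)) : (X - C y₀) ^ e ∣ p := by
  by_cases hp : p = 0
  · rw [hp]; exact dvd_zero _
  obtain ⟨r, hr, hnr⟩ := exists_eq_pow_rootMultiplicity_mul_and_not_dvd p hp y₀
  have h2 : χ (X - cc y₀) = PowerSeries.X := by
    rw [map_sub, hX, H.const]
    ring
  have h1 : PLfin_lift p = (X - cc y₀) ^ (rootMultiplicity y₀ p) * PLfin_lift r := by
    rw [hr]
    unfold PLfin_lift
    rw [Polynomial.map_mul, Polynomial.map_pow, Polynomial.map_sub, map_X, map_C, ← hr]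
  rw [h1, map_mul, map_pow, h2] at h
  have hc : PowerSeries.constantCoeff (χ (PLfin_lift r)) ≠ 0 := by
    rw [H.constantCoeff, PLfin_e2, PLfin_barlift]
    intro h3
    exact hnr (dvd_iff_isRoot.2 h3)
  have hle : e ≤ rootMultiplicity y₀ p := by
    by_contra hlt
    rw [not_le] at hlt
    obtain ⟨k, hk⟩ := Nat.exists_eq_add_of_lt hlt
    obtain ⟨z, hz⟩ := h
    have h4 : PowerSeries.X ^ (rootMultiplicity y₀ p) * χ (PLfin_lift r) =
        PowerSeries.X ^ (rootMultiplicity y₀ p) * (PowerSeries.X * (PowerSeries.X ^ k * z)) := by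
      rw [hz]
      nth_rewrite 1 [hk]
      ring
    have h5 := mul_left_cancel₀ (pow_ne_zero _ PowerSeries.X_ne_zero) h4
    apply hc
    rw [h5, map_mul, PowerSeries.constantCoeff_X, zero_mul]
  exact (pow_dvd_pow _ hle).trans (pow_rootMultiplicity_dvd p y₀)

theorem dvd_of_branches [IsAlgClosed κ] (hF : F.Monic) (x₀ : κ)
    (hs : ∀ y₀, e2 x₀ y₀ F = 0 → e2 x₀ y₀ (px F) ≠ 0 ∨ e2 x₀ y₀ (py F) ≠ 0) (b : κ[X][X])
    (hb : ∀ (y₀ : κ) (χ : κ[X][X] →+* PowerSeries κ) (c : PowerSeries κ), IsBranch F x₀ y₀ χ c →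
      χ (C (X - C x₀)) ∣ χ b) :
    ∃ b' e : κ[X][X], b = C (X - C x₀) * b' + e * F := by
  classical
  have hmon : (PLfin_bar x₀ F).Monic := hF.map _
  -- the local statement
  have key : ∀ y₀, (X - C y₀) ^ (rootMultiplicity y₀ (PLfin_bar x₀ F)) ∣ PLfin_bar x₀ b := by
    intro y₀
    rcases Nat.eq_zero_or_pos (rootMultiplicity y₀ (PLfin_bar x₀ F)) with he | he
    · rw [he, pow_zero]
      exact one_dvd _
    have hroot : (PLfin_bar x₀ F).eval y₀ = 0 := (rootMultiplicity_pos hmon.ne_zero).1 he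
    have hroot' : e2 x₀ y₀ F = 0 := by rw [PLfin_e2, hroot]
    by_cases hx : e2 x₀ y₀ (px F) = 0
    · have hy : e2 x₀ y₀ (py F) ≠ 0 := by
        rcases hs y₀ hroot' with h | h
        · exact absurd hx h
        · exact h
      obtain ⟨χ, c, H, -⟩ := exists_branch_y F x₀ y₀ hroot' hy
      -- simple root
      have he1 : rootMultiplicity y₀ (PLfin_bar x₀ F) ≤ 1 := by
        by_contra hlt
        rw [not_le] at hlt
        have h1 : (X - C y₀) ^ 2 ∣ PLfin_bar x₀ F :=
          (pow_dvd_pow _ hlt).trans (pow_rootMultiplicity_dvd _ _)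
        obtain ⟨z, hz⟩ := h1
        apply hy
        have h2 : PLfin_bar x₀ (py F) = derivative (PLfin_bar x₀ F) := by
          unfold PLfin_bar py
          rw [derivative_map]
        rw [PLfin_e2, h2, hz, derivative_mul, derivative_X_sub_C_pow]
        simp
      have h1 : (PLfin_bar x₀ b).eval y₀ = 0 := by
        rw [← PLfin_e2, ← H.constantCoeff]
        obtain ⟨z, hz⟩ := hb y₀ χ c H
        rw [hz, map_mul, H.constantCoeff, PLfin_e2]
        have h3 : PLfin_bar x₀ (C (X - C x₀) : κ[X][X]) = 0 := by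
          unfold PLfin_bar
          rw [map_C, coe_evalRingHom, eval_sub, eval_X, eval_C, sub_self, C_0]
        rw [h3, eval_zero, zero_mul]
      have h4 : rootMultiplicity y₀ (PLfin_bar x₀ F) = 1 := by omega
      rw [h4, pow_one]
      exact dvd_iff_isRoot.2 h1
    · obtain ⟨χ, c, H, hX⟩ := exists_branch_x F x₀ y₀ hroot' hx
      obtain ⟨G, hG⟩ := PLfin_split x₀ F
      obtain ⟨B, hB⟩ := PLfin_split x₀ b
      have hGc : PowerSeries.constantCoeff (χ G) ≠ 0 := by
        rw [H.constantCoeff]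
        intro h0
        apply hx
        have h1 : px F = G + C (X - C x₀) * px G := by
          have h2 := congrArg px hG
          rw [isDer_px.add, PLfin_pxlift, zero_add, isDer_px.mul, px_C, derivative_X_sub_C, C_1,
            mul_one] at h2
          rw [h2]
          ring
        rw [h1, map_add, h0, map_mul, PLfin_e2 x₀ y₀ (C (X - C x₀))]
        have h3 : PLfin_bar x₀ (C (X - C x₀) : κ[X][X]) = 0 := by
          unfold PLfin_bar
          rw [map_C, coe_evalRingHom, eval_sub, eval_X, eval_C, sub_self, C_0]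
        rw [h3, eval_zero, zero_mul, zero_add]
      have hGu : IsUnit (χ G) := PowerSeries.isUnit_iff_constantCoeff.2 (isUnit_iff_ne_zero.2 hGc)
      have h1 : PowerSeries.X ^ (rootMultiplicity y₀ (PLfin_bar x₀ F)) ∣ χ (C (X - C x₀)) := by
        have h2 := PLfin_pow_dvd H hX _ (pow_rootMultiplicity_dvd (PLfin_bar x₀ F) y₀)
        have h3 := congrArg χ hG
        rw [H.root, map_add, map_mul] at h3
        have h4 : χ (C (X - C x₀)) * χ G = - χ (PLfin_lift (PLfin_bar x₀ F)) := by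
          linear_combination -h3
        have h5 : PowerSeries.X ^ (rootMultiplicity y₀ (PLfin_bar x₀ F)) ∣ χ (C (X - C x₀)) * χ G := by
          rw [h4]
          exact (dvd_neg).2 h2
        exact (hGu.dvd_mul_right).1 h5
      have h2 := hb y₀ χ c H
      have h3 := h1.trans h2
      have h4 := congrArg χ hB
      rw [map_add, map_mul] at h4
      have h5 : PowerSeries.X ^ (rootMultiplicity y₀ (PLfin_bar x₀ F)) ∣ χ (PLfin_lift (PLfin_bar x₀ b)) := by
        have h6 : χ (PLfin_lift (PLfin_bar x₀ b)) = χ b - χ (C (X - C x₀)) * χ B := by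
          linear_combination -h4
        rw [h6]
        exact dvd_sub h3 (h1.mul_right _)
      exact PLfin_of_pow_dvd H hX _ h5
  -- the divisibility of the restrictions
  have hdvd : PLfin_bar x₀ F ∣ PLfin_bar x₀ b := by
    by_cases hb0 : PLfin_bar x₀ b = 0
    · rw [hb0]; exact dvd_zero _
    have hprod : PLfin_bar x₀ F = ((PLfin_bar x₀ F).roots.map fun a => X - C a).prod := by
      have h1 := (IsAlgClosed.splits (PLfin_bar x₀ F)).eq_prod_roots
      rw [hmon.leadingCoeff, C_1, one_mul] at h1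
      exact h1
    rw [hprod, Multiset.prod_X_sub_C_dvd_iff_le_roots hb0, Multiset.le_iff_count]
    intro a
    rw [count_roots, count_roots]
    exact (le_rootMultiplicity_iff hb0).2 (key a)
  obtain ⟨g, hg⟩ := hdvd
  have h0 : PLfin_bar x₀ (b - PLfin_lift g * F) = 0 := by
    have h1 : PLfin_bar x₀ (b - PLfin_lift g * F) =
        PLfin_bar x₀ b - PLfin_bar x₀ (PLfin_lift g) * PLfin_bar x₀ F := by
      unfold PLfin_bar
      rw [Polynomial.map_sub, Polynomial.map_mul]
    rw [h1, PLfin_barlift, hg]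
    ring
  obtain ⟨b', hb'⟩ := PLfin_dvdbar h0
  exact ⟨b', PLfin_lift g, by rw [← hb']; ring⟩

private theorem PLfin_ind [IsAlgClosed κ] (hF : F.Monic) (n : ℕ) : ∀ (q : κ[X]), q.natDegree = n → q ≠ 0 →
    (∀ x₀ y₀, q.eval x₀ = 0 → e2 x₀ y₀ F = 0 → e2 x₀ y₀ (px F) ≠ 0 ∨ e2 x₀ y₀ (py F) ≠ 0) →
    ∀ b g e : κ[X][X], C q * br F b - C (derivative q) * py F * b = C (q ^ 2) * g + e * F →
    ∃ b' e' : κ[X][X], b = C q * b' + e' * F := by
  induction n with
  | zero =>
    intro q hqd hq _ b g e _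
    have h1 := Polynomial.eq_C_of_natDegree_eq_zero hqd
    have h2 : q.coeff 0 ≠ 0 := by
      intro h
      apply hq
      rw [h1, h, C_0]
    refine ⟨cc (q.coeff 0)⁻¹ * b, 0, ?_⟩
    have h3 : (C q : κ[X][X]) * cc (q.coeff 0)⁻¹ = 1 := by
      nth_rewrite 1 [h1]
      rw [← C_mul, ← C_mul, mul_inv_cancel₀ h2, C_1, C_1]
    rw [← mul_assoc, h3]
    ring
  | succ n ih =>
    intro q hqd hq hs b g e h
    have hdeg : q.degree ≠ 0 := by
      intro h
      have := natDegree_eq_zero_iff_degree_le_zero.2 (le_of_eq h)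
      omega
    obtain ⟨x₀, hr⟩ := IsAlgClosed.exists_root q hdeg
    obtain ⟨q₁, hq₁⟩ := dvd_iff_isRoot.2 hr
    have hq₁0 : q₁ ≠ 0 := by
      rintro rfl
      apply hq
      rw [hq₁, mul_zero]
    have hd : q₁.natDegree = n := by
      have h1 := hqd
      rw [hq₁, natDegree_mul (X_sub_C_ne_zero x₀) hq₁0, natDegree_X_sub_C] at h1
      omega
    have hb : ∀ (y₀ : κ) (χ : κ[X][X] →+* PowerSeries κ) (c : PowerSeries κ), IsBranch F x₀ y₀ χ c →
        χ (C (X - C x₀)) ∣ χ b := by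
      intro y₀ χ c H
      have hroot : e2 x₀ y₀ F = 0 := by
        rw [← H.constantCoeff, H.root, map_zero]
      have h1 := PLfin_inj hF H (hs x₀ y₀ hr hroot) hq
      have h2 := branch_ord H q h1 b g e h
      refine dvd_trans ?_ h2
      rw [hq₁, C_mul, map_mul]
      exact dvd_mul_right _ _
    obtain ⟨b₁, e₁, hb₁⟩ := dvd_of_branches hF x₀ (fun y₀ hy => hs x₀ y₀ hr hy) b hb
    -- the relation for `q₁`, `b₁`
    have hbr : br F b = C (X - C x₀) * br F b₁ + b₁ * py F + F * br F e₁ := by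
      rw [hb₁, (isDer_br F).add, (isDer_br F).mul, (isDer_br F).mul, PLfin_brC, derivative_X_sub_C, br_self, C_1]
      ring
    have hder : derivative q = q₁ + (X - C x₀) * derivative q₁ := by
      rw [hq₁, derivative_mul, derivative_X_sub_C]
      ring
    have hrel : C ((X - C x₀) ^ 2) * (C q₁ * br F b₁ - C (derivative q₁) * py F * b₁ - C (q₁ ^ 2) * g) =
        (e - C q * br F e₁ + C (derivative q) * py F * e₁) * F := by
      have h1 := h
      rw [hbr] at h1
      rw [hb₁] at h1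
      rw [hder, hq₁] at h1 ⊢
      simp only [C_mul, C_add, C_pow] at h1 ⊢
      linear_combination h1
    have hz : ∃ e₂, C q₁ * br F b₁ - C (derivative q₁) * py F * b₁ - C (q₁ ^ 2) * g = e₂ * F := by
      rw [← mod_eq_zero_iff hF]
      have h1 : (C ((X - C x₀) ^ 2) * (C q₁ * br F b₁ - C (derivative q₁) * py F * b₁ - C (q₁ ^ 2) * g)) %ₘ F = 0 :=
        (mod_eq_zero_iff hF _).2 ⟨_, hrel⟩
      rw [mod_C_mul hF] at h1
      rcases mul_eq_zero.1 h1 with h2 | h2
      · exfalso
        rw [C_eq_zero] at h2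
        exact X_sub_C_ne_zero x₀ (pow_eq_zero_iff (two_ne_zero)|>.1 h2)
      · exact h2
    obtain ⟨e₂, he₂⟩ := hz
    obtain ⟨b', e', hb'⟩ := ih q₁ hd hq₁0
      (fun x y hx hy => hs x y (by rw [hq₁, eval_mul, hx, mul_zero]) hy) b₁ g e₂
      (by linear_combination he₂)
    refine ⟨b', C (X - C x₀) * e' + e₁, ?_⟩
    rw [hb₁, hb']
    have h5 : (C q : κ[X][X]) = C (X - C x₀) * C q₁ := by
      rw [← C_mul, ← hq₁]
    rw [h5]
    ring

theorem pl_fin [IsAlgClosed κ] (hF : F.Monic) (q : κ[X]) (hq : q ≠ 0)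
    (hs : ∀ x₀ y₀, q.eval x₀ = 0 → e2 x₀ y₀ F = 0 →
      e2 x₀ y₀ (px F) ≠ 0 ∨ e2 x₀ y₀ (py F) ≠ 0) (b g e : κ[X][X])
    (h : C q * br F b - C (derivative q) * py F * b = C (q ^ 2) * g + e * F) :
    ∃ b' e' : κ[X][X], b = C q * b' + e' * F :=
  PLfin_ind hF q.natDegree q rfl hq hs b g e h

/-- The same over a field which is not algebraically closed, for a smooth curve. -/
theorem pl_fin' (hF : F.Monic) (hs : Sm F 1) (q : κ[X]) (hq : q ≠ 0) (b g e : κ[X][X])
    (h : C q * br F b - C (derivative q) * py F * b = C (q ^ 2) * g + e * F) :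
    ∃ b' e' : κ[X][X], b = C q * b' + e' * F := by
  obtain ⟨φ, hφ⟩ : ∃ φ : κ →+* AlgebraicClosure κ, φ = algebraMap κ (AlgebraicClosure κ) := ⟨_, rfl⟩
  have hF' : (mp φ F).Monic := hF.map _
  have hq' : q.map φ ≠ 0 := (Polynomial.map_ne_zero_iff φ.injective).2 hq
  have hC : ∀ p : κ[X], mp φ (C p) = C (p.map φ) := by
    intro p
    show Polynomial.map (mapRingHom φ) (C p) = C (p.map φ)
    rw [map_C]
    rfl
  have hsm : ∀ x₀ y₀, (q.map φ).eval x₀ = 0 → e2 x₀ y₀ (mp φ F) = 0 →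
      e2 x₀ y₀ (px (mp φ F)) ≠ 0 ∨ e2 x₀ y₀ (py (mp φ F)) ≠ 0 := by
    intro x₀ y₀ _ h0
    obtain ⟨u, v, z, huvz⟩ := hs
    by_contra hcon
    rw [not_or, not_not, not_not] at hcon
    have h1 := congrArg (fun t => e2 x₀ y₀ (mp φ t)) huvz
    simp only [map_add, map_mul] at h1
    rw [mp_px, mp_py, h0, hcon.1, hcon.2] at h1
    simp at h1
  have hrel : C (q.map φ) * br (mp φ F) (mp φ b) - C (derivative (q.map φ)) * py (mp φ F) * mp φ b =
      C ((q.map φ) ^ 2) * mp φ g + mp φ e * mp φ F := by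
    have h1 := congrArg (mp φ) h
    rw [map_sub, map_mul, map_mul, map_mul, map_add, map_mul, map_mul, mp_br, mp_py, hC, hC, hC, Polynomial.map_pow,
      ← derivative_map] at h1
    exact h1
  obtain ⟨b', e', hb'⟩ := pl_fin hF' (q.map φ) hq' hsm _ _ _ hrel
  obtain ⟨e₀, he₀⟩ := exists_mod hF b
  have hdvd : C q ∣ b %ₘ F := by
    rw [C_dvd_iff_dvd_coeff]
    intro i
    rw [← Polynomial.map_dvd_map' φ]
    have h1 : (mp φ (b %ₘ F)) = C (q.map φ) * (b' %ₘ (mp φ F)) := by
      rw [mp_mod φ hF, hb', mod_add hF', mod_mul_self hF', add_zero, mod_C_mul hF']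
    have h2 := congrArg (fun t : (AlgebraicClosure κ)[X][X] => t.coeff i) h1
    simp only [coeff_C_mul] at h2
    have h3 : (mp φ (b %ₘ F)).coeff i = ((b %ₘ F).coeff i).map φ := by
      show (Polynomial.map (mapRingHom φ) (b %ₘ F)).coeff i = _
      rw [coeff_map]
      rfl
    rw [← h3, h2]
    exact dvd_mul_right _ _
  obtain ⟨b₀, hb₀⟩ := hdvd
  exact ⟨b₀, e₀, by rw [← hb₀]; exact he₀⟩

end MPadcLF
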