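import Pool.Agent.Lib.MP_adc574_ag_LF.Bas
import Pool.Agent.Lib.MP_adc574_ag_LF.PLfin

/-!
# JOB Prim: primitives at infinity and on the affine curve

* `prim_inf0` (characteristic `0`, paper 3.8): let `m` be minimal with `BDeg m β` (`exists_bdeg`; if `BDeg m β` for
  all `m` then `β = 0`); suppose `m ≥ 1`. `β = x ^ m ∑ c_i ζ ^ i + β'` with constants `c_i` not all zero,
  `ζ ^ i = x ^ (- w i) y ^ i`, `BDeg (m - 1) β'` (`Birk.exists_residue` for the coordinates). Then
  `d β = m x ^ (m - 1) ∑ c_i ζ ^ i + (BDeg (m - 2))` (`bdeg_two` for `ζ ^ i`, `bdeg_d` for `β'`), which is not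
  `BDeg (m - 2)`, but `-2 ≤ m - 2`.
* `prim_infp` (characteristic `p`, paper 4.2): `β₀ = ∑ i < p - 1, (-1) ^ i x ^ (i + 1) / (i + 1)! d^[i + 1] β`
  has `BDeg (-1)`, and `d β₀ = d β` by telescoping, `d^[p] β = 0` (`iterate_p`, see ExE of Cov; here `hp0`).
* `plinf_etale`: `dN F N g = k + e F` gives `x ^ (N + 1) F_Y d (ev g / x ^ N) = ev k`, so
  `BDeg (-2) (d (ev g / x ^ N))` (`bdeg_ev`, `bdeg_div`), `prim_inf0`, and `BDeg N (ev g)` gives `WD w N g` for
  `g.natDegree < n` (`repr_ev`).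
* `prim_fin0` (characteristic `0`, paper 6.1): `G = ev b / pol q` (`q` a common denominator of the coordinates), and
  `F_Y d G ∈ B`: `q ev (br F b) - q' F_Y ev b = q ^ 2 ev g`, `pl_fin'`.
-/

set_option autoImplicit false

namespace MPadcLF

open Polynomial MPadcCov

variable {κ : Type*} [Field κ] {E : Type*} [Field E] [Algebra (RatFunc κ) E] {w n : ℕ}
  {F : κ[X][X]} {y : E} {e : Module.Basis (Fin n) (RatFunc κ) E} {dK : RatFunc κ → RatFunc κ}
  {d : Derivation ℤ E E}

private theorem prim_mul_pol {a : Fin n → ℕ} {m : ℤ} {z : E} {q : κ[X]} {k : ℕ}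
    (hq : q.natDegree ≤ k) (hz : BDeg e a m z) : BDeg e a (m + k) (inE E (pol q) * z) := by
  refine BDeg.smul ?_ hz
  rw [dle_pol_iff]
  right
  exact_mod_cast hq

private theorem prim_of_mul {a : Fin n → ℕ} {m : ℤ} {z : E} {q : κ[X]} (hq : q ≠ 0) {k : ℕ}
    (hk : q.natDegree = k) (hz : BDeg e a ((k : ℤ) + m) (inE E (pol q) * z)) :
    BDeg e a m z := by
  intro i
  have h1 := hz i
  rw [repr_inE_mul] at h1
  refine dle_of_mul hq (h1.mono ?_)
  rw [hk]
  linarith

private theorem prim_pol_mul (a b : κ[X]) : pol (a * b) = pol a * pol b :=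
  map_mul (algebraMap κ[X] (RatFunc κ)) a b

private theorem prim_map_mul (a b : κ[X]) :
    inE E (pol (a * b)) = inE E (pol a) * inE E (pol b) := by
  rw [prim_pol_mul]
  exact map_mul (algebraMap (RatFunc κ) E) _ _

private theorem prim_map_one : inE E (pol (1 : κ[X])) = 1 := by
  show algebraMap (RatFunc κ) E (algebraMap κ[X] (RatFunc κ) 1) = 1
  rw [map_one, map_one]

private theorem prim_map_zero : inE E (pol (0 : κ[X])) = 0 := by
  show algebraMap (RatFunc κ) E (algebraMap κ[X] (RatFunc κ) 0) = 0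
  rw [map_zero, map_zero]

private theorem prim_map_nat (N : ℕ) : inE E (pol ((N : ℕ) : κ[X])) = (N : E) := by
  show algebraMap (RatFunc κ) E (algebraMap κ[X] (RatFunc κ) N) = N
  rw [map_natCast, map_natCast]

private theorem prim_inE_ne {q : κ[X]} (hq : q ≠ 0) : inE E (pol q) ≠ 0 := by
  rw [Ne, map_eq_zero_iff _ (algebraMap (RatFunc κ) E).injective, map_eq_zero_iff _ pol_injective]
  exact hq

private theorem KL.prim_leib (H : KL w n F y e dK d) (q : κ[X]) (z : E) :
    d (inE E (pol q) * z) = inE E (pol q) * d z + inE E (pol (derivative q)) * z := by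
  rw [Derivation.leibniz, smul_eq_mul, smul_eq_mul]
  have h1 : d (inE E (pol q)) = inE E (pol (derivative q)) := by
    have h2 := H.d_alg (pol q)
    rw [H.dK_pol] at h2
    exact h2
  rw [h1, mul_comm z]

theorem KL.prim_inf0 [CharZero κ] (H : KL w n F y e dK d) {β : E}
    (hβ : BDeg e (aa w n) (-2) (d β)) : BDeg e (aa w n) 0 β := by
  have main : ∀ k : ℕ, BDeg e (aa w n) (k : ℤ) β → BDeg e (aa w n) 0 β := by
    intro k
    induction k with
    | zero =>
      intro h
      exact BDeg.mono h (by norm_num)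
    | succ k ih =>
      intro h
      apply ih
      have hX : (X ^ (k + 1) : κ[X]) ≠ 0 := pow_ne_zero _ X_ne_zero
      have hxne : inE E (pol (X ^ (k + 1) : κ[X])) ≠ 0 := prim_inE_ne hX
      obtain ⟨γ, hγ⟩ : ∃ γ : E, inE E (pol (X ^ (k + 1) : κ[X])) * γ = β :=
        ⟨(inE E (pol (X ^ (k + 1) : κ[X])))⁻¹ * β, mul_inv_cancel_left₀ hxne β⟩
      have hγ0 : BDeg e (aa w n) 0 γ := by
        refine prim_of_mul hX (natDegree_X_pow (k + 1)) ?_
        rw [hγ]
        exact BDeg.mono h (by linarith)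
      have hd := H.prim_leib (X ^ (k + 1)) γ
      rw [hγ] at hd
      have hder : derivative (X ^ (k + 1) : κ[X]) = C ((k + 1 : ℕ) : κ) * X ^ k := by
        rw [derivative_X_pow, Nat.add_sub_cancel]
      have hq : (C ((k + 1 : ℕ) : κ) * X ^ k : κ[X]) ≠ 0 :=
        mul_ne_zero (C_ne_zero.mpr (Nat.cast_ne_zero.mpr (Nat.succ_ne_zero k)))
          (pow_ne_zero _ X_ne_zero)
      have hqd : (C ((k + 1 : ℕ) : κ) * X ^ k : κ[X]).natDegree = k :=
        natDegree_C_mul_X_pow k _ (Nat.cast_ne_zero.mpr (Nat.succ_ne_zero k))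
      have h1 : BDeg e (aa w n) ((k : ℤ) + (-1))
          (inE E (pol (derivative (X ^ (k + 1) : κ[X]))) * γ) := by
        have h2 : inE E (pol (derivative (X ^ (k + 1) : κ[X]))) * γ =
            d β - inE E (pol (X ^ (k + 1) : κ[X])) * d γ := by
          rw [hd]
          ring
        rw [h2]
        refine BDeg.sub (BDeg.mono hβ (by linarith)) ?_
        exact BDeg.mono (prim_mul_pol (natDegree_X_pow_le (k + 1)) (H.bdeg_two hγ0))
          (by push_cast; linarith)
      rw [hder] at h1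
      have h3 := prim_of_mul hq hqd h1
      rw [← hγ]
      exact BDeg.mono (prim_mul_pol (natDegree_X_pow_le (k + 1)) h3) (by push_cast; linarith)
  obtain ⟨m, hm⟩ := exists_bdeg β (aa w n) (e := e)
  exact main m.toNat (BDeg.mono hm (Int.self_le_toNat m))

theorem KL.prim_infp (p : ℕ) [Fact p.Prime] [CharP κ p] (H : KL w n F y e dK d)
    (hp0 : ∀ z : E, d^[p] z = 0) {β : E} (hβ : BDeg e (aa w n) (-2) (d β)) :
    ∃ β₀ : E, BDeg e (aa w n) 0 β₀ ∧ d (β - β₀) = 0 := by
  have hp : 1 < p := (Fact.out : p.Prime).one_lt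
  obtain ⟨A, hA⟩ : ∃ A : ℕ → E, ∀ i, A i =
      inE E (pol (C (((i.factorial : ℕ) : κ)⁻¹) * X ^ i)) * d^[i + 1] β := ⟨_, fun _ => rfl⟩
  obtain ⟨B, hB⟩ : ∃ B : ℕ → E, ∀ i, B i =
      inE E (pol (C ((((i + 1).factorial : ℕ) : κ)⁻¹) * X ^ (i + 1))) * d^[i + 1] β :=
    ⟨_, fun _ => rfl⟩
  have hdB : ∀ i, i + 1 < p → d (B i) = A i + A (i + 1) := by
    intro i hi
    have h1 : (((i + 1 : ℕ) : κ)) ≠ 0 := by
      rw [Ne, CharP.cast_eq_zero_iff κ p]
      intro h2
      have h3 := Nat.le_of_dvd (Nat.succ_pos i) h2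
      omega
    have h2 : (((i + 1).factorial : ℕ) : κ)⁻¹ * ((i + 1 : ℕ) : κ) = ((i.factorial : ℕ) : κ)⁻¹ := by
      rw [Nat.factorial_succ, Nat.cast_mul, mul_inv, mul_comm _ (((i.factorial : ℕ) : κ)⁻¹),
        mul_assoc, inv_mul_cancel₀ h1, mul_one]
    have h3 : derivative (C ((((i + 1).factorial : ℕ) : κ)⁻¹) * X ^ (i + 1) : κ[X]) =
        C (((i.factorial : ℕ) : κ)⁻¹) * X ^ i := by
      rw [derivative_C_mul_X_pow, Nat.add_sub_cancel, h2]
    rw [hB, hA, hA, H.prim_leib, h3, Function.iterate_succ_apply' d (i + 1) β]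
    ring
  have hsum : ∀ N : ℕ, N + 1 ≤ p →
      d (∑ i ∈ Finset.range N, ((-1 : ℤ) ^ i) • B i) = A 0 - ((-1 : ℤ) ^ N) • A N := by
    intro N
    induction N with
    | zero =>
      intro _
      rw [Finset.sum_range_zero, map_zero, pow_zero, one_smul, sub_self]
    | succ N ih =>
      intro hN
      rw [Finset.sum_range_succ, map_add, ih (by omega), map_zsmul, hdB N (by omega), smul_add,
        pow_succ, mul_neg_one, neg_smul]
      abel
  have hA0 : A 0 = d β := by
    rw [hA, Nat.factorial_zero, Nat.cast_one, inv_one, C_1, pow_zero, mul_one, prim_map_one,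
      one_mul]
    rfl
  have hAp : A (p - 1) = 0 := by
    rw [hA, Nat.sub_add_cancel hp.le, hp0, mul_zero]
  refine ⟨∑ i ∈ Finset.range (p - 1), ((-1 : ℤ) ^ i) • B i, ?_, ?_⟩
  · refine BDeg.sum _ _ fun i _ => ?_
    have h1 : BDeg e (aa w n) 0 (B i) := by
      have h2 : BDeg e (aa w n) (-2 - i) (d^[i + 1] β) := H.bdeg_d_iterate hβ i
      have h3 : (C ((((i + 1).factorial : ℕ) : κ)⁻¹) * X ^ (i + 1) : κ[X]).natDegree ≤ i + 1 :=
        natDegree_C_mul_X_pow_le _ _
      rw [hB]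
      exact BDeg.mono (prim_mul_pol h3 h2) (by push_cast; linarith)
    rcases neg_one_pow_eq_or ℤ i with h2 | h2
    · rw [h2, one_smul]
      exact h1
    · rw [h2, neg_smul, one_smul]
      exact BDeg.neg h1
  · rw [map_sub, hsum (p - 1) (by omega), hAp, smul_zero, sub_zero, hA0, sub_self]

private theorem KL.prim_const (H : KL w n F y e dK d) {k : κ[X][X]} (hk : WD w 0 k) :
    ∃ c : κ, ev y k = inE (κ := κ) E (pol (C c)) := by
  have h1 : ∀ j, j ≠ 0 → k.coeff j = 0 := by
    intro j hj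
    by_contra h
    have h2 := hk j h
    have h3 : 0 < w * j := Nat.mul_pos H.hw (Nat.pos_of_ne_zero hj)
    omega
  have h2 : k = C (k.coeff 0) := by
    ext1 j
    rcases eq_or_ne j 0 with hj | hj
    · rw [hj, coeff_C_zero]
    · rw [h1 j hj, coeff_C_of_ne_zero hj]
  have h3 : (k.coeff 0).natDegree = 0 := by
    by_cases h : k.coeff 0 = 0
    · rw [h, natDegree_zero]
    · have h4 := hk 0 h
      omega
  refine ⟨(k.coeff 0).coeff 0, ?_⟩
  rw [← eq_C_of_natDegree_eq_zero h3, ← ev_C (y := y), ← h2]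

theorem KL.plinf_etale [CharZero κ] (H : KL w n F y e dK d) : PLinf w n F := by
  intro N g k e' hg hdN hk
  have hX : (X ^ N : κ[X]) ≠ 0 := pow_ne_zero _ X_ne_zero
  have hxne : inE E (pol (X ^ N : κ[X])) ≠ 0 := prim_inE_ne hX
  obtain ⟨z, hz⟩ : ∃ z : E, inE E (pol (X ^ N : κ[X])) * z = ev y g :=
    ⟨(inE E (pol (X ^ N : κ[X])))⁻¹ * ev y g, mul_inv_cancel_left₀ hxne _⟩
  have hXN : (X : κ[X]) * derivative (X ^ N : κ[X]) = (N : κ[X]) * X ^ N := by
    rw [derivative_X_pow]
    cases N with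
    | zero => simp
    | succ N =>
      rw [Nat.add_sub_cancel, pow_succ, map_natCast]
      ring
  have hk1 : inE E (pol (X ^ (N + 1) : κ[X])) * (d z * ev y (py F)) = ev y k := by
    have h1 := H.d_ev g
    rw [← hz, H.prim_leib] at h1
    have h2 : ev y (dN F N g) = ev y k := by
      rw [hdN, map_add, map_mul, H.root, mul_zero, add_zero]
    have h3 : ev y (dN F N g) = inE E (pol (X : κ[X])) * ev y (br F g) -
        (N : E) * ev y g * ev y (py F) := by
      unfold dN
      rw [map_sub, map_mul, map_mul, map_mul, ev_C, map_natCast]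
    have h4 : inE (κ := κ) E (pol X) * inE E (pol (derivative (X ^ N : κ[X]))) =
        (N : E) * inE E (pol (X ^ N : κ[X])) := by
      rw [← prim_map_mul, hXN, prim_map_mul, prim_map_nat]
    have h6 : inE (κ := κ) E (pol (X ^ (N + 1))) =
        inE (κ := κ) E (pol X) * inE (κ := κ) E (pol (X ^ N)) := by
      rw [pow_succ', prim_map_mul]
    rw [← h2, h3, ← h1, ← hz, h6]
    linear_combination (-z * ev y (py F)) * h4
  have key : BDeg e (aa w n) (-2) (d z) := by
    by_cases hc : 1 ≤ w * (n - 1) + N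
    · have h1 := H.bdeg_ev hk
      rw [← hk1] at h1
      apply H.bdeg_div
      refine prim_of_mul (pow_ne_zero (N + 1) X_ne_zero) (natDegree_X_pow (N + 1))
        (BDeg.mono h1 ?_)
      have h2 : ((w * (n - 1) + N - 1 : ℕ) : ℤ) = (w : ℤ) * ((n : ℤ) - 1) + N - 1 := by
        rw [Nat.cast_sub hc]
        push_cast [Nat.cast_sub (Nat.succ_le_of_lt H.hn)]
        ring
      rw [h2]
      push_cast
      linarith
    · have hN : N = 0 := by omega
      have hwn : w * (n - 1) = 0 := by omega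
      have hk0 : WD w 0 k := by
        rw [hwn, hN] at hk
        exact hk
      obtain ⟨c, hc1⟩ := H.prim_const hk0
      have h1 : ev y k = inE E (pol (X : κ[X])) * ev y (br F g) := by
        have h2 : ev y (dN F N g) = ev y k := by
          rw [hdN, map_add, map_mul, H.root, mul_zero, add_zero]
        rw [← h2, hN]
        unfold dN
        rw [Nat.cast_zero, zero_mul, zero_mul, sub_zero, map_mul, ev_C]
      obtain ⟨b, hb⟩ := H.inB_ev (br F g) ⟨0, H.hn⟩
      have he0 : e.repr (1 : E) ⟨0, H.hn⟩ = 1 := by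
        have h3 : e ⟨0, H.hn⟩ = 1 := by
          rw [H.basis, pow_zero]
        rw [← h3, Module.Basis.repr_self, Finsupp.single_eq_same]
      have h4 : pol (X * b) = pol (C c) := by
        have h5 : e.repr (ev y k) ⟨0, H.hn⟩ = pol (X * b) := by
          rw [h1, repr_inE_mul, ← hb, prim_pol_mul]
        have h6 : e.repr (ev y k) ⟨0, H.hn⟩ = pol (C c) := by
          rw [hc1, ← mul_one (inE E (pol (C c))), repr_inE_mul, he0, mul_one]
        rw [← h5, h6]
      have h7 := congrArg (fun q : κ[X] => q.coeff 0) (pol_injective h4)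
      simp only [coeff_X_mul_zero, coeff_C_zero] at h7
      rw [hc1, ← h7, C_0, prim_map_zero] at hk1
      have h8 : d z = 0 := by
        have h9 : inE E (pol (X ^ (N + 1) : κ[X])) ≠ 0 := prim_inE_ne (pow_ne_zero _ X_ne_zero)
        have h10 := (mul_eq_zero.mp hk1).resolve_left h9
        exact (mul_eq_zero.mp h10).resolve_right H.Fy
      rw [h8]
      exact BDeg.zero
  have h0 := H.prim_inf0 key
  have hg1 : BDeg e (aa w n) (0 + N) (ev y g) := by
    rw [← hz]
    exact prim_mul_pol (natDegree_X_pow_le N) h0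
  intro j hj
  have hjn : j < n := lt_of_le_of_lt (le_natDegree_of_ne_zero hj) hg
  have h1 := hg1 ⟨j, hjn⟩
  rw [H.repr_ev hg, dle_pol_iff] at h1
  have h2 := h1.resolve_left hj
  have h3 : ((aa w n ⟨j, hjn⟩ : ℕ) : ℤ) = ((w * j : ℕ) : ℤ) := rfl
  rw [h3] at h2
  have h4 : (g.coeff j).natDegree = (g.coeff ((⟨j, hjn⟩ : Fin n) : ℕ)).natDegree := rfl
  rw [h4]
  omega

theorem KL.prim_fin0 [CharZero κ] (H : KL w n F y e dK d) (hs : Sm F 1) {G : E}
    (hG : InB e (d G * ev y (py F))) : InB e G := by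
  classical
  choose p q hq hpq using fun i => exists_rep (e.repr G i)
  obtain ⟨Q, hQ⟩ : ∃ Q : κ[X], Q = ∏ i, q i := ⟨_, rfl⟩
  have hQ0 : Q ≠ 0 := by
    rw [hQ]
    exact Finset.prod_ne_zero_iff.mpr fun i _ => hq i
  have hQB : InB e (inE E (pol Q) * G) := by
    intro i
    refine ⟨(∏ j ∈ Finset.univ.erase i, q j) * p i, ?_⟩
    rw [repr_inE_mul, prim_pol_mul, ← hpq i, ← mul_assoc, ← prim_pol_mul, hQ,
      Finset.prod_erase_mul _ _ (Finset.mem_univ i)]
  obtain ⟨b, -, hb⟩ := H.exists_ev hQB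
  obtain ⟨g, -, hg⟩ := H.exists_ev hG
  have h1 := H.d_ev b
  rw [hb, H.prim_leib, add_mul, mul_assoc, ← hg] at h1
  have h2 : ev y (C Q * br F b - C (derivative Q) * py F * b - C (Q ^ 2) * g) = 0 := by
    rw [map_sub, map_sub, map_mul, map_mul, map_mul, map_mul, ev_C, ev_C, ev_C, ← h1, hb,
      pow_two, prim_map_mul]
    ring
  obtain ⟨e', he'⟩ := (H.ev_eq_zero_iff _).mp h2
  obtain ⟨b', e'', hb'⟩ := pl_fin' H.wt.monic hs Q hQ0 b g e' (by
    rw [← he']
    ring)
  have h3 : G = ev y b' := by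
    apply mul_left_cancel₀ (prim_inE_ne (E := E) hQ0)
    rw [← hb, hb', map_add, map_mul, map_mul, ev_C, H.root, mul_zero, add_zero]
  rw [h3]
  exact H.inB_ev b'

end MPadcLF
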