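import Pool.Agent.Lib.MP_adc574_ag_LF.Conn
import Pool.Agent.Lib.MP_adc574_ag_LF.Prim
import Pool.Agent.Lib.MP_adc574_ag_LF.ClaimL

/-!
# JOB NoHor: no horizontal vectors

Paper 6.1. `exact_zero`: `lc c (mE …) = d G`: `InB e G` by `prim_fin0` (`lc_mE`), `G = ev g`, so
`ev (∑ cc (c a) η a - br F g) = 0` (`lc_mE`, `d_ev`), `ev_eq_zero_iff`, `claimL` with `plinf_etale`.
`no_horizontal`: by `gm_lc` with `Δ ≠ 0` `D (lc c (mE …))` is in the image of `d`; `lc c` satisfies the hypotheses of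
`hN` (`lc_mE`, `lc_low`).
-/

set_option autoImplicit false

namespace MPadcLF

open Polynomial MPadcCov

variable {κ : Type*} [Field κ] {E : Type*} [Field E] [Algebra (RatFunc κ) E] {w n : ℕ}
  {F : κ[X][X]} {y : E} {e : Module.Basis (Fin n) (RatFunc κ) E} {δ : κ → κ}
  {dK DK : RatFunc κ → RatFunc κ} {d D : Derivation ℤ E E} {η : IX w n → κ[X][X]}

theorem KL.exact_zero [CharZero κ] (H : KL w n F y e dK d) (hη : HB w n F η) (hs : Sm F 1)
    (c : IX w n → κ) (h : ∃ G, d G = lc c (mE F y η)) : c = 0 := by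
  obtain ⟨G, hG⟩ := h
  have h1 : d G * ev y (py F) = ev y (∑ a, cc (c a) * η a) := by
    rw [hG]
    exact H.lc_mE c
  have h2 : InB e (d G * ev y (py F)) := by
    rw [h1]
    exact H.inB_ev _
  obtain ⟨g, -, hg⟩ := H.exists_ev (H.prim_fin0 hs h2)
  have h3 : ev y (∑ a, cc (c a) * η a - br F g) = 0 := by
    rw [map_sub, ← h1, ← hg, H.d_ev, sub_self]
  obtain ⟨e', he'⟩ := (H.ev_eq_zero_iff _).1 h3
  exact (claimL H.hw H.hn H.wt hη H.plinf_etale c g e' (by rw [← he']; ring)).1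

theorem KD.no_horizontal [CharZero κ] (H : KD w n F y e δ dK DK d D) (hη : HB w n F η)
    (hs : Sm F 1) {Δ : κ} (hΔ : Δ ≠ 0) {G : Matrix (IX w n) (IX w n) κ} (hG : IsGM δ Δ F η G)
    (hN : ∀ φ b : E, InB e (φ * ev y (py F)) → BDeg e (aa w n) (-2) (φ - d b) →
      (∃ z, D φ = d z) → ∃ z, φ = d z)
    (c : IX w n → κ) (hc : ∀ a, Δ * δ (c a) + G.mulVec c a = 0) : c = 0 := by
  have H' : KL w n F y e dK d := H.toKL
  have h1 : InB e (lc c (mE F y η) * ev y (py F)) := by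
    rw [H'.lc_mE c]
    exact H'.inB_ev _
  obtain ⟨z, hz⟩ := H.gm_lc hG c
  have h2 : lc (fun a => Δ * δ (c a) + G.mulVec c a) (mE F y η) = 0 := by
    unfold lc
    refine Finset.sum_eq_zero fun a _ => ?_
    show inE (κ := κ) E (pol (C (Δ * δ (c a) + G.mulVec c a))) * mE F y η a = 0
    have h0 : inE (κ := κ) E (pol (C (0 : κ))) = 0 := by
      rw [C_0]
      unfold pol inE
      rw [map_zero, map_zero]
    rw [hc a, h0, zero_mul]
  rw [h2, zero_add] at hz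
  have h3 : inE (κ := κ) E (pol (C Δ⁻¹)) * inE (κ := κ) E (pol (C Δ)) = 1 := by
    rw [← map_mul, ← map_mul, ← map_mul, inv_mul_cancel₀ hΔ, map_one, map_one, map_one]
  have h4 : D (lc c (mE F y η)) = d (inE (κ := κ) E (pol (C Δ⁻¹)) * z) := by
    rw [H'.d_const, ← hz, ← mul_assoc, h3, one_mul]
  obtain ⟨z', hz'⟩ := hN _ (lc c (bE κ y)) h1 (H'.lc_low hη c) ⟨_, h4⟩
  exact H'.exact_zero hη hs c ⟨z', hz'.symm⟩

end MPadcLF
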