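import Pool.Agent.Lib.MP_adc574_ag_LF.Px

/-!
# JOB Wd: weights

All statements are about the degrees of the coefficients (`natDegree_mul_le`, `natDegree_add_le`,
`natDegree_derivative_le`, `natDegree_sum_le`). `WD.mod`: induction on the degree in `Y`: subtract
`C (leading coefficient) * Y ^ (deg - n) * F`, which has weight at most `m` (`Polynomial.modByMonic` is
unique; strong induction on `natDegree`). `WD.ofbb`: the coefficient of `Y ^ l` of `bb F i` is
`F.coeff (l + i + 1)` (`coeff_divX`). `wt_euler`: the coefficient of `x ^ a Y ^ j` in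
`x F_x + w Y F_Y - w n F` is `(a + w j - w n)` times the coefficient of `F`, so it vanishes for
`a + w j = w n`.
-/

set_option autoImplicit false

namespace MPadcLF

open Polynomial MPadcCov

variable {R : Type*} [CommRing R] {w n m m' : ℕ} {F h g : R[X][X]}

private theorem wd_iff : WD w m h ↔ ∀ j a, (h.coeff j).coeff a ≠ 0 → a + w * j ≤ m := by
  constructor
  · intro hh j a ha
    have h1 : h.coeff j ≠ 0 := by
      intro h0
      rw [h0, coeff_zero] at ha
      exact ha rfl
    have h2 := hh j h1
    have h3 := le_natDegree_of_ne_zero ha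
    omega
  · intro hh j hj
    exact hh j _ (by
      rw [coeff_natDegree]
      exact leadingCoeff_ne_zero.2 hj)

theorem WD.zero : WD w m (0 : R[X][X]) := by
  intro j hj
  rw [coeff_zero] at hj
  exact absurd rfl hj

theorem WD.mono (hh : WD w m h) (hm : m ≤ m') : WD w m' h := fun j hj => (hh j hj).trans hm

theorem WD.add (hh : WD w m h) (hg : WD w m g) : WD w m (h + g) := by
  rw [wd_iff] at hh hg ⊢
  intro j a ha
  rw [coeff_add, coeff_add] at ha
  by_cases h1 : (h.coeff j).coeff a = 0
  · rw [h1, zero_add] at ha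
    exact hg j a ha
  · exact hh j a h1

theorem WD.neg (hh : WD w m h) : WD w m (-h) := by
  rw [wd_iff] at hh ⊢
  intro j a ha
  rw [coeff_neg, coeff_neg, neg_ne_zero] at ha
  exact hh j a ha

theorem WD.sub (hh : WD w m h) (hg : WD w m g) : WD w m (h - g) := by
  rw [sub_eq_add_neg]
  exact hh.add hg.neg

theorem WD.sum {ι : Type*} (s : Finset ι) (f : ι → R[X][X]) (hf : ∀ i ∈ s, WD w m (f i)) :
    WD w m (∑ i ∈ s, f i) := by
  classical
  induction s using Finset.induction_on with
  | empty =>
    rw [Finset.sum_empty]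
    exact WD.zero
  | insert i s hi ih =>
    rw [Finset.sum_insert hi]
    exact (hf i (Finset.mem_insert_self _ _)).add
      (ih fun k hk => hf k (Finset.mem_insert_of_mem hk))

theorem WD.mul (hh : WD w m h) (hg : WD w m' g) : WD w (m + m') (h * g) := by
  rw [wd_iff] at hh hg ⊢
  intro j a ha
  rw [coeff_mul, finsetSum_coeff] at ha
  obtain ⟨p, hp, h1⟩ := Finset.exists_ne_zero_of_sum_ne_zero ha
  rw [coeff_mul] at h1
  obtain ⟨r, hr, h2⟩ := Finset.exists_ne_zero_of_sum_ne_zero h1
  have h3 := hh p.1 r.1 (left_ne_zero_of_mul h2)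
  have h4 := hg p.2 r.2 (right_ne_zero_of_mul h2)
  have h5 : p.1 + p.2 = j := Finset.HasAntidiagonal.mem_antidiagonal.1 hp
  have h6 : r.1 + r.2 = a := Finset.HasAntidiagonal.mem_antidiagonal.1 hr
  rw [← h5, ← h6, mul_add]
  omega

theorem WD.ofC {q : R[X]} (hq : q.natDegree ≤ m) : WD w m (C q : R[X][X]) := by
  intro j hj
  rw [coeff_C] at hj ⊢
  by_cases h0 : j = 0
  · rw [if_pos h0, h0, mul_zero, add_zero]
    exact hq
  · rw [if_neg h0] at hj
    exact absurd rfl hj

theorem WD.ofX_pow (i : ℕ) : WD w (w * i) (X ^ i : R[X][X]) := by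
  intro j hj
  rw [coeff_X_pow] at hj ⊢
  by_cases h0 : j = i
  · rw [if_pos h0, h0, natDegree_one, zero_add]
  · rw [if_neg h0] at hj
    exact absurd rfl hj

theorem WD.ofcc (r : R) : WD w 0 (cc r : R[X][X]) :=
  WD.ofC (by rw [natDegree_C])

theorem WD.ofNat (r : ℕ) : WD w 0 (r : R[X][X]) := by
  have h1 : (r : R[X][X]) = cc (r : R) := by
    unfold cc
    rw [C_eq_natCast, C_eq_natCast]
  rw [h1]
  exact WD.ofcc _

/-- The degree in `Y`. -/
theorem WD.natDegree_le (hh : WD w m h) : w * h.natDegree ≤ m ∨ h = 0 := by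
  by_cases h0 : h = 0
  · exact Or.inr h0
  · left
    have h1 := hh h.natDegree (by
      rw [coeff_natDegree]
      exact leadingCoeff_ne_zero.2 h0)
    omega

theorem WD.map {R' : Type*} [CommRing R'] (φ : R →+* R') (hh : WD w m h) : WD w m (mp φ h) := by
  rw [wd_iff] at hh ⊢
  intro j a ha
  refine hh j a fun h0 => ha ?_
  show (((h.map (mapRingHom φ)).coeff j)).coeff a = 0
  rw [coeff_map]
  show ((h.coeff j).map φ).coeff a = 0
  rw [coeff_map, h0, map_zero]

theorem WD.ofpx (hh : WD w m h) : WD w (m - 1) (px h) := by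
  rw [wd_iff] at hh ⊢
  intro j a ha
  unfold px at ha
  rw [coeff_cm (by exact derivative_zero), coeff_derivative] at ha
  have h1 := hh j (a + 1) (left_ne_zero_of_mul ha)
  omega

theorem WD.ofpy (hh : WD w m h) : WD w (m - w) (py h) := by
  rw [wd_iff] at hh ⊢
  intro j a ha
  unfold py at ha
  rw [coeff_derivative] at ha
  have e : h.coeff (j + 1) * ((j : R[X]) + 1) = ((j + 1 : ℕ) : R[X]) * h.coeff (j + 1) := by
    push_cast
    ring
  rw [e, coeff_natCast_mul] at ha
  have h1 := hh (j + 1) a (right_ne_zero_of_mul ha)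
  rw [mul_add, mul_one] at h1
  omega

theorem WD.ofpT {D : R → R} (hD : IsDer D) (hh : WD w m h) : WD w m (pT D h) := by
  rw [wd_iff] at hh ⊢
  intro j a ha
  refine hh j a fun h0 => ha ?_
  unfold pT
  have h1 : cm D (0 : R[X]) = 0 := by
    unfold cm
    rw [sum_zero_index]
  rw [coeff_cm h1, coeff_cm hD.zero, h0, hD.zero]

theorem Wt.map {R' : Type*} [CommRing R'] [Nontrivial R'] (φ : R →+* R') (hF : Wt w n F) :
    Wt w n (mp φ F) := by
  refine ⟨hF.monic.map _, ?_, hF.wd.map φ⟩
  have h1 : (F.map (mapRingHom φ)).natDegree = F.natDegree := hF.monic.natDegree_map _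
  exact h1.trans hF.deg

theorem WD.mod (hF : Wt w n F) (hh : WD w m h) : WD w m (h %ₘ F) := by
  rcases subsingleton_or_nontrivial R with hR | hR
  · have h0 : h %ₘ F = 0 := Subsingleton.elim _ _
    rw [h0]
    exact WD.zero
  revert hh
  refine degree_lt_wf.induction (C := fun h : R[X][X] => WD w m h → WD w m (h %ₘ F)) h ?_
  intro h ih hh
  by_cases hd : degree F ≤ degree h ∧ h ≠ 0
  · have h1 := div_wf_lemma hd hF.monic
    have h2 : h %ₘ F = (h - F * (C h.leadingCoeff * X ^ (h.natDegree - F.natDegree))) %ₘ F := by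
      rw [sub_modByMonic, self_mul_modByMonic hF.monic, sub_zero]
    rw [h2]
    refine ih _ ?_ ?_
    · rw [mul_comm F]
      rw [mul_comm F] at h1
      exact h1
    · refine hh.sub ?_
      have h3 := hh h.natDegree (by
        rw [coeff_natDegree]
        exact leadingCoeff_ne_zero.2 hd.2)
      rw [coeff_natDegree] at h3
      have h4 : n ≤ h.natDegree := by
        rw [← hF.deg]
        exact natDegree_le_natDegree hd.1
      have h5 := hF.wd.mul ((WD.ofC (w := w) (le_refl h.leadingCoeff.natDegree)).mul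
        (WD.ofX_pow (R := R) (w := w) (h.natDegree - F.natDegree)))
      refine h5.mono ?_
      rw [hF.deg]
      obtain ⟨d, hd'⟩ := Nat.exists_eq_add_of_le h4
      rw [hd'] at h3 ⊢
      rw [Nat.add_sub_cancel_left]
      rw [mul_add] at h3
      omega
  · by_cases h0 : h = 0
    · rw [h0, zero_modByMonic]
      exact WD.zero
    · have h1 : h %ₘ F = h := (modByMonic_eq_self_iff hF.monic).2 (by
        rw [← not_le]
        exact fun h2 => hd ⟨h2, h0⟩)
      rw [h1]
      exact hh

private theorem wd_coeff_bb (i l : ℕ) : (bb F i).coeff l = F.coeff (l + i + 1) := by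
  unfold bb
  induction i generalizing F with
  | zero =>
    rw [Function.iterate_succ, Function.iterate_zero, Function.comp]
    exact coeff_divX
  | succ i ih =>
    rw [Function.iterate_succ, Function.comp, ih, coeff_divX]
    congr 1

theorem WD.ofbb (hF : Wt w n F) (i : ℕ) (hi : i < n) : WD w (w * (n - 1 - i)) (bb F i) := by
  have hw := hF.wd
  rw [wd_iff] at hw ⊢
  intro j a ha
  rw [wd_coeff_bb] at ha
  have h1 := hw _ _ ha
  obtain ⟨d, rfl⟩ := Nat.exists_eq_add_of_lt hi
  have e : i + d + 1 - 1 - i = d := by omega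
  rw [e]
  have e1 : w * (j + i + 1) = w * j + w * (i + 1) := by ring
  have e2 : w * (i + d + 1) = w * d + w * (i + 1) := by ring
  rw [e1, e2] at h1
  omega

/-- Euler's relation. -/
theorem wt_euler (hF : Wt w n F) :
    WD w (w * n - 1) (C X * px F + (w : R[X][X]) * X * py F -
      ((w * n : ℕ) : R[X][X]) * F) := by
  have hw := hF.wd
  rw [wd_iff] at hw ⊢
  intro j a ha
  have c1 : ((C X * px F).coeff j).coeff a = (a : R) * (F.coeff j).coeff a := by
    unfold px
    rw [coeff_C_mul, coeff_cm (by exact derivative_zero)]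
    cases a with
    | zero => rw [coeff_X_mul_zero, Nat.cast_zero, zero_mul]
    | succ a =>
      rw [coeff_X_mul, coeff_derivative]
      push_cast
      ring
  have c2 : (((w : R[X][X]) * X * py F).coeff j).coeff a =
      ((w * j : ℕ) : R) * (F.coeff j).coeff a := by
    unfold py
    rw [mul_assoc, coeff_natCast_mul]
    cases j with
    | zero =>
      rw [coeff_X_mul_zero, mul_zero, mul_zero, coeff_zero, Nat.cast_zero, zero_mul]
    | succ j =>
      rw [coeff_X_mul, coeff_derivative]
      have e : (w : R[X]) * (F.coeff (j + 1) * ((j : R[X]) + 1)) =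
          ((w * (j + 1) : ℕ) : R[X]) * F.coeff (j + 1) := by
        push_cast
        ring
      rw [e, coeff_natCast_mul]
  have c3 : ((((w * n : ℕ) : R[X][X]) * F).coeff j).coeff a =
      ((w * n : ℕ) : R) * (F.coeff j).coeff a := by
    have e : ((w * n : ℕ) : R[X][X]) * F = ((w * n : ℕ) : R[X][X]) * F := rfl
    rw [coeff_natCast_mul, coeff_natCast_mul]
  rw [coeff_sub, coeff_add, coeff_sub, coeff_add, c1, c2, c3] at ha
  have h0 : (F.coeff j).coeff a ≠ 0 := by
    intro h0
    rw [h0, mul_zero, mul_zero, mul_zero, add_zero, sub_zero] at ha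
    exact ha rfl
  have h1 := hw j a h0
  have h2 : a + w * j ≠ w * n := by
    intro h2
    apply ha
    rw [← add_mul, ← sub_mul, ← Nat.cast_add, h2, sub_self, zero_mul]
  omega

end MPadcLF
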