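import Pool.Agent.Lib.MP_adc574_ag_LF.PLfin
import Pool.Agent.Lib.MP_adc574_ag_LF.Wd

/-!
# JOB PLinf: the chart at infinity

Paper 2.2. For `h` with `WD w m h` let `ch m h = u ^ m h (1 / u, z / u ^ w)`, a polynomial in `u` (inner) and
`z` (outer): its coefficient of `z ^ j` is `(h.coeff j).reflect (m - w j)` (`Polynomial.reflect`; the
coefficient of `u ^ a` is the coefficient of `x ^ (m - w j - a)`). Let `F∞ = ch (w n) F`: monic of degree `n`
in `z`; its value at `u = 0` is `topp w n F`, and `(px F∞)` at `u = 0` is `subb w n F` (coefficients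
`w (n - j) - 1`). Formulas (check on monomials, all `WD`-degrees as indicated):
* `ch (m + m') (h h') = ch m h * ch m' h'`;
* `ch (m - w) (py h) = py (ch m h)`, i.e. `(h_Y)∞ = ∂_z (h∞)`;
* `u ∂_u (ch m h) = m ch m h - ch m (x h_x) - w z ∂_z (ch m h)`.
With these: let `dN F N g = x br F g - N g F_Y = k + e F`, `WD (w (n - 1) + N - 1) k`. Choose `s` large with
`WD w (N + s) g`, and put `b = ch (N + s) g` (so `b / u ^ s` is `g / x ^ N`). Then
`u br F∞ b - s b ∂_z F∞ = - ch (w (n - 1) + N + s) (dN F N g) + (multiple of F∞)`: indeed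
`u (b_u F∞_z - b_z F∞_u) = F∞_z ((N + s) b - ch (x g_x) - w z b_z) - b_z (w n F∞ - ch (x F_x) - w z F∞_z)`.
The right side, modulo `F∞`, is `- ch (w (n - 1) + N + s) k = - u ^ (s + 1) ch (w (n - 1) + N - 1) k` (choose `e`
with bounded weight: by uniqueness of remainders `e` has weight `≤ w (n-1) + N + s - w n`, or work
modulo `F∞` after replacing `k` by the remainder of `k`, of the same weight by `WD.mod`). So `pl_fin` with
`q = u ^ s` (multiplied by `u ^ (s - 1)`; for `s = 0` there is nothing to prove) gives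
`b = u ^ s b' + e' F∞`; as `b` has degree `< n` in `z`, taking remainders we may assume that `b'` has degree
`< n` and `b = u ^ s b'`. So all coefficients of `b` are divisible by `u ^ s`, which means `WD w N g`.
-/

set_option autoImplicit false

namespace MPadcLF

open Polynomial MPadcCov

section ch

variable {κ : Type*} [Field κ]

/-- The polynomial `u ^ m h (1 / u, z / u ^ w)`. -/
private noncomputable def pli_ch (w m : ℕ) (h : κ[X][X]) : κ[X][X] :=
  ∑ j ∈ Finset.range (h.natDegree + 1), monomial j ((h.coeff j).reflect (m - w * j))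

private theorem pli_coeff (w m : ℕ) (h : κ[X][X]) (j : ℕ) :
    (pli_ch w m h).coeff j = (h.coeff j).reflect (m - w * j) := by
  rw [pli_ch, finsetSum_coeff]
  simp only [coeff_monomial]
  rw [Finset.sum_ite_eq']
  split_ifs with h1
  · rfl
  · have h2 : h.coeff j = 0 := by
      refine coeff_eq_zero_of_natDegree_lt ?_
      rw [Finset.mem_range] at h1
      omega
    rw [h2, reflect_zero]

private theorem pli_add (w m : ℕ) (g h : κ[X][X]) :
    pli_ch w m (g + h) = pli_ch w m g + pli_ch w m h := by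
  ext1 j
  rw [coeff_add, pli_coeff, pli_coeff, pli_coeff, coeff_add, reflect_add]

private theorem pli_sub (w m : ℕ) (g h : κ[X][X]) :
    pli_ch w m (g - h) = pli_ch w m g - pli_ch w m h := by
  ext1 j
  rw [coeff_sub, pli_coeff, pli_coeff, pli_coeff, coeff_sub, reflect_sub]

private theorem pli_nat (w m N : ℕ) (h : κ[X][X]) :
    pli_ch w m ((N : κ[X][X]) * h) = (N : κ[X][X]) * pli_ch w m h := by
  ext j a
  rw [pli_coeff, coeff_natCast_mul, coeff_natCast_mul, pli_coeff, coeff_reflect,
    coeff_natCast_mul, coeff_natCast_mul, coeff_reflect]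

private theorem pli_reflect_sum {ι : Type*} (s : Finset ι) (f : ι → κ[X]) (N : ℕ) :
    reflect N (∑ i ∈ s, f i) = ∑ i ∈ s, reflect N (f i) := by
  classical
  induction s using Finset.induction_on with
  | empty => rw [Finset.sum_empty, Finset.sum_empty, reflect_zero]
  | insert a s ha ih => rw [Finset.sum_insert ha, Finset.sum_insert ha, reflect_add, ih]

private theorem pli_mul {w m m' : ℕ} {h h' : κ[X][X]} (hh : WD w m h) (hh' : WD w m' h') :
    pli_ch w (m + m') (h * h') = pli_ch w m h * pli_ch w m' h' := by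
  ext1 j
  rw [pli_coeff, coeff_mul, coeff_mul, pli_reflect_sum]
  refine Finset.sum_congr rfl fun x hx => ?_
  rw [pli_coeff, pli_coeff]
  have hx := Finset.HasAntidiagonal.mem_antidiagonal.1 hx
  by_cases h1 : h.coeff x.1 = 0
  · rw [h1, zero_mul, reflect_zero, reflect_zero, zero_mul]
  by_cases h2 : h'.coeff x.2 = 0
  · rw [h2, mul_zero, reflect_zero, reflect_zero, mul_zero]
  have h3 := hh _ h1
  have h4 := hh' _ h2
  have h5 : w * j = w * x.1 + w * x.2 := by rw [← hx, mul_add]
  have h6 : m + m' - w * j = (m - w * x.1) + (m' - w * x.2) := by omega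
  rw [h6]
  exact reflect_mul _ _ (by omega) (by omega)

private theorem pli_one (w m : ℕ) : pli_ch w m (1 : κ[X][X]) = C (X ^ m) := by
  ext1 j
  rw [pli_coeff, coeff_C, coeff_one]
  split_ifs with h1
  · rw [h1, mul_zero, Nat.sub_zero, reflect_one]
  · rw [reflect_zero]

private theorem pli_shift {w m : ℕ} {h : κ[X][X]} (hh : WD w m h) (r : ℕ) :
    pli_ch w (m + r) h = C (X ^ r) * pli_ch w m h := by
  have h1 : WD w r (1 : κ[X][X]) := by
    have h2 := WD.ofNat (R := κ) (w := w) 1
    rw [Nat.cast_one] at h2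
    exact h2.mono (Nat.zero_le _)
  have h3 := pli_mul hh h1
  rw [mul_one, pli_one] at h3
  rw [h3, mul_comm]

private theorem pli_px (h : κ[X][X]) (j : ℕ) : (px h).coeff j = derivative (h.coeff j) := by
  unfold px
  rw [coeff_cm (by exact derivative_zero)]

private theorem pli_XD {R : Type*} [CommRing R] (p : R[X]) (a : ℕ) :
    (X * derivative p).coeff a = (a : R) * p.coeff a := by
  rcases a with _ | a
  · rw [coeff_X_mul_zero, Nat.cast_zero, zero_mul]
  · rw [coeff_X_mul, coeff_derivative, Nat.cast_succ, mul_comm]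

private theorem pli_py (w m : ℕ) (h : κ[X][X]) : pli_ch w (m - w) (py h) = py (pli_ch w m h) := by
  ext1 j
  unfold py
  rw [pli_coeff, coeff_derivative, coeff_derivative, pli_coeff]
  have h1 : m - w - w * j = m - w * (j + 1) := by
    rw [Nat.mul_add, mul_one]
    omega
  have h2 : ((j : κ[X]) + 1) = C ((j : κ) + 1) := by
    rw [map_add, map_natCast, map_one]
  rw [h1, h2, mul_comm (h.coeff (j + 1)) (C ((j : κ) + 1)), reflect_C_mul,
    mul_comm (C ((j : κ) + 1))]

private theorem pli_euler {w m : ℕ} {h : κ[X][X]} (hh : WD w m h) :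
    C X * px (pli_ch w m h) = (m : κ[X][X]) * pli_ch w m h - pli_ch w m (C X * px h) -
      (w : κ[X][X]) * (X * py (pli_ch w m h)) := by
  ext j a
  unfold py
  simp only [coeff_sub, coeff_natCast_mul, coeff_C_mul, pli_px, pli_XD, pli_coeff, coeff_reflect]
  by_cases hc : (h.coeff j).coeff (revAt (m - w * j) a) = 0
  · rw [hc]
    ring
  · have h1 : h.coeff j ≠ 0 := by
      intro h0
      rw [h0, coeff_zero] at hc
      exact hc rfl
    have h2 := hh j h1
    have h3 : revAt (m - w * j) a ≤ (h.coeff j).natDegree := le_natDegree_of_ne_zero hc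
    have h4 : a ≤ m - w * j := by
      by_contra h5
      rw [revAt_eq_self_of_lt (by omega)] at h3
      omega
    rw [revAt_le h4]
    have h6 : (a : κ) + ((m - w * j - a : ℕ) : κ) + (w : κ) * (j : κ) = (m : κ) := by
      have h7 : a + (m - w * j - a) + w * j = m := by omega
      have h8 := congrArg (Nat.cast : ℕ → κ) h7
      rw [Nat.cast_add, Nat.cast_add, Nat.cast_mul] at h8
      exact h8
    linear_combination (h.coeff j).coeff (m - w * j - a) * h6

private theorem pli_monic {w n : ℕ} {F : κ[X][X]} (hF : Wt w n F) :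
    (pli_ch w (w * n) F).Monic ∧ (pli_ch w (w * n) F).natDegree = n := by
  have h1 : (pli_ch w (w * n) F).natDegree ≤ n := by
    refine natDegree_le_iff_coeff_eq_zero.2 fun j hj => ?_
    rw [pli_coeff, coeff_eq_zero_of_natDegree_lt (by rw [hF.deg]; exact hj), reflect_zero]
  have h2 : (pli_ch w (w * n) F).coeff n = 1 := by
    have h3 : F.coeff n = 1 := by
      have h4 := hF.monic.coeff_natDegree
      rw [hF.deg] at h4
      exact h4
    rw [pli_coeff, h3, Nat.sub_self, reflect_one, pow_zero]
  refine ⟨monic_of_natDegree_le_of_coeff_eq_one n h1 h2, ?_⟩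
  refine natDegree_eq_of_le_of_coeff_ne_zero h1 ?_
  rw [h2]
  exact one_ne_zero

private theorem pli_e2 (z : κ) (h : κ[X][X]) :
    e2 0 z h = (h.map (evalRingHom 0)).eval z := by
  have h1 : e2 0 z = (evalRingHom z).comp (mapRingHom (evalRingHom (0 : κ))) := by
    refine Polynomial.ringHom_ext (fun p => ?_) ?_
    · simp [e2]
    · simp [e2]
  rw [h1]
  rfl

private theorem pli_top {w n : ℕ} {F : κ[X][X]} (hF : Wt w n F) :
    (pli_ch w (w * n) F).map (evalRingHom 0) = topp w n F := by
  ext j
  rw [coeff_map, pli_coeff, topp, finsetSum_coeff]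
  simp only [coeff_C_mul, coeff_X_pow, mul_ite, mul_one, mul_zero]
  rw [Finset.sum_ite_eq, coe_evalRingHom, ← coeff_zero_eq_eval_zero, coeff_reflect, revAt_zero]
  split_ifs with h1
  · rw [Nat.mul_sub]
  · have h2 : F.coeff j = 0 := by
      refine coeff_eq_zero_of_natDegree_lt ?_
      rw [Finset.mem_range] at h1
      rw [hF.deg]
      omega
    rw [h2, coeff_zero]

private theorem pli_subb {w n : ℕ} (hw : 0 < w) {F : κ[X][X]} (hF : Wt w n F) :
    (px (pli_ch w (w * n) F)).map (evalRingHom 0) = subb w n F := by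
  ext j
  rw [coeff_map, pli_px, pli_coeff, subb, finsetSum_coeff]
  simp only [coeff_C_mul, coeff_X_pow, mul_ite, mul_one, mul_zero]
  rw [Finset.sum_ite_eq, coe_evalRingHom, ← coeff_zero_eq_eval_zero, coeff_derivative,
    coeff_reflect]
  rw [Nat.cast_zero, zero_add, zero_add, mul_one]
  split_ifs with h1
  · rw [Finset.mem_range] at h1
    have h3 : w * j + w ≤ w * n := by
      have h4 : w * (j + 1) ≤ w * n := Nat.mul_le_mul_left w h1
      rw [Nat.mul_add, mul_one] at h4
      exact h4
    rw [revAt_le (by omega), Nat.mul_sub]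
  · rw [Finset.mem_range, not_lt] at h1
    rcases h1.lt_or_eq with h2 | h2
    · have h0 : F.coeff j = 0 := coeff_eq_zero_of_natDegree_lt (by rw [hF.deg]; exact h2)
      rw [h0, coeff_zero]
    · have h3 : F.coeff j = 1 := by
        have h4 := hF.monic.coeff_natDegree
        rw [hF.deg, h2] at h4
        exact h4
      rw [h3, h2, Nat.sub_self, revAt_eq_self_of_lt (by omega), coeff_one, if_neg (by omega)]

private theorem pli_exists (w : ℕ) (h : κ[X][X]) (m : ℕ) : ∃ E, m ≤ E ∧ WD w E h := by
  refine ⟨m + ∑ j ∈ Finset.range (h.natDegree + 1), ((h.coeff j).natDegree + w * j), by omega, ?_⟩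
  intro j hj
  have h1 : j ∈ Finset.range (h.natDegree + 1) := by
    rw [Finset.mem_range]
    have := le_natDegree_of_ne_zero hj
    omega
  have h2 := Finset.single_le_sum (f := fun j => (h.coeff j).natDegree + w * j)
    (fun i _ => Nat.zero_le _) h1
  exact h2.trans (Nat.le_add_left _ _)

private theorem pli_cancel {F : κ[X][X]} (hF : F.Monic) {q : κ[X]} (hq : q ≠ 0) {z e : κ[X][X]}
    (h : C q * z = e * F) : ∃ e', z = e' * F := by
  rw [← mod_eq_zero_iff hF]
  have h1 := mod_mul_self hF e
  rw [← h, mod_C_mul hF] at h1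
  rcases mul_eq_zero.1 h1 with h2 | h2
  · exact absurd (C_eq_zero.1 h2) hq
  · exact h2

/-- The case of degree one and `N = 0`. -/
private theorem pli_small [CharZero κ] {w : ℕ} (hw : 0 < w) {F : κ[X][X]} (hF : Wt w 1 F)
    {g k e : κ[X][X]} (hg : g.natDegree < 1) (h : dN F 0 g = k + e * F) (hk : WD w 0 k) :
    WD w 0 g := by
  have hg0 : g = C (g.coeff 0) := eq_C_of_natDegree_eq_zero (by omega)
  have hF1 : F = X + C (F.coeff 0) := hF.monic.eq_X_add_C hF.deg
  have hk0 : k.natDegree = 0 := by
    by_contra h0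
    have h1 : k.coeff k.natDegree ≠ 0 := by
      rw [coeff_natDegree, leadingCoeff_ne_zero]
      rintro rfl
      exact h0 natDegree_zero
    have h2 := hk _ h1
    have h3 : 0 < w * k.natDegree := Nat.mul_pos hw (Nat.pos_of_ne_zero h0)
    omega
  have hd : dN F 0 g = C (X * derivative (g.coeff 0)) := by
    have h1 : py F = 1 := by
      rw [hF1, py, derivative_add, derivative_X, derivative_C, add_zero]
    have h2 : py g = 0 := by rw [hg0, py_C]
    have h3 : px g = C (derivative (g.coeff 0)) := by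
      conv_lhs => rw [hg0]
      rw [px_C]
    rw [dN, br, h1, h2, h3, Nat.cast_zero, C_mul]
    ring
  have h4 : C (X * derivative (g.coeff 0)) - k = e * F := by
    rw [← hd, h]
    ring
  have h5 : (C (X * derivative (g.coeff 0)) - k).natDegree < 1 := by
    refine (natDegree_sub_le _ _).trans_lt ?_
    rw [natDegree_C, hk0]
    exact Nat.one_pos
  have h6 : C (X * derivative (g.coeff 0)) - k = 0 := by
    rw [← mod_eq_self hF.monic hF.deg h5, h4, mod_mul_self hF.monic]
  have h7 : X * derivative (g.coeff 0) = k.coeff 0 := by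
    have h8 := congrArg (fun p : κ[X][X] => p.coeff 0) h6
    simp only [coeff_sub, coeff_C_zero, coeff_zero] at h8
    exact sub_eq_zero.1 h8
  have h8 : (k.coeff 0).natDegree = 0 := by
    by_cases h0 : k.coeff 0 = 0
    · rw [h0, natDegree_zero]
    · have := hk 0 h0
      omega
  have h9 : k.coeff 0 = 0 := by
    have h10 := eq_C_of_natDegree_eq_zero h8
    have h11 : (k.coeff 0).coeff 0 = 0 := by
      rw [← h7, coeff_X_mul_zero]
    rw [h10, h11, C_0]
  have h12 : derivative (g.coeff 0) = 0 := by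
    rw [h9] at h7
    exact (mul_eq_zero.1 h7).resolve_left X_ne_zero
  have h13 := derivative_eq_zero.1 h12
  intro j hj
  have h14 : j ≤ g.natDegree := le_natDegree_of_ne_zero hj
  have h15 : j = 0 := by omega
  rw [h15, h13, mul_zero]
  exact Nat.le_refl 0

end ch

theorem pl_inf {κ : Type*} [Field κ] [CharZero κ] [IsAlgClosed κ] {w n : ℕ} (hw : 0 < w)
    (hn : 0 < n) (F : κ[X][X]) (hF : Wt w n F)
    (hs : ∀ z, (topp w n F).eval z = 0 → (subb w n F).eval z ≠ 0 ∨
      (derivative (topp w n F)).eval z ≠ 0) : PLinf w n F := by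
  intro N g k e hg h hk
  by_cases hsmall : w * (n - 1) + N = 0
  · have h1 : N = 0 := by omega
    have h2 : n = 1 := by
      have h3 : w * (n - 1) = 0 := by omega
      rcases Nat.mul_eq_zero.1 h3 with h4 | h4
      · omega
      · omega
    subst h1
    subst h2
    refine pli_small hw hF hg h ?_
    exact hk
  -- the general case
  have hwn : w ≤ w * n := Nat.le_mul_of_pos_right w hn
  have hwn1 : w * (n - 1) = w * n - w := by rw [Nat.mul_sub, mul_one]
  obtain ⟨M, hM1, hM⟩ := pli_exists w g (N + w + 1)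
  obtain ⟨s', rfl⟩ : ∃ s', M = N + (s' + 1) := ⟨M - N - 1, by omega⟩
  obtain ⟨E, hE1, hE⟩ := pli_exists w e (N + (s' + 1) + (w * n - w))
  have hA : WD w (N + (s' + 1)) (C X * px g) := by
    have h1 := WD.mul (WD.ofC (w := w) (m := 1) (q := (X : κ[X])) natDegree_X_le) hM.ofpx
    exact h1.mono (by omega)
  have hB : WD w (w * n) (C X * px F) := by
    have h1 := WD.mul (WD.ofC (w := w) (m := 1) (q := (X : κ[X])) natDegree_X_le) hF.wd.ofpx
    exact h1.mono (by omega)
  have hFy : WD w (w * n - w) (py F) := hF.wd.ofpy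
  have hgy : WD w (N + (s' + 1) - w) (py g) := hM.ofpy
  have hdN : dN F N g = (C X * px g) * py F - py g * (C X * px F) - (N : κ[X][X]) * (g * py F) := by
    rw [dN, br]
    ring
  have hKd : WD w (N + (s' + 1) + (w * n - w)) (dN F N g) := by
    rw [hdN]
    refine WD.sub (WD.sub (hA.mul hFy) ((hgy.mul hB).mono (by omega))) ?_
    have h1 := WD.mul (WD.ofNat (R := κ) (w := w) N) (hM.mul hFy)
    exact h1.mono (by omega)
  set K := N + (s' + 1) + (w * n - w) with hKdef
  set b := pli_ch w (N + (s' + 1)) g with hb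
  set Fi := pli_ch w (w * n) F with hFi
  have hc1 : pli_ch w K ((C X * px g) * py F) =
      pli_ch w (N + (s' + 1)) (C X * px g) * py Fi := by
    rw [hFi, ← pli_py w (w * n) F, ← pli_mul hA hFy]
  have hc2 : pli_ch w K (py g * (C X * px F)) = py b * pli_ch w (w * n) (C X * px F) := by
    rw [hb, ← pli_py w (N + (s' + 1)) g, ← pli_mul hgy hB]
    have h1 : N + (s' + 1) - w + w * n = K := by omega
    rw [h1]
  have hc3 : pli_ch w K (g * py F) = b * py Fi := by
    rw [hFi, ← pli_py w (w * n) F, hb, ← pli_mul hM hFy]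
  have hcd : pli_ch w K (dN F N g) = pli_ch w (N + (s' + 1)) (C X * px g) * py Fi -
      py b * pli_ch w (w * n) (C X * px F) - (N : κ[X][X]) * (b * py Fi) := by
    rw [hdN, pli_sub, pli_sub, pli_nat, hc1, hc2, hc3]
  have he1 := pli_euler hM
  have he2 := pli_euler hF.wd
  rw [← hb] at he1
  rw [← hFi] at he2
  have hmain : C X * br Fi b - ((s' + 1 : ℕ) : κ[X][X]) * b * py Fi =
      - pli_ch w K (dN F N g) - ((w * n : ℕ) : κ[X][X]) * py b * Fi := by
    rw [hcd, br]
    have h1 : ((N + (s' + 1) : ℕ) : κ[X][X]) = (N : κ[X][X]) + ((s' + 1 : ℕ) : κ[X][X]) :=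
      Nat.cast_add _ _
    rw [h1] at he1
    linear_combination (py Fi) * he1 - (py b) * he2
  have hFim := pli_monic hF
  rw [← hFi] at hFim
  -- the multiple of `F`
  have hmult : ∃ e1, pli_ch w K (dN F N g) -
      C (X ^ (s' + 1 + 1)) * pli_ch w (w * (n - 1) + N - 1) k = e1 * Fi := by
    obtain ⟨r, hr⟩ : ∃ r, E + w * n = K + r := ⟨E + w * n - K, by omega⟩
    have h1 := pli_shift hKd r
    have h2 : pli_ch w (K + r) (dN F N g) =
        C (X ^ r) * (C (X ^ (s' + 1 + 1)) * pli_ch w (w * (n - 1) + N - 1) k) +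
          pli_ch w E e * Fi := by
      rw [h, pli_add, ← hr, pli_mul hE hF.wd]
      congr 1
      have h3 : E + w * n = (w * (n - 1) + N - 1) + (r + (s' + 1 + 1)) := by
        rw [hr, hKdef, hwn1]
        omega
      rw [h3, pli_shift hk, pow_add, C_mul, mul_assoc]
    refine pli_cancel hFim.1 (q := X ^ r) (pow_ne_zero _ X_ne_zero) (e := pli_ch w E e) ?_
    rw [mul_sub, ← h1, h2]
    ring
  obtain ⟨e1, he1'⟩ := hmult
  have hrel : C (X ^ (s' + 1)) * br Fi b - C (derivative (X ^ (s' + 1) : κ[X])) * py Fi * b =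
      C ((X ^ (s' + 1)) ^ 2) * (- pli_ch w (w * (n - 1) + N - 1) k) +
        (C (X ^ s') * (- e1 - ((w * n : ℕ) : κ[X][X]) * py b)) * Fi := by
    have h1 : C (derivative (X ^ (s' + 1) : κ[X])) = ((s' + 1 : ℕ) : κ[X][X]) * C (X ^ s') := by
      rw [derivative_X_pow, Nat.add_sub_cancel, C_mul, map_natCast, map_natCast]
    have h2 : (C (X ^ (s' + 1)) : κ[X][X]) = C (X ^ s') * C X := by
      rw [pow_succ, C_mul]
    have h3 : (C ((X ^ (s' + 1)) ^ 2) : κ[X][X]) = C (X ^ s') * C (X ^ (s' + 1 + 1)) := by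
      rw [← C_mul, ← pow_mul, ← pow_add]
      congr 2
      ring
    rw [h1, h2, h3]
    linear_combination (C (X ^ s')) * hmain - (C (X ^ s')) * he1'
  obtain ⟨b', e', hfin⟩ := pl_fin hFim.1 (X ^ (s' + 1)) (pow_ne_zero _ X_ne_zero) (by
    intro x₀ y₀ hx hy
    have hx0 : x₀ = 0 := by
      rw [eval_pow, eval_X] at hx
      exact pow_eq_zero_iff (Nat.succ_ne_zero s') |>.1 hx
    subst hx0
    rw [pli_e2, hFi, pli_top hF] at hy
    rcases hs y₀ hy with h1 | h1
    · left
      rw [pli_e2, hFi, pli_subb hw hF]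
      exact h1
    · right
      rw [pli_e2, hFi, py, ← derivative_map, pli_top hF]
      exact h1) b _ _ hrel
  -- conclusion
  have hbd : b.natDegree < n := by
    refine lt_of_le_of_lt ?_ hg
    refine natDegree_le_iff_coeff_eq_zero.2 fun j hj => ?_
    rw [hb, pli_coeff, coeff_eq_zero_of_natDegree_lt hj, reflect_zero]
  have hb2 : b = C (X ^ (s' + 1)) * (b' %ₘ Fi) := by
    have h1 := mod_eq_self hFim.1 hFim.2 hbd
    rw [← h1, hfin, mod_add hFim.1, mod_C_mul hFim.1, mod_mul_self hFim.1, add_zero]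
  intro j hj
  have h1 := hM j hj
  by_contra hcon
  have h2 : (b.coeff j).coeff (N + (s' + 1) - w * j - (g.coeff j).natDegree) = 0 := by
    rw [hb2, coeff_C_mul, coeff_X_pow_mul', if_neg (by omega)]
  rw [hb, pli_coeff, coeff_reflect, revAt_le (by omega)] at h2
  have h3 : N + (s' + 1) - w * j - (N + (s' + 1) - w * j - (g.coeff j).natDegree) =
      (g.coeff j).natDegree := by omega
  rw [h3, coeff_natDegree, leadingCoeff_eq_zero] at h2
  exact hj h2

end MPadcLF
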