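import Pool.Agent.Lib.MP_adc574_ag_LF.PenN

/-!
# Pencils have no constant part
-/

set_option autoImplicit false

namespace MPadcLF

open Polynomial MPadcCov

private theorem PencilHN_one {k : Type*} [Field k] (q : k[X]) (hq : q.natDegree ≤ 1) :
    q = C (q.eval 0) + X * C (q.eval 1 - q.eval 0) := by
  have h := eq_X_add_C_of_natDegree_le_one hq
  have h0 : q.eval 0 = q.coeff 0 := (coeff_zero_eq_eval_zero q).symm
  have h1 : q.eval 1 = q.coeff 1 + q.coeff 0 := by
    conv_lhs => rw [h]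
    simp
  rw [h0, h1, add_sub_cancel_right]
  conv_lhs => rw [h]
  ring

/-- The decomposition of a pencil. -/
private theorem PencilHN_dec {k : Type*} [Field k] {κ : Type*} [Field κ] [Algebra k[X] κ]
    (F : k[X][X][X]) (hpen : ∀ i j, ((F.coeff i).coeff j).natDegree ≤ 1) :
    mp (algebraMap k[X] κ) F = mp ((algebraMap k[X] κ).comp C) (mp (evalRingHom 0) F) +
      cc (algebraMap k[X] κ X) * mp ((algebraMap k[X] κ).comp C)
        (mp (evalRingHom 1) F - mp (evalRingHom 0) F) := by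
  ext i j
  have h := congrArg (algebraMap k[X] κ) (PencilHN_one _ (hpen i j))
  rw [map_add, map_mul] at h
  simp only [cc, coeff_add, coeff_C_mul]
  simp only [mp, coe_mapRingHom, coeff_map, coeff_sub, RingHom.comp_apply, coe_evalRingHom]
  exact h

/-- Paper 6.2. -/
theorem pencil_hN' {k₁ : Type*} [Field k₁] [IsAlgClosed k₁] [CharZero k₁] {κ : Type*} [Field κ]
    [Algebra k₁[X] κ] [IsFractionRing k₁[X] κ] {δ : κ → κ}
    (hδ' : ∀ r : k₁[X], δ (algebraMap k₁[X] κ r) = algebraMap k₁[X] κ (derivative r)) {w n : ℕ}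
    {F : k₁[X][X][X]} (hpen : ∀ i j, ((F.coeff i).coeff j).natDegree ≤ 1)
    (hne : ∃ i j, ((F.coeff i).coeff j).coeff 1 ≠ 0)
    {E : Type*} [Field E] [Algebra (RatFunc κ) E] {y : E}
    {e : Module.Basis (Fin n) (RatFunc κ) E} {dK DK : RatFunc κ → RatFunc κ}
    {d D : Derivation ℤ E E} (H : KD w n (mp (algebraMap k₁[X] κ) F) y e δ dK DK d D)
    (hs : Sm (mp (algebraMap k₁[X] κ) F) 1) (φ b : E)
    (h1 : InB e (φ * ev y (py (mp (algebraMap k₁[X] κ) F))))
    (h2 : BDeg e (aa w n) (-2) (φ - d b)) (h3 : ∃ z, D φ = d z) : ∃ z, φ = d z := by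
  rw [PencilHN_dec F hpen] at H hs h1
  refine pencil_hN hδ' _ _ ?_ H hs φ b h1 h2 h3
  obtain ⟨i, j, hij⟩ := hne
  intro h
  have h4 := congrArg (fun P => (P.coeff i).coeff j) h
  simp only [mp, coe_mapRingHom, coeff_map, coeff_sub, coe_evalRingHom, coeff_zero] at h4
  apply hij
  have h5 := congrArg (fun q => q.coeff 1) (PencilHN_one _ (hpen i j))
  rw [h4, C_0, mul_zero, add_zero, coeff_C, if_neg one_ne_zero] at h5
  exact h5

end MPadcLF
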