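import Pool.Agent.Lib.MP_adc574_ag_LF.Face
import Pool.Agent.Lib.MP_adc574_ag_LF.Hloc
import Pool.Agent.Lib.MP_adc574_ag_LF.PLinf
import Pool.Agent.Lib.MP_adc574_ag_LF.NoHor
import Pool.Agent.Lib.MP_adc574_ag_LF.GmDom
import Pool.Agent.Lib.MP_adc574_ag_LF.PencilHN
import Pool.Agent.Lib.MP_adc574_ag_LP.Core

/-!
# The results over a field, transported to the ring of definition
-/

set_option autoImplicit false

namespace MPadcLF

open Polynomial MPadcCov

universe u

theorem bridge_J0 {R S : Type*} [CommRing R] [CommRing S] (φ : R →+* S) (γ : Type)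
    [DecidableEq γ] : (J0 R γ).map φ = J0 S γ := by
  ext i j
  rcases i with i | i <;> rcases j with j | j
  · simp [J0]
  · by_cases h : i = j
    · simp [J0, h]
    · simp [J0, h]
  · by_cases h : i = j
    · simp [J0, h]
    · simp [J0, h]
  · simp [J0]

theorem sm_one {κ : Type*} [Field κ] {F : κ[X][X]} {c : κ} (h : Sm F c) (hc : c ≠ 0) :
    Sm F 1 := by
  obtain ⟨u, v, z, h⟩ := h
  refine ⟨cc c⁻¹ * u, cc c⁻¹ * v, cc c⁻¹ * z, ?_⟩
  rw [mul_assoc, mul_assoc, mul_assoc, ← mul_add, ← mul_add, h]
  simp only [cc]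
  rw [← C_mul, ← C_mul, inv_mul_cancel₀ hc]

theorem tp_one {κ : Type*} [Field κ] {w n : ℕ} {F : κ[X][X]} {c : κ}
    (h : Tp w n F c) (hc : c ≠ 0) : Tp w n F 1 := by
  obtain ⟨u, v, h⟩ := h
  refine ⟨C c⁻¹ * u, C c⁻¹ * v, ?_⟩
  rw [mul_assoc, mul_assoc, ← mul_add, h, ← C_mul, inv_mul_cancel₀ hc]

theorem flat_map {R S : Type*} [CommRing R] [CommRing S] (φ : R →+* S) {γ : Type} [Fintype γ]
    [DecidableEq γ] {G : Matrix (γ ⊕ γ) (γ ⊕ γ) R}
    (h : G.transpose * J0 R γ + J0 R γ * G = 0) :
    (G.map φ).transpose * J0 S γ + J0 S γ * G.map φ = 0 := by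
  have h4 := congrArg (fun M : Matrix (γ ⊕ γ) (γ ⊕ γ) R => M.map φ) h
  rw [Matrix.map_add _ (map_add _), Matrix.map_mul, Matrix.map_mul, bridge_J0,
    Matrix.transpose_map, Matrix.map_zero _ (map_zero _)] at h4
  exact h4

theorem flat_of_map {R S : Type*} [CommRing R] [CommRing S] (φ : R →+* S)
    (hφ : Function.Injective φ) {γ : Type} [Fintype γ] [DecidableEq γ]
    {G : Matrix (γ ⊕ γ) (γ ⊕ γ) R}
    (h : (G.map φ).transpose * J0 S γ + J0 S γ * G.map φ = 0) :
    G.transpose * J0 R γ + J0 R γ * G = 0 := by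
  apply Matrix.map_injective hφ
  change (G.transpose * J0 R γ + J0 R γ * G).map φ =
    (0 : Matrix (γ ⊕ γ) (γ ⊕ γ) R).map φ
  rw [Matrix.map_zero _ (map_zero _), ← h, Matrix.map_add _ (map_add _), Matrix.map_mul,
    Matrix.map_mul, bridge_J0, Matrix.transpose_map]

private theorem Bridge_leib {K : Type*} [CommRing K] (D : MPadcLP.Der K) (x y : K) :
    D (x * y) = x * D y + y * D x := D.leibniz x y

private theorem Bridge_add {K : Type*} [CommRing K] (D : MPadcLP.Der K) (x y : K) :
    D (x + y) = D x + D y := map_add D x y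

/-- The derivation `d / dT` of the field of fractions of `R[T]`. -/
theorem exists_ddT (R : Type*) [CommRing R] [IsDomain R] (κ : Type*) [Field κ] [Algebra R[X] κ]
    [IsFractionRing R[X] κ] : ∃ δ : κ → κ, IsDer δ ∧
      ∀ r : R[X], δ (algebraMap R[X] κ r) = algebraMap R[X] κ (derivative r) := by
  obtain ⟨D', hD'⟩ := MPadcLP.exists_derivation_fraction (R := R[X]) (K := κ)
    (MPadcLP.Core.derX R)
  exact ⟨fun x => D' x, ⟨Bridge_add D', Bridge_leib D'⟩, fun r => by
    change D' (algebraMap R[X] κ r) = _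
    rw [hD', MPadcLP.Core.derX_apply]⟩

section char0

variable {A : Type u} [CommRing A] [IsDomain A] [CharZero A] {w n : ℕ} (hn : 0 < n) (hw : 0 < w)
  {F : A[X][X][X]} (hF : Wt w n F) {η : IX w n → A[X][X][X]} (hB : HB w n F η)
  {c₀ c₁ : A[X]} (hc₀ : c₀ ≠ 0) (hc₁ : c₁ ≠ 0) (hS : Sm F c₀) (hT : Tp w n F c₁)
  (hirr : ∀ (κ : Type u) [Field κ] (ψ : A[X] →+* κ), Function.Injective ψ →
    Irreducible ((mp ψ F).map (algebraMap κ[X] (RatFunc κ))))

include hn hw hF hB hc₀ hc₁ hS hT hirr in
/-- Existence and flatness of the connection matrix. -/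
theorem exists_GM : ∃ (Δ : A[X]) (G : Matrix (IX w n) (IX w n) A[X]), Δ ≠ 0 ∧
    IsGM (fun q : A[X] => derivative q) Δ F η G ∧
    G.transpose * J0 A[X] (Gx w n) + J0 A[X] (Gx w n) * G = 0 := by
  have hinj : Function.Injective (algebraMap A[X] (FractionRing A[X])) :=
    IsFractionRing.injective _ _
  have hch : CharZero (FractionRing A[X]) := charZero_of_injective_algebraMap hinj
  obtain ⟨δ, hδ, hδ'⟩ := exists_ddT A (FractionRing A[X])
  have hF' := hF.map (algebraMap A[X] (FractionRing A[X]))
  have hirr' := hirr _ _ hinj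
  have hS' := sm_one (Sm.map (algebraMap A[X] (FractionRing A[X])) hS)
    ((map_ne_zero_iff _ hinj).2 hc₀)
  have hT' := tp_one (Tp.map (algebraMap A[X] (FractionRing A[X])) hT)
    ((map_ne_zero_iff _ hinj).2 hc₁)
  have hB' := HB.map (algebraMap A[X] (FractionRing A[X])) hF.monic hB
  obtain ⟨G, hG⟩ := exists_gm_field' hn hw hF' hirr' hS' hT' δ hδ hB'
  obtain ⟨Δ, G', hΔ, hG'⟩ := exists_gm_dom (D := fun q : A[X] => derivative q)
    (isDer_derivative A) δ hδ hδ' G hG
  refine ⟨Δ, G', hΔ, hG', ?_⟩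
  have hG'' := IsGM.map (algebraMap A[X] (FractionRing A[X])) (isDer_derivative A) hδ
    (fun r => (hδ' r).symm) hG'
  exact flat_of_map _ hinj (flat_field hn hw hF' hirr' hS' hT' δ hδ hB' hG'')

variable {Δ : A[X]} (hΔ : Δ ≠ 0) {G : Matrix (IX w n) (IX w n) A[X]}
  (hG : IsGM (fun q : A[X] => derivative q) Δ F η G)

/-- The specialization `T ↦ a`. -/
noncomputable abbrev spe (A : Type u) [CommRing A] [IsDomain A]
    (a : AlgebraicClosure (FractionRing A)) : A[X] →+* AlgebraicClosure (FractionRing A) :=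
  eval₂RingHom ((algebraMap (FractionRing A) (AlgebraicClosure (FractionRing A))).comp
    (algebraMap A (FractionRing A))) a

private theorem Bridge_mp {R S T : Type*} [CommRing R] [CommRing S] [CommRing T] (φ : R →+* S)
    (ψ : S →+* T) (F : R[X][X]) : mp ψ (mp φ F) = mp (ψ.comp φ) F := by
  simp only [mp, coe_mapRingHom]
  rw [Polynomial.map_map, mapRingHom_comp]

omit [CharZero A] in
private theorem Bridge_spe (a : AlgebraicClosure (FractionRing A)) :
    ((aeval a : (FractionRing A)[X] →ₐ[FractionRing A] _).toRingHom).comp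
      (mapRingHom (algebraMap A (FractionRing A))) = spe A a := by
  apply Polynomial.ringHom_ext
  · intro x
    simp [spe]
  · simp [spe]

include hn hw hF hB hc₀ hS hΔ hG in
/-- The residues have rank at most one. -/
theorem hloc_of (a : AlgebraicClosure (FractionRing A))
    (ha : Ideal.span {mp (spe A a) F, px (mp (spe A a) F), py (mp (spe A a) F)} = ⊤ ∨
      ∃ x₀ y₀ : AlgebraicClosure (FractionRing A),
        C (X - C x₀) ∈ Ideal.span {mp (spe A a) F, px (mp (spe A a) F), py (mp (spe A a) F)} ∧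
        X - C (C y₀) ∈ Ideal.span {mp (spe A a) F, px (mp (spe A a) F), py (mp (spe A a) F)})
    (hb : ∀ z, (topp w n (mp (spe A a) F)).eval z = 0 →
      (derivative (topp w n (mp (spe A a) F))).eval z = 0 →
        (subb w n (mp (spe A a) F)).eval z ≠ 0) :
    ∃ (Γ : Matrix (IX w n) (IX w n) (PowerSeries (AlgebraicClosure (FractionRing A))))
      (d l : IX w n → AlgebraicClosure (FractionRing A)),
      (∀ i j, MPadcLP.pl (FractionRing A) a (Δ.map (algebraMap A (FractionRing A))) * Γ i j =
        PowerSeries.X *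
          MPadcLP.pl (FractionRing A) a ((G i j).map (algebraMap A (FractionRing A)))) ∧
      ∀ i j, PowerSeries.constantCoeff (Γ i j) = d i * l j := by
  have hinj : Function.Injective (algebraMap A (FractionRing A)) := IsFractionRing.injective _ _
  have hch : CharZero (FractionRing A) := charZero_of_injective_algebraMap hinj
  have hinjX : Function.Injective (mapRingHom (algebraMap A (FractionRing A))) :=
    Polynomial.map_injective _ hinj
  have hcomm : ∀ q : A[X], mapRingHom (algebraMap A (FractionRing A)) (derivative q) =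
      derivative (mapRingHom (algebraMap A (FractionRing A)) q) := fun q => by
    rw [coe_mapRingHom, derivative_map]
  have hmp : mp (aeval a : (FractionRing A)[X] →ₐ[FractionRing A]
      AlgebraicClosure (FractionRing A)).toRingHom
      (mp (mapRingHom (algebraMap A (FractionRing A))) F) = mp (spe A a) F := by
    rw [Bridge_mp, Bridge_spe]
  have hchb : CharZero (AlgebraicClosure (FractionRing A)) :=
    charZero_of_injective_algebraMap (algebraMap (FractionRing A) _).injective
  have hG' := IsGM.map (mapRingHom (algebraMap A (FractionRing A))) (isDer_derivative A)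
    (isDer_derivative (FractionRing A)) hcomm hG
  refine hloc (k := FractionRing A) hw hn
    (hF.map (mapRingHom (algebraMap A (FractionRing A))))
    (HB.map (mapRingHom (algebraMap A (FractionRing A))) hF.monic hB) _
    (by exact (map_ne_zero_iff _ hinjX).2 hΔ) _ hG'
    (mapRingHom (algebraMap A (FractionRing A)) c₀) ((map_ne_zero_iff _ hinjX).2 hc₀)
    (Sm.map (mapRingHom (algebraMap A (FractionRing A))) hS) a ?_ ?_
  · rw [hmp]
    apply pl_inf hw hn _ (hF.map (spe A a))
    intro z hz
    by_cases h : (derivative (topp w n (mp (spe A a) F))).eval z = 0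
    · exact Or.inl (hb z hz h)
    · exact Or.inr h
  · rw [hmp]
    rcases ha with ha | ha
    · left
      rw [jac, ha]
      exact Submodule.mem_top
    · exact Or.inr ha

include hn hw hF hB hc₀ hc₁ hS hT hirr hΔ hG in
/-- No horizontal vectors for pencils. -/
theorem no_horizontal (hpen : ∀ i j, ((F.coeff i).coeff j).natDegree ≤ 1)
    (hne : ∃ i j, ((F.coeff i).coeff j).coeff 1 ≠ 0) (v : IX w n → A[X])
    (hv : ∀ i, Δ * derivative (v i) + G.mulVec v i = 0) : v = 0 := by
  -- the algebraic closure `k₁` of the field of fractions and `κ = k₁(T)`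
  let k₁ := AlgebraicClosure (FractionRing A)
  let j : A →+* k₁ := (algebraMap (FractionRing A) k₁).comp (algebraMap A (FractionRing A))
  have hj : Function.Injective j := (algebraMap (FractionRing A) k₁).injective.comp
    (IsFractionRing.injective A (FractionRing A))
  have hch : CharZero k₁ := charZero_of_injective_ringHom hj
  let κ := FractionRing k₁[X]
  have hinjκ : Function.Injective (algebraMap k₁[X] κ) := IsFractionRing.injective _ _
  have hchκ : CharZero κ := charZero_of_injective_algebraMap hinjκ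
  let ψ : A[X] →+* κ := (algebraMap k₁[X] κ).comp (mapRingHom j)
  have hjX : Function.Injective (mapRingHom j) := by
    rw [coe_mapRingHom]
    exact Polynomial.map_injective j hj
  have hψ : Function.Injective ψ := hinjκ.comp hjX
  obtain ⟨δ, hδ, hδ'⟩ := exists_ddT k₁ κ
  have hcomm : ∀ q : A[X], ψ (derivative q) = δ (ψ q) := by
    intro q
    change algebraMap k₁[X] κ ((derivative q).map j) = δ (algebraMap k₁[X] κ (q.map j))
    rw [hδ', derivative_map]
  have hF' := hF.map ψ
  have hS' := sm_one (Sm.map ψ hS) ((map_ne_zero_iff _ hψ).2 hc₀)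
  have hT' := tp_one (Tp.map ψ hT) ((map_ne_zero_iff _ hψ).2 hc₁)
  have hB' := HB.map ψ hF.monic hB
  have hG' := IsGM.map ψ (isDer_derivative A) hδ hcomm hG
  obtain ⟨E, _, _, y, e, dK, d, H, -⟩ := exists_KL hn hw _ hF' (hirr κ ψ hψ) hT'
  obtain ⟨DK, D, HD⟩ := H.exists_KD δ hδ
  have hmp : mp ψ F = mp (algebraMap k₁[X] κ) (mp (mapRingHom j) F) := by
    rw [Bridge_mp]
  have hpen' : ∀ i l, (((mp (mapRingHom j) F).coeff i).coeff l).natDegree ≤ 1 := by
    intro i l
    simp only [mp, coe_mapRingHom, coeff_map]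
    exact natDegree_map_le.trans (hpen i l)
  have hne' : ∃ i l, (((mp (mapRingHom j) F).coeff i).coeff l).coeff 1 ≠ 0 := by
    obtain ⟨i, l, h⟩ := hne
    refine ⟨i, l, ?_⟩
    simp only [mp, coe_mapRingHom, coeff_map]
    exact (map_ne_zero_iff j hj).2 h
  have hz := HD.no_horizontal hB' hS' ((map_ne_zero_iff _ hψ).2 hΔ) hG'
    (fun φ b h1 h2 h3 => by
      have HD' := HD
      have hS'' := hS'
      rw [hmp] at HD' h1 hS''
      exact pencil_hN' hδ' hpen' hne' HD' hS'' φ b h1 h2 h3)
    (fun a => ψ (v a)) (fun a => by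
      have h1 := congrArg ψ (hv a)
      rw [map_zero, map_add, map_mul, hcomm] at h1
      rw [← h1]
      congr 1
      simp only [Matrix.mulVec, dotProduct, map_sum, map_mul, Matrix.map_apply])
  ext1 a
  apply hψ
  rw [Pi.zero_apply, map_zero]
  exact congrFun hz a

end char0

end MPadcLF
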