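import Pool.Agent.Lib.MP_adc574_ag_LF.Ssq
import Pool.Agent.Lib.MP_adc574_ag_Cov.Der

/-!
# JOB Cls: closed rational forms in two variables

`E` is the field of fractions of `k[x][Y]` (embedding `ν`), with the partial derivatives `∂₁`, `∂₂`.
The subfield `k(x)`: extend `ν ∘ C : k[X] → E` to `j : RatFunc k →+* E` (`IsFractionRing.lift`), and
`ν' : (RatFunc k)[X] →+* E` (`eval₂RingHom j (ν X)`), injective, with `∂₂ (ν' h) = ν' h'` and
`∂₁ (ν' h) = ν' (cm D h)` where `D` is the derivation of `RatFunc k` (`ext_frac` of Cov/Der, `j (D r) = ∂₁ (j r)`, `∂₂ (j r) = 0`);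
every element of `E` is `ν' A / ν' V`.
* `b = ν' A / ν' V`: by `hermite` over `RatFunc k`: `b = ∂₂ G + ν' N / ν' Q`.
* `∂₂ (a - ∂₁ G) = ∂₁ (ν' N / ν' Q)` (`∂₁ ∂₂ = ∂₂ ∂₁`: both commute on `ν h`, `px`, `py`). Write `a - ∂₁ G = ν' M / ν' H`. By
  `const_residues`: `ν' N / ν' Q = ∑ λ_j ∂₂ w_j / w_j`, `w_j = ν' (W j)`.
* `a' = a - ∂₁ G - ∑ λ_j ∂₁ w_j / w_j` satisfies `∂₂ a' = 0` (`∂₂ (∂₁ w / w) = ∂₁ (∂₂ w / w)`), so `a' ∈ j (RatFunc k)`
  (`a' = ν' M / ν' H` in lowest terms, `M' H = M H'`: then `H ∣ H'`, `H` constant, `M' = 0`, `M` constant: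
  characteristic `0`).
* `a' = j r`, `r = A / V` with `A, V ∈ k[x]`: `hermite` over `k`: `r = G₂' + N₂ / Q₂`, `Q₂` squarefree over the algebraically
  closed `k`: `Q₂ = ∏ (x - c)`, `N₂ / Q₂ = ∑ λ_c / (x - c)` (Lagrange interpolation: `N₂ ≡ λ_c Q₂'` at `c`, or
  `const_residues`-like argument). Add these to the families (`u = ν (C (X - C c))`, `∂₁ u = 1`, `∂₂ u = 0`).
-/

set_option autoImplicit false

namespace MPadcLF

open Polynomial MPadcCov

private theorem cls_div {E : Type*} [Field E] {d : E → E} (h : IsDer d) (a b : E) (hb : b ≠ 0) :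
    d (a / b) = (d a * b - a * d b) / b ^ 2 := by
  have h1 : d a = d (a / b * b) := by rw [div_mul_cancel₀ _ hb]
  rw [h.mul] at h1
  rw [h1]
  field_simp
  ring

private theorem cls_isDer {E : Type*} [Field E] (d : Derivation ℤ E E) : IsDer (fun x => d x) :=
  ⟨fun a b => map_add d a b, fun a b => by
    show d (a * b) = a * d b + b * d a
    rw [d.leibniz, smul_eq_mul, smul_eq_mul]⟩

private theorem cls_anti {k : Type*} [Field k] [CharZero k] (q : k[X]) : ∃ p, derivative p = q := by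
  induction q using Polynomial.induction_on' with
  | add p q hp hq =>
    obtain ⟨a, ha⟩ := hp
    obtain ⟨b, hb⟩ := hq
    exact ⟨a + b, by rw [derivative_add, ha, hb]⟩
  | monomial n a =>
    refine ⟨monomial (n + 1) (a / ((n + 1 : ℕ) : k)), ?_⟩
    rw [derivative_monomial, Nat.add_sub_cancel, div_mul_cancel₀]
    exact_mod_cast Nat.succ_ne_zero n

private theorem cls_rat {k : Type*} [Field k] : ∃ D : RatFunc k → RatFunc k, IsDer D ∧
    ∀ p : k[X], D (pol p) = pol (derivative p) := by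
  have hf : IsDer (fun p : k[X] => derivative p) := isDer_derivative k
  have h0 : (fun p : k[X] => derivative p) 0 = 0 := hf.zero
  obtain ⟨d0, hd0⟩ := ext_frac (R := k[X]) (K := RatFunc k) (Derivation.mk' (AddMonoidHom.toIntLinearMap
    { toFun := fun p : k[X] => derivative p, map_zero' := h0, map_add' := hf.add }) (fun a b => by
      show derivative (a * b) = a • derivative b + b • derivative a
      rw [derivative_mul, smul_eq_mul, smul_eq_mul]
      ring))
  exact ⟨fun x => d0 x, cls_isDer d0, hd0⟩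

private theorem cls_rep {k : Type*} [Field k] (r : RatFunc k) : ∃ p q : k[X], q ≠ 0 ∧ r = pol p / pol q := by
  obtain ⟨p, q, hq, hpq⟩ := IsFractionRing.div_surjective (A := k[X]) r
  exact ⟨p, q, nonZeroDivisors.ne_zero hq, hpq.symm⟩

private theorem cls_pol_ne {k : Type*} [Field k] {q : k[X]} (hq : q ≠ 0) : pol q ≠ 0 := by
  intro h
  exact hq ((map_eq_zero_iff _ (IsFractionRing.injective k[X] (RatFunc k))).mp h)

/-- rational functions in one variable -/
private theorem cls_one {k : Type*} [Field k] [IsAlgClosed k] [CharZero k] {D : RatFunc k → RatFunc k}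
    (hD : IsDer D) (hpol : ∀ p : k[X], D (pol p) = pol (derivative p)) (r : RatFunc k) :
    ∃ (G : RatFunc k) (s : Finset k) (l : k → k),
      r = D G + ∑ c ∈ s, pol (C (l c)) / pol (X - C c) := by
  classical
  obtain ⟨A, V, hV, rfl⟩ := cls_rep r
  obtain ⟨G, H, N, Q, hH, hQ, hsq, -, hAV⟩ := hermite A V hV
  have hV' := cls_pol_ne hV
  have hH' := cls_pol_ne hH
  have hQ' := cls_pol_ne hQ.ne_zero
  have e1 : pol A / pol V = D (pol G / pol H) + pol N / pol Q := by
    rw [cls_div hD _ _ hH', hpol, hpol]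
    have h1 := congrArg (fun x => pol x) hAV
    simp only [map_mul, map_add, map_sub, map_pow] at h1
    rw [div_add_div _ _ (pow_ne_zero 2 hH') hQ', div_eq_div_iff hV' (mul_ne_zero (pow_ne_zero 2 hH') hQ')]
    linear_combination h1
  have hsep : Q.Separable := PerfectField.separable_iff_squarefree.mpr hsq
  have hnd : Q.roots.Nodup := nodup_roots hsep
  have hprod : Q = ∏ c ∈ Q.roots.toFinset, (X - C c) := by
    have h1 : Q = (Q.roots.map fun a => X - C a).prod :=
      (IsAlgClosed.splits Q).eq_prod_roots_of_monic hQ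
    conv_lhs => rw [h1]
    rw [Finset.prod_eq_multiset_prod, Multiset.toFinset_val, Multiset.dedup_eq_self.mpr hnd]
  obtain ⟨q, t, ht, hq⟩ := div_prod_eq_quo_add_sum_rem_div (RatFunc k) N (ι := k) (g := fun c => X - C c)
    (s := Q.roots.toFinset) (fun c _ => monic_X_sub_C c)
    (fun a _ b _ hab => pairwise_coprime_X_sub_C (fun _ _ h => h) hab)
  have e2 : pol N / pol Q = pol q + ∑ c ∈ Q.roots.toFinset, pol (t c) / pol (X - C c) := by
    have h1 : pol Q = ∏ c ∈ Q.roots.toFinset, pol (X - C c) := by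
      conv_lhs => rw [hprod]
      exact map_prod _ _ _
    rw [h1]
    exact hq
  obtain ⟨p, hp⟩ := cls_anti q
  refine ⟨pol G / pol H + pol p, Q.roots.toFinset, fun c => (t c).coeff 0, ?_⟩
  rw [e1, e2, hD.add, hpol, hp, add_assoc]
  congr 2
  refine Finset.sum_congr rfl fun c hc => ?_
  have h1 := ht c hc
  rw [degree_X_sub_C] at h1
  have h2 : t c = C ((t c).coeff 0) := eq_C_of_degree_le_zero (Nat.WithBot.lt_one_iff_le_zero.mp h1)
  rw [← h2]

/-- the embedding of the rational functions of `x` -/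
private theorem cls_emb {k : Type*} [Field k] {E : Type*} [Field E] (ν : k[X][X] →+* E)
    (hν : Function.Injective ν) : ∃ j : RatFunc k →+* E, ∀ p, j (pol p) = ν (C p) := by
  have hg : Function.Injective (ν.comp (C : k[X] →+* k[X][X])) := by
    rw [RingHom.coe_comp]
    exact hν.comp C_injective
  exact ⟨IsFractionRing.lift (K := RatFunc k) hg, fun p => IsFractionRing.lift_algebraMap hg p⟩

section emb

variable {k : Type*} [Field k] {E : Type*} [Field E] {ν : k[X][X] →+* E} {j : RatFunc k →+* E}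

private theorem cls_j2 (hj : ∀ p, j (pol p) = ν (C p)) {d : E → E} (hd : IsDer d)
    (h2 : ∀ h, d (ν h) = ν (py h)) (r : RatFunc k) : d (j r) = 0 := by
  obtain ⟨p, q, hq, rfl⟩ := cls_rep r
  have hq' : j (pol q) ≠ 0 := (map_ne_zero j).mpr (cls_pol_ne hq)
  rw [map_div₀, cls_div hd _ _ hq', hj, hj, h2, h2, py_C, py_C, map_zero, zero_mul, mul_zero, sub_zero,
    zero_div]

private theorem cls_j1 (hj : ∀ p, j (pol p) = ν (C p)) {d : E → E} (hd : IsDer d)
    (h1 : ∀ h, d (ν h) = ν (px h)) {D : RatFunc k → RatFunc k}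
    (hD : IsDer D) (hpol : ∀ p : k[X], D (pol p) = pol (derivative p)) (r : RatFunc k) :
    d (j r) = j (D r) := by
  obtain ⟨p, q, hq, rfl⟩ := cls_rep r
  have hq' : j (pol q) ≠ 0 := (map_ne_zero j).mpr (cls_pol_ne hq)
  rw [cls_div hD _ _ (cls_pol_ne hq), map_div₀, cls_div hd _ _ hq', hpol, hpol, map_div₀, map_sub, map_mul,
    map_mul, map_pow, hj, hj, hj, hj, h1, h1, px_C, px_C]

private theorem cls_nu (hj : ∀ p, j (pol p) = ν (C p)) (h : k[X][X]) :
    eval₂RingHom j (ν X) (h.map (algebraMap k[X] (RatFunc k))) = ν h := by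
  rw [coe_eval₂RingHom, eval₂_map]
  have e1 : j.comp (algebraMap k[X] (RatFunc k)) = ν.comp (C : k[X] →+* k[X][X]) := by
    refine RingHom.ext fun p => ?_
    exact hj p
  rw [e1, ← hom_eval₂, eval₂_C_X]

private theorem cls_inj (hν : Function.Injective ν) (hj : ∀ p, j (pol p) = ν (C p)) :
    Function.Injective (eval₂RingHom j (ν X)) := by
  rw [injective_iff_map_eq_zero]
  intro A hA
  obtain ⟨b, hb⟩ := IsLocalization.integerNormalization_map_to_map (nonZeroDivisors k[X]) A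
  have h1 : ν (IsLocalization.integerNormalization (nonZeroDivisors k[X]) A) = 0 := by
    rw [← cls_nu hj, hb, Algebra.smul_def, map_mul, hA, mul_zero]
  have h2 := hν (h1.trans (map_zero ν).symm)
  rw [h2, Polynomial.map_zero] at hb
  have hb0 : (b : k[X]) ≠ 0 := nonZeroDivisors.ne_zero b.2
  have h3 := hb.symm
  rw [Algebra.smul_def] at h3
  rcases mul_eq_zero.mp h3 with h4 | h4
  · exfalso
    have h5 : algebraMap k[X] (RatFunc k)[X] (b : k[X]) = C (pol (b : k[X])) := rfl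
    rw [h5, C_eq_zero] at h4
    exact cls_pol_ne hb0 h4
  · exact h4

private theorem cls_d2 (hj : ∀ p, j (pol p) = ν (C p)) {d : E → E} (hd : IsDer d)
    (h2 : ∀ h, d (ν h) = ν (py h)) (h : (RatFunc k)[X]) :
    d (eval₂RingHom j (ν X) h) = eval₂RingHom j (ν X) (derivative h) := by
  induction h using Polynomial.induction_on' with
  | add p q hp hq => rw [map_add, hd.add, hp, hq, derivative_add, map_add]
  | monomial n a =>
    rw [derivative_monomial, coe_eval₂RingHom, eval₂_monomial, eval₂_monomial, hd.mul, hd.pow, h2, py_X, map_one,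
      cls_j2 hj hd h2, map_mul, map_natCast]
    ring

private theorem cls_d1 (hj : ∀ p, j (pol p) = ν (C p)) {d : E → E} (hd : IsDer d)
    (h1 : ∀ h, d (ν h) = ν (px h)) {D : RatFunc k → RatFunc k}
    (hD : IsDer D) (hpol : ∀ p : k[X], D (pol p) = pol (derivative p)) (h : (RatFunc k)[X]) :
    d (eval₂RingHom j (ν X) h) = eval₂RingHom j (ν X) (cm D h) := by
  induction h using Polynomial.induction_on' with
  | add p q hp hq => rw [map_add, hd.add, hp, hq, (isDer_cm hD).add, map_add]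
  | monomial n a =>
    have e1 : cm D (monomial n a) = monomial n (D a) := by
      ext m
      rw [coeff_cm hD.zero, coeff_monomial, coeff_monomial]
      split_ifs
      · rfl
      · exact hD.zero
    rw [e1, coe_eval₂RingHom, eval₂_monomial, eval₂_monomial, hd.mul, hd.pow, h1, px_X, map_zero,
      cls_j1 hj hd h1 hD hpol]
    ring

private theorem cls_frac (hν : Function.Injective ν) (hj : ∀ p, j (pol p) = ν (C p))
    (hfrac : ∀ z : E, ∃ a b : k[X][X], b ≠ 0 ∧ z * ν b = ν a) (z : E) :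
    ∃ A V : (RatFunc k)[X], V ≠ 0 ∧ z * eval₂RingHom j (ν X) V = eval₂RingHom j (ν X) A := by
  obtain ⟨a, b, hb, hab⟩ := hfrac z
  refine ⟨a.map (algebraMap k[X] (RatFunc k)), b.map (algebraMap k[X] (RatFunc k)), ?_, ?_⟩
  · intro h
    exact hb ((Polynomial.map_eq_zero_iff (IsFractionRing.injective k[X] (RatFunc k))).mp h)
  · rw [cls_nu hj, cls_nu hj, hab]

/-- the kernel of the derivation by `Y` -/
private theorem cls_ker [CharZero k] (hν : Function.Injective ν) (hj : ∀ p, j (pol p) = ν (C p))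
    (hfrac : ∀ z : E, ∃ a b : k[X][X], b ≠ 0 ∧ z * ν b = ν a) {d : E → E} (hd : IsDer d)
    (h2 : ∀ h, d (ν h) = ν (py h)) (z : E) (hz : d z = 0) : ∃ r : RatFunc k, z = j r := by
  classical
  have hchar : CharZero (RatFunc k) := charZero_of_injective_algebraMap (algebraMap k (RatFunc k)).injective
  have hinj := cls_inj hν hj
  have hex : ∃ n, ∃ A V : (RatFunc k)[X], V ≠ 0 ∧ V.natDegree = n ∧
      z * eval₂RingHom j (ν X) V = eval₂RingHom j (ν X) A := by
    obtain ⟨A, V, hV, h⟩ := cls_frac hν hj hfrac z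
    exact ⟨_, A, V, hV, rfl, h⟩
  obtain ⟨A, V, hV, hdeg, hAV⟩ := Nat.find_spec hex
  have hder : z * eval₂RingHom j (ν X) (derivative V) = eval₂RingHom j (ν X) (derivative A) := by
    rw [← cls_d2 hj hd h2, ← cls_d2 hj hd h2, ← hAV, hd.mul, hz, mul_zero, add_zero]
  have hV0 : derivative V = 0 := by
    by_contra hne
    have hpos : V.natDegree ≠ 0 := by
      intro h0
      rw [natDegree_eq_zero] at h0
      obtain ⟨c, rfl⟩ := h0
      exact hne derivative_C
    have hlt := natDegree_derivative_lt hpos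
    exact Nat.find_min hex (by omega) ⟨derivative A, derivative V, hne, rfl, hder⟩
  have hA0 : derivative A = 0 := by
    rw [hV0, map_zero, mul_zero] at hder
    exact hinj (by rw [← hder, map_zero])
  obtain ⟨v, rfl⟩ := natDegree_eq_zero.mp (natDegree_eq_zero_of_derivative_eq_zero hV0)
  obtain ⟨c, rfl⟩ := natDegree_eq_zero.mp (natDegree_eq_zero_of_derivative_eq_zero hA0)
  have hv : v ≠ 0 := by
    intro h0
    exact hV (by rw [h0, C_0])
  rw [coe_eval₂RingHom, eval₂_C, eval₂_C] at hAV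
  refine ⟨c / v, ?_⟩
  rw [map_div₀, ← hAV, mul_div_cancel_right₀]
  exact (map_ne_zero j).mpr hv

end emb

private theorem cls_comm {k : Type*} [Field k] {E : Type*} [Field E]
    {ν : k[X][X] →+* E} (hν : Function.Injective ν)
    (hfrac : ∀ z : E, ∃ a b : k[X][X], b ≠ 0 ∧ z * ν b = ν a) {d₁ d₂ : E → E}
    (hd1 : IsDer d₁) (hd2 : IsDer d₂) (h1 : ∀ h, d₁ (ν h) = ν (px h)) (h2 : ∀ h, d₂ (ν h) = ν (py h)) (z : E) :
    d₂ (d₁ z) = d₁ (d₂ z) := by
  obtain ⟨a, b, hb, hab⟩ := hfrac z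
  have hb' : ν b ≠ 0 := by
    intro h
    exact hb (hν (h.trans (map_zero ν).symm))
  have e1 : d₂ (d₁ (z * ν b)) = d₁ (d₂ (z * ν b)) := by
    rw [hab, h1, h2, h2, h1, py_px]
  simp only [hd1.mul, hd2.mul, hd1.add, hd2.add, h1, h2, py_px] at e1
  have e2 : ν b * (d₂ (d₁ z) - d₁ (d₂ z)) = 0 := by linear_combination e1
  rcases mul_eq_zero.mp e2 with h | h
  · exact absurd h hb'
  · exact sub_eq_zero.mp h

private theorem cls_dlog {E : Type*} [Field E] {d₁ d₂ : E → E}
    (hd1 : IsDer d₁) (hd2 : IsDer d₂) (hcomm : ∀ z, d₂ (d₁ z) = d₁ (d₂ z)) (w : E) (hw : w ≠ 0) :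
    d₂ (d₁ w / w) = d₁ (d₂ w / w) := by
  rw [cls_div hd2 _ _ hw, cls_div hd1 _ _ hw, hcomm]
  ring

/-- the statement for a general finite index set -/
private theorem cls_pack {k : Type*} [Field k] {E : Type*} [Field E]
    (ν : k[X][X] →+* E) (d₁ d₂ : Derivation ℤ E E) (a b G : E) {ι : Type*} [Fintype ι]
    (l : ι → k) (u : ι → E) (hu : ∀ i, u i ≠ 0)
    (ha : a = d₁ G + ∑ i, ν (cc (l i)) * (d₁ (u i) / u i))
    (hb : b = d₂ G + ∑ i, ν (cc (l i)) * (d₂ (u i) / u i)) :
    ∃ (G : E) (m : ℕ) (l : Fin m → k) (u : Fin m → E), (∀ j, u j ≠ 0) ∧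
      a = d₁ G + ∑ j, ν (cc (l j)) * (d₁ (u j) / u j) ∧
      b = d₂ G + ∑ j, ν (cc (l j)) * (d₂ (u j) / u j) := by
  classical
  refine ⟨G, Fintype.card ι, fun j => l ((Fintype.equivFin ι).symm j), fun j => u ((Fintype.equivFin ι).symm j),
    fun j => hu _, ?_, ?_⟩
  · rw [ha]
    congr 1
    exact (Equiv.sum_comp (Fintype.equivFin ι).symm (fun i => ν (cc (l i)) * (d₁ (u i) / u i))).symm
  · rw [hb]
    congr 1
    exact (Equiv.sum_comp (Fintype.equivFin ι).symm (fun i => ν (cc (l i)) * (d₂ (u i) / u i))).symm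

theorem closed_forms {k : Type*} [Field k] [IsAlgClosed k] [CharZero k] {E : Type*} [Field E]
    (ν : k[X][X] →+* E) (hν : Function.Injective ν)
    (hfrac : ∀ z : E, ∃ a b : k[X][X], b ≠ 0 ∧ z * ν b = ν a) (d₁ d₂ : Derivation ℤ E E)
    (h1 : ∀ h, d₁ (ν h) = ν (px h)) (h2 : ∀ h, d₂ (ν h) = ν (py h)) (a b : E)
    (hc : d₂ a = d₁ b) :
    ∃ (G : E) (m : ℕ) (l : Fin m → k) (u : Fin m → E), (∀ j, u j ≠ 0) ∧
      a = d₁ G + ∑ j, ν (cc (l j)) * (d₁ (u j) / u j) ∧
      b = d₂ G + ∑ j, ν (cc (l j)) * (d₂ (u j) / u j) := by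
  classical
  have hd1 : IsDer (fun x => d₁ x) := cls_isDer d₁
  have hd2 : IsDer (fun x => d₂ x) := cls_isDer d₂
  have hcomm : ∀ z, d₂ (d₁ z) = d₁ (d₂ z) := cls_comm hν hfrac hd1 hd2 h1 h2
  obtain ⟨D, hD, hpol⟩ := cls_rat (k := k)
  obtain ⟨j, hj⟩ := cls_emb ν hν
  have hinj := cls_inj hν hj
  have D1 : ∀ h, d₁ (eval₂RingHom j (ν X) h) = eval₂RingHom j (ν X) (cm D h) := cls_d1 hj hd1 h1 hD hpol
  have D2 : ∀ h, d₂ (eval₂RingHom j (ν X) h) = eval₂RingHom j (ν X) (derivative h) := cls_d2 hj hd2 h2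
  have J1 : ∀ r, d₁ (j r) = j (D r) := cls_j1 hj hd1 h1 hD hpol
  have J2 : ∀ r, d₂ (j r) = 0 := cls_j2 hj hd2 h2
  have hfr := cls_frac hν hj hfrac
  have hC : ∀ r, eval₂RingHom j (ν X) (C r) = j r := fun r => by rw [coe_eval₂RingHom, eval₂_C]
  have hchar : CharZero (RatFunc k) := charZero_of_injective_algebraMap (algebraMap k (RatFunc k)).injective
  set μ : (RatFunc k)[X] →+* E := eval₂RingHom j (ν X) with hμ
  have hne : ∀ {h : (RatFunc k)[X]}, h ≠ 0 → μ h ≠ 0 := by
    intro h hh h0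
    exact hh (hinj (h0.trans (map_zero μ).symm))
  -- Hermite reduction of `b`
  obtain ⟨A, V, hV, hb⟩ := hfr b
  obtain ⟨G, H, N, Q, hH, hQ, hsq, hdeg, hAV⟩ := hermite A V hV
  have hV' := hne hV
  have hH' := hne hH
  have hQ' := hne hQ.ne_zero
  have eb : b = d₂ (μ G / μ H) + μ N / μ Q := by
    have hb' : b = μ A / μ V := by rw [← hb, mul_div_cancel_right₀ _ hV']
    have e0 : d₂ (μ G / μ H) = (d₂ (μ G) * μ H - μ G * d₂ (μ H)) / (μ H) ^ 2 := cls_div hd2 _ _ hH'
    rw [hb', e0, D2, D2]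
    have h3 := congrArg (fun x => μ x) hAV
    simp only [map_mul, map_add, map_sub, map_pow] at h3
    rw [div_add_div _ _ (pow_ne_zero 2 hH') hQ', div_eq_div_iff hV' (mul_ne_zero (pow_ne_zero 2 hH') hQ')]
    linear_combination h3
  -- the residues are constant
  obtain ⟨M, K, hK, hM⟩ := hfr (a - d₁ (μ G / μ H))
  have hK' := hne hK
  have ea : a - d₁ (μ G / μ H) = μ M / μ K := by rw [← hM, mul_div_cancel_right₀ _ hK']
  have ec : d₂ (μ M / μ K) = d₁ (μ N / μ Q) := by
    rw [← ea, map_sub, hc, hcomm, ← map_sub]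
    congr 1
    rw [eb]
    ring
  have ec2 : Q ^ 2 * (derivative M * K - M * derivative K) = K ^ 2 * (cm D N * Q - N * cm D Q) := by
    apply hinj
    have e1 : d₂ (μ M / μ K) = (d₂ (μ M) * μ K - μ M * d₂ (μ K)) / (μ K) ^ 2 := cls_div hd2 _ _ hK'
    have e2 : d₁ (μ N / μ Q) = (d₁ (μ N) * μ Q - μ N * d₁ (μ Q)) / (μ Q) ^ 2 := cls_div hd1 _ _ hQ'
    rw [e1, e2, D1, D1, D2, D2, div_eq_div_iff (pow_ne_zero 2 hK') (pow_ne_zero 2 hQ')] at ec
    simp only [map_mul, map_add, map_sub, map_pow]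
    linear_combination ec
  obtain ⟨m, l, W, hW, hQW, hNW⟩ := const_residues D hD hpol N Q M K hQ hsq hdeg hK ec2
  have hWne : ∀ i, μ (W i) ≠ 0 := fun i => hne (hW i).ne_zero
  have hcst : ∀ c : k, j (pol (C c)) = ν (cc c) := fun c => hj (C c)
  have eNQ : μ N / μ Q = ∑ i, ν (cc (l i)) * (d₂ (μ (W i)) / μ (W i)) := by
    rw [div_eq_iff hQ', Finset.sum_mul, hNW, map_sum]
    refine Finset.sum_congr rfl fun i _ => ?_
    have e1 : μ Q = μ (W i) * μ (∏ i ∈ Finset.univ.erase i, W i) := by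
      rw [← map_mul, Finset.mul_prod_erase _ _ (Finset.mem_univ i), ← hQW]
    rw [e1, map_mul, map_mul, hC, hcst, D2]
    have := hWne i
    field_simp
  have hl1 : ∀ c : k, d₁ (ν (cc c)) = 0 := by
    intro c
    rw [h1, px_C, derivative_C, C_0, map_zero]
  have hl2 : ∀ c : k, d₂ (ν (cc c)) = 0 := by
    intro c
    rw [h2, py_C, map_zero]
  have hm1 : ∀ (c : k) (w : E), d₁ (ν (cc c) * w) = ν (cc c) * d₁ w := by
    intro c w
    rw [d₁.leibniz, hl1, smul_eq_mul, smul_zero, add_zero]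
  have hm2 : ∀ (c : k) (w : E), d₂ (ν (cc c) * w) = ν (cc c) * d₂ w := by
    intro c w
    rw [d₂.leibniz, hl2, smul_eq_mul, smul_zero, add_zero]
  -- the part which depends on `x` only
  have hker : d₂ (a - d₁ (μ G / μ H) - ∑ i, ν (cc (l i)) * (d₁ (μ (W i)) / μ (W i))) = 0 := by
    rw [map_sub, ea, ec, eNQ, map_sum, map_sum, sub_eq_zero]
    refine Finset.sum_congr rfl fun i _ => ?_
    rw [hm1, hm2]
    congr 1
    exact (cls_dlog hd1 hd2 hcomm _ (hWne i)).symm
  obtain ⟨r, hr⟩ := cls_ker hν hj hfrac hd2 h2 _ hker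
  obtain ⟨G₂, s, t, hG₂⟩ := cls_one hD hpol r
  have hXc : ∀ c : k, ν (C (X - C c)) ≠ 0 := by
    intro c h0
    have h3 := hν (h0.trans (map_zero ν).symm)
    rw [C_eq_zero] at h3
    exact X_sub_C_ne_zero c h3
  refine cls_pack ν d₁ d₂ a b (μ G / μ H + j G₂) (ι := Fin m ⊕ s) (Sum.elim l fun c => t c)
    (Sum.elim (fun i => μ (W i)) fun c => ν (C (X - C (c : k)))) ?_ ?_ ?_
  · rintro (i | c)
    · exact hWne i
    · exact hXc c
  · rw [Fintype.sum_sum_type]
    simp only [Sum.elim_inl, Sum.elim_inr]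
    have e1 : a = d₁ (μ G / μ H) + ∑ i, ν (cc (l i)) * (d₁ (μ (W i)) / μ (W i)) + j r := by
      linear_combination hr
    have e2 : j r = d₁ (j G₂) + ∑ c : s, ν (cc (t c)) * (d₁ (ν (C (X - C (c : k)))) / ν (C (X - C (c : k)))) := by
      rw [J1]
      conv_lhs => rw [hG₂]
      rw [map_add, map_sum]
      congr 1
      rw [← Finset.sum_coe_sort s]
      refine Finset.sum_congr rfl fun c _ => ?_
      rw [map_div₀, hj, hj, h1, px_C, derivative_sub, derivative_X, derivative_C, sub_zero, C_1, map_one,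
        mul_one_div]
    conv_lhs => rw [e1, e2]
    rw [map_add]
    ring
  · rw [Fintype.sum_sum_type]
    simp only [Sum.elim_inl, Sum.elim_inr]
    have e1 : ∑ c : s, ν (cc (t c)) * (d₂ (ν (C (X - C (c : k)))) / ν (C (X - C (c : k)))) = 0 := by
      refine Finset.sum_eq_zero fun c _ => ?_
      rw [h2, py_C, map_zero, zero_div, mul_zero]
    rw [e1, map_add, J2, add_zero, add_zero, ← eNQ]
    exact eb

end MPadcLF
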