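import Pool.Agent.Lib.MP_adc574_ag_LF.SK

/-!
# JOB Conn: the Gauss–Manin connection over a field

Paper 3.6, 3.7.
* `con_formula`: write `Δ` for the constant `cc Δ`. From `Δ h F_T = α F_x + β F_Y + γ F`. Multiply both sides of
  the claim by `F_Y ^ 3`; `D (h / F_Y)` and `d (α / F_Y)` by the quotient rule with `KD.D_ev`, `KL.d_ev`
  (`d (ev y h) = ev (br F h) / F_Y`, `D (ev y h) = ev (h_T F_Y - h_Y F_T) / F_Y`), and use the relation differentiated
  with respect to `Y` (apply `py`, `py_px`, `pT_py`) and the relation itself, both under `ev` (`ev F = 0`).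
  With `q = Δ h_T - α_x - β_Y - γ`: `Δ D (h / F_Y) = q / F_Y + d (α / F_Y)`. (`linear_combination` in the field `E`.)
* `exists_gm_field`: for every `a`: `η a * F_T` is in `(F, F_x, F_Y) = (1)`, which gives `α`, `β`, `γ` (`Δ = 1`). With
  `m = m_a`, `b = b_a`: `BDeg (-2) (D m - D (d b))` (`KL.low`, `KD.bdeg_D`), `D (d b) = d (D b)`, so
  `BDeg (-2) (q / F_Y - d (D b - α / F_Y))` and `KL.sk`.
* `gm_lc`: consequence of `IsGM`: `Δ D (∑ c_a m_a) - ∑ (Δ δ c + G c)_a m_a = d (…)`: `con_formula`,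
  `ev (br g) / F_Y = d (ev g)`.
-/

set_option autoImplicit false

namespace MPadcLF

open Polynomial MPadcCov

variable {κ : Type*} [Field κ] {E : Type*} [Field E] [Algebra (RatFunc κ) E] {w n : ℕ}
  {F : κ[X][X]} {y : E} {e : Module.Basis (Fin n) (RatFunc κ) E} {δ : κ → κ}
  {dK DK : RatFunc κ → RatFunc κ} {d D : Derivation ℤ E E} {η : IX w n → κ[X][X]}

private theorem conn_alg {E : Type*} [Field E] {Q : E} (hQ : Q ≠ 0) (Δ h hT hY FT Fx FYT FxY FYY α αx αY β βY γ : E)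
    (e1 : Δ * h * FT = α * Fx + β * Q)
    (e2 : Δ * h * FYT + FT * (Δ * hY) = α * FxY + Fx * αY + (β * FYY + Q * βY) + γ * Q) :
    Δ * (Q⁻¹ ^ 2 * (Q * ((hT * Q - hY * FT) / Q) - h * ((FYT * Q - FYY * FT) / Q))) =
      (Δ * hT - αx - βY - γ) / Q + Q⁻¹ ^ 2 * (Q * ((αx * Q - αY * Fx) / Q) - α * ((FxY * Q - FYY * Fx) / Q)) := by
  field_simp
  linear_combination FYY * e1 - Q * e2

private theorem conn_clear {k : Type*} [Field k] {κ : Type*} [Field κ] [Algebra k[X] κ] [IsFractionRing k[X] κ]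
    {ι : Type*} [Fintype ι] [DecidableEq ι] (h : ι → κ[X][X]) :
    ∃ Δ : k[X], Δ ≠ 0 ∧ ∀ i, ∃ h' : k[X][X][X], cc (algebraMap k[X] κ Δ) * h i = mp (algebraMap k[X] κ) h' := by
  have one : ∀ f : κ[X][X], ∃ (Δ : k[X]) (f' : k[X][X][X]), Δ ≠ 0 ∧
      cc (algebraMap k[X] κ Δ) * f = mp (algebraMap k[X] κ) f' := by
    have hadd : ∀ f g : κ[X][X], (∃ (Δ : k[X]) (f' : k[X][X][X]), Δ ≠ 0 ∧
        cc (algebraMap k[X] κ Δ) * f = mp (algebraMap k[X] κ) f') →
        (∃ (Δ : k[X]) (f' : k[X][X][X]), Δ ≠ 0 ∧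
        cc (algebraMap k[X] κ Δ) * g = mp (algebraMap k[X] κ) f') →
        ∃ (Δ : k[X]) (f' : k[X][X][X]), Δ ≠ 0 ∧
        cc (algebraMap k[X] κ Δ) * (f + g) = mp (algebraMap k[X] κ) f' := by
      rintro f g ⟨Δ1, f1, h1, h2⟩ ⟨Δ2, f2, h3, h4⟩
      refine ⟨Δ1 * Δ2, cc Δ2 * f1 + cc Δ1 * f2, mul_ne_zero h1 h3, ?_⟩
      have r1 : cc (algebraMap k[X] κ (Δ1 * Δ2)) = cc (algebraMap k[X] κ Δ1) * cc (algebraMap k[X] κ Δ2) := by
        rw [map_mul (algebraMap k[X] κ), cc, C_mul, C_mul]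
      rw [r1, map_add (mp (algebraMap k[X] κ)), map_mul (mp (algebraMap k[X] κ)), map_mul (mp (algebraMap k[X] κ)),
        mp_cc, mp_cc, ← h2, ← h4]
      ring
    have hmul : ∀ f g : κ[X][X], (∃ (Δ : k[X]) (f' : k[X][X][X]), Δ ≠ 0 ∧
        cc (algebraMap k[X] κ Δ) * f = mp (algebraMap k[X] κ) f') →
        (∃ (Δ : k[X]) (f' : k[X][X][X]), Δ ≠ 0 ∧
        cc (algebraMap k[X] κ Δ) * g = mp (algebraMap k[X] κ) f') →
        ∃ (Δ : k[X]) (f' : k[X][X][X]), Δ ≠ 0 ∧
        cc (algebraMap k[X] κ Δ) * (f * g) = mp (algebraMap k[X] κ) f' := by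
      rintro f g ⟨Δ1, f1, h1, h2⟩ ⟨Δ2, f2, h3, h4⟩
      refine ⟨Δ1 * Δ2, f1 * f2, mul_ne_zero h1 h3, ?_⟩
      have r1 : cc (algebraMap k[X] κ (Δ1 * Δ2)) = cc (algebraMap k[X] κ Δ1) * cc (algebraMap k[X] κ Δ2) := by
        rw [map_mul (algebraMap k[X] κ), cc, C_mul, C_mul]
      rw [r1, map_mul (mp (algebraMap k[X] κ)), ← h2, ← h4]
      ring
    have hX : ∃ (Δ : k[X]) (f' : k[X][X][X]), Δ ≠ 0 ∧
        cc (algebraMap k[X] κ Δ) * (X : κ[X][X]) = mp (algebraMap k[X] κ) f' := by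
      refine ⟨1, X, one_ne_zero, ?_⟩
      unfold mp
      rw [map_one, cc, C_1, C_1, one_mul, coe_mapRingHom, map_X]
    have hCX : ∃ (Δ : k[X]) (f' : k[X][X][X]), Δ ≠ 0 ∧
        cc (algebraMap k[X] κ Δ) * (C X : κ[X][X]) = mp (algebraMap k[X] κ) f' := by
      refine ⟨1, C X, one_ne_zero, ?_⟩
      unfold mp
      rw [map_one, cc, C_1, C_1, one_mul, coe_mapRingHom, map_C, coe_mapRingHom, map_X]
    have hcc : ∀ r : κ, ∃ (Δ : k[X]) (f' : k[X][X][X]), Δ ≠ 0 ∧
        cc (algebraMap k[X] κ Δ) * (cc r : κ[X][X]) = mp (algebraMap k[X] κ) f' := by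
      intro r
      obtain ⟨a, b, hb, rfl⟩ := IsFractionRing.div_surjective k[X] r
      have hb0 : b ≠ 0 := nonZeroDivisors.ne_zero hb
      have hb1 : algebraMap k[X] κ b ≠ 0 := by
        intro h0
        exact hb0 ((map_eq_zero_iff _ (IsFractionRing.injective k[X] κ)).1 h0)
      refine ⟨b, cc a, hb0, ?_⟩
      rw [mp_cc, cc, cc, ← C_mul, ← C_mul, mul_div_cancel₀ _ hb1]
    have hC : ∀ q : κ[X], ∃ (Δ : k[X]) (f' : k[X][X][X]), Δ ≠ 0 ∧
        cc (algebraMap k[X] κ Δ) * (C q : κ[X][X]) = mp (algebraMap k[X] κ) f' := by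
      intro q
      induction q using Polynomial.induction_on with
      | C a => exact hcc a
      | add p q hp hq =>
        rw [C_add]
        exact hadd _ _ hp hq
      | monomial m a hm =>
        rw [pow_succ, ← mul_assoc, C_mul]
        exact hmul _ _ hm hCX
    intro f
    induction f using Polynomial.induction_on with
    | C a => exact hC a
    | add p q hp hq => exact hadd _ _ hp hq
    | monomial m a hm =>
      rw [pow_succ, ← mul_assoc]
      exact hmul _ _ hm hX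
  choose Δ f' h1 h2 using fun i => one (h i)
  refine ⟨∏ i, Δ i, Finset.prod_ne_zero_iff.2 fun i _ => h1 i, fun i =>
    ⟨cc (∏ j ∈ Finset.univ.erase i, Δ j) * f' i, ?_⟩⟩
  rw [map_mul, mp_cc, ← h2 i, ← Finset.prod_erase_mul Finset.univ Δ (Finset.mem_univ i), map_mul, cc, C_mul, C_mul]
  ring

theorem KD.con_formula (H : KD w n F y e δ dK DK d D) (Δ : κ) (h α β γ : κ[X][X])
    (hr : cc Δ * h * pT δ F = α * px F + β * py F + γ * F) :
    inE (κ := κ) E (pol (C Δ)) * D (ev y h / ev y (py F)) =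
      ev y (cc Δ * pT δ h - px α - py β - γ) / ev y (py F) + d (ev y α / ev y (py F)) := by
  have hFY := H.Fy
  have hF0 := H.root
  have e1 : ev y (cc Δ * h * pT δ F) = ev y (α * px F + β * py F + γ * F) := by rw [hr]
  have e2 : ev y (py (cc Δ * h * pT δ F)) = ev y (py (α * px F + β * py F + γ * F)) := by rw [hr]
  have p : IsDer (py : κ[X][X] → κ[X][X]) := isDer_py
  rw [p.mul, p.mul, p.add, p.add, p.mul, p.mul, p.mul, py_C, py_px] at e2
  have d1 := H.D_ev h
  have d2 := H.D_ev (py F)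
  have d3 := H.toKL.d_ev α
  have d4 := H.toKL.d_ev (py F)
  rw [pT_py H.der] at d2
  unfold br at d3 d4
  rw [← ev_C (E := E) y (C Δ)]
  simp only [map_add, map_sub, map_mul, hF0, mul_zero, zero_mul, add_zero] at e1 e2 d1 d2 d3 d4 ⊢
  rw [← eq_div_iff hFY] at d1 d2 d3 d4
  rw [Derivation.leibniz_div, Derivation.leibniz_div, d1, d2, d3, d4]
  simp only [smul_eq_mul]
  exact conn_alg hFY _ _ _ _ _ _ _ _ _ _ _ _ _ _ _ e1 e2

theorem KD.exists_gm_field (H : KD w n F y e δ dK DK d D) (hη : HB w n F η) (hs : Sm F 1) :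
    ∃ G : Matrix (IX w n) (IX w n) κ, IsGM δ 1 F η G := by
  obtain ⟨u, v, z, hs⟩ := hs
  have main : ∀ a, ∃ (c : IX w n → κ) (α β γ g e' : κ[X][X]),
      cc (1 : κ) * η a * pT δ F = α * px F + β * py F + γ * F ∧
      cc (1 : κ) * pT δ (η a) - px α - py β - γ = ∑ b, cc (c b) * η b + br F g + e' * F := by
    intro a
    have hr : cc (1 : κ) * η a * pT δ F = (η a * pT δ F * v) * px F + (η a * pT δ F * z) * py F +
        (η a * pT δ F * u) * F := by
      rw [← hs]
      ring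
    have h1 := H.con_formula 1 (η a) _ _ _ hr
    have h2 := H.comm (bE κ y a)
    have h3 := H.bdeg_D (H.toKL.low hη a)
    have hone : inE (κ := κ) E (pol (C 1)) = 1 := by
      unfold inE pol
      rw [map_one, map_one, map_one]
    rw [hone, one_mul] at h1
    have h4 : ev y (cc (1 : κ) * pT δ (η a) - px (η a * pT δ F * v) - py (η a * pT δ F * z) - (η a * pT δ F * u)) /
        ev y (py F) - d (D (bE κ y a) - ev y (η a * pT δ F * v) / ev y (py F)) = D (mE F y η a - d (bE κ y a)) := by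
      rw [map_sub d, map_sub D, h2]
      have h5 : D (mE F y η a) = D (ev y (η a) / ev y (py F)) := rfl
      rw [h5, h1]
      ring
    rw [← h4] at h3
    obtain ⟨c, g, e', h6⟩ := H.toKL.sk hη _ _ h3
    exact ⟨c, _, _, _, g, e', hr, h6⟩
  choose c α β γ g e' h1 h2 using main
  refine ⟨Matrix.of fun b a => c a b, fun a => ⟨α a, β a, γ a, g a, e' a, h1 a, ?_⟩⟩
  exact h2 a

theorem KD.gm_lc (H : KD w n F y e δ dK DK d D) {Δ : κ} {G : Matrix (IX w n) (IX w n) κ}
    (hG : IsGM δ Δ F η G) (c : IX w n → κ) :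
    ∃ z : E, inE (κ := κ) E (pol (C Δ)) * D (lc c (mE F y η)) =
      lc (fun a => Δ * δ (c a) + G.mulVec c a) (mE F y η) + d z := by
  choose α β γ g e' h1 h2 using hG
  have hFY := H.Fy
  have hD : ∀ r : κ, D (inE (κ := κ) E (pol (C r))) = inE (κ := κ) E (pol (C (δ r))) := by
    intro r
    rw [inE, H.D_alg, H.DK_pol, cm_C H.der.zero]
  have hm : ∀ a, inE (κ := κ) E (pol (C Δ)) * D (mE F y η a) =
      (∑ b, inE (κ := κ) E (pol (C (G b a))) * mE F y η b) + d (ev y (g a) + ev y (α a) / ev y (py F)) := by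
    intro a
    have h3 := H.con_formula Δ (η a) _ _ _ (h1 a)
    have h4 : D (mE F y η a) = D (ev y (η a) / ev y (py F)) := rfl
    have h5 := H.toKL.d_ev (g a)
    rw [← eq_div_iff hFY] at h5
    have h6 : ev y (∑ b, cc (G b a) * η b + br F (g a) + e' a * F) =
        (∑ b, inE (κ := κ) E (pol (C (G b a))) * ev y (η b)) + ev y (br F (g a)) := by
      rw [map_add (ev y), map_add (ev y), map_mul (ev y), H.root, mul_zero, add_zero, map_sum (ev y)]
      congr 1
      refine Finset.sum_congr rfl fun b _ => ?_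
      rw [map_mul (ev y), ev_C]
    rw [h4, h3, h2 a, map_add d, h5, h6, add_div, Finset.sum_div, add_assoc]
    congr 1
    refine Finset.sum_congr rfl fun b _ => ?_
    rw [mul_div_assoc]
    rfl
  refine ⟨∑ a, inE (κ := κ) E (pol (C (c a))) * (ev y (g a) + ev y (α a) / ev y (py F)), ?_⟩
  have e1 : ∀ a, D (inE (κ := κ) E (pol (C (c a))) * mE F y η a) =
      inE (κ := κ) E (pol (C (c a))) * D (mE F y η a) + mE F y η a * inE (κ := κ) E (pol (C (δ (c a)))) := by
    intro a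
    rw [Derivation.leibniz, hD, smul_eq_mul, smul_eq_mul]
  have e2 : ∀ a, inE (κ := κ) E (pol (C Δ)) * D (inE (κ := κ) E (pol (C (c a))) * mE F y η a) =
      ((∑ b, inE (κ := κ) E (pol (C (G b a * c a))) * mE F y η b) +
      inE (κ := κ) E (pol (C (Δ * δ (c a)))) * mE F y η a) +
      inE (κ := κ) E (pol (C (c a))) * d (ev y (g a) + ev y (α a) / ev y (py F)) := by
    intro a
    have e3 : ∀ r s : κ, inE (κ := κ) E (pol (C (r * s))) = inE (κ := κ) E (pol (C r)) * inE (κ := κ) E (pol (C s)) := by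
      intro r s
      unfold inE pol
      rw [map_mul, map_mul, map_mul]
    have e4 : (∑ b, inE (κ := κ) E (pol (C (G b a * c a))) * mE F y η b) =
        inE (κ := κ) E (pol (C (c a))) * ∑ b, inE (κ := κ) E (pol (C (G b a))) * mE F y η b := by
      rw [Finset.mul_sum]
      refine Finset.sum_congr rfl fun b _ => ?_
      rw [e3]
      ring
    rw [e1, e4, e3]
    linear_combination inE (κ := κ) E (pol (C (c a))) * hm a
  unfold lc
  rw [map_sum, Finset.mul_sum, Finset.sum_congr rfl fun a _ => e2 a, Finset.sum_add_distrib, Finset.sum_add_distrib,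
    Finset.sum_comm, map_sum]
  congr 1
  · rw [← Finset.sum_add_distrib]
    refine Finset.sum_congr rfl fun b _ => ?_
    rw [← Finset.sum_mul, ← add_mul]
    congr 1
    have e5 : ∀ r s : κ, inE (κ := κ) E (pol (C (r + s))) = inE (κ := κ) E (pol (C r)) + inE (κ := κ) E (pol (C s)) := by
      intro r s
      unfold inE pol
      rw [map_add, map_add, map_add]
    have e6 : (∑ a, inE (κ := κ) E (pol (C (G b a * c a)))) = inE (κ := κ) E (pol (C (G.mulVec c b))) := by
      have e7 : G.mulVec c b = ∑ a, G b a * c a := rfl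
      rw [e7]
      unfold inE pol
      rw [map_sum, map_sum, map_sum]
    rw [e5, e6, add_comm]
  · refine Finset.sum_congr rfl fun a _ => ?_
    rw [H.toKL.d_const]

/-- Clearing denominators. -/
theorem exists_gm {k : Type*} [Field k] {w n : ℕ} {F : k[X][X][X]} {η : IX w n → k[X][X][X]}
    {κ : Type*} [Field κ] [Algebra k[X] κ] [IsFractionRing k[X] κ] (δ : κ → κ) (hδ : IsDer δ)
    (hδ' : ∀ r : k[X], δ (algebraMap k[X] κ r) = algebraMap k[X] κ (derivative r))
    (G : Matrix (IX w n) (IX w n) κ)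
    (hG : IsGM δ 1 (mp (algebraMap k[X] κ) F) (fun a => mp (algebraMap k[X] κ) (η a)) G) :
    ∃ (Δ : k[X]) (G' : Matrix (IX w n) (IX w n) k[X]), Δ ≠ 0 ∧
      IsGM (fun r => derivative r) Δ F η G' := by
  classical
  have hG' := hG
  choose α β γ g e' h1 h2 using hG'
  obtain ⟨Δ, hΔ, hcl⟩ := conn_clear (k := k) (κ := κ) (ι := (IX w n × IX w n) ⊕ (IX w n × Fin 5))
    (Sum.elim (fun p => cc (G p.1 p.2)) (fun p => ![α p.1, β p.1, γ p.1, g p.1, e' p.1] p.2))
  choose h' hh' using hcl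
  have kG : ∀ b a, algebraMap k[X] κ (((h' (Sum.inl (b, a))).coeff 0).coeff 0) = algebraMap k[X] κ Δ * G b a := by
    intro b a
    have h3 := hh' (Sum.inl (b, a))
    have h4 : cc (algebraMap k[X] κ Δ) * cc (G b a) = mp (algebraMap k[X] κ) (h' (Sum.inl (b, a))) := h3
    have h5 : ((mp (algebraMap k[X] κ) (h' (Sum.inl (b, a)))).coeff 0).coeff 0 =
        algebraMap k[X] κ (((h' (Sum.inl (b, a))).coeff 0).coeff 0) := by
      unfold mp
      rw [coe_mapRingHom, coeff_map, coe_mapRingHom, coeff_map]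
    rw [← h5, ← h4, ← map_mul, ← map_mul, coeff_C_zero, coeff_C_zero]
  have kα : ∀ a, cc (algebraMap k[X] κ Δ) * α a = mp (algebraMap k[X] κ) (h' (Sum.inr (a, 0))) := fun a => hh' (Sum.inr (a, 0))
  have kβ : ∀ a, cc (algebraMap k[X] κ Δ) * β a = mp (algebraMap k[X] κ) (h' (Sum.inr (a, 1))) := fun a => hh' (Sum.inr (a, 1))
  have kγ : ∀ a, cc (algebraMap k[X] κ Δ) * γ a = mp (algebraMap k[X] κ) (h' (Sum.inr (a, 2))) := fun a => hh' (Sum.inr (a, 2))
  have kg : ∀ a, cc (algebraMap k[X] κ Δ) * g a = mp (algebraMap k[X] κ) (h' (Sum.inr (a, 3))) := fun a => hh' (Sum.inr (a, 3))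
  have ke : ∀ a, cc (algebraMap k[X] κ Δ) * e' a = mp (algebraMap k[X] κ) (h' (Sum.inr (a, 4))) := fun a => hh' (Sum.inr (a, 4))
  have hinj : Function.Injective (mp (algebraMap k[X] κ)) := by
    have i1 : Function.Injective (algebraMap k[X] κ) := IsFractionRing.injective k[X] κ
    have i2 : Function.Injective (mapRingHom (algebraMap k[X] κ)) := map_injective _ i1
    exact map_injective _ i2
  have hder : IsDer (fun r : k[X] => derivative r) := isDer_derivative k
  have hpT : ∀ f : k[X][X][X], pT δ (mp (algebraMap k[X] κ) f) =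
      mp (algebraMap k[X] κ) (pT (fun r : k[X] => derivative r) f) := fun f =>
    (mp_pT (algebraMap k[X] κ) hder hδ (fun r => (hδ' r).symm) f).symm
  have hx : IsDer (px : κ[X][X] → κ[X][X]) := isDer_px
  have hy : IsDer (py : κ[X][X] → κ[X][X]) := isDer_py
  have pxc : ∀ (r : κ) (f : κ[X][X]), px (cc r * f) = cc r * px f := by
    intro r f
    rw [hx.mul, px_C, derivative_C, C_0, mul_zero, add_zero]
  have pyc : ∀ (r : κ) (f : κ[X][X]), py (cc r * f) = cc r * py f := by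
    intro r f
    rw [hy.mul, py_C, mul_zero, add_zero]
  refine ⟨Δ, Matrix.of fun b a => ((h' (Sum.inl (b, a))).coeff 0).coeff 0, hΔ, fun a =>
    ⟨h' (Sum.inr (a, 0)), h' (Sum.inr (a, 1)), h' (Sum.inr (a, 2)), h' (Sum.inr (a, 3)), h' (Sum.inr (a, 4)), ?_, ?_⟩⟩
  · apply hinj
    rw [map_mul, map_mul, map_add, map_add, map_mul, map_mul, map_mul, ← hpT, mp_px, mp_py, mp_cc, ← kα, ← kβ, ← kγ]
    have h3 := h1 a
    have h4 : (cc (1 : κ) : κ[X][X]) = 1 := by
      rw [cc, C_1, C_1]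
    rw [h4, one_mul] at h3
    linear_combination cc (algebraMap k[X] κ Δ) * h3
  · apply hinj
    rw [map_sub, map_sub, map_sub, map_mul, map_add, map_add, map_mul, map_sum, ← hpT, mp_px, mp_py, mp_cc, mp_br,
      ← kα, ← kβ, ← kγ, ← kg, ← ke, pxc, pyc, br_cc_mul]
    have h3 := h2 a
    have h4 : (cc (1 : κ) : κ[X][X]) = 1 := by
      rw [cc, C_1, C_1]
    rw [h4, one_mul] at h3
    have h5 : ∑ b, mp (algebraMap k[X] κ) (cc ((Matrix.of fun b a => ((h' (Sum.inl (b, a))).coeff 0).coeff 0) b a) * η b) =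
        cc (algebraMap k[X] κ Δ) * ∑ b, cc (G b a) * mp (algebraMap k[X] κ) (η b) := by
      rw [Finset.mul_sum]
      refine Finset.sum_congr rfl fun b _ => ?_
      rw [map_mul, mp_cc, Matrix.of_apply, kG, cc, C_mul, C_mul]
      ring
    rw [h5]
    linear_combination cc (algebraMap k[X] κ Δ) * h3

end MPadcLF
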