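import Pool.Agent.Lib.MP_adc574_ag_LF.Nat

/-!
# The linear system for the exact regular forms
-/

set_option autoImplicit false

namespace MPadcLF

open Polynomial MPadcCov

/-- The matrix of `c ↦ hrec F (fo F c) j`; the rows are the monomials `x ^ u Y ^ v`. -/
noncomputable def HM {R : Type*} [CommRing R] {w n : ℕ} (F : R[X][X]) (j : ℕ) :
    Matrix (ℕ × ℕ) (Gx w n) R :=
  fun r a => ((hrec F (C (X ^ (a.2 : ℕ)) * bb F a.1) j).coeff r.2).coeff r.1

theorem hrec_zero {R : Type*} [CommRing R] {F : R[X][X]} (hF : F.Monic) (j : ℕ) :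
    hrec F 0 j = 0 := by
  have h := hrec_cc_mul hF (0 : R) 0 j
  simpa [cc] using h

theorem hrec_sum {R : Type*} [CommRing R] {F : R[X][X]} (hF : F.Monic) {ι : Type*}
    (s : Finset ι) (f : ι → R[X][X]) (j : ℕ) :
    hrec F (∑ i ∈ s, f i) j = ∑ i ∈ s, hrec F (f i) j := by
  classical
  induction s using Finset.induction_on with
  | empty => rw [Finset.sum_empty, Finset.sum_empty, hrec_zero hF]
  | insert i s hi ih => rw [Finset.sum_insert hi, Finset.sum_insert hi, hrec_add hF, ih]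

theorem hrec_fo {R : Type*} [CommRing R] {w n : ℕ} {F : R[X][X]} (hF : F.Monic)
    (c : Gx w n → R) (j : ℕ) :
    hrec F (fo F c) j = ∑ a, cc (c a) * hrec F (C (X ^ (a.2 : ℕ)) * bb F a.1) j := by
  rw [fo, hrec_sum hF]
  refine Finset.sum_congr rfl fun a _ => ?_
  rw [hrec_cc_mul hF]

theorem hrec_fo_eq_zero_iff {R : Type*} [CommRing R] {w n : ℕ} {F : R[X][X]} (hF : F.Monic)
    {κ : Type*} [Field κ] (ψ : R →+* κ) (j : ℕ) (c : Gx w n → κ) :
    hrec (mp ψ F) (fo (mp ψ F) c) j = 0 ↔ ((HM (w := w) (n := n) F j).map ψ).mulVec c = 0 := by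
  have hF' : (mp ψ F).Monic := by
    rw [mp, coe_mapRingHom]
    exact hF.map _
  have h1 : ∀ a : Gx w n, hrec (mp ψ F) (C (X ^ (a.2 : ℕ)) * bb (mp ψ F) a.1) j =
      mp ψ (hrec F (C (X ^ (a.2 : ℕ)) * bb F a.1) j) := by
    intro a
    rw [hrec_map ψ hF, map_mul, mp_bb]
    simp [mp]
  have h2 : ∀ u v : ℕ, ((hrec (mp ψ F) (fo (mp ψ F) c) j).coeff v).coeff u =
      ((HM (w := w) (n := n) F j).map ψ).mulVec c (u, v) := by
    intro u v
    rw [hrec_fo hF', finsetSum_coeff, finsetSum_coeff, Matrix.mulVec, dotProduct]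
    refine Finset.sum_congr rfl fun a _ => ?_
    rw [h1, cc, coeff_C_mul, coeff_C_mul, mul_comm, Matrix.map_apply, HM, mp, coe_mapRingHom,
      coeff_map, coe_mapRingHom, coeff_map]
  constructor
  · intro h
    ext ⟨u, v⟩
    rw [← h2, h]
    simp
  · intro h
    ext v u
    rw [h2, h]
    simp

end MPadcLF
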