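import Pool.Agent.Lib.MP_adc574_ag_LF.HinfA

/-!
# JOB HinfB: no stable spaces of sections

Suppose `0 ≠ x ∈ U`. By the hypothesis choose a sequence `v j ∈ U`, `v 0 = x`, with
`Δ v (j+1) = Δ (v j)' + G (v j)` (recursion on `j` in the subtype `U`, `choose`). By `nilp_zero` some `v j` is zero; take
the least such `j`, `j ≥ 1`: `v (j-1) ≠ 0` and `Δ (v (j-1))' + G (v (j-1)) = 0`. Multiply by a nonzero constant of
`A` such that all coefficients are in `A` (`IsLocalization.exist_integer_multiples…`): a nonzero horizontal vector over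
`A[X]` (injectivity), contradiction with `hhor`.
-/

set_option autoImplicit false

namespace MPadcLF

open Polynomial MPadcCov

universe u

theorem hinf_of {A : Type u} [CommRing A] [IsDomain A] {k : Type u} [Field k] [Algebra A k]
    [IsFractionRing A k] {ι : Type} [Fintype ι] [DecidableEq ι] (Δ : A[X]) (hΔ : Δ ≠ 0)
    (G : Matrix ι ι A[X])
    (hnil : ∀ b : A, b ≠ 0 → ∃ (κ : Type u) (_ : Field κ) (ψ : A →+* κ)
      (DK : RatFunc κ → RatFunc κ) (M : ℕ), ψ b ≠ 0 ∧ IsDer DK ∧
      (∀ p : κ[X], DK (pol p) = pol (derivative p)) ∧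
      ∀ c, (nb DK (fp ψ Δ) (G.map (fp ψ)))^[M] c = 0)
    (hhor : ∀ v : ι → A[X], (∀ i, Δ * derivative (v i) + G.mulVec v i = 0) → v = 0)
    (U : Submodule k (ι → k[X]))
    (hU : ∀ x ∈ U, ∃ y ∈ U, ∀ i, Δ.map (algebraMap A k) * y i = Δ.map (algebraMap A k) *
      derivative (x i) + (G.map (mapRingHom (algebraMap A k))).mulVec x i) : U = ⊥ := by
  classical
  rw [Submodule.eq_bot_iff]
  intro x hx
  by_contra hx0
  choose! f hfU hf using hU
  set v : ℕ → ι → k[X] := fun j => f^[j] x with hvdef
  have hvU : ∀ j, v j ∈ U := by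
    intro j
    induction j with
    | zero => exact hx
    | succ j ih =>
      simp only [hvdef] at ih ⊢
      rw [Function.iterate_succ_apply']
      exact hfU _ ih
  have hvs : ∀ j, v (j + 1) = f (v j) := fun j => by simp only [hvdef, Function.iterate_succ_apply']
  have hv : ∀ j i, Δ.map (algebraMap A k) * v (j + 1) i = Δ.map (algebraMap A k) *
      derivative (v j i) + (G.map (mapRingHom (algebraMap A k))).mulVec (v j) i := by
    intro j i
    rw [hvs]
    exact hf (v j) (hvU j) i
  have hex := nilp_zero Δ hΔ G hnil v hv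
  have hj0 : v (Nat.find hex) = 0 := Nat.find_spec hex
  have hjpos : Nat.find hex ≠ 0 := by
    intro h
    rw [h] at hj0
    exact hx0 hj0
  obtain ⟨j, hj⟩ := Nat.exists_eq_succ_of_ne_zero hjpos
  have hw0 : v j ≠ 0 := Nat.find_min hex (by omega)
  rw [hj] at hj0
  have hw : ∀ i, Δ.map (algebraMap A k) *
      derivative (v j i) + (G.map (mapRingHom (algebraMap A k))).mulVec (v j) i = 0 := by
    intro i
    rw [← hv j i, show v (j + 1) = 0 from hj0, Pi.zero_apply, mul_zero]
  generalize v j = w at hw hw0
  -- a common denominator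
  obtain ⟨a, ha⟩ := IsLocalization.exist_integer_multiples_of_finset (nonZeroDivisors A)
    (Finset.univ.biUnion fun i => (w i).support.image (w i).coeff)
  have ha0 : algebraMap A k a ≠ 0 := by
    intro h
    exact nonZeroDivisors.ne_zero a.2 ((map_eq_zero_iff _ (IsFractionRing.injective A k)).mp h)
  have hlift : ∀ i, ∃ q : A[X], q.map (algebraMap A k) = C (algebraMap A k a) * w i := by
    intro i
    rw [← mem_lifts, lifts_iff_coeff_lifts]
    intro n
    rw [coeff_C_mul]
    by_cases hn : n ∈ (w i).support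
    · obtain ⟨y, hy⟩ := ha ((w i).coeff n)
        (Finset.mem_biUnion.mpr ⟨i, Finset.mem_univ i, Finset.mem_image_of_mem _ hn⟩)
      refine ⟨y, ?_⟩
      rw [hy, Algebra.smul_def]
    · refine ⟨0, ?_⟩
      rw [map_zero, notMem_support_iff.mp hn, mul_zero]
  choose q hq using hlift
  have hhq : ∀ i, Δ * derivative (q i) + G.mulVec q i = 0 := by
    intro i
    refine map_injective (algebraMap A k) (IsFractionRing.injective A k) ?_
    rw [Polynomial.map_add, Polynomial.map_mul, ← derivative_map, hq, Polynomial.map_zero]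
    have h1 : (G.mulVec q i).map (algebraMap A k) =
        C (algebraMap A k a) * (G.map (mapRingHom (algebraMap A k))).mulVec w i := by
      rw [Matrix.mulVec, dotProduct, Matrix.mulVec, dotProduct, Polynomial.map_sum, Finset.mul_sum]
      refine Finset.sum_congr rfl fun l _ => ?_
      rw [Polynomial.map_mul, hq, Matrix.map_apply, coe_mapRingHom]
      ring
    rw [h1, derivative_C_mul]
    linear_combination C (algebraMap A k a) * hw i
  have hq0 := hhor q hhq
  apply hw0
  funext i
  have h1 := hq i
  rw [hq0, Pi.zero_apply, Polynomial.map_zero] at h1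
  rw [Pi.zero_apply]
  rcases mul_eq_zero.mp h1.symm with h | h
  · exact absurd (C_eq_zero.mp h) ha0
  · exact h

end MPadcLF
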