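import Pool.Agent.Lib.MP_adc574_ag_LF.GlobI
import Pool.Agent.Lib.MP_adc574_ag_LF.HinfB
import Pool.Agent.Lib.MP_adc574_ag_LP.Ultra

/-!
# JOB IsoFam: the argument by ultraproducts

Paper 5.4; see LP/NoFamily.lean (`no_family`), which is the same argument.
* The dimensions of the `W p` are bounded by `card (γ ⊕ γ)`, so there is `r` with `{p | finrank (W p) = r}` infinite
  (`Finite.exists_infinite_fiber`); replace `P` by this subtype `P'`. For every `p ∈ P'` choose a basis `w p : Fin r → …` of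
  `W p`, dual vectors `V p : Fin r → …` (`V i ⬝ᵥ w j = δ`), `M p` with `nab (w j) = ∑ M i j w i`, and
  `c p ≠ 0` with `Sum.elim (c p) 0 = ∑ j, λ p j w p j`, scaled such that one coordinate `c p (i p) = 1`; passing to a
  smaller infinite set we may assume that `i p = i₀` is constant.
* `exists_ultra` gives `L`, `π`, `DL`; `θ = π ∘ (φ p)_p : A[X] → L` is injective by `hfin`. `k = FractionRing A`; extend
  `θ` to `ψ : k[X] → L`, injective, with `DL (ψ x) = ψ x'` (the private lemmas at the beginning of LP/NoFamily.lean do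
  exactly this; copy them).
* `W = span (w j)`, `w j i = π (fun p => w p j i)`: isotropic, stable (`π` is a ring homomorphism, `DL ∘ π = π ∘ (DK p)`),
  and `Sum.elim c 0 ∈ W` with `c i = π (fun p => c p i)`, `c i₀ = 1`.
* `global_iso` over `k`, `F = AlgebraicClosure k`, `Δ.map`, `G.map`; `hinf` from `hinf_of`.
-/

set_option autoImplicit false

namespace MPadcLF

open Polynomial MPadcLP MPadcCov

universe u

/-- Extension of an embedding of `A[t]` to `k[t]`, `k` the field of fractions of `A`. -/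
private theorem isofam_ext {A : Type u} [CommRing A] [IsDomain A] {L : Type u} [Field L]
    (θ : A[X] →+* L) (hθ : Function.Injective θ) (DL : Derivation ℤ L L)
    (hDL : ∀ x, DL (θ x) = θ (derivative x)) :
    ∃ ψL : (FractionRing A)[X] →+* L, Function.Injective ψL ∧
      (∀ x : A[X], ψL (x.map (algebraMap A (FractionRing A))) = θ x) ∧
      ∀ x, DL (ψL x) = ψL (derivative x) := by
  have hg : Function.Injective (θ.comp (C : A →+* A[X])) := hθ.comp C_injective
  obtain ⟨g, hgdef⟩ : ∃ g : FractionRing A →+* L, g = IsFractionRing.lift hg := ⟨_, rfl⟩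
  have hgA : ∀ a : A, g (algebraMap A (FractionRing A) a) = θ (C a) := by
    intro a
    rw [hgdef, IsFractionRing.lift_algebraMap]
    rfl
  obtain ⟨ψL, hψdef⟩ : ∃ ψL : (FractionRing A)[X] →+* L, ψL = eval₂RingHom g (θ X) := ⟨_, rfl⟩
  have hψA : ∀ x : A[X], ψL (x.map (algebraMap A (FractionRing A))) = θ x := by
    intro x
    have h1 : ψL.comp (mapRingHom (algebraMap A (FractionRing A))) = θ := by
      refine ringHom_ext (fun a => ?_) ?_
      · rw [RingHom.comp_apply, coe_mapRingHom, map_C, hψdef, coe_eval₂RingHom, eval₂_C, hgA]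
      · rw [RingHom.comp_apply, coe_mapRingHom, map_X, hψdef, coe_eval₂RingHom, eval₂_X]
    exact congrArg (fun h : A[X] →+* L => h x) h1
  -- clearing denominators
  have hden : ∀ x : (FractionRing A)[X], ∃ (b : A) (y : A[X]), b ≠ 0 ∧
      C (algebraMap A (FractionRing A) b) * x = y.map (algebraMap A (FractionRing A)) := by
    intro x
    obtain ⟨b, hb0, hb⟩ := IsLocalization.integerNormalization_spec (nonZeroDivisors A) x
    refine ⟨b, IsLocalization.integerNormalization (nonZeroDivisors A) x,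
      nonZeroDivisors.ne_zero hb0, ?_⟩
    rw [hb]
    ext i
    rw [coeff_C_mul, coeff_smul]
    exact (Algebra.smul_def _ _).symm
  have hC : ∀ b : A, b ≠ 0 → θ (C b) ≠ 0 := by
    intro b hb h0
    rw [map_eq_zero_iff θ hθ, C_eq_zero] at h0
    exact hb h0
  have hψC : ∀ b : A, ψL (C (algebraMap A (FractionRing A) b)) = θ (C b) := by
    intro b
    rw [← hψA, map_C]
  refine ⟨ψL, ?_, hψA, ?_⟩
  · rw [injective_iff_map_eq_zero]
    intro x hx
    obtain ⟨b, y, hb, hy⟩ := hden x
    have h1 : θ y = 0 := by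
      rw [← hψA, ← hy, map_mul, hx, mul_zero]
    rw [map_eq_zero_iff θ hθ] at h1
    rw [h1, Polynomial.map_zero] at hy
    have hb' : C (algebraMap A (FractionRing A) b) ≠ 0 := by
      rw [Ne, C_eq_zero, map_eq_zero_iff _ (IsFractionRing.injective A (FractionRing A))]
      exact hb
    exact (mul_eq_zero.1 hy).resolve_left hb'
  · intro x
    obtain ⟨b, y, hb, hy⟩ := hden x
    have h1 : DL (θ (C b) * ψL x) = θ (C b) * ψL (derivative x) := by
      have h2 : θ (C b) * ψL x = θ y := by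
        rw [← hψA y, ← hy, map_mul, hψC]
      rw [h2, hDL, ← hψA (derivative y), ← derivative_map, ← hy, derivative_C_mul, map_mul, hψC]
    rw [Derivation.leibniz, hDL, derivative_C, map_zero, smul_zero, add_zero, smul_eq_mul] at h1
    exact mul_left_cancel₀ (hC b hb) h1


section isofam

set_option linter.unusedSectionVars false

variable {γ : Type} [Fintype γ] [DecidableEq γ]

private theorem isofam_J0_map {R R' : Type*} [CommRing R] [CommRing R'] (φ : R →+* R') :
    (J0 R γ).map φ = J0 R' γ := by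
  unfold J0
  ext i j
  rcases i with i | i <;> rcases j with j | j
  · rw [Matrix.map_apply, Matrix.fromBlocks_apply₁₁, Matrix.fromBlocks_apply₁₁, Matrix.zero_apply,
      Matrix.zero_apply, map_zero]
  · rw [Matrix.map_apply, Matrix.fromBlocks_apply₁₂, Matrix.fromBlocks_apply₁₂, Matrix.neg_apply,
      Matrix.neg_apply, map_neg, Matrix.one_apply, Matrix.one_apply]
    split_ifs
    · rw [map_one]
    · rw [map_zero]
  · rw [Matrix.map_apply, Matrix.fromBlocks_apply₂₁, Matrix.fromBlocks_apply₂₁, Matrix.one_apply,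
      Matrix.one_apply]
    split_ifs
    · rw [map_one]
    · rw [map_zero]
  · rw [Matrix.map_apply, Matrix.fromBlocks_apply₂₂, Matrix.fromBlocks_apply₂₂, Matrix.zero_apply,
      Matrix.zero_apply, map_zero]

private theorem isofam_J0_pi {P : Type} {K : P → Type u} [∀ p, Field (K p)] {L : Type u} [Field L]
    (π : (∀ p, K p) →+* L) (i j : γ ⊕ γ) :
    J0 L γ i j = π (fun p => J0 (K p) γ i j) := by
  have h1 : J0 L γ = (J0 (∀ p, K p) γ).map π := (isofam_J0_map π).symm
  have h2 : J0 (∀ p, K p) γ i j = fun p => J0 (K p) γ i j := by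
    funext p
    have h3 : (J0 (∀ p, K p) γ).map (Pi.evalRingHom K p) = J0 (K p) γ :=
      isofam_J0_map (Pi.evalRingHom K p)
    have h4 := congrFun (congrFun h3 i) j
    exact h4
  rw [h1, Matrix.map_apply, h2]

private theorem isofam_BB {L : Type*} [Field L] (J : Matrix (γ ⊕ γ) (γ ⊕ γ) L) {r : ℕ}
    (w : Fin r → γ ⊕ γ → L) (h : ∀ i j, BB J (w i) (w j) = 0) :
    ∀ u ∈ Submodule.span L (Set.range w), ∀ v ∈ Submodule.span L (Set.range w), BB J u v = 0 := by
  intro u hu v hv
  unfold BB at h ⊢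
  induction hu using Submodule.span_induction with
  | mem x hx =>
    obtain ⟨i, rfl⟩ := hx
    induction hv using Submodule.span_induction with
    | mem y hy =>
      obtain ⟨j, rfl⟩ := hy
      exact h i j
    | zero => rw [Matrix.mulVec_zero, dotProduct_zero]
    | add x y _ _ hx hy => rw [Matrix.mulVec_add, dotProduct_add, hx, hy, add_zero]
    | smul a x _ hx => rw [Matrix.mulVec_smul, dotProduct_smul, hx, smul_zero]
  | zero => rw [zero_dotProduct]
  | add x y _ _ hx hy => rw [add_dotProduct, hx, hy, add_zero]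
  | smul a x _ hx => rw [smul_dotProduct, hx, smul_zero]

private theorem isofam_nab {L : Type*} [Field L] (D : Derivation ℤ L L) (Δ : L)
    (G : Matrix (γ ⊕ γ) (γ ⊕ γ) L) (W : Submodule L (γ ⊕ γ → L)) (s : Set (γ ⊕ γ → L))
    (hs : W = Submodule.span L s) (h : ∀ u ∈ s, nab D Δ G u ∈ W) :
    ∀ u ∈ W, nab D Δ G u ∈ W := by
  intro u hu
  rw [hs] at hu
  induction hu using Submodule.span_induction with
  | mem x hx => exact h x hx
  | zero =>
    have h1 : nab D Δ G (0 : γ ⊕ γ → L) = 0 := by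
      funext i
      show Δ * D 0 + G.mulVec 0 i = 0
      rw [map_zero, mul_zero, Matrix.mulVec_zero, zero_add]
      rfl
    rw [h1]
    exact W.zero_mem
  | add x y _ _ hx hy =>
    have h1 : nab D Δ G (x + y) = nab D Δ G x + nab D Δ G y := by
      funext i
      show Δ * D (x i + y i) + G.mulVec (x + y) i =
        (Δ * D (x i) + G.mulVec x i) + (Δ * D (y i) + G.mulVec y i)
      rw [map_add, Matrix.mulVec_add, Pi.add_apply]
      ring
    rw [h1]
    exact W.add_mem hx hy
  | smul a x hx0 hx =>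
    have h1 : nab D Δ G (a • x) = a • nab D Δ G x + (Δ * D a) • x := by
      funext i
      show Δ * D (a * x i) + G.mulVec (a • x) i =
        a * (Δ * D (x i) + G.mulVec x i) + (Δ * D a) * x i
      rw [Derivation.leibniz, Matrix.mulVec_smul, Pi.smul_apply, smul_eq_mul, smul_eq_mul,
        smul_eq_mul]
      ring
    rw [h1]
    refine W.add_mem (W.smul_mem _ hx) (W.smul_mem _ ?_)
    rw [hs]
    exact hx0

private theorem isofam_basis {E : Type*} [Field E] (D : Derivation ℤ E E) (Δ : E)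
    (G : Matrix (γ ⊕ γ) (γ ⊕ γ) E) (W : Submodule E (γ ⊕ γ → E)) {r : ℕ}
    (hr : Module.finrank E W = r) (hiso : ∀ u ∈ W, ∀ v ∈ W, BB (J0 E γ) u v = 0)
    (hst : ∀ u ∈ W, nab D Δ G u ∈ W) (c : γ → E) (i₀ : γ) (hc : c i₀ ≠ 0)
    (hcW : Sum.elim c 0 ∈ W) :
    ∃ (w : Fin r → γ ⊕ γ → E) (M : Fin r → Fin r → E) (lam : Fin r → E) (c' : γ → E),
      (∀ i j, BB (J0 E γ) (w i) (w j) = 0) ∧
      (∀ j, nab D Δ G (w j) = ∑ i, M i j • w i) ∧
      Sum.elim c' 0 = ∑ j, lam j • w j ∧ c' i₀ = 1 := by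
  obtain ⟨b⟩ : Nonempty (Module.Basis (Fin r) E W) := ⟨Module.finBasisOfFinrankEq E W hr⟩
  have hrep : ∀ x : W, (x : γ ⊕ γ → E) = ∑ i, b.repr x i • (b i : γ ⊕ γ → E) := by
    intro x
    have h1 := congrArg (fun z : W => (z : γ ⊕ γ → E)) (b.sum_repr x)
    refine h1.symm.trans ?_
    show ((∑ i, b.repr x i • b i : W) : γ ⊕ γ → E) = _
    rw [Submodule.coe_sum]
    rfl
  refine ⟨fun j => (b j : γ ⊕ γ → E), fun i j => b.repr ⟨nab D Δ G (b j), hst _ (b j).2⟩ i,
    fun j => b.repr ((c i₀)⁻¹ • ⟨Sum.elim c 0, hcW⟩) j, (c i₀)⁻¹ • c,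
    fun i j => hiso _ (b i).2 _ (b j).2, ?_, ?_, ?_⟩
  · intro j
    exact hrep ⟨nab D Δ G (b j), hst _ (b j).2⟩
  · refine Eq.trans ?_ (hrep ((c i₀)⁻¹ • ⟨Sum.elim c 0, hcW⟩))
    funext i
    show Sum.elim ((c i₀)⁻¹ • c) 0 i = (c i₀)⁻¹ * (Sum.elim c (0 : γ → E) i)
    rcases i with i | i
    · rfl
    · show (0 : E) = (c i₀)⁻¹ * 0
      rw [mul_zero]
  · show (c i₀)⁻¹ * c i₀ = 1
    exact inv_mul_cancel₀ hc

end isofam

private theorem isofam_core {A : Type u} [CommRing A] [IsDomain A] [CharZero A] {γ : Type}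
    [Fintype γ] [DecidableEq γ] (Δ : A[X]) (hΔ : Δ ≠ 0) (G : Matrix (γ ⊕ γ) (γ ⊕ γ) A[X])
    (hflat : G.transpose * J0 A[X] γ + J0 A[X] γ * G = 0)
    (hloc : ∀ a : AlgebraicClosure (FractionRing A),
      ∃ (Γ : Matrix (γ ⊕ γ) (γ ⊕ γ) (PowerSeries (AlgebraicClosure (FractionRing A))))
        (d l : γ ⊕ γ → AlgebraicClosure (FractionRing A)),
      (∀ i j, pl (FractionRing A) a (Δ.map (algebraMap A (FractionRing A))) * Γ i j =
        PowerSeries.X * pl (FractionRing A) a ((G i j).map (algebraMap A (FractionRing A)))) ∧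
      ∀ i j, PowerSeries.constantCoeff (Γ i j) = d i * l j)
    (hhor : ∀ v : γ ⊕ γ → A[X], (∀ i, Δ * derivative (v i) + G.mulVec v i = 0) → v = 0)
    (hnil : ∀ b : A, b ≠ 0 → ∃ (κ : Type u) (_ : Field κ) (ψ : A →+* κ)
      (DK : RatFunc κ → RatFunc κ) (M : ℕ), ψ b ≠ 0 ∧ IsDer DK ∧
      (∀ p : κ[X], DK (pol p) = pol (derivative p)) ∧
      ∀ c, (nb DK (fp ψ Δ) (G.map (fp ψ)))^[M] c = 0)
    {P : Type} [Infinite P] (K : P → Type u) [∀ p, Field (K p)] (φ : ∀ p, A[X] →+* K p)
    (DK : ∀ p, Derivation ℤ (K p) (K p)) (hDK : ∀ p x, DK p (φ p x) = φ p (derivative x))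
    (hfin : ∀ a : A[X], a ≠ 0 → {p | φ p a = 0}.Finite) {r : ℕ} (i₀ : γ)
    (hbas : ∀ p, ∃ (w : Fin r → γ ⊕ γ → K p) (M : Fin r → Fin r → K p) (lam : Fin r → K p)
      (c' : γ → K p), (∀ i j, BB (J0 (K p) γ) (w i) (w j) = 0) ∧
      (∀ j, nab (DK p) (φ p Δ) (G.map (φ p)) (w j) = ∑ i, M i j • w i) ∧
      Sum.elim c' 0 = ∑ j, lam j • w j ∧ c' i₀ = 1) : False := by
  choose w M lam c hiso hst hlam hc using hbas
  obtain ⟨L, hL, π, DL, hDL, hfinL⟩ := exists_ultra K DK
  obtain ⟨θ, hθdef⟩ : ∃ θ : A[X] →+* L, θ = π.comp (RingHom.pi φ) := ⟨_, rfl⟩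
  have hθa : ∀ x, θ x = π (fun p => φ p x) := by
    intro x
    rw [hθdef]
    rfl
  have hθ : Function.Injective θ := by
    rw [injective_iff_map_eq_zero]
    intro a ha
    by_contra h
    rw [hθa] at ha
    exact hfinL _ (hfin a h) ha
  have hDθ : ∀ x, DL (θ x) = θ (derivative x) := by
    intro x
    rw [hθa, hDL, hθa]
    congr 1
    funext p
    exact hDK p x
  have hck : CharZero (FractionRing A) :=
    charZero_of_injective_algebraMap (IsFractionRing.injective A (FractionRing A))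
  obtain ⟨ψL, hψinj, hψA, hDψ⟩ := isofam_ext θ hθ DL hDθ
  have hinj : Function.Injective (algebraMap A (FractionRing A)) :=
    IsFractionRing.injective A (FractionRing A)
  have hψA' : ∀ x : A[X], ψL (mapRingHom (algebraMap A (FractionRing A)) x) =
      π (fun p => φ p x) := by
    intro x
    rw [coe_mapRingHom, hψA, hθa]
  have hψA2 : ∀ x : A[X], ψL (x.map (algebraMap A (FractionRing A))) =
      π (fun p => φ p x) := by
    intro x
    rw [hψA, hθa]
  obtain ⟨wL, hwL⟩ : ∃ wL : Fin r → γ ⊕ γ → L, wL = fun j i => π (fun p => w p j i) := ⟨_, rfl⟩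
  have hisoL : ∀ i j, BB (J0 L γ) (wL i) (wL j) = 0 := by
    intro i j
    rw [hwL]
    have h1 : BB (J0 L γ) (fun i' => π (fun p => w p i i')) (fun i' => π (fun p => w p j i')) =
        π (∑ l, (fun p => w p i l) * ∑ s, (fun p => J0 (K p) γ l s) * (fun p => w p j s)) := by
      rw [map_sum]
      show (∑ l, π (fun p => w p i l) * ∑ s, J0 L γ l s * π (fun p => w p j s)) = _
      refine Finset.sum_congr rfl fun l _ => ?_
      rw [map_mul, map_sum]
      congr 1
      refine Finset.sum_congr rfl fun s _ => ?_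
      rw [map_mul, isofam_J0_pi π]
    have h2 : (∑ l, (fun p => w p i l) * ∑ s, (fun p => J0 (K p) γ l s) *
        (fun p => w p j s) : ∀ p, K p) = 0 := by
      funext p
      rw [Finset.sum_apply]
      have h3 : ∑ l, w p i l * ∑ s, J0 (K p) γ l s * w p j s = 0 := hiso p i j
      refine (Finset.sum_congr rfl fun l _ => ?_).trans h3
      rw [Pi.mul_apply, Finset.sum_apply]
      rfl
    exact h1.trans (by rw [h2, map_zero])
  have hstL : ∀ j, nab DL (ψL (Δ.map (algebraMap A (FractionRing A))))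
      ((G.map (mapRingHom (algebraMap A (FractionRing A)))).map ψL) (wL j) =
      ∑ i, π (fun p => M p i j) • wL i := by
    intro j
    rw [hwL]
    funext l
    have h1 : nab DL (ψL (Δ.map (algebraMap A (FractionRing A))))
        ((G.map (mapRingHom (algebraMap A (FractionRing A)))).map ψL)
        (fun i' => π (fun p => w p j i')) l =
        π ((fun p => φ p Δ) * (fun p => DK p (w p j l)) +
          ∑ s, (fun p => φ p (G l s)) * (fun p => w p j s)) := by
      rw [map_add, map_mul, map_sum, ← hψA2, ← hDL]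
      show _ + (∑ s, ψL (mapRingHom (algebraMap A (FractionRing A)) (G l s)) *
        π (fun p => w p j s)) = _
      congr 1
      refine Finset.sum_congr rfl fun s _ => ?_
      rw [map_mul, ← hψA']
    have h2 : ((fun p => φ p Δ) * (fun p => DK p (w p j l)) +
          ∑ s, (fun p => φ p (G l s)) * (fun p => w p j s) : ∀ p, K p) =
        ∑ i, (fun p => M p i j) * (fun p => w p i l) := by
      funext p
      have h3 := congrFun (hst p j) l
      rw [Finset.sum_apply] at h3
      rw [Pi.add_apply, Finset.sum_apply, Finset.sum_apply]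
      exact h3
    refine h1.trans ?_
    rw [h2, map_sum, Finset.sum_apply]
    refine Finset.sum_congr rfl fun i _ => ?_
    rw [map_mul]
    rfl
  refine global_iso (k := FractionRing A) (F := AlgebraicClosure (FractionRing A))
    (Δ.map (algebraMap A (FractionRing A))) ?_ (G.map (mapRingHom (algebraMap A (FractionRing A))))
    ?_ ?_ ?_ ψL hψinj DL hDψ (Submodule.span L (Set.range wL)) (isofam_BB _ wL hisoL) ?_ ?_
  · intro h0
    rw [Polynomial.map_eq_zero_iff hinj] at h0
    exact hΔ h0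
  · have h1 := congrArg (fun B : Matrix (γ ⊕ γ) (γ ⊕ γ) A[X] =>
      B.map (mapRingHom (algebraMap A (FractionRing A)))) hflat
    have h2 : (G.transpose * J0 A[X] γ + J0 A[X] γ * G).map
        (mapRingHom (algebraMap A (FractionRing A))) =
        (G.map (mapRingHom (algebraMap A (FractionRing A)))).transpose *
          J0 (FractionRing A)[X] γ + J0 (FractionRing A)[X] γ *
          G.map (mapRingHom (algebraMap A (FractionRing A))) := by
      rw [Matrix.map_add _ (map_add _), Matrix.map_mul, Matrix.map_mul, isofam_J0_map,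
        Matrix.transpose_map]
    refine h2.symm.trans (h1.trans ?_)
    exact Matrix.map_zero _ (map_zero _)
  · intro a
    obtain ⟨Γ, d, l, h1, h2⟩ := hloc a
    exact ⟨Γ, d, l, fun i j => h1 i j, h2⟩
  · intro U hU
    exact hinf_of Δ hΔ G hnil hhor U hU
  · refine isofam_nab DL _ _ _ (Set.range wL) rfl ?_
    rintro _ ⟨j, rfl⟩
    rw [hstL j]
    exact Submodule.sum_mem _ fun i _ => Submodule.smul_mem _ _
      (Submodule.subset_span (Set.mem_range_self i))
  · refine ⟨fun i => π (fun p => c p i), ?_, ?_⟩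
    · intro h0
      have h1 := congrFun h0 i₀
      have h2 : (fun p => c p i₀) = (1 : ∀ p, K p) := by
        funext p
        exact hc p
      have h3 : π (fun p => c p i₀) = 0 := h1
      rw [h2, map_one] at h3
      exact one_ne_zero h3
    · have h1 : Sum.elim (fun i => π (fun p => c p i)) (0 : γ → L) =
          ∑ j, π (fun p => lam p j) • wL j := by
        rw [hwL]
        funext l
        have h2 : (fun p => Sum.elim (c p) (0 : γ → K p) l) =
            ∑ j, (fun p => lam p j) * (fun p => w p j l) := by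
          funext p
          have h3 := congrFun (hlam p) l
          rw [Finset.sum_apply] at h3
          rw [Finset.sum_apply]
          exact h3
        have h4 : Sum.elim (fun i => π (fun p => c p i)) (0 : γ → L) l =
            π (fun p => Sum.elim (c p) (0 : γ → K p) l) := by
          rcases l with l | l
          · rfl
          · show (0 : L) = π 0
            rw [map_zero]
        rw [h4, h2, map_sum, Finset.sum_apply]
        refine Finset.sum_congr rfl fun i _ => ?_
        rw [map_mul]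
        rfl
      rw [h1]
      exact Submodule.sum_mem _ fun i _ => Submodule.smul_mem _ _
        (Submodule.subset_span (Set.mem_range_self i))

theorem no_isotropic_family {A : Type u} [CommRing A] [IsDomain A] [CharZero A] {γ : Type}
    [Fintype γ] [DecidableEq γ] (Δ : A[X]) (hΔ : Δ ≠ 0) (G : Matrix (γ ⊕ γ) (γ ⊕ γ) A[X])
    (hflat : G.transpose * J0 A[X] γ + J0 A[X] γ * G = 0)
    (hloc : ∀ a : AlgebraicClosure (FractionRing A),
      ∃ (Γ : Matrix (γ ⊕ γ) (γ ⊕ γ) (PowerSeries (AlgebraicClosure (FractionRing A))))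
        (d l : γ ⊕ γ → AlgebraicClosure (FractionRing A)),
      (∀ i j, pl (FractionRing A) a (Δ.map (algebraMap A (FractionRing A))) * Γ i j =
        PowerSeries.X * pl (FractionRing A) a ((G i j).map (algebraMap A (FractionRing A)))) ∧
      ∀ i j, PowerSeries.constantCoeff (Γ i j) = d i * l j)
    (hhor : ∀ v : γ ⊕ γ → A[X], (∀ i, Δ * derivative (v i) + G.mulVec v i = 0) → v = 0)
    (hnil : ∀ b : A, b ≠ 0 → ∃ (κ : Type u) (_ : Field κ) (ψ : A →+* κ)
      (DK : RatFunc κ → RatFunc κ) (M : ℕ), ψ b ≠ 0 ∧ IsDer DK ∧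
      (∀ p : κ[X], DK (pol p) = pol (derivative p)) ∧
      ∀ c, (nb DK (fp ψ Δ) (G.map (fp ψ)))^[M] c = 0)
    {P : Type} [Infinite P] (K : P → Type u) [∀ p, Field (K p)] (φ : ∀ p, A[X] →+* K p)
    (DK : ∀ p, Derivation ℤ (K p) (K p)) (hDK : ∀ p x, DK p (φ p x) = φ p (derivative x))
    (hfin : ∀ a : A[X], a ≠ 0 → {p | φ p a = 0}.Finite)
    (W : ∀ p, Submodule (K p) (γ ⊕ γ → K p))
    (hiso : ∀ p, ∀ u ∈ W p, ∀ v ∈ W p, BB (J0 (K p) γ) u v = 0)
    (hst : ∀ p, ∀ u ∈ W p, nab (DK p) (φ p Δ) (G.map (φ p)) u ∈ W p)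
    (hF : ∀ p, ∃ c : γ → K p, c ≠ 0 ∧ Sum.elim c 0 ∈ W p) : False := by
  classical
  choose c hc hcW using hF
  have hi : ∀ p, ∃ i, c p i ≠ 0 := fun p => Function.ne_iff.1 (hc p)
  choose i hi using hi
  obtain ⟨N, hN⟩ : ∃ N : ℕ, N = Fintype.card (γ ⊕ γ) := ⟨_, rfl⟩
  have hfr : ∀ p, Module.finrank (K p) (W p) < N + 1 := by
    intro p
    have h1 := Submodule.finrank_le (W p)
    rw [Module.finrank_fintype_fun_eq_card, ← hN] at h1
    exact Nat.lt_succ_of_le h1
  obtain ⟨g, hg⟩ : ∃ g : P → Fin (N + 1) × γ,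
      ∀ p, g p = (⟨Module.finrank (K p) (W p), hfr p⟩, i p) := ⟨_, fun _ => rfl⟩
  obtain ⟨⟨⟨r, hrN⟩, i₀⟩, hy⟩ := Finite.exists_infinite_fiber g
  have hr : ∀ p : ↥(g ⁻¹' {(⟨r, hrN⟩, i₀)}), Module.finrank (K p) (W p) = r := by
    intro p
    have h1 : g p = (⟨r, hrN⟩, i₀) := p.2
    have h3 := (hg p).symm.trans h1
    exact congrArg (fun z : Fin (N + 1) × γ => (z.1 : ℕ)) h3
  have hi₀ : ∀ p : ↥(g ⁻¹' {(⟨r, hrN⟩, i₀)}), c p i₀ ≠ 0 := by
    intro p
    have h1 : g p = (⟨r, hrN⟩, i₀) := p.2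
    have h3 := (hg p).symm.trans h1
    have h2 : i p = i₀ := congrArg (fun z : Fin (N + 1) × γ => z.2) h3
    have h4 : c p (i p) = c p i₀ := congrArg (c p) h2
    have h5 := hi p
    rw [h4] at h5
    exact h5
  have hbas := fun p : ↥(g ⁻¹' {(⟨r, hrN⟩, i₀)}) => isofam_basis (DK p) (φ p Δ) (G.map (φ p)) (W p)
    (hr p) (hiso p) (hst p) (c p) i₀ (hi₀ p) (hcW p)
  have hfin' : ∀ a : A[X], a ≠ 0 →
      {p : ↥(g ⁻¹' {(⟨r, hrN⟩, i₀)}) | φ p a = 0}.Finite := by
    intro a ha
    exact (hfin a ha).preimage Subtype.val_injective.injOn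
  have hDK' : ∀ (p : ↥(g ⁻¹' {(⟨r, hrN⟩, i₀)})) (x : A[X]), DK p (φ p x) = φ p (derivative x) :=
    fun p x => hDK p x
  exact isofam_core Δ hΔ G hflat hloc hhor hnil (fun p : ↥(g ⁻¹' {(⟨r, hrN⟩, i₀)}) => K p)
    (fun p => φ p) (fun p => DK p) hDK' hfin' i₀ hbas

end MPadcLF
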