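import Mathlib

/-!
# Minors of maximal rank
-/

set_option autoImplicit false

namespace MPadcLF

universe u

private theorem Minor_span {K : Type*} [Field K] {ι : Type} [Fintype ι] [DecidableEq ι]
    {ρ : Type} (L : Matrix ρ ι K) (h : ∀ c : ι → K, L.mulVec c = 0 → c = 0) :
    Submodule.span K (Set.range fun i => L i) = ⊤ := by
  by_contra hne
  obtain ⟨f, hf, hle⟩ := Submodule.exists_le_ker_of_lt_top _ (lt_top_iff_ne_top.2 hne)
  apply hf
  have h1 : (fun j => f (Pi.single j 1)) = 0 := by
    apply h
    ext i
    have h2 : f (L i) = 0 := hle (Submodule.subset_span ⟨i, rfl⟩)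
    have h3 : L i = ∑ j, L i j • (Pi.single j (1 : K) : ι → K) := by
      ext j'
      rw [Finset.sum_apply]
      simp [Pi.single_apply]
    rw [h3, map_sum] at h2
    simp only [map_smul, smul_eq_mul] at h2
    exact h2
  ext j
  exact congrFun h1 j

/-- Either the linear system `L.map φ` over the field `K` has a nonzero solution, or some maximal
minor `g` does not vanish in `K`, and then the system has no nonzero solution over any field where
`g` does not vanish. -/
theorem exists_minor {R : Type*} [CommRing R] {ρ ι : Type} [Fintype ι] [DecidableEq ι]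
    (L : Matrix ρ ι R) {K : Type*} [Field K] (φ : R →+* K) :
    (∃ c : ι → K, c ≠ 0 ∧ (L.map φ).mulVec c = 0) ∨
      ∃ g : R, φ g ≠ 0 ∧ ∀ (κ : Type u) [Field κ] (ψ : R →+* κ), ψ g ≠ 0 →
        ∀ c : ι → κ, (L.map ψ).mulVec c = 0 → c = 0 := by
  by_cases h : ∀ c : ι → K, (L.map φ).mulVec c = 0 → c = 0
  · right
    have hspan := Minor_span (L.map φ) h
    obtain ⟨b, hb, hsb, hli⟩ := exists_linearIndependent K (Set.range fun i => (L.map φ) i)
    rw [hspan] at hsb
    let B : Module.Basis b K (ι → K) := Module.Basis.mk hli (by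
      rw [Subtype.range_coe, hsb])
    have hcard : Nonempty (ι ≃ b) := ⟨(Pi.basisFun K ι).indexEquiv B⟩
    obtain ⟨e⟩ := hcard
    have hex : ∀ i : ι, ∃ r : ρ, (L.map φ) r = (e i : ι → K) := fun i => by
      obtain ⟨r, hr⟩ := hb (e i).2
      exact ⟨r, hr⟩
    choose f hf using hex
    have hrow : LinearIndependent K fun i => ((L.submatrix f id).map φ) i := by
      have h1 : (fun i => ((L.submatrix f id).map φ) i) = fun i => ((e i : b) : ι → K) := by
        funext i
        rw [← hf i]
        rfl
      rw [h1]
      exact hli.comp e e.injective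
    have hunit := Matrix.linearIndependent_rows_iff_isUnit.1 hrow
    refine ⟨(L.submatrix f id).det, ?_, ?_⟩
    · have h2 : φ (L.submatrix f id).det = ((L.submatrix f id).map φ).det := by
        rw [RingHom.map_det]
        rfl
      rw [h2]
      exact ((Matrix.isUnit_iff_isUnit_det _).1 hunit).ne_zero
    · intro κ _ ψ hψ c hc
      have h2 : ((L.submatrix f id).map ψ).det ≠ 0 := by
        have h3 : ψ (L.submatrix f id).det = ((L.submatrix f id).map ψ).det := by
          rw [RingHom.map_det]
          rfl
        rw [← h3]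
        exact hψ
      apply Matrix.eq_zero_of_mulVec_eq_zero h2
      ext i
      exact congrFun hc (f i)
  · left
    push Not at h
    obtain ⟨c, hc, hc0⟩ := h
    exact ⟨c, hc0, hc⟩

end MPadcLF
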