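import Pool.Agent.Lib.MP_adc574_ag_LF.Fiber
import Pool.Agent.Lib.MP_adc574_ag_LF.IsoFam
import Pool.Agent.Lib.MP_adc574_ag_LF.Hlin
import Pool.Agent.Lib.MP_adc574_ag_LF.Minor

/-!
# Generic ordinarity modulo all large primes
-/

set_option autoImplicit false

namespace MPadcLF

open Polynomial MPadcCov

universe u

section

variable {A : Type u} [CommRing A] [IsDomain A] [CharZero A] [Algebra.FiniteType ℤ A] {w n : ℕ}
  (hn : 0 < n) (hw : 0 < w) {F : A[X][X][X]}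
  (hF : Wt w n F) {η : IX w n → A[X][X][X]} (hB : HB w n F η) {Δ c₀ c₁ β : A[X]}
  (hΔ : Δ ≠ 0) (hc₀ : c₀ ≠ 0) (hc₁ : c₁ ≠ 0) (hβ : β ≠ 0)
  {G : Matrix (IX w n) (IX w n) A[X]} (hG : IsGM (fun q : A[X] => derivative q) Δ F η G)
  (hflat : G.transpose * J0 A[X] (Gx w n) + J0 A[X] (Gx w n) * G = 0)
  (hS : Sm F c₀) (hT : Tp w n F c₁)
  (hirr : ∀ (κ : Type u) [Field κ] (ψ : A[X] →+* κ), ψ β ≠ 0 →
    Irreducible ((mp ψ F).map (algebraMap κ[X] (RatFunc κ))))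
  (hloc : ∀ a : AlgebraicClosure (FractionRing A),
    ∃ (Γ : Matrix (IX w n) (IX w n) (PowerSeries (AlgebraicClosure (FractionRing A))))
      (d l : IX w n → AlgebraicClosure (FractionRing A)),
      (∀ i j, MPadcLP.pl (FractionRing A) a (Δ.map (algebraMap A (FractionRing A))) * Γ i j =
        PowerSeries.X *
          MPadcLP.pl (FractionRing A) a ((G i j).map (algebraMap A (FractionRing A)))) ∧
      ∀ i j, PowerSeries.constantCoeff (Γ i j) = d i * l j)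
  (hhor : ∀ v : IX w n → A[X], (∀ i, Δ * derivative (v i) + G.mulVec v i = 0) → v = 0)

include hn hw hF hB hΔ hc₀ hc₁ hβ hG hflat hS hT hirr hloc hhor in
/-- For all large primes `p` there is a prime `P` of `A` over `p` such that the linear system for the
exact regular forms has a nonzero maximal minor modulo `P[t]`. -/
theorem core (b : A[X]) (hb : b ≠ 0) :
    ∃ p₀ : ℕ, ∀ p : ℕ, p₀ ≤ p → p.Prime → ∃ P : Ideal A, P.IsPrime ∧ (p : A) ∈ P ∧
      b.map (Ideal.Quotient.mk P) ≠ 0 ∧ ∃ g : A[X], g.map (Ideal.Quotient.mk P) ≠ 0 ∧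
        ∀ (κ : Type u) [Field κ] (ψ : A[X] →+* κ), ψ g ≠ 0 → ∀ c : Gx w n → κ,
          hrec (mp ψ F) (fo (mp ψ F) c) (p - 1) = 0 → c = 0 := by
  classical
  by_contra hcon
  push Not at hcon
  obtain ⟨N₁, Pf, hPf, hfinP⟩ := MPadcLP.exists_primes_family A
  have hcoef : ∀ q : A[X], q ≠ 0 → ∃ i, q.coeff i ≠ 0 := by
    intro q hq
    by_contra h
    push Not at h
    exact hq (Polynomial.ext (by simpa using h))
  -- a bound for every nonzero polynomial
  have hbound : ∀ q : A[X], q ≠ 0 → ∃ M : ℕ, N₁ ≤ M ∧ ∀ p : ℕ, p.Prime → M < p →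
      q.map (Ideal.Quotient.mk (Pf p)) ≠ 0 := by
    intro q hq
    obtain ⟨i, hi⟩ := hcoef q hq
    obtain ⟨M, hM⟩ := (hfinP _ hi).bddAbove
    refine ⟨M + N₁, by omega, fun p hp hMp h => ?_⟩
    have h1 := congrArg (fun r => r.coeff i) h
    simp only [coeff_map, coeff_zero] at h1
    have h2 := hM (show p ∈ {p : ℕ | p.Prime ∧ N₁ < p ∧ q.coeff i ∈ Pf p} from
      ⟨hp, by omega, Ideal.Quotient.eq_zero_iff_mem.1 h1⟩)
    omega
  have hprod : b * (c₀ * c₁ * Δ * β) ≠ 0 :=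
    mul_ne_zero hb (mul_ne_zero (mul_ne_zero (mul_ne_zero hc₀ hc₁) hΔ) hβ)
  obtain ⟨N₂, hN₁₂, hN₂⟩ := hbound _ hprod
  -- the infinite set of bad primes
  let S : Set ℕ := {p | p.Prime ∧ N₂ < p ∧ ∀ P : Ideal A, P.IsPrime → (p : A) ∈ P →
    b.map (Ideal.Quotient.mk P) ≠ 0 → ∀ g : A[X], g.map (Ideal.Quotient.mk P) ≠ 0 →
      ∃ (κ : Type u) (_ : Field κ) (ψ : A[X] →+* κ), ψ g ≠ 0 ∧ ∃ c : Gx w n → κ,
        hrec (mp ψ F) (fo (mp ψ F) c) (p - 1) = 0 ∧ c ≠ 0}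
  have hSinf : S.Infinite := by
    apply Set.infinite_of_forall_exists_gt
    intro a
    obtain ⟨p, hp, hprime, hbad⟩ := hcon (a + N₂ + 1)
    refine ⟨p, ⟨hprime, by omega, ?_⟩, by omega⟩
    intro P hP hpP hbP g hg
    obtain ⟨κ, iκ, ψ, hψ, c, hc, hc0⟩ := hbad P hP hpP hbP g hg
    exact ⟨κ, iκ, ψ, hψ, c, hc, hc0⟩
  have hinf : Infinite S := Set.infinite_coe_iff.2 hSinf
  have hfact : ∀ p : S, Fact p.1.Prime := fun p => ⟨p.2.1⟩
  -- the data for the bad primes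
  have hdata : ∀ p : S, ∃ (κ : Type u) (_ : Field κ) (ψ : A →+* κ)
      (δ : MPadcLP.Der (RatFunc κ)), RingHom.ker ψ = Pf p.1 ∧
      (∀ q : κ[X], δ (algebraMap κ[X] (RatFunc κ) q) =
        algebraMap κ[X] (RatFunc κ) (derivative q)) ∧
      ∃ W : Submodule (RatFunc κ) (IX w n → RatFunc κ),
        (∀ u ∈ W, ∀ v ∈ W, MPadcLP.BB (J0 (RatFunc κ) (Gx w n)) u v = 0) ∧
        (∀ u ∈ W, MPadcLP.nab δ (fp ψ Δ) (G.map (fp ψ)) u ∈ W) ∧
        ∃ c : Gx w n → RatFunc κ, c ≠ 0 ∧ Sum.elim c 0 ∈ W := by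
    intro p
    have hp1 := p.2.1
    have hp2 := p.2.2.1
    have hp3 := p.2.2.2
    have hpf := hfact p
    obtain ⟨hPp, hpP⟩ := hPf p.1 hp1 (by omega)
    have hne := hN₂ p.1 hp1 hp2
    rw [Polynomial.map_mul] at hne
    have hne1 : b.map (Ideal.Quotient.mk (Pf p.1)) ≠ 0 := left_ne_zero_of_mul hne
    have hne2 := right_ne_zero_of_mul hne
    obtain ⟨κ, iκ, ψ, δ, hker, hδ, hδpol, hnil, W, hWi, hWs, hWc⟩ :=
      fiber hn hw hF hB hG hflat hS hT hirr (Pf p.1) p.1 hpP hne2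
    refine ⟨κ, iκ, ψ, δ, hker, hδpol, W, hWi, hWs, ?_⟩
    rcases exists_minor.{u} (HM (w := w) (n := n) F (p.1 - 1)) (fp ψ) with
      ⟨c, hc0, hc⟩ | ⟨g, hg, hg2⟩
    · exact ⟨c, hc0, hWc c ((hrec_fo_eq_zero_iff hF.monic (fp ψ) (p.1 - 1) c).2 hc)⟩
    · exfalso
      have hgP : g.map (Ideal.Quotient.mk (Pf p.1)) ≠ 0 := by
        intro h
        apply hg
        have h1 : g.map ψ = 0 := by
          ext i
          have h2 := congrArg (fun q => q.coeff i) h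
          simp only [coeff_map, coeff_zero] at h2
          rw [Ideal.Quotient.eq_zero_iff_mem, ← hker] at h2
          rw [coeff_map, coeff_zero]
          exact h2
        change algebraMap κ[X] (RatFunc κ) (g.map ψ) = 0
        rw [h1, map_zero]
      obtain ⟨κ', iκ', ψ', hψ', c, hc, hc0⟩ := hp3 (Pf p.1) hPp hpP hne1 g hgP
      exact hc0 (hg2 κ' ψ' hψ' c ((hrec_fo_eq_zero_iff hF.monic ψ' (p.1 - 1) c).1 hc))
  choose κ iκ ψ δ hker hδpol W hWi hWs hWc using hdata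
  have hcomm : ∀ (p : S) (q : A[X]), δ p (fp (ψ p) q) = fp (ψ p) (derivative q) := by
    intro p q
    change δ p (algebraMap (κ p)[X] (RatFunc (κ p)) (q.map (ψ p))) =
      algebraMap (κ p)[X] (RatFunc (κ p)) ((derivative q).map (ψ p))
    rw [hδpol, derivative_map]
  refine no_isotropic_family Δ hΔ G hflat hloc hhor ?_ (P := S) (fun p => RatFunc (κ p))
    (fun p => fp (ψ p)) δ hcomm ?_ W hWi hWs hWc
  · intro b' hb'
    obtain ⟨M, hM1, hM⟩ := hbound (C b' * (c₀ * c₁ * Δ * β))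
      (mul_ne_zero (C_ne_zero.2 hb') (right_ne_zero_of_mul hprod))
    obtain ⟨p, hpM, hp⟩ := Nat.exists_infinite_primes (M + 1)
    have hpf : Fact p.Prime := ⟨hp⟩
    obtain ⟨hPp, hpP⟩ := hPf p hp (by omega)
    have hne := hM p hp (by omega)
    rw [Polynomial.map_mul] at hne
    have hne1 := left_ne_zero_of_mul hne
    have hne2 := right_ne_zero_of_mul hne
    obtain ⟨κ₁, iκ₁, ψ₁, δ₁, hker₁, hδ₁, hδpol₁, hnil₁, -⟩ :=
      fiber hn hw hF hB hG hflat hS hT hirr (Pf p) p hpP hne2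
    refine ⟨κ₁, iκ₁, ψ₁, fun x => δ₁ x, 2 * p, ?_, hδ₁, hδpol₁, hnil₁⟩
    intro h
    apply hne1
    rw [map_C, C_eq_zero, Ideal.Quotient.eq_zero_iff_mem, ← hker₁]
    exact h
  · intro a ha
    obtain ⟨M, hM1, hM⟩ := hbound a ha
    refine ((Set.finite_Iic M).preimage (f := fun p : S => p.1)
      Subtype.val_injective.injOn).subset ?_
    intro p hp
    change p.1 ≤ M
    by_contra hlt
    apply hM p.1 p.2.1 (by omega)
    have h1 : a.map (ψ p) = 0 := by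
      apply RatFunc.algebraMap_injective (κ p)
      rw [map_zero]
      exact hp
    ext i
    have h2 := congrArg (fun q => q.coeff i) h1
    simp only [coeff_map, coeff_zero] at h2
    rw [coeff_map, coeff_zero, Ideal.Quotient.eq_zero_iff_mem, ← hker]
    exact h2

end

end MPadcLF
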