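import Mathlib

/-!
# JOB Cspan: stable subspaces are spanned by constant vectors

Paper 5.1. `circuit`: among the nonzero vectors of `V` with support contained in the support of a given nonzero
`v ∈ V` take one, `c`, with support of minimal cardinality; scale it so that `c i = 1` for some `i`. Then
`D c ∈ V` has support strictly contained in the support of `c` (`D 1 = 0`, `D 0 = 0`), so `D c = 0`.
`span_const`: `⊇` is clear. `⊆`: strong induction on the cardinality of the support of `v ∈ V`: take a
circuit `c` with support in the support of `v`, and `i` with `c i = 1`; `v - v i • c` has smaller support.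
-/

set_option autoImplicit false

namespace MPadcLF

open Classical in
private theorem cspan_circuit {L : Type*} [Field L] {ι : Type*} [Fintype ι]
    (D : Derivation ℤ L L) (V : Submodule L (ι → L)) (hV : ∀ v ∈ V, (fun i => D (v i)) ∈ V) (k : ℕ) :
    ∀ v ∈ V, v ≠ 0 → (Finset.univ.filter fun i => v i ≠ 0).card ≤ k →
      ∃ c ∈ V, (∀ j, v j = 0 → c j = 0) ∧ (∃ i, c i = 1) ∧ ∀ j, D (c j) = 0 := by
  induction k with
  | zero =>
    intro v _ hv0 hk
    exfalso
    apply hv0
    have h1 := Finset.card_eq_zero.1 (Nat.le_zero.1 hk)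
    funext i
    by_contra h2
    have h3 : i ∈ (Finset.univ.filter fun i => v i ≠ 0) := Finset.mem_filter.2 ⟨Finset.mem_univ i, h2⟩
    rw [h1] at h3
    exact absurd h3 (Finset.notMem_empty i)
  | succ k ih =>
    intro v hv hv0 hk
    obtain ⟨i, hi⟩ := Function.ne_iff.1 hv0
    rw [Pi.zero_apply] at hi
    have hwV : (v i)⁻¹ • v ∈ V := V.smul_mem _ hv
    have hw1 : ((v i)⁻¹ • v) i = 1 := inv_mul_cancel₀ hi
    have hw0 : ∀ j, v j = 0 → ((v i)⁻¹ • v) j = 0 := by
      intro j hj
      rw [Pi.smul_apply, hj, smul_zero]
    have hDV := hV _ hwV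
    by_cases h0 : (fun j => D (((v i)⁻¹ • v) j)) = 0
    · exact ⟨_, hwV, hw0, ⟨i, hw1⟩, fun j => congrFun h0 j⟩
    · have hlt : (Finset.univ.filter fun j => D (((v i)⁻¹ • v) j) ≠ 0).card ≤ k := by
        have h1 : (Finset.univ.filter fun j => D (((v i)⁻¹ • v) j) ≠ 0) ⊂
            (Finset.univ.filter fun i => v i ≠ 0) := by
          rw [Finset.ssubset_iff_of_subset]
          · refine ⟨i, Finset.mem_filter.2 ⟨Finset.mem_univ i, hi⟩, ?_⟩
            rw [Finset.mem_filter, hw1, D.map_one_eq_zero]
            exact fun h => h.2 rfl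
          · intro j hj
            rw [Finset.mem_filter] at hj ⊢
            refine ⟨hj.1, fun h2 => hj.2 ?_⟩
            rw [hw0 j h2, map_zero]
        have h2 := Finset.card_lt_card h1
        omega
      obtain ⟨c, hc, hc0, hc1, hc2⟩ := ih _ hDV h0 hlt
      refine ⟨c, hc, fun j hj => hc0 j ?_, hc1, hc2⟩
      show D (((v i)⁻¹ • v) j) = 0
      rw [hw0 j hj, map_zero]

theorem span_const {L : Type*} [Field L] {ι : Type*} [Fintype ι] [DecidableEq ι]
    (D : Derivation ℤ L L) (V : Submodule L (ι → L)) (hV : ∀ v ∈ V, (fun i => D (v i)) ∈ V) :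
    V = Submodule.span L {v | v ∈ V ∧ ∀ i, D (v i) = 0} := by
  classical
  apply le_antisymm
  · have key : ∀ k : ℕ, ∀ v ∈ V, (Finset.univ.filter fun i => v i ≠ 0).card ≤ k →
        v ∈ Submodule.span L {v | v ∈ V ∧ ∀ i, D (v i) = 0} := by
      intro k
      induction k with
      | zero =>
        intro v _ hk
        have h1 := Finset.card_eq_zero.1 (Nat.le_zero.1 hk)
        have h2 : v = 0 := by
          funext i
          by_contra h2
          have h3 : i ∈ (Finset.univ.filter fun i => v i ≠ 0) := Finset.mem_filter.2 ⟨Finset.mem_univ i, h2⟩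
          rw [h1] at h3
          exact absurd h3 (Finset.notMem_empty i)
        rw [h2]
        exact Submodule.zero_mem _
      | succ k ih =>
        intro v hv hk
        by_cases hv0 : v = 0
        · rw [hv0]
          exact Submodule.zero_mem _
        obtain ⟨c, hc, hc0, ⟨i, hi⟩, hc2⟩ := cspan_circuit D V hV _ v hv hv0 le_rfl
        have hvi : v i ≠ 0 := by
          intro h1
          rw [hc0 i h1] at hi
          exact zero_ne_one hi
        have hlt : (Finset.univ.filter fun j => (v - v i • c) j ≠ 0).card ≤ k := by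
          have h1 : (Finset.univ.filter fun j => (v - v i • c) j ≠ 0) ⊂
              (Finset.univ.filter fun i => v i ≠ 0) := by
            rw [Finset.ssubset_iff_of_subset]
            · refine ⟨i, Finset.mem_filter.2 ⟨Finset.mem_univ i, hvi⟩, ?_⟩
              rw [Finset.mem_filter, Pi.sub_apply, Pi.smul_apply, hi, smul_eq_mul, mul_one, sub_self]
              exact fun h => h.2 rfl
            · intro j hj
              rw [Finset.mem_filter] at hj ⊢
              refine ⟨hj.1, fun h2 => hj.2 ?_⟩
              rw [Pi.sub_apply, Pi.smul_apply, h2, hc0 j h2, smul_zero, sub_zero]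
          have h2 := Finset.card_lt_card h1
          omega
        have h3 := ih _ (V.sub_mem hv (V.smul_mem (v i) hc)) hlt
        have h4 : v i • c ∈ Submodule.span L {v | v ∈ V ∧ ∀ i, D (v i) = 0} :=
          Submodule.smul_mem _ _ (Submodule.subset_span ⟨hc, hc2⟩)
        have h5 := Submodule.add_mem _ h3 h4
        rw [sub_add_cancel] at h5
        exact h5
    intro v hv
    exact key _ v hv le_rfl
  · rw [Submodule.span_le]
    intro v hv
    exact hv.1

end MPadcLF
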