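import Mathlib
import Pool.Agent.Lib.MP_adc574_ag_Cov.Arr
import Pool.Agent.Lib.MP_adc574_ag_Cov.CoreA
import Pool.Agent.Lib.MP_adc574_ag_LP.Defs

/-!
# Families of curves over the affine line: definitions

`R` is a commutative ring, `R[X][X]` the polynomials in `x` (inner variable) and `Y` (outer variable).
Derivations of rings are plain functions `D : S → S` with `IsDer D`.
-/

set_option autoImplicit false

namespace MPadcLF

open Polynomial MPadcCov

/-- The function `f` is a derivation of the ring `S`. -/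
structure IsDer {S : Type*} [CommRing S] (f : S → S) : Prop where
  add : ∀ a b, f (a + b) = f a + f b
  mul : ∀ a b, f (a * b) = a * f b + b * f a

/-- The polynomial with the function `f` applied to all coefficients (`f 0 = 0`). -/
noncomputable def cm {S : Type*} [CommRing S] (f : S → S) (p : S[X]) : S[X] :=
  p.sum fun n c => monomial n (f c)

section poly

variable {R : Type*} [CommRing R]

/-- The partial derivative with respect to `x`. -/
noncomputable def px (h : R[X][X]) : R[X][X] := cm (fun c => derivative c) h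

/-- The partial derivative with respect to `Y`. -/
noncomputable def py (h : R[X][X]) : R[X][X] := derivative h

/-- The function `D : R → R` applied to all coefficients. -/
noncomputable def pT (D : R → R) (h : R[X][X]) : R[X][X] := cm (cm D) h

/-- The derivation `h ↦ h_x F_Y - h_Y F_x`. -/
noncomputable def br (F h : R[X][X]) : R[X][X] := px h * py F - py h * px F

/-- The constants. -/
noncomputable abbrev cc (r : R) : R[X][X] := C (C r)

/-- The map induced by a homomorphism of the coefficient rings. -/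
noncomputable abbrev mp {R' : Type*} [CommRing R'] (φ : R →+* R') : R[X][X] →+* R'[X][X] :=
  mapRingHom (mapRingHom φ)

/-- The weight (`1` for `x`, `w` for `Y`) of `h` is at most `m`. -/
def WD (w m : ℕ) (h : R[X][X]) : Prop :=
  ∀ j, h.coeff j ≠ 0 → (h.coeff j).natDegree + w * j ≤ m

/-- `F` is monic of degree `n` in `Y` and of weight at most `w n`. -/
structure Wt (w n : ℕ) (F : R[X][X]) : Prop where
  monic : F.Monic
  deg : F.natDegree = n
  wd : WD w (w * n) F

/-- The polynomials `∑ j > i, F j Y ^ (j - 1 - i)`, a dual basis of the powers of `Y`. -/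
noncomputable def bb (F : R[X][X]) (i : ℕ) : R[X][X] := divX^[i + 1] F

/-- The coefficient of `Y ^ (n - 1)` of `h` modulo `F`. -/
noncomputable def tau (F h : R[X][X]) : R[X] := (h %ₘ F).coeff (F.natDegree - 1)

/-- The form at infinity `∑ j, (F j)_(w (n - j)) z ^ j`. -/
noncomputable def topp (w n : ℕ) (F : R[X][X]) : R[X] :=
  ∑ j ∈ Finset.range (n + 1), C ((F.coeff j).coeff (w * (n - j))) * X ^ j

/-- The next form at infinity `∑ j < n, (F j)_(w (n - j) - 1) z ^ j`. -/
noncomputable def subb (w n : ℕ) (F : R[X][X]) : R[X] :=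
  ∑ j ∈ Finset.range n, C ((F.coeff j).coeff (w * (n - j) - 1)) * X ^ j

/-- The certificate of smoothness. -/
def Sm (F : R[X][X]) (c : R) : Prop :=
  ∃ u v z : R[X][X], u * F + v * px F + z * py F = cc c

/-- The certificate of separability of the form at infinity. -/
def Tp (w n : ℕ) (F : R[X][X]) (c : R) : Prop :=
  ∃ u v : R[X], u * topp w n F + v * derivative (topp w n F) = C c

/-- The degrees `w i`. -/
abbrev aa (w n : ℕ) : Fin n → ℕ := fun i => w * i

/-- The index set of the regular forms: the pairs `(i, l)` with `l < w i - 1`. -/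
abbrev Gx (w n : ℕ) : Type := Ix (aa w n)

/-- The index set of the basis of the cohomology. -/
abbrev IX (w n : ℕ) : Type := Gx w n ⊕ Gx w n

/-- `g = x ^ (w n) f`, where `f = x ^ (- l - 1) Y ^ i`. -/
noncomputable def gg {w n : ℕ} (c : Gx w n) : R[X][X] :=
  C (X ^ (w * n - (c.2 : ℕ) - 1)) * X ^ (c.1 : ℕ)

/-- `x ^ (N + 1) F_Y d (g / x ^ N)`. -/
noncomputable def dN (F : R[X][X]) (N : ℕ) (g : R[X][X]) : R[X][X] :=
  C X * br F g - (N : R[X][X]) * g * py F

/-- The residue of `f_c h / F_Y`. -/
noncomputable def tc {w n : ℕ} (F : R[X][X]) (c : Gx w n) (h : R[X][X]) : R :=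
  (tau F (X ^ (c.1 : ℕ) * h)).coeff (c.2 : ℕ)

/-- The residue of `f_c d f_c'`. -/
noncomputable def rc {w n : ℕ} (F : R[X][X]) (c c' : Gx w n) : R :=
  (tau F (X ^ (c.1 : ℕ) * dN F (w * n) (gg c'))).coeff (w * n + 1 + (c.2 : ℕ))

/-- The (numerators of the) basis of the cohomology. -/
structure HB (w n : ℕ) (F : R[X][X]) (η : IX w n → R[X][X]) : Prop where
  phi : ∀ c : Gx w n, η (Sum.inl c) = C (X ^ (c.2 : ℕ)) * bb F c.1
  mm : ∀ c : Gx w n, ∃ k e : R[X][X], WD w (w * (n - 1) + w * n - 1) k ∧
    C (X ^ (w * n + 1)) * η (Sum.inr c) = dN F (w * n) (gg c) + k + e * F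
  jj : ∀ c c' : Gx w n, tc F c (η (Sum.inr c')) - tc F c' (η (Sum.inr c)) + rc F c' c = 0

/-- The symplectic form. -/
def J0 (R : Type*) [CommRing R] (γ : Type) [DecidableEq γ] : Matrix (γ ⊕ γ) (γ ⊕ γ) R :=
  Matrix.fromBlocks 0 (-1) 1 0

/-- `G / Δ` is the matrix of the Gauss–Manin connection of the family `F`. -/
def IsGM {ι : Type} [Fintype ι] (D : R → R) (Δ : R) (F : R[X][X]) (η : ι → R[X][X])
    (G : Matrix ι ι R) : Prop :=
  ∀ a, ∃ α β γ g e : R[X][X], cc Δ * η a * pT D F = α * px F + β * py F + γ * F ∧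
    cc Δ * pT D (η a) - px α - py β - γ = ∑ b, cc (G b a) * η b + br F g + e * F

/-- The value of a polynomial at the point `(x₀, y₀)`. -/
noncomputable def e2 (x₀ y₀ : R) : R[X][X] →+* R :=
  (evalRingHom x₀).comp (evalRingHom (C y₀))

/-- The ideal `(F, F_x, F_Y)`. -/
noncomputable def jac (F : R[X][X]) : Ideal R[X][X] := Ideal.span {F, px F, py F}

/-- The connection `∇ = D + G / Δ` over a field. -/
noncomputable def nb {κ ι : Type*} [Field κ] [Fintype ι] (δ : κ → κ) (Δ : κ) (G : Matrix ι ι κ)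
    (c : ι → κ) : ι → κ :=
  fun a => δ (c a) + Δ⁻¹ * G.mulVec c a

/-- Regularity at infinity is preserved by integration. -/
def PLinf (w n : ℕ) (F : R[X][X]) : Prop :=
  ∀ (N : ℕ) (g k e : R[X][X]), g.natDegree < n → dN F N g = k + e * F →
    WD w (w * (n - 1) + N - 1) k → WD w N g

end poly

section field

variable {κ : Type*} [Field κ] {E : Type*} [CommRing E] [Algebra (RatFunc κ) E]

/-- The value of a polynomial at `(x, y)`. -/
noncomputable def ev (y : E) : κ[X][X] →+* E :=
  eval₂RingHom ((algebraMap (RatFunc κ) E).comp (algebraMap κ[X] (RatFunc κ))) y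

end field

/-- The function field of the curve `F = 0` with its basis `y ^ i` and the derivation `d = d / dx`. -/
structure KL {κ : Type*} [Field κ] {E : Type*} [Field E] [Algebra (RatFunc κ) E] (w n : ℕ)
    (F : κ[X][X]) (y : E) (e : Module.Basis (Fin n) (RatFunc κ) E) (dK : RatFunc κ → RatFunc κ)
    (d : Derivation ℤ E E) : Prop where
  hn : 0 < n
  hw : 0 < w
  wt : Wt w n F
  basis : ∀ i : Fin n, e i = y ^ (i : ℕ)
  root : ev y F = 0
  Fy : ev y (py F) ≠ 0
  dK_pol : ∀ p : κ[X], dK (pol p) = pol (derivative p)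
  d_alg : ∀ r, d (algebraMap (RatFunc κ) E r) = algebraMap (RatFunc κ) E (dK r)
  tr_d : ∀ z, Tr κ E (d z) = dK (Tr κ E z)
  sep : ∀ θ : Derivation (RatFunc κ) E E, θ = 0
  euler : ∀ h : κ[X][X], Tr κ E (ev y h / ev y (py F)) = pol (tau F h)
  top : Tp w n F 1

/-- Moreover the derivation `D` with `D x = 0` and `D = δ` on `κ`. -/
structure KD {κ : Type*} [Field κ] {E : Type*} [Field E] [Algebra (RatFunc κ) E] (w n : ℕ)
    (F : κ[X][X]) (y : E) (e : Module.Basis (Fin n) (RatFunc κ) E) (δ : κ → κ)
    (dK DK : RatFunc κ → RatFunc κ) (d D : Derivation ℤ E E) : Prop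
    extends KL w n F y e dK d where
  der : IsDer δ
  DK_pol : ∀ p : κ[X], DK (pol p) = pol (cm δ p)
  D_alg : ∀ r, D (algebraMap (RatFunc κ) E r) = algebraMap (RatFunc κ) E (DK r)
  tr_D : ∀ z, Tr κ E (D z) = DK (Tr κ E z)
  comm : ∀ z, d (D z) = D (d z)

section pairs

variable {κ : Type*} [Field κ] {E : Type*} [Field E] [Algebra (RatFunc κ) E] {w n : ℕ}

/-- The residue at infinity. -/
structure IsRes (res : RatFunc κ → κ) : Prop where
  add : ∀ r s, res (r + s) = res r + res s
  smul : ∀ (c : κ) r, res (pol (C c) * r) = c * res r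
  poly : ∀ p, res (pol p) = 0
  low : ∀ r, Dle r (-2) → res r = 0
  one : res (RatFunc.X⁻¹) = 1

/-- The function `x ^ (- l - 1) y ^ i`. -/
noncomputable def fE (y : E) (c : Gx w n) : E :=
  inE (κ := κ) E ((RatFunc.X⁻¹) ^ ((c.2 : ℕ) + 1)) * y ^ (c.1 : ℕ)

/-- The basis forms. -/
noncomputable def mE (F : κ[X][X]) (y : E) (η : IX w n → κ[X][X]) (a : IX w n) : E :=
  ev y (η a) / ev y (py F)

/-- The local primitives at infinity of the basis forms. -/
noncomputable def bE (κ : Type*) [Field κ] {E : Type*} [Field E] [Algebra (RatFunc κ) E] {w n : ℕ}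
    (y : E) : IX w n → E :=
  Sum.elim (fun _ => 0) (fun c => fE (κ := κ) y c)

/-- The linear combination. -/
noncomputable def lc (c : IX w n → κ) (m : IX w n → E) : E :=
  ∑ a, inE (κ := κ) E (pol (C (c a))) * m a

/-- The form of the classes `(m, b)`, `(m', b')`. -/
noncomputable def Jp (res : RatFunc κ → κ) (d : Derivation ℤ E E) (m b m' b' : E) : κ :=
  res (Tr κ E (b * m' - b' * m + b' * d b))

end pairs

/-- The recursion for the iterated derivatives of `h / F_Y`:
`d ^ j (h / F_Y) = hrec F h j / F_Y ^ (1 + 2 j)`. -/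
noncomputable def hrec {R : Type*} [CommRing R] (F h : R[X][X]) : ℕ → R[X][X]
  | 0 => h %ₘ F
  | j + 1 => (br F (hrec F h j) * py F - ((1 + 2 * j : ℕ) : R[X][X]) * hrec F h j *
      br F (py F)) %ₘ F

/-- The numerator of the regular form with coordinates `c`. -/
noncomputable def fo {R : Type*} [CommRing R] {w n : ℕ} (F : R[X][X]) (c : Gx w n → R) : R[X][X] :=
  ∑ a, cc (c a) * (C (X ^ (a.2 : ℕ)) * bb F a.1)

end MPadcLF
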