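import Pool.Agent.Lib.MP_adc574_ag_LF.Wd
import Pool.Agent.Lib.MP_adc574_ag_LF.Tau

/-!
# JOB Ev: polynomials as functions on the curve

`ev y` is `eval₂`; `ev_C`, `ev_X`: `eval₂_C`, `eval₂_X`. `repr_ev`: `h = ∑ C (h.coeff i) * X ^ i`
(`Polynomial.as_sum_range_C_mul_X_pow`), `e i = y ^ i`, `Module.Basis.repr_self`.
`ev_eq_zero_iff`: `h = h %ₘ F + e F` and `repr_ev`. `exists_ev`: the polynomial with the coordinates.
`d_ev`: both sides of `d (ev y h) * F_Y = ev y (br F h)` are additive and satisfy the same Leibniz rule, so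
it is enough to check `h = C q` (`d_alg`, `dK_pol`) and `h = X`:
`0 = d (ev y F) = ev y (px F) + ev y (py F) * d y`. (First prove
`d (ev y h) = ev y (px h) + ev y (py h) * d y` by `Polynomial.induction_on'`.) The same for `D`.
`inM`: the elements `z` with `z * F_Y ∈ B`. `tr_mul`: `Tr (ev h / F_Y * ev g) = pol (tau F (h * g))` by
`euler`. `kappa`: a constant `r` of `κ` in `E`.
-/

set_option autoImplicit false

namespace MPadcLF

open Polynomial MPadcCov

section basic

variable {κ : Type*} [Field κ] {E : Type*} [CommRing E] [Algebra (RatFunc κ) E] (y : E)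

theorem ev_C (q : κ[X]) : ev y (C q) = inE (κ := κ) E (pol q) := by
  exact eval₂_C _ _

theorem ev_X : ev y (X : κ[X][X]) = y := by
  exact eval₂_X _ _

end basic

variable {κ : Type*} [Field κ] {E : Type*} [Field E] [Algebra (RatFunc κ) E] {w n : ℕ}
  {F : κ[X][X]} {y : E} {e : Module.Basis (Fin n) (RatFunc κ) E} {dK : RatFunc κ → RatFunc κ}
  {d : Derivation ℤ E E}

private theorem Ev_sum (H : KL w n F y e dK d) {h : κ[X][X]} (hh : h.natDegree < n) :
    ev y h = ∑ i : Fin n, (pol (h.coeff i)) • e i := by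
  have h1 : ev y h = eval₂ ((algebraMap (RatFunc κ) E).comp (algebraMap κ[X] (RatFunc κ))) y h := rfl
  rw [h1, eval₂_eq_sum_range' _ hh, Finset.sum_range]
  refine Finset.sum_congr rfl fun i _ => ?_
  rw [H.basis i, Algebra.smul_def]
  rfl

theorem KL.repr_ev (H : KL w n F y e dK d) {h : κ[X][X]} (hh : h.natDegree < n) (i : Fin n) :
    e.repr (ev y h) i = pol (h.coeff i) := by
  rw [Ev_sum H hh, Module.Basis.repr_sum_self]

theorem KL.ev_mod (H : KL w n F y e dK d) (h : κ[X][X]) : ev y (h %ₘ F) = ev y h := by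
  have h1 := modByMonic_add_div h F
  have h2 : ev y h = ev y (h %ₘ F) + ev y F * ev y (h /ₘ F) := by
    rw [← map_mul, ← map_add, h1]
  rw [h2, H.root, zero_mul, add_zero]

theorem KL.ev_eq_zero_iff (H : KL w n F y e dK d) (h : κ[X][X]) :
    ev y h = 0 ↔ ∃ g, h = g * F := by
  constructor
  · intro h0
    rw [← mod_eq_zero_iff H.wt.monic]
    have h1 : (h %ₘ F).natDegree < n := mod_natDegree H.wt.monic H.wt.deg H.hn h
    have h2 : ev y (h %ₘ F) = 0 := by rw [H.ev_mod, h0]
    ext1 i
    rw [coeff_zero]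
    by_cases hi : i < n
    · have h3 := H.repr_ev h1 ⟨i, hi⟩
      rw [h2, map_zero, Finsupp.zero_apply] at h3
      apply pol_injective
      rw [map_zero]
      exact h3.symm
    · exact coeff_eq_zero_of_natDegree_lt (lt_of_lt_of_le h1 (not_lt.mp hi))
  · rintro ⟨g, rfl⟩
    rw [map_mul, H.root, mul_zero]

theorem KL.inB_ev (H : KL w n F y e dK d) (h : κ[X][X]) : InB e (ev y h) := by
  intro i
  rw [← H.ev_mod h, H.repr_ev (mod_natDegree H.wt.monic H.wt.deg H.hn h) i]
  exact isPol_pol _

theorem KL.exists_ev (H : KL w n F y e dK d) {z : E} (hz : InB e z) :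
    ∃ h : κ[X][X], h.natDegree < n ∧ ev y h = z := by
  choose p hp using hz
  have hdeg : (∑ i : Fin n, C (p i) * X ^ (i : ℕ) : κ[X][X]).natDegree ≤ n - 1 := by
    refine natDegree_sum_le_of_forall_le _ _ fun i _ => ?_
    refine (natDegree_C_mul_X_pow_le _ _).trans ?_
    have := i.2
    omega
  refine ⟨∑ i : Fin n, C (p i) * X ^ (i : ℕ), ?_, ?_⟩
  · have := H.hn
    omega
  · rw [map_sum]
    have h1 : z = ∑ i : Fin n, (e.repr z i) • e i := (e.sum_repr z).symm
    rw [h1]
    refine Finset.sum_congr rfl fun i _ => ?_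
    rw [map_mul, map_pow, ev_C, ev_X, ← hp i, H.basis i, Algebra.smul_def]

theorem KL.inB_mul (H : KL w n F y e dK d) {z z' : E} (hz : InB e z) (hz' : InB e z') :
    InB e (z * z') := by
  obtain ⟨h, -, rfl⟩ := H.exists_ev hz
  obtain ⟨g, -, rfl⟩ := H.exists_ev hz'
  rw [← map_mul]
  exact H.inB_ev _

private theorem Ev_der (D : Derivation ℤ E E) {γ : κ[X] → κ[X]} (hγ : IsDer γ)
    (hD : ∀ q : κ[X], D (inE (κ := κ) E (pol q)) = inE (κ := κ) E (pol (γ q))) (h : κ[X][X]) :
    D (ev y h) = ev y (cm γ h) + ev y (py h) * D y := by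
  have d1 := isDer_cm hγ
  have d2 : IsDer (py : κ[X][X] → κ[X][X]) := isDer_py
  induction h using Polynomial.induction_on with
  | C q => rw [ev_C, hD, cm_C hγ.zero, ev_C, py_C, map_zero, zero_mul, add_zero]
  | add p q hp hq =>
    rw [map_add, map_add, hp, hq, d1.add, d2.add, map_add, map_add]
    ring
  | monomial m a ih =>
    have e1 : C a * X ^ (m + 1) = (C a * X ^ m) * (X : κ[X][X]) := by ring
    rw [e1]
    generalize C a * X ^ m = p at ih
    rw [map_mul, Derivation.leibniz, ih, ev_X, d1.mul, d2.mul, cm_X hγ, py_X]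
    simp only [map_add, map_mul, ev_X, smul_eq_mul, map_zero, map_one, mul_zero, zero_add, mul_one]
    ring

private theorem Ev_Fder (D : Derivation ℤ E E) {γ : κ[X] → κ[X]} (hγ : IsDer γ)
    (hD : ∀ q : κ[X], D (inE (κ := κ) E (pol q)) = inE (κ := κ) E (pol (γ q))) (hr : ev y F = 0)
    (h : κ[X][X]) :
    D (ev y h) * ev y (py F) = ev y (cm γ h * py F - py h * cm γ F) := by
  have h1 := Ev_der (y := y) D hγ hD h
  have h2 := Ev_der (y := y) D hγ hD F
  rw [hr, map_zero] at h2
  rw [h1, map_sub, map_mul, map_mul]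
  linear_combination -(ev y (py h)) * h2

theorem KL.d_ev (H : KL w n F y e dK d) (h : κ[X][X]) :
    d (ev y h) * ev y (py F) = ev y (br F h) := by
  refine Ev_Fder d (isDer_derivative κ) ?_ H.root h
  intro q
  show d (algebraMap (RatFunc κ) E (pol q)) = algebraMap (RatFunc κ) E (pol (derivative q))
  rw [H.d_alg, H.dK_pol]

private theorem Ev_pow (D : Derivation ℤ E E) (b : E) (m : ℕ) : b * D (b ^ m) = (m : E) * b ^ m * D b := by
  induction m with
  | zero => rw [pow_zero, Derivation.map_one_eq_zero, mul_zero, Nat.cast_zero, zero_mul, zero_mul]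
  | succ m ih =>
    rw [pow_succ, Derivation.leibniz, smul_eq_mul, smul_eq_mul, Nat.cast_succ]
    linear_combination b * ih

/-- The derivative of a quotient by a power of `F_Y`. -/
theorem KL.d_div (H : KL w n F y e dK d) (h : κ[X][X]) (m : ℕ) :
    d (ev y h / ev y (py F) ^ m) =
      ev y (br F h * py F - (m : κ[X][X]) * h * br F (py F)) / ev y (py F) ^ (m + 2) := by
  have hb := H.Fy
  have h1 := H.d_ev h
  have h2 := H.d_ev (py F)
  have h3 := Ev_pow d (ev y (py F)) m
  have h4 : ev y h = (ev y h / ev y (py F) ^ m) * ev y (py F) ^ m := by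
    rw [div_mul_cancel₀]
    exact pow_ne_zero m hb
  have h5 : d (ev y h) = (ev y h / ev y (py F) ^ m) * d (ev y (py F) ^ m) +
      ev y (py F) ^ m * d (ev y h / ev y (py F) ^ m) := by
    conv_lhs => rw [h4]
    rw [Derivation.leibniz, smul_eq_mul, smul_eq_mul]
  rw [eq_div_iff (pow_ne_zero _ hb), map_sub, map_mul, map_mul, map_mul, map_natCast]
  generalize d (ev y h / ev y (py F) ^ m) = z at h5
  generalize ev y h / ev y (py F) ^ m = c at h4 h5
  generalize d (ev y (py F) ^ m) = t at h3 h5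
  generalize d (ev y h) = s at h1 h5
  generalize d (ev y (py F)) = r at h2 h3
  rw [← h1, ← h2]
  generalize ev y (py F) = b at h2 h3 h4 h5
  generalize ev y h = a at h4
  rw [h4, pow_add]
  linear_combination (-b ^ 2) * h5 - c * b * h3

theorem KL.tr_ev_div (H : KL w n F y e dK d) (h g : κ[X][X]) :
    Tr κ E (ev y h / ev y (py F) * ev y g) = pol (tau F (h * g)) := by
  rw [div_mul_eq_mul_div, ← map_mul]
  exact H.euler (h * g)

/-- The trace of a regular form times a regular function is a polynomial. -/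
theorem KL.tr_inB (H : KL w n F y e dK d) {z z' : E} (hz : InB e (z * ev y (py F)))
    (hz' : InB e z') : IsPol (Tr κ E (z * z')) := by
  obtain ⟨h, -, hh⟩ := H.exists_ev hz
  obtain ⟨g, -, hg⟩ := H.exists_ev hz'
  have h1 : z = ev y h / ev y (py F) := by
    rw [hh, mul_div_cancel_right₀ _ H.Fy]
  rw [h1, ← hg, H.tr_ev_div]
  exact isPol_pol _

theorem KD.D_ev {δ : κ → κ} {DK : RatFunc κ → RatFunc κ} {D : Derivation ℤ E E}
    (H : KD w n F y e δ dK DK d D) (h : κ[X][X]) :
    D (ev y h) * ev y (py F) = ev y (pT δ h * py F - py h * pT δ F) := by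
  refine Ev_Fder D (isDer_cm H.der) ?_ H.root h
  intro q
  show D (algebraMap (RatFunc κ) E (pol q)) = algebraMap (RatFunc κ) E (pol (cm δ q))
  rw [H.D_alg, H.DK_pol]

/-- Additivity etc. of `dK` on all rational functions. -/
theorem KL.dK_add (H : KL w n F y e dK d) (r s : RatFunc κ) : dK (r + s) = dK r + dK s := by
  apply (algebraMap (RatFunc κ) E).injective
  rw [← H.d_alg, map_add, map_add, map_add, H.d_alg, H.d_alg]

theorem KL.dK_mul (H : KL w n F y e dK d) (r s : RatFunc κ) :
    dK (r * s) = r * dK s + s * dK r := by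
  apply (algebraMap (RatFunc κ) E).injective
  rw [← H.d_alg, map_mul, Derivation.leibniz, map_add, map_mul, map_mul, H.d_alg, H.d_alg, smul_eq_mul,
    smul_eq_mul]

theorem KD.DK_add {δ : κ → κ} {DK : RatFunc κ → RatFunc κ} {D : Derivation ℤ E E}
    (H : KD w n F y e δ dK DK d D) (r s : RatFunc κ) : DK (r + s) = DK r + DK s := by
  apply (algebraMap (RatFunc κ) E).injective
  rw [← H.D_alg, map_add, map_add, map_add, H.D_alg, H.D_alg]

theorem KD.DK_mul {δ : κ → κ} {DK : RatFunc κ → RatFunc κ} {D : Derivation ℤ E E}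
    (H : KD w n F y e δ dK DK d D) (r s : RatFunc κ) : DK (r * s) = r * DK s + s * DK r := by
  apply (algebraMap (RatFunc κ) E).injective
  rw [← H.D_alg, map_mul, Derivation.leibniz, map_add, map_mul, map_mul, H.D_alg, H.D_alg, smul_eq_mul,
    smul_eq_mul]

end MPadcLF
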