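import Pool.Agent.Lib.MP_adc574_ag_LF.Ev
import Pool.Agent.Lib.MP_adc574_ag_Cov.Der

/-!
# JOB ExiB: existence of the derivation `D` with `D x = 0`

`DK` is the derivation of `RatFunc κ` with `DK (pol p) = pol (cm δ p)` (`ext_frac` in Cov/Der for the
derivation `cm δ` of `κ[X]`; see Cov/SpecD.lean, `BC.cov1`, for the same argument and the bridge of
`ℤ`-algebra structures). `D`: the extension to `E` with `D y = v := - ev y (pT δ F) / F_Y`: `exists_der` of
Cov/Der for the basis `e` with the values `v i = i * y ^ (i - 1) * v`. The hypothesis of `exists_der`: let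
`D₀ (∑ r i y ^ i) = ∑ DK (r i) y ^ i + ∑ r i i y ^ (i - 1) v`; show `D₀ (ev' h) = ev' (DK h) + ev' (h') v` for
all polynomials `h` over `RatFunc κ` (both sides are additive and vanish on multiples of `F`, because
`ev (pT δ F) + F_Y v = 0`), then apply it to `h = Y ^ (i + j)`. Alternative: a homomorphism
`E → TrivSqZeroExt E E` from `E ≃ AdjoinRoot` (`AdjoinRoot.lift`), or formally étale extensions.
`tr_D`: `tr_der`. `comm`: `z ↦ d (D z) - D (d z)` is a derivation (commutator) which kills `RatFunc κ` (on
polynomials `derivative (cm δ p) = cm δ (derivative p)`; a derivation of `RatFunc κ` which kills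
polynomials is zero), so it is `κ(x)`-linear and zero by `sep`.
-/

set_option autoImplicit false

namespace MPadcLF

open Polynomial MPadcCov

section gen

variable {K E : Type*} [Field K] [Field E] [Algebra K E]

private theorem exib_sep [FiniteDimensional K E] (sep : ∀ θ : Derivation K E E, θ = 0) :
    Algebra.IsSeparable K E := by
  have h2 : ∀ ω : KaehlerDifferential K E, ω = 0 := by
    intro ω
    rw [← Module.forall_dual_apply_eq_zero_iff E ω]
    intro φ
    have h3 : φ = 0 := by
      apply (KaehlerDifferential.linearMapEquivDerivation K E).injective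
      rw [map_zero]
      exact sep _
    rw [h3, LinearMap.zero_apply]
  have h1 : Algebra.FormallyUnramified K E := ⟨⟨fun a b => by rw [h2 a, h2 b]⟩⟩
  exact Algebra.FormallyUnramified.isSeparable K E

private theorem exib_lift [Algebra.FormallySmooth K E] (d : K →+ E)
    (hd : ∀ a b, d (a * b) = algebraMap K E a * d b + algebraMap K E b * d a) :
    ∃ D : Derivation ℤ E E, ∀ a, D (algebraMap K E a) = d a := by
  have h1 : d 1 = 0 := by
    have := hd 1 1
    rw [mul_one, (algebraMap K E).map_one, one_mul] at this
    exact left_eq_add.mp this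
  let φ : K →+* TrivSqZeroExt E E :=
    { toFun := fun a => TrivSqZeroExt.inl (algebraMap K E a) + TrivSqZeroExt.inr (d a)
      map_one' := by
        rw [h1, map_one]
        simp
      map_zero' := by
        rw [map_zero, map_zero]
        simp
      map_add' := by
        intro a b
        rw [map_add, map_add]
        ext
        · simp
        · simp
      map_mul' := by
        intro a b
        rw [map_mul, hd]
        ext
        · simp
        · simp [mul_comm] }
  let _ : Algebra K (TrivSqZeroExt E E) := φ.toAlgebra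
  let π : TrivSqZeroExt E E →ₐ[K] E :=
    { toFun := TrivSqZeroExt.fst
      map_one' := TrivSqZeroExt.fst_one
      map_mul' := fun _ _ => TrivSqZeroExt.fst_mul _ _
      map_zero' := TrivSqZeroExt.fst_zero
      map_add' := fun _ _ => TrivSqZeroExt.fst_add _ _
      commutes' := by
        intro a
        show (φ a).fst = algebraMap K E a
        simp [φ] }
  have hsur : Function.Surjective π := fun z =>
    ⟨(TrivSqZeroExt.inl z : TrivSqZeroExt E E), TrivSqZeroExt.fst_inl E z⟩
  have hnil : IsNilpotent (RingHom.ker (π : TrivSqZeroExt E E →+* E)) := by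
    have h2 : ∀ I : Ideal (TrivSqZeroExt E E), (∀ u ∈ I, ∀ v ∈ I, u * v = 0) → I ^ 2 = 0 := by
      intro I hI
      rw [pow_two, Ideal.zero_eq_bot, eq_bot_iff, Ideal.mul_le]
      intro u hu v hv
      rw [Ideal.mem_bot]
      exact hI u hu v hv
    refine ⟨2, h2 _ ?_⟩
    intro u hu v hv
    have hu' : u.fst = 0 := hu
    have hv' : v.fst = 0 := hv
    ext
    · simp [hu']
    · simp [hu', hv']
  let σ : E →ₐ[K] TrivSqZeroExt E E :=
    Algebra.FormallySmooth.liftOfSurjective (AlgHom.id K E) π hsur hnil
  have hσ : ∀ z, (σ z).fst = z := fun z =>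
    Algebra.FormallySmooth.liftOfSurjective_apply (AlgHom.id K E) π hsur hnil z
  let D' : E →+ E :=
    { toFun := fun z => (σ z).snd
      map_zero' := by
        rw [map_zero]
        rfl
      map_add' := by
        intro a b
        rw [map_add]
        rfl }
  refine ⟨Derivation.mk' D'.toIntLinearMap ?_, ?_⟩
  · intro a b
    show (σ (a * b)).snd = a • (σ b).snd + b • (σ a).snd
    rw [map_mul, TrivSqZeroExt.snd_mul, hσ, hσ]
    simp [mul_comm]
  · intro a
    show (σ (algebraMap K E a)).snd = d a
    rw [AlgHom.commutes]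
    show (φ a).snd = d a
    simp [φ]

/-- Extension of a derivation to a finite separable extension. -/
private theorem exib_ext {m : ℕ} (e : Module.Basis (Fin m) K E)
    (sep : ∀ θ : Derivation K E E, θ = 0) (d0 : Derivation ℤ K K) :
    ∃ D : Derivation ℤ E E, (∀ a, D (algebraMap K E a) = algebraMap K E (d0 a)) ∧
      ∀ z, Algebra.trace K E (D z) = d0 (Algebra.trace K E z) := by
  have hfin : FiniteDimensional K E := Module.Finite.of_basis e
  have hs : Algebra.IsSeparable K E := exib_sep sep
  have he : Algebra.FormallyEtale K E := Algebra.FormallyEtale.of_isSeparable K E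
  obtain ⟨D, hD⟩ := exib_lift (K := K) (E := E)
    ((algebraMap K E).toAddMonoidHom.comp d0.toLinearMap.toAddMonoidHom) (by
      intro a b
      show algebraMap K E (d0 (a * b)) = algebraMap K E a * algebraMap K E (d0 b) +
        algebraMap K E b * algebraMap K E (d0 a)
      rw [Derivation.leibniz, smul_eq_mul, smul_eq_mul, map_add, map_mul, map_mul])
  have hD' : ∀ a, D (algebraMap K E a) = algebraMap K E (d0 a) := hD
  exact ⟨D, hD', tr_der e d0 D hD'⟩

/-- A derivation of a ring extends to the field of fractions. -/
private theorem exib_frac {R K : Type*} [CommRing R] [IsDomain R] [Field K] [Algebra R K]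
    [IsFractionRing R K] (f : R → R) (hf : IsDer f) :
    ∃ d0 : Derivation ℤ K K, (∀ r, d0 (algebraMap R K r) = algebraMap R K (f r)) ∧
      ∀ a b, d0 (a * b) = a * d0 b + b * d0 a := by
  have h0 : f 0 = 0 := by
    have h1 := hf.add 0 0
    rw [add_zero] at h1
    exact left_eq_add.mp h1
  obtain ⟨d0, hd0⟩ := ext_frac (R := R) (K := K) (Derivation.mk' (AddMonoidHom.toIntLinearMap
    { toFun := f, map_zero' := h0, map_add' := hf.add }) (fun a b => by
      show f (a * b) = a • f b + b • f a
      rw [hf.mul, smul_eq_mul, smul_eq_mul]))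
  exact ⟨d0, hd0, fun a b => d0.leibniz a b⟩

end gen

private theorem exib_coeff {S : Type*} [CommRing S] {f : S → S} (hf : IsDer f) (p : S[X]) (m : ℕ) :
    (cm f p).coeff m = f (p.coeff m) := by
  have h0 : f 0 = 0 := by
    have h1 := hf.add 0 0
    rw [add_zero] at h1
    exact left_eq_add.mp h1
  unfold cm
  rw [Polynomial.sum_def, Polynomial.finsetSum_coeff]
  simp only [coeff_monomial]
  rw [Finset.sum_ite_eq']
  by_cases hm : m ∈ p.support
  · rw [if_pos hm]
  · rw [if_neg hm, Polynomial.notMem_support_iff.1 hm, h0]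

private theorem exib_sum {S : Type*} [CommRing S] {f : S → S} (hf : IsDer f) {ι : Type*}
    (s : Finset ι) (g : ι → S) : f (∑ i ∈ s, g i) = ∑ i ∈ s, f (g i) := by
  classical
  have h0 : f 0 = 0 := by
    have h1 := hf.add 0 0
    rw [add_zero] at h1
    exact left_eq_add.mp h1
  induction s using Finset.induction_on with
  | empty => rw [Finset.sum_empty, Finset.sum_empty, h0]
  | insert a s ha ih => rw [Finset.sum_insert ha, Finset.sum_insert ha, hf.add, ih]

private theorem exib_cm {S : Type*} [CommRing S] {f : S → S} (hf : IsDer f) : IsDer (cm f) := by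
  refine ⟨fun a b => ?_, fun a b => ?_⟩
  · ext m
    rw [coeff_add, exib_coeff hf, exib_coeff hf, exib_coeff hf, coeff_add, hf.add]
  · ext m
    rw [exib_coeff hf, coeff_mul, exib_sum hf, coeff_add, mul_comm b, coeff_mul, coeff_mul,
      ← Finset.sum_add_distrib]
    refine Finset.sum_congr rfl fun x _ => ?_
    rw [hf.mul, exib_coeff hf, exib_coeff hf, mul_comm (f (a.coeff x.1))]

private theorem exib_nat {S : Type*} [CommRing S] {f : S → S} (hf : IsDer f) (m : ℕ) :
    f (m : S) = 0 := by
  have h1 : f 1 = 0 := by
    have h2 := hf.mul 1 1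
    rw [mul_one, one_mul] at h2
    exact left_eq_add.mp h2
  have h0 : f 0 = 0 := by
    have h2 := hf.add 0 0
    rw [add_zero] at h2
    exact left_eq_add.mp h2
  induction m with
  | zero => rw [Nat.cast_zero, h0]
  | succ m ih => rw [Nat.cast_succ, hf.add, ih, h1, add_zero]

private theorem exib_deriv {S : Type*} [CommRing S] {f : S → S} (hf : IsDer f) (p : S[X]) :
    derivative (cm f p) = cm f (derivative p) := by
  ext m
  rw [coeff_derivative, exib_coeff hf, exib_coeff hf, coeff_derivative, hf.mul]
  have h1 : f ((m : S) + 1) = 0 := by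
    have h2 : ((m : S) + 1) = ((m + 1 : ℕ) : S) := by push_cast; rfl
    rw [h2, exib_nat hf]
  rw [h1, mul_zero, zero_add, mul_comm]

/-- A derivation of the rational functions which kills the polynomials is zero. -/
private theorem exib_rat {κ : Type*} [Field κ] (D : RatFunc κ → RatFunc κ)
    (hmul : ∀ x z, D (x * z) = x * D z + z * D x)
    (hD : ∀ p : κ[X], D (pol p) = 0) (r : RatFunc κ) : D r = 0 := by
  obtain ⟨p, q, hq, rfl⟩ := IsFractionRing.div_surjective (A := κ[X]) r
  have hq0 : pol q ≠ 0 := by
    intro h0
    have h1 : q = 0 := (IsFractionRing.injective κ[X] (RatFunc κ)) (by rw [map_zero]; exact h0)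
    exact nonZeroDivisors.ne_zero hq h1
  have h1 : (pol p / pol q) * pol q = pol p := div_mul_cancel₀ _ hq0
  have h2 : D ((pol p / pol q) * pol q) = 0 := by rw [h1]; exact hD p
  rw [hmul, hD q, mul_zero, zero_add] at h2
  rcases mul_eq_zero.1 h2 with h3 | h3
  · exact absurd h3 hq0
  · exact h3

theorem KL.exists_KD {κ : Type*} [Field κ] {E : Type*} [Field E] [Algebra (RatFunc κ) E] {w n : ℕ}
    {F : κ[X][X]} {y : E} {e : Module.Basis (Fin n) (RatFunc κ) E} {dK : RatFunc κ → RatFunc κ}
    {d : Derivation ℤ E E} (H : KL w n F y e dK d) (δ : κ → κ) (hδ : IsDer δ) :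
    ∃ (DK : RatFunc κ → RatFunc κ) (D : Derivation ℤ E E), KD w n F y e δ dK DK d D := by
  obtain ⟨d1, hd1, hd1mul⟩ := exib_frac (K := RatFunc κ) (cm δ) (exib_cm hδ)
  obtain ⟨D, hD, htr⟩ := exib_ext e H.sep d1
  -- the derivation `dK` on rational functions
  have hinj : Function.Injective (algebraMap (RatFunc κ) E) := (algebraMap (RatFunc κ) E).injective
  have hdadd : ∀ r s, dK (r + s) = dK r + dK s := by
    intro r s
    apply hinj
    rw [map_add, ← H.d_alg, ← H.d_alg, ← H.d_alg, map_add, map_add]
  have hdmul : ∀ r s, dK (r * s) = r * dK s + s * dK r := by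
    intro r s
    apply hinj
    rw [map_add, map_mul, map_mul, ← H.d_alg, ← H.d_alg, ← H.d_alg, map_mul, Derivation.leibniz,
      smul_eq_mul, smul_eq_mul]
  have hcomK : ∀ r, dK (d1 r) - d1 (dK r) = 0 := by
    apply exib_rat fun r => dK (d1 r) - d1 (dK r)
    · intro x z
      show dK (d1 (x * z)) - d1 (dK (x * z)) = _
      rw [hd1mul, hdadd, hdmul, hdmul, hdmul, map_add, hd1mul, hd1mul]
      ring
    · intro p
      show dK (d1 (pol p)) - d1 (dK (pol p)) = 0
      rw [show d1 (pol p) = pol (cm δ p) from hd1 p, H.dK_pol, H.dK_pol,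
        show d1 (pol (derivative p)) = pol (cm δ (derivative p)) from hd1 _, exib_deriv hδ, sub_self]
  refine ⟨fun r => d1 r, D,
    { toKL := H
      der := hδ
      DK_pol := hd1
      D_alg := hD
      tr_D := htr
      comm := ?_ }⟩
  have hk : ∀ r : RatFunc κ, (⁅d, D⁆ : Derivation ℤ E E) (algebraMap (RatFunc κ) E r) = 0 := by
    intro r
    rw [Derivation.commutator_apply, hD, H.d_alg, H.d_alg, hD, ← map_sub, hcomK, map_zero]
  let Δ : Derivation (RatFunc κ) E E :=
    Derivation.mk' { toFun := (⁅d, D⁆ : Derivation ℤ E E)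
                     map_add' := map_add _
                     map_smul' := by
                       intro r z
                       rw [Algebra.smul_def, Derivation.leibniz, hk, smul_zero, add_zero,
                         RingHom.id_apply, smul_eq_mul, Algebra.smul_def] }
      (fun x z => Derivation.leibniz _ x z)
  intro z
  have h0 : Δ z = 0 := by
    rw [H.sep Δ]
    rfl
  have h1 : (⁅d, D⁆ : Derivation ℤ E E) z = 0 := h0
  rw [Derivation.commutator_apply] at h1
  exact sub_eq_zero.1 h1

end MPadcLF
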