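import Pool.Agent.Lib.MP_adc574_ag_LF.Conn
import Pool.Agent.Lib.MP_adc574_ag_LF.Prim

/-!
# JOB Flt: the connection preserves the symplectic form

Paper 3.9. Let `a : IX w n`, `α, β, γ, g, e'` from `IsGM`, `A = ev α / F_Y`, `g' = ev g`. By `con_formula`
`Δ D m_a = ∑ G_ca m_c + d g' + d A`. Let `b* = Δ D b_a - A - ∑ G_ca b_c`; then
`d g' - d b* = (Δ D (m_a - d b_a)) - ∑ G_ca (m_c - d b_c)` has `BDeg (-2)` (with sign), so by `prim_inf0`
`BDeg 0 (b* - g')`. `Jp_exact`: for `g'` in `B`, `BDeg 0 β`, and `(m', b')` with `m' F_Y ∈ B`,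
`BDeg (-2) (m' - d b')`: `Jp (d g', g' + β; m', b') = 0 = Jp (m', b'; d g', g' + β)`:
`(g' + β) m' - b' d g' + b' d (g' + β) = g' m' + d (b' β) + β (m' - d b')`, traces: `tr_pol`, `tr_d`,
`bdeg_mul` + `tr_low`. And `b' d g' - (g' + β) m' + (g' + β) d b' = d (b' g') - g' m' - β (m' - d b')`.
`flat`: `Jp (Δ D m_a - d A_a, Δ D b_a - A_a; m_b, b_b) + Jp (m_a, b_a; Δ D m_b - d A_b, Δ D b_b - A_b) =
res Tr (Δ D (b_a m_b - b_b m_a + b_b d b_a)) + res Tr (A_b m_a - A_a m_b)` modulo exact terms (paper), the first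
term is `Δ δ (J0 a b) = 0`, and `X = A_b m_a - A_a m_b = ev (α_b η_a - α_a η_b) / F_Y ^ 2` satisfies
`X F_Y · F_Y ∈ B`, `X F_x · F_Y ∈ B` (with the relations `Δ η_a F_T = α_a F_x + β_a F_Y`:
`F_x (α_b η_a - α_a η_b) = F_Y (β_a η_b - β_b η_a)` under `ev`), so `X F_Y ∈ B` by `Sm F 1`, and `tr_pol` with
`z' = 1`.
-/

set_option autoImplicit false

namespace MPadcLF

open Polynomial MPadcCov

variable {κ : Type*} [Field κ] {E : Type*} [Field E] [Algebra (RatFunc κ) E] {w n : ℕ}
  {F : κ[X][X]} {y : E} {e : Module.Basis (Fin n) (RatFunc κ) E} {δ : κ → κ}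
  {dK DK : RatFunc κ → RatFunc κ} {d D : Derivation ℤ E E} {η : IX w n → κ[X][X]}
  {res : RatFunc κ → κ}

private theorem Flt_add (hr : IsRes res) (x z : E) :
    res (Tr κ E (x + z)) = res (Tr κ E x) + res (Tr κ E z) := by
  rw [map_add, hr.add]

private theorem Flt_sub (hr : IsRes res) (x z : E) :
    res (Tr κ E (x - z)) = res (Tr κ E x) - res (Tr κ E z) := by
  rw [map_sub, hr.sub]

private theorem Flt_const (hr : IsRes res) (c : κ) (z : E) :
    res (Tr κ E (inE (κ := κ) E (pol (C c)) * z)) = c * res (Tr κ E z) := by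
  rw [tr_inE_mul, hr.smul]

private theorem Flt_sum (hr : IsRes res) {ι : Type} (s : Finset ι) (f : ι → E) :
    res (Tr κ E (∑ i ∈ s, f i)) = ∑ i ∈ s, res (Tr κ E (f i)) := by
  rw [map_sum, hr.sum]

private theorem Flt_left (H : KL w n F y e dK d) (hr : IsRes res) {ι : Type} [Fintype ι]
    (c : ι → κ) (m b : ι → E) (m' b' m1 b1 : E) :
    Jp res d ((∑ a, inE (κ := κ) E (pol (C (c a))) * m a) + m')
      ((∑ a, inE (κ := κ) E (pol (C (c a))) * b a) + b') m1 b1 =
      (∑ a, c a * Jp res d (m a) (b a) m1 b1) + Jp res d m' b' m1 b1 := by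
  unfold Jp
  have h1 : d ((∑ a, inE (κ := κ) E (pol (C (c a))) * b a) + b') =
      (∑ a, inE (κ := κ) E (pol (C (c a))) * d (b a)) + d b' := by
    rw [map_add, map_sum]
    congr 1
    exact Finset.sum_congr rfl fun a _ => H.d_const _ _
  have h2 : ∑ a, inE (κ := κ) E (pol (C (c a))) * (b a * m1 - b1 * m a + b1 * d (b a)) =
      (∑ a, inE (κ := κ) E (pol (C (c a))) * b a) * m1 -
      b1 * (∑ a, inE (κ := κ) E (pol (C (c a))) * m a) +
      b1 * (∑ a, inE (κ := κ) E (pol (C (c a))) * d (b a)) := by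
    rw [Finset.sum_mul, Finset.mul_sum, Finset.mul_sum, ← Finset.sum_sub_distrib,
      ← Finset.sum_add_distrib]
    refine Finset.sum_congr rfl fun a _ => ?_
    ring
  have h3 : ((∑ a, inE (κ := κ) E (pol (C (c a))) * b a) + b') * m1 -
      b1 * ((∑ a, inE (κ := κ) E (pol (C (c a))) * m a) + m') +
      b1 * d ((∑ a, inE (κ := κ) E (pol (C (c a))) * b a) + b') =
      (∑ a, inE (κ := κ) E (pol (C (c a))) * (b a * m1 - b1 * m a + b1 * d (b a))) +
      (b' * m1 - b1 * m' + b1 * d b') := by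
    rw [h1, h2]
    ring
  rw [h3, Flt_add hr, Flt_sum hr]
  congr 1
  exact Finset.sum_congr rfl fun a _ => Flt_const hr _ _

private theorem Flt_right (hr : IsRes res) {ι : Type} [Fintype ι]
    (c : ι → κ) (m b : ι → E) (m' b' m1 b1 : E) :
    Jp res d m1 b1 ((∑ a, inE (κ := κ) E (pol (C (c a))) * m a) + m')
      ((∑ a, inE (κ := κ) E (pol (C (c a))) * b a) + b') =
      (∑ a, c a * Jp res d m1 b1 (m a) (b a)) + Jp res d m1 b1 m' b' := by
  unfold Jp
  have h2 : ∑ a, inE (κ := κ) E (pol (C (c a))) * (b1 * m a - b a * m1 + b a * d b1) =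
      b1 * (∑ a, inE (κ := κ) E (pol (C (c a))) * m a) -
      (∑ a, inE (κ := κ) E (pol (C (c a))) * b a) * m1 +
      (∑ a, inE (κ := κ) E (pol (C (c a))) * b a) * d b1 := by
    rw [Finset.sum_mul, Finset.mul_sum, Finset.sum_mul, ← Finset.sum_sub_distrib,
      ← Finset.sum_add_distrib]
    refine Finset.sum_congr rfl fun a _ => ?_
    ring
  have h3 : b1 * ((∑ a, inE (κ := κ) E (pol (C (c a))) * m a) + m') -
      ((∑ a, inE (κ := κ) E (pol (C (c a))) * b a) + b') * m1 +
      ((∑ a, inE (κ := κ) E (pol (C (c a))) * b a) + b') * d b1 =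
      (∑ a, inE (κ := κ) E (pol (C (c a))) * (b1 * m a - b a * m1 + b a * d b1)) +
      (b1 * m' - b' * m1 + b' * d b1) := by
    rw [h2]
    ring
  rw [h3, Flt_add hr, Flt_sum hr]
  congr 1
  exact Finset.sum_congr rfl fun a _ => Flt_const hr _ _

private theorem Flt_bdeg_const {a : Fin n → ℕ} {m : ℤ} {z : E} (c : κ) (hz : BDeg e a m z) :
    BDeg e a m (inE (κ := κ) E (pol (C c)) * z) := by
  have h1 : Dle (pol (C c) : RatFunc κ) 0 := by
    right
    rw [pol, RatFunc.intDegree_polynomial, natDegree_C]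
    rfl
  have h2 := BDeg.smul h1 hz
  rwa [add_zero] at h2

theorem KL.Jp_exact_left (H : KL w n F y e dK d) (hr : IsRes res) {g β m b : E}
    (hg : InB e g) (hβ : BDeg e (aa w n) 0 β) (hm : InB e (m * ev y (py F)))
    (hb : BDeg e (aa w n) (-2) (m - d b)) : Jp res d (d g) (g + β) m b = 0 := by
  unfold Jp
  have h1 : (g + β) * m - b * d g + b * d (g + β) = m * g + β * (m - d b) + d (b * β) := by
    rw [map_add, Derivation.leibniz, smul_eq_mul, smul_eq_mul]
    ring
  rw [h1, Flt_add hr, Flt_add hr, hr.tr_pol H hm hg, hr.tr_d H]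
  have h2 : BDeg e (aa w n) (-2) (β * (m - d b)) := by
    have h3 := H.bdeg_mul hβ hb
    rwa [zero_add] at h3
  rw [hr.tr_low H h2]
  ring

theorem KL.Jp_exact_right (H : KL w n F y e dK d) (hr : IsRes res) {g β m b : E}
    (hg : InB e g) (hβ : BDeg e (aa w n) 0 β) (hm : InB e (m * ev y (py F)))
    (hb : BDeg e (aa w n) (-2) (m - d b)) : Jp res d m b (d g) (g + β) = 0 := by
  unfold Jp
  have h1 : b * d g - (g + β) * m + (g + β) * d b = d (b * g) - m * g - β * (m - d b) := by
    rw [Derivation.leibniz, smul_eq_mul, smul_eq_mul]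
    ring
  rw [h1, Flt_sub hr, Flt_sub hr, hr.tr_pol H hm hg, hr.tr_d H]
  have h2 : BDeg e (aa w n) (-2) (β * (m - d b)) := by
    have h3 := H.bdeg_mul hβ hb
    rwa [zero_add] at h3
  rw [hr.tr_low H h2]
  ring

theorem KD.flat [CharZero κ] (H : KD w n F y e δ dK DK d D) (hη : HB w n F η) (hs : Sm F 1)
    {Δ : κ} {G : Matrix (IX w n) (IX w n) κ} (hG : IsGM δ Δ F η G) :
    G.transpose * J0 κ (Gx w n) + J0 κ (Gx w n) * G = 0 := by
  obtain ⟨res, hr⟩ := exists_res κ
  have HL : KL w n F y e dK d := H.toKL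
  choose α β γ g e' h1 h2 using hG
  have hfy := HL.Fy
  let K : κ → E := fun c => inE (κ := κ) E (pol (C c))
  let m : IX w n → E := mE F y η
  let b : IX w n → E := bE κ y
  let A : IX w n → E := fun a => ev y (α a) / ev y (py F)
  have hm : ∀ a, InB e (m a * ev y (py F)) := by
    intro a
    have h3 : m a * ev y (py F) = ev y (η a) := div_mul_cancel₀ _ hfy
    rw [h3]
    exact HL.inB_ev _
  have hlow : ∀ a, BDeg e (aa w n) (-2) (m a - d (b a)) := fun a => HL.low hη a
  -- the classes `(X, Y)`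
  have hX : ∀ a, K Δ * D (m a) - d (A a) = (∑ c, K (G c a) * m c) + d (ev y (g a)) := by
    intro a
    have h3 := H.con_formula Δ (η a) (α a) (β a) (γ a) (h1 a)
    rw [h2 a] at h3
    have h4 : ev y (∑ c, cc (G c a) * η c + br F (g a) + e' a * F) / ev y (py F) =
        (∑ c, K (G c a) * m c) + d (ev y (g a)) := by
      rw [map_add, map_add, map_mul (ev y) (e' a) F, HL.root, mul_zero, add_zero, map_sum,
        ← HL.d_ev, add_div, mul_div_cancel_right₀ _ hfy, Finset.sum_div]
      congr 1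
      refine Finset.sum_congr rfl fun c _ => ?_
      rw [map_mul, ev_C, mul_div_assoc]
      rfl
    rw [h4] at h3
    change K Δ * D (m a) = _ + d (A a) at h3
    rw [h3]
    ring
  let B : IX w n → E := fun a => K Δ * D (b a) - A a - (∑ c, K (G c a) * b c) - ev y (g a)
  have hdK : ∀ (c : κ) (z : E), d (K c * z) = K c * d z := fun c z => HL.d_const c z
  have hB : ∀ a, BDeg e (aa w n) 0 (B a) := by
    intro a
    apply HL.prim_inf0
    have h3 : d (B a) = -(K Δ * D (m a - d (b a))) + ∑ c, K (G c a) * (m c - d (b c)) := by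
      have h4 : d (A a) = K Δ * D (m a) - (∑ c, K (G c a) * m c) - d (ev y (g a)) := by
        rw [← sub_eq_zero]
        have h5 := hX a
        linear_combination (-1 : E) * h5
      have h5 : d (∑ c, K (G c a) * b c) = ∑ c, K (G c a) * d (b c) := by
        rw [map_sum]
        exact Finset.sum_congr rfl fun c _ => hdK _ _
      have h6 : ∑ c, K (G c a) * (m c - d (b c)) =
          (∑ c, K (G c a) * m c) - ∑ c, K (G c a) * d (b c) := by
        rw [← Finset.sum_sub_distrib]
        exact Finset.sum_congr rfl fun c _ => mul_sub _ _ _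
      change d (K Δ * D (b a) - A a - (∑ c, K (G c a) * b c) - ev y (g a)) = _
      rw [map_sub, map_sub, map_sub, hdK, h4, h5, h6, map_sub, H.comm]
      ring
    rw [h3]
    apply BDeg.add
    · apply BDeg.neg
      exact Flt_bdeg_const Δ (H.bdeg_D (hlow a))
    · apply BDeg.sum
      intro c _
      exact Flt_bdeg_const _ (hlow c)
  have hY : ∀ a, K Δ * D (b a) - A a = (∑ c, K (G c a) * b c) + (ev y (g a) + B a) := by
    intro a
    change _ = _ + (ev y (g a) + (K Δ * D (b a) - A a - (∑ c, K (G c a) * b c) - ev y (g a)))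
    ring
  have hJ : ∀ a c, Jp res d (m a) (b a) (m c) (b c) = J0 κ (Gx w n) a c :=
    fun a c => HL.Jp_basis hr hη a c
  have hL : ∀ a a', Jp res d (K Δ * D (m a) - d (A a)) (K Δ * D (b a) - A a) (m a') (b a') =
      (G.transpose * J0 κ (Gx w n)) a a' := by
    intro a a'
    rw [hX, hY]
    have h3 := Flt_left HL hr (fun c => G c a) m b (d (ev y (g a))) (ev y (g a) + B a) (m a') (b a')
    have h4 := HL.Jp_exact_left hr (HL.inB_ev (g a)) (hB a) (hm a') (hlow a')
    rw [h4, add_zero] at h3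
    rw [Matrix.mul_apply]
    refine h3.trans (Finset.sum_congr rfl fun c _ => ?_)
    rw [hJ, Matrix.transpose_apply]
  have hR : ∀ a a', Jp res d (m a) (b a) (K Δ * D (m a') - d (A a')) (K Δ * D (b a') - A a') =
      (J0 κ (Gx w n) * G) a a' := by
    intro a a'
    rw [hX, hY]
    have h3 := Flt_right (d := d) hr (fun c => G c a') m b (d (ev y (g a'))) (ev y (g a') + B a')
      (m a) (b a)
    have h4 := HL.Jp_exact_right hr (HL.inB_ev (g a')) (hB a') (hm a) (hlow a)
    rw [h4, add_zero] at h3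
    rw [Matrix.mul_apply]
    refine h3.trans (Finset.sum_congr rfl fun c _ => ?_)
    rw [hJ, mul_comm]
  have hδ0 : δ 0 = 0 := by
    have h3 := H.der.add 0 0
    rw [add_zero] at h3
    exact (left_eq_add.1 h3)
  have hδ1 : δ 1 = 0 := by
    have h3 := H.der.mul 1 1
    rw [mul_one, one_mul] at h3
    exact (left_eq_add.1 h3)
  have hδn : ∀ x, δ (-x) = -δ x := by
    intro x
    have h3 := H.der.add x (-x)
    rw [add_neg_cancel, hδ0] at h3
    exact eq_neg_of_add_eq_zero_right h3.symm
  have hδJ : ∀ a a', δ (J0 κ (Gx w n) a a') = 0 := by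
    intro a a'
    unfold J0
    rcases a with a | a <;> rcases a' with a' | a'
    · exact hδ0
    · rw [Matrix.fromBlocks_apply₁₂, Matrix.neg_apply, hδn, Matrix.one_apply]
      split_ifs
      · rw [hδ1, neg_zero]
      · rw [hδ0, neg_zero]
    · rw [Matrix.fromBlocks_apply₂₁, Matrix.one_apply]
      split_ifs
      · exact hδ1
      · exact hδ0
    · exact hδ0
  ext a a'
  rw [Matrix.add_apply, ← hL, ← hR, Matrix.zero_apply]
  -- the sum
  have hsum : Jp res d (K Δ * D (m a) - d (A a)) (K Δ * D (b a) - A a) (m a') (b a') +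
      Jp res d (m a) (b a) (K Δ * D (m a') - d (A a')) (K Δ * D (b a') - A a') =
      res (Tr κ E (K Δ * D (b a * m a' - b a' * m a + b a' * d (b a)) +
        (A a' * m a - A a * m a') - d (b a * A a'))) := by
    unfold Jp
    rw [← Flt_add hr]
    congr 2
    have h3 : d (K Δ * D (b a) - A a) = K Δ * D (d (b a)) - d (A a) := by
      rw [map_sub, hdK, H.comm]
    rw [h3, map_add, map_sub]
    simp only [Derivation.leibniz, smul_eq_mul]
    ring
  rw [hsum, Flt_sub hr, Flt_add hr, hr.tr_d HL]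
  have h3 : res (Tr κ E (K Δ * D (b a * m a' - b a' * m a + b a' * d (b a)))) = 0 := by
    have h4 := Flt_const (κ := κ) (E := E) hr Δ (D (b a * m a' - b a' * m a + b a' * d (b a)))
    change res (Tr κ E (K Δ * D (b a * m a' - b a' * m a + b a' * d (b a)))) = _ at h4
    rw [h4, hr.tr_D H]
    have h5 : res (Tr κ E (b a * m a' - b a' * m a + b a' * d (b a))) =
        J0 κ (Gx w n) a a' := hJ a a'
    rw [h5, hδJ, mul_zero]
  rw [h3]
  -- the last term
  have hrel : ∀ a, K Δ * ev y (η a) * ev y (pT δ F) =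
      ev y (α a) * ev y (px F) + ev y (β a) * ev y (py F) := by
    intro a
    have h4 := congrArg (ev y) (h1 a)
    rw [map_mul, map_mul, map_add, map_add, map_mul, map_mul, map_mul, HL.root, mul_zero,
      add_zero, ev_C] at h4
    exact h4
  have hXe : A a' * m a - A a * m a' = (A a' * m a - A a * m a') * 1 := (mul_one _).symm
  have hma : ∀ a, m a * ev y (py F) = ev y (η a) := fun a => div_mul_cancel₀ _ hfy
  have hAa : ∀ a, A a * ev y (py F) = ev y (α a) := fun a => div_mul_cancel₀ _ hfy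
  have hpol : InB e ((A a' * m a - A a * m a') * ev y (py F)) := by
    obtain ⟨u, v, z, hs⟩ := hs
    have h4 := congrArg (ev y) hs
    rw [map_add, map_add, map_mul, map_mul, map_mul, HL.root, mul_zero, zero_add, ev_C, C_1] at h4
    have h5 : (inE (κ := κ) E (pol (1 : κ[X])) : E) = 1 := by
      rw [inE, pol, map_one, map_one]
    rw [h5] at h4
    have h6 : (A a' * m a - A a * m a') * ev y (py F) * ev y (py F) =
        ev y (α a' * η a - α a * η a') := by
      rw [map_sub, map_mul, map_mul, ← hAa, ← hAa, ← hma, ← hma]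
      ring
    have h7 : (A a' * m a - A a * m a') * ev y (py F) * ev y (px F) =
        ev y (β a * η a' - β a' * η a) := by
      apply mul_right_cancel₀ hfy
      have h8 := hrel a
      have h9 := hrel a'
      calc (A a' * m a - A a * m a') * ev y (py F) * ev y (px F) * ev y (py F)
          = ((A a' * m a - A a * m a') * ev y (py F) * ev y (py F)) * ev y (px F) := by ring
        _ = (ev y (α a') * ev y (η a) - ev y (α a) * ev y (η a')) * ev y (px F) := by
            rw [h6, map_sub, map_mul, map_mul]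
        _ = ev y (β a * η a' - β a' * η a) * ev y (py F) := by
            rw [map_sub, map_mul, map_mul]
            linear_combination (ev y (η a')) * h8 - (ev y (η a)) * h9
    have h10 : (A a' * m a - A a * m a') * ev y (py F) =
        ev y (v * (β a * η a' - β a' * η a) + z * (α a' * η a - α a * η a')) := by
      rw [map_add, map_mul, map_mul, ← h6, ← h7]
      linear_combination (-((A a' * m a - A a * m a') * ev y (py F))) * h4
    rw [h10]
    exact HL.inB_ev _
  have h1B : InB e (1 : E) := by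
    have h4 := HL.inB_ev 1
    rwa [map_one] at h4
  rw [hXe, hr.tr_pol HL hpol h1B]
  ring

end MPadcLF
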