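import Pool.Agent.Lib.MP_adc574_ag_LF.Bas

/-!
# JOB HBx: existence of the basis

Paper 3.10. `N = w n`. `R` is a domain with `1/2` and an injection `φ` to the field `κ`; over `κ` we have the function
field.
* `rc_anti`: `rc F c c' + rc F c' c = 0` over `κ`: `rc F c c' = res Tr (f_c d f_c')` (as in Bas), and
  `d (f_c f_c')` has residue `0` (`IsRes.tr_d`); over `R` by `mp_rc` and injectivity.
* `coeff_zero`: the coefficient of `x ^ N` in `tau F (dN F N (gg c))` is `res Tr (d f_c) = 0`.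
* the polynomials: `t_j = tau F (X ^ j * dN F N (gg c)) = X ^ (N + 1) * tp_j + tm_j` with
  `tm_j.natDegree ≤ N` (division by the monic `X ^ (N + 1)`), `η₀ = ∑ j < n, C (tp_j) * bb F j`,
  `k = - ∑ j < n, C (tm_j) * bb F j`; by `mod_eq_sum` `dN F N (gg c) %ₘ F = X ^ (N + 1) η₀ - k` (as
  polynomials in `Y` with `C (X ^ (N + 1))`). `WD`: for `j ≥ 1`: `N + w (n - 1 - j) ≤ w (n - 1) + N - 1`
  (`w ≥ 1`); for `j = 0`: `tm_0.natDegree ≤ N - 1` by `coeff_zero` (if `N = 0` … `N ≥ 1`).
* `η (inr c) = η₀ c + (1/2) ∑ c', rc F c c' * C (X ^ l') * bb F i'`: in `HB.mm` the correction has weight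
  `N + 1 + l' + w (n - 1 - i') ≤ w (n - 1) + N - 1` after multiplication by `x ^ (N + 1)`, add it to `k`.
* `HB.jj`: `tc F c' (η₀ c) = rc F c' c` (`tau F (X ^ i' * η₀) = tp_i'` by `tau_bb`, and the coefficient of
  `x ^ (N + 1 + l')` of `t_i'`), and `tc F c' (correction) = (1/2) rc F c c'`; conclude with `rc_anti`.
-/

set_option autoImplicit false

namespace MPadcLF

open Polynomial MPadcCov

section antisym

variable {κ : Type*} [Field κ] {E : Type*} [Field E] [Algebra (RatFunc κ) E] {w n : ℕ}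
  {F : κ[X][X]} {y : E} {e : Module.Basis (Fin n) (RatFunc κ) E} {dK : RatFunc κ → RatFunc κ}
  {d : Derivation ℤ E E}

private theorem HBx_inv (m : ℕ) (z : E) :
    inE (κ := κ) E ((RatFunc.X⁻¹) ^ m) * (inE (κ := κ) E (pol (X ^ m)) * z) = z := by
  have h1 : (RatFunc.X⁻¹ : RatFunc κ) ^ m * pol (X ^ m) = 1 := by
    rw [pol, map_pow, RatFunc.algebraMap_X, ← mul_pow, inv_mul_cancel₀ RatFunc.X_ne_zero, one_pow]
  rw [← mul_assoc, ← map_mul, h1, map_one, one_mul]

/-- `ev h / F_Y` with `h = C (X ^ (N + 1)) …`: the trace of `y ^ i d f_c` -/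
private theorem HBx_tr (H : KL w n F y e dK d) {res : RatFunc κ → κ} (hr : IsRes res)
    (c : Gx w n) (i l : ℕ) :
    (tau F (X ^ i * dN F (w * n) (gg c))).coeff (w * n + 1 + l) =
      res (Tr κ E (inE (κ := κ) E ((RatFunc.X⁻¹) ^ (l + 1)) * y ^ i * d (fE (κ := κ) y c))) := by
  rw [← hr.coeff, ← H.euler, ← tr_inE_mul]
  congr 2
  rw [map_mul, map_pow, ev_X, ← H.d_fE c]
  have h1 : y ^ i * (inE (κ := κ) E (pol (X ^ (w * n + 1))) * ev y (py F) * d (fE (κ := κ) y c)) /
      ev y (py F) = inE (κ := κ) E (pol (X ^ (w * n + 1))) * (y ^ i * d (fE (κ := κ) y c)) := by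
    rw [div_eq_iff H.Fy]
    ring
  rw [h1]
  have h2 : w * n + 1 + l + 1 = (l + 1) + (w * n + 1) := by ring
  have h3 : inE (κ := κ) E ((RatFunc.X⁻¹) ^ (l + 1) * (RatFunc.X⁻¹) ^ (w * n + 1)) =
      inE (κ := κ) E ((RatFunc.X⁻¹) ^ (l + 1)) * inE (κ := κ) E ((RatFunc.X⁻¹) ^ (w * n + 1)) :=
    map_mul _ _ _
  rw [h2, pow_add, h3, mul_assoc, HBx_inv]
  ring

private theorem HBx_anti (H : KL w n F y e dK d) (c c' : Gx w n) : rc F c c' + rc F c' c = 0 := by
  obtain ⟨res, hr⟩ := exists_res κ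
  have h1 : ∀ c c' : Gx w n, rc F c c' = res (Tr κ E (fE (κ := κ) y c * d (fE (κ := κ) y c'))) :=
    fun c c' => HBx_tr H hr c' (c.1 : ℕ) (c.2 : ℕ)
  rw [h1, h1, ← hr.add, ← map_add]
  have h2 : fE (κ := κ) y c * d (fE (κ := κ) y c') + fE (κ := κ) y c' * d (fE (κ := κ) y c) =
      d (fE (κ := κ) y c * fE (κ := κ) y c') := by
    rw [Derivation.leibniz, smul_eq_mul, smul_eq_mul]
  rw [h2]
  exact hr.tr_d H _

private theorem HBx_zero (H : KL w n F y e dK d) (c : Gx w n) :
    (tau F (dN F (w * n) (gg c))).coeff (w * n) = 0 := by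
  obtain ⟨res, hr⟩ := exists_res κ
  rw [← hr.coeff, ← H.euler, ← tr_inE_mul]
  have h0 : inE (κ := κ) E ((RatFunc.X⁻¹) ^ (w * n + 1)) *
      (ev y (dN F (w * n) (gg c)) / ev y (py F)) = d (fE (κ := κ) y c) := by
    rw [← H.d_fE c]
    have h1 : inE (κ := κ) E (pol (X ^ (w * n + 1))) * ev y (py F) * d (fE (κ := κ) y c) /
        ev y (py F) = inE (κ := κ) E (pol (X ^ (w * n + 1))) * d (fE (κ := κ) y c) := by
      rw [div_eq_iff H.Fy]
      ring
    rw [h1, HBx_inv]
  rw [h0]
  exact hr.tr_d H _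

end antisym

/-- coefficients of the quotient by a power of `X` -/
private theorem HBx_quo {R : Type*} [CommRing R] [Nontrivial R] (t : R[X]) (M l : ℕ) :
    (t /ₘ X ^ M).coeff l = t.coeff (M + l) := by
  have h1 := modByMonic_add_div t (X ^ M : R[X])
  have h2 : (t %ₘ X ^ M).natDegree < M ∨ M = 0 := by
    rcases Nat.eq_zero_or_pos M with h0 | h0
    · exact Or.inr h0
    · left
      have h3 := natDegree_modByMonic_lt t (monic_X_pow M) (by
        intro h4
        have h5 := congrArg natDegree h4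
        rw [natDegree_X_pow, natDegree_one] at h5
        omega)
      rwa [natDegree_X_pow] at h3
  rcases h2 with h2 | h2
  · conv_rhs => rw [← h1]
    rw [coeff_add, coeff_eq_zero_of_natDegree_lt (by omega : (t %ₘ X ^ M).natDegree < M + l),
      zero_add, add_comm M l, coeff_X_pow_mul]
  · subst h2
    rw [pow_zero, divByMonic_one, zero_add]

theorem exists_HB {R : Type*} [CommRing R] [IsDomain R] (h2 : ∃ x : R, 2 * x = 1)
    {κ : Type*} [Field κ] (φ : R →+* κ) (hφ : Function.Injective φ) {E : Type*} [Field E]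
    [Algebra (RatFunc κ) E] {w n : ℕ} {F : R[X][X]} (hF : Wt w n F) {y : E}
    {e : Module.Basis (Fin n) (RatFunc κ) E} {dK : RatFunc κ → RatFunc κ}
    {d : Derivation ℤ E E} (H : KL w n (mp φ F) y e dK d) :
    ∃ η : IX w n → R[X][X], HB w n F η := by
  classical
  obtain ⟨half, hhalf⟩ := h2
  have hn : 0 < n := H.hn
  have hw : 0 < w := H.hw
  have hmon := hF.monic
  -- antisymmetry and the vanishing coefficient over `R`
  have hanti : ∀ c c' : Gx w n, rc F c c' + rc F c' c = 0 := by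
    intro c c'
    apply hφ
    rw [map_add, mp_rc φ hmon, mp_rc φ hmon, map_zero]
    exact HBx_anti H c c'
  have hzero : ∀ c : Gx w n, (tau F (dN F (w * n) (gg c))).coeff (w * n) = 0 := by
    intro c
    apply hφ
    rw [← coeff_map, mp_tau φ hmon, mp_dN, mp_gg, map_zero]
    exact HBx_zero H c
  -- the polynomials
  let t : Gx w n → ℕ → R[X] := fun c j => tau F (X ^ j * dN F (w * n) (gg c))
  let tp : Gx w n → ℕ → R[X] := fun c j => t c j /ₘ X ^ (w * n + 1)
  let tm : Gx w n → ℕ → R[X] := fun c j => t c j %ₘ X ^ (w * n + 1)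
  have hsplit : ∀ c j, t c j = X ^ (w * n + 1) * tp c j + tm c j := by
    intro c j
    rw [add_comm]
    exact (modByMonic_add_div (t c j) (X ^ (w * n + 1))).symm
  have htm : ∀ c j, (tm c j).natDegree ≤ w * n := by
    intro c j
    have h3 := natDegree_modByMonic_lt (t c j) (monic_X_pow (R := R) (w * n + 1)) (by
      intro h4
      have h5 := congrArg natDegree h4
      rw [natDegree_X_pow, natDegree_one] at h5
      omega)
    rw [natDegree_X_pow] at h3
    exact Nat.lt_succ_iff.mp h3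
  have htm0 : ∀ c, (tm c 0).natDegree ≤ w * n - 1 := by
    intro c
    have h1 : (tm c 0).coeff (w * n) = 0 := by
      have h3 := hzero c
      have h4 : (t c 0).coeff (w * n) = 0 := by
        show (tau F (X ^ 0 * dN F (w * n) (gg c))).coeff (w * n) = 0
        rw [pow_zero, one_mul]
        exact h3
      rw [hsplit c 0, coeff_add, coeff_X_pow_mul', if_neg (by omega), zero_add] at h4
      exact h4
    have h5 := htm c 0
    by_contra h6
    have h7 : (tm c 0).natDegree = w * n := by omega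
    have h8 : (tm c 0).leadingCoeff = 0 := by
      rw [leadingCoeff, h7, h1]
    rw [leadingCoeff_eq_zero] at h8
    rw [h8, natDegree_zero] at h6
    omega
  let η₀ : Gx w n → R[X][X] := fun c => ∑ j ∈ Finset.range n, C (tp c j) * bb F j
  let k₀ : Gx w n → R[X][X] := fun c => - ∑ j ∈ Finset.range n, C (tm c j) * bb F j
  let cr : Gx w n → R[X][X] := fun c =>
    ∑ c' : Gx w n, cc (half * rc F c c') * (C (X ^ (c'.2 : ℕ)) * bb F c'.1)
  have hmod : ∀ c, C (X ^ (w * n + 1)) * η₀ c = dN F (w * n) (gg c) %ₘ F + k₀ c := by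
    intro c
    have h1 : dN F (w * n) (gg c) %ₘ F = ∑ j ∈ Finset.range n, C (t c j) * bb F j :=
      mod_eq_sum hmon hF.deg _
    rw [h1]
    show _ * (∑ j ∈ Finset.range n, C (tp c j) * bb F j) =
      _ + - ∑ j ∈ Finset.range n, C (tm c j) * bb F j
    rw [← sub_eq_add_neg, ← Finset.sum_sub_distrib, Finset.mul_sum]
    refine Finset.sum_congr rfl fun j _ => ?_
    conv_rhs => rw [hsplit c j]
    rw [C_add, C_mul]
    ring
  have hk₀ : ∀ c, WD w (w * (n - 1) + w * n - 1) (k₀ c) := by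
    intro c
    refine WD.neg (WD.sum _ _ fun j hj => ?_)
    have hj' : j < n := Finset.mem_range.mp hj
    rcases Nat.eq_zero_or_pos j with h0 | h0
    · subst h0
      refine ((WD.ofC (w := w) (htm0 c)).mul (WD.ofbb hF 0 hn)).mono ?_
      have h3 : 0 < w * n := Nat.mul_pos hw hn
      rw [Nat.sub_zero]
      omega
    · refine ((WD.ofC (w := w) (htm c j)).mul (WD.ofbb hF j hj')).mono ?_
      have h4 : w * (n - 1 - j) + w * j = w * (n - 1) := by
        rw [← mul_add]
        congr 1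
        omega
      have h5 : 1 ≤ w * j := Nat.mul_pos hw h0
      omega
  have hcr : ∀ c, WD w (w * (n - 1) + w * n - 1) (C (X ^ (w * n + 1)) * cr c) := by
    intro c
    show WD w _ (_ * ∑ c' : Gx w n, _)
    rw [Finset.mul_sum]
    refine WD.sum _ _ fun c' _ => ?_
    have h1 : WD w (w * n + 1) (C (X ^ (w * n + 1)) : R[X][X]) :=
      WD.ofC (by rw [natDegree_X_pow])
    have h3 : WD w (c'.2 : ℕ) (C (X ^ (c'.2 : ℕ)) : R[X][X]) :=
      WD.ofC (by rw [natDegree_X_pow])
    refine (h1.mul ((WD.ofcc (w := w) (half * rc F c c')).mul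
      (h3.mul (WD.ofbb hF c'.1 c'.1.2)))).mono ?_
    have h4 : w * (n - 1 - (c'.1 : ℕ)) + w * (c'.1 : ℕ) = w * (n - 1) := by
      rw [← mul_add]
      congr 1
      have := c'.1.2
      omega
    have h5 : (c'.2 : ℕ) < w * (c'.1 : ℕ) - 1 := c'.2.2
    omega
  have htc : ∀ (c c' : Gx w n), tc F c (η₀ c' + cr c') = rc F c c' + half * rc F c' c := by
    intro c c'
    have hc : (c.1 : ℕ) < n := c.1.2
    have h1 : tau F (X ^ (c.1 : ℕ) * (η₀ c' + cr c')) = tp c' c.1 +
        ∑ c'' : Gx w n, C (half * rc F c' c'') * (X ^ (c''.2 : ℕ) *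
          (if (c''.1 : ℕ) = (c.1 : ℕ) then 1 else 0)) := by
      have e1 : X ^ (c.1 : ℕ) * (η₀ c' + cr c') =
          ∑ j ∈ Finset.range n, C (tp c' j) * (X ^ (c.1 : ℕ) * bb F j) +
          ∑ c'' : Gx w n, C (C (half * rc F c' c'') * X ^ (c''.2 : ℕ)) *
            (X ^ (c.1 : ℕ) * bb F c''.1) := by
        show X ^ (c.1 : ℕ) * (∑ j ∈ Finset.range n, C (tp c' j) * bb F j +
          ∑ c'' : Gx w n, cc (half * rc F c' c'') * (C (X ^ (c''.2 : ℕ)) * bb F c''.1)) = _
        rw [mul_add, Finset.mul_sum, Finset.mul_sum]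
        refine congrArg₂ _ (Finset.sum_congr rfl fun j _ => ?_)
          (Finset.sum_congr rfl fun j _ => ?_)
        · ring
        · rw [C_mul]
          ring
      rw [e1, tau_add hmon, tau_sum hmon, tau_sum hmon]
      refine congrArg₂ _ ?_ (Finset.sum_congr rfl fun j _ => ?_)
      · rw [Finset.sum_eq_single (c.1 : ℕ)]
        · rw [tau_C_mul hmon, tau_bb hmon hF.deg _ _ hc hc, if_pos rfl, mul_one]
        · intro j hj hne
          rw [tau_C_mul hmon, tau_bb hmon hF.deg _ _ (Finset.mem_range.mp hj) hc, if_neg hne,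
            mul_zero]
        · intro h3
          exact absurd (Finset.mem_range.mpr hc) h3
      · rw [tau_C_mul hmon, tau_bb hmon hF.deg _ _ j.1.2 hc, mul_assoc]
    unfold tc
    rw [h1, coeff_add]
    refine congrArg₂ _ ?_ ?_
    · show (t c' c.1 /ₘ X ^ (w * n + 1)).coeff (c.2 : ℕ) = _
      rw [HBx_quo]
      rfl
    · rw [finsetSum_coeff, Finset.sum_eq_single c]
      · rw [if_pos rfl, mul_one, coeff_C_mul, coeff_X_pow, if_pos rfl, mul_one]
      · intro b _ hb
        rw [coeff_C_mul]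
        by_cases h3 : (b.1 : ℕ) = (c.1 : ℕ)
        · rw [if_pos h3, mul_one, coeff_X_pow]
          have h4 : ¬ (c.2 : ℕ) = (b.2 : ℕ) := by
            intro h5
            apply hb
            obtain ⟨b1, b2⟩ := b
            obtain ⟨c1, c2⟩ := c
            have h6 : b1 = c1 := Fin.ext h3
            subst h6
            have h7 : b2 = c2 := Fin.ext h5.symm
            rw [h7]
          rw [if_neg h4, mul_zero]
        · rw [if_neg h3, mul_zero, coeff_zero, mul_zero]
      · intro h3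
        exact absurd (Finset.mem_univ c) h3
  refine ⟨Sum.elim (fun c => C (X ^ (c.2 : ℕ)) * bb F c.1) (fun c => η₀ c + cr c),
    fun c => rfl, fun c => ?_, fun c c' => ?_⟩
  · obtain ⟨q, hq⟩ := exists_mod hmon (dN F (w * n) (gg c))
    refine ⟨k₀ c + C (X ^ (w * n + 1)) * cr c, -q, (hk₀ c).add (hcr c), ?_⟩
    show C (X ^ (w * n + 1)) * (η₀ c + cr c) = _
    rw [mul_add, hmod c]
    linear_combination (-1 : R[X][X]) * hq
  · show tc F c (η₀ c' + cr c') - tc F c' (η₀ c + cr c) + rc F c' c = 0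
    rw [htc, htc]
    linear_combination (1 - half) * hanti c c' + (rc F c' c) * hhalf

end MPadcLF
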