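import Pool.Agent.Lib.MP_adc574_ag_LF.PpB
import Pool.Agent.Lib.MP_adc574_ag_LF.Bas
import Pool.Agent.Lib.MP_adc574_ag_Cov.Def

/-!
# JOB Hex: exact and regular forms at a point

* `hrec_ev`: induction on `j`: `KL.d_div` with `m = 1 + 2 j`, `ev_mod`.
* `exact_hrec`: `exact_iff`, `hrec_ev`, and `ev (hrec …) = 0` implies `hrec … = 0` because it is a remainder
  modulo `F` (`ev_eq_zero_iff`, `mod_eq_zero_iff`; `hrec F h j %ₘ F = hrec F h j`).
* `isReg`: for `IsReg φ` (Cov/Def.lean): `y ^ i` is integral over `κ[x]` (root of the monic `F`), so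
  `Tr (φ y ^ i)` is a polynomial `t i`; `x ^ (- w i) y ^ i` is integral over `κ[1/x]`: `ζ = x ^ (- w) y` is a root of the
  monic polynomial `∑ j, x ^ (- w (n - j)) F_j(x) Z ^ j`, and `x ^ (- w (n - j)) F_j(x)` is a polynomial in `1/x`; so
  `Tr (φ y ^ i)` has degree `≤ w i - 2`. Put `h = ∑ i < n, C (t i) * bb F i`. `z = φ - ev h / F_Y` satisfies
  `Tr (z y ^ j) = 0` for `j < n` (`tr_ev_div`, `tau_bb`), so `Tr (z z') = 0` for all `z'` (`y ^ j` is a basis), so
  `z = 0` (otherwise `z' = z⁻¹ y ^ (n - 1) / F_Y` has `Tr (z z') = 1`, `euler`, `tau_pow`). The degrees say that `h` is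
  `fo F c` (`t 0 = 0` since its degree is `≤ -2`).
* `isEx`: the `κ`-linear derivation `d` of `E` induces `Ω[E⁄κ] →ₗ[E] E`: as in `Cov0.isEx` (Cov/ExE.lean).
-/

set_option autoImplicit false

namespace MPadcLF

open Polynomial MPadcCov

private theorem Hex_inv {κ : Type*} [Field κ] (N : ℕ) (f : κ[X]) (hf : f.natDegree ≤ N) :
    (aeval (RatFunc.X⁻¹ : RatFunc κ) : κ[X] →ₐ[κ] RatFunc κ) (reflect N f) * RatFunc.X ^ N =
      pol f := by
  let _ : Invertible (RatFunc.X : RatFunc κ) := invertibleOfNonzero RatFunc.X_ne_zero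
  have h1 := eval₂_reflect_mul_pow (algebraMap κ (RatFunc κ)) (RatFunc.X : RatFunc κ) N f hf
  rw [invOf_eq_inv] at h1
  rw [aeval_def, h1]
  have h2 : pol f = eval₂ (algebraMap κ (RatFunc κ)) RatFunc.X f := by
    have h3 : (algebraMap κ[X] (RatFunc κ)) = eval₂RingHom (algebraMap κ (RatFunc κ)) RatFunc.X := by
      apply Polynomial.ringHom_ext
      · intro a
        rw [coe_eval₂RingHom, eval₂_C, RatFunc.algebraMap_C, RatFunc.algebraMap_eq_C]
      · rw [coe_eval₂RingHom, eval₂_X, RatFunc.algebraMap_X]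
    unfold pol
    rw [h3]
    rfl
  exact h2.symm

private theorem Hex_pow {A B : Type*} [CommRing A] [CommRing B] (f : A →+* B) {x : B}
    (hx : f.IsIntegralElem x) (m : ℕ) : f.IsIntegralElem (x ^ m) := by
  induction m with
  | zero =>
    rw [pow_zero]
    refine ⟨X - 1, ?_, ?_⟩
    · have h1 : (X - 1 : A[X]) = X - C 1 := by rw [C_1]
      rw [h1]
      exact monic_X_sub_C 1
    · rw [eval₂_sub, eval₂_X, eval₂_one, sub_self]
  | succ m ih =>
    rw [pow_succ]
    exact RingHom.IsIntegralElem.mul f ih hx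

variable {κ : Type*} [Field κ] {E : Type*} [Field E] [Algebra (RatFunc κ) E] {w n : ℕ}
  {F : κ[X][X]} {y : E} {e : Module.Basis (Fin n) (RatFunc κ) E} {dK : RatFunc κ → RatFunc κ}
  {d : Derivation ℤ E E} {η : IX w n → κ[X][X]}

theorem KL.hrec_ev (H : KL w n F y e dK d) (h : κ[X][X]) (j : ℕ) :
    d^[j] (ev y h / ev y (py F)) = ev y (hrec F h j) / ev y (py F) ^ (1 + 2 * j) := by
  induction j with
  | zero =>
    rw [Function.iterate_zero, id, hrec, H.ev_mod, mul_zero, add_zero, pow_one]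
  | succ j ih =>
    rw [Function.iterate_succ_apply', ih, H.d_div, hrec, H.ev_mod]
    rfl

theorem KL.exact_hrec (p : ℕ) [Fact p.Prime] [CharP κ p] (H : KL w n F y e dK d)
    (h : κ[X][X]) : (∃ G, d G = ev y h / ev y (py F)) ↔ hrec F h (p - 1) = 0 := by
  rw [H.exact_iff p, H.hrec_ev]
  constructor
  · intro h0
    have h1 : ev y (hrec F h (p - 1)) = 0 :=
      (div_eq_zero_iff.1 h0).resolve_right (pow_ne_zero _ H.Fy)
    have h2 := (mod_eq_zero_iff H.wt.monic _).2 ((H.ev_eq_zero_iff _).1 h1)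
    have h3 : hrec F h (p - 1) %ₘ F = hrec F h (p - 1) := by
      refine mod_eq_self H.wt.monic H.wt.deg ?_
      cases p - 1 with
      | zero => exact mod_natDegree H.wt.monic H.wt.deg H.hn _
      | succ m => exact mod_natDegree H.wt.monic H.wt.deg H.hn _
    rw [← h3, h2]
  · intro h0
    rw [h0, map_zero, zero_div]

theorem KL.lc_inl (H : KL w n F y e dK d) (hη : HB w n F η) (c : Gx w n → κ) :
    lc (Sum.elim c 0) (mE F y η) = ev y (fo F c) / ev y (py F) := by
  rw [eq_div_iff H.Fy, H.lc_mE]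
  congr 1
  rw [Fintype.sum_sum_type]
  have h1 : ∑ a : Gx w n, cc ((Sum.elim c 0 : IX w n → κ) (Sum.inr a)) * η (Sum.inr a) = 0 := by
    refine Finset.sum_eq_zero fun a _ => ?_
    show cc (0 : κ) * _ = 0
    simp [cc]
  rw [h1, add_zero]
  unfold fo
  refine Finset.sum_congr rfl fun a _ => ?_
  rw [hη.phi a]
  rfl

/-- `ζ = x ^ (-w) y` is integral over `κ[1/x]` -/
private theorem Hex_int (H : KL w n F y e dK d) :
    IntI κ (inE (κ := κ) E ((RatFunc.X⁻¹) ^ w) * y) := by
  have hX : (RatFunc.X : RatFunc κ) ≠ 0 := RatFunc.X_ne_zero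
  set P : κ[X][X] := ∑ j ∈ Finset.range (n + 1), C (reflect (w * (n - j)) (F.coeff j)) * X ^ j
    with hP
  have hcoef : ∀ i, P.coeff i = if i ≤ n then reflect (w * (n - i)) (F.coeff i) else 0 := by
    intro i
    rw [hP, finsetSum_coeff]
    simp only [coeff_C_mul, coeff_X_pow, mul_ite, mul_one, mul_zero]
    rw [Finset.sum_ite_eq]
    simp only [Finset.mem_range, Nat.lt_succ_iff]
  have hFn : F.coeff n = 1 := by
    have h1 := H.wt.monic.coeff_natDegree
    rwa [H.wt.deg] at h1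
  have hPn : P.coeff n = 1 := by
    rw [hcoef, if_pos le_rfl, Nat.sub_self, mul_zero, hFn]
    have h1 : (1 : κ[X]) = C 1 := C_1.symm
    rw [h1, reflect_C, pow_zero, mul_one]
  have hPd : P.natDegree ≤ n := by
    refine natDegree_le_iff_coeff_eq_zero.2 fun m hm => ?_
    rw [hcoef, if_neg (by omega)]
  refine ⟨P, monic_of_natDegree_le_of_coeff_eq_one n hPd hPn, ?_⟩
  have hdeg : ∀ j, j ≤ n → (F.coeff j).natDegree ≤ w * (n - j) := by
    intro j hj
    by_cases h0 : F.coeff j = 0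
    · rw [h0, natDegree_zero]
      exact Nat.zero_le _
    · have h1 := H.wt.wd j h0
      have h2 : w * (n - j) + w * j = w * n := by
        rw [← mul_add, Nat.sub_add_cancel hj]
      omega
  rw [hP, eval₂_finsetSum]
  have hterm : ∀ j ∈ Finset.range (n + 1),
      eval₂ ((algebraMap (RatFunc κ) E).comp
        (aeval (RatFunc.X⁻¹ : RatFunc κ) : κ[X] →ₐ[κ] RatFunc κ).toRingHom)
        (inE (κ := κ) E ((RatFunc.X⁻¹) ^ w) * y)
        (C (reflect (w * (n - j)) (F.coeff j)) * X ^ j) =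
      inE (κ := κ) E ((RatFunc.X⁻¹) ^ (w * n)) * (inE (κ := κ) E (pol (F.coeff j)) * y ^ j) := by
    intro j hj
    have hj' : j ≤ n := Nat.lt_succ_iff.1 (Finset.mem_range.1 hj)
    rw [eval₂_mul, eval₂_C, eval₂_pow, eval₂_X]
    show inE (κ := κ) E ((aeval (RatFunc.X⁻¹ : RatFunc κ) : κ[X] →ₐ[κ] RatFunc κ)
      (reflect (w * (n - j)) (F.coeff j))) * (inE (κ := κ) E ((RatFunc.X⁻¹) ^ w) * y) ^ j = _
    have h1 := Hex_inv (w * (n - j)) (F.coeff j) (hdeg j hj')
    have h2 : (aeval (RatFunc.X⁻¹ : RatFunc κ) : κ[X] →ₐ[κ] RatFunc κ)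
        (reflect (w * (n - j)) (F.coeff j)) * (RatFunc.X⁻¹ ^ w) ^ j =
        (RatFunc.X⁻¹) ^ (w * n) * pol (F.coeff j) := by
      rw [← h1]
      have h3 : w * n = w * (n - j) + w * j := by
        rw [← mul_add, Nat.sub_add_cancel hj']
      rw [h3, pow_add, ← pow_mul, inv_pow, inv_pow]
      field_simp
    rw [mul_pow, ← mul_assoc, ← mul_assoc]
    congr 1
    rw [← map_pow, ← map_mul, h2, map_mul]
  rw [Finset.sum_congr rfl hterm, ← Finset.mul_sum]
  have h4 : ev y F = ∑ j ∈ Finset.range (n + 1), inE (κ := κ) E (pol (F.coeff j)) * y ^ j := by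
    have h5 : ev y F = eval₂ ((algebraMap (RatFunc κ) E).comp (algebraMap κ[X] (RatFunc κ))) y F :=
      rfl
    rw [h5, eval₂_eq_sum_range, H.wt.deg]
    rfl
  rw [← h4, H.root, mul_zero]

theorem KL.isReg (H : KL w n F y e dK d) {φ : E} (hφ : IsReg (κ := κ) φ) :
    ∃ c : Gx w n → κ, φ = ev y (fo F c) / ev y (py F) := by
  classical
  have hX : (RatFunc.X : RatFunc κ) ≠ 0 := RatFunc.X_ne_zero
  have hmon := H.wt.monic
  obtain ⟨hφ1, hφ2⟩ := hφ
  have hy : IntX κ y := ⟨F, hmon, H.root⟩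
  have h1 : ∀ j : ℕ, IsPol (Tr κ E (φ * y ^ j)) := fun j => hφ1 _ (Hex_pow _ hy j)
  choose t ht using h1
  have h2 : ∀ j : ℕ, Dle (pol (t j)) (((w * j : ℕ) : ℤ) - 2) := by
    intro j
    have h3 := hφ2 _ (Hex_pow _ (Hex_int H) j)
    have h4 : φ * (inE (κ := κ) E ((RatFunc.X⁻¹) ^ w) * y) ^ j =
        inE (κ := κ) E ((RatFunc.X⁻¹) ^ (w * j)) * (φ * y ^ j) := by
      rw [mul_pow, ← map_pow, ← pow_mul]
      ring
    rw [h4, tr_inE_mul, ← ht j] at h3
    have h5 : pol (t j) = pol (X ^ (w * j)) * ((RatFunc.X⁻¹) ^ (w * j) * pol (t j)) := by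
      have h6 : pol (X ^ (w * j)) * (RatFunc.X⁻¹ : RatFunc κ) ^ (w * j) = 1 := by
        rw [pol, map_pow, RatFunc.algebraMap_X, ← mul_pow, mul_inv_cancel₀ hX, one_pow]
      rw [← mul_assoc, h6, one_mul]
    rw [h5]
    have h7 : Dle (pol (X ^ (w * j) : κ[X])) ((w * j : ℕ) : ℤ) :=
      dle_pol_iff.2 (Or.inr (by rw [natDegree_X_pow]))
    exact (h7.mul h3).mono (by linarith)
  -- the polynomial `h`
  have h3 : ∀ j, j < n → Tr κ E ((φ - ev y (∑ i ∈ Finset.range n, C (t i) * bb F i) /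
      ev y (py F)) * y ^ j) = 0 := by
    intro j hj
    have h4 : ev y (X ^ j : κ[X][X]) = y ^ j := by rw [map_pow, ev_X]
    rw [sub_mul, map_sub, ← ht j, ← h4, H.tr_ev_div, ← map_sub]
    have h5 : tau F ((∑ i ∈ Finset.range n, C (t i) * bb F i) * X ^ j) = t j := by
      have h6 : (∑ i ∈ Finset.range n, C (t i) * bb F i) * X ^ j =
          ∑ i ∈ Finset.range n, C (t i) * (X ^ j * bb F i) := by
        rw [Finset.sum_mul]
        refine Finset.sum_congr rfl fun i _ => ?_
        ring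
      rw [h6, tau_sum hmon, Finset.sum_eq_single j]
      · rw [tau_C_mul hmon, tau_bb hmon H.wt.deg _ _ hj hj, if_pos rfl, mul_one]
      · intro i hi hne
        rw [tau_C_mul hmon, tau_bb hmon H.wt.deg _ _ (Finset.mem_range.mp hi) hj, if_neg hne,
          mul_zero]
      · intro h7
        exact absurd (Finset.mem_range.mpr hj) h7
    rw [h5, sub_self, map_zero]
  set z := φ - ev y (∑ i ∈ Finset.range n, C (t i) * bb F i) / ev y (py F) with hz
  have h4 : ∀ z' : E, Tr κ E (z * z') = 0 := by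
    intro z'
    rw [← e.sum_repr z', Finset.mul_sum, map_sum]
    refine Finset.sum_eq_zero fun i _ => ?_
    have h5 : z * (e.repr z' i • e i) = e.repr z' i • (z * y ^ (i : ℕ)) := by
      rw [H.basis i, Algebra.smul_def, Algebra.smul_def]
      ring
    rw [h5, map_smul, h3 _ i.2, smul_zero]
  have h5 : z = 0 := by
    by_contra hne
    have h6 := h4 (z⁻¹ * (ev y (X ^ (n - 1) : κ[X][X]) / ev y (py F)))
    rw [← mul_assoc, mul_inv_cancel₀ hne, one_mul, H.euler,
      tau_pow hmon H.wt.deg _ (by have := H.hn; omega),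
      if_pos (by have := H.hn; omega)] at h6
    rw [pol, map_one] at h6
    exact one_ne_zero h6
  refine ⟨fun a => (t a.1).coeff a.2, ?_⟩
  have h6 : φ = ev y (∑ i ∈ Finset.range n, C (t i) * bb F i) / ev y (py F) := sub_eq_zero.1 h5
  rw [h6]
  congr 2
  unfold fo
  rw [Fintype.sum_sigma, Finset.sum_range]
  refine Finset.sum_congr rfl fun i _ => ?_
  have h7 : t i = ∑ l : Fin (aa w n i - 1), C ((t i).coeff l) * X ^ (l : ℕ) := by
    have h8 := h2 i
    rw [dle_pol_iff] at h8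
    rcases h8 with h8 | h8
    · rw [h8]
      refine (Finset.sum_eq_zero fun l _ => ?_).symm
      rw [coeff_zero, C_0, zero_mul]
    · have h9 : (t i).natDegree < w * (i : ℕ) - 1 := by omega
      have h10 := as_sum_range' (t i) (w * (i : ℕ) - 1) h9
      conv_lhs => rw [h10]
      rw [Finset.sum_range]
      refine Finset.sum_congr rfl fun l _ => ?_
      rw [C_mul_X_pow_eq_monomial]
  conv_lhs => rw [h7]
  rw [map_sum, Finset.sum_mul]
  refine Finset.sum_congr rfl fun l _ => ?_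
  rw [C_mul, mul_assoc]

theorem KL.isEx (H : KL w n F y e dK d) [Algebra κ E] [IsScalarTower κ (RatFunc κ) E] {φ : E}
    (hφ : IsEx (κ := κ) φ) : ∃ G, d G = φ := by
  obtain ⟨G, hG⟩ := hφ
  have hκ : ∀ c : κ, algebraMap κ E c = algebraMap (RatFunc κ) E (pol (C c)) := by
    intro c
    rw [IsScalarTower.algebraMap_apply κ (RatFunc κ) E, pol, RatFunc.algebraMap_C,
      RatFunc.algebraMap_eq_C]
  have hC : ∀ c : κ, dK (pol (C c)) = 0 := by
    intro c
    rw [H.dK_pol, derivative_C]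
    exact map_zero _
  let Δ : Derivation κ E E := Derivation.mk'
    { toFun := fun z => d z
      map_add' := fun x y => map_add d x y
      map_smul' := by
        intro c x
        rw [Algebra.smul_def, Derivation.leibniz, hκ, H.d_alg, hC, map_zero, smul_zero, add_zero,
          RingHom.id_apply, Algebra.smul_def c, hκ, smul_eq_mul] }
    (fun x y => d.leibniz x y)
  have h1 := congrArg Δ.liftKaehlerDifferential hG
  rw [map_smul, Derivation.liftKaehlerDifferential_comp_D,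
    Derivation.liftKaehlerDifferential_comp_D] at h1
  have h2 : d G = φ * d (algebraMap (RatFunc κ) E RatFunc.X) := h1
  refine ⟨G, ?_⟩
  rw [h2, H.d_alg, ← RatFunc.algebraMap_X]
  have h4 : dK (pol (X : κ[X])) = 1 := by
    rw [H.dK_pol, derivative_X, pol, map_one]
  rw [h4, map_one, mul_one]

end MPadcLF
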