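import Pool.Agent.Lib.MP_adc574_ag_LF.PpA
import Pool.Agent.Lib.MP_adc574_ag_LF.Prim

/-!
# JOB PpB: characteristic `p`: primitives on the affine curve

* `exact_iff`: `→`: `iterate_p`; `←`: `prim_of`-formula with `z` in place of `θ G`: `G = ∑ i ∈ range (p - 1),
  (-1) ^ i x ^ (i + 1) / (i + 1)! d^[i] z`, `x = inE (pol X)`, `d x = 1`.
* `prim_of` : general lemma in a field `E` of characteristic `p` with a derivation `θ`, an element `t` with
  `θ t = 1`, and `G` with `θ^[p] G = 0`: `P = ∑ i ∈ range (p - 1), (-1) ^ i t ^ (i + 1) / (i + 1)! θ^[i + 1] G`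
  satisfies `θ P = θ G` (telescoping).
* `prim_finp` (paper 4.1): two charts. `B = {z | InB e z}` is a ring (`inB_mul`). `u F + v F_x + z F_Y = 1`
  gives `v' F_x + z' F_Y = 1` in `B` (values in `E`). (1) `θ = d`, `t = x`: `P₁`, with `F_Y ^ N P₁ ∈ B`: if
  `F_Y ^ m Z ∈ B` then `F_Y ^ (m + 2) d Z ∈ B` (`F_Y d` maps `B` to `B`). (2) If `F_x ≠ 0` in `E`:
  `θ = - (F_Y / F_x) d`, `θ y = 1` (`d y = - F_x / F_Y`), `θ^[p] = 0`: `θ^[p]` is a derivation, `κ`-linear;
  any derivation `τ` of `E` which kills `κ` is `τ (x) d` (the difference kills `RatFunc κ`, `sep`), and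
  `0 = θ^[p] y = θ^[p] (x) d y` with `d y ≠ 0`. `P₂`, with `F_x ^ N P₂ ∈ B`: `F_x θ` maps `B` to `B`,
  `F_x θ G = - F_Y d G ∈ B`, and if `F_x ^ m Z ∈ B` then `F_x ^ (m + 2) θ Z ∈ B`. `d P₂ = - (F_x / F_Y) θ P₂ = d G`.
  (3) `q = p ^ k ≥ N`: `1 = (v' F_x + z' F_Y) ^ q = (v' F_x) ^ q + (z' F_Y) ^ q`, both `q`-th powers are killed by
  `d`; `G₀ = (z' F_Y) ^ q P₁ + (v' F_x) ^ q P₂ ∈ B`, `d G₀ = d G`. If `F_x = 0` in `E` then `z' F_Y = 1`, take
  `G₀ = (z' F_Y) ^ N P₁ = P₁`.
-/

set_option autoImplicit false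

namespace MPadcLF

open Polynomial MPadcCov

private theorem PpB_fac {E : Type*} [Field E] (p : ℕ) [Fact p.Prime] [CharP E p] {i : ℕ}
    (hi : i < p) : ((i.factorial : ℕ) : E) ≠ 0 := by
  rw [Ne, CharP.cast_eq_zero_iff E p, (Fact.out : p.Prime).dvd_factorial]
  omega

private theorem PpB_prim {E : Type*} [Field E] (p : ℕ) [Fact p.Prime] [CharP E p]
    (θ : Derivation ℤ E E) (t z : E) (ht : θ t = 1) (hz : θ^[p - 1] z = 0) :
    θ (∑ i ∈ Finset.range (p - 1), (-1) ^ i * t ^ (i + 1) / ((i + 1).factorial : E) *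
      θ^[i] z) = z := by
  have hp := (Fact.out : p.Prime).two_le
  have hdiv : ∀ (c x : E), θ c = 0 → c ≠ 0 → θ (x / c) = θ x / c := by
    intro c x hc hc0
    have h1 := θ.leibniz (x / c) c
    rw [div_mul_cancel₀ _ hc0, hc, smul_zero, zero_add, smul_eq_mul] at h1
    rw [h1, mul_div_cancel_left₀ _ hc0]
  have hneg : ∀ (i : ℕ) (x : E), θ ((-1) ^ i * x) = (-1) ^ i * θ x := by
    intro i x
    rcases neg_one_pow_eq_or E i with h | h
    · rw [h, one_mul, one_mul]
    · rw [h, neg_one_mul, neg_one_mul, map_neg]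
  have hterm : ∀ i ∈ Finset.range (p - 1),
      θ ((-1) ^ i * t ^ (i + 1) / ((i + 1).factorial : E) * θ^[i] z) =
      ((-1) ^ i * t ^ i / (i.factorial : E) * θ^[i] z) -
      ((-1) ^ (i + 1) * t ^ (i + 1) / ((i + 1).factorial : E) * θ^[i + 1] z) := by
    intro i hi
    have hi' := Finset.mem_range.1 hi
    have hf1 : (((i + 1).factorial : ℕ) : E) ≠ 0 := PpB_fac p (by omega)
    have hf0 : ((i.factorial : ℕ) : E) ≠ 0 := PpB_fac p (by omega)
    have h1 : θ (t ^ (i + 1)) = ((i : E) + 1) * t ^ i := by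
      rw [Derivation.leibniz_pow, ht, smul_eq_mul, mul_one, Nat.add_sub_cancel,
        nsmul_eq_mul, Nat.cast_succ]
    have h2 : θ^[i + 1] z = θ (θ^[i] z) := Function.iterate_succ_apply' _ _ _
    rw [h2, Derivation.leibniz, smul_eq_mul, smul_eq_mul, hdiv _ _ (Derivation.map_natCast θ _) hf1,
      hneg, h1]
    have h3 : (((i + 1).factorial : ℕ) : E) = ((i : E) + 1) * (i.factorial : E) := by
      rw [Nat.factorial_succ, Nat.cast_mul, Nat.cast_succ]
    rw [h3] at hf1 ⊢
    have h4 : (i : E) + 1 ≠ 0 := left_ne_zero_of_mul hf1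
    generalize θ (θ^[i] z) = u
    generalize θ^[i] z = v
    field_simp
    ring
  rw [map_sum, Finset.sum_congr rfl hterm, Finset.sum_range_sub'
    (fun i => (-1) ^ i * t ^ i / (i.factorial : E) * θ^[i] z), hz]
  simp

private theorem PpB_iter {A : Type*} [CommRing A] (D : A → A)
    (hadd : ∀ x y, D (x + y) = D x + D y) (hmul : ∀ x y, D (x * y) = x * D y + y * D x)
    (a b : A) (n : ℕ) :
    (D^[n]) (a * b) = ∑ ij ∈ Finset.HasAntidiagonal.antidiagonal n,
      n.choose ij.1 • ((D^[ij.1]) a * (D^[ij.2]) b) := by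
  have h0 : D 0 = 0 := by
    have h1 := hadd 0 0
    rw [add_zero] at h1
    exact left_eq_add.mp h1
  let D' : A →+ A := { toFun := D, map_zero' := h0, map_add' := hadd }
  have hsum : ∀ (s : Finset (ℕ × ℕ)) (f : ℕ × ℕ → A), D (∑ i ∈ s, f i) = ∑ i ∈ s, D (f i) :=
    fun s f => map_sum D' f s
  have hns : ∀ (m : ℕ) (x : A), D (m • x) = m • D x := fun m x => map_nsmul D' m x
  induction n with
  | zero => simp
  | succ n ih =>
    rw [Finset.sum_antidiagonal_choose_succ_nsmul
      (fun i j => (D^[i]) a * (D^[j]) b) n, Function.iterate_succ_apply', ih, hsum,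
      ← Finset.sum_add_distrib]
    refine Finset.sum_congr rfl fun ij hij => ?_
    have h1 : n.choose ij.2 = n.choose ij.1 :=
      Nat.choose_symm_of_eq_add (by rw [Finset.HasAntidiagonal.mem_antidiagonal] at hij; omega)
    rw [h1, ← smul_add, hns, hmul, Function.iterate_succ_apply',
      Function.iterate_succ_apply']
    congr 1
    ring

private theorem PpB_iterp {A : Type*} [CommRing A] (p : ℕ) [hp : Fact p.Prime]
    (hA : ((p : ℕ) : A) = 0) (D : A → A)
    (hadd : ∀ x y, D (x + y) = D x + D y) (hmul : ∀ x y, D (x * y) = x * D y + y * D x)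
    (a b : A) : (D^[p]) (a * b) = a * (D^[p]) b + b * (D^[p]) a := by
  have hp1 := hp.out.pos
  rw [PpB_iter D hadd hmul, Finset.Nat.sum_antidiagonal_eq_sum_range_succ_mk,
    Finset.sum_range_succ, Finset.sum_eq_single_of_mem 0 (Finset.mem_range.mpr hp1)]
  · simp only [Nat.choose_zero_right, Nat.choose_self, one_smul, Nat.sub_zero, Nat.sub_self,
      Function.iterate_zero, id_eq]
    ring
  · intro k hk hk0
    have h1 : p ∣ p.choose k := hp.out.dvd_choose_self hk0 (Finset.mem_range.mp hk)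
    obtain ⟨c, hc⟩ := h1
    show p.choose k • _ = _
    rw [nsmul_eq_mul, hc, Nat.cast_mul, hA, zero_mul, zero_mul]

variable {κ : Type*} [Field κ] {E : Type*} [Field E] [Algebra (RatFunc κ) E] {w n : ℕ}
  {F : κ[X][X]} {y : E} {e : Module.Basis (Fin n) (RatFunc κ) E} {dK : RatFunc κ → RatFunc κ}
  {d : Derivation ℤ E E} (p : ℕ) [Fact p.Prime] [CharP κ p]

/-- The inclusion of the constants. -/
private noncomputable def PpB_con (κ : Type*) [Field κ] (E : Type*) [Field E]
    [Algebra (RatFunc κ) E] : κ →+* E :=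
  (algebraMap (RatFunc κ) E).comp ((algebraMap κ[X] (RatFunc κ)).comp (C : κ →+* κ[X]))

private theorem PpB_char (κ : Type*) [Field κ] (E : Type*) [Field E] [Algebra (RatFunc κ) E]
    (p : ℕ) [CharP κ p] : CharP E p :=
  charP_of_injective_ringHom (PpB_con κ E).injective p

private theorem PpB_x (H : KL w n F y e dK d) : d (inE (κ := κ) E (pol X)) = 1 := by
  show d (algebraMap (RatFunc κ) E (pol X)) = 1
  rw [H.d_alg, H.dK_pol, derivative_X]
  show algebraMap (RatFunc κ) E (algebraMap κ[X] (RatFunc κ) 1) = 1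
  rw [map_one, map_one]

private theorem PpB_const (H : KL w n F y e dK d) (c : κ) :
    d (inE (κ := κ) E (pol (C c))) = 0 := by
  show d (algebraMap (RatFunc κ) E (pol (C c))) = 0
  rw [H.d_alg, H.dK_pol, derivative_C]
  show algebraMap (RatFunc κ) E (algebraMap κ[X] (RatFunc κ) 0) = 0
  rw [map_zero, map_zero]

/-- A derivation which kills the constants is a multiple of `d`. -/
private theorem PpB_der (H : KL w n F y e dK d) (τ : E → E)
    (hadd : ∀ a b, τ (a + b) = τ a + τ b) (hmul : ∀ a b, τ (a * b) = a * τ b + b * τ a)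
    (hκ : ∀ c : κ, τ (inE (κ := κ) E (pol (C c))) = 0) (z : E) :
    τ z = τ (inE (κ := κ) E (pol X)) * d z := by
  obtain ⟨t, ht⟩ : ∃ t, t = τ (inE (κ := κ) E (pol X)) := ⟨_, rfl⟩
  rw [← ht]
  have hpol : ∀ q : κ[X], τ (inE (κ := κ) E (pol q)) = t * d (inE (κ := κ) E (pol q)) := by
    intro q
    induction q using Polynomial.induction_on with
    | C c => rw [hκ, PpB_const H, mul_zero]
    | add q q' hq hq' =>
      have h1 : inE (κ := κ) E (pol (q + q')) = inE (κ := κ) E (pol q) + inE (κ := κ) E (pol q') := by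
        show algebraMap (RatFunc κ) E (algebraMap κ[X] (RatFunc κ) (q + q')) = _
        rw [map_add, map_add]
      rw [h1, hadd, map_add, hq, hq', mul_add]
    | monomial m c ih =>
      have h1 : inE (κ := κ) E (pol (C c * X ^ (m + 1))) =
          inE (κ := κ) E (pol (C c * X ^ m)) * inE (κ := κ) E (pol X) := by
        show algebraMap (RatFunc κ) E (algebraMap κ[X] (RatFunc κ) (C c * X ^ (m + 1))) = _
        rw [pow_succ, ← mul_assoc, map_mul, map_mul]
      rw [h1, hmul, ih, ← ht, Derivation.leibniz, PpB_x H, smul_eq_mul, smul_eq_mul]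
      ring
  have hrat : ∀ r : RatFunc κ, τ (algebraMap (RatFunc κ) E r) = t * d (algebraMap (RatFunc κ) E r) := by
    intro r
    have h7 : pol r.denom ≠ 0 := RatFunc.algebraMap_ne_zero r.denom_ne_zero
    have h8 : algebraMap (RatFunc κ) E (pol r.denom) ≠ 0 := by
      rw [Ne, map_eq_zero]
      exact h7
    have h5 : r * pol r.denom = pol r.num := ((div_eq_iff h7).mp r.num_div_denom).symm
    have h9 : algebraMap (RatFunc κ) E r * algebraMap (RatFunc κ) E (pol r.denom) =
        algebraMap (RatFunc κ) E (pol r.num) := by rw [← map_mul, h5]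
    have e1 := hpol r.num
    have e2 := hpol r.denom
    change τ (algebraMap (RatFunc κ) E (pol r.num)) = t * d (algebraMap (RatFunc κ) E (pol r.num)) at e1
    change τ (algebraMap (RatFunc κ) E (pol r.denom)) =
      t * d (algebraMap (RatFunc κ) E (pol r.denom)) at e2
    rw [← h9, hmul, Derivation.leibniz, smul_eq_mul, smul_eq_mul] at e1
    refine mul_left_cancel₀ h8 ?_
    linear_combination e1 - algebraMap (RatFunc κ) E r * e2
  let Δ : Derivation (RatFunc κ) E E := Derivation.mk'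
    { toFun := fun z => τ z - t * d z
      map_add' := fun a b => by
        show τ (a + b) - t * d (a + b) = τ a - t * d a + (τ b - t * d b)
        rw [hadd, map_add]
        ring
      map_smul' := by
        intro r a
        show τ (r • a) - t * d (r • a) = r • (τ a - t * d a)
        rw [Algebra.smul_def, Algebra.smul_def, hmul, hrat, Derivation.leibniz, smul_eq_mul,
          smul_eq_mul]
        ring }
    (fun a b => by
      show τ (a * b) - t * d (a * b) = a • (τ b - t * d b) + b • (τ a - t * d a)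
      rw [hmul, Derivation.leibniz, smul_eq_mul, smul_eq_mul, smul_eq_mul, smul_eq_mul]
      ring)
  have h2 : Δ z = 0 := by rw [H.sep Δ, Derivation.zero_apply]
  have h3 : τ z - t * d z = 0 := h2
  exact sub_eq_zero.1 h3

private theorem PpB_one (H : KL w n F y e dK d) : InB e (1 : E) := by
  have h1 := H.inB_ev 1
  rwa [map_one] at h1

private theorem PpB_pow (H : KL w n F y e dK d) {z : E} (hz : InB e z) (m : ℕ) : InB e (z ^ m) := by
  induction m with
  | zero => rw [pow_zero]; exact PpB_one H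
  | succ m ih => rw [pow_succ]; exact H.inB_mul ih hz

private theorem PpB_sum {ι : Type*} (s : Finset ι) (f : ι → E)
    (hf : ∀ i ∈ s, InB e (f i)) : InB e (∑ i ∈ s, f i) := by
  classical
  induction s using Finset.induction_on with
  | empty => rw [Finset.sum_empty]; exact InB.zero
  | insert a s ha ih =>
    rw [Finset.sum_insert ha]
    exact (hf a (Finset.mem_insert_self _ _)).add
      (ih fun i hi => hf i (Finset.mem_insert_of_mem hi))

private theorem PpB_inv (H : KL w n F y e dK d) (m : ℕ) : InB e ((m : E)⁻¹) := by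
  have h1 : ((m : E)⁻¹) = ev y (C (C ((m : κ)⁻¹))) := by
    rw [ev_C]
    have h2 : PpB_con κ E ((m : κ)⁻¹) = (m : E)⁻¹ := by rw [map_inv₀, map_natCast]
    exact h2.symm
  rw [h1]
  exact H.inB_ev _

/-- Multiples by powers of `f` are in `B`: the sums. -/
private theorem PpB_bound (H : KL w n F y e dK d) {f t : E} (hf : InB e f) (ht : InB e t)
    (Z : ℕ → E) (hZ : ∀ i, InB e (f ^ (2 * i + 1) * Z i)) (M : ℕ) :
    InB e (f ^ (2 * M + 1) * ∑ i ∈ Finset.range M,
      (-1) ^ i * t ^ (i + 1) / ((i + 1).factorial : E) * Z i) := by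
  rw [Finset.mul_sum]
  refine PpB_sum _ _ fun i hi => ?_
  have hi' := Finset.mem_range.1 hi
  have e1 : f ^ (2 * M + 1) * ((-1) ^ i * t ^ (i + 1) / ((i + 1).factorial : E) * Z i) =
      ((-1) ^ i * t ^ (i + 1) * ((i + 1).factorial : E)⁻¹) *
        (f ^ (2 * (M - i)) * (f ^ (2 * i + 1) * Z i)) := by
    have e2 : f ^ (2 * M + 1) = f ^ (2 * (M - i)) * f ^ (2 * i + 1) := by
      rw [← pow_add]
      congr 1
      omega
    rw [e2, div_eq_mul_inv]
    ring
  rw [e1]
  have hneg : InB e ((-1 : E) ^ i) := PpB_pow H (PpB_one H).neg i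
  exact H.inB_mul (H.inB_mul (H.inB_mul hneg (PpB_pow H ht _)) (PpB_inv H _))
    (H.inB_mul (PpB_pow H hf _) (hZ i))

omit [Algebra (RatFunc κ) E] in
theorem prim_of [CharP E p] (θ : Derivation ℤ E E) (t G : E) (ht : θ t = 1)
    (hG : θ^[p] G = 0) :
    θ (∑ i ∈ Finset.range (p - 1), (-1) ^ i * t ^ (i + 1) / ((i + 1).factorial : E) *
      θ^[i + 1] G) = θ G := by
  have hp := (Fact.out : p.Prime).two_le
  refine PpB_prim p θ t (θ G) ht ?_
  rw [← Function.iterate_succ_apply]
  have h1 : (p - 1).succ = p := by omega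
  rw [h1]
  exact hG

/-- `d G = 0` if and only if the form is exact: criterion. -/
theorem KL.exact_iff (H : KL w n F y e dK d) (z : E) : (∃ G, d G = z) ↔ d^[p - 1] z = 0 := by
  have hp := (Fact.out : p.Prime).two_le
  have : CharP E p := PpB_char κ E p
  constructor
  · rintro ⟨G, rfl⟩
    rw [← Function.iterate_succ_apply]
    have h1 : (p - 1).succ = p := by omega
    rw [h1]
    exact H.iterate_p p G
  · intro h
    exact ⟨_, PpB_prim p d _ z (PpB_x H) h⟩

private theorem PpB_finp (p : ℕ) [Fact p.Prime] [CharP κ p] (H : KL w n F y e dK d)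
    (hs : Sm F 1) {G : E}
    (hG : InB e (d G * ev y (py F))) : ∃ G₀ : E, InB e G₀ ∧ d (G - G₀) = 0 := by
  have hp := (Fact.out : p.Prime).two_le
  have hcharE : CharP E p := PpB_char κ E p
  have hpE : ((p : ℕ) : E) = 0 := CharP.cast_eq_zero E p
  obtain ⟨f, hf⟩ : ∃ f, f = ev y (py F) := ⟨_, rfl⟩
  obtain ⟨g, hg⟩ : ∃ g, g = ev y (px F) := ⟨_, rfl⟩
  have hf0 : f ≠ 0 := by rw [hf]; exact H.Fy
  have hfB : InB e f := by rw [hf]; exact H.inB_ev _
  have hgB : InB e g := by rw [hg]; exact H.inB_ev _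
  rw [← hf] at hG
  obtain ⟨u, v, z, huvz⟩ := hs
  have hvz : ev y v * g + ev y z * f = 1 := by
    have h1 := congrArg (ev y) huvz
    rw [map_add, map_add, map_mul, map_mul, map_mul, H.root, mul_zero, zero_add, ← hf, ← hg] at h1
    rw [h1]
    have h2 : (cc (1 : κ) : κ[X][X]) = 1 := by
      show C (C (1 : κ)) = (1 : κ[X][X])
      rw [C_1, C_1]
    rw [h2, map_one]
  -- the values
  have hxB : InB e (inE (κ := κ) E (pol X)) := by
    rw [← ev_C y]
    exact H.inB_ev _
  have hyB : InB e y := by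
    have h1 := H.inB_ev (X : κ[X][X])
    rwa [ev_X] at h1
  have hfd : ∀ b, InB e b → InB e (f * d b) := by
    intro b hb
    obtain ⟨h, -, rfl⟩ := H.exists_ev hb
    rw [mul_comm, hf, H.d_ev]
    exact H.inB_ev _
  have hdpow : ∀ (θ : Derivation ℤ E E) (a b : E) (m : ℕ), a * θ (a ^ m * b) =
      a ^ m * (a * θ b) + (m : E) * (θ a) * (a ^ m * b) := by
    intro θ a b m
    rw [Derivation.leibniz, smul_eq_mul, smul_eq_mul, Derivation.leibniz_pow, smul_eq_mul,
      nsmul_eq_mul]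
    rcases Nat.eq_zero_or_pos m with h0 | h0
    · rw [h0]
      simp
    · obtain ⟨j, rfl⟩ : ∃ j, m = j + 1 := ⟨m - 1, by omega⟩
      rw [Nat.add_sub_cancel, pow_succ]
      ring
  -- the first chart
  obtain ⟨P₁, hP₁, hP₁B⟩ : ∃ P₁ : E, d P₁ = d G ∧ ∃ N, InB e (f ^ N * P₁) := by
    refine ⟨_, prim_of p d (inE (κ := κ) E (pol X)) G (PpB_x H) (H.iterate_p p G), 2 * (p - 1) + 1,
      PpB_bound H hfB hxB (fun i => d^[i + 1] G) ?_ (p - 1)⟩
    intro i
    induction i with
    | zero =>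
      rw [Nat.mul_zero, zero_add, pow_one, mul_comm]
      exact hG
    | succ i ih =>
      have e0 : d^[i + 1 + 1] G = d (d^[i + 1] G) := Function.iterate_succ_apply' _ _ _
      rw [e0]
      generalize d^[i + 1] G = Z at ih ⊢
      have e1 := hdpow d f Z (2 * i + 1)
      have e2 : f ^ (2 * (i + 1) + 1) * d Z =
          f * (f * d (f ^ (2 * i + 1) * Z)) -
            ((2 * i + 1 : ℕ) : E) * (f * d f) * (f ^ (2 * i + 1) * Z) := by
        rw [e1]
        ring
      rw [e2]
      refine (H.inB_mul hfB (hfd _ ih)).sub (H.inB_mul (H.inB_mul ?_ (hfd _ hfB)) ih)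
      have h5 := H.inB_ev (((2 * i + 1 : ℕ) : κ[X][X]))
      rwa [map_natCast] at h5
  by_cases hg0 : g = 0
  · obtain ⟨N, hN⟩ := hP₁B
    refine ⟨P₁, ?_, by rw [map_sub, hP₁, sub_self]⟩
    rw [hg0, mul_zero, zero_add] at hvz
    have h1 : P₁ = ev y z ^ N * (f ^ N * P₁) := by
      rw [← mul_assoc, ← mul_pow, hvz, one_pow, one_mul]
    rw [h1]
    exact H.inB_mul (PpB_pow H (H.inB_ev z) N) hN
  -- the second chart
  obtain ⟨θ, hθ⟩ : ∃ θ : Derivation ℤ E E, θ = (-(f / g)) • d := ⟨_, rfl⟩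
  have hθ' : ∀ a, g * θ a = -(f * d a) := by
    intro a
    rw [hθ, Derivation.smul_apply, smul_eq_mul]
    field_simp
  have hdy : d y * f = -g := by
    have h1 := H.d_ev (X : κ[X][X])
    rw [ev_X] at h1
    rw [hf, h1, hg]
    unfold br
    rw [px_X, py_X, zero_mul, one_mul, zero_sub, map_neg]
  have hθy : θ y = 1 := by
    have h1 := hθ' y
    rw [mul_comm f (d y), hdy, neg_neg] at h1
    exact mul_left_cancel₀ hg0 (h1.trans (mul_one g).symm)
  have hθκ : ∀ c : κ, θ (inE (κ := κ) E (pol (C c))) = 0 := by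
    intro c
    have h1 := hθ' (inE (κ := κ) E (pol (C c)))
    rw [PpB_const H, mul_zero, neg_zero] at h1
    exact (mul_eq_zero.1 h1).resolve_left hg0
  have hθp : ∀ a, θ^[p] a = 0 := by
    have hadd : ∀ a b, θ^[p] (a + b) = θ^[p] a + θ^[p] b := fun a b => iterate_map_add θ p a b
    have hmul : ∀ a b, θ^[p] (a * b) = a * θ^[p] b + b * θ^[p] a := fun a b =>
      PpB_iterp p hpE (fun x => θ x) (fun x y => map_add θ x y) (fun x y => θ.leibniz x y) a b
    have hzero : ∀ m, θ^[m] (0 : E) = 0 := fun m => iterate_map_zero θ m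
    have hκp : ∀ c : κ, θ^[p] (inE (κ := κ) E (pol (C c))) = 0 := by
      intro c
      have h1 : p = (p - 1) + 1 := by omega
      rw [h1, Function.iterate_succ_apply, hθκ, hzero]
    have hall := PpB_der H (fun a => θ^[p] a) hadd hmul hκp
    have hy0 : θ^[p] y = 0 := by
      have h1 : p = (p - 2) + 1 + 1 := by omega
      rw [h1, Function.iterate_succ_apply, hθy, Function.iterate_succ_apply,
        Derivation.map_one_eq_zero, hzero]
    have hdy0 : d y ≠ 0 := by
      intro h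
      rw [h, zero_mul] at hdy
      exact hg0 (neg_eq_zero.1 hdy.symm)
    have h3 : θ^[p] (inE (κ := κ) E (pol X)) = 0 := by
      have h4 := hall y
      change θ^[p] y = θ^[p] (inE (κ := κ) E (pol X)) * d y at h4
      rw [hy0] at h4
      exact (mul_eq_zero.1 h4.symm).resolve_right hdy0
    intro a
    have h4 := hall a
    change θ^[p] a = θ^[p] (inE (κ := κ) E (pol X)) * d a at h4
    rw [h4, h3, zero_mul]
  have hgθ : ∀ b, InB e b → InB e (g * θ b) := by
    intro b hb
    rw [hθ' b]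
    exact (hfd b hb).neg
  obtain ⟨P₂, hP₂, hP₂B⟩ : ∃ P₂ : E, θ P₂ = θ G ∧ ∃ N, InB e (g ^ N * P₂) := by
    refine ⟨_, prim_of p θ y G hθy (hθp G), 2 * (p - 1) + 1,
      PpB_bound H hgB hyB (fun i => θ^[i + 1] G) ?_ (p - 1)⟩
    intro i
    induction i with
    | zero =>
      rw [Nat.mul_zero, zero_add, pow_one]
      have e0 : θ^[1] G = θ G := rfl
      rw [e0, hθ' G, mul_comm f]
      exact hG.neg
    | succ i ih =>
      have e0 : θ^[i + 1 + 1] G = θ (θ^[i + 1] G) := Function.iterate_succ_apply' _ _ _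
      rw [e0]
      generalize θ^[i + 1] G = Z at ih ⊢
      have e1 := hdpow θ g Z (2 * i + 1)
      have e2 : g ^ (2 * (i + 1) + 1) * θ Z =
          g * (g * θ (g ^ (2 * i + 1) * Z)) -
            ((2 * i + 1 : ℕ) : E) * (g * θ g) * (g ^ (2 * i + 1) * Z) := by
        rw [e1]
        ring
      rw [e2]
      refine (H.inB_mul hgB (hgθ _ ih)).sub (H.inB_mul (H.inB_mul ?_ (hgθ _ hgB)) ih)
      have h5 := H.inB_ev (((2 * i + 1 : ℕ) : κ[X][X]))
      rwa [map_natCast] at h5
  have hdP₂ : d P₂ = d G := by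
    have h1 := hθ' P₂
    have h2 := hθ' G
    rw [hP₂, h2] at h1
    exact (mul_left_cancel₀ hf0 (neg_injective h1)).symm
  -- gluing
  obtain ⟨N₁, hN₁⟩ := hP₁B
  obtain ⟨N₂, hN₂⟩ := hP₂B
  obtain ⟨q, hq⟩ : ∃ q, q = p ^ (N₁ + N₂ + 1) := ⟨_, rfl⟩
  have hqN : N₁ + N₂ + 1 < q := by rw [hq]; exact Nat.lt_pow_self (by omega)
  have hdq : ∀ a : E, d (a ^ q) = 0 := by
    intro a
    rw [hq, pow_succ, pow_mul, Derivation.leibniz_pow, ← Nat.cast_smul_eq_nsmul E, hpE, zero_smul]
  have hsum : (ev y v * g) ^ q + (ev y z * f) ^ q = 1 := by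
    rw [hq, ← add_pow_char_pow, hvz, one_pow]
  refine ⟨(ev y z * f) ^ q * P₁ + (ev y v * g) ^ q * P₂, ?_, ?_⟩
  · have e1 : (ev y z * f) ^ q * P₁ = ev y z ^ q * (f ^ (q - N₁) * (f ^ N₁ * P₁)) := by
      have e2 : f ^ q = f ^ (q - N₁) * f ^ N₁ := by
        rw [← pow_add]
        congr 1
        omega
      rw [mul_pow, e2]
      ring
    have e3 : (ev y v * g) ^ q * P₂ = ev y v ^ q * (g ^ (q - N₂) * (g ^ N₂ * P₂)) := by
      have e2 : g ^ q = g ^ (q - N₂) * g ^ N₂ := by
        rw [← pow_add]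
        congr 1
        omega
      rw [mul_pow, e2]
      ring
    rw [e1, e3]
    exact (H.inB_mul (PpB_pow H (H.inB_ev z) q) (H.inB_mul (PpB_pow H hfB _) hN₁)).add
      (H.inB_mul (PpB_pow H (H.inB_ev v) q) (H.inB_mul (PpB_pow H hgB _) hN₂))
  · rw [map_sub, map_add, Derivation.leibniz, Derivation.leibniz, hdq, hdq, hP₁, hdP₂,
      smul_eq_mul, smul_eq_mul, smul_eq_mul, smul_eq_mul]
    linear_combination (-(d G)) * hsum

theorem KL.prim_finp (H : KL w n F y e dK d) (hs : Sm F 1) {G : E}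
    (hG : InB e (d G * ev y (py F))) : ∃ G₀ : E, InB e G₀ ∧ d (G - G₀) = 0 := by
  obtain ⟨q, hq⟩ := CharP.exists κ
  rcases CharP.char_is_prime_or_zero κ q with hq' | hq'
  · have : Fact q.Prime := ⟨hq'⟩
    exact PpB_finp q H hs hG
  · subst hq'
    have : CharZero κ := CharP.charP_to_charZero κ
    exact ⟨G, H.prim_fin0 hs hG, by rw [sub_self, map_zero]⟩

end MPadcLF
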