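import Pool.Agent.Lib.MP_adc574_ag_LF.Conn
import Pool.Agent.Lib.MP_adc574_ag_LF.Prim
import Pool.Agent.Lib.MP_adc574_ag_LF.PpB

/-!
# JOB IsoP: the exact classes in characteristic `p` are isotropic and stable

Paper 4.3, 4.4.
* `ex_iso`: `m = lc c (mE F y η)`, `b = lc c (bE κ y)`, `m = d G`. `prim_finp`: `m = d g₀`, `g₀ ∈ B`
  (`lc_mE`: `m F_Y ∈ B`). `d (b - g₀) = d b - m` has `BDeg (-2)` (`lc_low`), so by `prim_infp` `b - g₀ = β₀ + z`,
  `BDeg 0 β₀`, `d z = 0`. The same for `c'`. Then `b m' - b' m + b' d b =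
  g₀ d g₀' + d (β₀ g₀') + d (z g₀') + β₀' d β₀ + d (z' β₀)` (paper 4.3; `ring` in `E` after `Derivation.leibniz`,
  `d z = d z' = 0`). Traces: `tr_pol` (`d g₀' F_Y ∈ B`), `tr_d`, `bdeg_mul` and `bdeg_two` with `tr_low`. Conclude
  with `Jp_lc`.
* `ex_stable`: `gm_lc` and `D (d G) = d (D G)`, `d` commutes with the constant `Δ` (`d_const`).
* `nb_exact`: `D^[j] (lc c (mE …)) - lc ((nb …)^[j] c) (mE …)` is in the image of `d` (induction on `j`, `gm_lc`
  divided by `Δ`, `H.comm`).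
* `nilp`: `nabla = nb δ Δ G`. By `iterate_p_D` and `nb_exact` `nabla^[p] c` is exact for every `c`. Leibniz
  (`flat` for `G / Δ`): `δ (J0 (u, v)) = J0 (nabla u, v) + J0 (u, nabla v)`, so in characteristic `p`
  `0 = δ^[p] (J0 (u, v)) = J0 (nabla^[p] u, v) + J0 (u, nabla^[p] v)` (binomials). For exact `u` both `u` and
  `nabla^[p] v` are exact, so `J0 (nabla^[p] u, v) = - J0 (u, nabla^[p] v) = 0` for all `v`, and `J0` is
  nondegenerate: `nabla^[p] u = 0`.
-/

set_option autoImplicit false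

namespace MPadcLF

open Polynomial MPadcCov

private theorem IsoP_iter {V A : Type*} [AddCommGroup A] (δ : A → A)
    (hδ : ∀ a b, δ (a + b) = δ a + δ b) (N : V → V) (B : V → V → A)
    (hB : ∀ u v, δ (B u v) = B (N u) v + B u (N v)) (u v : V) (n : ℕ) :
    δ^[n] (B u v) = ∑ ij ∈ Finset.HasAntidiagonal.antidiagonal n,
      n.choose ij.1 • B (N^[ij.1] u) (N^[ij.2] v) := by
  have h0 : δ 0 = 0 := by
    have h1 := hδ 0 0
    rw [add_zero] at h1
    exact left_eq_add.mp h1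
  let D' : A →+ A := { toFun := δ, map_zero' := h0, map_add' := hδ }
  have hsum : ∀ (s : Finset (ℕ × ℕ)) (f : ℕ × ℕ → A), δ (∑ i ∈ s, f i) = ∑ i ∈ s, δ (f i) :=
    fun s f => map_sum D' f s
  have hns : ∀ (m : ℕ) (x : A), δ (m • x) = m • δ x := fun m x => map_nsmul D' m x
  induction n with
  | zero => simp
  | succ n ih =>
    rw [Finset.sum_antidiagonal_choose_succ_nsmul
      (fun i j => B (N^[i] u) (N^[j] v)) n, Function.iterate_succ_apply', ih, hsum,
      ← Finset.sum_add_distrib]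
    refine Finset.sum_congr rfl fun ij hij => ?_
    have h1 : n.choose ij.2 = n.choose ij.1 :=
      Nat.choose_symm_of_eq_add (by rw [Finset.HasAntidiagonal.mem_antidiagonal] at hij; omega)
    rw [h1, ← smul_add, hns, hB, Function.iterate_succ_apply',
      Function.iterate_succ_apply', add_comm]

private theorem IsoP_iterp {V A : Type*} [AddCommGroup A] (p : ℕ) [hp : Fact p.Prime]
    (hA : ∀ a : A, p • a = 0) (δ : A → A)
    (hδ : ∀ a b, δ (a + b) = δ a + δ b) (N : V → V) (B : V → V → A)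
    (hB : ∀ u v, δ (B u v) = B (N u) v + B u (N v)) (u v : V) :
    δ^[p] (B u v) = B u (N^[p] v) + B (N^[p] u) v := by
  have hp1 := hp.out.pos
  rw [IsoP_iter δ hδ N B hB, Finset.Nat.sum_antidiagonal_eq_sum_range_succ_mk,
    Finset.sum_range_succ, Finset.sum_eq_single_of_mem 0 (Finset.mem_range.mpr hp1)]
  · simp only [Nat.choose_zero_right, Nat.choose_self, one_smul, Nat.sub_zero, Nat.sub_self,
      Function.iterate_zero, id_eq]
  · intro k hk hk0
    have h1 : p ∣ p.choose k := hp.out.dvd_choose_self hk0 (Finset.mem_range.mp hk)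
    obtain ⟨c, hc⟩ := h1
    show p.choose k • _ = _
    rw [hc, mul_comm, mul_smul, hA, smul_zero]

private theorem IsoP_J_mul (R : Type*) [CommRing R] (γ : Type) [Fintype γ] [DecidableEq γ] :
    J0 R γ * (-J0 R γ) = 1 := by
  unfold J0
  rw [mul_neg, Matrix.fromBlocks_multiply]
  simp only [mul_zero, add_zero, zero_add, mul_one, mul_neg, neg_zero]
  rw [Matrix.fromBlocks_neg, neg_neg, neg_zero, Matrix.fromBlocks_one]

private theorem IsoP_nondeg (R : Type*) [CommRing R] (γ : Type) [Fintype γ] [DecidableEq γ]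
    (u : γ ⊕ γ → R) (h : ∀ v, MPadcLP.BB (J0 R γ) u v = 0) : u = 0 := by
  have h1 : Matrix.vecMul u (J0 R γ) = 0 := by
    apply dotProduct_eq_zero
    intro v
    rw [← Matrix.dotProduct_mulVec]
    exact h v
  have h2 : Matrix.vecMul (Matrix.vecMul u (J0 R γ)) (-J0 R γ) = u := by
    rw [Matrix.vecMul_vecMul, IsoP_J_mul, Matrix.vecMul_one]
  rw [← h2, h1, Matrix.zero_vecMul]

private theorem IsoP_J_const {R : Type*} [CommRing R] {γ : Type} [DecidableEq γ] {δ : R → R}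
    (hδ : IsDer δ) (i j : γ ⊕ γ) : δ (J0 R γ i j) = 0 := by
  unfold J0
  rcases i with i | i <;> rcases j with j | j
  · exact hδ.zero
  · show δ (-((1 : Matrix γ γ R) i j)) = 0
    rw [hδ.neg, Matrix.one_apply]
    split_ifs
    · rw [hδ.one, neg_zero]
    · rw [hδ.zero, neg_zero]
  · show δ ((1 : Matrix γ γ R) i j) = 0
    rw [Matrix.one_apply]
    split_ifs
    · exact hδ.one
    · exact hδ.zero
  · exact hδ.zero

private theorem IsoP_leib {κ : Type*} [Field κ] {γ : Type} [Fintype γ] [DecidableEq γ] {δ : κ → κ}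
    (hδ : IsDer δ) {Δ : κ} {G : Matrix (γ ⊕ γ) (γ ⊕ γ) κ}
    (hflat : G.transpose * J0 κ γ + J0 κ γ * G = 0) (u v : γ ⊕ γ → κ) :
    δ (MPadcLP.BB (J0 κ γ) u v) =
      MPadcLP.BB (J0 κ γ) (nb δ Δ G u) v + MPadcLP.BB (J0 κ γ) u (nb δ Δ G v) := by
  have hu : nb δ Δ G u = (fun a => δ (u a)) + Δ⁻¹ • G.mulVec u := by
    funext a
    rfl
  have hv : nb δ Δ G v = (fun a => δ (v a)) + Δ⁻¹ • G.mulVec v := by
    funext a
    rfl
  unfold MPadcLP.BB
  rw [hu, hv, Matrix.mulVec_add, Matrix.mulVec_smul, add_dotProduct, dotProduct_add,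
    smul_dotProduct, dotProduct_smul]
  have h1 : (G.mulVec u) ⬝ᵥ (J0 κ γ).mulVec v + u ⬝ᵥ (J0 κ γ).mulVec (G.mulVec v) = 0 := by
    have h2 : (G.mulVec u) ⬝ᵥ (J0 κ γ).mulVec v = u ⬝ᵥ (G.transpose * J0 κ γ).mulVec v := by
      rw [← Matrix.mulVec_mulVec, Matrix.dotProduct_mulVec u, Matrix.vecMul_transpose]
    rw [h2, Matrix.mulVec_mulVec, ← dotProduct_add, ← Matrix.add_mulVec, hflat,
      Matrix.zero_mulVec, dotProduct_zero]
  have h3 : δ (u ⬝ᵥ (J0 κ γ).mulVec v) =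
      (fun a => δ (u a)) ⬝ᵥ (J0 κ γ).mulVec v + u ⬝ᵥ (J0 κ γ).mulVec (fun a => δ (v a)) := by
    have h4 : ∀ a, δ ((J0 κ γ).mulVec v a) = (J0 κ γ).mulVec (fun a => δ (v a)) a := by
      intro a
      unfold Matrix.mulVec dotProduct
      rw [hδ.sum]
      refine Finset.sum_congr rfl fun b _ => ?_
      rw [hδ.mul, IsoP_J_const hδ, mul_zero, add_zero]
    unfold dotProduct
    rw [hδ.sum, ← Finset.sum_add_distrib]
    refine Finset.sum_congr rfl fun a _ => ?_
    rw [hδ.mul, h4]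
    ring
  rw [h3]
  simp only [smul_eq_mul]
  linear_combination (-Δ⁻¹) * h1

variable {κ : Type*} [Field κ] {E : Type*} [Field E] [Algebra (RatFunc κ) E] {w n : ℕ}
  {F : κ[X][X]} {y : E} {e : Module.Basis (Fin n) (RatFunc κ) E} {δ : κ → κ}
  {dK DK : RatFunc κ → RatFunc κ} {d D : Derivation ℤ E E} {η : IX w n → κ[X][X]}

private theorem IsoP_split (p : ℕ) [Fact p.Prime] [CharP κ p] (H : KL w n F y e dK d)
    (hη : HB w n F η) (hs : Sm F 1) (c : IX w n → κ) (h : ∃ G, d G = lc c (mE F y η)) :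
    ∃ g β z : E, InB e g ∧ BDeg e (aa w n) 0 β ∧ d z = 0 ∧ d g = lc c (mE F y η) ∧
      lc c (bE κ y) = g + β + z := by
  obtain ⟨G, hG⟩ := h
  have h1 : InB e (d G * ev y (py F)) := by
    rw [hG, H.lc_mE]
    exact H.inB_ev _
  obtain ⟨g, hg, hg'⟩ := H.prim_finp hs h1
  have h2 : d g = lc c (mE F y η) := by
    rw [map_sub, sub_eq_zero] at hg'
    rw [← hg', hG]
  have h3 : BDeg e (aa w n) (-2) (d (lc c (bE κ y) - g)) := by
    have h4 := BDeg.neg (H.lc_low hη c)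
    have h5 : -(lc c (mE F y η) - d (lc c (bE κ y))) = d (lc c (bE κ y) - g) := by
      rw [map_sub, h2]
      ring
    rw [h5] at h4
    exact h4
  obtain ⟨β, hβ, hβ'⟩ := H.prim_infp p (H.iterate_p p) h3
  refine ⟨g, β, lc c (bE κ y) - g - β, hg, hβ, hβ', h2, ?_⟩
  ring

private theorem IsoP_lc_mul (r : κ) (c : IX w n → κ) (m : IX w n → E) :
    lc (fun a => r * c a) m = inE (κ := κ) E (pol (C r)) * lc c m := by
  unfold lc
  rw [Finset.mul_sum]
  refine Finset.sum_congr rfl fun a _ => ?_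
  have h1 : inE (κ := κ) E (pol (C (r * c a))) =
      inE (κ := κ) E (pol (C r)) * inE (κ := κ) E (pol (C (c a))) := by
    show algebraMap (RatFunc κ) E (algebraMap κ[X] (RatFunc κ) (C (r * c a))) = _
    rw [C_mul, map_mul, map_mul]
  rw [h1, mul_assoc]

theorem KL.ex_iso (p : ℕ) [Fact p.Prime] [CharP κ p] (H : KL w n F y e dK d)
    (hη : HB w n F η) (hs : Sm F 1) (c c' : IX w n → κ) (h : ∃ G, d G = lc c (mE F y η))
    (h' : ∃ G, d G = lc c' (mE F y η)) : MPadcLP.BB (J0 κ (Gx w n)) c c' = 0 := by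
  obtain ⟨res, hr⟩ := exists_res κ
  rw [← H.Jp_lc hr hη c c']
  obtain ⟨g, β, z, hg, hβ, hz, hm, hb⟩ := IsoP_split p H hη hs c h
  obtain ⟨g', β', z', hg', hβ', hz', hm', hb'⟩ := IsoP_split p H hη hs c' h'
  have hB' : InB e (d g' * ev y (py F)) := by
    rw [hm', H.lc_mE]
    exact H.inB_ev _
  unfold Jp
  rw [← hm, ← hm', hb, hb']
  have e1 : (g + β + z) * d g' - (g' + β' + z') * d g + (g' + β' + z') * d (g + β + z) =
      d g' * g + d (β * g') + d (z * g') + β' * d β + d (z' * β) := by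
    rw [map_add, map_add, hz, Derivation.leibniz, Derivation.leibniz, Derivation.leibniz, hz, hz']
    simp only [smul_eq_mul]
    ring
  rw [e1, map_add, map_add, map_add, map_add, hr.add, hr.add, hr.add, hr.add, hr.tr_pol H hB' hg,
    hr.tr_d H, hr.tr_d H, hr.tr_d H, hr.tr_low H (by
      have h1 := H.bdeg_mul hβ' (H.bdeg_two hβ)
      rw [zero_add] at h1
      exact h1)]
  ring

theorem KD.ex_stable (H : KD w n F y e δ dK DK d D) {Δ : κ} {G : Matrix (IX w n) (IX w n) κ}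
    (hG : IsGM δ Δ F η G) (c : IX w n → κ) (h : ∃ G, d G = lc c (mE F y η)) :
    ∃ G', d G' = lc (fun a => Δ * δ (c a) + G.mulVec c a) (mE F y η) := by
  obtain ⟨G₁, hG₁⟩ := h
  obtain ⟨z, hz⟩ := H.gm_lc hG c
  refine ⟨inE (κ := κ) E (pol (C Δ)) * D G₁ - z, ?_⟩
  rw [map_sub, H.d_const, H.comm, hG₁, hz]
  ring

theorem KD.nb_exact (H : KD w n F y e δ dK DK d D) {Δ : κ} (hΔ : Δ ≠ 0)
    {G : Matrix (IX w n) (IX w n) κ} (hG : IsGM δ Δ F η G) (c : IX w n → κ) (j : ℕ) :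
    ∃ z, d z = D^[j] (lc c (mE F y η)) - lc ((nb δ Δ G)^[j] c) (mE F y η) := by
  induction j with
  | zero =>
    refine ⟨0, ?_⟩
    rw [map_zero, Function.iterate_zero_apply, Function.iterate_zero_apply, sub_self]
  | succ j ih =>
    obtain ⟨z, hz⟩ := ih
    rw [Function.iterate_succ_apply', Function.iterate_succ_apply']
    generalize D^[j] (lc c (mE F y η)) = m at hz
    generalize (nb δ Δ G)^[j] c = c' at hz ⊢
    obtain ⟨z', hz'⟩ := H.gm_lc hG c'
    have h1 : inE (κ := κ) E (pol (C Δ⁻¹)) * inE (κ := κ) E (pol (C Δ)) = 1 := by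
      show algebraMap (RatFunc κ) E (algebraMap κ[X] (RatFunc κ) (C Δ⁻¹)) *
        algebraMap (RatFunc κ) E (algebraMap κ[X] (RatFunc κ) (C Δ)) = 1
      rw [← map_mul, ← map_mul, ← C_mul, inv_mul_cancel₀ hΔ, C_1, map_one, map_one]
    have h2 : lc (nb δ Δ G c') (mE F y η) = inE (κ := κ) E (pol (C Δ⁻¹)) *
        lc (fun a => Δ * δ (c' a) + G.mulVec c' a) (mE F y η) := by
      rw [← IsoP_lc_mul]
      have h3 : nb δ Δ G c' = fun a => Δ⁻¹ * (Δ * δ (c' a) + G.mulVec c' a) := by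
        funext a
        show δ (c' a) + Δ⁻¹ * G.mulVec c' a = _
        rw [mul_add, ← mul_assoc, inv_mul_cancel₀ hΔ, one_mul]
      rw [h3]
    refine ⟨D z + inE (κ := κ) E (pol (C Δ⁻¹)) * z', ?_⟩
    have h4 : D m = D (d z) + D (lc c' (mE F y η)) := by
      rw [hz, map_sub]
      ring
    rw [map_add, H.d_const, H.comm, h4, h2]
    linear_combination (-inE (κ := κ) E (pol (C Δ⁻¹))) * hz' + D (lc c' (mE F y η)) * h1

theorem KD.nilp (p : ℕ) [Fact p.Prime] [CharP κ p] (H : KD w n F y e δ dK DK d D)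
    (hδ : ∀ r, δ^[p] r = 0) (hη : HB w n F η) (hs : Sm F 1) {Δ : κ} (hΔ : Δ ≠ 0)
    {G : Matrix (IX w n) (IX w n) κ} (hG : IsGM δ Δ F η G)
    (hflat : G.transpose * J0 κ (Gx w n) + J0 κ (Gx w n) * G = 0) (c : IX w n → κ) :
    (nb δ Δ G)^[2 * p] c = 0 := by
  have hex : ∀ c : IX w n → κ, ∃ G₁, d G₁ = lc ((nb δ Δ G)^[p] c) (mE F y η) := by
    intro c
    obtain ⟨z, hz⟩ := H.nb_exact hΔ hG c p
    rw [H.iterate_p_D p hδ, zero_sub] at hz
    refine ⟨-z, ?_⟩
    rw [map_neg, hz, neg_neg]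
  have hA : ∀ a : κ, p • a = 0 := by
    intro a
    rw [nsmul_eq_mul, CharP.cast_eq_zero κ p, zero_mul]
  rw [two_mul, Function.iterate_add_apply]
  apply IsoP_nondeg
  intro v
  have h1 := IsoP_iterp p hA δ H.der.add (nb δ Δ G) (MPadcLP.BB (J0 κ (Gx w n)))
    (IsoP_leib H.der hflat) ((nb δ Δ G)^[p] c) v
  rw [hδ, H.toKL.ex_iso p hη hs _ _ (hex c) (hex v), zero_add] at h1
  exact h1.symm

end MPadcLF
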