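import Pool.Agent.Lib.MP_adc574_ag_LF.ExiA
import Pool.Agent.Lib.MP_adc574_ag_LF.ExiB
import Pool.Agent.Lib.MP_adc574_ag_LF.Flt
import Pool.Agent.Lib.MP_adc574_ag_LF.HBx
import Pool.Agent.Lib.MP_adc574_ag_LF.IsoP
import Pool.Agent.Lib.MP_adc574_ag_LF.Hex
import Pool.Agent.Lib.MP_adc574_ag_LF.NoHor
import Pool.Agent.Lib.MP_adc574_ag_Cov.PtA

/-!
# JOB Face: the results over a field, without the function field

`exists_KL`, `KL.exists_KD` give `E`, …, `KD`; `exists_res` gives `res`.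
* `exists_isotropic`: `W = {c | ∃ G, d G = lc c (mE F y η)}` (a subspace: `d` commutes with constants, `d_const`);
  `ex_iso`, `ex_stable`, and `exact_hrec`, `lc_inl`.
* `nilp_field`: `KD.nilp`.
* `exact_form`: transport along `AdjoinRoot … ≃ₐ E` with `IsReg.equiv`, `IsEx.equiv` (Cov/PtA.lean; see how
  Cov/Points.lean uses them), then `isReg`, `isEx`, `exact_hrec`. (`E` is a `κ`-algebra through `RatFunc κ`.)
* `exists_HB'`: `exists_KL` for `mp φ F` and `exists_HB`.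
* `exists_gm_field'`, `flat_field`: `KD.exists_gm_field`, `KD.flat`.
-/

set_option autoImplicit false

namespace MPadcLF

open Polynomial MPadcCov

universe u

private theorem Face_lc_zero {κ : Type*} [Field κ] {E : Type*} [Field E] [Algebra (RatFunc κ) E]
    {w n : ℕ} (m : IX w n → E) : lc (0 : IX w n → κ) m = 0 := by
  unfold lc
  refine Finset.sum_eq_zero fun a _ => ?_
  rw [Pi.zero_apply]
  have h0 : inE (κ := κ) E (pol (C (0 : κ))) = 0 := by
    rw [C_0]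
    unfold pol inE
    rw [map_zero, map_zero]
  rw [h0, zero_mul]

private theorem Face_lc_add {κ : Type*} [Field κ] {E : Type*} [Field E] [Algebra (RatFunc κ) E]
    {w n : ℕ} (m : IX w n → E) (u v : IX w n → κ) : lc (u + v) m = lc u m + lc v m := by
  unfold lc
  rw [← Finset.sum_add_distrib]
  refine Finset.sum_congr rfl fun a _ => ?_
  rw [Pi.add_apply]
  have h0 : inE (κ := κ) E (pol (C (u a + v a))) = inE (κ := κ) E (pol (C (u a))) + inE (κ := κ) E (pol (C (v a))) := by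
    rw [C_add]
    unfold pol inE
    rw [map_add, map_add]
  rw [h0, add_mul]

private theorem Face_lc_smul {κ : Type*} [Field κ] {E : Type*} [Field E] [Algebra (RatFunc κ) E]
    {w n : ℕ} (m : IX w n → E) (r : κ) (v : IX w n → κ) :
    lc (r • v) m = inE (κ := κ) E (pol (C r)) * lc v m := by
  unfold lc
  rw [Finset.mul_sum]
  refine Finset.sum_congr rfl fun a _ => ?_
  rw [Pi.smul_apply, smul_eq_mul]
  have h0 : inE (κ := κ) E (pol (C (r * v a))) = inE (κ := κ) E (pol (C r)) * inE (κ := κ) E (pol (C (v a))) := by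
    rw [C_mul]
    unfold pol inE
    rw [map_mul, map_mul]
  rw [h0, mul_assoc]

/-- An exact form on the left gives an exact form on the right. -/
private theorem Face_ex {κ : Type*} [Field κ] {E₁ E₂ : Type*} [CommRing E₁] [Field E₂]
    [Algebra (RatFunc κ) E₁] [Algebra (RatFunc κ) E₂] (θ : E₁ ≃ₐ[RatFunc κ] E₂)
    [Algebra κ E₁] [IsScalarTower κ (RatFunc κ) E₁] {φ : E₁}
    (h : IsEx (κ := κ) φ) (dK : RatFunc κ → RatFunc κ) (d : Derivation ℤ E₂ E₂)
    (hK : ∀ p : κ[X], dK (pol p) = pol (derivative p))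
    (hd : ∀ r, d (algebraMap (RatFunc κ) E₂ r) = algebraMap (RatFunc κ) E₂ (dK r)) :
    ∃ G : E₂, d G = θ φ := by
  have hc : ∀ c : κ, d (algebraMap (RatFunc κ) E₂ (algebraMap κ (RatFunc κ) c)) = 0 := by
    intro c
    have h1 : algebraMap κ (RatFunc κ) c = pol (C c) := by
      rw [IsScalarTower.algebraMap_apply κ κ[X] (RatFunc κ), Polynomial.algebraMap_eq]
    rw [hd, h1, hK, derivative_C, pol, map_zero, map_zero]
  let f : E₁ →ₗ[κ] E₁ :=
    { toFun := fun z => θ.symm (d (θ z))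
      map_add' := fun x y => by rw [map_add, map_add, map_add]
      map_smul' := fun c z => by
        have h1 : θ (c • z) =
            algebraMap (RatFunc κ) E₂ (algebraMap κ (RatFunc κ) c) * θ z := by
          rw [Algebra.smul_def, map_mul, IsScalarTower.algebraMap_apply κ (RatFunc κ) E₁,
            AlgEquiv.commutes]
        rw [h1, Derivation.leibniz, hc, smul_zero, add_zero, smul_eq_mul, map_mul,
          AlgEquiv.commutes, RingHom.id_apply, Algebra.smul_def,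
          IsScalarTower.algebraMap_apply κ (RatFunc κ) E₁] }
  let d₁ : Derivation κ E₁ E₁ := Derivation.mk' f (by
    intro x y
    change θ.symm (d (θ (x * y))) = x • θ.symm (d (θ y)) + y • θ.symm (d (θ x))
    rw [map_mul, Derivation.leibniz, map_add, smul_eq_mul, smul_eq_mul, map_mul, map_mul,
      AlgEquiv.symm_apply_apply, AlgEquiv.symm_apply_apply, smul_eq_mul, smul_eq_mul])
  obtain ⟨G, hG⟩ := h
  have h1 := congrArg d₁.liftKaehlerDifferential hG
  rw [map_smul, Derivation.liftKaehlerDifferential_comp_D,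
    Derivation.liftKaehlerDifferential_comp_D] at h1
  have h2 : d₁ (algebraMap (RatFunc κ) E₁ RatFunc.X) = 1 := by
    change θ.symm (d (θ (algebraMap (RatFunc κ) E₁ RatFunc.X))) = 1
    rw [AlgEquiv.commutes, hd, ← RatFunc.algebraMap_X, hK, derivative_X, pol, map_one, map_one,
      map_one]
  rw [h2, smul_eq_mul, mul_one] at h1
  refine ⟨θ G, ?_⟩
  rw [← h1]
  change d (θ G) = θ (θ.symm (d (θ G)))
  rw [AlgEquiv.apply_symm_apply]

theorem exists_isotropic {κ : Type u} [Field κ] (p : ℕ) [Fact p.Prime] [CharP κ p] {w n : ℕ}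
    (hn : 0 < n) (hw : 0 < w) {F : κ[X][X]} (hF : Wt w n F)
    (hirr : Irreducible (F.map (algebraMap κ[X] (RatFunc κ)))) (hS : Sm F 1) (hT : Tp w n F 1)
    (δ : κ → κ) (hδ : IsDer δ) {η : IX w n → κ[X][X]} (hB : HB w n F η) {Δ : κ}
    {G : Matrix (IX w n) (IX w n) κ} (hG : IsGM δ Δ F η G) :
    ∃ W : Submodule κ (IX w n → κ), (∀ u ∈ W, ∀ v ∈ W, MPadcLP.BB (J0 κ (Gx w n)) u v = 0) ∧
      (∀ u ∈ W, (fun i => Δ * δ (u i) + G.mulVec u i) ∈ W) ∧
      ∀ c : Gx w n → κ, hrec F (fo F c) (p - 1) = 0 → Sum.elim c 0 ∈ W := by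
  obtain ⟨E, _, _, y, e, dK, d, H, -⟩ := exists_KL hn hw F hF hirr hT
  obtain ⟨DK, D, HD⟩ := H.exists_KD δ hδ
  refine ⟨{ carrier := {c | ∃ G, d G = lc c (mE F y η)}
            zero_mem' := ⟨0, by rw [map_zero, Face_lc_zero]⟩
            add_mem' := ?_
            smul_mem' := ?_ }, ?_, ?_, ?_⟩
  · rintro u v ⟨g, hg⟩ ⟨g', hg'⟩
    exact ⟨g + g', by rw [map_add, hg, hg', Face_lc_add]⟩
  · rintro r u ⟨g, hg⟩
    exact ⟨inE (κ := κ) E (pol (C r)) * g, by rw [H.d_const, hg, Face_lc_smul]⟩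
  · intro u hu v hv
    exact H.ex_iso p hB hS u v hu hv
  · intro u hu
    exact HD.ex_stable hG u hu
  · intro c hc
    obtain ⟨g, hg⟩ := (H.exact_hrec p (fo F c)).2 hc
    exact ⟨g, by rw [hg, H.lc_inl hB]⟩

theorem nilp_field {κ : Type u} [Field κ] (p : ℕ) [Fact p.Prime] [CharP κ p] {w n : ℕ}
    (hn : 0 < n) (hw : 0 < w) {F : κ[X][X]} (hF : Wt w n F)
    (hirr : Irreducible (F.map (algebraMap κ[X] (RatFunc κ)))) (hS : Sm F 1) (hT : Tp w n F 1)
    (δ : κ → κ) (hδ : IsDer δ) (hp : ∀ x, δ^[p] x = 0) {η : IX w n → κ[X][X]} (hB : HB w n F η)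
    {Δ : κ} (hΔ : Δ ≠ 0) {G : Matrix (IX w n) (IX w n) κ} (hG : IsGM δ Δ F η G)
    (hflat : G.transpose * J0 κ (Gx w n) + J0 κ (Gx w n) * G = 0) (c : IX w n → κ) :
    (nb δ Δ G)^[2 * p] c = 0 := by
  obtain ⟨E, _, _, y, e, dK, d, H, -⟩ := exists_KL hn hw F hF hirr hT
  obtain ⟨DK, D, HD⟩ := H.exists_KD δ hδ
  exact HD.nilp p hp hB hS hΔ hG hflat c

theorem exact_form {κ : Type u} [Field κ] (p : ℕ) [Fact p.Prime] [CharP κ p] {w n : ℕ}
    (hn : 0 < n) (hw : 0 < w) {F : κ[X][X]} (hF : Wt w n F)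
    (hirr : Irreducible (F.map (algebraMap κ[X] (RatFunc κ)))) (hT : Tp w n F 1)
    (h : ∀ c : Gx w n → κ, hrec F (fo F c) (p - 1) = 0 → c = 0) (φ : FR κ F)
    (hr : IsReg (κ := κ) φ) (he : IsEx (κ := κ) φ) : φ = 0 := by
  obtain ⟨E, _, _, y, e, dK, d, H, ⟨θ⟩⟩ := exists_KL hn hw F hF hirr hT
  obtain ⟨c, hc⟩ := H.isReg (hr.equiv θ)
  obtain ⟨g, hg⟩ := Face_ex θ he dK d H.dK_pol H.d_alg
  have h1 : c = 0 := h c ((H.exact_hrec p (fo F c)).1 ⟨g, hg.trans hc⟩)
  have h2 : fo F c = 0 := by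
    rw [h1]
    unfold fo
    refine Finset.sum_eq_zero fun a _ => ?_
    rw [Pi.zero_apply, cc, C_0, C_0, zero_mul]
  rw [h2, map_zero, zero_div] at hc
  rw [← map_zero θ] at hc
  exact θ.injective hc

theorem exists_HB' {R : Type*} [CommRing R] [IsDomain R] (h2 : ∃ x : R, 2 * x = 1)
    {κ : Type u} [Field κ] (φ : R →+* κ) (hφ : Function.Injective φ) {w n : ℕ} (hn : 0 < n)
    (hw : 0 < w) {F : R[X][X]} (hF : Wt w n F)
    (hirr : Irreducible ((mp φ F).map (algebraMap κ[X] (RatFunc κ)))) (hT : Tp w n (mp φ F) 1) :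
    ∃ η : IX w n → R[X][X], HB w n F η := by
  obtain ⟨E, _, _, y, e, dK, d, H, -⟩ := exists_KL hn hw (mp φ F) (hF.map φ) hirr hT
  exact exists_HB h2 φ hφ hF H

theorem exists_gm_field' {κ : Type u} [Field κ] {w n : ℕ} (hn : 0 < n) (hw : 0 < w)
    {F : κ[X][X]} (hF : Wt w n F)
    (hirr : Irreducible (F.map (algebraMap κ[X] (RatFunc κ)))) (hS : Sm F 1) (hT : Tp w n F 1)
    (δ : κ → κ) (hδ : IsDer δ) {η : IX w n → κ[X][X]} (hB : HB w n F η) :
    ∃ G : Matrix (IX w n) (IX w n) κ, IsGM δ 1 F η G := by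
  obtain ⟨E, _, _, y, e, dK, d, H, -⟩ := exists_KL hn hw F hF hirr hT
  obtain ⟨DK, D, HD⟩ := H.exists_KD δ hδ
  exact HD.exists_gm_field hB hS

theorem flat_field {κ : Type u} [Field κ] [CharZero κ] {w n : ℕ} (hn : 0 < n) (hw : 0 < w)
    {F : κ[X][X]} (hF : Wt w n F)
    (hirr : Irreducible (F.map (algebraMap κ[X] (RatFunc κ)))) (hS : Sm F 1) (hT : Tp w n F 1)
    (δ : κ → κ) (hδ : IsDer δ) {η : IX w n → κ[X][X]} (hB : HB w n F η) {Δ : κ}
    {G : Matrix (IX w n) (IX w n) κ} (hG : IsGM δ Δ F η G) :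
    G.transpose * J0 κ (Gx w n) + J0 κ (Gx w n) * G = 0 := by
  obtain ⟨E, _, _, y, e, dK, d, H, -⟩ := exists_KL hn hw F hF hirr hT
  obtain ⟨DK, D, HD⟩ := H.exists_KD δ hδ
  exact HD.flat hB hS hG

end MPadcLF
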