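import Pool.Agent.Lib.MP_adc574_ag_LF.Bridge
import Pool.Agent.Lib.MP_adc574_ag_Cov.SpecDef

/-!
# The differential field over a prime of `A₀`
-/

set_option autoImplicit false

namespace MPadcLF

open Polynomial MPadcCov

universe u

/-- The residue field of a prime of residue characteristic `p`. -/
theorem exists_residue {A : Type u} [CommRing A] (P : Ideal A) [hP : P.IsPrime] {p : ℕ}
    (hp : p.Prime) (hpP : (p : A) ∈ P) :
    ∃ (κ : Type u) (_ : Field κ) (ψ : A →+* κ), RingHom.ker ψ = P ∧ CharP κ p := by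
  refine ⟨FractionRing (A ⧸ P), inferInstance,
    (algebraMap (A ⧸ P) (FractionRing (A ⧸ P))).comp (Ideal.Quotient.mk P), ?_, ?_⟩
  · rw [RingHom.ker_comp_of_injective _ (IsFractionRing.injective _ _), Ideal.mk_ker]
  · have h0 : ((p : ℕ) : FractionRing (A ⧸ P)) = 0 := by
      have h3 : ((p : ℕ) : FractionRing (A ⧸ P)) =
          algebraMap (A ⧸ P) (FractionRing (A ⧸ P)) (Ideal.Quotient.mk P (p : A)) := by
        rw [map_natCast, map_natCast]
      rw [h3, Ideal.Quotient.eq_zero_iff_mem.2 hpP, map_zero]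
    exact ringChar.of_eq (CharP.ringChar_of_prime_eq_zero hp h0)

private theorem Fiber_iter {A : Type*} [CommRing A] (D : A → A)
    (hadd : ∀ x y, D (x + y) = D x + D y) (hmul : ∀ x y, D (x * y) = x * D y + y * D x)
    (a b : A) (n : ℕ) :
    (D^[n]) (a * b) = ∑ ij ∈ Finset.HasAntidiagonal.antidiagonal n,
      n.choose ij.1 • ((D^[ij.1]) a * (D^[ij.2]) b) := by
  have h0 : D 0 = 0 := by
    have h1 := hadd 0 0
    rw [add_zero] at h1
    exact left_eq_add.mp h1
  let D' : A →+ A := { toFun := D, map_zero' := h0, map_add' := hadd }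
  have hsum : ∀ (s : Finset (ℕ × ℕ)) (f : ℕ × ℕ → A), D (∑ i ∈ s, f i) = ∑ i ∈ s, D (f i) :=
    fun s f => map_sum D' f s
  have hns : ∀ (m : ℕ) (x : A), D (m • x) = m • D x := fun m x => map_nsmul D' m x
  induction n with
  | zero => simp
  | succ n ih =>
    rw [Finset.sum_antidiagonal_choose_succ_nsmul
      (fun i j => (D^[i]) a * (D^[j]) b) n, Function.iterate_succ_apply', ih, hsum,
      ← Finset.sum_add_distrib]
    refine Finset.sum_congr rfl fun ij hij => ?_
    have h1 : n.choose ij.2 = n.choose ij.1 :=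
      Nat.choose_symm_of_eq_add (by rw [Finset.HasAntidiagonal.mem_antidiagonal] at hij; omega)
    rw [h1, ← smul_add, hns, hmul, Function.iterate_succ_apply',
      Function.iterate_succ_apply']
    congr 1
    ring

private theorem Fiber_iterp {A : Type*} [CommRing A] (p : ℕ) [hp : Fact p.Prime]
    (hA : ((p : ℕ) : A) = 0) (D : A → A)
    (hadd : ∀ x y, D (x + y) = D x + D y) (hmul : ∀ x y, D (x * y) = x * D y + y * D x)
    (a b : A) : (D^[p]) (a * b) = a * (D^[p]) b + b * (D^[p]) a := by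
  have hp1 := hp.out.pos
  rw [Fiber_iter D hadd hmul, Finset.Nat.sum_antidiagonal_eq_sum_range_succ_mk,
    Finset.sum_range_succ, Finset.sum_eq_single_of_mem 0 (Finset.mem_range.mpr hp1)]
  · simp only [Nat.choose_zero_right, Nat.choose_self, one_smul, Nat.sub_zero, Nat.sub_self,
      Function.iterate_zero, id_eq]
    ring
  · intro k hk hk0
    have h1 : p ∣ p.choose k := hp.out.dvd_choose_self hk0 (Finset.mem_range.mp hk)
    obtain ⟨c, hc⟩ := h1
    show p.choose k • _ = _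
    rw [nsmul_eq_mul, hc, Nat.cast_mul, hA, zero_mul, zero_mul]

private theorem Fiber_ratfunc {κ : Type*} [Field κ] (p : ℕ) [hp : Fact p.Prime] [CharP κ p]
    (dK : RatFunc κ → RatFunc κ) (hadd : ∀ x y, dK (x + y) = dK x + dK y)
    (hmul : ∀ x y, dK (x * y) = x * dK y + y * dK x)
    (hdK : ∀ q : κ[X], dK (pol q) = pol (derivative q)) (r : RatFunc κ) : (dK^[p]) r = 0 := by
  have hpK : ((p : ℕ) : RatFunc κ) = 0 := by
    have h1 : ((p : ℕ) : κ) = 0 := CharP.cast_eq_zero κ p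
    rw [← map_natCast (algebraMap κ (RatFunc κ)), h1, map_zero]
  have h1 : ∀ (m : ℕ) (q : κ[X]), (dK^[m]) (pol q) = pol (derivative^[m] q) := by
    intro m
    induction m with
    | zero => intro q; rfl
    | succ m ih => intro q; rw [Function.iterate_succ_apply, Function.iterate_succ_apply, hdK, ih]
  have h2 : ∀ q : κ[X], derivative^[p] q = 0 := by
    intro q
    rw [iterate_derivative_eq_factorial_smul_sum]
    obtain ⟨c, hc⟩ := Nat.dvd_factorial hp.out.pos le_rfl
    have h3 : ((p.factorial : ℕ) : κ[X]) = 0 := by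
      rw [hc, Nat.cast_mul, ← map_natCast (C : κ →+* κ[X]) p, CharP.cast_eq_zero κ p, map_zero,
        zero_mul]
    rw [nsmul_eq_mul, h3, zero_mul]
  have h3 : ∀ q : κ[X], (dK^[p]) (pol q) = 0 := by
    intro q
    rw [h1, h2]
    exact map_zero _
  have h4 := Fiber_iterp p hpK dK hadd hmul r (pol r.denom)
  have h7 : pol r.denom ≠ 0 := RatFunc.algebraMap_ne_zero r.denom_ne_zero
  have h5 : r * pol r.denom = pol r.num := ((div_eq_iff h7).mp r.num_div_denom).symm
  rw [h5, h3, h3, mul_zero, zero_add] at h4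
  exact (mul_eq_zero.mp h4.symm).resolve_left h7

private theorem Fiber_leib {K : Type*} [CommRing K] (D : MPadcLP.Der K) (x y : K) :
    D (x * y) = x * D y + y * D x := D.leibniz x y

private theorem Fiber_add {K : Type*} [CommRing K] (D : MPadcLP.Der K) (x y : K) :
    D (x + y) = D x + D y := map_add D x y

/-- The derivation `d / dt` of `κ(t)` in characteristic `p`. -/
theorem exists_ddt (κ : Type u) [Field κ] (p : ℕ) [Fact p.Prime] [CharP κ p] :
    ∃ δ : MPadcLP.Der (RatFunc κ), IsDer (fun x => δ x) ∧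
      (∀ q : κ[X], δ (algebraMap κ[X] (RatFunc κ) q) =
        algebraMap κ[X] (RatFunc κ) (derivative q)) ∧ ∀ x, (fun y => δ y)^[p] x = 0 := by
  obtain ⟨D', hD'⟩ := MPadcLP.exists_derivation_fraction (R := κ[X]) (K := RatFunc κ)
    (MPadcLP.Core.derX κ)
  have hadd : ∀ x y, D' (x + y) = D' x + D' y := fun x y => Fiber_add D' x y
  have hmul : ∀ x y, D' (x * y) = x * D' y + y * D' x := fun x y => Fiber_leib D' x y
  have hpol : ∀ q : κ[X], D' (algebraMap κ[X] (RatFunc κ) q) =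
      algebraMap κ[X] (RatFunc κ) (derivative q) := fun q => by
    rw [hD', MPadcLP.Core.derX_apply]
  exact ⟨D', ⟨hadd, hmul⟩, hpol, Fiber_ratfunc p _ hadd hmul hpol⟩

section

variable {A : Type u} [CommRing A] {w n : ℕ} (hn : 0 < n) (hw : 0 < w) {F : A[X][X][X]}
  (hF : Wt w n F) {η : IX w n → A[X][X][X]} (hB : HB w n F η) {Δ c₀ c₁ β : A[X]}
  {G : Matrix (IX w n) (IX w n) A[X]} (hG : IsGM (fun q : A[X] => derivative q) Δ F η G)
  (hflat : G.transpose * J0 A[X] (Gx w n) + J0 A[X] (Gx w n) * G = 0)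
  (hS : Sm F c₀) (hT : Tp w n F c₁)
  (hirr : ∀ (κ : Type u) [Field κ] (ψ : A[X] →+* κ), ψ β ≠ 0 →
    Irreducible ((mp ψ F).map (algebraMap κ[X] (RatFunc κ))))

include hn hw hF hB hG hflat hS hT hirr in
/-- The fibre over a prime `P` over the prime number `p`. -/
theorem fiber (P : Ideal A) [P.IsPrime] (p : ℕ) [Fact p.Prime] (hpP : (p : A) ∈ P)
    (hne : (c₀ * c₁ * Δ * β).map (Ideal.Quotient.mk P) ≠ 0) :
    ∃ (κ : Type u) (_ : Field κ) (ψ : A →+* κ) (δ : MPadcLP.Der (RatFunc κ)),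
      RingHom.ker ψ = P ∧ IsDer (fun x => δ x) ∧
      (∀ q : κ[X], δ (algebraMap κ[X] (RatFunc κ) q) =
        algebraMap κ[X] (RatFunc κ) (derivative q)) ∧
      (∀ v : IX w n → RatFunc κ,
        (nb (fun x => δ x) (fp ψ Δ) (G.map (fp ψ)))^[2 * p] v = 0) ∧
      ∃ W : Submodule (RatFunc κ) (IX w n → RatFunc κ),
        (∀ u ∈ W, ∀ v ∈ W, MPadcLP.BB (J0 (RatFunc κ) (Gx w n)) u v = 0) ∧
        (∀ u ∈ W, MPadcLP.nab δ (fp ψ Δ) (G.map (fp ψ)) u ∈ W) ∧
        ∀ c : Gx w n → RatFunc κ,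
          hrec (mp (fp ψ) F) (fo (mp (fp ψ) F) c) (p - 1) = 0 → Sum.elim c 0 ∈ W := by
  obtain ⟨κ, iκ, ψ, hker, hchar⟩ := exists_residue P (Fact.out : p.Prime) hpP
  obtain ⟨δ, hδ, hδpol, hδp⟩ := exists_ddt κ p
  have hne' : fp ψ (c₀ * c₁ * Δ * β) ≠ 0 := by
    intro h
    apply hne
    have h1 : (c₀ * c₁ * Δ * β).map ψ = 0 := by
      apply RatFunc.algebraMap_injective κ
      rw [map_zero]
      exact h
    ext i
    have h2 := congrArg (fun q => q.coeff i) h1
    simp only [coeff_map, coeff_zero] at h2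
    rw [coeff_map, coeff_zero, Ideal.Quotient.eq_zero_iff_mem, ← hker]
    exact h2
  rw [map_mul, map_mul, map_mul] at hne'
  have h0 : fp ψ c₀ ≠ 0 := fun h => hne' (by rw [h]; ring)
  have h1 : fp ψ c₁ ≠ 0 := fun h => hne' (by rw [h]; ring)
  have h2 : fp ψ Δ ≠ 0 := fun h => hne' (by rw [h]; ring)
  have h3 : fp ψ β ≠ 0 := fun h => hne' (by rw [h]; ring)
  have hcharK : CharP (RatFunc κ) p := charP_of_injective_algebraMap
    (FaithfulSMul.algebraMap_injective κ (RatFunc κ)) p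
  have hcomm : ∀ q : A[X], fp ψ (derivative q) = δ (fp ψ q) := by
    intro q
    change algebraMap κ[X] (RatFunc κ) ((derivative q).map ψ) =
      δ (algebraMap κ[X] (RatFunc κ) (q.map ψ))
    rw [hδpol, derivative_map]
  have hF' := hF.map (fp ψ)
  have hB' := HB.map (fp ψ) hF.monic hB
  have hG' := IsGM.map (fp ψ) (isDer_derivative A) hδ hcomm hG
  have hflat' := flat_map (fp ψ) hflat
  have hirr' := hirr (RatFunc κ) (fp ψ) h3
  have hS' := sm_one (Sm.map (fp ψ) hS) h0
  have hT' := tp_one (Tp.map (fp ψ) hT) h1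
  refine ⟨κ, iκ, ψ, δ, hker, hδ, hδpol, ?_, ?_⟩
  · exact nilp_field p hn hw hF' hirr' hS' hT' _ hδ hδp hB' h2 hG' hflat'
  · exact exists_isotropic p hn hw hF' hirr' hS' hT' _ hδ hB' hG'

end

end MPadcLF
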