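import Pool.Agent.Lib.MP_adc574_ag_LF.Px

/-!
# Smooth curves, unramified at infinity, are irreducible

The homomorphism `sg w : κ[x][Y] → κ[z][x]`, `Y ↦ z x ^ w`: the degree in `x` of `sg w P` is the weight
of `P`, and its leading coefficient is the form at infinity.
-/

set_option autoImplicit false

namespace MPadcLF

open Polynomial MPadcCov

variable {κ : Type*} [Field κ]

/-- The substitution `Y = z x ^ w`. -/
noncomputable def sg (κ : Type*) [Field κ] (w : ℕ) : κ[X][X] →+* κ[X][X] :=
  eval₂RingHom (mapRingHom (C : κ →+* κ[X])) (C X * X ^ w)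

theorem coeff_sg (w : ℕ) (P : κ[X][X]) (m j : ℕ) :
    ((sg κ w P).coeff m).coeff j = if w * j ≤ m then (P.coeff j).coeff (m - w * j) else 0 := by
  induction P using Polynomial.induction_on' with
  | add p q hp hq =>
    rw [map_add, coeff_add, coeff_add, hp, hq, coeff_add, coeff_add]
    split_ifs
    · rfl
    · rw [add_zero]
  | monomial i q =>
    have h1 : sg κ w (monomial i q) = C (X ^ i) * (q.map C * X ^ (w * i)) := by
      rw [sg, coe_eval₂RingHom, eval₂_monomial, coe_mapRingHom, mul_pow, ← C_pow, ← pow_mul]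
      ring
    rw [h1, coeff_C_mul, coeff_mul_X_pow', coeff_map, coeff_monomial]
    by_cases hij : i = j
    · subst hij
      rw [if_pos rfl]
      split_ifs with h
      · rw [mul_comm, coeff_C_mul, coeff_X_pow, if_pos rfl, mul_one]
      · rw [mul_zero, coeff_zero]
    · rw [if_neg hij, coeff_zero]
      split_ifs with h1 h2 h2
      all_goals first
        | (rw [mul_comm, coeff_C_mul, coeff_X_pow, if_neg (Ne.symm hij), mul_zero])
        | (rw [mul_zero, coeff_zero])

theorem sg_injective (w : ℕ) : Function.Injective (sg κ w) := by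
  rw [injective_iff_map_eq_zero]
  intro P hP
  ext j l
  have h := coeff_sg w P (l + w * j) j
  rw [hP, coeff_zero, coeff_zero, if_pos (by omega), Nat.add_sub_cancel] at h
  rw [← h, coeff_zero, coeff_zero]

/-- The degree in `z` of the coefficients of `sg w P`. -/
theorem natDegree_coeff_sg (w : ℕ) (P : κ[X][X]) (m : ℕ) :
    ((sg κ w P).coeff m).natDegree ≤ P.natDegree := by
  rw [natDegree_le_iff_coeff_eq_zero]
  intro j hj
  rw [coeff_sg, coeff_eq_zero_of_natDegree_lt hj, coeff_zero]
  split_ifs <;> rfl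

theorem le_natDegree_sg (w : ℕ) {P : κ[X][X]} (hP : P.Monic) :
    w * P.natDegree ≤ (sg κ w P).natDegree := by
  apply le_natDegree_of_ne_zero
  intro h
  have h1 := coeff_sg w P (w * P.natDegree) P.natDegree
  rw [h, coeff_zero, if_pos le_rfl, Nat.sub_self] at h1
  have h2 : P.coeff P.natDegree = 1 := hP
  rw [h2, coeff_one_zero] at h1
  exact zero_ne_one h1

theorem natDegree_sg_le (w m : ℕ) {P : κ[X][X]} (hP : WD w m P) :
    (sg κ w P).natDegree ≤ m := by
  rw [natDegree_le_iff_coeff_eq_zero]
  intro l hl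
  ext j
  rw [coeff_sg, coeff_zero]
  split_ifs with h
  · by_cases h0 : P.coeff j = 0
    · rw [h0, coeff_zero]
    · have h1 := hP j h0
      exact coeff_eq_zero_of_natDegree_lt (by omega)
  · rfl

theorem coeff_sg_top {w n : ℕ} {F : κ[X][X]} (hF : Wt w n F) :
    (sg κ w F).coeff (w * n) = topp w n F := by
  ext j
  rw [coeff_sg, topp, finsetSum_coeff]
  simp only [coeff_C_mul, coeff_X_pow, mul_ite, mul_one, mul_zero]
  rw [Finset.sum_ite_eq]
  by_cases hj : j ≤ n
  · rw [if_pos (Nat.mul_le_mul_left w hj), if_pos (Finset.mem_range.2 (Nat.lt_succ_of_le hj)),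
      Nat.mul_sub]
  · have hr : ¬ j ∈ Finset.range (n + 1) := fun h => hj (by
      have := Finset.mem_range.1 h
      omega)
    rw [if_neg hr]
    have h0 : F.coeff j = 0 := coeff_eq_zero_of_natDegree_lt (by rw [hF.deg]; omega)
    rw [h0, coeff_zero]
    split_ifs <;> rfl

/-- A smooth curve which is unramified at infinity is irreducible. -/
theorem irreducible_of_sm {w n : ℕ} (hn : 0 < n) (hw : 0 < w) {F : κ[X][X]} (hF : Wt w n F)
    (hS : Sm F 1) (hT : Tp w n F 1) :
    Irreducible (F.map (algebraMap κ[X] (RatFunc κ))) := by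
  classical
  have hFm : (F.map (algebraMap κ[X] (RatFunc κ))).Monic := hF.monic.map _
  have hdeg : (F.map (algebraMap κ[X] (RatFunc κ))).natDegree = n := by
    rw [hF.monic.natDegree_map, hF.deg]
  rw [hFm.irreducible_iff_natDegree]
  refine ⟨fun h0 => ?_, fun f g hf hg hfg => ?_⟩
  · rw [h0, natDegree_one] at hdeg
    omega
  · by_contra hcon
    push Not at hcon
    obtain ⟨F₁, hF₁⟩ := IsIntegrallyClosed.eq_map_mul_C_of_dvd (RatFunc κ) hF.monic
      (dvd_of_mul_right_eq g hfg)
    obtain ⟨F₂, hF₂⟩ := IsIntegrallyClosed.eq_map_mul_C_of_dvd (RatFunc κ) hF.monic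
      (dvd_of_mul_left_eq f hfg)
    rw [hf.leadingCoeff, C_1, mul_one] at hF₁
    rw [hg.leadingCoeff, C_1, mul_one] at hF₂
    have hinj : Function.Injective (algebraMap κ[X] (RatFunc κ)) := RatFunc.algebraMap_injective κ
    have hm₁ : F₁.Monic := by
      rw [Monic, ← hinj.eq_iff, ← leadingCoeff_map_of_injective hinj, hF₁, hf.leadingCoeff, map_one]
    have hm₂ : F₂.Monic := by
      rw [Monic, ← hinj.eq_iff, ← leadingCoeff_map_of_injective hinj, hF₂, hg.leadingCoeff, map_one]
    have hF₁₂ : F = F₁ * F₂ := by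
      apply Polynomial.map_injective _ hinj
      rw [Polynomial.map_mul, hF₁, hF₂, hfg]
    have hd₁ : 0 < F₁.natDegree := by
      rw [← hm₁.natDegree_map (algebraMap κ[X] (RatFunc κ)), hF₁]
      exact Nat.pos_of_ne_zero hcon.1
    have hd₂ : 0 < F₂.natDegree := by
      rw [← hm₂.natDegree_map (algebraMap κ[X] (RatFunc κ)), hF₂]
      exact Nat.pos_of_ne_zero hcon.2
    have hsum : F₁.natDegree + F₂.natDegree = n := by
      rw [← hm₁.natDegree_mul hm₂, ← hF₁₂, hF.deg]
    -- the degrees of the images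
    have hs0 : sg κ w F = sg κ w F₁ * sg κ w F₂ := by rw [hF₁₂, map_mul]
    have hne₁ : sg κ w F₁ ≠ 0 := (map_ne_zero_iff _ (sg_injective w)).2 hm₁.ne_zero
    have hne₂ : sg κ w F₂ ≠ 0 := (map_ne_zero_iff _ (sg_injective w)).2 hm₂.ne_zero
    have hle₁ := le_natDegree_sg w hm₁
    have hle₂ := le_natDegree_sg w hm₂
    have hle := natDegree_sg_le w (w * n) hF.wd
    rw [hs0, natDegree_mul hne₁ hne₂] at hle
    have hwn : w * F₁.natDegree + w * F₂.natDegree = w * n := by rw [← Nat.mul_add, hsum]
    have he₁ : (sg κ w F₁).natDegree = w * F₁.natDegree := by omega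
    have he₂ : (sg κ w F₂).natDegree = w * F₂.natDegree := by omega
    have htop : (sg κ w F₁).leadingCoeff * (sg κ w F₂).leadingCoeff = topp w n F := by
      have h1 : (sg κ w F).natDegree = w * n := by
        rw [hs0, natDegree_mul hne₁ hne₂, he₁, he₂, hwn]
      rw [← leadingCoeff_mul, ← hs0, ← coeff_sg_top hF, ← h1]
      rfl
    have hsep : (topp w n F).Separable := by
      obtain ⟨u, v, huv⟩ := hT
      exact ⟨u, v, by rw [huv, C_1]⟩
    rw [← htop] at hsep
    have hcop := hsep.isCoprime
    have hlt₁ : (sg κ w F₁).leadingCoeff.natDegree = F₁.natDegree := by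
      apply le_antisymm (natDegree_coeff_sg w F₁ _)
      apply le_natDegree_of_ne_zero
      change ((sg κ w F₁).coeff (sg κ w F₁).natDegree).coeff F₁.natDegree ≠ 0
      rw [he₁, coeff_sg, if_pos le_rfl, Nat.sub_self]
      have h2 : F₁.coeff F₁.natDegree = 1 := hm₁
      rw [h2, coeff_one_zero]
      exact one_ne_zero
    -- the relation
    obtain ⟨a, b, hab⟩ : ∃ a b : κ[X][X], a * F₁ + b * F₂ = 1 := by
      obtain ⟨u, v, z, h⟩ := hS
      refine ⟨u * F₂ + v * px F₂ + z * py F₂, v * px F₁ + z * py F₁, ?_⟩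
      have h1 := isDer_px (R := κ) |>.mul F₁ F₂
      have h2 := isDer_py (R := κ) |>.mul F₁ F₂
      rw [← hF₁₂] at h1 h2
      rw [h1, h2] at h
      have h3 : (cc (1 : κ) : κ[X][X]) = 1 := by simp [cc]
      rw [h3] at h
      linear_combination h - u * hF₁₂
    obtain ⟨a', b', hab', hb'⟩ : ∃ a' b' : κ[X][X], a' * F₁ + b' * F₂ = 1 ∧
        b'.natDegree < F₁.natDegree := by
      refine ⟨a + (b /ₘ F₁) * F₂, b %ₘ F₁, ?_, ?_⟩
      · have h1 := modByMonic_add_div b F₁
        linear_combination hab + F₂ * h1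
      · exact natDegree_modByMonic_lt b hm₁ (fun h => by
          rw [h, natDegree_one] at hd₁
          exact lt_irrefl 0 hd₁)
    have hb0 : b' ≠ 0 := by
      rintro rfl
      rw [zero_mul, add_zero] at hab'
      have h1 := natDegree_eq_zero_of_isUnit (IsUnit.of_mul_eq_one a' (by rw [mul_comm]; exact hab'))
      omega
    have ha0 : a' ≠ 0 := by
      rintro rfl
      rw [zero_mul, zero_add] at hab'
      have h1 := natDegree_eq_zero_of_isUnit (IsUnit.of_mul_eq_one b' (by rw [mul_comm]; exact hab'))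
      omega
    have hsa : sg κ w a' ≠ 0 := (map_ne_zero_iff _ (sg_injective w)).2 ha0
    have hsb : sg κ w b' ≠ 0 := (map_ne_zero_iff _ (sg_injective w)).2 hb0
    have hrel : sg κ w a' * sg κ w F₁ + sg κ w b' * sg κ w F₂ = 1 := by
      rw [← map_mul, ← map_mul, ← map_add, hab', map_one]
    have hpos₁ : 0 < (sg κ w a' * sg κ w F₁).natDegree := by
      rw [natDegree_mul hsa hne₁, he₁]
      have := Nat.mul_pos hw hd₁
      omega
    have hpos₂ : 0 < (sg κ w b' * sg κ w F₂).natDegree := by
      rw [natDegree_mul hsb hne₂, he₂]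
      have := Nat.mul_pos hw hd₂
      omega
    have hdeq : (sg κ w a' * sg κ w F₁).natDegree = (sg κ w b' * sg κ w F₂).natDegree := by
      by_contra hne
      rcases lt_or_gt_of_ne hne with h | h
      · have h1 := natDegree_add_eq_right_of_natDegree_lt h
        rw [hrel, natDegree_one] at h1
        omega
      · have h1 := natDegree_add_eq_left_of_natDegree_lt h
        rw [hrel, natDegree_one] at h1
        omega
    have hlead : (sg κ w a').leadingCoeff * (sg κ w F₁).leadingCoeff +
        (sg κ w b').leadingCoeff * (sg κ w F₂).leadingCoeff = 0 := by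
      rw [← leadingCoeff_mul, ← leadingCoeff_mul, leadingCoeff, leadingCoeff, ← hdeq, ← coeff_add,
        hrel, coeff_one, if_neg (by omega)]
    have hdvd : (sg κ w F₁).leadingCoeff ∣ (sg κ w b').leadingCoeff := by
      apply hcop.dvd_of_dvd_mul_right
      refine ⟨-(sg κ w a').leadingCoeff, ?_⟩
      linear_combination hlead
    have h1 := natDegree_le_of_dvd hdvd (leadingCoeff_ne_zero.2 hsb)
    rw [hlt₁] at h1
    have h2 : (sg κ w b').leadingCoeff.natDegree ≤ b'.natDegree := natDegree_coeff_sg w b' _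
    omega

end MPadcLF
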