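import Pool.Agent.Lib.MP_adc574_ag_LF.Tau
import Pool.Agent.Lib.MP_adc574_ag_LF.Cert

/-!
# Descent of the local conditions
-/

set_option autoImplicit false

namespace MPadcLF

open Polynomial MPadcCov

universe u

theorem map_span {K L : Type*} [CommRing K] [CommRing L] (i : K →+* L) (F : K[X][X]) :
    (Ideal.span {F, px F, py F}).map (mp i) =
      Ideal.span {mp i F, px (mp i F), py (mp i F)} := by
  rw [Ideal.map_span, Set.image_insert_eq, Set.image_insert_eq, Set.image_singleton, mp_px, mp_py]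

/-- The condition on the singularities descends. -/
theorem descend_sing {K L : Type*} [Field K] [IsAlgClosed K] [Field L] (i : K →+* L)
    (F : K[X][X]) (h : Ideal.span {mp i F, px (mp i F), py (mp i F)} = ⊤ ∨
      (Ideal.span {mp i F, px (mp i F), py (mp i F)}).IsMaximal) :
    Ideal.span {F, px F, py F} = ⊤ ∨ ∃ x₀ y₀ : K, C (X - C x₀) ∈ Ideal.span {F, px F, py F} ∧
      X - C (C y₀) ∈ Ideal.span {F, px F, py F} := by
  rw [← map_span] at h
  exact ideal_descent i _ h

/-- The condition at infinity descends. -/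
theorem descend_inf {K L : Type*} [Field K] [Field L] (i : K →+* L) (w n : ℕ) (F : K[X][X])
    (h : ∀ z, (topp w n (mp i F)).eval z = 0 → (derivative (topp w n (mp i F))).eval z = 0 →
        (subb w n (mp i F)).eval z ≠ 0) (z : K) (h1 : (topp w n F).eval z = 0)
    (h2 : (derivative (topp w n F)).eval z = 0) : (subb w n F).eval z ≠ 0 := by
  intro h3
  apply h (i z)
  · rw [← mp_topp, eval_map, eval₂_at_apply, h1, map_zero]
  · rw [← mp_topp, derivative_map, eval_map, eval₂_at_apply, h2, map_zero]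
  · rw [← mp_subb, eval_map, eval₂_at_apply, h3, map_zero]

theorem sm_iff {R : Type*} [CommRing R] (F : R[X][X]) (c : R) :
    Sm F c ↔ cc c ∈ Ideal.span {F, px F, py F} := by
  unfold Sm
  constructor
  · rintro ⟨u, v, z, h⟩
    rw [← h]
    refine Ideal.add_mem _ (Ideal.add_mem _ (Ideal.mul_mem_left _ _ (Ideal.subset_span ?_))
      (Ideal.mul_mem_left _ _ (Ideal.subset_span ?_)))
      (Ideal.mul_mem_left _ _ (Ideal.subset_span ?_))
    · exact Or.inl rfl
    · exact Or.inr (Or.inl rfl)
    · exact Or.inr (Or.inr rfl)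
  · intro h
    obtain ⟨a, z, hz, h⟩ := Ideal.mem_span_insert.1 h
    obtain ⟨b, z', hz', h'⟩ := Ideal.mem_span_insert.1 hz
    obtain ⟨c', hc'⟩ := Ideal.mem_span_singleton.1 hz'
    refine ⟨a, b, c', ?_⟩
    rw [h, h', hc']
    ring

/-- The certificate of smoothness. -/
theorem exists_sm {R k : Type*} [CommRing R] [IsDomain R] [Field k] (θ : R →+* k)
    (hθ : Function.Injective θ) (F : R[X][X])
    (h : Ideal.span {mp θ F, px (mp θ F), py (mp θ F)} = ⊤) : ∃ c : R, c ≠ 0 ∧ Sm F c := by
  rw [← map_span] at h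
  obtain ⟨c, hc, h1⟩ := certificate θ hθ _ h
  exact ⟨c, hc, (sm_iff F c).2 h1⟩

/-- The certificate of separability at infinity. -/
theorem exists_tp {R k : Type*} [CommRing R] [IsDomain R] [Field k] (θ : R →+* k)
    (hθ : Function.Injective θ) (w n : ℕ) (F : R[X][X])
    (h : (topp w n (mp θ F)).Separable) : ∃ c : R, c ≠ 0 ∧ Tp w n F c := by
  rw [← mp_topp, Separable, derivative_map] at h
  obtain ⟨c, u, v, hc, h1⟩ := certificate_one θ hθ _ _ h
  exact ⟨c, hc, u, v, h1⟩

end MPadcLF
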