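import Pool.Agent.Lib.MP_adc574_ag_LF.Wd

/-!
# The finitely generated ring of definition of a family
-/

set_option autoImplicit false

namespace MPadcLF

open Polynomial MPadcCov

universe u

private theorem Model_wt {R R' : Type*} [CommRing R] [CommRing R'] (φ : R →+* R')
    (hφ : Function.Injective φ) {w n : ℕ} {F : R[X][X]} (h : Wt w n (mp φ F)) : Wt w n F := by
  have hφ' : Function.Injective (mapRingHom φ) := by
    rw [coe_mapRingHom]
    exact Polynomial.map_injective φ hφ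
  obtain ⟨h1, h2, h3⟩ := h
  refine ⟨?_, ?_, ?_⟩
  · have h4 : (F.map (mapRingHom φ)).Monic := h1
    exact monic_of_injective hφ' h4
  · rw [← h2, mp, coe_mapRingHom, natDegree_map_eq_of_injective hφ']
  · intro j hj
    have h4 : (mp φ F).coeff j = (F.coeff j).map φ := by
      rw [mp, coe_mapRingHom, coeff_map, coe_mapRingHom]
    have h5 := h3 j (by
      rw [h4]
      intro h
      exact hj ((Polynomial.map_eq_zero_iff hφ).1 h))
    rw [h4, natDegree_map_eq_of_injective hφ] at h5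
    exact h5

/-- The ring of definition. -/
theorem exists_model {k : Type u} [Field k] [CharZero k] (k₀ : Subfield k) {w n : ℕ}
    (Φ : k₀[X][X][X]) (hΦ : Wt w n Φ) :
    ∃ (A₀ : Subalgebra ℤ k) (ι : A₀ →+* k₀) (F₀ : A₀[X][X][X]), A₀.FG ∧
      (∀ x, ((ι x : k₀) : k) = x) ∧ (∃ x : A₀, 2 * x = 1) ∧ mp (mapRingHom ι) F₀ = Φ ∧
      Wt w n F₀ := by
  classical
  let T : Finset k := (Φ.coeffs.biUnion fun p => p.coeffs.biUnion fun q =>
    q.coeffs.image fun x : k₀ => (x : k)) ∪ {(2 : k)⁻¹}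
  have hT : ∀ x ∈ T, x ∈ k₀ := by
    intro x hx
    rcases Finset.mem_union.1 hx with hx | hx
    · rw [Finset.mem_biUnion] at hx
      obtain ⟨p, -, hx⟩ := hx
      rw [Finset.mem_biUnion] at hx
      obtain ⟨q, -, hx⟩ := hx
      rw [Finset.mem_image] at hx
      obtain ⟨y, -, rfl⟩ := hx
      exact y.2
    · rw [Finset.mem_singleton] at hx
      rw [hx]
      exact k₀.inv_mem (by exact_mod_cast natCast_mem k₀ 2)
  have hTc : ∀ i j l, ((((Φ.coeff i).coeff j).coeff l : k₀) : k) ≠ 0 →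
      ((((Φ.coeff i).coeff j).coeff l : k₀) : k) ∈ T := by
    intro i j l h
    have h0 : ((Φ.coeff i).coeff j).coeff l ≠ 0 := by
      intro h1
      apply h
      rw [h1]
      rfl
    have h1 : (Φ.coeff i).coeff j ≠ 0 := by
      intro h1
      apply h0
      rw [h1, coeff_zero]
    have h2 : Φ.coeff i ≠ 0 := by
      intro h2
      apply h1
      rw [h2, coeff_zero]
    refine Finset.mem_union_left _ (Finset.mem_biUnion.2 ⟨Φ.coeff i, coeff_mem_coeffs h2,
      Finset.mem_biUnion.2 ⟨(Φ.coeff i).coeff j, coeff_mem_coeffs h1,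
        Finset.mem_image.2 ⟨_, coeff_mem_coeffs h0, rfl⟩⟩⟩)
  let A₀ : Subalgebra ℤ k := Algebra.adjoin ℤ (T : Set k)
  have hAT : ∀ x ∈ T, x ∈ A₀ := fun x hx => Algebra.subset_adjoin hx
  have hAk : ∀ x : A₀, (x : k) ∈ k₀ := by
    intro x
    have hle : A₀ ≤ subalgebraOfSubring k₀.toSubring := Algebra.adjoin_le fun y hy => hT y hy
    exact hle x.2
  let ι : A₀ →+* k₀ :=
    { toFun := fun x => ⟨x, hAk x⟩
      map_one' := rfl
      map_mul' := fun _ _ => rfl
      map_zero' := rfl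
      map_add' := fun _ _ => rfl }
  have hι : Function.Injective ι := fun x y h => Subtype.ext (congrArg (fun z : k₀ => (z : k)) h)
  have hlift : Φ ∈ lifts (mapRingHom (mapRingHom ι)) := by
    rw [lifts_iff_coeff_lifts]
    intro i
    have h1 : Φ.coeff i ∈ lifts (mapRingHom ι) := by
      rw [lifts_iff_coeff_lifts]
      intro j
      have h2 : (Φ.coeff i).coeff j ∈ lifts ι := by
        rw [lifts_iff_coeff_lifts]
        intro l
        by_cases h : ((((Φ.coeff i).coeff j).coeff l : k₀) : k) = 0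
        · refine ⟨0, ?_⟩
          rw [map_zero]
          exact Subtype.ext h.symm
        · exact ⟨⟨_, hAT _ (hTc i j l h)⟩, rfl⟩
      obtain ⟨q, hq⟩ := (mem_lifts _).1 h2
      exact ⟨q, hq⟩
    obtain ⟨q, hq⟩ := (mem_lifts _).1 h1
    exact ⟨q, hq⟩
  obtain ⟨F₀, hF₀⟩ := (mem_lifts _).1 hlift
  have hF₀' : mp (mapRingHom ι) F₀ = Φ := hF₀
  have h2mem : (2 : k)⁻¹ ∈ A₀ := hAT _ (Finset.mem_union_right _ (Finset.mem_singleton_self _))
  refine ⟨A₀, ι, F₀, ⟨T, rfl⟩, fun x => rfl, ⟨⟨_, h2mem⟩, ?_⟩, hF₀', ?_⟩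
  · apply Subtype.ext
    change (2 : k) * (2 : k)⁻¹ = 1
    exact mul_inv_cancel₀ two_ne_zero
  · apply Model_wt (mapRingHom ι)
    · rw [coe_mapRingHom]
      exact Polynomial.map_injective ι hι
    · rw [hF₀']
      exact hΦ

end MPadcLF
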