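import Pool.Agent.Lib.MP_adc574_ag_LF.PLfin
import Pool.Agent.Lib.MP_adc574_ag_LF.Ev

/-!
# JOB PlF: places of the function field over the points of the affine curve

`κb` is an extension of `κ`, `χ` a branch of `mp ι F` (over `κb`), `Λ` the field of fractions of `PowerSeries κb`.
* `exists_place`: the ring homomorphism `χ' = algebraMap ∘ χ ∘ mp ι : κ[X][X] → Λ` kills `F`, and is injective on `κ[X]`.
* `inB_of_places`: `U = ev b / pol q`, `q ≠ 0`. Over `κb` algebraically closed: for every root `x₀` of `q` (over `κb`) and every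
  branch at `x₀`: `χ (C q)` divides `χ b`. Induction on the degree of `q` (`dvd_of_branches`), giving `b = C q b' + e F`
  over `κb`; the remainder of `b` modulo `F` is divisible by `q` over `κb`, so over `κ`, which gives `InB e U`.
-/

set_option autoImplicit false

namespace MPadcLF

open Polynomial MPadcCov

section branch

variable {κb : Type*} [Field κb]

private theorem PlF_const_of {G : κb[X]} (hG : G ≠ 0) {y₀ : κb} {f : κb[X] →+* PowerSeries κb}
    (hc : ∀ r : κb[X], PowerSeries.constantCoeff (f r) = r.eval y₀) (h0 : f G = 0) :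
    f X = f (C y₀) := by
  obtain ⟨r, hr, hnr⟩ := exists_eq_pow_rootMultiplicity_mul_and_not_dvd G hG y₀
  generalize rootMultiplicity y₀ G = m at hr
  rw [hr, map_mul, map_pow, mul_eq_zero] at h0
  rcases h0 with h1 | h1
  · rcases Nat.eq_zero_or_pos m with h3 | h3
    · rw [h3, pow_zero] at h1
      exact absurd h1 one_ne_zero
    · have h2 := (pow_eq_zero_iff (Nat.pos_iff_ne_zero.1 h3)).1 h1
      rw [map_sub] at h2
      exact sub_eq_zero.1 h2
  · exfalso
    apply hnr
    rw [dvd_iff_isRoot, IsRoot.def, ← hc r, h1, map_zero]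

private theorem PlF_e2map (x₀ y₀ : κb) (r : κb[X]) :
    e2 x₀ y₀ (mapRingHom (C : κb →+* κb[X]) r) = r.eval y₀ := by
  have h : (e2 x₀ y₀).comp (mapRingHom (C : κb →+* κb[X])) = evalRingHom y₀ := by
    apply Polynomial.ringHom_ext'
    · ext a
      simp [e2]
    · simp [e2]
  exact RingHom.congr_fun h r

private theorem PlF_e2C (x₀ y₀ : κb) (r : κb[X]) : e2 x₀ y₀ (C r) = r.eval x₀ := by
  show (evalRingHom x₀) ((evalRingHom (C y₀)) (C r)) = _
  rw [coe_evalRingHom, coe_evalRingHom, eval_C]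

private theorem PlF_inj {F : κb[X][X]} (hF : F.Monic) (hs : Sm F 1) {x₀ y₀ : κb}
    {χ : κb[X][X] →+* PowerSeries κb} {c : PowerSeries κb} (H : IsBranch F x₀ y₀ χ c)
    {q : κb[X]} (hq : q ≠ 0) : χ (C q) ≠ 0 := by
  intro h0
  have hx : χ (C X) = PowerSeries.C x₀ := by
    have h1 := PlF_const_of (f := χ.comp (C : κb[X] →+* κb[X][X])) (y₀ := x₀) hq (fun r => by
      rw [RingHom.comp_apply, H.constantCoeff, PlF_e2C]) h0
    rw [RingHom.comp_apply, RingHom.comp_apply] at h1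
    rw [h1]
    exact H.const x₀
  obtain ⟨f, hf⟩ : ∃ f : κb[X] →+* PowerSeries κb, f = χ.comp (mapRingHom (C : κb →+* κb[X])) := ⟨_, rfl⟩
  have hfr : ∀ r, f r = χ (mapRingHom (C : κb →+* κb[X]) r) := fun r => by rw [hf]; rfl
  have hev : f.comp (mapRingHom (evalRingHom x₀)) = χ := by
    apply Polynomial.ringHom_ext'
    · apply Polynomial.ringHom_ext'
      · ext1 a
        simp only [RingHom.comp_apply]
        rw [coe_mapRingHom, map_C, hfr, coe_mapRingHom, map_C, coe_evalRingHom, eval_C]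
      · simp only [RingHom.comp_apply]
        rw [coe_mapRingHom, map_C, hfr, coe_mapRingHom, map_C, coe_evalRingHom, eval_X]
        rw [H.const x₀, hx]
    · simp only [RingHom.comp_apply]
      rw [coe_mapRingHom, map_X, hfr, coe_mapRingHom, map_X]
  have hG : (mapRingHom (evalRingHom x₀) F) ≠ 0 := (hF.map (evalRingHom x₀)).ne_zero
  have hy : χ X = PowerSeries.C y₀ := by
    have h1 := PlF_const_of (f := f) (y₀ := y₀) hG (fun r => by
      rw [hfr, H.constantCoeff, PlF_e2map]) (by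
      have h2 := RingHom.congr_fun hev F
      rw [RingHom.comp_apply] at h2
      rw [h2, H.root])
    rw [hfr, hfr, coe_mapRingHom, map_X, map_C, H.const y₀] at h1
    exact h1
  have hdC : ∀ a : κb, PowerSeries.derivative κb (PowerSeries.C a) = 0 := fun a => by
    rw [PowerSeries.derivative_C]
  have hFy : χ (py F) = 0 := by
    have h1 := H.der (C X)
    rw [hx, hdC, mul_zero] at h1
    rw [← h1]
    congr 1
    unfold br
    rw [px_C, py_C, derivative_X]
    simp
  have hFx : χ (px F) = 0 := by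
    have h1 := H.der X
    rw [hy, hdC, mul_zero] at h1
    unfold br at h1
    rw [px_X, py_X, zero_mul, one_mul, zero_sub, map_neg, neg_eq_zero] at h1
    exact h1
  obtain ⟨u, v, z, huvz⟩ := hs
  have h2 := congrArg χ huvz
  rw [map_add, map_add, map_mul, map_mul, map_mul, H.root, hFx, hFy, H.const] at h2
  simp at h2

end branch

variable {κ : Type*} [Field κ] {E : Type*} [Field E] [Algebra (RatFunc κ) E] {w n : ℕ}
  {F : κ[X][X]} {y : E} {e : Module.Basis (Fin n) (RatFunc κ) E} {dK : RatFunc κ → RatFunc κ}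
  {d : Derivation ℤ E E} {κb : Type*} [Field κb] [Algebra κ κb] {Λ : Type*} [Field Λ]
  [Algebra (PowerSeries κb) Λ] [IsFractionRing (PowerSeries κb) Λ]

private theorem PlF_sm {κ κb : Type*} [Field κ] [Field κb] (φ : κ →+* κb) {F : κ[X][X]} (hs : Sm F 1) :
    Sm (mp φ F) 1 := by
  obtain ⟨u, v, z, h⟩ := hs
  refine ⟨mp φ u, mp φ v, mp φ z, ?_⟩
  have h1 := congrArg (mp φ) h
  rw [map_add, map_add, map_mul, map_mul, map_mul, mp_px, mp_py, mp_cc, map_one φ] at h1
  exact h1

private theorem PlF_mpC {κ κb : Type*} [Field κ] [Field κb] (φ : κ →+* κb) (p : κ[X]) :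
    mp φ (C p) = C (p.map φ) := by
  show Polynomial.map (mapRingHom φ) (C p) = C (p.map φ)
  rw [map_C]
  rfl

private theorem PlF_lift {A B D : Type*} [CommRing A] [CommRing B] [CommRing D] (α : A →+* B)
    (hα : Function.Surjective α) (β : A →+* D) (hk : ∀ p, α p = 0 → β p = 0) :
    ∃ θ : B →+* D, ∀ p, θ (α p) = β p := by
  refine ⟨RingHom.liftOfSurjective α hα ⟨β, fun p hp => hk p hp⟩, fun p => ?_⟩
  exact RingHom.liftOfRightInverse_comp_apply _ _ _ _ _

private theorem PlF_theta (H : KL w n F y e dK d) (hs : Sm F 1) {x₀ y₀ : κb}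
    {χ : κb[X][X] →+* PowerSeries κb} {c : PowerSeries κb}
    (hχ : IsBranch (mp (algebraMap κ κb) F) x₀ y₀ χ c) :
    ∃ θ : E →+* Λ, ∀ h, θ (ev y h) = algebraMap (PowerSeries κb) Λ
      (χ (mp (algebraMap κ κb) h)) := by
  have hFb : (mp (algebraMap κ κb) F).Monic := H.wt.monic.map _
  obtain ⟨ψ, hψ⟩ : ∃ ψ : κ[X][X] →+* Λ, ∀ h, ψ h = algebraMap (PowerSeries κb) Λ
      (χ (mp (algebraMap κ κb) h)) :=
    ⟨((algebraMap (PowerSeries κb) Λ).comp χ).comp (mp (algebraMap κ κb)), fun h => rfl⟩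
  have hψF : ψ F = 0 := by rw [hψ, hχ.root, map_zero]
  have hinj : Function.Injective (ψ.comp (C : κ[X] →+* κ[X][X])) := by
    rw [injective_iff_map_eq_zero]
    intro q hq
    by_contra hq0
    rw [RingHom.comp_apply, hψ, PlF_mpC] at hq
    have h1 : (q.map (algebraMap κ κb)) ≠ 0 := (Polynomial.map_ne_zero_iff (algebraMap κ κb).injective).2 hq0
    exact PlF_inj hFb (PlF_sm _ hs) hχ h1 ((map_eq_zero_iff _ (IsFractionRing.injective (PowerSeries κb) Λ)).1 hq)
  obtain ⟨φ, hφ⟩ : ∃ φ : RatFunc κ →+* Λ, ∀ q : κ[X], φ (pol q) = ψ (C q) := by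
    refine ⟨IsFractionRing.lift hinj, fun q => ?_⟩
    rw [IsFractionRing.lift_algebraMap, RingHom.comp_apply]
  -- the surjection from the polynomials over the rational functions
  have hα : ∀ p : (RatFunc κ)[X], p.natDegree < n → ∀ i : Fin n, e.repr (aeval y p) i = p.coeff i := by
    intro p hp i
    have h1 : aeval y p = ∑ i : Fin n, (p.coeff i) • e i := by
      rw [aeval_eq_sum_range' hp, Finset.sum_range]
      refine Finset.sum_congr rfl fun i _ => ?_
      rw [H.basis i]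
    rw [h1, Module.Basis.repr_sum_self]
  obtain ⟨FK, hFK⟩ : ∃ FK : (RatFunc κ)[X], FK = F.map (algebraMap κ[X] (RatFunc κ)) := ⟨_, rfl⟩
  have hFKm : FK.Monic := by rw [hFK]; exact H.wt.monic.map _
  have hFKd : FK.natDegree = n := by rw [hFK, H.wt.monic.natDegree_map, H.wt.deg]
  have haev : ∀ h : κ[X][X], aeval y (h.map (algebraMap κ[X] (RatFunc κ))) = ev y h := by
    intro h
    rw [aeval_def, eval₂_map]
    rfl
  have hFK0 : aeval y FK = 0 := by rw [hFK, haev, H.root]
  have hβ : ∀ h : κ[X][X], eval₂ φ (ψ X) (h.map (algebraMap κ[X] (RatFunc κ))) = ψ h := by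
    intro h
    rw [eval₂_map]
    have h1 : eval₂RingHom (φ.comp (algebraMap κ[X] (RatFunc κ))) (ψ X) = ψ := by
      apply Polynomial.ringHom_ext
      · intro q
        rw [coe_eval₂RingHom, eval₂_C, RingHom.comp_apply]
        exact hφ q
      · rw [coe_eval₂RingHom, eval₂_X]
    exact RingHom.congr_fun h1 h
  have hker : ∀ p : (RatFunc κ)[X], aeval y p = 0 → eval₂ φ (ψ X) p = 0 := by
    intro p hp
    have h1 := modByMonic_add_div p FK
    have hlt : (p %ₘ FK).natDegree < n := by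
      have h2 := natDegree_modByMonic_lt p hFKm (by
        intro h3
        have h4 := hFKd
        rw [h3, natDegree_one] at h4
        have := H.hn
        omega)
      rwa [hFKd] at h2
    have h2 : aeval y (p %ₘ FK) = 0 := by
      rw [← h1, map_add, map_mul, hFK0, zero_mul, add_zero] at hp
      exact hp
    have h3 : p %ₘ FK = 0 := by
      ext1 i
      rw [coeff_zero]
      by_cases hi : i < n
      · have h4 := hα _ hlt ⟨i, hi⟩
        rw [h2, map_zero, Finsupp.zero_apply] at h4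
        exact h4.symm
      · exact coeff_eq_zero_of_natDegree_lt (lt_of_lt_of_le hlt (not_lt.mp hi))
    have h5 : eval₂ φ (ψ X) FK = 0 := by rw [hFK, hβ, hψF]
    rw [← h1, h3, zero_add, eval₂_mul, h5, zero_mul]
  have hsurj : Function.Surjective ((aeval y : (RatFunc κ)[X] →ₐ[RatFunc κ] E) : (RatFunc κ)[X] →+* E) := by
    intro z
    refine ⟨∑ i : Fin n, C (e.repr z i) * X ^ (i : ℕ), ?_⟩
    rw [RingHom.coe_coe, map_sum]
    conv_rhs => rw [← e.sum_repr z]
    refine Finset.sum_congr rfl fun i _ => ?_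
    rw [map_mul, map_pow, aeval_C, aeval_X, H.basis i, Algebra.smul_def]
  obtain ⟨θ, hθ⟩ := PlF_lift _ hsurj (eval₂RingHom φ (ψ X)) (fun p hp => hker p hp)
  refine ⟨θ, fun h => ?_⟩
  rw [← haev, ← hψ, ← hβ]
  exact hθ (h.map (algebraMap κ[X] (RatFunc κ)))

/-- Every function is a quotient. -/
private theorem PlF_quot (H : KL w n F y e dK d) (z : E) :
    ∃ (q : κ[X]) (b : κ[X][X]), q ≠ 0 ∧ ev y (C q) ≠ 0 ∧ ev y (C q) * z = ev y b := by
  classical
  choose p q hq hpq using fun i => exists_rep (e.repr z i)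
  obtain ⟨Q, hQ⟩ : ∃ Q : κ[X], Q = ∏ i, q i := ⟨_, rfl⟩
  have hQ0 : Q ≠ 0 := by rw [hQ]; exact Finset.prod_ne_zero_iff.2 fun i _ => hq i
  have hB : InB e (ev y (C Q) * z) := by
    intro i
    rw [ev_C, repr_inE_mul]
    refine ⟨(∏ j ∈ Finset.univ.erase i, q j) * p i, ?_⟩
    have h1 : Q = (∏ j ∈ Finset.univ.erase i, q j) * q i := by
      rw [hQ, Finset.prod_erase_mul _ _ (Finset.mem_univ i)]
    rw [h1]
    show algebraMap κ[X] (RatFunc κ) _ = algebraMap κ[X] (RatFunc κ) _ * _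
    rw [map_mul (algebraMap κ[X] (RatFunc κ)), map_mul (algebraMap κ[X] (RatFunc κ)), mul_assoc]
    exact congrArg _ (hpq i).symm
  obtain ⟨b, -, hb⟩ := H.exists_ev hB
  refine ⟨Q, b, hQ0, ?_, hb.symm⟩
  rw [ev_C]
  intro h
  apply hQ0
  apply pol_injective
  apply (algebraMap (RatFunc κ) E).injective
  rw [map_zero, map_zero]
  exact h

theorem KL.exists_place [CharZero κ] (H : KL w n F y e dK d) (hs : Sm F 1) (x₀ y₀ : κb)
    (χ : κb[X][X] →+* PowerSeries κb) (c : PowerSeries κb)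
    (hχ : IsBranch (mp (algebraMap κ κb) F) x₀ y₀ χ c) (DΛ : Derivation ℤ Λ Λ)
    (hD : ∀ f : PowerSeries κb, DΛ (algebraMap (PowerSeries κb) Λ f) =
      algebraMap (PowerSeries κb) Λ (PowerSeries.derivative κb f)) :
    ∃ θ : E →+* Λ, (∀ h, θ (ev y h) = algebraMap (PowerSeries κb) Λ
      (χ (mp (algebraMap κ κb) h))) ∧
      ∀ z, θ (d z) * θ (ev y (py F)) = algebraMap (PowerSeries κb) Λ c * DΛ (θ z) := by
  obtain ⟨θ, hθ⟩ := PlF_theta (Λ := Λ) H hs hχ
  refine ⟨θ, hθ, fun z => ?_⟩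
  have key : ∀ h : κ[X][X], θ (d (ev y h)) * θ (ev y (py F)) =
      algebraMap (PowerSeries κb) Λ c * DΛ (θ (ev y h)) := by
    intro h
    rw [← map_mul, H.d_ev, hθ, hθ, hD, mp_br, hχ.der, map_mul]
  obtain ⟨q, b, -, hq0, hqb⟩ := PlF_quot H z
  have h1 := key (C q)
  have h2 := key b
  have hθq : θ (ev y (C q)) ≠ 0 := (map_ne_zero θ).2 hq0
  rw [← hqb, Derivation.leibniz, smul_eq_mul, smul_eq_mul, map_add, map_mul, map_mul, map_mul θ (ev y (C q)) z,
    Derivation.leibniz, smul_eq_mul, smul_eq_mul] at h2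
  generalize θ (ev y (C q)) = Q at *
  apply mul_left_cancel₀ hθq
  linear_combination h2 - θ z * h1

private theorem PlF_ind {κb : Type*} [Field κb] [CharZero κb] [IsAlgClosed κb] {F : κb[X][X]} (hF : F.Monic)
    (hs : Sm F 1) (m : ℕ) : ∀ (q : κb[X]), q.natDegree = m → q ≠ 0 → ∀ b : κb[X][X],
    (∀ (x₀ y₀ : κb) (χ : κb[X][X] →+* PowerSeries κb) (c : PowerSeries κb), IsBranch F x₀ y₀ χ c →
      χ (C q) ∣ χ b) → ∃ b' e : κb[X][X], b = C q * b' + e * F := by
  induction m with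
  | zero =>
    intro q hd hq b _
    obtain ⟨a, rfl⟩ := natDegree_eq_zero.1 hd
    have ha : a ≠ 0 := by
      rintro rfl
      exact hq C_0
    refine ⟨cc a⁻¹ * b, 0, ?_⟩
    rw [zero_mul, add_zero, ← mul_assoc, ← C_mul, ← C_mul, mul_inv_cancel₀ ha, C_1, C_1, one_mul]
  | succ m ih =>
    intro q hd hq b hb
    obtain ⟨x₀, hx₀⟩ := IsAlgClosed.exists_root q (by
      rw [degree_eq_natDegree hq, hd]
      exact_mod_cast Nat.succ_ne_zero m)
    obtain ⟨q₁, hq₁⟩ := dvd_iff_isRoot.2 hx₀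
    have hq₁0 : q₁ ≠ 0 := by
      rintro rfl
      exact hq (by rw [hq₁, mul_zero])
    have hd₁ : q₁.natDegree = m := by
      have h1 := hd
      rw [hq₁, natDegree_mul (X_sub_C_ne_zero x₀) hq₁0, natDegree_X_sub_C] at h1
      omega
    have hsm : ∀ y₀, e2 x₀ y₀ F = 0 → e2 x₀ y₀ (px F) ≠ 0 ∨ e2 x₀ y₀ (py F) ≠ 0 := by
      intro y₀ h0
      obtain ⟨u, v, z, huvz⟩ := hs
      by_contra hcon
      rw [not_or, not_not, not_not] at hcon
      have h1 := congrArg (fun t => e2 x₀ y₀ t) huvz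
      simp only [map_add, map_mul] at h1
      rw [h0, hcon.1, hcon.2, mul_zero, mul_zero, mul_zero, add_zero, add_zero, PlF_e2C, eval_C] at h1
      exact zero_ne_one h1
    obtain ⟨b₁, e₁, hb₁⟩ := dvd_of_branches hF x₀ hsm b (fun y₀ χ c H => by
      refine dvd_trans ?_ (hb x₀ y₀ χ c H)
      rw [hq₁, C_mul, map_mul]
      exact dvd_mul_right _ _)
    obtain ⟨b', e', hb'⟩ := ih q₁ hd₁ hq₁0 b₁ (fun x y χ c H => by
      obtain ⟨t, ht⟩ := hb x y χ c H
      refine ⟨t, ?_⟩
      apply mul_left_cancel₀ (PlF_inj hF hs H (X_sub_C_ne_zero x₀))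
      rw [hb₁, hq₁, C_mul, map_add, map_mul, map_mul, map_mul, H.root, mul_zero, add_zero] at ht
      rw [ht, mul_assoc])
    refine ⟨b', C (X - C x₀) * e' + e₁, ?_⟩
    rw [hb₁, hb', hq₁, C_mul]
    ring

theorem KL.inB_of_places [CharZero κ] [IsAlgClosed κb] (H : KL w n F y e dK d) (hs : Sm F 1)
    (U : E)
    (hU : ∀ (x₀ y₀ : κb) (χ : κb[X][X] →+* PowerSeries κb) (c : PowerSeries κb)
      (θ : E →+* Λ), IsBranch (mp (algebraMap κ κb) F) x₀ y₀ χ c →
      (∀ h, θ (ev y h) = algebraMap (PowerSeries κb) Λ (χ (mp (algebraMap κ κb) h))) →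
      ∃ u, θ U = algebraMap (PowerSeries κb) Λ u) : InB e U := by
  have : CharZero κb := charZero_of_injective_algebraMap (algebraMap κ κb).injective
  have hFb : (mp (algebraMap κ κb) F).Monic := H.wt.monic.map _
  have hsb := PlF_sm (algebraMap κ κb) hs
  obtain ⟨q, b, hq, hq0, hqb⟩ := PlF_quot H U
  have hqb0 : (q.map (algebraMap κ κb)) ≠ 0 := (Polynomial.map_ne_zero_iff (algebraMap κ κb).injective).2 hq
  obtain ⟨b', e', hb'⟩ := PlF_ind hFb hsb _ (q.map (algebraMap κ κb)) rfl hqb0 (mp (algebraMap κ κb) b)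
    (fun x₀ y₀ χ c hχ => by
      obtain ⟨θ, hθ⟩ := PlF_theta (Λ := Λ) H hs hχ
      obtain ⟨u, hu⟩ := hU x₀ y₀ χ c θ hχ hθ
      refine ⟨u, ?_⟩
      apply IsFractionRing.injective (PowerSeries κb) Λ
      have h1 := congrArg θ hqb
      rw [map_mul, hθ, hθ, hu, PlF_mpC, ← map_mul] at h1
      exact h1.symm)
  have hdvd : C q ∣ b %ₘ F := by
    rw [C_dvd_iff_dvd_coeff]
    intro i
    rw [← Polynomial.map_dvd_map' (algebraMap κ κb)]
    have h1 : (mp (algebraMap κ κb) (b %ₘ F)) = C (q.map (algebraMap κ κb)) * (b' %ₘ (mp (algebraMap κ κb) F)) := by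
      rw [mp_mod _ H.wt.monic, hb', mod_add hFb, mod_mul_self hFb, add_zero, mod_C_mul hFb]
    have h2 := congrArg (fun t : κb[X][X] => t.coeff i) h1
    simp only [coeff_C_mul] at h2
    have h3 : (mp (algebraMap κ κb) (b %ₘ F)).coeff i = ((b %ₘ F).coeff i).map (algebraMap κ κb) := by
      show (Polynomial.map (mapRingHom (algebraMap κ κb)) (b %ₘ F)).coeff i = _
      rw [coeff_map]
      rfl
    rw [← h3, h2]
    exact dvd_mul_right _ _
  obtain ⟨b₀, hb₀⟩ := hdvd
  have h4 : U = ev y b₀ := by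
    apply mul_left_cancel₀ hq0
    rw [hqb, ← map_mul, ← hb₀, H.ev_mod]
  rw [h4]
  exact H.inB_ev b₀

end MPadcLF
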