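import Pool.Agent.Lib.MP_adc574_ag_LF.Inf
import Pool.Agent.Lib.MP_adc574_ag_LF.Nat
import Pool.Agent.Lib.MP_adc574_ag_LF.Ev

/-!
# JOB PlI: places of the function field at infinity

`κb` algebraically closed over `κ`, `Λ` the field of fractions of `PowerSeries κb`, `s = algebraMap X`.
* `exists_place_inf`: let `z₀` be a root of `topp w n F` over `κb`; it is a simple root (`Tp w n F 1`). The polynomial
  `F∞ (Z) = ∑ j, s ^ (w (n - j)) F_j (1 / s) Z ^ j` over `PowerSeries κb` (the coefficient is the reversed polynomial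
  `(F.coeff j).reflect (w (n - j))`, mapped to power series in `s`) is monic of degree `n` with reduction `topp`; Hensel:
  `PowerSeries κb` is Henselian (`IsAdicComplete (Ideal.span {X}) _` in Mathlib, `IsAdicComplete.henselianRing`), so there
  is a root `Z` with `constantCoeff Z = z₀`. The map `RatFunc κ → Λ`, `x ↦ 1 / s` (injective on polynomials: leading
  coefficient), and `y ↦ s ^ (- w) Z` kills `F`; so `θ : E → Λ` (`AdjoinRoot.lift` or the basis). `θ (d z) = - s ^ 2 DΛ (θ z)`:
  both sides are derivations over `θ` that agree on `κ`, `x` (`DΛ (1/s) = - 1/s ^ 2`), hence on `κ(x)` and on `y`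
  (`F_Y ≠ 0`). `BDeg m z`, `m ≤ 0`: `z = ∑ r_i y ^ i` with `r_i` of degree `≤ m - w i`: `θ (r_i) ∈ s ^ (w i - m) PowerSeries`.
* `bdeg_of_places`: for the `n` different roots `z_j` of `topp` over `κb` (separable, monic of degree `n`) take `θ_j`, `Z_j`. `U = ∑ r_i y ^ i`,
  `r_i = x ^ (- w i) r_i'`, `θ_j (U) = ∑ θ_j (r_i') Z_j ^ i`, and `θ_j (r)` for `r ∈ κ(x)` does not depend on `j` (`x ↦ 1/s`). The
  Vandermonde determinant of the `Z_j` has constant coefficient `∏ (z_j - z_i) ≠ 0`, a unit, so all `θ (r_i')` are in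
  `PowerSeries κb`, which means `Dle (r_i') 0` (`r = p / q`: `θ (r) = s ^ (deg q - deg p) * unit`).
-/

set_option autoImplicit false

namespace MPadcLF

open Polynomial MPadcCov

variable {κ : Type*} [Field κ] {E : Type*} [Field E] [Algebra (RatFunc κ) E] {w n : ℕ}
  {F : κ[X][X]} {y : E} {e : Module.Basis (Fin n) (RatFunc κ) E} {dK : RatFunc κ → RatFunc κ}
  {d : Derivation ℤ E E} {κb : Type*} [Field κb] [Algebra κ κb] {Λ : Type*} [Field Λ]
  [Algebra (PowerSeries κb) Λ] [IsFractionRing (PowerSeries κb) Λ]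

/-- A place at infinity with the root `Z`. -/
structure IsPlI (y : E) (w : ℕ) (κb : Type*) [Field κb] [Algebra κ κb] {Λ : Type*} [Field Λ]
    [Algebra (PowerSeries κb) Λ] (θ : E →+* Λ) (Z : PowerSeries κb) : Prop where
  const : ∀ c : κ, θ (inE (κ := κ) E (pol (C c))) =
    algebraMap (PowerSeries κb) Λ (PowerSeries.C (algebraMap κ κb c))
  x : θ (inE (κ := κ) E RatFunc.X) * algebraMap (PowerSeries κb) Λ PowerSeries.X = 1
  y : θ y * algebraMap (PowerSeries κb) Λ (PowerSeries.X ^ w) = algebraMap (PowerSeries κb) Λ Z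

/-- The power series in `s = 1 / x` of `p / x ^ N`. -/
private noncomputable def PlI_rp (κb : Type*) [Field κb] [Algebra κ κb] (N : ℕ) (p : κ[X]) :
    PowerSeries κb :=
  (((p.reflect N).map (algebraMap κ κb) : κb[X]) : PowerSeries κb)

omit [IsFractionRing (PowerSeries κb) Λ] in
private theorem PlI_pol0 {g : κ[X] →+* Λ} (hc : ∀ c : κ, g (C c) =
      algebraMap (PowerSeries κb) Λ (PowerSeries.C (algebraMap κ κb c)))
    (hx : g X * algebraMap (PowerSeries κb) Λ PowerSeries.X = 1) (N : ℕ) (p : κ[X])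
    (hp : p.natDegree ≤ N) : g p * algebraMap (PowerSeries κb) Λ PowerSeries.X ^ N =
      algebraMap (PowerSeries κb) Λ (PlI_rp κb N p) := by
  obtain ⟨s, hs⟩ : ∃ s, s = algebraMap (PowerSeries κb) Λ PowerSeries.X := ⟨_, rfl⟩
  rw [← hs] at hx ⊢
  obtain ⟨i, hi⟩ : ∃ i : κ →+* Λ, i = ((algebraMap (PowerSeries κb) Λ).comp
    (PowerSeries.C (R := κb))).comp (algebraMap κ κb) := ⟨_, rfl⟩
  have hinv : Invertible (g X) := ⟨s, by rw [mul_comm, hx], hx⟩
  have h1 : ⅟(g X) = s := invOf_eq_right_inv hx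
  have h2 := eval₂_reflect_mul_pow i (g X) N p hp
  rw [h1] at h2
  have h3 : eval₂ i (g X) p = g p := by
    have h4 : eval₂RingHom i (g X) = g := by
      apply Polynomial.ringHom_ext
      · intro c
        rw [coe_eval₂RingHom, eval₂_C, hi]
        exact (hc c).symm
      · rw [coe_eval₂RingHom, eval₂_X]
    exact RingHom.congr_fun h4 p
  have h5 : eval₂ i s (reflect N p) = algebraMap (PowerSeries κb) Λ (PlI_rp κb N p) := by
    have h6 : eval₂RingHom i s = ((algebraMap (PowerSeries κb) Λ).comp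
        (Polynomial.coeToPowerSeries.ringHom (R := κb))).comp (mapRingHom (algebraMap κ κb)) := by
      apply Polynomial.ringHom_ext
      · intro c
        rw [coe_eval₂RingHom, eval₂_C, hi]
        simp
      · rw [coe_eval₂RingHom, eval₂_X, hs]
        simp
    have h7 := RingHom.congr_fun h6 (reflect N p)
    rw [coe_eval₂RingHom] at h7
    rw [h7]
    rfl
  rw [h5, h3] at h2
  rw [← h2, mul_assoc, ← mul_pow, hx, one_pow, mul_one]

omit [IsFractionRing (PowerSeries κb) Λ] in
private theorem PlI_pol {f : RatFunc κ →+* Λ} (hc : ∀ c : κ, f (pol (C c)) =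
      algebraMap (PowerSeries κb) Λ (PowerSeries.C (algebraMap κ κb c)))
    (hx : f RatFunc.X * algebraMap (PowerSeries κb) Λ PowerSeries.X = 1) (N : ℕ) (p : κ[X])
    (hp : p.natDegree ≤ N) : f (pol p) * algebraMap (PowerSeries κb) Λ PowerSeries.X ^ N =
      algebraMap (PowerSeries κb) Λ (PlI_rp κb N p) := by
  refine PlI_pol0 (g := f.comp (algebraMap κ[X] (RatFunc κ))) hc ?_ N p hp
  rw [RingHom.comp_apply, RatFunc.algebraMap_X]
  exact hx

private theorem PlI_rp_cc (N : ℕ) (p : κ[X]) :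
    PowerSeries.constantCoeff (PlI_rp κb N p) = algebraMap κ κb (p.coeff N) := by
  rw [PlI_rp, Polynomial.constantCoeff_coe, coeff_map, coeff_reflect, revAt_zero]

omit [IsFractionRing (PowerSeries κb) Λ] in
/-- The expansion of a rational function at infinity. -/
private theorem PlI_rat {f : RatFunc κ →+* Λ} (hc : ∀ c : κ, f (pol (C c)) =
      algebraMap (PowerSeries κb) Λ (PowerSeries.C (algebraMap κ κb c)))
    (hx : f RatFunc.X * algebraMap (PowerSeries κb) Λ PowerSeries.X = 1) (r : RatFunc κ)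
    (hr : r ≠ 0) : ∃ (a b : ℕ) (u : PowerSeries κb), PowerSeries.constantCoeff u ≠ 0 ∧
      r.intDegree = (a : ℤ) - b ∧ f r * algebraMap (PowerSeries κb) Λ (PowerSeries.X ^ a) =
        algebraMap (PowerSeries κb) Λ (PowerSeries.X ^ b * u) := by
  have hp0 : r.num ≠ 0 := RatFunc.num_ne_zero hr
  have hq0 : r.denom ≠ 0 := r.denom_ne_zero
  have hpq : pol r.denom * r = pol r.num := by
    have h := RatFunc.num_div_denom r
    have h2 : pol r.denom ≠ 0 := by
      rw [Ne, pol, map_eq_zero_iff _ pol_injective]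
      exact hq0
    rw [mul_comm]
    exact ((div_eq_iff h2).1 h).symm
  have h1 := PlI_pol hc hx r.num.natDegree r.num le_rfl
  have h2 := PlI_pol hc hx r.denom.natDegree r.denom le_rfl
  have hcp : PowerSeries.constantCoeff (PlI_rp κb r.num.natDegree r.num) ≠ 0 := by
    rw [PlI_rp_cc]
    exact (_root_.map_ne_zero (algebraMap κ κb)).2 (leadingCoeff_ne_zero.2 hp0)
  have hcq : PowerSeries.constantCoeff (PlI_rp κb r.denom.natDegree r.denom) ≠ 0 := by
    rw [PlI_rp_cc]
    exact (_root_.map_ne_zero (algebraMap κ κb)).2 (leadingCoeff_ne_zero.2 hq0)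
  obtain ⟨up, hup⟩ : ∃ up, up = PlI_rp κb r.num.natDegree r.num := ⟨_, rfl⟩
  obtain ⟨uq, huq⟩ : ∃ uq, uq = PlI_rp κb r.denom.natDegree r.denom := ⟨_, rfl⟩
  rw [← hup] at h1 hcp
  rw [← huq] at h2 hcq
  refine ⟨r.num.natDegree, r.denom.natDegree, up * uq⁻¹, ?_, ?_, ?_⟩
  · rw [map_mul, PowerSeries.constantCoeff_inv]
    exact mul_ne_zero hcp (inv_ne_zero hcq)
  · rfl
  · have h3 : uq * uq⁻¹ = 1 := PowerSeries.mul_inv_cancel _ hcq
    have h4 : algebraMap (PowerSeries κb) Λ uq * algebraMap (PowerSeries κb) Λ uq⁻¹ = 1 := by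
      rw [← map_mul, h3, map_one]
    have h5 : f (pol r.denom) * f r = f (pol r.num) := by rw [← map_mul, hpq]
    rw [map_pow, map_mul, map_mul, map_pow]
    generalize algebraMap (PowerSeries κb) Λ PowerSeries.X = s at *
    generalize algebraMap (PowerSeries κb) Λ uq⁻¹ = vi at *
    rw [← h1, ← h5]
    rw [← h2] at h4
    linear_combination (-(f r * s ^ r.num.natDegree)) * h4

private theorem PlI_neg {f : RatFunc κ →+* Λ} (hc : ∀ c : κ, f (pol (C c)) =
      algebraMap (PowerSeries κb) Λ (PowerSeries.C (algebraMap κ κb c)))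
    (hx : f RatFunc.X * algebraMap (PowerSeries κb) Λ PowerSeries.X = 1) (r : RatFunc κ) (m : ℕ) :
    Dle r (-(m : ℤ)) ↔ ∃ g : PowerSeries κb, f r =
      algebraMap (PowerSeries κb) Λ (PowerSeries.X ^ m * g) := by
  have hinj : Function.Injective (algebraMap (PowerSeries κb) Λ) :=
    IsFractionRing.injective (PowerSeries κb) Λ
  have hX : (PowerSeries.X : PowerSeries κb) ≠ 0 := PowerSeries.X_ne_zero
  rcases eq_or_ne r 0 with h0 | h0
  · refine ⟨fun _ => ⟨0, by rw [h0, map_zero, mul_zero, map_zero]⟩, fun _ => Or.inl h0⟩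
  obtain ⟨a, b, u, hu, hab, h⟩ := PlI_rat (κb := κb) hc hx r h0
  have ha : algebraMap (PowerSeries κb) Λ (PowerSeries.X ^ a) ≠ 0 :=
    (map_ne_zero_iff _ hinj).2 (pow_ne_zero _ hX)
  constructor
  · rintro (h1 | h1)
    · exact absurd h1 h0
    · obtain ⟨c, hc'⟩ : ∃ c, b = a + m + c := ⟨b - (a + m), by omega⟩
      refine ⟨PowerSeries.X ^ c * u, ?_⟩
      apply mul_right_cancel₀ ha
      rw [h, ← map_mul, hc']
      congr 1
      ring
  · rintro ⟨g, hg⟩
    right
    by_contra hcon
    have h2 : b < m + a := by omega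
    rw [hg, ← map_mul] at h
    have h3 := hinj h
    obtain ⟨c, hc'⟩ : ∃ c, m + a = b + 1 + c := ⟨m + a - (b + 1), by omega⟩
    have h4 : PowerSeries.X ^ b * (PowerSeries.X * (PowerSeries.X ^ c * g)) =
        PowerSeries.X ^ b * u := by
      rw [← h3]
      have h5 : (PowerSeries.X : PowerSeries κb) ^ m * PowerSeries.X ^ a =
          PowerSeries.X ^ b * PowerSeries.X * PowerSeries.X ^ c := by
        rw [← pow_add, hc', pow_add, pow_add, pow_one]
      linear_combination (-g) * h5
    have h6 := mul_left_cancel₀ (pow_ne_zero _ hX) h4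
    apply hu
    rw [← h6, map_mul, PowerSeries.constantCoeff_X, zero_mul]

theorem KL.place_inf_deg (H : KL w n F y e dK d) {θ : E →+* Λ} {Z : PowerSeries κb}
    (hθ : IsPlI (κ := κ) y w κb θ Z) (m : ℕ) (z : E) (hz : BDeg e (aa w n) (-(m : ℤ)) z) :
    ∃ f : PowerSeries κb, θ z = algebraMap (PowerSeries κb) Λ (PowerSeries.X ^ m * f) := by
  have hinj : Function.Injective (algebraMap (PowerSeries κb) Λ) :=
    IsFractionRing.injective (PowerSeries κb) Λ
  obtain ⟨f, hf⟩ : ∃ f : RatFunc κ →+* Λ, f = θ.comp (algebraMap (RatFunc κ) E) := ⟨_, rfl⟩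
  have hc : ∀ c : κ, f (pol (C c)) =
      algebraMap (PowerSeries κb) Λ (PowerSeries.C (algebraMap κ κb c)) := fun c => by
    rw [hf]
    exact hθ.const c
  have hx : f RatFunc.X * algebraMap (PowerSeries κb) Λ PowerSeries.X = 1 := by
    rw [hf]
    exact hθ.x
  have h1 : ∀ i : Fin n, ∃ g : PowerSeries κb, f (e.repr z i) * θ y ^ (i : ℕ) =
      algebraMap (PowerSeries κb) Λ (PowerSeries.X ^ m * g) := by
    intro i
    have h2 := hz i
    have h3 : (-(m : ℤ) - ((aa w n i : ℕ) : ℤ)) = -((m + w * i : ℕ) : ℤ) := by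
      push_cast [aa]
      ring
    rw [h3] at h2
    obtain ⟨g, hg⟩ := (PlI_neg (κb := κb) hc hx _ _).1 h2
    refine ⟨g * Z ^ (i : ℕ), ?_⟩
    have h4 : θ y ^ (i : ℕ) * algebraMap (PowerSeries κb) Λ (PowerSeries.X ^ (w * (i : ℕ))) =
        algebraMap (PowerSeries κb) Λ (Z ^ (i : ℕ)) := by
      rw [pow_mul, map_pow, ← mul_pow, hθ.y, map_pow]
    rw [hg, pow_add, mul_assoc (PowerSeries.X ^ m), map_mul, map_mul _ (PowerSeries.X ^ (w * (i : ℕ))) g,
      map_mul _ (PowerSeries.X ^ m), map_mul _ g, ← h4]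
    ring
  choose g hg using h1
  refine ⟨∑ i, g i, ?_⟩
  rw [Finset.mul_sum, map_sum]
  conv_lhs => rw [← e.sum_repr z]
  rw [map_sum]
  refine Finset.sum_congr rfl fun i _ => ?_
  rw [← hg i, H.basis i, Algebra.smul_def, map_mul, map_pow, hf]
  rfl

/-- Hensel's lemma for power series over a field (non-monic polynomials). -/
private theorem PlI_hensel {κ : Type*} [Field κ] (f : (PowerSeries κ)[X]) (a : κ)
    (h0 : PowerSeries.constantCoeff (f.eval (PowerSeries.C a)) = 0)
    (h1 : PowerSeries.constantCoeff (f.derivative.eval (PowerSeries.C a)) ≠ 0) :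
    ∃ ξ : PowerSeries κ, f.eval ξ = 0 ∧ PowerSeries.constantCoeff ξ = a := by
  classical
  have hcc : ∀ (g : (PowerSeries κ)[X]) (x y : PowerSeries κ),
      PowerSeries.constantCoeff x = PowerSeries.constantCoeff y →
      PowerSeries.constantCoeff (g.eval x) = PowerSeries.constantCoeff (g.eval y) := by
    intro g x y hxy
    have h2 : (PowerSeries.X : PowerSeries κ) ∣ x - y := by
      rw [PowerSeries.X_dvd_iff, map_sub, hxy, sub_self]
    have h3 := h2.trans (sub_dvd_eval_sub x y g)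
    rw [PowerSeries.X_dvd_iff, map_sub, sub_eq_zero] at h3
    exact h3
  set d : κ := PowerSeries.constantCoeff (f.derivative.eval (PowerSeries.C a)) with hd
  set u : PowerSeries κ := PowerSeries.C d⁻¹ with hu
  let s : ℕ → PowerSeries κ := fun n => Nat.rec (PowerSeries.C a) (fun _ x => x - u * f.eval x) n
  have s0 : s 0 = PowerSeries.C a := rfl
  have ss : ∀ n, s (n + 1) = s n - u * f.eval (s n) := fun n => rfl
  have hs : ∀ n, PowerSeries.constantCoeff (s n) = a ∧
      (PowerSeries.X : PowerSeries κ) ^ (n + 1) ∣ f.eval (s n) := by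
    intro n
    induction n with
    | zero =>
      refine ⟨by rw [s0, PowerSeries.constantCoeff_C], ?_⟩
      rw [zero_add, pow_one, PowerSeries.X_dvd_iff, s0]
      exact h0
    | succ n ih =>
      obtain ⟨ih1, ih2⟩ := ih
      have hX : (PowerSeries.X : PowerSeries κ) ∣ f.eval (s n) :=
        (dvd_pow_self _ (Nat.succ_ne_zero n)).trans ih2
      have h4 : PowerSeries.constantCoeff (f.eval (s n)) = 0 := PowerSeries.X_dvd_iff.mp hX
      refine ⟨?_, ?_⟩
      · rw [ss, map_sub, map_mul, h4, mul_zero, sub_zero, ih1]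
      · rw [ss]
        obtain ⟨k, hk⟩ := binomExpansion f (s n) (-(u * f.eval (s n)))
        have e1 : s n - u * f.eval (s n) = s n + -(u * f.eval (s n)) := sub_eq_add_neg _ _
        rw [e1, hk]
        have h5 : (PowerSeries.X : PowerSeries κ) ∣ 1 - f.derivative.eval (s n) * u := by
          rw [PowerSeries.X_dvd_iff, map_sub, map_mul, map_one, hu, PowerSeries.constantCoeff_C,
            hcc f.derivative (s n) (PowerSeries.C a) (by rw [ih1, PowerSeries.constantCoeff_C]), ← hd,
            mul_inv_cancel₀ h1, sub_self]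
        have h6 : (PowerSeries.X : PowerSeries κ) ^ (n + 1 + 1) ∣
            f.eval (s n) * (1 - f.derivative.eval (s n) * u) := by
          rw [pow_succ]
          exact mul_dvd_mul ih2 h5
        have h7 : (PowerSeries.X : PowerSeries κ) ^ (n + 1 + 1) ∣ f.eval (s n) * f.eval (s n) := by
          rw [pow_succ]
          exact mul_dvd_mul ih2 hX
        have h8 := dvd_add h6 (h7.mul_left (k * u ^ 2))
        have e9 : f.eval (s n) + f.derivative.eval (s n) * -(u * f.eval (s n)) +
            k * (-(u * f.eval (s n))) ^ 2 = f.eval (s n) * (1 - f.derivative.eval (s n) * u) +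
            k * u ^ 2 * (f.eval (s n) * f.eval (s n)) := by
          ring
        rw [e9]
        exact h8
  have hdiff : ∀ n, (PowerSeries.X : PowerSeries κ) ^ (n + 1) ∣ s (n + 1) - s n := by
    intro n
    have h2 : s (n + 1) - s n = f.eval (s n) * (-u) := by
      rw [ss]
      ring
    rw [h2]
    exact (hs n).2.mul_right _
  have hst : ∀ i m, i ≤ m → PowerSeries.coeff i (s m) = PowerSeries.coeff i (s i) := by
    intro i m him
    induction m, him using Nat.le_induction with
    | base => rfl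
    | succ m hm ih =>
      have h2 := PowerSeries.X_pow_dvd_iff.mp (hdiff m) i (by omega)
      rw [map_sub, sub_eq_zero] at h2
      rw [h2, ih]
  let ξ : PowerSeries κ := PowerSeries.mk fun n => PowerSeries.coeff n (s n)
  have hξ : ∀ n, (PowerSeries.X : PowerSeries κ) ^ (n + 1) ∣ ξ - s n := by
    intro n
    rw [PowerSeries.X_pow_dvd_iff]
    intro i hi
    rw [map_sub, PowerSeries.coeff_mk, hst i n (by omega), sub_self]
  refine ⟨ξ, ?_, ?_⟩
  · ext n
    have h2 : (PowerSeries.X : PowerSeries κ) ^ (n + 1) ∣ f.eval ξ := by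
      have h3 := dvd_add ((hξ n).trans (sub_dvd_eval_sub ξ (s n) f)) (hs n).2
      rwa [sub_add_cancel] at h3
    rw [map_zero]
    exact PowerSeries.X_pow_dvd_iff.mp h2 n (by omega)
  · have h2 : PowerSeries.constantCoeff ξ = PowerSeries.coeff 0 (s 0) := by
      rw [← PowerSeries.coeff_zero_eq_constantCoeff_apply, PowerSeries.coeff_mk]
    rw [h2, s0, PowerSeries.coeff_zero_eq_constantCoeff_apply, PowerSeries.constantCoeff_C]

private theorem PlI_lift {A B D : Type*} [CommRing A] [CommRing B] [CommRing D] (α : A →+* B)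
    (hα : Function.Surjective α) (β : A →+* D) (hk : ∀ p, α p = 0 → β p = 0) :
    ∃ θ : B →+* D, ∀ p, θ (α p) = β p := by
  refine ⟨RingHom.liftOfSurjective α hα ⟨β, fun p hp => hk p hp⟩, fun p => ?_⟩
  exact RingHom.liftOfRightInverse_comp_apply _ _ _ _ _

private theorem PlI_theta (H : KL w n F y e dK d) (ψ : κ[X][X] →+* Λ) (hψF : ψ F = 0)
    (hinj : Function.Injective (ψ.comp (C : κ[X] →+* κ[X][X]))) :
    ∃ θ : E →+* Λ, ∀ h, θ (ev y h) = ψ h := by
  obtain ⟨φ, hφ⟩ : ∃ φ : RatFunc κ →+* Λ, ∀ q : κ[X], φ (pol q) = ψ (C q) := by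
    refine ⟨IsFractionRing.lift hinj, fun q => ?_⟩
    rw [IsFractionRing.lift_algebraMap, RingHom.comp_apply]
  -- the surjection from the polynomials over the rational functions
  have hα : ∀ p : (RatFunc κ)[X], p.natDegree < n → ∀ i : Fin n, e.repr (aeval y p) i = p.coeff i := by
    intro p hp i
    have h1 : aeval y p = ∑ i : Fin n, (p.coeff i) • e i := by
      rw [aeval_eq_sum_range' hp, Finset.sum_range]
      refine Finset.sum_congr rfl fun i _ => ?_
      rw [H.basis i]
    rw [h1, Module.Basis.repr_sum_self]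
  obtain ⟨FK, hFK⟩ : ∃ FK : (RatFunc κ)[X], FK = F.map (algebraMap κ[X] (RatFunc κ)) := ⟨_, rfl⟩
  have hFKm : FK.Monic := by rw [hFK]; exact H.wt.monic.map _
  have hFKd : FK.natDegree = n := by rw [hFK, H.wt.monic.natDegree_map, H.wt.deg]
  have haev : ∀ h : κ[X][X], aeval y (h.map (algebraMap κ[X] (RatFunc κ))) = ev y h := by
    intro h
    rw [aeval_def, eval₂_map]
    rfl
  have hFK0 : aeval y FK = 0 := by rw [hFK, haev, H.root]
  have hβ : ∀ h : κ[X][X], eval₂ φ (ψ X) (h.map (algebraMap κ[X] (RatFunc κ))) = ψ h := by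
    intro h
    rw [eval₂_map]
    have h1 : eval₂RingHom (φ.comp (algebraMap κ[X] (RatFunc κ))) (ψ X) = ψ := by
      apply Polynomial.ringHom_ext
      · intro q
        rw [coe_eval₂RingHom, eval₂_C, RingHom.comp_apply]
        exact hφ q
      · rw [coe_eval₂RingHom, eval₂_X]
    exact RingHom.congr_fun h1 h
  have hker : ∀ p : (RatFunc κ)[X], aeval y p = 0 → eval₂ φ (ψ X) p = 0 := by
    intro p hp
    have h1 := modByMonic_add_div p FK
    have hlt : (p %ₘ FK).natDegree < n := by
      have h2 := natDegree_modByMonic_lt p hFKm (by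
        intro h3
        have h4 := hFKd
        rw [h3, natDegree_one] at h4
        have := H.hn
        omega)
      rwa [hFKd] at h2
    have h2 : aeval y (p %ₘ FK) = 0 := by
      rw [← h1, map_add, map_mul, hFK0, zero_mul, add_zero] at hp
      exact hp
    have h3 : p %ₘ FK = 0 := by
      ext1 i
      rw [coeff_zero]
      by_cases hi : i < n
      · have h4 := hα _ hlt ⟨i, hi⟩
        rw [h2, map_zero, Finsupp.zero_apply] at h4
        exact h4.symm
      · exact coeff_eq_zero_of_natDegree_lt (lt_of_lt_of_le hlt (not_lt.mp hi))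
    have h5 : eval₂ φ (ψ X) FK = 0 := by rw [hFK, hβ, hψF]
    rw [← h1, h3, zero_add, eval₂_mul, h5, zero_mul]
  have hsurj : Function.Surjective ((aeval y : (RatFunc κ)[X] →ₐ[RatFunc κ] E) : (RatFunc κ)[X] →+* E) := by
    intro z
    refine ⟨∑ i : Fin n, C (e.repr z i) * X ^ (i : ℕ), ?_⟩
    rw [RingHom.coe_coe, map_sum]
    conv_rhs => rw [← e.sum_repr z]
    refine Finset.sum_congr rfl fun i _ => ?_
    rw [map_mul, map_pow, aeval_C, aeval_X, H.basis i, Algebra.smul_def]
  obtain ⟨θ, hθ⟩ := PlI_lift _ hsurj (eval₂RingHom φ (ψ X)) (fun p hp => hker p hp)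
  refine ⟨θ, fun h => ?_⟩
  rw [← haev, ← hβ]
  exact hθ (h.map (algebraMap κ[X] (RatFunc κ)))


/-- The polynomial at infinity. -/
private noncomputable def PlI_Fi (κb : Type*) [Field κb] [Algebra κ κb] (w n : ℕ) (F : κ[X][X]) :
    (PowerSeries κb)[X] :=
  ∑ j ∈ Finset.range (n + 1), C (PlI_rp κb (w * (n - j)) (F.coeff j)) * X ^ j

private theorem PlI_Fi_cc (w n : ℕ) (F : κ[X][X]) :
    (PlI_Fi κb w n F).map (PowerSeries.constantCoeff (R := κb)) =
      topp w n (mp (algebraMap κ κb) F) := by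
  rw [PlI_Fi, topp, Polynomial.map_sum]
  refine Finset.sum_congr rfl fun j _ => ?_
  rw [Polynomial.map_mul, map_C, Polynomial.map_pow, map_X, PlI_rp_cc]
  simp only [mp, coe_mapRingHom, coeff_map]

private theorem PlI_cc_eval (f : (PowerSeries κb)[X]) (z : κb) :
    PowerSeries.constantCoeff (f.eval (PowerSeries.C z)) =
      (f.map (PowerSeries.constantCoeff (R := κb))).eval z := by
  rw [eval_map, ← coe_evalRingHom, eval₂_eq_sum_range, coe_evalRingHom, eval_eq_sum_range, map_sum]
  refine Finset.sum_congr rfl fun j _ => ?_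
  rw [map_mul, map_pow, PowerSeries.constantCoeff_C]

theorem KL.exists_place_inf (H : KL w n F y e dK d) (z₀ : κb)
    (hz : (topp w n (mp (algebraMap κ κb) F)).eval z₀ = 0) :
    ∃ (θ : E →+* Λ) (Z : PowerSeries κb), IsPlI (κ := κ) y w κb θ Z ∧
      PowerSeries.constantCoeff Z = z₀ := by
  have hinjΛ : Function.Injective (algebraMap (PowerSeries κb) Λ) :=
    IsFractionRing.injective (PowerSeries κb) Λ
  -- the root
  obtain ⟨Z, hZ, hZ0⟩ := PlI_hensel (PlI_Fi κb w n F) z₀
    (by rw [PlI_cc_eval, PlI_Fi_cc, hz])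
    (by
      rw [PlI_cc_eval, ← derivative_map, PlI_Fi_cc]
      obtain ⟨u, v, huv⟩ := H.top
      have h1 : (u.map (algebraMap κ κb)) * topp w n (mp (algebraMap κ κb) F) +
          (v.map (algebraMap κ κb)) * derivative (topp w n (mp (algebraMap κ κb) F)) = 1 := by
        rw [← mp_topp, derivative_map, ← Polynomial.map_mul, ← Polynomial.map_mul,
          ← Polynomial.map_add, huv, C_1, Polynomial.map_one]
      intro h0
      have h2 := congrArg (eval z₀) h1
      rw [eval_add, eval_mul, eval_mul, hz, h0, mul_zero, mul_zero, add_zero, eval_one] at h2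
      exact zero_ne_one h2)
  obtain ⟨s, hs⟩ : ∃ s, s = algebraMap (PowerSeries κb) Λ PowerSeries.X := ⟨_, rfl⟩
  have hs0 : s ≠ 0 := by
    rw [hs]
    exact (map_ne_zero_iff _ hinjΛ).2 PowerSeries.X_ne_zero
  obtain ⟨g, hg⟩ : ∃ g : κ[X] →+* Λ, g = eval₂RingHom (((algebraMap (PowerSeries κb) Λ).comp
    (PowerSeries.C (R := κb))).comp (algebraMap κ κb)) s⁻¹ := ⟨_, rfl⟩
  have hgc : ∀ c : κ, g (C c) =
      algebraMap (PowerSeries κb) Λ (PowerSeries.C (algebraMap κ κb c)) := by
    intro c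
    rw [hg, coe_eval₂RingHom, eval₂_C]
    rfl
  have hgx : g X * algebraMap (PowerSeries κb) Λ PowerSeries.X = 1 := by
    rw [hg, coe_eval₂RingHom, eval₂_X, ← hs, inv_mul_cancel₀ hs0]
  have hginj : Function.Injective g := by
    rw [injective_iff_map_eq_zero]
    intro p hp
    by_contra hp0
    have h1 := PlI_pol0 hgc hgx p.natDegree p le_rfl
    rw [hp, zero_mul, eq_comm, map_eq_zero_iff _ hinjΛ] at h1
    have h2 := congrArg (PowerSeries.constantCoeff (R := κb)) h1
    rw [PlI_rp_cc, map_zero] at h2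
    exact (_root_.map_ne_zero (algebraMap κ κb)).2 (leadingCoeff_ne_zero.2 hp0) h2
  obtain ⟨yΛ, hy⟩ : ∃ yΛ, yΛ = s⁻¹ ^ w * algebraMap (PowerSeries κb) Λ Z := ⟨_, rfl⟩
  have hyw : yΛ * s ^ w = algebraMap (PowerSeries κb) Λ Z := by
    rw [hy, mul_right_comm, ← mul_pow, inv_mul_cancel₀ hs0, one_pow, one_mul]
  obtain ⟨ψ, hψ⟩ : ∃ ψ : κ[X][X] →+* Λ, ψ = eval₂RingHom g yΛ := ⟨_, rfl⟩
  have hψC : ∀ p, ψ (C p) = g p := by
    intro p
    rw [hψ, coe_eval₂RingHom, eval₂_C]
  have hψX : ψ X = yΛ := by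
    rw [hψ, coe_eval₂RingHom, eval₂_X]
  have hψF : ψ F = 0 := by
    have h1 : ψ F = ∑ j ∈ Finset.range (n + 1), g (F.coeff j) * yΛ ^ j := by
      rw [hψ, coe_eval₂RingHom]
      exact eval₂_eq_sum_range' _ (by rw [H.wt.deg]; exact Nat.lt_succ_self n) _
    have h2 : ψ F * s ^ (w * n) = 0 := by
      rw [h1, Finset.sum_mul]
      rw [show (0 : Λ) = algebraMap (PowerSeries κb) Λ ((PlI_Fi κb w n F).eval Z) by
        rw [hZ, map_zero]]
      rw [PlI_Fi, eval_finsetSum, map_sum]
      refine Finset.sum_congr rfl fun j hj => ?_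
      have hj' : j ≤ n := Nat.lt_succ_iff.1 (Finset.mem_range.1 hj)
      have hwd : (F.coeff j).natDegree ≤ w * (n - j) := by
        by_cases h0 : F.coeff j = 0
        · rw [h0, natDegree_zero]
          exact Nat.zero_le _
        · have h3 := H.wt.wd j h0
          have h4 : w * (n - j) + w * j = w * n := by rw [← Nat.mul_add, Nat.sub_add_cancel hj']
          omega
      have h3 := PlI_pol0 hgc hgx (w * (n - j)) (F.coeff j) hwd
      have h4 : w * n = w * (n - j) + w * j := by rw [← Nat.mul_add, Nat.sub_add_cancel hj']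
      rw [eval_mul, eval_C, eval_pow, eval_X, map_mul, map_pow, ← h3, ← hs, ← hyw, h4, pow_add,
        pow_mul s w j, mul_pow]
      ring
    exact (mul_eq_zero.1 h2).resolve_right (pow_ne_zero _ hs0)
  have hinj : Function.Injective (ψ.comp (C : κ[X] →+* κ[X][X])) := by
    intro a b hab
    apply hginj
    rw [← hψC, ← hψC]
    exact hab
  obtain ⟨θ, hθ⟩ := PlI_theta (Λ := Λ) H ψ hψF hinj
  refine ⟨θ, Z, ⟨fun c => ?_, ?_, ?_⟩, hZ0⟩
  · have h1 := hθ (C (C c))
    rw [ev_C, hψC, hgc] at h1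
    exact h1
  · have h1 := hθ (C X)
    rw [ev_C, hψC] at h1
    have h4 : (RatFunc.X : RatFunc κ) = pol X := (RatFunc.algebraMap_X).symm
    rw [h4, h1, hgx]
  · have h1 := hθ X
    have h2 : ev y (X : κ[X][X]) = y := by rw [ev, coe_eval₂RingHom, eval₂_X]
    rw [h2, hψX] at h1
    rw [h1, map_pow, ← hs, hyw]


private theorem PlI_topp (H : KL w n F y e dK d) :
    (topp w n (mp (algebraMap κ κb) F)).Monic ∧
      (topp w n (mp (algebraMap κ κb) F)).natDegree = n := by
  have hFb : (mp (algebraMap κ κb) F).Monic := H.wt.monic.map _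
  have hFd : (mp (algebraMap κ κb) F).natDegree = n := by
    rw [mp, coe_mapRingHom, H.wt.monic.natDegree_map, H.wt.deg]
  have h1 : (topp w n (mp (algebraMap κ κb) F)).natDegree ≤ n := by
    unfold topp
    refine natDegree_sum_le_of_forall_le _ _ fun j hj => ?_
    refine (natDegree_C_mul_X_pow_le _ _).trans ?_
    exact Nat.lt_succ_iff.1 (Finset.mem_range.1 hj)
  have h2 : (topp w n (mp (algebraMap κ κb) F)).coeff n = 1 := by
    unfold topp
    rw [finsetSum_coeff, Finset.sum_eq_single n]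
    · rw [coeff_C_mul, coeff_X_pow, if_pos rfl, mul_one, Nat.sub_self, mul_zero]
      have h3 : (mp (algebraMap κ κb) F).coeff n = 1 := by
        rw [← hFd]
        exact hFb
      rw [h3, coeff_one_zero]
    · intro j _ hj
      rw [coeff_C_mul, coeff_X_pow, if_neg (Ne.symm hj), mul_zero]
    · intro h
      exact absurd (Finset.mem_range.2 (Nat.lt_succ_self n)) h
  have h3 : (topp w n (mp (algebraMap κ κb) F)).natDegree = n :=
    le_antisymm h1 (le_natDegree_of_ne_zero (by rw [h2]; exact one_ne_zero))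
  exact ⟨by rw [Monic, leadingCoeff, h3, h2], h3⟩

theorem KL.bdeg_of_places [IsAlgClosed κb] (H : KL w n F y e dK d) (U : E)
    (hU : ∀ (θ : E →+* Λ) (Z : PowerSeries κb), IsPlI (κ := κ) y w κb θ Z →
      ∃ u, θ U = algebraMap (PowerSeries κb) Λ u) : BDeg e (aa w n) 0 U := by
  classical
  have hinjΛ : Function.Injective (algebraMap (PowerSeries κb) Λ) :=
    IsFractionRing.injective (PowerSeries κb) Λ
  obtain ⟨T, hT⟩ : ∃ T, T = topp w n (mp (algebraMap κ κb) F) := ⟨_, rfl⟩
  obtain ⟨hTm, hTd⟩ := PlI_topp (κb := κb) H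
  rw [← hT] at hTm hTd
  have hsep : T.Separable := by
    obtain ⟨u, v, huv⟩ := H.top
    refine ⟨u.map (algebraMap κ κb), v.map (algebraMap κ κb), ?_⟩
    rw [hT, ← mp_topp, derivative_map, ← Polynomial.map_mul, ← Polynomial.map_mul,
      ← Polynomial.map_add, huv, C_1, Polynomial.map_one]
  have hcard : T.roots.toFinset.card = n := by
    rw [Multiset.toFinset_card_of_nodup (nodup_roots hsep),
      ← (IsAlgClosed.splits T).natDegree_eq_card_roots, hTd]
  let ε : Fin n ≃ T.roots.toFinset := (Finset.equivFinOfCardEq hcard).symm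
  have hroot : ∀ j : Fin n, T.eval ((ε j : T.roots.toFinset) : κb) = 0 := by
    intro j
    have h1 := (ε j).2
    rw [Multiset.mem_toFinset] at h1
    exact isRoot_of_mem_roots h1
  have hex : ∀ j : Fin n, ∃ (θ : E →+* Λ) (Z : PowerSeries κb), IsPlI (κ := κ) y w κb θ Z ∧
      PowerSeries.constantCoeff Z = ((ε j : T.roots.toFinset) : κb) := fun j =>
    KL.exists_place_inf H _ (by rw [← hT]; exact hroot j)
  choose θ Z hθ hZ using hex
  have huj : ∀ j, ∃ u, θ j U = algebraMap (PowerSeries κb) Λ u := fun j => hU (θ j) (Z j) (hθ j)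
  choose u hu using huj
  -- the restriction to the rational functions
  intro i₀
  obtain ⟨f, hf⟩ : ∃ f : RatFunc κ →+* Λ, f = (θ i₀).comp (algebraMap (RatFunc κ) E) := ⟨_, rfl⟩
  have hfj : ∀ (j : Fin n) (r : RatFunc κ), θ j (algebraMap (RatFunc κ) E r) = f r := by
    intro j
    have hX : (RatFunc.X : RatFunc κ) = pol X := (RatFunc.algebraMap_X).symm
    have h1 : ∀ p : κ[X], θ j (algebraMap (RatFunc κ) E (pol p)) = f (pol p) := by
      have h2 : ((θ j).comp (algebraMap (RatFunc κ) E)).comp (algebraMap κ[X] (RatFunc κ)) =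
          f.comp (algebraMap κ[X] (RatFunc κ)) := by
        apply Polynomial.ringHom_ext
        · intro c
          rw [hf]
          exact ((hθ j).const c).trans ((hθ i₀).const c).symm
        · have h3 := (hθ j).x
          have h4 := (hθ i₀).x
          have hs0 : algebraMap (PowerSeries κb) Λ PowerSeries.X ≠ 0 :=
            (map_ne_zero_iff _ hinjΛ).2 PowerSeries.X_ne_zero
          rw [hf]
          simp only [RingHom.comp_apply, RatFunc.algebraMap_X]
          apply mul_right_cancel₀ hs0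
          exact h3.trans h4.symm
      exact fun p => RingHom.congr_fun h2 p
    intro r
    obtain ⟨p, q, hq, hpq⟩ := exists_rep r
    have h2 := h1 p
    have h3 := h1 q
    have hq0 : f (pol q) ≠ 0 := by
      rw [_root_.map_ne_zero f, Ne, pol, map_eq_zero_iff _ pol_injective]
      exact hq
    rw [← hpq, map_mul, map_mul, map_mul, h3] at h2
    exact mul_left_cancel₀ hq0 h2
  have hc : ∀ c : κ, f (pol (C c)) =
      algebraMap (PowerSeries κb) Λ (PowerSeries.C (algebraMap κ κb c)) := fun c => by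
    rw [hf]
    exact (hθ i₀).const c
  have hx : f RatFunc.X * algebraMap (PowerSeries κb) Λ PowerSeries.X = 1 := by
    rw [hf]
    exact (hθ i₀).x
  obtain ⟨s, hs⟩ : ∃ s, s = algebraMap (PowerSeries κb) Λ PowerSeries.X := ⟨_, rfl⟩
  have hs0 : s ≠ 0 := by
    rw [hs]
    exact (map_ne_zero_iff _ hinjΛ).2 PowerSeries.X_ne_zero
  obtain ⟨ρ, hρ⟩ : ∃ ρ : Fin n → Λ, ∀ i, ρ i = f (e.repr U i) * s⁻¹ ^ (w * (i : ℕ)) :=
    ⟨_, fun i => rfl⟩
  obtain ⟨V, hV⟩ : ∃ V : Matrix (Fin n) (Fin n) (PowerSeries κb), V = Matrix.vandermonde Z :=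
    ⟨_, rfl⟩
  have hVρ : (V.map (algebraMap (PowerSeries κb) Λ)).mulVec ρ =
      fun j => algebraMap (PowerSeries κb) Λ (u j) := by
    funext j
    rw [← hu j]
    conv_rhs => rw [← e.sum_repr U]
    rw [map_sum, Matrix.mulVec, dotProduct]
    refine Finset.sum_congr rfl fun i _ => ?_
    have h1 : θ j y = s⁻¹ ^ w * algebraMap (PowerSeries κb) Λ (Z j) := by
      apply mul_right_cancel₀ (pow_ne_zero w hs0)
      have h2 := (hθ j).y
      rw [map_pow, ← hs] at h2
      rw [h2, mul_right_comm, ← mul_pow, inv_mul_cancel₀ hs0, one_pow, one_mul]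
    rw [H.basis i, Algebra.smul_def, map_mul, map_pow, hfj j, h1, Matrix.map_apply, hV,
      Matrix.vandermonde_apply, hρ, map_pow, mul_pow, pow_mul]
    ring
  have hunit : IsUnit V.det := by
    rw [hV, Matrix.det_vandermonde, PowerSeries.isUnit_iff_constantCoeff, map_prod]
    rw [isUnit_iff_ne_zero, Finset.prod_ne_zero_iff]
    intro i _
    rw [map_prod, Finset.prod_ne_zero_iff]
    intro j hj
    rw [map_sub, hZ, hZ, sub_ne_zero]
    intro h1
    have h2 := ε.injective (Subtype.ext h1)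
    rw [Finset.mem_Ioi] at hj
    exact absurd h2 (ne_of_gt hj)
  have hv : ∀ i, ∃ v : PowerSeries κb, ρ i = algebraMap (PowerSeries κb) Λ v := by
    intro i
    refine ⟨(V⁻¹).mulVec u i, ?_⟩
    have h1 : (V⁻¹.map (algebraMap (PowerSeries κb) Λ)) * (V.map (algebraMap (PowerSeries κb) Λ)) =
        1 := by
      rw [← Matrix.map_mul, Matrix.nonsing_inv_mul _ hunit, Matrix.map_one _ (map_zero _) (map_one _)]
    have h2 : ρ = (V⁻¹.map (algebraMap (PowerSeries κb) Λ)).mulVec
        (fun j => algebraMap (PowerSeries κb) Λ (u j)) := by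
      rw [← hVρ, Matrix.mulVec_mulVec, h1, Matrix.one_mulVec]
    rw [h2]
    simp only [Matrix.mulVec, dotProduct, map_sum, map_mul, Matrix.map_apply]
  obtain ⟨v, hv⟩ := hv i₀
  have h3 : ((0 : ℤ) - ((aa w n i₀ : ℕ) : ℤ)) = -((w * i₀ : ℕ) : ℤ) := by
    rw [zero_sub]
  rw [h3]
  refine (PlI_neg (κb := κb) hc hx _ _).2 ⟨v, ?_⟩
  rw [map_mul, ← hv, hρ, map_pow, ← hs, mul_left_comm, ← mul_pow, mul_inv_cancel₀ hs0, one_pow,
    mul_one]

private theorem PlI_quot (H : KL w n F y e dK d) (z : E) :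
    ∃ (q : κ[X]) (b : κ[X][X]), q ≠ 0 ∧ ev y (C q) ≠ 0 ∧ ev y (C q) * z = ev y b := by
  classical
  choose p q hq hpq using fun i => exists_rep (e.repr z i)
  obtain ⟨Q, hQ⟩ : ∃ Q : κ[X], Q = ∏ i, q i := ⟨_, rfl⟩
  have hQ0 : Q ≠ 0 := by rw [hQ]; exact Finset.prod_ne_zero_iff.2 fun i _ => hq i
  have hB : InB e (ev y (C Q) * z) := by
    intro i
    rw [ev_C, repr_inE_mul]
    refine ⟨(∏ j ∈ Finset.univ.erase i, q j) * p i, ?_⟩
    have h1 : Q = (∏ j ∈ Finset.univ.erase i, q j) * q i := by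
      rw [hQ, Finset.prod_erase_mul _ _ (Finset.mem_univ i)]
    rw [h1]
    show algebraMap κ[X] (RatFunc κ) _ = algebraMap κ[X] (RatFunc κ) _ * _
    rw [map_mul (algebraMap κ[X] (RatFunc κ)), map_mul (algebraMap κ[X] (RatFunc κ)), mul_assoc]
    exact congrArg _ (hpq i).symm
  obtain ⟨b, -, hb⟩ := H.exists_ev hB
  refine ⟨Q, b, hQ0, ?_, hb.symm⟩
  rw [ev_C]
  intro h
  apply hQ0
  apply pol_injective
  apply (algebraMap (RatFunc κ) E).injective
  rw [map_zero, map_zero]
  exact h

theorem KL.place_inf_der (H : KL w n F y e dK d) {θ : E →+* Λ} {Z : PowerSeries κb}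
    (hθ : IsPlI (κ := κ) y w κb θ Z) (DΛ : Derivation ℤ Λ Λ)
    (hD : ∀ f : PowerSeries κb, DΛ (algebraMap (PowerSeries κb) Λ f) =
      algebraMap (PowerSeries κb) Λ (PowerSeries.derivative κb f)) (z : E) :
    θ (d z) = -(algebraMap (PowerSeries κb) Λ (PowerSeries.X ^ 2)) * DΛ (θ z) := by
  obtain ⟨s, hs⟩ : ∃ s, s = algebraMap (PowerSeries κb) Λ PowerSeries.X := ⟨_, rfl⟩
  obtain ⟨f, hf⟩ : ∃ f : E → Λ, ∀ z, f z = θ (d z) + s ^ 2 * DΛ (θ z) := ⟨_, fun z => rfl⟩
  have hfadd : ∀ a b, f (a + b) = f a + f b := by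
    intro a b
    simp only [hf, map_add]
    ring
  have hfmul : ∀ a b, f (a * b) = θ a * f b + θ b * f a := by
    intro a b
    simp only [hf, map_mul, Derivation.leibniz, smul_eq_mul, map_add]
    ring
  have hs0 : s ≠ 0 := by
    intro h
    have h1 := hθ.x
    rw [← hs, h, mul_zero] at h1
    exact zero_ne_one h1
  have hDs : DΛ s = 1 := by
    rw [hs, hD]
    simp
  have hfC : ∀ c : κ, f (inE (κ := κ) E (pol (C c))) = 0 := by
    intro c
    rw [hf, hθ.const, hD, inE, H.d_alg, H.dK_pol, derivative_C]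
    simp
  have hfX : f (inE (κ := κ) E RatFunc.X) = 0 := by
    have h1 := hθ.x
    rw [← hs] at h1
    have h2 := congrArg DΛ h1
    rw [Derivation.leibniz, smul_eq_mul, smul_eq_mul, hDs, Derivation.map_one_eq_zero] at h2
    have h3 : d (inE (κ := κ) E RatFunc.X) = 1 := by
      have h4 : (RatFunc.X : RatFunc κ) = pol X := (RatFunc.algebraMap_X).symm
      rw [h4, inE, H.d_alg, H.dK_pol, derivative_X, pol, map_one, map_one]
    rw [hf, h3, map_one]
    apply mul_left_cancel₀ hs0
    linear_combination s ^ 2 * h2 - s * h1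
  have hfpol : ∀ p : κ[X], f (inE (κ := κ) E (pol p)) = 0 := by
    intro p
    induction p using Polynomial.induction_on with
    | C a => exact hfC a
    | add p q hp hq =>
      have h1 : inE (κ := κ) E (pol (p + q)) = inE (κ := κ) E (pol p) + inE (κ := κ) E (pol q) := by
        rw [pol, pol, pol, inE, inE, inE, map_add, map_add]
      rw [h1, hfadd, hp, hq, add_zero]
    | monomial n a h =>
      have h1 : inE (κ := κ) E (pol (C a * X ^ (n + 1))) =
          inE (κ := κ) E (pol (C a * X ^ n)) * inE (κ := κ) E RatFunc.X := by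
        have h4 : (RatFunc.X : RatFunc κ) = pol X := (RatFunc.algebraMap_X).symm
        rw [pow_succ, ← mul_assoc, h4, pol, pol, pol, inE, inE, inE, map_mul, map_mul]
      rw [h1, hfmul, h, hfX, mul_zero, mul_zero, add_zero]
  have hfev : ∀ h : κ[X][X], f (ev y h) = θ (ev y (py h)) * f y := by
    intro h
    induction h using Polynomial.induction_on with
    | C a =>
      rw [ev_C, hfpol, py, derivative_C, map_zero, map_zero, zero_mul]
    | add p q hp hq =>
      rw [map_add, hfadd, hp, hq, py, py, py, derivative_add, map_add, map_add, add_mul]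
    | monomial n a h =>
      have h1 : C a * X ^ (n + 1) = C a * X ^ n * (X : κ[X][X]) := by rw [pow_succ, mul_assoc]
      have h2 : ev y (X : κ[X][X]) = y := by rw [ev, coe_eval₂RingHom, eval₂_X]
      have h3 : derivative (C a * X ^ n * (X : κ[X][X])) =
          derivative (C a * X ^ n) * X + C a * X ^ n := by
        rw [derivative_mul, derivative_X, mul_one]
      rw [py] at h
      rw [h1, map_mul, hfmul, h, h2, py, h3, map_add (ev y), map_add θ,
        map_mul (ev y) (derivative (C a * X ^ n)) X, h2, map_mul θ (ev y (derivative (C a * X ^ n)))]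
      ring
  have hfy : f y = 0 := by
    have h1 := hfev F
    have h2 : f 0 = 0 := by
      rw [hf]
      simp
    rw [H.root, h2] at h1
    exact (mul_eq_zero.1 h1.symm).resolve_left ((map_ne_zero θ).2 H.Fy)
  have hfz : f z = 0 := by
    obtain ⟨q, b, -, hq0, hqb⟩ := PlI_quot H z
    have h1 := hfmul (ev y (C q)) z
    rw [hqb, hfev b, hfev (C q), hfy, mul_zero, mul_zero, mul_zero, add_zero] at h1
    exact (mul_eq_zero.1 h1.symm).resolve_left ((map_ne_zero θ).2 hq0)
  rw [hf] at hfz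
  rw [map_pow, ← hs]
  linear_combination hfz

end MPadcLF
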