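import Pool.Agent.Lib.MP_adc574_ag_LF.Bridge
import Pool.Agent.Lib.MP_adc574_ag_LF.PlF
import Pool.Agent.Lib.MP_adc574_ag_LF.PlI

/-!
# Families without constant part
-/

set_option autoImplicit false

namespace MPadcLF

open Polynomial MPadcCov

universe u

section defs

variable {κ : Type*} [Field κ] {E : Type*} [CommRing E] [Algebra (RatFunc κ) E]

/-- The form `φ dx` is regular over the affine line. -/
def RegFin (κ : Type*) [Field κ] {E : Type*} [CommRing E] [Algebra (RatFunc κ) E] (φ : E) : Prop :=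
  ∀ b : E, IntX κ b → IsPol (Tr κ E (φ * b))

/-- The form `φ dx` is regular at infinity. -/
def RegInf (κ : Type*) [Field κ] {E : Type*} [CommRing E] [Algebra (RatFunc κ) E] (φ : E) : Prop :=
  ∀ b : E, IntI κ b → Dle (Tr κ E (φ * b)) (-2)

/-- The constant function. -/
noncomputable def cst {κ : Type*} [Field κ] (E : Type*) [CommRing E] [Algebra (RatFunc κ) E]
    (c : κ) : E := algebraMap (RatFunc κ) E (algebraMap κ (RatFunc κ) c)

/-- The coordinate `x`. -/
noncomputable def xx (κ : Type*) [Field κ] (E : Type*) [CommRing E] [Algebra (RatFunc κ) E] : E :=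
  algebraMap (RatFunc κ) E RatFunc.X

/-- The family of curves over the `T`-line has no constant part: every form `φ dx` of the second
kind such that `(D φ) dx` is exact is exact. -/
def NoConst (k₀ : Type*) [Field k₀] (P : (RatFunc k₀)[X][X]) : Prop :=
  ∀ d D : FR (RatFunc k₀) P → FR (RatFunc k₀) P, IsDer d → IsDer D →
    (∀ c : RatFunc k₀, d (cst _ c) = 0) → d (xx (RatFunc k₀) _) = 1 →
    (∀ c : k₀, D (cst _ (algebraMap k₀ (RatFunc k₀) c)) = 0) →
    D (cst _ (RatFunc.X : RatFunc k₀)) = 1 → D (xx (RatFunc k₀) _) = 0 →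
    ∀ φ b z : FR (RatFunc k₀) P, RegFin (RatFunc k₀) φ → RegInf (RatFunc k₀) (φ - d b) →
      D φ = d z → ∃ v, φ = d v

end defs

private theorem NoC_cst {κ : Type*} [Field κ] (E : Type*) [CommRing E] [Algebra (RatFunc κ) E]
    (c : κ) : cst E c = inE (κ := κ) E (pol (C c)) := by
  have h1 : algebraMap κ (RatFunc κ) c = pol (C c) := by
    rw [IsScalarTower.algebraMap_apply κ κ[X] (RatFunc κ), Polynomial.algebraMap_eq]
  rw [cst, h1, inE]

private theorem NoC_xx (κ : Type*) [Field κ] (E : Type*) [CommRing E] [Algebra (RatFunc κ) E] :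
    xx κ E = inE (κ := κ) E (pol X) := by
  have h1 : pol (X : κ[X]) = RatFunc.X := RatFunc.algebraMap_X
  rw [xx, inE, h1]

section int

variable {κ : Type*} [Field κ] {E : Type*} [Field E] [Algebra (RatFunc κ) E] {w n : ℕ}
  {F : κ[X][X]} {y : E} {e : Module.Basis (Fin n) (RatFunc κ) E} {dK : RatFunc κ → RatFunc κ}
  {d : Derivation ℤ E E}

private theorem NoC_int {R : Type*} [CommRing R] {S : Type*} [CommRing S] [IsDomain S]
    [IsIntegrallyClosed S] {Λ : Type*} [Field Λ] [Algebra S Λ] [IsFractionRing S Λ]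
    (f : R →+* E) (θ : E →+* Λ) (g : R →+* S)
    (h : θ.comp f = (algebraMap S Λ).comp g) (b : E) (hb : f.IsIntegralElem b) :
    ∃ u, θ b = algebraMap S Λ u := by
  obtain ⟨p, hp, hpb⟩ := hb
  have h1 : IsIntegral S (θ b) := by
    refine ⟨p.map g, hp.map g, ?_⟩
    rw [eval₂_map, ← h, ← hom_eval₂, hpb, map_zero]
  obtain ⟨u, hu⟩ := IsIntegrallyClosed.isIntegral_iff.1 h1
  exact ⟨u, hu.symm⟩

theorem KL.inB_of_intX [CharZero κ] (H : KL w n F y e dK d) (hs : Sm F 1) (b : E)
    (hb : IntX κ b) : InB e b := by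
  refine H.inB_of_places (κb := AlgebraicClosure κ)
    (Λ := FractionRing (PowerSeries (AlgebraicClosure κ))) hs b ?_
  intro x₀ y₀ χ c θ hχ hθ
  refine NoC_int _ θ ((χ.comp (mp (algebraMap κ (AlgebraicClosure κ)))).comp C) ?_ b hb
  refine RingHom.ext fun q => ?_
  have h1 := hθ (C q)
  rw [ev_C] at h1
  exact h1

theorem KL.bdeg_of_intI (H : KL w n F y e dK d) (b : E)
    (hb : IntI κ b) : BDeg e (aa w n) 0 b := by
  refine H.bdeg_of_places (κb := AlgebraicClosure κ)
    (Λ := FractionRing (PowerSeries (AlgebraicClosure κ))) b ?_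
  intro θ Z hθ
  refine NoC_int _ θ (eval₂RingHom ((PowerSeries.C (R := AlgebraicClosure κ)).comp
    (algebraMap κ (AlgebraicClosure κ))) PowerSeries.X) ?_ b hb
  apply Polynomial.ringHom_ext
  · intro c
    have h1 := hθ.const c
    rw [← NoC_cst] at h1
    simp only [RingHom.comp_apply, AlgHom.toRingHom_eq_coe, RingHom.coe_coe, aeval_C,
      coe_eval₂RingHom, eval₂_C]
    exact h1
  · have h1 := hθ.x
    have hX : (RatFunc.X : RatFunc κ) ≠ 0 := RatFunc.X_ne_zero
    have h2 : θ (inE (κ := κ) E RatFunc.X⁻¹) * θ (inE (κ := κ) E RatFunc.X) = 1 := by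
      rw [← map_mul, inE, inE, ← map_mul, inv_mul_cancel₀ hX, map_one, map_one]
    simp only [RingHom.comp_apply, AlgHom.toRingHom_eq_coe, RingHom.coe_coe, aeval_X,
      coe_eval₂RingHom, eval₂_X]
    change θ (inE (κ := κ) E RatFunc.X⁻¹) = _
    have h3 : θ (inE (κ := κ) E RatFunc.X) ≠ 0 := fun h0 => by
      rw [h0, zero_mul] at h1
      exact zero_ne_one h1
    apply mul_right_cancel₀ h3
    rw [h2, mul_comm, h1]

theorem KL.regFin [CharZero κ] (H : KL w n F y e dK d) (hs : Sm F 1) (φ : E)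
    (h : InB e (φ * ev y (py F))) : RegFin κ φ :=
  fun b hb => H.tr_inB h (H.inB_of_intX hs b hb)

theorem KL.regInf (H : KL w n F y e dK d) (φ : E) (h : BDeg e (aa w n) (-2) φ) :
    RegInf κ φ := by
  intro b hb
  have h1 := H.bdeg_mul h (H.bdeg_of_intI b hb)
  rw [add_zero] at h1
  exact H.bdeg_tr h1

end int

section transport

variable {κ : Type*} [Field κ] {E₁ E₂ : Type*} [CommRing E₁] [CommRing E₂]
  [Algebra (RatFunc κ) E₁] [Algebra (RatFunc κ) E₂] (θ : E₁ ≃ₐ[RatFunc κ] E₂)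

private theorem NoC_intElem {R : Type*} [CommRing R] (f : R →+* RatFunc κ) (b : E₁)
    (hb : ((algebraMap (RatFunc κ) E₁).comp f).IsIntegralElem b) :
    ((algebraMap (RatFunc κ) E₂).comp f).IsIntegralElem (θ b) := by
  obtain ⟨p, hp, hpb⟩ := hb
  refine ⟨p, hp, ?_⟩
  have h1 : (θ : E₁ →+* E₂).comp ((algebraMap (RatFunc κ) E₁).comp f) =
      (algebraMap (RatFunc κ) E₂).comp f := by
    refine RingHom.ext fun x => ?_
    exact θ.commutes _
  have h2 := congrArg (θ : E₁ →+* E₂) hpb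
  rw [hom_eval₂, h1, map_zero] at h2
  exact h2

private theorem NoC_tr (φ b : E₁) : Tr κ E₂ (θ φ * θ b) = Tr κ E₁ (φ * b) := by
  rw [← map_mul]
  exact (Algebra.trace_eq_of_algEquiv θ _)

theorem regFin_symm {φ : E₁} (h : RegFin κ (θ φ)) : RegFin κ φ := by
  intro b hb
  rw [← NoC_tr θ]
  exact h _ (NoC_intElem θ _ b hb)

theorem regInf_symm {φ : E₁} (h : RegInf κ (θ φ)) : RegInf κ φ := by
  intro b hb
  rw [← NoC_tr θ]
  exact h _ (NoC_intElem θ _ b hb)

theorem isDer_tr (d : Derivation ℤ E₂ E₂) : IsDer fun z : E₁ => θ.symm (d (θ z)) :=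
  ⟨fun a b => by rw [map_add, map_add, map_add], fun a b => by
    rw [map_mul, Derivation.leibniz, map_add, smul_eq_mul, smul_eq_mul, map_mul, map_mul,
      AlgEquiv.symm_apply_apply, AlgEquiv.symm_apply_apply]⟩

end transport

theorem hN_of_noConst {k₀ : Type*} [Field k₀] [CharZero k₀] {w n : ℕ}
    {P : (RatFunc k₀)[X][X]} (hs : Sm P 1) (h : NoConst k₀ P) {E : Type*} [Field E]
    [Algebra (RatFunc (RatFunc k₀)) E] {y : E} {e : Module.Basis (Fin n) (RatFunc (RatFunc k₀)) E}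
    {δ : RatFunc k₀ → RatFunc k₀} {dK DK : RatFunc (RatFunc k₀) → RatFunc (RatFunc k₀)}
    {d D : Derivation ℤ E E} (H : KD w n P y e δ dK DK d D)
    (hδ : ∀ r : k₀[X], δ (algebraMap k₀[X] (RatFunc k₀) r) =
      algebraMap k₀[X] (RatFunc k₀) (derivative r))
    (θ : FR (RatFunc k₀) P ≃ₐ[RatFunc (RatFunc k₀)] E) (φ b : E)
    (h1 : InB e (φ * ev y (py P))) (h2 : BDeg e (aa w n) (-2) (φ - d b))
    (h3 : ∃ z, D φ = d z) : ∃ z, φ = d z := by
  obtain ⟨z, hz⟩ := h3
  have hch : CharZero (RatFunc k₀) := charZero_of_injective_algebraMap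
    (RatFunc.algebraMap_injective k₀)
  have hcst : ∀ c : RatFunc k₀, θ (cst _ c) = inE (κ := RatFunc k₀) E (pol (C c)) := by
    intro c
    rw [← NoC_cst, cst, cst, AlgEquiv.commutes]
  have hxx : θ (xx (RatFunc k₀) _) = inE (κ := RatFunc k₀) E (pol X) := by
    rw [← NoC_xx, xx, xx, AlgEquiv.commutes]
  have hin0 : inE (κ := RatFunc k₀) E (pol 0) = 0 := by
    rw [pol, inE, map_zero, map_zero]
  have hin1 : inE (κ := RatFunc k₀) E (pol 1) = 1 := by
    rw [pol, inE, map_one, map_one]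
  have hδC : ∀ c : k₀, δ (algebraMap k₀ (RatFunc k₀) c) = 0 := by
    intro c
    have h4 := hδ (C c)
    rw [derivative_C, map_zero] at h4
    rw [IsScalarTower.algebraMap_apply k₀ k₀[X] (RatFunc k₀), Polynomial.algebraMap_eq]
    exact h4
  have hδX : δ (RatFunc.X : RatFunc k₀) = 1 := by
    have h4 := hδ X
    rw [derivative_X, map_one, RatFunc.algebraMap_X] at h4
    exact h4
  have hD : ∀ p : (RatFunc k₀)[X], D (inE (κ := RatFunc k₀) E (pol p)) =
      inE (κ := RatFunc k₀) E (pol (cm δ p)) := by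
    intro p
    rw [inE, H.D_alg, H.DK_pol]
  have hd : ∀ p : (RatFunc k₀)[X], d (inE (κ := RatFunc k₀) E (pol p)) =
      inE (κ := RatFunc k₀) E (pol (derivative p)) := by
    intro p
    rw [inE, H.d_alg, H.dK_pol]
  have hmain := h (fun z => θ.symm (d (θ z))) (fun z => θ.symm (D (θ z))) (isDer_tr θ d)
    (isDer_tr θ D)
    (fun c => by rw [hcst, hd, derivative_C, hin0, map_zero])
    (by rw [hxx, hd, derivative_X, hin1, map_one])
    (fun c => by rw [hcst, hD, cm_C H.der.zero, hδC, C_0, hin0, map_zero])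
    (by rw [hcst, hD, cm_C H.der.zero, hδX, C_1, hin1, map_one])
    (by rw [hxx, hD, cm_X H.der, hin0, map_zero])
    (θ.symm φ) (θ.symm b) (θ.symm z)
    (regFin_symm θ (by rw [AlgEquiv.apply_symm_apply]; exact H.toKL.regFin hs φ h1))
    (regInf_symm θ (by
      rw [map_sub, AlgEquiv.apply_symm_apply, AlgEquiv.apply_symm_apply,
        AlgEquiv.apply_symm_apply]
      exact H.toKL.regInf _ h2))
    (by rw [AlgEquiv.apply_symm_apply, AlgEquiv.apply_symm_apply, hz])
  obtain ⟨v, hv⟩ := hmain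
  refine ⟨θ v, ?_⟩
  apply θ.symm.injective
  exact hv

/-- The homomorphism `A[T] → k₀(T)`. -/
noncomputable def toK {A k₀ : Type*} [CommRing A] [Field k₀] (ι : A →+* k₀) : A[X] →+* RatFunc k₀ :=
  (algebraMap k₀[X] (RatFunc k₀)).comp (mapRingHom ι)

section char0

variable {A : Type u} [CommRing A] [CharZero A] {w n : ℕ} (hn : 0 < n) (hw : 0 < w)
  {F : A[X][X][X]} (hF : Wt w n F) {η : IX w n → A[X][X][X]} (hB : HB w n F η)
  {c₀ c₁ : A[X]} (hc₀ : c₀ ≠ 0) (hc₁ : c₁ ≠ 0) (hS : Sm F c₀) (hT : Tp w n F c₁)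
  (hirr : ∀ (κ : Type u) [Field κ] (ψ : A[X] →+* κ), Function.Injective ψ →
    Irreducible ((mp ψ F).map (algebraMap κ[X] (RatFunc κ))))
  {Δ : A[X]} (hΔ : Δ ≠ 0) {G : Matrix (IX w n) (IX w n) A[X]}
  (hG : IsGM (fun q : A[X] => derivative q) Δ F η G)

include hn hw hF hB hc₀ hc₁ hS hT hirr hΔ hG in
/-- No horizontal vectors for families without constant part. -/
theorem no_horizontal_nc {k₀ : Type u} [Field k₀] (ι : A →+* k₀) (hι : Function.Injective ι)
    (hnc : NoConst k₀ (mp (algebraMap k₀[X] (RatFunc k₀)) (mp (mapRingHom ι) F)))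
    (v : IX w n → A[X]) (hv : ∀ i, Δ * derivative (v i) + G.mulVec v i = 0) : v = 0 := by
  have hmp : mp (algebraMap k₀[X] (RatFunc k₀)) (mp (mapRingHom ι) F) = mp (toK ι) F := by
    simp only [mp, coe_mapRingHom, toK]
    rw [Polynomial.map_map, mapRingHom_comp]
  rw [hmp] at hnc
  have hch : CharZero k₀ := charZero_of_injective_ringHom hι
  have hinjκ : Function.Injective (algebraMap k₀[X] (RatFunc k₀)) := IsFractionRing.injective _ _
  have hchκ : CharZero (RatFunc k₀) := charZero_of_injective_algebraMap hinjκ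
  have hjX : Function.Injective (mapRingHom ι) := by
    rw [coe_mapRingHom]
    exact Polynomial.map_injective ι hι
  have hψ : Function.Injective (toK ι) := hinjκ.comp hjX
  obtain ⟨δ, hδ, hδ'⟩ := exists_ddT k₀ (RatFunc k₀)
  have hcomm : ∀ q : A[X], toK ι (derivative q) = δ (toK ι q) := by
    intro q
    change algebraMap k₀[X] (RatFunc k₀) ((derivative q).map ι) =
      δ (algebraMap k₀[X] (RatFunc k₀) (q.map ι))
    rw [hδ', derivative_map]
  have hF' := hF.map (toK ι)
  have hS' := sm_one (Sm.map (toK ι) hS) ((map_ne_zero_iff _ hψ).2 hc₀)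
  have hT' := tp_one (Tp.map (toK ι) hT) ((map_ne_zero_iff _ hψ).2 hc₁)
  have hB' := HB.map (toK ι) hF.monic hB
  have hG' := IsGM.map (toK ι) (isDer_derivative A) hδ hcomm hG
  obtain ⟨E, _, _, y, e, dK, d, H, ⟨θ⟩⟩ := exists_KL hn hw _ hF' (hirr _ (toK ι) hψ) hT'
  obtain ⟨DK, D, HD⟩ := H.exists_KD δ hδ
  have hz := HD.no_horizontal hB' hS' ((map_ne_zero_iff _ hψ).2 hΔ) hG'
    (fun φ b h1 h2 h3 => hN_of_noConst hS' hnc HD hδ' θ φ b h1 h2 h3)
    (fun a => toK ι (v a)) (fun a => by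
      have h1 := congrArg (toK ι) (hv a)
      rw [map_zero, map_add, map_mul, hcomm] at h1
      rw [← h1]
      congr 1
      simp only [Matrix.mulVec, dotProduct, map_sum, map_mul, Matrix.map_apply])
  ext1 a
  apply hψ
  rw [Pi.zero_apply, map_zero]
  exact congrFun hz a

end char0

end MPadcLF
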