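import Mathlib
import Pool.Agent.Lib.MP_adc574_ag_LP.Primes

/-!
# Closed points over generic primes of a family over the affine line
-/

set_option autoImplicit false

namespace MPadcLF

open Polynomial

universe u

private theorem Points_jacobson_int : IsJacobsonRing ℤ := by
  rw [isJacobsonRing_iff_prime_eq]
  intro P hP
  by_cases h : P = ⊥
  · subst h
    rw [eq_bot_iff]
    intro x hx
    rw [Ideal.mem_bot]
    by_contra hx0
    obtain ⟨p, hpx, hp⟩ := Nat.exists_infinite_primes (x.natAbs + 1)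
    have hmax : (Ideal.span {(p : ℤ)}).IsMaximal := by
      apply PrincipalIdealRing.isMaximal_of_irreducible
      exact (Nat.prime_iff_prime_int.1 hp).irreducible
    rw [Ideal.jacobson, Ideal.mem_sInf] at hx
    have h1 := hx ⟨bot_le, hmax⟩
    rw [Ideal.mem_span_singleton] at h1
    have h2 := Nat.le_of_dvd (Int.natAbs_pos.2 hx0) (Int.natCast_dvd.1 h1)
    omega
  · have hmax : P.IsMaximal := hP.isMaximal h
    exact Ideal.jacobson_eq_self_of_isMaximal

private theorem Points_finite {B : Type*} [CommRing B] [Algebra.FiniteType ℤ B] (M : Ideal B)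
    (hM : M.IsMaximal) {p : ℕ} (hp : p.Prime) (hpM : (p : B) ∈ M) : Finite (B ⧸ M) := by
  have hjac := Points_jacobson_int
  let _ := Ideal.Quotient.field M
  have h1 : Algebra.FiniteType ℤ (B ⧸ M) :=
    Algebra.FiniteType.of_surjective (Ideal.Quotient.mkₐ ℤ M) (Ideal.Quotient.mkₐ_surjective ℤ M)
  have h2 : Module.Finite ℤ (B ⧸ M) := finite_of_finite_type_of_isJacobsonRing ℤ (B ⧸ M)
  have hp0 : (p : B ⧸ M) = 0 := by
    rw [← map_natCast (Ideal.Quotient.mk M), Ideal.Quotient.eq_zero_iff_mem]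
    exact hpM
  have htor : Module.IsTorsion ℤ (B ⧸ M) := by
    intro x
    refine ⟨⟨(p : ℤ), mem_nonZeroDivisors_of_ne_zero (by exact_mod_cast hp.ne_zero)⟩, ?_⟩
    change ((p : ℤ)) • x = 0
    rw [zsmul_eq_mul, Int.cast_natCast, hp0, zero_mul]
  exact Module.finite_of_fg_torsion (B ⧸ M) htor

/-- The ring `A'` generated by `A` and the image of `θ : A₀[t] → k`, and the lifting of primes to
maximal ideals of `A'`. -/
theorem exists_ring {k : Type u} [Field k] [CharZero k] (A : Subalgebra ℤ k) (hA : A.FG)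
    {A₀ : Type*} [CommRing A₀] [IsDomain A₀] [Algebra.FiniteType ℤ A₀]
    (θ : A₀[X] →+* k) (hθ : Function.Injective θ) :
    ∃ (A' : Subalgebra ℤ k) (_ : A ≤ A') (θ' : A₀[X] →+* A'), A'.FG ∧
      (∀ x, ((θ' x : A') : k) = θ x) ∧ ∀ z : A', z ≠ 0 → ∃ h : A₀[X], h ≠ 0 ∧
        ∀ (p : ℕ), p.Prime → ∀ P : Ideal A₀, P.IsPrime → (p : A₀) ∈ P →
          h.map (Ideal.Quotient.mk P) ≠ 0 → ∀ g : A₀[X], g.map (Ideal.Quotient.mk P) ≠ 0 →
            ∃ M : Ideal A', M.IsMaximal ∧ (p : A') ∈ M ∧ z ∉ M ∧ θ' g ∉ M ∧ Finite (A' ⧸ M) := by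
  have hft0 : Algebra.FiniteType ℤ A₀[X] :=
    Algebra.FiniteType.trans (inferInstance : Algebra.FiniteType ℤ A₀) inferInstance
  have hnoeth : IsNoetherianRing A₀[X] := Algebra.FiniteType.isNoetherianRing ℤ A₀[X]
  obtain ⟨A', hA'd⟩ : ∃ A' : Subalgebra ℤ k, A' = A ⊔ (θ.toIntAlgHom : A₀[X] →ₐ[ℤ] k).range :=
    ⟨_, rfl⟩
  have hrange : ((θ.toIntAlgHom : A₀[X] →ₐ[ℤ] k).range).FG := by
    rw [← Algebra.map_top]
    exact Subalgebra.FG.map _ hft0.out
  have hA' : A'.FG := by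
    rw [hA'd]
    exact hA.sup hrange
  have hft : Algebra.FiniteType ℤ A' := A'.fg_iff_finiteType.1 hA'
  have hle : A ≤ A' := by
    rw [hA'd]
    exact le_sup_left
  have hθA : ∀ x, θ x ∈ A' := by
    intro x
    rw [hA'd]
    exact (le_sup_right : (θ.toIntAlgHom : A₀[X] →ₐ[ℤ] k).range ≤
      A ⊔ (θ.toIntAlgHom : A₀[X] →ₐ[ℤ] k).range) ⟨x, rfl⟩
  obtain ⟨θ', hθ'⟩ : ∃ θ' : A₀[X] →+* A', ∀ x, ((θ' x : A') : k) = θ x :=
    ⟨θ.codRestrict A'.toSubring hθA, fun x => rfl⟩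
  have hθ'inj : Function.Injective θ' := by
    intro x y hxy
    apply hθ
    rw [← hθ', ← hθ', hxy]
  have hfin : θ'.FiniteType := by
    have h1 : (θ'.comp (algebraMap ℤ A₀[X])).FiniteType := by
      have h2 : θ'.comp (algebraMap ℤ A₀[X]) = algebraMap ℤ A' := RingHom.ext_int _ _
      rw [h2]
      exact RingHom.finiteType_algebraMap.2 hft
    exact RingHom.FiniteType.of_comp_finiteType h1
  refine ⟨A', hle, θ', hA', hθ', fun z hz => ?_⟩
  obtain ⟨h, hh, hlift⟩ := MPadcLP.exists_prime_lift θ' hθ'inj hfin z hz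
  refine ⟨h, hh, fun p hp P hP hpP hhP g hg => ?_⟩
  have hPd : IsDomain (A₀ ⧸ P) := Ideal.Quotient.isDomain P
  obtain ⟨Q, hQ, hzQ, hQc⟩ := hlift (RingHom.ker (mapRingHom (Ideal.Quotient.mk P)))
    (RingHom.ker_isPrime _) (by
      rw [RingHom.mem_ker, coe_mapRingHom]
      exact hhP)
  have hpQ : (p : A') ∈ Q := by
    have h1 : (p : A₀[X]) ∈ Q.comap θ' := by
      rw [hQc, RingHom.mem_ker, map_natCast]
      have h3 : ((p : (A₀ ⧸ P)) : A₀ ⧸ P) = 0 := by
        rw [← map_natCast (Ideal.Quotient.mk P), Ideal.Quotient.eq_zero_iff_mem]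
        exact hpP
      rw [← Polynomial.C_eq_natCast, h3, map_zero]
    rw [Ideal.mem_comap, map_natCast] at h1
    exact h1
  have hgQ : θ' g ∉ Q := by
    rw [← Ideal.mem_comap, hQc, RingHom.mem_ker, coe_mapRingHom]
    exact hg
  have hall : z * θ' g ∉ Q := by
    intro h1
    rcases hQ.mem_or_mem h1 with h3 | h3
    · exact hzQ h3
    · exact hgQ h3
  have hjint := Points_jacobson_int
  have hjac : IsJacobsonRing A' := isJacobsonRing_of_finiteType (A := ℤ)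
  have hjac2 : Q.jacobson = Q := hjac.out hQ.isRadical
  rw [← hjac2, Ideal.jacobson, Ideal.mem_sInf] at hall
  push Not at hall
  obtain ⟨M, ⟨hQM, hM⟩, hMall⟩ := hall
  exact ⟨M, hM, hQM hpQ, fun h1 => hMall (M.mul_mem_right _ h1),
    fun h1 => hMall (M.mul_mem_left _ h1), Points_finite M hM hp (hQM hpQ)⟩

/-- Extension of a geometric point. -/
theorem exists_lift {k : Type u} [Field k] {A A' : Subalgebra ℤ k} (hle : A ≤ A')
    (𝔪 : Ideal A') (h𝔪 : 𝔪.IsMaximal) (hfin : Finite (A' ⧸ 𝔪)) :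
    (𝔪.comap (Subalgebra.inclusion hle).toRingHom).IsMaximal ∧
      ∀ (κ : Type u) [Field κ] [IsAlgClosed κ] (ρ : A →+* κ),
        RingHom.ker ρ = 𝔪.comap (Subalgebra.inclusion hle).toRingHom →
          ∃ ρ' : A' →+* κ, RingHom.ker ρ' = 𝔪 ∧
            ρ'.comp (Subalgebra.inclusion hle).toRingHom = ρ := by
  set ι : A →+* A' := (Subalgebra.inclusion hle).toRingHom with hι
  set I := 𝔪.comap ι with hI
  have hprime : I.IsPrime := Ideal.comap_isPrime ι 𝔪
  have hinj : Function.Injective (Ideal.quotientMap 𝔪 ι le_rfl) := Ideal.quotientMap_injective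
  have hfinI : Finite (A ⧸ I) := Finite.of_injective _ hinj
  have hmax : I.IsMaximal := Ideal.Quotient.maximal_of_isField _ (Finite.isField_of_domain _)
  refine ⟨hmax, fun κ _ _ ρ hρ => ?_⟩
  let _ : Field (A ⧸ I) := Ideal.Quotient.field I
  let _ : Field (A' ⧸ 𝔪) := Ideal.Quotient.field 𝔪
  let _ : Algebra (A ⧸ I) (A' ⧸ 𝔪) := (Ideal.quotientMap 𝔪 ι le_rfl).toAlgebra
  let _ : Algebra (A ⧸ I) κ := (Ideal.Quotient.lift I ρ (fun x hx => by
    rw [← hρ] at hx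
    exact hx)).toAlgebra
  have hmf : Module.Finite (A ⧸ I) (A' ⧸ 𝔪) := Module.Finite.of_finite
  have halg : Algebra.IsAlgebraic (A ⧸ I) (A' ⧸ 𝔪) := inferInstance
  let g : (A' ⧸ 𝔪) →ₐ[A ⧸ I] κ := IsAlgClosed.lift
  refine ⟨(g : (A' ⧸ 𝔪) →+* κ).comp (Ideal.Quotient.mk 𝔪), ?_, ?_⟩
  · rw [RingHom.ker_comp_of_injective _ (RingHom.injective (g : (A' ⧸ 𝔪) →+* κ)),
      Ideal.mk_ker]
  · ext x
    have h1 : (g : (A' ⧸ 𝔪) →+* κ) (Ideal.Quotient.mk 𝔪 (ι x)) =
        g (algebraMap (A ⧸ I) (A' ⧸ 𝔪) (Ideal.Quotient.mk I x)) := rfl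
    change (g : (A' ⧸ 𝔪) →+* κ) (Ideal.Quotient.mk 𝔪 (ι x)) = ρ x
    rw [h1, AlgHom.commutes]
    rfl

end MPadcLF
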