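import Pool.Agent.Lib.MP_adc574_ag_LF.Core
import Pool.Agent.Lib.MP_adc574_ag_LF.NoC
import Pool.Agent.Lib.MP_adc574_ag_LF.Model
import Pool.Agent.Lib.MP_adc574_ag_LF.Irr
import Pool.Agent.Lib.MP_adc574_ag_LF.LocC
import Pool.Agent.Lib.MP_adc574_ag_LF.Points
import Pool.Agent.Lib.MP_adc574_ag_Cov.BNb

/-!
# Ordinary reduction of the general member of a pencil
-/

set_option autoImplicit false

namespace MPadcLF

open Polynomial MPadcCov

universe u

/-- The specialization `T ↦ τ` of polynomials over `k₀`. -/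
noncomputable abbrev spk {k : Type*} [Field k] (k₀ : Subfield k) (τ : k) : k₀[X] →+* k :=
  eval₂RingHom (algebraMap k₀ k) τ

theorem spk_injective {k : Type*} [Field k] (k₀ : Subfield k) (t : k) (ht : Transcendental k₀ t) :
    Function.Injective (spk k₀ t) := by
  have h := transcendental_iff_injective.1 ht
  intro x y hxy
  exact h hxy

/-- The points of `k` algebraic over `k₀` and the algebraic closure of the ring of definition. -/
theorem exists_embed {k : Type u} [Field k] [IsAlgClosed k] (k₀ : Subfield k)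
    (A₀ : Subalgebra ℤ k) (ι : A₀ →+* k₀) (hι : ∀ x, ((ι x : k₀) : k) = x) :
    ∃ i : AlgebraicClosure (FractionRing A₀) →+* k, (∀ a, IsAlgebraic k₀ (i a)) ∧
      ∀ a, i.comp (spe A₀ a) = (spk k₀ (i a)).comp (mapRingHom ι) := by
  have hιinj : Function.Injective ι := fun x y h => Subtype.ext (by rw [← hι, ← hι, h])
  let g' : FractionRing A₀ →+* k₀ := IsFractionRing.lift hιinj
  have hg' : ∀ x : A₀, g' (algebraMap A₀ (FractionRing A₀) x) = ι x := fun x =>
    IsFractionRing.lift_algebraMap hιinj x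
  let _ : Algebra (FractionRing A₀) k := ((algebraMap k₀ k).comp g').toAlgebra
  have halg : ∀ x : FractionRing A₀, algebraMap (FractionRing A₀) k x = algebraMap k₀ k (g' x) :=
    fun x => rfl
  let i : AlgebraicClosure (FractionRing A₀) →ₐ[FractionRing A₀] k := IsAlgClosed.lift
  refine ⟨i.toRingHom, fun a => ?_, fun a => ?_⟩
  · obtain ⟨q, hq, hqa⟩ := (AlgebraicClosure.isAlgebraic (FractionRing A₀)).isAlgebraic a
    refine ⟨q.map g', ?_, ?_⟩
    · intro h
      exact hq ((Polynomial.map_eq_zero g').1 h)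
    · have h1 : i (aeval a q) = 0 := by rw [hqa, map_zero]
      rw [← aeval_algHom_apply, aeval_def] at h1
      rw [aeval_def, eval₂_map]
      exact h1
  · apply Polynomial.ringHom_ext
    · intro x
      have h1 : i (algebraMap (FractionRing A₀) (AlgebraicClosure (FractionRing A₀))
          (algebraMap A₀ (FractionRing A₀) x)) = algebraMap k₀ k (ι x) := by
        rw [i.commutes, halg, hg']
      simp only [RingHom.comp_apply, spe, spk, coe_eval₂RingHom, eval₂_C, coe_mapRingHom, map_C]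
      exact h1
    · simp only [RingHom.comp_apply, spe, spk, coe_eval₂RingHom, eval₂_X, coe_mapRingHom, map_X]

theorem mp_comp {R S T : Type*} [CommRing R] [CommRing S] [CommRing T] (φ : R →+* S)
    (ψ : S →+* T) (F : R[X][X]) : mp ψ (mp φ F) = mp (ψ.comp φ) F := by
  simp only [mp, coe_mapRingHom]
  rw [Polynomial.map_map, mapRingHom_comp]

private theorem Final_charP {R : Type*} [CommRing R] [Nontrivial R] {p : ℕ} (hp : p.Prime)
    (h : (p : R) = 0) : CharP R p := by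
  have h1 : ringChar R ∣ p := (ringChar.spec R p).1 h
  rcases (Nat.dvd_prime hp).1 h1 with h2 | h2
  · exfalso
    have h3 : ((1 : ℕ) : R) = 0 := (ringChar.spec R 1).2 (by rw [h2])
    rw [Nat.cast_one] at h3
    exact one_ne_zero h3
  · exact ringChar.of_eq h2

/-- The main theorem over closed points. -/
theorem final {k : Type u} [Field k] [IsAlgClosed k] [CharZero k] (A : Subalgebra ℤ k)
    (hA : A.FG) {w n : ℕ} (hn : 0 < n) (hw : 0 < w) (F : A[X][X])
    (hsm : Ideal.span {mp (algebraMap A k) F, px (mp (algebraMap A k) F),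
      py (mp (algebraMap A k) F)} = ⊤)
    (htop : (topp w n (mp (algebraMap A k) F)).Separable) (k₀ : Subfield k) (t : k)
    (ht : Transcendental k₀ t) (Φ : k₀[X][X][X]) (hΦ : Wt w n Φ)
    (hΦF : mp (spk k₀ t) Φ = mp (algebraMap A k) F)
    (ha : ∀ τ : k, IsAlgebraic k₀ τ →
      Ideal.span {mp (spk k₀ τ) Φ, px (mp (spk k₀ τ) Φ), py (mp (spk k₀ τ) Φ)} = ⊤ ∨
      (Ideal.span {mp (spk k₀ τ) Φ, px (mp (spk k₀ τ) Φ), py (mp (spk k₀ τ) Φ)}).IsMaximal)
    (hb : ∀ τ : k, IsAlgebraic k₀ τ → ∀ z, (topp w n (mp (spk k₀ τ) Φ)).eval z = 0 →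
      (derivative (topp w n (mp (spk k₀ τ) Φ))).eval z = 0 →
        (subb w n (mp (spk k₀ τ) Φ)).eval z ≠ 0)
    (hH : ((∀ i j, ((Φ.coeff i).coeff j).natDegree ≤ 1) ∧
      ∃ i j, ((Φ.coeff i).coeff j).coeff 1 ≠ 0) ∨ NoConst k₀ (mp (algebraMap k₀[X] (RatFunc k₀)) Φ))
    (a : A) (ha0 : a ≠ 0) :
    ∃ p₀ : ℕ, ∀ p : ℕ, p₀ ≤ p → p.Prime → ∃ 𝔪 : Ideal A, 𝔪.IsMaximal ∧ a ∉ 𝔪 ∧ (p : A) ∈ 𝔪 ∧
      ∀ (κ : Type u) [Field κ] [IsAlgClosed κ] (ρ : A →+* κ), RingHom.ker ρ = 𝔪 →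
        Irreducible ((mp ρ F).map (algebraMap κ[X] (RatFunc κ))) ∧
          ∀ φ : FR κ (mp ρ F), IsReg (κ := κ) φ → IsEx (κ := κ) φ → φ = 0 := by
  classical
  obtain ⟨A₀, ι, F₀, hA₀, hι, h2, hF₀Φ, hF₀⟩ := exists_model k₀ Φ hΦ
  have hιinj : Function.Injective ι := fun x y h => Subtype.ext (by rw [← hι, ← hι, h])
  have hft₀ : Algebra.FiniteType ℤ A₀ := A₀.fg_iff_finiteType.1 hA₀
  obtain ⟨θ, hθdef⟩ : ∃ θ : A₀[X] →+* k, θ = (spk k₀ t).comp (mapRingHom ι) := ⟨_, rfl⟩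
  have hθ : Function.Injective θ := by
    rw [hθdef, RingHom.coe_comp]
    refine (spk_injective k₀ t ht).comp ?_
    rw [coe_mapRingHom]
    exact Polynomial.map_injective ι hιinj
  have hF₀F : mp θ F₀ = mp (algebraMap A k) F := by
    rw [hθdef, ← mp_comp, hF₀Φ, hΦF]
  have hirr : Irreducible ((mp (algebraMap A k) F).map (algebraMap k[X] (RatFunc k))) := by
    rw [← hF₀F]
    apply irreducible_of_sm hn hw (hF₀.map θ)
    · rw [sm_iff, hF₀F, hsm]
      exact Submodule.mem_top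
    · have h3 : (topp w n (mp θ F₀)).Separable := by rw [hF₀F]; exact htop
      obtain ⟨u, v, huv⟩ := h3
      exact ⟨u, v, by rw [huv, C_1]⟩
  -- certificates
  obtain ⟨c₀, hc₀, hS⟩ := exists_sm θ hθ F₀ (by rw [hF₀F]; exact hsm)
  obtain ⟨c₁, hc₁, hT⟩ := exists_tp θ hθ w n F₀ (by rw [hF₀F]; exact htop)
  obtain ⟨β, hβ, hBN⟩ : ∃ β : A₀[X], β ≠ 0 ∧ ∀ (κ : Type u) [Field κ] (ψ : A₀[X] →+* κ),
      ψ β ≠ 0 → Irreducible ((mp ψ F₀).map (algebraMap κ[X] (RatFunc κ))) := by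
    let _ : Algebra A₀[X] k := θ.toAlgebra
    obtain ⟨β, hβ, h⟩ := bertini_noether (R := A₀[X]) (k := k) hθ F₀ hF₀.monic (by
      have h1 : (F₀.map (mapRingHom (algebraMap A₀[X] k))) = mp (algebraMap A k) F := hF₀F
      rw [h1]
      exact hirr)
    exact ⟨β, hβ, fun κ _ ψ hψ => h κ ψ hψ⟩
  have hirr0 : ∀ (κ : Type u) [Field κ] (ψ : A₀[X] →+* κ), Function.Injective ψ →
      Irreducible ((mp ψ F₀).map (algebraMap κ[X] (RatFunc κ))) := fun κ _ ψ hψ =>
    hBN κ ψ ((map_ne_zero_iff ψ hψ).2 hβ)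
  -- the basis and the connection
  have h2' : ∃ x : A₀[X], 2 * x = 1 := by
    obtain ⟨x, hx⟩ := h2
    refine ⟨C x, ?_⟩
    have h3 : (2 : A₀[X]) = C (2 : A₀) := (map_ofNat C 2).symm
    rw [h3, ← C_mul, hx, C_1]
  have hTk : Tp w n (mp θ F₀) 1 := by
    have h3 : (topp w n (mp θ F₀)).Separable := by rw [hF₀F]; exact htop
    obtain ⟨u, v, huv⟩ := h3
    exact ⟨u, v, by rw [huv, C_1]⟩
  obtain ⟨η, hB⟩ := exists_HB' h2' θ hθ hn hw hF₀ (by rw [hF₀F]; exact hirr) hTk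
  obtain ⟨Δ, G, hΔ, hG, hflat⟩ := exists_GM hn hw hF₀ hB hc₀ hc₁ hS hT hirr0
  -- the local conditions
  obtain ⟨i, hialg, hi⟩ := exists_embed k₀ A₀ ι hι
  have hmpi : ∀ b, mp i (mp (spe A₀ b) F₀) = mp (spk k₀ (i b)) Φ := by
    intro b
    rw [mp_comp, hi, ← mp_comp, hF₀Φ]
  have hloc := fun b => hloc_of hn hw hF₀ hB hc₀ hS hΔ hG b
    (descend_sing i _ (by rw [hmpi]; exact ha _ (hialg b)))
    (descend_inf i w n _ (by rw [hmpi]; exact hb _ (hialg b)))
  have hhor : ∀ v : IX w n → A₀[X], (∀ i, Δ * derivative (v i) + G.mulVec v i = 0) → v = 0 := by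
    rcases hH with ⟨hpen, hne⟩ | hnc
    · have hpen₀ : ∀ i j, ((F₀.coeff i).coeff j).natDegree ≤ 1 := by
        intro i j
        have h1 : (Φ.coeff i).coeff j = ((F₀.coeff i).coeff j).map ι := by
          rw [← hF₀Φ]
          simp only [mp, coe_mapRingHom, coeff_map]
        rw [← natDegree_map_eq_of_injective hιinj, ← h1]
        exact hpen i j
      have hne₀ : ∃ i j, ((F₀.coeff i).coeff j).coeff 1 ≠ 0 := by
        obtain ⟨i, j, h⟩ := hne
        refine ⟨i, j, fun h0 => h ?_⟩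
        have h1 : (Φ.coeff i).coeff j = ((F₀.coeff i).coeff j).map ι := by
          rw [← hF₀Φ]
          simp only [mp, coe_mapRingHom, coeff_map]
        rw [h1, coeff_map, h0, map_zero]
      exact no_horizontal hn hw hF₀ hB hc₀ hc₁ hS hT hirr0 hΔ hG hpen₀ hne₀
    · rw [← hF₀Φ] at hnc
      exact no_horizontal_nc hn hw hF₀ hB hc₀ hc₁ hS hT hirr0 hΔ hG ι hιinj hnc
  -- the ring `A'`
  obtain ⟨A', hle, θ', hA', hθ', hpts⟩ := exists_ring A hA θ hθ
  have hθ'inj : Function.Injective θ' := by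
    intro x y hxy
    apply hθ
    rw [← hθ', ← hθ', hxy]
  have hincl : Function.Injective (Subalgebra.inclusion hle).toRingHom :=
    Subalgebra.inclusion_injective hle
  obtain ⟨h, hh, hpts⟩ := hpts ((Subalgebra.inclusion hle).toRingHom a * θ' (c₀ * c₁ * β))
    (mul_ne_zero ((map_ne_zero_iff _ hincl).2 ha0)
      ((map_ne_zero_iff _ hθ'inj).2 (mul_ne_zero (mul_ne_zero hc₀ hc₁) hβ)))
  obtain ⟨p₀, hp₀⟩ := core hn hw hF₀ hB hΔ hc₀ hc₁ hβ hG hflat hS hT hBN hloc hhor h hh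
  refine ⟨p₀, fun p hp hprime => ?_⟩
  obtain ⟨P, hP, hpP, hhP, g, hgP, hg⟩ := hp₀ p hp hprime
  obtain ⟨M, hM, hpM, hzM, hgM, hfinM⟩ := hpts p hprime P hP hpP hhP g hgP
  obtain ⟨hmax, hlift⟩ := exists_lift hle M hM hfinM
  have hFA : mp (Subalgebra.inclusion hle).toRingHom F = mp θ' F₀ := by
    have hinj : Function.Injective (mp (algebraMap A' k)) := by
      apply Polynomial.map_injective
      apply Polynomial.map_injective
      exact Subtype.val_injective
    apply hinj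
    have e1 : (algebraMap A' k).comp (Subalgebra.inclusion hle).toRingHom = algebraMap A k :=
      RingHom.ext fun x => rfl
    have e2 : (algebraMap A' k).comp θ' = θ := RingHom.ext fun x => hθ' x
    rw [mp_comp, mp_comp, e1, e2, hF₀F]
  refine ⟨M.comap (Subalgebra.inclusion hle).toRingHom, hmax, ?_, ?_, ?_⟩
  · intro h1
    exact hzM (M.mul_mem_right _ h1)
  · change (Subalgebra.inclusion hle).toRingHom (p : A) ∈ M
    rw [map_natCast]
    exact hpM
  · intro κ _ _ ρ hρ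
    obtain ⟨ρ', hρ', hcomp⟩ := hlift κ ρ hρ
    obtain ⟨ψ, hψdef⟩ : ∃ ψ : A₀[X] →+* κ, ψ = ρ'.comp θ' := ⟨_, rfl⟩
    have hFψ : mp ρ F = mp ψ F₀ := by
      rw [← hcomp, ← mp_comp, hFA, mp_comp, hψdef]
    have hψ : ψ (c₀ * c₁ * β) ≠ 0 := by
      intro h1
      apply hzM
      apply M.mul_mem_left
      rw [← hρ', RingHom.mem_ker]
      rw [hψdef] at h1
      exact h1
    rw [map_mul, map_mul] at hψ
    have hψβ : ψ β ≠ 0 := right_ne_zero_of_mul hψ
    have hψ0 : ψ c₀ ≠ 0 := left_ne_zero_of_mul (left_ne_zero_of_mul hψ)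
    have hψ1 : ψ c₁ ≠ 0 := right_ne_zero_of_mul (left_ne_zero_of_mul hψ)
    have hψg : ψ g ≠ 0 := by
      intro h1
      apply hgM
      rw [← hρ', RingHom.mem_ker]
      rw [hψdef] at h1
      exact h1
    have hpf : Fact p.Prime := ⟨hprime⟩
    have hchar : CharP κ p := by
      apply Final_charP hprime
      rw [← map_natCast ρ', ← RingHom.mem_ker, hρ']
      exact hpM
    have hirrκ := hBN κ ψ hψβ
    rw [hFψ]
    refine ⟨hirrκ, fun φ hφ hφe => ?_⟩
    exact exact_form p hn hw (hF₀.map ψ) hirrκ (tp_one (Tp.map ψ hT) hψ1) (hg κ ψ hψg) φ hφ hφe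

end MPadcLF
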