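import Pool.Agent.Lib.MP_adc574_ag_LF.Cls
import Pool.Agent.Lib.MP_adc574_ag_LF.Conn

/-!
# JOB Frc: the function field of a pencil

`κ = k(T)`, `F = F₀ + T F₁` with `F₀`, `F₁` over `k`, `F₁ ≠ 0`. `ν h = ev y (mp ι h)`, `ι : k → κ`.
* `ν` is injective: if `ev y (mp ι h) = 0` then `mp ι h = g F` (`ev_eq_zero_iff`); let `j : k[T] → κ`; `F` is the image of
  `F' = F₀ + T F₁ ∈ k[T][x][Y]`, monic, so the remainder of `h` modulo `F'` is zero (it maps to the remainder modulo
  `F`), `h = g' F'` over `k[T]`; comparing the degrees in `T` (`h` has degree `0`, `F'` degree `1`; use e.g. the swap of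
  the variables, or evaluate the coefficient of the highest power of `T`): `g' = 0`, `h = 0`.
* `hfrac`: the set of the quotients `ν a / ν b` is a subfield of `E` which contains `x`, `y`, the constants of `k` and
  `T = - ν F₀ / ν F₁` (`ev F = 0`, `ν F₁ ≠ 0`), so `κ`, `κ(x)` and `E` (spanned by the `y ^ i`).
* `d₂ = - (F_Y / F₁) D`, `d₁ = d - (F_x / F₁) D` (as derivations of `E`; `F_x = ev y (px F)` etc.): `D y = - F₁ / F_Y`
  (`pT δ F = mp ι F₁`, `δ T = 1`, `D_ev`), `d y = - F_x / F_Y`, so `d₂ y = 1`, `d₂ x = 0`, `d₁ y = 0`, `d₁ x = 1`, and both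
  kill `k`: `h1`, `h2` by induction on polynomials.
* For `D φ = d z` put `a = φ - (F_x / F₁) z`, `b = - (F_Y / F₁) z` (the form `φ dx + z dT` in the coordinates `x`, `y`).
  `d₂ a = d₁ b`: `d₁ = d + s D`, `d₂ = t D` with `s = - F_x / F₁`, `t = - F_Y / F₁`, `a = φ + s z`, `b = t z`. The
  commutator `[d₁, d₂]` is a derivation which kills `x`, `y`, `k`, so it is zero: applied to `T`:
  `d₁ T = s`, `d₂ T = t` (`d T = 0`, `D T = 1`), so `d₁ t = d₂ s`. Then
  `d₂ a - d₁ b = t D φ + (d₂ s) z + s t D z - (d₁ t) z - t (d z + s D z) = t (D φ - d z) = 0`.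
* `closed_forms`, and `φ = a + (d y) b` (`d = d₁ + (d y) d₂`, `b (d y) = (F_x / F₁) z`), so
  `φ = d G + ∑ ν (cc (l j)) (d u_j / u_j)`.
-/

set_option autoImplicit false

namespace MPadcLF

open Polynomial MPadcCov

private noncomputable def frc_c (k : Type*) [Field k] : k →+* k[X][X][X] :=
  (C : k[X][X] →+* k[X][X][X]).comp ((C : k[X] →+* k[X][X]).comp (C : k →+* k[X]))

/-- the map that exchanges the variables -/
private noncomputable def frc_th (k : Type*) [Field k] : k[X][X][X] →+* k[X][X][X] :=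
  eval₂RingHom (eval₂RingHom (eval₂RingHom (frc_c k) (X : k[X][X][X])) (C (C X))) (C X)

private theorem frc_th_mp (k : Type*) [Field k] (h : k[X][X]) : frc_th k (mp C h) = C h := by
  have h1 : (frc_th k).comp (mp (C : k →+* k[X])) = (C : k[X][X] →+* k[X][X][X]) := by
    refine Polynomial.ringHom_ext' (Polynomial.ringHom_ext' ?_ ?_) ?_
    · refine RingHom.ext fun c => ?_
      simp [frc_th, frc_c]
    · simp [frc_th]
    · simp [frc_th]
  exact RingHom.congr_fun h1 h

private theorem frc_th_X (k : Type*) [Field k] : frc_th k (cc X) = X := by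
  simp [frc_th]

private theorem frc_inj0 {k : Type*} [Field k] (F₀ F₁ h : k[X][X]) (hF₁ : F₁ ≠ 0)
    (q : k[X][X][X]) (hq : mp C h = (mp C F₀ + cc X * mp C F₁) * q) : h = 0 := by
  by_contra hh
  have h1 := congrArg (frc_th k) hq
  rw [map_mul, map_add, map_mul, frc_th_mp, frc_th_mp, frc_th_mp, frc_th_X] at h1
  have h2 : (C h : k[X][X][X]) ≠ 0 := C_ne_zero.2 hh
  have h3 : (C F₀ + X * C F₁ : k[X][X][X]) ≠ 0 := by
    intro h0
    rw [h0, zero_mul] at h1
    exact h2 h1
  have h4 : frc_th k q ≠ 0 := by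
    intro h0
    rw [h0, mul_zero] at h1
    exact h2 h1
  have h5 : (C F₀ + X * C F₁ : k[X][X][X]).natDegree = 1 := by
    have e1 : (C F₀ + X * C F₁ : k[X][X][X]) = C F₁ * X + C F₀ := by ring
    rw [e1]
    exact natDegree_linear hF₁
  have h6 := congrArg natDegree h1
  rw [natDegree_mul h3 h4, natDegree_C, h5] at h6
  omega

section main

variable {k : Type*} [Field k] {κ : Type*} [Field κ] [Algebra k[X] κ] [IsFractionRing k[X] κ]

omit [IsFractionRing k[X] κ] in
private theorem frc_mp_mp (h : k[X][X]) :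
    mp (algebraMap k[X] κ) (mp C h) = mp ((algebraMap k[X] κ).comp C) h := by
  have h1 : (mp (algebraMap k[X] κ)).comp (mp (C : k →+* k[X])) = mp ((algebraMap k[X] κ).comp C) := by
    unfold mp
    rw [mapRingHom_comp, mapRingHom_comp]
  exact RingHom.congr_fun h1 h

private theorem frc_mp_inj {R R' : Type*} [CommRing R] [CommRing R'] (φ : R →+* R') (hφ : Function.Injective φ) :
    Function.Injective (mp φ) :=
  Polynomial.map_injective _ (Polynomial.map_injective _ hφ)

/-- injectivity -/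
private theorem frc_inj (F₀ F₁ h : k[X][X]) (hF₁ : F₁ ≠ 0) (g : κ[X][X])
    (hmon : (mp ((algebraMap k[X] κ).comp C) F₀ + cc (algebraMap k[X] κ X) * mp ((algebraMap k[X] κ).comp C) F₁).Monic)
    (hg : mp ((algebraMap k[X] κ).comp C) h = g * (mp ((algebraMap k[X] κ).comp C) F₀ +
      cc (algebraMap k[X] κ X) * mp ((algebraMap k[X] κ).comp C) F₁)) : h = 0 := by
  have hinj : Function.Injective (algebraMap k[X] κ) := IsFractionRing.injective k[X] κ
  have hF : mp (algebraMap k[X] κ) (mp C F₀ + cc X * mp C F₁) = mp ((algebraMap k[X] κ).comp C) F₀ +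
      cc (algebraMap k[X] κ X) * mp ((algebraMap k[X] κ).comp C) F₁ := by
    rw [map_add, map_mul, mp_cc, frc_mp_mp, frc_mp_mp]
  rw [← hF] at hmon hg
  have hmon' : (mp C F₀ + cc X * mp C F₁ : k[X][X][X]).Monic :=
    Polynomial.monic_of_injective (Polynomial.map_injective _ hinj) hmon
  have h1 : mp (algebraMap k[X] κ) ((mp C h) %ₘ (mp C F₀ + cc X * mp C F₁)) = 0 := by
    rw [mp_mod _ hmon', frc_mp_mp, hg]
    exact (Polynomial.modByMonic_eq_zero_iff_dvd hmon).2 (Dvd.intro_left _ rfl)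
  have h2 : (mp C h) %ₘ (mp C F₀ + cc X * mp C F₁) = 0 := by
    apply frc_mp_inj (algebraMap k[X] κ) hinj
    rw [h1, map_zero]
  obtain ⟨q, hq⟩ := (Polynomial.modByMonic_eq_zero_iff_dvd hmon').1 h2
  exact frc_inj0 F₀ F₁ h hF₁ q hq

end main

theorem pencil_form {k : Type*} [Field k] [IsAlgClosed k] [CharZero k] {κ : Type*} [Field κ]
    [Algebra k[X] κ] [IsFractionRing k[X] κ] {δ : κ → κ}
    (hδ : ∀ r : k[X], δ (algebraMap k[X] κ r) = algebraMap k[X] κ (derivative r))
    (F₀ F₁ : k[X][X]) (hF₁ : F₁ ≠ 0) {E : Type*} [Field E] [Algebra (RatFunc κ) E] {w n : ℕ}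
    {y : E} {e : Module.Basis (Fin n) (RatFunc κ) E} {dK DK : RatFunc κ → RatFunc κ}
    {d D : Derivation ℤ E E}
    (H : KD w n (mp ((algebraMap k[X] κ).comp C) F₀ +
      cc (algebraMap k[X] κ X) * mp ((algebraMap k[X] κ).comp C) F₁) y e δ dK DK d D)
    (φ z : E) (hφ : D φ = d z) :
    ∃ (G : E) (m : ℕ) (l : Fin m → k) (u : Fin m → E), (∀ j, u j ≠ 0) ∧
      φ = d G + ∑ j, inE (κ := κ) E (pol (C (algebraMap k[X] κ (C (l j))))) * (d (u j) / u j) := by
  obtain ⟨F, hF⟩ : ∃ F : κ[X][X], F = mp ((algebraMap k[X] κ).comp C) F₀ +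
      cc (algebraMap k[X] κ X) * mp ((algebraMap k[X] κ).comp C) F₁ := ⟨_, rfl⟩
  rw [← hF] at H
  obtain ⟨ν, hνdef⟩ : ∃ ν : k[X][X] →+* E, ∀ h, ν h = ev y (mp ((algebraMap k[X] κ).comp C) h) :=
    ⟨(ev y).comp (mp ((algebraMap k[X] κ).comp C)), fun _ => rfl⟩
  have hmon : F.Monic := H.wt.monic
  have hν0 : ∀ h, ν h = 0 → h = 0 := by
    intro h h0
    rw [hνdef] at h0
    obtain ⟨g, hg⟩ := (H.toKL.ev_eq_zero_iff _).1 h0
    rw [hF] at hg hmon
    exact frc_inj F₀ F₁ h hF₁ g hmon hg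
  have hν : Function.Injective ν := (injective_iff_map_eq_zero ν).2 hν0
  have hνF₁ : ν F₁ ≠ 0 := fun h => hF₁ (hν0 _ h)
  have hFY : ev y (py F) ≠ 0 := H.Fy
  have hδ0 : δ 0 = 0 := H.der.zero
  have hδ1 : δ (algebraMap k[X] κ X) = 1 := by
    rw [hδ, derivative_X, map_one]
  obtain ⟨ie, hie⟩ : ∃ ie : κ[X] →+* E, ∀ p, inE (κ := κ) E (pol p) = ie p :=
    ⟨(algebraMap (RatFunc κ) E).comp (algebraMap κ[X] (RatFunc κ)), fun _ => rfl⟩
  -- constants
  have hνcc : ∀ c : k, ν (cc c) = inE (κ := κ) E (pol (C (algebraMap k[X] κ (C c)))) := by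
    intro c
    rw [hνdef, mp_cc, ev_C]
    rfl
  have hνx : ν (C X) = inE (κ := κ) E (pol X) := by
    rw [hνdef]
    have h1 : mp ((algebraMap k[X] κ).comp C) (C X : k[X][X]) = C X := by
      simp [mp]
    rw [h1, ev_C]
  have hνy : ν X = y := by
    rw [hνdef]
    have h1 : mp ((algebraMap k[X] κ).comp C) (X : k[X][X]) = X := by
      simp [mp]
    rw [h1, ev_X]
  -- the parameter
  obtain ⟨T, hT⟩ : ∃ T : E, T = inE (κ := κ) E (pol (C (algebraMap k[X] κ X))) := ⟨_, rfl⟩
  have hTF : ν F₀ + T * ν F₁ = 0 := by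
    have h1 := H.root
    rw [hF, map_add, map_mul, ev_C, ← hνdef, ← hνdef, ← hT] at h1
    exact h1
  -- every element is a fraction
  have hfrac : ∀ z : E, ∃ a b : k[X][X], b ≠ 0 ∧ z * ν b = ν a := by
    obtain ⟨S, hS⟩ : ∃ S : Subfield E, ∀ z, z ∈ S ↔ ∃ a b : k[X][X], b ≠ 0 ∧ z * ν b = ν a := by
      refine ⟨(IsFractionRing.lift (K := FractionRing k[X][X]) hν).fieldRange, fun z => ?_⟩
      rw [RingHom.mem_fieldRange]
      constructor
      · rintro ⟨x, rfl⟩
        obtain ⟨a, b, hb, rfl⟩ := IsFractionRing.div_surjective (A := k[X][X]) x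
        have hb0 : b ≠ 0 := nonZeroDivisors.ne_zero hb
        refine ⟨a, b, hb0, ?_⟩
        rw [map_div₀, IsFractionRing.lift_algebraMap, IsFractionRing.lift_algebraMap]
        exact div_mul_cancel₀ _ (fun h => hb0 (hν0 _ h))
      · rintro ⟨a, b, hb, hz⟩
        refine ⟨algebraMap _ _ a / algebraMap _ _ b, ?_⟩
        rw [map_div₀, IsFractionRing.lift_algebraMap, IsFractionRing.lift_algebraMap]
        rw [div_eq_iff (fun h => hb (hν0 _ h)), hz]
    have hSν : ∀ h, ν h ∈ S := fun h => (hS _).2 ⟨h, 1, one_ne_zero, by rw [map_one, mul_one]⟩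
    have hST : T ∈ S := by
      have h1 : T = -ν F₀ / ν F₁ := by
        rw [eq_div_iff hνF₁]
        linear_combination hTF
      rw [h1]
      exact S.div_mem (S.neg_mem (hSν _)) (hSν _)
    have hSp : ∀ p : k[X], inE (κ := κ) E (pol (C (algebraMap k[X] κ p))) ∈ S := by
      intro p
      induction p using Polynomial.induction_on' with
      | add p q hp hq =>
        have h1 : inE (κ := κ) E (pol (C (algebraMap k[X] κ (p + q)))) =
            inE (κ := κ) E (pol (C (algebraMap k[X] κ p))) + inE (κ := κ) E (pol (C (algebraMap k[X] κ q))) := by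
          rw [hie, hie, hie, map_add (algebraMap k[X] κ), C_add, map_add ie]
        rw [h1]
        exact S.add_mem hp hq
      | monomial m c =>
        have h1 : inE (κ := κ) E (pol (C (algebraMap k[X] κ (monomial m c)))) = ν (cc c) * T ^ m := by
          rw [hνcc, hT, hie, hie, hie, ← C_mul_X_pow_eq_monomial, map_mul (algebraMap k[X] κ), map_pow (algebraMap k[X] κ),
            C_mul, C_pow, map_mul ie, map_pow ie]
        rw [h1]
        exact S.mul_mem (hSν _) (S.pow_mem hST m)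
    have hSc : ∀ c : κ, inE (κ := κ) E (pol (C c)) ∈ S := by
      intro c
      obtain ⟨p, q, hq, rfl⟩ := IsFractionRing.div_surjective (A := k[X]) c
      have h1 : inE (κ := κ) E (pol (C (algebraMap k[X] κ p / algebraMap k[X] κ q))) =
          inE (κ := κ) E (pol (C (algebraMap k[X] κ p))) / inE (κ := κ) E (pol (C (algebraMap k[X] κ q))) := by
        have hq0 : algebraMap k[X] κ q ≠ 0 := by
          rw [Ne, map_eq_zero_iff _ (IsFractionRing.injective k[X] κ)]
          exact nonZeroDivisors.ne_zero hq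
        have hq1 : inE (κ := κ) E (pol (C (algebraMap k[X] κ q))) ≠ 0 := by
          rw [Ne, inE, map_eq_zero_iff _ (algebraMap (RatFunc κ) E).injective, pol,
            map_eq_zero_iff _ (IsFractionRing.injective κ[X] (RatFunc κ)), C_eq_zero]
          exact hq0
        rw [eq_div_iff hq1]
        show algebraMap (RatFunc κ) E _ * algebraMap (RatFunc κ) E _ = algebraMap (RatFunc κ) E _
        rw [← map_mul, ← map_mul, ← C_mul, div_mul_cancel₀ _ hq0]
      rw [h1]
      exact S.div_mem (hSp p) (hSp q)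
    have hSx : ∀ p : κ[X], inE (κ := κ) E (pol p) ∈ S := by
      intro p
      induction p using Polynomial.induction_on' with
      | add p q hp hq =>
        have h1 : inE (κ := κ) E (pol (p + q)) = inE (κ := κ) E (pol p) + inE (κ := κ) E (pol q) := by
          rw [hie, hie, hie, map_add ie]
        rw [h1]
        exact S.add_mem hp hq
      | monomial m c =>
        have h1 : inE (κ := κ) E (pol (monomial m c)) = inE (κ := κ) E (pol (C c)) * ν (C X) ^ m := by
          rw [hνx, hie, hie, hie, ← C_mul_X_pow_eq_monomial, map_mul ie, map_pow ie]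
        rw [h1]
        exact S.mul_mem (hSc c) (S.pow_mem (hSν _) m)
    have hSr : ∀ r : RatFunc κ, algebraMap (RatFunc κ) E r ∈ S := by
      intro r
      obtain ⟨p, q, hq, rfl⟩ := IsFractionRing.div_surjective (A := κ[X]) r
      rw [map_div₀]
      exact S.div_mem (hSx p) (hSx q)
    intro z
    rw [← hS]
    rw [← e.sum_repr z]
    refine S.sum_mem fun i _ => ?_
    rw [Algebra.smul_def, H.basis i, ← hνy]
    exact S.mul_mem (hSr _) (S.pow_mem (hSν _) _)
  -- the derivations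
  have hmpδ : ∀ h : k[X][X], pT δ (mp ((algebraMap k[X] κ).comp C) h) = 0 := by
    intro h
    ext i j
    unfold pT
    rw [coeff_cm (isDer_cm H.der).zero, coeff_cm H.der.zero]
    have h1 : ((mp ((algebraMap k[X] κ).comp C) h).coeff i).coeff j =
        algebraMap k[X] κ (C ((h.coeff i).coeff j)) := by
      show (((h.map (mapRingHom ((algebraMap k[X] κ).comp C))).coeff i)).coeff j = _
      rw [coeff_map]
      show (((h.coeff i).map ((algebraMap k[X] κ).comp C))).coeff j = _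
      rw [coeff_map]
      rfl
    rw [h1, hδ, derivative_C, map_zero, coeff_zero, coeff_zero]
  have hpTF : pT δ F = mp ((algebraMap k[X] κ).comp C) F₁ := by
    have h1 : (cc (1 : κ)) = 1 := by rw [cc, C_1, C_1]
    rw [hF, (isDer_pT H.der).add, (isDer_pT H.der).mul, hmpδ, hmpδ, pT_cc H.der, hδ1, h1]
    ring
  have hDν : ∀ h, D (ν h) * ev y (py F) = -(ν (py h) * ν F₁) := by
    intro h
    have h1 := H.D_ev (mp ((algebraMap k[X] κ).comp C) h)
    rw [hmpδ, hpTF, zero_mul, zero_sub, ← mp_py, map_neg, map_mul, ← hνdef, ← hνdef, ← hνdef] at h1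
    exact h1
  have hdν : ∀ h, d (ν h) * ev y (py F) = ν (px h) * ev y (py F) - ν (py h) * ev y (px F) := by
    intro h
    have h1 := H.toKL.d_ev (mp ((algebraMap k[X] κ).comp C) h)
    unfold br at h1
    rw [← mp_px, ← mp_py, map_sub, map_mul, map_mul, ← hνdef, ← hνdef, ← hνdef] at h1
    exact h1
  obtain ⟨s, hs⟩ : ∃ s : E, s * ν F₁ = -ev y (px F) := ⟨-ev y (px F) / ν F₁, div_mul_cancel₀ _ hνF₁⟩
  obtain ⟨t, ht⟩ : ∃ t : E, t * ν F₁ = -ev y (py F) := ⟨-ev y (py F) / ν F₁, div_mul_cancel₀ _ hνF₁⟩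
  have ht0 : t ≠ 0 := by
    intro h0
    rw [h0, zero_mul] at ht
    exact hFY (neg_eq_zero.1 ht.symm)
  obtain ⟨d₁, hd₁⟩ : ∃ d₁ : Derivation ℤ E E, ∀ z, d₁ z = d z + s * D z := ⟨d + s • D, fun _ => rfl⟩
  obtain ⟨d₂, hd₂⟩ : ∃ d₂ : Derivation ℤ E E, ∀ z, d₂ z = t * D z := ⟨t • D, fun _ => rfl⟩
  have h1 : ∀ h, d₁ (ν h) = ν (px h) := by
    intro h
    rw [hd₁]
    have e1 := hDν h
    have e2 := hdν h
    apply mul_right_cancel₀ (mul_ne_zero hFY hνF₁)
    linear_combination ν F₁ * e2 + s * ν F₁ * e1 - ν (py h) * ν F₁ * hs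
  have h2 : ∀ h, d₂ (ν h) = ν (py h) := by
    intro h
    rw [hd₂]
    have e1 := hDν h
    apply mul_right_cancel₀ (mul_ne_zero hFY hνF₁)
    linear_combination t * ν F₁ * e1 - ν (py h) * ν F₁ * ht
  -- the derivations commute
  have hcomm : ∀ z, d₁ (d₂ z) = d₂ (d₁ z) := by
    intro z
    obtain ⟨a, b, hb, hz⟩ := hfrac z
    have hb' : ν b ≠ 0 := fun h => hb (hν0 _ h)
    have e1 : d₁ (d₂ (z * ν b)) = d₁ (d₂ (ν a)) := by rw [hz]
    have e2 : d₂ (d₁ (z * ν b)) = d₂ (d₁ (ν a)) := by rw [hz]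
    have e3 : d₁ (d₂ (ν a)) = d₂ (d₁ (ν a)) := by rw [h1, h2, h1, h2, py_px]
    have e4 : d₁ (d₂ (ν b)) = d₂ (d₁ (ν b)) := by rw [h1, h2, h1, h2, py_px]
    have l : ∀ (θ : Derivation ℤ E E) (x x' : E), θ (x * x') = x * θ x' + x' * θ x := by
      intro θ x x'
      rw [Derivation.leibniz, smul_eq_mul, smul_eq_mul]
    rw [l, map_add, l, l] at e1 e2
    apply mul_right_cancel₀ hb'
    linear_combination e1 - e2 + e3 - z * e4
  have hdT : d T = 0 := by
    have h3 : d (inE (κ := κ) E (pol (C (algebraMap k[X] κ X)))) = inE (κ := κ) E (pol (derivative (C (algebraMap k[X] κ X)))) := by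
      rw [inE, H.d_alg, H.dK_pol]
    rw [hT, h3, derivative_C, hie, map_zero]
  have hDT : D T = 1 := by
    have h3 : D (inE (κ := κ) E (pol (C (algebraMap k[X] κ X)))) = inE (κ := κ) E (pol (cm δ (C (algebraMap k[X] κ X)))) := by
      rw [inE, H.D_alg, H.DK_pol]
    rw [hT, h3, cm_C hδ0, hδ1, C_1, hie, map_one]
  have hst : d₁ t = d₂ s := by
    have e1 := hcomm T
    have e2 : d₂ T = t := by rw [hd₂, hDT, mul_one]
    have e3 : d₁ T = s := by rw [hd₁, hdT, hDT, zero_add, mul_one]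
    rw [e2, e3] at e1
    exact e1
  have hc : d₂ (φ + s * z) = d₁ (t * z) := by
    have l : ∀ (θ : Derivation ℤ E E) (x x' : E), θ (x * x') = x * θ x' + x' * θ x := by
      intro θ x x'
      rw [Derivation.leibniz, smul_eq_mul, smul_eq_mul]
    rw [map_add, l, l, hst, hd₂ φ, hd₂ z, hd₁ z]
    linear_combination t * hφ
  obtain ⟨G, m, l, u, hu, ha, hb⟩ := closed_forms ν hν hfrac d₁ d₂ h1 h2 _ _ hc
  refine ⟨G, m, l, u, hu, ?_⟩
  have hdd : ∀ x, t * d x = t * d₁ x - s * d₂ x := by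
    intro x
    rw [hd₁, hd₂]
    ring
  apply mul_left_cancel₀ ht0
  have e1 : t * φ = t * (φ + s * z) - s * (t * z) := by ring
  rw [e1, ha, hb, mul_add t, mul_add t, hdd, Finset.mul_sum, Finset.mul_sum, mul_add s, Finset.mul_sum]
  have e2 : ∀ j, t * (inE (κ := κ) E (pol (C (algebraMap k[X] κ (C (l j))))) * (d (u j) / u j)) =
      t * (ν (cc (l j)) * (d₁ (u j) / u j)) - s * (ν (cc (l j)) * (d₂ (u j) / u j)) := by
    intro j
    rw [← hνcc]
    have h3 := hdd (u j)
    have hu' := hu j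
    field_simp
    linear_combination ν (cc (l j)) * h3
  rw [Finset.sum_congr rfl fun j _ => e2 j, Finset.sum_sub_distrib]
  ring

end MPadcLF
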