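import Pool.Agent.Lib.MP_adc574_ag_LF.LagX
import Pool.Agent.Lib.MP_adc574_ag_LP.Global

/-!
# JOB GlobI: the abstract theorem for isotropic subspaces

Paper 5.3. Apply `exists_lag` to `D = DL`, `Δ = ψ Δ`, `G.map ψ`, `W`, then `global_main` (LP/Global.lean) with
`S = {D := derivative (as a Der k[X], see Core.derX in LP/Core.lean), Δ := Δ, G := G, J := J0 k[X] γ, fb := Sum.inl}`
and `ψ' = j ∘ ψ`. `S.Ok`: `J0` is alternating with determinant a unit (`Matrix.fromBlocks`; `J0 * J0 = -1`),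
constant, `J0 (inl, inl) = 0`, `Fintype.card_sum`. `(J0 R γ).map φ = J0 R' γ`. `hdet`: the nonzero vector
`x = Sum.elim c 0 ∈ W` gives `j x = ∑ λ_k w_k` with `λ ≠ 0` (`j` injective), and
`∑ λ_k (J w_k) (inl i) = (J (j x)) (inl i) = 0` (`J0` maps vectors supported on `inl` to vectors supported on `inr`),
so the matrix `((J w_k) (inl i))` is singular (`Matrix.exists_mulVec_eq_zero_iff`).
-/

set_option autoImplicit false

namespace MPadcLF

open Polynomial MPadcLP

universe u v w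

variable {γ : Type} [Fintype γ] [DecidableEq γ]

private noncomputable def GlobI_derX (R : Type*) [CommRing R] : Der R[X] :=
  Derivation.mk' (derivative (R := R)).toAddMonoidHom.toIntLinearMap (by
    intro a b
    change derivative (a * b) = a • derivative b + b • derivative a
    rw [derivative_mul, smul_eq_mul, smul_eq_mul]
    ring)

private theorem GlobI_J0_mulVec {E : Type*} [CommRing E] (w : γ ⊕ γ → E) :
    (J0 E γ).mulVec w = Sum.elim (fun a => -w (Sum.inr a)) (fun a => w (Sum.inl a)) := by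
  unfold J0
  rw [Matrix.fromBlocks_mulVec]
  funext i
  rcases i with i | i
  · simp [Matrix.neg_mulVec]
  · simp

omit [Fintype γ] in
private theorem GlobI_J0_map {E E' : Type*} [CommRing E] [CommRing E'] (f : E →+* E') :
    (J0 E γ).map f = J0 E' γ := by
  unfold J0
  rw [Matrix.fromBlocks_map]
  simp [Matrix.map_neg]

omit [Fintype γ] in
private theorem GlobI_J0_transpose {E : Type*} [CommRing E] :
    (J0 E γ).transpose = - J0 E γ := by
  unfold J0
  rw [Matrix.fromBlocks_transpose, Matrix.fromBlocks_neg]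
  simp

private theorem GlobI_J0_sq {E : Type*} [CommRing E] :
    J0 E γ * (- J0 E γ) = 1 := by
  unfold J0
  rw [Matrix.fromBlocks_neg, Matrix.fromBlocks_multiply]
  simp

omit [Fintype γ] in
private theorem GlobI_J0_const {E : Type*} [Field E] (a b : γ ⊕ γ) :
    derivative (J0 E[X] γ a b) = 0 := by
  unfold J0
  rcases a with a | a <;> rcases b with b | b
  · simp
  · rw [Matrix.fromBlocks_apply₁₂, Matrix.neg_apply, Matrix.one_apply]
    split_ifs <;> simp
  · rw [Matrix.fromBlocks_apply₂₁, Matrix.one_apply]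
    split_ifs <;> simp
  · simp

theorem global_iso {k : Type u} {F : Type v} [Field k] [CharZero k] [Field F] [IsAlgClosed F]
    [Algebra k F] (Δ : k[X]) (hΔ : Δ ≠ 0) (G : Matrix (γ ⊕ γ) (γ ⊕ γ) k[X])
    (hflat : G.transpose * J0 k[X] γ + J0 k[X] γ * G = 0)
    (hloc : ∀ a : F, ∃ (Γ : Matrix (γ ⊕ γ) (γ ⊕ γ) (PowerSeries F)) (d l : γ ⊕ γ → F),
      (∀ i j, pl k a Δ * Γ i j = PowerSeries.X * pl k a (G i j)) ∧
      ∀ i j, PowerSeries.constantCoeff (Γ i j) = d i * l j)
    (hinf : ∀ U : Submodule k (γ ⊕ γ → k[X]),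
      (∀ x ∈ U, ∃ y ∈ U, ∀ i, Δ * y i = Δ * derivative (x i) + G.mulVec x i) → U = ⊥)
    {L : Type w} [Field L] (ψ : k[X] →+* L) (hψ : Function.Injective ψ) (DL : Derivation ℤ L L)
    (hD : ∀ x, DL (ψ x) = ψ (derivative x)) (W : Submodule L (γ ⊕ γ → L))
    (hiso : ∀ u ∈ W, ∀ v ∈ W, BB (J0 L γ) u v = 0)
    (hst : ∀ u ∈ W, nab DL (ψ Δ) (G.map ψ) u ∈ W)
    (hF : ∃ c : γ → L, c ≠ 0 ∧ Sum.elim c 0 ∈ W) : False := by
  have hflat' : (G.map ψ).transpose * J0 L γ + J0 L γ * G.map ψ = 0 := by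
    have h1 := congrArg (fun M : Matrix (γ ⊕ γ) (γ ⊕ γ) k[X] => M.map ψ) hflat
    rw [Matrix.map_add ψ (map_add ψ), Matrix.map_mul, Matrix.map_mul, GlobI_J0_map,
      Matrix.map_zero _ (map_zero ψ)] at h1
    exact h1
  have hψΔ : ψ Δ ≠ 0 := fun h => hΔ (hψ (by rw [h, map_zero]))
  obtain ⟨L', iL', j, D', w, V, M, hjD, hVw, hww, hnw, hWs⟩ :=
    exists_lag DL (ψ Δ) hψΔ (G.map ψ) hflat' W hiso hst
  have hJm : (J0 k[X] γ).map (j.comp ψ) = J0 L' γ := GlobI_J0_map _
  refine global_main (F := F) (⟨GlobI_derX k, Δ, G, J0 k[X] γ, Sum.inl⟩ : Dat k[X] γ (γ ⊕ γ))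
    ⟨hΔ, GlobI_J0_transpose, GlobI_J0_const, ?_, hflat, Sum.inl_injective, ?_, ?_⟩
    (fun q => rfl) hloc hinf (j.comp ψ) (j.injective.comp hψ) D' ?_ w V hVw ?_ M ?_ ?_
  · exact Matrix.isUnit_det_of_right_inverse GlobI_J0_sq
  · intro a b
    change J0 k[X] γ (Sum.inl a) (Sum.inl b) = 0
    unfold J0
    rw [Matrix.fromBlocks_apply₁₁, Matrix.zero_apply]
  · rw [Fintype.card_sum, two_mul]
  · intro x
    rw [RingHom.comp_apply, RingHom.comp_apply, hjD, hD]
  · intro a b
    change BB ((J0 k[X] γ).map (j.comp ψ)) (w a) (w b) = 0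
    rw [hJm]
    exact hww a b
  · exact hnw
  · change (Matrix.of fun a b => (((J0 k[X] γ).map (j.comp ψ)).mulVec (w b)) (Sum.inl a)).det = 0
    rw [hJm]
    obtain ⟨c, hc0, hcW⟩ := hF
    obtain ⟨l, hl⟩ := (Submodule.mem_span_range_iff_exists_fun L').mp (hWs _ hcW)
    refine Matrix.exists_mulVec_eq_zero_iff.mp ⟨l, ?_, ?_⟩
    · rintro rfl
      apply hc0
      funext a
      have h1 := congrFun hl (Sum.inl a)
      simp only [Pi.zero_apply, zero_smul, Finset.sum_const_zero, Sum.elim_inl] at h1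
      rw [Pi.zero_apply]
      exact j.injective (by rw [map_zero, ← h1])
    · funext a
      rw [Pi.zero_apply]
      have h1 := congrFun hl (Sum.inr a)
      rw [Finset.sum_apply] at h1
      simp only [Pi.smul_apply, smul_eq_mul, Sum.elim_inr, Pi.zero_apply, map_zero] at h1
      simp only [Matrix.mulVec, dotProduct, Matrix.of_apply]
      have h2 : ∀ b, (∑ i, J0 L' γ (Sum.inl a) i * w b i) * l b = -(l b * w b (Sum.inr a)) := by
        intro b
        have h3 := congrFun (GlobI_J0_mulVec (w b)) (Sum.inl a)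
        rw [Sum.elim_inl] at h3
        change ((J0 L' γ).mulVec (w b)) (Sum.inl a) * l b = _
        rw [h3]
        ring
      rw [Finset.sum_congr rfl fun b _ => h2 b, Finset.sum_neg_distrib, h1, neg_zero]

end MPadcLF
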