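import Mathlib

/-!
# JOB Herm: Hermite reduction and poles of derivatives

`F` a field of characteristic `0`, rational functions `A / V` in one variable over `F`; everything is stated in terms of
polynomials (`(G / H)' = (G' H - G H') / H ^ 2`).
* `hermite`: `A / V = (G / H)' + N / Q` with `Q` squarefree, monic, `deg N < deg Q`. Induction: (1) polynomials are
  derivatives; (2) `V = V₁ V₂` coprime: `A / V = A₁ / V₁ + A₂ / V₂` (Bézout), and sums `N₁ / Q₁ + N₂ / Q₂` of the same
  type with coprime (or arbitrary, take the least common multiple) squarefree denominators; (3) `V = P ^ m`, `P`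
  irreducible: for `m ≥ 2`: `A = B P + C P'` (`P`, `P'` coprime), so
  `A / P ^ m = B / P ^ (m-1) - (C / ((m-1) P ^ (m-1)))' + C' / ((m-1) P ^ (m-1))`, induction on `m`; `m = 1`: division
  with remainder. (Mathlib: `UniqueFactorizationMonoid.induction_on_coprime`.) It may be convenient to work in
  `RatFunc F` or `FractionRing F[X]` with a derivation and to translate at the end.
* `pole_sq`: if `Q` is squarefree and `Q ^ 2 (M / H)'` is a polynomial then `Q (M / H)` is a polynomial. Cancel
  common factors: `M`, `H` coprime. Let `P` be irreducible, `P ^ m` exactly dividing `H`, `m ≥ 1`. Then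
  `M' H - M H'` is exactly divisible by `P ^ (m-1)` (`H = P ^ m H₁`, `H' = m P ^ (m-1) P' H₁ + P ^ m H₁'`, `P ∤ M P' H₁ m`),
  and `H ^ 2` by `P ^ (2 m)`: from `Q ^ 2 (M' H - M H') = H ^ 2 S`: `2 ord_P Q + m - 1 ≥ 2 m`, `ord_P Q ≤ 1`, so `m = 1` and
  `P ∣ Q`. So `H ∣ Q` (for example by `UniqueFactorizationMonoid` multiplicities, or show `H` squarefree and all its
  irreducible factors divide `Q`).
-/

set_option autoImplicit false

namespace MPadcLF

open Polynomial

private theorem herm_split {F : Type*} [Field F] {P V : F[X]} (hP : Irreducible P) (hV : V ≠ 0) :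
    ∃ (m : ℕ) (U : F[X]), V = P ^ m * U ∧ ¬ P ∣ U :=
  ⟨_, (FiniteMultiplicity.of_prime_left hP.prime hV).exists_eq_pow_mul_and_not_dvd⟩

private theorem herm_dpow {F : Type*} [Field F] (P : F[X]) (k : ℕ) :
    derivative (P ^ (k + 1)) = C (((k + 1 : ℕ) : F)) * P ^ k * derivative P := by
  rw [derivative_pow, Nat.add_sub_cancel]

private theorem herm_anti {F : Type*} [Field F] [CharZero F] (T : F[X]) :
    ∃ S : F[X], derivative S = T := by
  induction T using Polynomial.induction_on' with
  | add p q hp hq =>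
    obtain ⟨a, ha⟩ := hp
    obtain ⟨b, hb⟩ := hq
    exact ⟨a + b, by rw [derivative_add, ha, hb]⟩
  | monomial n a =>
    refine ⟨monomial (n + 1) (a / ((n + 1 : ℕ) : F)), ?_⟩
    rw [derivative_monomial, Nat.add_sub_cancel, div_mul_cancel₀]
    exact_mod_cast Nat.succ_ne_zero n

private theorem herm_weak {F : Type*} [Field F] [CharZero F] (n : ℕ) :
    ∀ A V : F[X], V ≠ 0 → V.natDegree = n →
    ∃ G H N Q : F[X], H ≠ 0 ∧ Q ≠ 0 ∧ Squarefree Q ∧
      A * H ^ 2 * Q = V * ((derivative G * H - G * derivative H) * Q + N * H ^ 2) := by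
  induction n using Nat.strong_induction_on with
  | _ n ih =>
    intro A V hV hn
    by_cases hsq : Squarefree V
    · refine ⟨0, 1, A, V, one_ne_zero, hV, hsq, ?_⟩
      rw [derivative_zero]
      ring
    · have h1 : ∃ P : F[X], Irreducible P ∧ P * P ∣ V := by
        by_contra hc
        apply hsq
        rw [squarefree_iff_no_irreducibles hV]
        intro p hp hd
        exact hc ⟨p, hp, hd⟩
      obtain ⟨P, hP, hPP⟩ := h1
      obtain ⟨m, U, hVU, hPU⟩ := herm_split hP hV
      have hP0 : P ≠ 0 := hP.ne_zero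
      have hm : 2 ≤ m := by
        rcases m with _ | m
        · exfalso
          apply hPU
          rw [pow_zero, one_mul] at hVU
          rw [← hVU]
          exact dvd_trans (dvd_mul_left P P) hPP
        · rcases m with _ | m
          · exfalso
            apply hPU
            rw [hVU, zero_add, pow_one] at hPP
            exact (mul_dvd_mul_iff_left hP0).1 hPP
          · omega
      obtain ⟨k, rfl⟩ := Nat.exists_eq_add_of_le' hm
      have hU0 : U ≠ 0 := by
        intro h
        apply hPU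
        rw [h]
        exact dvd_zero P
      set W : F[X] := P ^ (k + 1) with hW
      have hW0 : W ≠ 0 := pow_ne_zero _ hP0
      have hV2 : V = P * (W * U) := by
        rw [hVU, hW]
        ring
      have hdeg : (W * U).natDegree < n := by
        rw [← hn, hV2, natDegree_mul hP0 (mul_ne_zero hW0 hU0)]
        have := hP.natDegree_pos
        omega
      have hcop : IsCoprime P (U * derivative P) := by
        refine IsCoprime.mul_right (hP.coprime_iff_not_dvd.2 hPU) ?_
        exact hP.separable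
      obtain ⟨s, t, hst⟩ := hcop
      have hk : ((k + 1 : ℕ) : F) ≠ 0 := by exact_mod_cast Nat.succ_ne_zero k
      have hKc : C (((k + 1 : ℕ) : F)) * C ((((k + 1 : ℕ) : F))⁻¹) = 1 := by
        rw [← C_mul, mul_inv_cancel₀ hk, C_1]
      set K : F[X] := C (((k + 1 : ℕ) : F)) with hK
      set c : F[X] := C ((((k + 1 : ℕ) : F))⁻¹) with hc
      set Cc : F[X] := -(c * (A * t)) with hCc
      have hA : A = A * s * P - K * U * derivative P * Cc := by
        rw [hCc]
        linear_combination (-A) * hst + (-(U * derivative P * A * t)) * hKc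
      have hdW : P * derivative W = K * W * derivative P := by
        rw [hW, herm_dpow, ← hK]
        ring
      obtain ⟨G, H, N, Q, hH, hQ0, hQ, hid⟩ :=
        ih _ hdeg (A * s - U * derivative Cc) (W * U) (mul_ne_zero hW0 hU0) rfl
      refine ⟨G * W + Cc * H, H * W, N, Q, mul_ne_zero hH hW0, hQ0, hQ, ?_⟩
      rw [hV2, derivative_add, derivative_mul, derivative_mul, derivative_mul]
      linear_combination (H ^ 2 * W ^ 2 * Q) * hA + (P * W ^ 2) * hid +
        (W * U * H ^ 2 * Q * Cc) * hdW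

theorem hermite {F : Type*} [Field F] [CharZero F] (A V : F[X]) (hV : V ≠ 0) :
    ∃ G H N Q : F[X], H ≠ 0 ∧ Q.Monic ∧ Squarefree Q ∧ N.degree < Q.degree ∧
      A * H ^ 2 * Q = V * ((derivative G * H - G * derivative H) * Q + N * H ^ 2) := by
  classical
  obtain ⟨G, H, N, Q, hH, hQ0, hQ, hid⟩ := herm_weak V.natDegree A V hV rfl
  have hmon : (Q * C (Q.leadingCoeff)⁻¹).Monic := monic_mul_leadingCoeff_inv hQ0
  set c : F[X] := C (Q.leadingCoeff)⁻¹ with hc
  have hcc : C Q.leadingCoeff * c = 1 := by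
    rw [hc, ← C_mul, mul_inv_cancel₀ (leadingCoeff_ne_zero.2 hQ0), C_1]
  obtain ⟨T, hT⟩ := herm_anti ((N * c) /ₘ (Q * c))
  have hdiv := modByMonic_add_div (N * c) (Q * c)
  refine ⟨G + T * H, H, (N * c) %ₘ (Q * c), Q * c, hH, hmon, ?_, degree_modByMonic_lt _ hmon, ?_⟩
  · refine hQ.squarefree_of_dvd ⟨C Q.leadingCoeff, ?_⟩
    linear_combination (-Q) * hcc
  · rw [derivative_add, derivative_mul, hT]
    linear_combination c * hid - V * H ^ 2 * hdiv

private theorem herm_cop {F : Type*} [Field F] [CharZero F] (M H Q S : F[X]) (hH : H ≠ 0)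
    (hc : IsCoprime M H) (hQ : Squarefree Q)
    (h : Q ^ 2 * (derivative M * H - M * derivative H) = H ^ 2 * S) : H ∣ Q := by
  classical
  have key : ∀ P : F[X], Irreducible P → P ∣ H → P ∣ Q ∧ ¬ P * P ∣ H := by
    intro P hP hPH
    have hP0 : P ≠ 0 := hP.ne_zero
    obtain ⟨m, H₁, hH1, hPH1⟩ := herm_split hP hH
    have hm : 1 ≤ m := by
      rcases m with _ | m
      · exfalso
        apply hPH1
        rw [pow_zero, one_mul] at hH1
        rwa [← hH1]
      · omega
    obtain ⟨k, rfl⟩ := Nat.exists_eq_add_of_le' hm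
    have hk : ((k + 1 : ℕ) : F) ≠ 0 := by exact_mod_cast Nat.succ_ne_zero k
    set E : F[X] := P * (derivative M * H₁ - M * derivative H₁) -
      M * (C (((k + 1 : ℕ) : F)) * (derivative P * H₁)) with hE
    have hW : derivative M * H - M * derivative H = P ^ k * E := by
      rw [hH1, derivative_mul, herm_dpow, hE]
      ring
    have hPE : ¬ P ∣ E := by
      intro hd
      have h1 : P ∣ M * (C (((k + 1 : ℕ) : F)) * (derivative P * H₁)) := by
        have h2 := dvd_sub (dvd_mul_right P (derivative M * H₁ - M * derivative H₁)) hd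
        rw [hE, sub_sub_cancel] at h2
        exact h2
      rcases hP.prime.dvd_or_dvd h1 with h2 | h2
      · exact hP.not_isUnit (hc.isUnit_of_dvd' h2 hPH)
      · rcases hP.prime.dvd_or_dvd h2 with h3 | h3
        · exact hP.not_isUnit (isUnit_of_dvd_unit h3 (isUnit_C.2 (isUnit_iff_ne_zero.2 hk)))
        · rcases hP.prime.dvd_or_dvd h3 with h4 | h4
          · exact (hP.coprime_iff_not_dvd.1 hP.separable) h4
          · exact hPH1 h4
    have hdiv : P ^ (k + 2) ∣ Q ^ 2 * E := by
      refine ⟨H₁ ^ 2 * S, ?_⟩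
      have h3 : P ^ k * (Q ^ 2 * E) = P ^ k * (P ^ (k + 2) * (H₁ ^ 2 * S)) := by
        rw [hW, hH1] at h
        linear_combination h
      exact mul_left_cancel₀ (pow_ne_zero k hP0) h3
    have hdiv2 : P ^ (k + 2) ∣ Q ^ 2 :=
      ((hP.coprime_iff_not_dvd.2 hPE).pow_left).dvd_of_dvd_mul_right hdiv
    have hPQ : P ∣ Q := by
      refine hP.prime.dvd_of_dvd_pow (n := 2) (dvd_trans ?_ hdiv2)
      exact dvd_pow_self P (by omega)
    refine ⟨hPQ, ?_⟩
    obtain ⟨Q₁, hQ1⟩ := hPQ
    have hPQ1 : ¬ P ∣ Q₁ := by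
      intro hd
      apply hP.not_isUnit
      apply hQ
      rw [hQ1]
      exact mul_dvd_mul_left P hd
    have hk0 : k = 0 := by
      by_contra hk0
      have h4 : P ^ 2 * P ^ k ∣ P ^ 2 * Q₁ ^ 2 := by
        have e1 : P ^ 2 * P ^ k = P ^ (k + 2) := by ring
        have e2 : P ^ 2 * Q₁ ^ 2 = Q ^ 2 := by rw [hQ1]; ring
        rw [e1, e2]
        exact hdiv2
      have h5 : P ^ k ∣ Q₁ ^ 2 := (mul_dvd_mul_iff_left (pow_ne_zero 2 hP0)).1 h4
      exact hPQ1 (hP.prime.dvd_of_dvd_pow (dvd_trans (dvd_pow_self P hk0) h5))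
    subst hk0
    intro hPP
    apply hPH1
    rw [hH1, zero_add, pow_one] at hPP
    exact (mul_dvd_mul_iff_left hP0).1 hPP
  obtain ⟨K, hK⟩ := EuclideanDomain.gcd_dvd_left H Q
  have hKu : IsUnit K := by
    by_contra hKu
    have hK0 : K ≠ 0 := by
      intro h0
      apply hH
      rw [hK, h0, mul_zero]
    obtain ⟨P, hP, hPK⟩ := WfDvdMonoid.exists_irreducible_factor hKu hK0
    have hPH : P ∣ H := by
      rw [hK]
      exact dvd_mul_of_dvd_right hPK _
    obtain ⟨h1, h2⟩ := key P hP hPH
    apply h2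
    have h3 := mul_dvd_mul (EuclideanDomain.dvd_gcd hPH h1) hPK
    rwa [← hK] at h3
  have h1 : H ∣ EuclideanDomain.gcd H Q := by
    have h2 : EuclideanDomain.gcd H Q * K ∣ EuclideanDomain.gcd H Q :=
      (hKu.mul_right_dvd).2 dvd_rfl
    rwa [← hK] at h2
  exact dvd_trans h1 (EuclideanDomain.gcd_dvd_right H Q)

theorem pole_sq {F : Type*} [Field F] [CharZero F] (M H Q S : F[X]) (hH : H ≠ 0)
    (hQ : Squarefree Q) (h : Q ^ 2 * (derivative M * H - M * derivative H) = H ^ 2 * S) :
    ∃ M₁ : F[X], Q * M = H * M₁ := by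
  classical
  obtain ⟨M₀, hM0⟩ := EuclideanDomain.gcd_dvd_left M H
  obtain ⟨H₀, hH0⟩ := EuclideanDomain.gcd_dvd_right M H
  have hab := EuclideanDomain.gcd_eq_gcd_ab M H
  generalize EuclideanDomain.gcd M H = D at hM0 hH0 hab
  have hD0 : D ≠ 0 := by
    intro h0
    apply hH
    rw [hH0, h0, zero_mul]
  have hH00 : H₀ ≠ 0 := by
    intro h0
    apply hH
    rw [hH0, h0, mul_zero]
  have hcop : IsCoprime M₀ H₀ := by
    refine ⟨EuclideanDomain.gcdA M H, EuclideanDomain.gcdB M H, ?_⟩
    apply mul_left_cancel₀ hD0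
    linear_combination -hab - EuclideanDomain.gcdA M H * hM0 - EuclideanDomain.gcdB M H * hH0
  have hid : Q ^ 2 * (derivative M₀ * H₀ - M₀ * derivative H₀) = H₀ ^ 2 * S := by
    apply mul_left_cancel₀ (pow_ne_zero 2 hD0)
    rw [hM0, hH0, derivative_mul, derivative_mul] at h
    linear_combination h
  obtain ⟨R, hR⟩ := herm_cop M₀ H₀ Q S hH00 hcop hQ hid
  refine ⟨R * M₀, ?_⟩
  rw [hM0, hH0, hR]
  ring

end MPadcLF
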