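import Pool.Agent.Lib.MP_adc574_ag_LF.HinfD
import Pool.Agent.Lib.MP_adc574_ag_Cov.Deg

/-!
# JOB HinfA: sections without poles are killed by a power of the connection

Paper 5.6, second half. `k` a field containing the domain `A`, every element of `k` is a quotient of elements of `A`.
`K = RatFunc k`, `v j : ι → k[X]` with `Δ v (j+1) = Δ (v j)' + G (v j)` (`G`, `Δ` mapped to `k[X]`).
* If `v 0 = 0` take `j = 0`. Otherwise let `r` be minimal such that `v 0, …, v r` are linearly dependent over `K`
  (`r ≥ 1`; exists because `ι` is finite), so `v 0, …, v (r-1)` are independent and `v r = ∑ i < r, a i v i` over `K`.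
  By `hinf_degrees`: `Dle (a i) (i - r)`.
* For all `j`: `v j = ∑ i < r, u j i v i` over `K` with `Dle (u j i) (i - j)`: induction with
  `u (j+1) i = (u j i)' + u j (i-1) + u j (r-1) a i` (Leibniz rule for `∇ = d/dT + G/Δ` on `ι → K`,
  `∇ (v i) = v (i+1)`, `v r = ∑ a i v i`; the derivation `d/dT` of `RatFunc k`, which lowers degrees by one, exists by
  `ext_frac` of Cov/Der, see also `dK_dle` in Cov/Deg). Let `mu ∈ k[X]` be a nonzero `r × r` minor of `v 0, …, v (r-1)`. By
  Cramer's rule `mu u j i` is a polynomial. So if `j > r + natDegree mu` then `u j i = 0` (its degree is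
  `≤ i - j < - natDegree mu`), and `v j = 0`.
-/

set_option autoImplicit false

namespace MPadcLF

open Polynomial MPadcCov

universe u

private theorem hinfA_pol_add {k : Type*} [Field k] (a b : k[X]) : pol (a + b) = pol a + pol b :=
  map_add (algebraMap k[X] (RatFunc k)) a b

private theorem hinfA_pol_mul {k : Type*} [Field k] (a b : k[X]) : pol (a * b) = pol a * pol b :=
  map_mul (algebraMap k[X] (RatFunc k)) a b

private theorem hinfA_pol_sum {k : Type*} [Field k] {α : Type*} (s : Finset α) (f : α → k[X]) :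
    pol (∑ i ∈ s, f i) = ∑ i ∈ s, pol (f i) :=
  map_sum (algebraMap k[X] (RatFunc k)) f s

/-- the connection over `k(T)` -/
private noncomputable def hinfA_nabla {k : Type*} [Field k] {ι : Type} [Fintype ι]
    (dK : Derivation ℤ (RatFunc k) (RatFunc k)) (c : RatFunc k) (G : Matrix ι ι (RatFunc k))
    (x : ι → RatFunc k) : ι → RatFunc k :=
  fun l => dK (x l) + c * G.mulVec x l

private theorem hinfA_add {k : Type*} [Field k] {ι : Type} [Fintype ι]
    (dK : Derivation ℤ (RatFunc k) (RatFunc k)) (c : RatFunc k) (G : Matrix ι ι (RatFunc k))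
    (x y : ι → RatFunc k) :
    hinfA_nabla dK c G (x + y) = hinfA_nabla dK c G x + hinfA_nabla dK c G y := by
  funext l
  show dK (x l + y l) + c * G.mulVec (x + y) l =
    (dK (x l) + c * G.mulVec x l) + (dK (y l) + c * G.mulVec y l)
  rw [map_add, Matrix.mulVec_add, Pi.add_apply]
  ring

private theorem hinfA_zero {k : Type*} [Field k] {ι : Type} [Fintype ι]
    (dK : Derivation ℤ (RatFunc k) (RatFunc k)) (c : RatFunc k) (G : Matrix ι ι (RatFunc k)) :
    hinfA_nabla dK c G 0 = 0 := by
  funext l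
  show dK (0 : RatFunc k) + c * G.mulVec 0 l = 0
  rw [map_zero, Matrix.mulVec_zero, Pi.zero_apply, mul_zero, add_zero]

private theorem hinfA_smul {k : Type*} [Field k] {ι : Type} [Fintype ι]
    (dK : Derivation ℤ (RatFunc k) (RatFunc k)) (c : RatFunc k) (G : Matrix ι ι (RatFunc k))
    (r : RatFunc k) (x : ι → RatFunc k) :
    hinfA_nabla dK c G (r • x) = dK r • x + r • hinfA_nabla dK c G x := by
  funext l
  show dK (r * x l) + c * G.mulVec (r • x) l = dK r * x l + r * (dK (x l) + c * G.mulVec x l)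
  rw [Derivation.leibniz, Matrix.mulVec_smul, Pi.smul_apply, smul_eq_mul, smul_eq_mul,
    smul_eq_mul]
  ring

private theorem hinfA_sum {k : Type*} [Field k] {ι : Type} [Fintype ι]
    (dK : Derivation ℤ (RatFunc k) (RatFunc k)) (c : RatFunc k) (G : Matrix ι ι (RatFunc k))
    {α : Type*} (s : Finset α) (f : α → ι → RatFunc k) :
    hinfA_nabla dK c G (∑ i ∈ s, f i) = ∑ i ∈ s, hinfA_nabla dK c G (f i) := by
  classical
  induction s using Finset.induction_on with
  | empty => rw [Finset.sum_empty, Finset.sum_empty, hinfA_zero]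
  | insert a s ha ih => rw [Finset.sum_insert ha, Finset.sum_insert ha, hinfA_add, ih]

/-- combinations of `P 0, …, P (r - 1)` with degree bounds -/
private def hinfA_W {k : Type*} [Field k] {ι : Type} (P : ℕ → ι → RatFunc k) (r : ℕ) (m : ℤ)
    (x : ι → RatFunc k) : Prop :=
  ∃ u : Fin r → RatFunc k, x = ∑ i, u i • P i ∧ ∀ i : Fin r, Dle (u i) (((i : ℕ) : ℤ) - m)

private theorem hinfA_W_add {k : Type*} [Field k] {ι : Type} {P : ℕ → ι → RatFunc k} {r : ℕ}
    {m : ℤ} {x y : ι → RatFunc k} (hx : hinfA_W P r m x) (hy : hinfA_W P r m y) :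
    hinfA_W P r m (x + y) := by
  obtain ⟨u, hu, hu'⟩ := hx
  obtain ⟨w, hw, hw'⟩ := hy
  refine ⟨u + w, ?_, fun i => (hu' i).add (hw' i)⟩
  rw [hu, hw, ← Finset.sum_add_distrib]
  refine Finset.sum_congr rfl fun i _ => ?_
  rw [Pi.add_apply, add_smul]

private theorem hinfA_W_zero {k : Type*} [Field k] {ι : Type} {P : ℕ → ι → RatFunc k} {r : ℕ}
    {m : ℤ} : hinfA_W P r m 0 := by
  refine ⟨0, ?_, fun i => Dle.zero _⟩
  symm
  refine Finset.sum_eq_zero fun i _ => ?_
  rw [Pi.zero_apply, zero_smul]

private theorem hinfA_W_sum {k : Type*} [Field k] {ι : Type} {P : ℕ → ι → RatFunc k} {r : ℕ}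
    {m : ℤ} {α : Type*} (s : Finset α) (f : α → ι → RatFunc k)
    (h : ∀ i ∈ s, hinfA_W P r m (f i)) : hinfA_W P r m (∑ i ∈ s, f i) :=
  Finset.sum_induction _ (fun z => hinfA_W P r m z) (fun _ _ => hinfA_W_add) hinfA_W_zero h

private theorem hinfA_W_single {k : Type*} [Field k] {ι : Type} {P : ℕ → ι → RatFunc k} {r : ℕ}
    {m : ℤ} (i : Fin r) {c : RatFunc k} (hc : Dle c (((i : ℕ) : ℤ) - m)) :
    hinfA_W P r m (c • P i) := by
  classical
  refine ⟨fun j => if j = i then c else 0, ?_, fun j => ?_⟩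
  · rw [Finset.sum_eq_single i]
    · show c • P i = (if i = i then c else 0) • P i
      rw [if_pos rfl]
    · intro j _ hj
      show (if j = i then c else 0) • P j = 0
      rw [if_neg hj, zero_smul]
    · intro h
      exact absurd (Finset.mem_univ i) h
  · show Dle (if j = i then c else 0) _
    by_cases hj : j = i
    · rw [if_pos hj, hj]
      exact hc
    · rw [if_neg hj]
      exact Dle.zero _

/-- if `P (j + 1) = ∇ (P j)` and `P r = ∑ a i P i` with `deg a i ≤ i - r`, then `P j` is a
combination with coefficients of degree `≤ i - j` -/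
private theorem hinfA_step {k : Type*} [Field k] {ι : Type} [Fintype ι]
    (dK : Derivation ℤ (RatFunc k) (RatFunc k))
    (hdK : ∀ p : k[X], dK (pol p) = pol (derivative p)) (c : RatFunc k)
    (G : Matrix ι ι (RatFunc k)) (P : ℕ → ι → RatFunc k)
    (hP : ∀ j, hinfA_nabla dK c G (P j) = P (j + 1)) (r : ℕ) (hr : 0 < r)
    (a : Fin r → RatFunc k) (ha : P r = ∑ i, a i • P i)
    (hdeg : ∀ i : Fin r, Dle (a i) (((i : ℕ) : ℤ) - r)) (j : ℕ) : hinfA_W P r j (P j) := by
  induction j with
  | zero =>
    have h1 : hinfA_W P r ((0 : ℕ) : ℤ) ((1 : RatFunc k) • P ((⟨0, hr⟩ : Fin r) : ℕ)) := by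
      refine hinfA_W_single ⟨0, hr⟩ (Or.inr ?_)
      rw [RatFunc.intDegree_one]
      simp
    rwa [one_smul] at h1
  | succ j ih =>
    obtain ⟨u, hu, hu'⟩ := ih
    rw [← hP j, hu, hinfA_sum]
    refine hinfA_W_sum _ _ fun i _ => ?_
    rw [hinfA_smul, hP]
    refine hinfA_W_add (hinfA_W_single i ?_) ?_
    · have h1 := dK_dle hdK _ _ (hu' i)
      refine dle_mono h1 ?_
      push_cast
      linarith
    · by_cases hi : (i : ℕ) + 1 < r
      · have h1 : hinfA_W P r ((j + 1 : ℕ) : ℤ) (u i • P ((⟨(i : ℕ) + 1, hi⟩ : Fin r) : ℕ)) := by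
          refine hinfA_W_single ⟨(i : ℕ) + 1, hi⟩ ((hu' i).mono ?_)
          push_cast
          linarith
        exact h1
      · have hi2 : (i : ℕ) + 1 = r := by
          have := i.2
          omega
        rw [hi2, ha, Finset.smul_sum]
        refine hinfA_W_sum _ _ fun l _ => ?_
        rw [smul_smul]
        refine hinfA_W_single l (((hu' i).mul (hdeg l)).mono ?_)
        have hi3 : ((i : ℕ) : ℤ) + 1 = r := by exact_mod_cast hi2
        push_cast
        linarith

/-- a common denominator for the coordinates -/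
private theorem hinfA_den {k : Type*} [Field k] {ι : Type} [Fintype ι] [DecidableEq ι]
    (P : ℕ → ι → RatFunc k) (r : ℕ)
    (hli : LinearIndependent (RatFunc k) (fun i : Fin r => P i)) :
    ∃ mu : k[X], mu ≠ 0 ∧ ∀ (x : ι → k[X]) (u : Fin r → RatFunc k),
      (fun l => pol (x l)) = ∑ i, u i • P i → ∀ i, IsPol (pol mu * u i) := by
  classical
  obtain ⟨g, hg⟩ := LinearMap.exists_leftInverse_of_injective
    (Fintype.linearCombination (RatFunc k) (fun i : Fin r => P i))
    (LinearMap.ker_eq_bot.mpr hli.fintypeLinearCombination_injective)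
  choose p q hq hpq using fun (s : ι × Fin r) => exists_rep (g (Pi.single s.1 1) s.2)
  refine ⟨∏ s, q s, Finset.prod_ne_zero_iff.mpr fun s _ => hq s, ?_⟩
  intro x u hx i
  have h1 : u = g (fun l => pol (x l)) := by
    have h2 := LinearMap.congr_fun hg u
    rw [LinearMap.comp_apply, Fintype.linearCombination_apply, LinearMap.id_apply, ← hx] at h2
    exact h2.symm
  have h3 : (fun l => pol (x l)) = ∑ l, pol (x l) • (Pi.single l (1 : RatFunc k) : ι → RatFunc k) :=
    pi_eq_sum_univ' _
  rw [h1, h3, map_sum, Finset.sum_apply, Finset.mul_sum]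
  refine IsPol.sum _ _ fun l _ => ?_
  rw [map_smul, Pi.smul_apply, smul_eq_mul]
  refine ⟨(∏ s ∈ Finset.univ.erase (l, i), q s) * p (l, i) * x l, ?_⟩
  have h4 : pol (∏ s, q s) = pol (∏ s ∈ Finset.univ.erase (l, i), q s) * pol (q (l, i)) := by
    rw [← hinfA_pol_mul, Finset.prod_erase_mul _ _ (Finset.mem_univ _)]
  rw [hinfA_pol_mul, hinfA_pol_mul, ← hpq (l, i), h4]
  ring

theorem nilp_zero {A : Type u} [CommRing A] [IsDomain A] {k : Type u} [Field k] [Algebra A k]
    [IsFractionRing A k] {ι : Type} [Fintype ι] [DecidableEq ι] (Δ : A[X]) (hΔ : Δ ≠ 0)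
    (G : Matrix ι ι A[X])
    (hnil : ∀ b : A, b ≠ 0 → ∃ (κ : Type u) (_ : Field κ) (ψ : A →+* κ)
      (DK : RatFunc κ → RatFunc κ) (M : ℕ), ψ b ≠ 0 ∧ IsDer DK ∧
      (∀ p : κ[X], DK (pol p) = pol (derivative p)) ∧
      ∀ c, (nb DK (fp ψ Δ) (G.map (fp ψ)))^[M] c = 0)
    (v : ℕ → ι → k[X])
    (hv : ∀ j i, Δ.map (algebraMap A k) * v (j + 1) i = Δ.map (algebraMap A k) *
      derivative (v j i) + (G.map (mapRingHom (algebraMap A k))).mulVec (v j) i) :
    ∃ j, v j = 0 := by
  classical
  obtain ⟨dK, hdK⟩ := exists_dK (k := k)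
  obtain ⟨P, hP⟩ : ∃ P : ℕ → ι → RatFunc k, ∀ j, P j = fun l => pol (v j l) := ⟨_, fun _ => rfl⟩
  have hP0 : ∀ j, P j = 0 → v j = 0 := by
    intro j hj
    funext l
    have h1 := congrFun hj l
    rw [hP] at h1
    exact (map_eq_zero_iff _ pol_injective).mp h1
  obtain ⟨D0, hD0⟩ : ∃ D0 : k[X], D0 = Δ.map (algebraMap A k) := ⟨_, rfl⟩
  have hD0n : D0 ≠ 0 := by
    rw [hD0, Ne, Polynomial.map_eq_zero_iff (IsFractionRing.injective A k)]
    exact hΔ
  have hD0p : pol D0 ≠ 0 := by
    rw [Ne, map_eq_zero_iff _ pol_injective]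
    exact hD0n
  have hnab : ∀ j, hinfA_nabla dK (pol D0)⁻¹
      ((G.map (mapRingHom (algebraMap A k))).map (algebraMap k[X] (RatFunc k))) (P j) =
      P (j + 1) := by
    intro j
    funext l
    have h1 : pol _ = pol _ := congrArg (fun p : k[X] => pol p) (hv j l)
    rw [← hD0, hinfA_pol_add, hinfA_pol_mul, hinfA_pol_mul, ← hdK] at h1
    have h2 : pol ((G.map (mapRingHom (algebraMap A k))).mulVec (v j) l) =
        ((G.map (mapRingHom (algebraMap A k))).map (algebraMap k[X] (RatFunc k))).mulVec
          (P j) l := by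
      unfold Matrix.mulVec dotProduct
      rw [hinfA_pol_sum]
      refine Finset.sum_congr rfl fun i _ => ?_
      rw [hinfA_pol_mul, hP]
      rfl
    rw [h2] at h1
    show dK (P j l) + (pol D0)⁻¹ * _ = P (j + 1) l
    rw [hP (j + 1)]
    show _ = pol (v (j + 1) l)
    apply mul_left_cancel₀ hD0p
    rw [h1, mul_add, mul_inv_cancel_left₀ hD0p]
    rw [hP]
  -- the first dependent family
  have hex : ∃ N : ℕ, ¬ LinearIndependent (RatFunc k) (fun i : Fin N => P i) := by
    refine ⟨Fintype.card ι + 1, fun h => ?_⟩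
    have h1 := h.fintype_card_le_finrank
    rw [Fintype.card_fin, Module.finrank_fintype_fun_eq_card] at h1
    omega
  obtain ⟨N, hN, hmin⟩ : ∃ N : ℕ, ¬ LinearIndependent (RatFunc k) (fun i : Fin N => P i) ∧
      ∀ N' < N, LinearIndependent (RatFunc k) (fun i : Fin N' => P i) :=
    ⟨Nat.find hex, Nat.find_spec hex, fun N' h => by
      by_contra h2
      exact Nat.find_min hex h h2⟩
  cases N with
  | zero => exact absurd (linearIndependent_empty_type) hN
  | succ r =>
    have hli := hmin r (Nat.lt_succ_self r)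
    have hspan : P r ∈ Submodule.span (RatFunc k) (Set.range fun i : Fin r => P i) := by
      by_contra h
      apply hN
      rw [linearIndependent_finSucc']
      exact ⟨hli, h⟩
    rw [Submodule.mem_span_range_iff_exists_fun] at hspan
    obtain ⟨a, ha⟩ := hspan
    rcases Nat.eq_zero_or_pos r with hr | hr
    · subst hr
      refine ⟨0, hP0 0 ?_⟩
      rw [← ha]
      exact Finset.sum_empty
    · have hli' : LinearIndependent (RatFunc k) (fun (i : Fin r) (l : ι) => pol (v i l)) := by
        have h1 : (fun (i : Fin r) (l : ι) => pol (v i l)) = fun i : Fin r => P i := by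
          funext i
          rw [hP]
        rw [h1]
        exact hli
      have hdeg := hinf_degrees Δ hΔ G hnil v hv r hli' a (fun l => by
        have h1 := congrFun ha l
        rw [Finset.sum_apply, hP r] at h1
        have h2 : ∑ c, (a c • P c) l = pol (v r l) := h1
        rw [← h2]
        refine Finset.sum_congr rfl fun i _ => ?_
        rw [Pi.smul_apply, smul_eq_mul, hP])
      obtain ⟨mu, hmu, hmu'⟩ := hinfA_den P r hli
      refine ⟨r + mu.natDegree + 1, hP0 _ ?_⟩
      obtain ⟨u, hu, hu'⟩ := hinfA_step dK hdK _ _ P hnab r hr a ha.symm hdeg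
        (r + mu.natDegree + 1)
      have hz : ∀ i, u i = 0 := by
        intro i
        obtain ⟨s, hs⟩ := hmu' (v (r + mu.natDegree + 1)) u (by rw [← hu, hP]) i
        have h1 : Dle (pol mu) mu.natDegree := by
          rw [dle_pol_iff]
          exact Or.inr (le_refl _)
        have h2 := h1.mul (hu' i)
        rw [← hs, dle_pol_iff] at h2
        have h3 : s = 0 := by
          rcases h2 with h2 | h2
          · exact h2
          · exfalso
            have h4 := i.2
            push_cast at h2
            omega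
        rw [h3] at hs
        have h5 : pol mu * u i = 0 := by
          rw [← hs]
          exact map_zero _
        refine (mul_eq_zero.mp h5).resolve_left ?_
        rw [map_eq_zero_iff _ pol_injective]
        exact hmu
      rw [hu]
      refine Finset.sum_eq_zero fun i _ => ?_
      rw [hz i, zero_smul]

end MPadcLF
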