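import Pool.Agent.Lib.MP_adc574_ag_LF.Slope
import Pool.Agent.Lib.MP_adc574_ag_Cov.SpecDef

/-!
# JOB HinfD: the degrees of the coefficients of the cyclic relation

Paper 5.6, first half. Write `a i = α i / β` with `α i, β ∈ A[X]`, `β ≠ 0` (common denominator, first over `k[X]`, then
clear the constants). Multiply the whole sequence `v` by a constant `c ∈ A`, `c ≠ 0`, such that `v 0, …, v r` have
coefficients in `A` (the relations are preserved, `derivative (C c * x) = C c * derivative x`): `v j` is the image of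
`vA j : ι → A[X]`, for `j ≤ r`, with `Δ vA (j+1) = Δ (vA j)' + G (vA j)` for `j < r` and `β vA r = ∑ α i vA i`
(injectivity of `A[X] → RatFunc k`). Let `mu ∈ A[X]` be a nonzero `r × r` minor of `vA 0, …, vA (r-1)` (exists by
linear independence over `RatFunc k`: e.g. `Matrix.rank`, or an injection `Fin r → ι` such that the columns are
independent). `b` = product of the leading coefficients of `Δ`, `β`, `mu` and of the nonzero `α i`. Take `κ`, `ψ`,
`DK`, `M` from `hnil b` and apply `slope` over `RatFunc κ` to `V = ι → RatFunc κ`,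
`nabla = nb DK (fp ψ Δ) (G.map (fp ψ))`, `v = fp ψ ∘ vA 0`: `nabla^[j] v = fp ψ ∘ vA j` for `j ≤ r` (`fp ψ Δ ≠ 0`), the
images are independent (`fp ψ mu ≠ 0`), the relation has the coefficients `fp ψ (α i) / fp ψ β`, whose degrees are
`natDegree (α i) - natDegree β` (the leading coefficients survive), which is the degree of `a i`.
-/

set_option autoImplicit false

namespace MPadcLF

open Polynomial MPadcCov

universe u

private theorem HinfD_deg {κ : Type*} [Field κ] {p q : κ[X]} {r : RatFunc κ} (hq : q ≠ 0) (hp : p ≠ 0)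
    (h : pol q * r = pol p) : r ≠ 0 ∧ r.intDegree = (p.natDegree : ℤ) - q.natDegree := by
  have hp' : pol p ≠ 0 := by
    rw [Ne, pol, map_eq_zero_iff _ pol_injective]; exact hp
  have hq' : pol q ≠ 0 := by
    rw [Ne, pol, map_eq_zero_iff _ pol_injective]; exact hq
  have hr : r ≠ 0 := by
    rintro rfl
    rw [mul_zero] at h
    exact hp' h.symm
  refine ⟨hr, ?_⟩
  have h1 := congrArg RatFunc.intDegree h
  rw [RatFunc.intDegree_mul hq' hr, pol, pol, RatFunc.intDegree_polynomial,
    RatFunc.intDegree_polynomial] at h1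
  linarith

section clear

variable {A : Type*} [CommRing A] [IsDomain A] {k : Type*} [Field k] [Algebra A k]
    [IsFractionRing A k]

private theorem HinfD_one (p : k[X]) : ∃ c : A, c ≠ 0 ∧ ∃ q : A[X],
    q.map (algebraMap A k) = C (algebraMap A k c) * p := by
  obtain ⟨b, hb, h⟩ := IsLocalization.integerNormalization_spec (nonZeroDivisors A) p
  refine ⟨b, nonZeroDivisors.ne_zero hb, _, h.trans ?_⟩
  ext n
  rw [coeff_smul, coeff_C_mul, Algebra.smul_def]

private theorem HinfD_const {J : Type*} [Fintype J] (p : J → k[X]) : ∃ c : A, c ≠ 0 ∧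
    ∃ q : J → A[X], ∀ j, (q j).map (algebraMap A k) = C (algebraMap A k c) * p j := by
  classical
  choose b hb q hq using fun j => HinfD_one (A := A) (p j)
  refine ⟨∏ j, b j, Finset.prod_ne_zero_iff.2 fun j _ => hb j,
    fun j => C (∏ i ∈ Finset.univ.erase j, b i) * q j, fun j => ?_⟩
  rw [Polynomial.map_mul, Polynomial.map_C, hq, ← mul_assoc, ← C_mul, ← map_mul,
    Finset.prod_erase_mul _ _ (Finset.mem_univ j)]

private theorem HinfD_clear {J : Type*} [Fintype J] (f : J → RatFunc k) : ∃ δ : A[X], δ ≠ 0 ∧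
    ∃ g : J → A[X], ∀ j, pol (δ.map (algebraMap A k)) * f j = pol ((g j).map (algebraMap A k)) := by
  classical
  obtain ⟨b, hb⟩ := IsLocalization.exist_integer_multiples_of_finite (nonZeroDivisors k[X]) f
  choose p hp using hb
  have hb0 : (b : k[X]) ≠ 0 := nonZeroDivisors.ne_zero b.2
  obtain ⟨c, hc, q, hq⟩ := HinfD_const (A := A) (fun x : Option J => x.elim (b : k[X]) p)
  have hc' : algebraMap A k c ≠ 0 := by
    rw [Ne, map_eq_zero_iff _ (IsFractionRing.injective A k)]; exact hc
  refine ⟨q none, ?_, fun j => q (some j), fun j => ?_⟩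
  · intro h
    have h1 := hq none
    rw [h, Polynomial.map_zero] at h1
    exact mul_ne_zero (C_ne_zero.2 hc') hb0 h1.symm
  · rw [hq none, hq (some j)]
    show pol (C (algebraMap A k c) * (b : k[X])) * f j = pol (C (algebraMap A k c) * p j)
    have h1 : pol (p j) = pol (b : k[X]) * f j := by
      have h2 := hp j
      rw [Algebra.smul_def] at h2
      exact h2
    show algebraMap k[X] (RatFunc k) _ * f j = algebraMap k[X] (RatFunc k) _
    rw [map_mul, map_mul, mul_assoc]
    exact congrArg _ h1.symm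

end clear

private theorem HinfD_inv {K : Type*} [Field K] {ι : Type*} [Fintype ι] [DecidableEq ι] {r : ℕ}
    (w : Fin r → ι → K) (h : LinearIndependent K w) : ∃ N : ι → Fin r → K,
    ∀ i j, ∑ l, w i l * N l j = if i = j then 1 else 0 := by
  have h1 : LinearMap.ker (Fintype.linearCombination K w) = ⊥ := by
    rw [LinearMap.ker_eq_bot']
    intro g hg
    rw [Fintype.linearCombination_apply] at hg
    funext i
    exact Fintype.linearIndependent_iff.1 h g hg i
  obtain ⟨g, hg⟩ := LinearMap.exists_leftInverse_of_injective _ h1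
  refine ⟨fun l j => g (Pi.single l 1) j, fun i j => ?_⟩
  have h2 : g (w i) = Pi.single i 1 := by
    have h3 := LinearMap.congr_fun hg (Pi.single i 1)
    rw [LinearMap.comp_apply, Fintype.linearCombination_apply_single, one_smul] at h3
    exact h3
  have h4 : w i = ∑ l, w i l • (Pi.single l (1 : K) : ι → K) := by
    ext l'
    rw [Finset.sum_apply, Finset.sum_eq_single l']
    · rw [Pi.smul_apply, Pi.single_eq_same, smul_eq_mul, mul_one]
    · intro b _ hb
      rw [Pi.smul_apply, Pi.single_eq_of_ne (Ne.symm hb), smul_zero]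
    · intro hl
      exact absurd (Finset.mem_univ _) hl
  have h5 : g (w i) j = ∑ l, w i l * g (Pi.single l 1) j := by
    conv_lhs => rw [h4]
    rw [map_sum, Finset.sum_apply]
    refine Finset.sum_congr rfl fun l _ => ?_
    rw [map_smul, Pi.smul_apply, smul_eq_mul]
  rw [← h5, h2, Pi.single_apply]
  by_cases hij : i = j
  · rw [if_pos hij, if_pos hij.symm]
  · rw [if_neg hij, if_neg (Ne.symm hij)]

private theorem HinfD_ne {A κ : Type*} [CommRing A] [Field κ] (ψ : A →+* κ) {p : A[X]}
    (h : ψ p.leadingCoeff ≠ 0) : p.map ψ ≠ 0 ∧ (p.map ψ).natDegree = p.natDegree := by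
  refine ⟨?_, natDegree_map_of_leadingCoeff_ne_zero ψ h⟩
  intro h1
  apply h
  have h2 := coeff_map ψ (p := p) p.natDegree
  rw [h1, coeff_zero] at h2
  exact h2.symm

private theorem HinfD_fp {A κ : Type*} [CommRing A] [Field κ] (ψ : A →+* κ) {p : A[X]}
    (h : ψ p.leadingCoeff ≠ 0) : fp ψ p ≠ 0 := by
  rw [fp_apply, pol, Ne, map_eq_zero_iff _ pol_injective]
  exact (HinfD_ne ψ h).1

theorem hinf_degrees {A : Type u} [CommRing A] [IsDomain A] {k : Type u} [Field k] [Algebra A k]
    [IsFractionRing A k] {ι : Type} [Fintype ι] [DecidableEq ι] (Δ : A[X]) (hΔ : Δ ≠ 0)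
    (G : Matrix ι ι A[X])
    (hnil : ∀ b : A, b ≠ 0 → ∃ (κ : Type u) (_ : Field κ) (ψ : A →+* κ)
      (DK : RatFunc κ → RatFunc κ) (M : ℕ), ψ b ≠ 0 ∧ IsDer DK ∧
      (∀ p : κ[X], DK (pol p) = pol (derivative p)) ∧
      ∀ c, (nb DK (fp ψ Δ) (G.map (fp ψ)))^[M] c = 0)
    (v : ℕ → ι → k[X])
    (hv : ∀ j i, Δ.map (algebraMap A k) * v (j + 1) i = Δ.map (algebraMap A k) *
      derivative (v j i) + (G.map (mapRingHom (algebraMap A k))).mulVec (v j) i)
    (r : ℕ) (hli : LinearIndependent (RatFunc k) (fun (i : Fin r) (l : ι) => pol (v i l)))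
    (a : Fin r → RatFunc k) (ha : ∀ l, pol (v r l) = ∑ i : Fin r, a i * pol (v i l))
    (i : Fin r) : Dle (a i) ((i : ℕ) - r) := by
  classical
  have hinj : Function.Injective (algebraMap A k) := IsFractionRing.injective A k
  have hinjX : Function.Injective (Polynomial.map (algebraMap A k)) := Polynomial.map_injective _ hinj
  have hpolinj : Function.Injective (fun q : A[X] => pol (q.map (algebraMap A k))) :=
    pol_injective.comp hinjX
  -- the vectors
  obtain ⟨c, hc, vq, hvq⟩ := HinfD_const (A := A) (fun x : Fin (r + 1) × ι => v x.1 x.2)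
  set vA : ℕ → ι → A[X] := fun j l => if h : j < r + 1 then vq (⟨j, h⟩, l) else 0 with hvA
  have hvA' : ∀ j, j ≤ r → ∀ l, (vA j l).map (algebraMap A k) = C (algebraMap A k c) * v j l := by
    intro j hj l
    rw [hvA]
    show (if h : j < r + 1 then vq (⟨j, h⟩, l) else 0).map (algebraMap A k) = _
    rw [dif_pos (by omega : j < r + 1)]
    exact hvq (⟨j, by omega⟩, l)
  have hc' : algebraMap A k c ≠ 0 := by
    rw [Ne, map_eq_zero_iff _ hinj]; exact hc
  -- the derivatives
  have hrel : ∀ j, j < r → ∀ l, Δ * vA (j + 1) l = Δ * derivative (vA j l) + G.mulVec (vA j) l := by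
    intro j hj l
    apply hinjX
    rw [Polynomial.map_mul, Polynomial.map_add, Polynomial.map_mul, hvA' (j + 1) (by omega) l,
      ← derivative_map, hvA' j (by omega) l, derivative_C_mul]
    have h1 : (G.mulVec (vA j) l).map (algebraMap A k) =
        C (algebraMap A k c) * (G.map (mapRingHom (algebraMap A k))).mulVec (v j) l := by
      have h2 := RingHom.map_mulVec (mapRingHom (algebraMap A k)) G (vA j) l
      rw [coe_mapRingHom] at h2
      rw [h2]
      have h3 : (Polynomial.map (algebraMap A k) ∘ vA j) = C (algebraMap A k c) • v j := by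
        funext l'
        exact hvA' j (by omega) l'
      rw [h3, Matrix.mulVec_smul, Pi.smul_apply, smul_eq_mul, coe_mapRingHom]
    rw [h1]
    have h4 := hv j l
    linear_combination (C (algebraMap A k c)) * h4
  -- the coefficients
  obtain ⟨β, hβ, α, hα⟩ := HinfD_clear (A := A) a
  have hcyc : ∀ l, β * vA r l = ∑ i : Fin r, α i * vA i l := by
    intro l
    apply hpolinj
    show algebraMap k[X] (RatFunc k) _ = algebraMap k[X] (RatFunc k) _
    rw [Polynomial.map_mul, Polynomial.map_sum, map_mul, map_sum, hvA' r le_rfl l, map_mul]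
    have h1 := ha l
    have h2 : ∀ i : Fin r, algebraMap k[X] (RatFunc k) ((α i * vA i l).map (algebraMap A k)) =
        (algebraMap k[X] (RatFunc k) (β.map (algebraMap A k)) * algebraMap k[X] (RatFunc k)
          (C (algebraMap A k c))) * (a i * pol (v i l)) := by
      intro i
      rw [Polynomial.map_mul, map_mul, hvA' i i.2.le l, map_mul]
      have h3 := hα i
      rw [pol, pol] at h3
      rw [← h3]
      ring
    rw [Finset.sum_congr rfl fun i _ => h2 i, ← Finset.mul_sum, ← h1]
    ring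
  -- independence
  obtain ⟨N, hN⟩ := HinfD_inv _ hli
  obtain ⟨δ, hδ, n, hn⟩ := HinfD_clear (A := A) (fun x : ι × Fin r => N x.1 x.2)
  have hind : ∀ i j : Fin r, ∑ l, vA i l * n (l, j) = if i = j then C c * δ else 0 := by
    intro i j
    apply hpolinj
    show algebraMap k[X] (RatFunc k) _ = algebraMap k[X] (RatFunc k) _
    rw [Polynomial.map_sum, map_sum]
    have h2 : ∀ l, algebraMap k[X] (RatFunc k) ((vA i l * n (l, j)).map (algebraMap A k)) =
        (algebraMap k[X] (RatFunc k) (C (algebraMap A k c)) *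
          algebraMap k[X] (RatFunc k) (δ.map (algebraMap A k))) * (pol (v i l) * N l j) := by
      intro l
      rw [Polynomial.map_mul, map_mul, hvA' i i.2.le l, map_mul]
      have h3 := hn (l, j)
      rw [pol, pol] at h3
      rw [← h3]
      ring
    rw [Finset.sum_congr rfl fun l _ => h2 l, ← Finset.mul_sum, hN]
    by_cases hij : i = j
    · rw [if_pos hij, if_pos hij, mul_one, Polynomial.map_mul, Polynomial.map_C, map_mul]
    · rw [if_neg hij, if_neg hij, mul_zero, Polynomial.map_zero, map_zero]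
  have hmu : C c * δ ≠ 0 := mul_ne_zero (C_ne_zero.2 hc) hδ
  -- the specialization
  have hb : Δ.leadingCoeff * β.leadingCoeff * (C c * δ).leadingCoeff *
      ∏ i : Fin r, (if α i = 0 then 1 else (α i).leadingCoeff) ≠ 0 := by
    refine mul_ne_zero (mul_ne_zero (mul_ne_zero (leadingCoeff_ne_zero.2 hΔ)
      (leadingCoeff_ne_zero.2 hβ)) (leadingCoeff_ne_zero.2 hmu)) (Finset.prod_ne_zero_iff.2 ?_)
    intro i _
    by_cases h : α i = 0
    · rw [if_pos h]; exact one_ne_zero
    · rw [if_neg h]; exact leadingCoeff_ne_zero.2 h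
  obtain ⟨κ, _, ψ, DK, M, hψ, hD, hpol, hM⟩ := hnil _ hb
  rw [map_mul, map_mul, map_mul, map_prod] at hψ
  have hψ4 := right_ne_zero_of_mul hψ
  have hψ' := left_ne_zero_of_mul hψ
  have hψ3 := right_ne_zero_of_mul hψ'
  have hψ2 := right_ne_zero_of_mul (left_ne_zero_of_mul hψ')
  have hψ1 := left_ne_zero_of_mul (left_ne_zero_of_mul hψ')
  have hΔψ : fp ψ Δ ≠ 0 := HinfD_fp ψ hψ1
  have hβψ : fp ψ β ≠ 0 := HinfD_fp ψ hψ2
  have hmuψ : fp ψ (C c * δ) ≠ 0 := HinfD_fp ψ hψ3
  have hDfp : ∀ q : A[X], DK (fp ψ q) = fp ψ (derivative q) := by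
    intro q
    rw [fp_apply, fp_apply, hpol, derivative_map]
  set nabla := nb DK (fp ψ Δ) (G.map (fp ψ)) with hnabla
  have hadd : ∀ u v : ι → RatFunc κ, nabla (u + v) = nabla u + nabla v := by
    intro u v
    funext l
    rw [hnabla]
    show DK ((u + v) l) + (fp ψ Δ)⁻¹ * (G.map (fp ψ)).mulVec (u + v) l =
      (DK (u l) + (fp ψ Δ)⁻¹ * (G.map (fp ψ)).mulVec u l) +
        (DK (v l) + (fp ψ Δ)⁻¹ * (G.map (fp ψ)).mulVec v l)
    rw [Matrix.mulVec_add, Pi.add_apply, Pi.add_apply, hD.add]
    ring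
  have hsm : ∀ (r : RatFunc κ) (v : ι → RatFunc κ), nabla (r • v) = DK r • v + r • nabla v := by
    intro r v
    funext l
    rw [hnabla]
    show DK ((r • v) l) + (fp ψ Δ)⁻¹ * (G.map (fp ψ)).mulVec (r • v) l =
      DK r * v l + r * (DK (v l) + (fp ψ Δ)⁻¹ * (G.map (fp ψ)).mulVec v l)
    rw [Matrix.mulVec_smul, Pi.smul_apply, Pi.smul_apply, smul_eq_mul, smul_eq_mul, hD.mul]
    ring
  have hit : ∀ j, j ≤ r → nabla^[j] (fun l => fp ψ (vA 0 l)) = fun l => fp ψ (vA j l) := by
    intro j
    induction j with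
    | zero =>
      intro _
      rfl
    | succ j ih =>
      intro hj
      rw [Function.iterate_succ_apply', ih (by omega)]
      funext l
      rw [hnabla]
      show DK (fp ψ (vA j l)) + (fp ψ Δ)⁻¹ * (G.map (fp ψ)).mulVec (fun l => fp ψ (vA j l)) l = _
      have h1 : (G.map (fp ψ)).mulVec (fun l => fp ψ (vA j l)) l = fp ψ (G.mulVec (vA j) l) :=
        (RingHom.map_mulVec (fp ψ) G (vA j) l).symm
      rw [h1, hDfp]
      have h2 := congrArg (fp ψ) (hrel j (by omega) l)
      rw [map_mul, map_add, map_mul] at h2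
      field_simp
      rw [h2]
      ring
  have hli' : LinearIndependent (RatFunc κ)
      (fun i : Fin r => nabla^[(i : ℕ)] (fun l => fp ψ (vA 0 l))) := by
    rw [Fintype.linearIndependent_iff]
    intro g hg j
    have h1 : ∀ l, ∑ i : Fin r, g i * fp ψ (vA i l) = 0 := by
      intro l
      have h2 := congrFun hg l
      rw [Finset.sum_apply] at h2
      rw [← show (0 : ι → RatFunc κ) l = 0 from rfl, ← h2]
      refine Finset.sum_congr rfl fun i _ => ?_
      rw [hit i i.2.le]
      rfl
    have h3 : ∑ l, (∑ i : Fin r, g i * fp ψ (vA i l)) * fp ψ (n (l, j)) = g j * fp ψ (C c * δ) := by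
      have h4 : ∀ i : Fin r, ∑ l, g i * fp ψ (vA i l) * fp ψ (n (l, j)) =
          if i = j then g i * fp ψ (C c * δ) else 0 := by
        intro i
        have h5 := congrArg (fp ψ) (hind i j)
        rw [map_sum] at h5
        have h6 : ∑ l, g i * fp ψ (vA i l) * fp ψ (n (l, j)) = g i * ∑ l, fp ψ (vA i l * n (l, j)) := by
          rw [Finset.mul_sum]
          refine Finset.sum_congr rfl fun l _ => ?_
          rw [map_mul]
          ring
        rw [h6, h5]
        by_cases hij : i = j
        · rw [if_pos hij, if_pos hij]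
        · rw [if_neg hij, if_neg hij, map_zero, mul_zero]
      simp only [Finset.sum_mul]
      rw [Finset.sum_comm, Finset.sum_congr rfl fun i _ => h4 i, Finset.sum_ite_eq' Finset.univ j,
        if_pos (Finset.mem_univ j)]
    have h7 : g j * fp ψ (C c * δ) = 0 := by
      rw [← h3]
      refine Finset.sum_eq_zero fun l _ => ?_
      rw [h1, zero_mul]
    exact (mul_eq_zero.1 h7).resolve_right hmuψ
  have ha' : nabla^[r] (fun l => fp ψ (vA 0 l)) =
      ∑ i : Fin r, ((fp ψ β)⁻¹ * fp ψ (α i)) • nabla^[(i : ℕ)] (fun l => fp ψ (vA 0 l)) := by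
    rw [hit r le_rfl]
    funext l
    rw [Finset.sum_apply]
    have h1 : ∀ i : Fin r, (((fp ψ β)⁻¹ * fp ψ (α i)) • nabla^[(i : ℕ)] (fun l => fp ψ (vA 0 l))) l =
        (fp ψ β)⁻¹ * fp ψ (α i * vA i l) := by
      intro i
      rw [hit i i.2.le, map_mul, ← mul_assoc]
      rfl
    rw [Finset.sum_congr rfl fun i _ => h1 i, ← Finset.mul_sum, ← map_sum, ← hcyc l, map_mul,
      inv_mul_cancel_left₀ hβψ]
  have hfin := slope DK hD hpol nabla hadd hsm (fun l => fp ψ (vA 0 l)) M
    (hM _) r hli' (fun i => (fp ψ β)⁻¹ * fp ψ (α i)) ha' i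
  -- comparison of the degrees
  have hβk : β.map (algebraMap A k) ≠ 0 := by
    rw [Ne, Polynomial.map_eq_zero_iff hinj]; exact hβ
  by_cases hαi : α i = 0
  · left
    have h1 := hα i
    rw [hαi, Polynomial.map_zero, pol, pol, map_zero] at h1
    refine (mul_eq_zero.1 h1).resolve_left ?_
    rw [map_eq_zero_iff _ pol_injective]
    exact hβk
  · have hαk : (α i).map (algebraMap A k) ≠ 0 := by
      rw [Ne, Polynomial.map_eq_zero_iff hinj]; exact hαi
    obtain ⟨-, h1⟩ := HinfD_deg hβk hαk (hα i)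
    have hψα : ψ (α i).leadingCoeff ≠ 0 := by
      have h2 := (Finset.prod_ne_zero_iff.1 hψ4) i (Finset.mem_univ i)
      rw [if_neg hαi] at h2
      exact h2
    obtain ⟨h3, h4⟩ := HinfD_ne ψ hψα
    obtain ⟨h5, h6⟩ := HinfD_ne ψ hψ2
    obtain ⟨h7, h8⟩ := HinfD_deg (r := (fp ψ β)⁻¹ * fp ψ (α i)) h5 h3 (by
      rw [← fp_apply, ← fp_apply, mul_inv_cancel_left₀ hβψ])
    right
    have h9 := hfin.resolve_left h7
    rw [h8, h4, h6] at h9
    rw [h1, natDegree_map_eq_of_injective hinj, natDegree_map_eq_of_injective hinj]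
    exact h9

end MPadcLF
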