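import Pool.Agent.Lib.MP_adc574_ag_LF.InfB
import Pool.Agent.Lib.MP_adc574_ag_Cov.Birk

/-!
# JOB Inf: derivations and orders at infinity

`BDeg e (aa w n) m z` says that the `i`-th coordinate of `z` has degree at most `m - w i`. Write `BD m z`
for it.
* `bdeg_d`: `d (∑ r i y ^ i) = ∑ dK (r i) y ^ i + ∑ r i d (y ^ i)`,
  `d (y ^ i) = - i y ^ (i - 1) ev (px F) / F_Y` has `BD (w (i - 1) + (w n - 1) - w (n - 1))` by `bdeg_div`.
* `bdeg_D`: the same, `pT δ F` has weight `≤ w n`, `DK` does not raise degrees.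
* `bdeg_two`: `BD 0 z → BD (-2) (d z)`: `z = ∑ r i x ^ (- w i) y ^ i` with `Dle (r i) 0`. `dK` maps
  `Dle r 0` to `Dle (dK r) (-2)`. And `x dy - w y` has `BD (w - 1)`:
  `(x dy - w y) F_Y = - ev (x F_x + w Y F_Y)`, `wt_euler`, `bdeg_div`. So `d (x ^ (- w) y) =
  x ^ (- w - 1) (x dy - w y)` has `BD (-2)`, and `d (ζ ^ i) = i ζ ^ (i - 1) dζ`.
-/

set_option autoImplicit false

namespace MPadcLF

open Polynomial MPadcCov

variable {κ : Type*} [Field κ] {E : Type*} [Field E] [Algebra (RatFunc κ) E] {w n : ℕ}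
  {F : κ[X][X]} {y : E} {e : Module.Basis (Fin n) (RatFunc κ) E} {dK : RatFunc κ → RatFunc κ}
  {d : Derivation ℤ E E}

/-- A derivation which lowers the degrees of the polynomials by `k` lowers all degrees by `k`. -/
private theorem Inf_dle (Δ : RatFunc κ → RatFunc κ) (hadd : ∀ r s, Δ (r + s) = Δ r + Δ s)
    (hmul : ∀ r s, Δ (r * s) = r * Δ s + s * Δ r) (k : ℤ)
    (hΔ : ∀ q : κ[X], Dle (Δ (pol q)) (q.natDegree - k)) {r : RatFunc κ} {m : ℤ} (hr : Dle r m) :
    Dle (Δ r) (m - k) := by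
  have h00 : Δ 0 = 0 := by
    have := hadd 0 0
    rw [add_zero] at this
    exact left_eq_add.1 this
  obtain ⟨p, q, hq, h⟩ := exists_rep r
  rcases eq_or_ne r 0 with h0 | h0
  · rw [h0, h00]; exact Dle.zero _
  apply dle_of_mul hq
  have h1 : pol q * Δ r = Δ (pol p) - Δ (pol q) * r := by
    rw [← h, hmul]
    ring
  have hp0 : p ≠ 0 := by
    rintro rfl
    rw [pol, pol, map_zero] at h
    rcases mul_eq_zero.1 h with h2 | h2
    · rw [map_eq_zero_iff _ pol_injective] at h2; exact hq h2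
    · exact h0 h2
  have hp : (p.natDegree : ℤ) ≤ q.natDegree + m := by
    have h2 : Dle (pol p) (q.natDegree + m) := by
      rw [← h]
      exact Dle.mul (dle_pol_iff.2 (Or.inr le_rfl)) hr
    exact (dle_pol_iff.1 h2).resolve_left hp0
  rw [h1]
  apply Dle.sub
  · exact (hΔ p).mono (by linarith)
  · exact ((hΔ q).mul hr).mono (by linarith)

private theorem KL.Inf_dK (H : KL w n F y e dK d) {r : RatFunc κ} {m : ℤ} (hr : Dle r m) :
    Dle (dK r) (m - 1) := by
  refine Inf_dle dK H.dK_add H.dK_mul 1 (fun q => ?_) hr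
  rw [H.dK_pol, dle_pol_iff]
  by_cases h0 : derivative q = 0
  · exact Or.inl h0
  · right
    have h1 : q.natDegree ≠ 0 := by
      intro h2
      apply h0
      rw [eq_C_of_natDegree_eq_zero h2, derivative_C]
    have h3 := natDegree_derivative_lt h1
    omega

private theorem KD.Inf_DK {δ : κ → κ} {DK : RatFunc κ → RatFunc κ} {D : Derivation ℤ E E}
    (H : KD w n F y e δ dK DK d D) {r : RatFunc κ} {m : ℤ} (hr : Dle r m) : Dle (DK r) m := by
  have h := Inf_dle DK H.DK_add H.DK_mul 0 (fun q => ?_) hr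
  · rw [sub_zero] at h
    exact h
  · rw [H.DK_pol, dle_pol_iff]
    right
    have h1 : (cm δ q).natDegree ≤ q.natDegree := by
      rw [natDegree_le_iff_coeff_eq_zero]
      intro N hN
      rw [coeff_cm (IsDer.zero H.der), coeff_eq_zero_of_natDegree_lt hN, IsDer.zero H.der]
    omega

/-- the basis vectors -/
private theorem KL.Inf_e (H : KL w n F y e dK d) (i : Fin n) : e i = ev y ((X : κ[X][X]) ^ (i : ℕ)) := by
  rw [map_pow, ev_X, H.basis]

private theorem Inf_be (i : Fin n) : BDeg e (aa w n) ((w * (i : ℕ) : ℕ) : ℤ) (e i) := by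
  intro j
  rw [e.repr_self, Finsupp.single_apply]
  split_ifs with h
  · subst h
    right
    rw [RatFunc.intDegree_one, sub_self]
  · exact Dle.zero _

private theorem KL.Inf_zero (_H : KL w n F y e dK d) {h : κ[X][X]} {m : ℕ} (hh : WD w m h) (hm : m < w) :
    py h = 0 := by
  rcases hh.natDegree_le with h1 | h1
  · have h2 : h.natDegree = 0 := by
      by_contra h3
      have h4 : w * 1 ≤ w * h.natDegree := Nat.mul_le_mul_left w (by omega)
      omega
    rw [eq_C_of_natDegree_eq_zero h2, py_C]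
  · rw [h1]
    exact IsDer.zero isDer_py

private theorem KL.Inf_zero' (H : KL w n F y e dK d) {h : κ[X][X]} (hh : WD w 0 h) : px h = 0 := by
  have hw := H.hw
  rcases hh.natDegree_le with h1 | h1
  · have h2 : h.natDegree = 0 := by
      by_contra h3
      have h4 : w * 1 ≤ w * h.natDegree := Nat.mul_le_mul_left w (by omega)
      omega
    have h5 : (h.coeff 0).natDegree = 0 := by
      by_cases h6 : h.coeff 0 = 0
      · rw [h6, natDegree_zero]
      · have := hh 0 h6
        omega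
    rw [eq_C_of_natDegree_eq_zero h2, px_C, eq_C_of_natDegree_eq_zero h5, derivative_C, C_0]
  · rw [h1]
    exact IsDer.zero isDer_px

private theorem KL.Inf_pyF (H : KL w n F y e dK d) : WD w (w * (n - 1)) (py F) := by
  have h := H.wt.wd.ofpy
  have h1 : w * n - w = w * (n - 1) := by rw [Nat.mul_sub, mul_one]
  rw [h1] at h
  exact h

private theorem KL.Inf_cast (H : KL w n F y e dK d) (m : ℤ) :
    m + (w : ℤ) * (n - 1) = m + ((w * (n - 1) : ℕ) : ℤ) := by
  have := H.hn
  push_cast [Nat.cast_sub this]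
  ring

/-- The degree of the derivative of a function. -/
private theorem KL.Inf_dev (H : KL w n F y e dK d) {h : κ[X][X]} {m : ℕ} (hh : WD w m h) :
    BDeg e (aa w n) ((m : ℤ) - 1) (d (ev y h)) := by
  refine H.bdeg_div ?_
  rw [H.d_ev]
  have hw := H.hw
  have hn := H.hn
  rcases Nat.eq_zero_or_pos m with hm | hm
  · subst hm
    have h1 : br F h = 0 := by
      unfold br
      rw [H.Inf_zero' hh, H.Inf_zero hh hw, zero_mul, zero_mul, sub_zero]
    rw [h1, map_zero]
    exact BDeg.zero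
  · rw [H.Inf_cast]
    have h1 : WD w (m - 1 + w * (n - 1)) (br F h) := by
      unfold br
      refine WD.sub (WD.mul hh.ofpx H.Inf_pyF) ?_
      rcases Nat.lt_or_ge m w with hmw | hmw
      · rw [H.Inf_zero hh hmw, zero_mul]
        exact WD.zero
      · refine WD.mono (WD.mul hh.ofpy H.wt.wd.ofpx) ?_
        have h2 : w * n = w * (n - 1) + w := by
          obtain ⟨l, rfl⟩ : ∃ l, n = l + 1 := ⟨n - 1, by omega⟩
          rw [Nat.add_sub_cancel]
          ring
        omega
    have h2 := H.bdeg_ev h1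
    refine BDeg.mono h2 (le_of_eq ?_)
    push_cast [Nat.cast_sub (show 1 ≤ m from hm)]
    ring

private theorem Inf_expand (z : E) : z = ∑ i, inE E (e.repr z i) * e i := by
  conv_lhs => rw [← e.sum_repr z]
  exact Finset.sum_congr rfl fun i _ => by rw [Algebra.smul_def]

theorem KL.bdeg_d (H : KL w n F y e dK d) {z : E} {m : ℤ} (hz : BDeg e (aa w n) m z) :
    BDeg e (aa w n) (m - 1) (d z) := by
  have h1 : d z = ∑ i, (inE E (e.repr z i) * d (e i) + inE E (dK (e.repr z i)) * e i) := by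
    conv_lhs => rw [Inf_expand (e := e) z]
    rw [map_sum]
    refine Finset.sum_congr rfl fun i _ => ?_
    rw [Derivation.leibniz, smul_eq_mul, smul_eq_mul, inE, H.d_alg]
    ring
  rw [h1]
  refine BDeg.sum _ _ fun i _ => BDeg.add ?_ ?_
  · have h2 : BDeg e (aa w n) (((w * (i : ℕ) : ℕ) : ℤ) - 1) (d (e i)) := by
      rw [H.Inf_e i]
      exact H.Inf_dev (WD.ofX_pow _)
    have h3 := BDeg.smul (hz i) h2
    refine BDeg.mono h3 (le_of_eq ?_)
    ring
  · have h3 := BDeg.smul (H.Inf_dK (hz i)) (Inf_be (e := e) (w := w) i)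
    refine BDeg.mono h3 (le_of_eq ?_)
    ring

theorem KL.bdeg_d_iterate (H : KL w n F y e dK d) {z : E} {m : ℤ} (hz : BDeg e (aa w n) m z)
    (j : ℕ) : BDeg e (aa w n) (m - j) (d^[j] z) := by
  induction j with
  | zero =>
    rw [Function.iterate_zero, id, Nat.cast_zero, sub_zero]
    exact hz
  | succ j ih =>
    rw [Function.iterate_succ_apply']
    refine BDeg.mono (H.bdeg_d ih) (le_of_eq ?_)
    push_cast
    ring

/-- constants plus degree at most `- 1` -/
private theorem KL.Inf_dK2 (H : KL w n F y e dK d) {r : RatFunc κ} (hr : Dle r 0) :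
    Dle (dK r) (-2) := by
  obtain ⟨c, hc⟩ := Birk.exists_residue hr
  have h1 : r = pol (C c) + (r - pol (C c)) := by ring
  rw [h1, H.dK_add, H.dK_pol, derivative_C, pol, map_zero, zero_add]
  exact (H.Inf_dK hc).mono (by norm_num)

private theorem Inf_xz (m : ℤ) : Dle (Birk.xz m : RatFunc κ) m := Or.inr (Birk.intDegree_xz m).le

theorem KL.bdeg_two (H : KL w n F y e dK d) {z : E} (hz : BDeg e (aa w n) 0 z) :
    BDeg e (aa w n) (-2) (d z) := by
  have hw := H.hw
  have hn := H.hn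
  obtain ⟨ζ, hζ⟩ : ∃ ζ : E, ζ = inE E (Birk.xz (-(w : ℤ)) : RatFunc κ) * y := ⟨_, rfl⟩
  -- the derivative of `x`
  have hyd : inE E (pol (X : κ[X])) * d y - (w : E) * y =
      inE E (Birk.xz ((w : ℤ) + 1) : RatFunc κ) * d ζ := by
    have h1 : y = inE E (pol (X ^ w : κ[X])) * ζ := by
      rw [hζ, ← mul_assoc, ← Birk.xz_nat, inE, inE, ← map_mul, ← Birk.xz_add, add_neg_cancel, Birk.xz_zero,
        map_one, one_mul]
    have h2 : d y = inE E (pol (X ^ w : κ[X])) * d ζ + ζ * inE E (pol (C (w : κ) * X ^ (w - 1))) := by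
      conv_lhs => rw [h1]
      rw [Derivation.leibniz, smul_eq_mul, smul_eq_mul, inE, H.d_alg, H.dK_pol, derivative_X_pow]
    have h3 : inE E (pol (X : κ[X])) * inE E (pol (X ^ w : κ[X])) = inE E (Birk.xz ((w : ℤ) + 1) : RatFunc κ) := by
      rw [inE, inE, ← map_mul, pol, pol, ← map_mul, ← pow_succ', ← Nat.cast_succ, Birk.xz_nat]
    have h4 : inE E (pol (X : κ[X])) * inE E (pol (C (w : κ) * X ^ (w - 1))) =
        (w : E) * inE E (pol (X ^ w : κ[X])) := by
      have h5 : (X : κ[X]) * (C (w : κ) * X ^ (w - 1)) = (w : κ[X]) * X ^ w := by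
        have h6 : (X : κ[X]) ^ w = X * X ^ (w - 1) := by
          rw [← pow_succ']
          congr 1
          omega
        rw [h6, C_eq_natCast]
        ring
      rw [inE, inE, ← map_mul, pol, pol, ← map_mul, h5, map_mul, map_mul, map_natCast, map_natCast]
    rw [h2, ← h3]
    calc inE E (pol (X : κ[X])) * (inE E (pol (X ^ w : κ[X])) * d ζ +
            ζ * inE E (pol (C (w : κ) * X ^ (w - 1)))) - (w : E) * y
        = inE E (pol (X : κ[X])) * inE E (pol (X ^ w : κ[X])) * d ζ +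
            ζ * (inE E (pol (X : κ[X])) * inE E (pol (C (w : κ) * X ^ (w - 1)))) - (w : E) * y := by ring
      _ = inE E (pol (X : κ[X])) * inE E (pol (X ^ w : κ[X])) * d ζ +
            (w : E) * (inE E (pol (X ^ w : κ[X])) * ζ) - (w : E) * y := by rw [h4]; ring
      _ = inE E (pol (X : κ[X])) * inE E (pol (X ^ w : κ[X])) * d ζ := by rw [← h1]; ring
  -- the degree of `x dy - w y`
  have hxy : BDeg e (aa w n) ((w : ℤ) - 1) (inE E (pol (X : κ[X])) * d y - (w : E) * y) := by
    refine H.bdeg_div ?_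
    have h1 : d y * ev y (py F) = - ev y (px F) := by
      have h2 := H.d_ev (X : κ[X][X])
      rw [ev_X] at h2
      rw [h2, br, px_X, py_X, zero_mul, one_mul, zero_sub, map_neg]
    have h2 : (inE E (pol (X : κ[X])) * d y - (w : E) * y) * ev y (py F) =
        - ev y (C X * px F + (w : κ[X][X]) * X * py F - ((w * n : ℕ) : κ[X][X]) * F) := by
      rw [map_sub, map_add, map_mul, map_mul, map_mul, map_mul, ev_C, ev_X, H.root, map_natCast, mul_zero,
        sub_zero, sub_mul, mul_assoc, h1]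
      ring
    rw [h2, H.Inf_cast]
    refine BDeg.neg ?_
    refine BDeg.mono (H.bdeg_ev (wt_euler H.wt)) (le_of_eq ?_)
    have h3 : w * n = w * (n - 1) + w := by
      obtain ⟨l, rfl⟩ : ∃ l, n = l + 1 := ⟨n - 1, by omega⟩
      rw [Nat.add_sub_cancel]
      ring
    omega
  -- the derivative of `ζ`
  have hdζ : BDeg e (aa w n) (-2) (d ζ) := by
    have h1 : d ζ = inE E (Birk.xz (-((w : ℤ) + 1)) : RatFunc κ) *
        (inE E (pol (X : κ[X])) * d y - (w : E) * y) := by
      rw [hyd, ← mul_assoc, inE, inE, ← map_mul, Birk.xz_neg_mul, map_one, one_mul]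
    rw [h1]
    refine BDeg.mono (BDeg.smul (Inf_xz _) hxy) (le_of_eq ?_)
    ring
  -- the powers of `ζ`
  have hζe : ∀ i : Fin n, ζ ^ (i : ℕ) = inE E (Birk.xz (-((w * (i : ℕ) : ℕ) : ℤ)) : RatFunc κ) * e i := by
    intro i
    rw [hζ, mul_pow, H.basis, inE, ← map_pow]
    congr 2
    unfold Birk.xz
    rw [← zpow_natCast, ← zpow_mul]
    congr 1
    push_cast
    ring
  have hζi : ∀ i : Fin n, BDeg e (aa w n) 0 (ζ ^ (i : ℕ)) := by
    intro i
    rw [hζe i]
    refine BDeg.mono (BDeg.smul (Inf_xz _) (Inf_be (e := e) (w := w) i)) (le_of_eq ?_)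
    ring
  have h1 : z = ∑ i : Fin n, inE E ((Birk.xz ((w * (i : ℕ) : ℕ) : ℤ) : RatFunc κ) * e.repr z i) * ζ ^ (i : ℕ) := by
    conv_lhs => rw [Inf_expand (e := e) z]
    refine Finset.sum_congr rfl fun i _ => ?_
    have h2 : (Birk.xz (-((w * (i : ℕ) : ℕ) : ℤ)) : RatFunc κ) * Birk.xz ((w * (i : ℕ) : ℕ) : ℤ) = 1 :=
      Birk.xz_neg_mul _
    rw [hζe i, ← mul_assoc, inE, inE, inE, ← map_mul]
    congr 2
    calc e.repr z i = ((Birk.xz (-((w * (i : ℕ) : ℕ) : ℤ)) : RatFunc κ) * Birk.xz ((w * (i : ℕ) : ℕ) : ℤ)) *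
            e.repr z i := by rw [h2, one_mul]
      _ = _ := by ring
  have hs : ∀ i : Fin n, Dle ((Birk.xz ((w * (i : ℕ) : ℕ) : ℤ) : RatFunc κ) * e.repr z i) 0 := by
    intro i
    refine ((Inf_xz _).mul (hz i)).mono (le_of_eq ?_)
    show ((w * (i : ℕ) : ℕ) : ℤ) + (0 - ((w * (i : ℕ) : ℕ) : ℤ)) = 0
    ring
  have h2 : d z = ∑ i : Fin n,
      (inE E ((Birk.xz ((w * (i : ℕ) : ℕ) : ℤ) : RatFunc κ) * e.repr z i) * d (ζ ^ (i : ℕ)) +
        inE E (dK ((Birk.xz ((w * (i : ℕ) : ℕ) : ℤ) : RatFunc κ) * e.repr z i)) * ζ ^ (i : ℕ)) := by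
    conv_lhs => rw [h1]
    rw [map_sum]
    refine Finset.sum_congr rfl fun i _ => ?_
    rw [Derivation.leibniz, smul_eq_mul, smul_eq_mul, inE, H.d_alg]
    ring
  rw [h2]
  refine BDeg.sum _ _ fun i _ => BDeg.add ?_ ?_
  · have h3 : BDeg e (aa w n) (-2) (d (ζ ^ (i : ℕ))) := by
      rw [Derivation.leibniz_pow, smul_eq_mul, nsmul_eq_mul]
      rcases Nat.eq_zero_or_pos (i : ℕ) with hi | hi
      · rw [hi, Nat.cast_zero, zero_mul]
        exact BDeg.zero
      · obtain ⟨i', hi'⟩ : ∃ i' : Fin n, (i' : ℕ) = (i : ℕ) - 1 := ⟨⟨(i : ℕ) - 1, by omega⟩, rfl⟩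
        have h4 := H.bdeg_mul (hζi i') hdζ
        rw [hi'] at h4
        have h5 : Dle (pol (C ((i : ℕ) : κ)) : RatFunc κ) 0 := by
          rw [dle_pol_iff]
          right
          rw [natDegree_C]
          exact le_rfl
        have h6 := BDeg.smul h5 h4
        have h7 : inE E (pol (C ((i : ℕ) : κ)) : RatFunc κ) = ((i : ℕ) : E) := by
          rw [C_eq_natCast, pol, map_natCast, inE, map_natCast]
        rw [h7] at h6
        exact BDeg.mono h6 (by norm_num)
    exact BDeg.mono (BDeg.smul (hs i) h3) (by norm_num)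
  · exact BDeg.mono (BDeg.smul (H.Inf_dK2 (hs i)) (hζi i)) (by norm_num)

theorem KD.bdeg_D {δ : κ → κ} {DK : RatFunc κ → RatFunc κ} {D : Derivation ℤ E E}
    (H : KD w n F y e δ dK DK d D) {z : E} {m : ℤ} (hz : BDeg e (aa w n) m z) :
    BDeg e (aa w n) m (D z) := by
  have hw := H.hw
  have hn := H.hn
  have hdev : ∀ {h : κ[X][X]} {m : ℕ}, WD w m h → BDeg e (aa w n) (m : ℤ) (D (ev y h)) := by
    intro h m hh
    refine H.toKL.bdeg_div ?_
    rw [H.D_ev, H.toKL.Inf_cast]
    have h1 : WD w (m + w * (n - 1)) (pT δ h * py F - py h * pT δ F) := by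
      refine WD.sub (WD.mul (hh.ofpT H.der) H.toKL.Inf_pyF) ?_
      rcases Nat.lt_or_ge m w with hmw | hmw
      · rw [H.toKL.Inf_zero hh hmw, zero_mul]
        exact WD.zero
      · refine WD.mono (WD.mul hh.ofpy (H.wt.wd.ofpT H.der)) ?_
        have h2 : w * n = w * (n - 1) + w := by
          obtain ⟨l, rfl⟩ : ∃ l, n = l + 1 := ⟨n - 1, by omega⟩
          rw [Nat.add_sub_cancel]
          ring
        omega
    refine BDeg.mono (H.toKL.bdeg_ev h1) (le_of_eq ?_)
    push_cast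
    ring
  have h1 : D z = ∑ i, (inE E (e.repr z i) * D (e i) + inE E (DK (e.repr z i)) * e i) := by
    conv_lhs => rw [Inf_expand (e := e) z]
    rw [map_sum]
    refine Finset.sum_congr rfl fun i _ => ?_
    rw [Derivation.leibniz, smul_eq_mul, smul_eq_mul, inE, H.D_alg]
    ring
  rw [h1]
  refine BDeg.sum _ _ fun i _ => BDeg.add ?_ ?_
  · have h2 : BDeg e (aa w n) ((w * (i : ℕ) : ℕ) : ℤ) (D (e i)) := by
      rw [H.toKL.Inf_e i]
      exact hdev (WD.ofX_pow _)
    have h3 := BDeg.smul (hz i) h2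
    refine BDeg.mono h3 (le_of_eq ?_)
    ring
  · have h3 := BDeg.smul (H.Inf_DK (hz i)) (Inf_be (e := e) (w := w) i)
    refine BDeg.mono h3 (le_of_eq ?_)
    ring

end MPadcLF
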