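import Pool.Agent.Lib.MP_adc574_ag_LF.Ev

/-!
# JOB InfA: orders at infinity

`BDeg e (aa w n) m z` says that the `i`-th coordinate of `z` has degree at most `m - w i`. Write `BD m z`
for it.
* `bdeg_ev`: `WD.mod`, `KL.ev_mod`, `KL.repr_ev`, `dle_pol_iff`.
* `bdeg_mul`: `repr_mul'`, and `y ^ (i + j)` has `BD (w (i + j))` (`bdeg_ev`, `WD.ofX_pow`).
* `bdeg_tr`: `tr_eq_sum`, `bdeg_mul`.
-/

set_option autoImplicit false

namespace MPadcLF

open Polynomial MPadcCov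

section general

variable {κ : Type*} [Field κ] {E : Type*} [CommRing E] [Algebra (RatFunc κ) E] {n : ℕ}
  {e : Module.Basis (Fin n) (RatFunc κ) E} {a : Fin n → ℕ} {m m' : ℤ} {z z' : E}

theorem BDeg.add (hz : BDeg e a m z) (hz' : BDeg e a m z') : BDeg e a m (z + z') := by
  intro i
  rw [map_add, Finsupp.add_apply]
  exact (hz i).add (hz' i)

theorem BDeg.neg (hz : BDeg e a m z) : BDeg e a m (-z) := by
  intro i
  rw [map_neg, Finsupp.neg_apply]
  exact (hz i).neg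

theorem BDeg.sub (hz : BDeg e a m z) (hz' : BDeg e a m z') : BDeg e a m (z - z') := by
  intro i
  rw [map_sub, Finsupp.sub_apply]
  exact (hz i).sub (hz' i)

theorem BDeg.zero : BDeg e a m (0 : E) := by
  intro i
  rw [map_zero, Finsupp.zero_apply]
  exact Dle.zero _

theorem BDeg.mono (hz : BDeg e a m z) (hm : m ≤ m') : BDeg e a m' z := by
  intro i
  exact (hz i).mono (by linarith)

theorem BDeg.sum {ι : Type*} (s : Finset ι) (f : ι → E) (h : ∀ i ∈ s, BDeg e a m (f i)) :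
    BDeg e a m (∑ i ∈ s, f i) :=
  Finset.sum_induction _ (fun z => BDeg e a m z) (fun _ _ hz hz' => BDeg.add hz hz') BDeg.zero h

theorem BDeg.smul {r : RatFunc κ} (hr : Dle r m') (hz : BDeg e a m z) :
    BDeg e a (m + m') (inE E r * z) := by
  intro i
  rw [repr_inE_mul]
  exact (hr.mul (hz i)).mono (by linarith)

theorem exists_bdeg (z : E) (a : Fin n → ℕ) : ∃ m : ℤ, BDeg e a m z := by
  refine ⟨∑ i, (|(e.repr z i).intDegree| + (a i : ℤ)), fun i => Or.inr ?_⟩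
  have h1 : |(e.repr z i).intDegree| + (a i : ℤ) ≤ ∑ i, (|(e.repr z i).intDegree| + (a i : ℤ)) :=
    Finset.single_le_sum (f := fun i => |(e.repr z i).intDegree| + (a i : ℤ))
      (fun j _ => add_nonneg (abs_nonneg _) (Int.natCast_nonneg _)) (Finset.mem_univ i)
  have h2 := le_abs_self (e.repr z i).intDegree
  linarith

end general

variable {κ : Type*} [Field κ] {E : Type*} [Field E] [Algebra (RatFunc κ) E] {w n : ℕ}
  {F : κ[X][X]} {y : E} {e : Module.Basis (Fin n) (RatFunc κ) E} {dK : RatFunc κ → RatFunc κ}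
  {d : Derivation ℤ E E}

theorem KL.bdeg_ev (H : KL w n F y e dK d) {h : κ[X][X]} {m : ℕ} (hh : WD w m h) :
    BDeg e (aa w n) m (ev y h) := by
  intro i
  have hF1 : F ≠ 1 := by
    intro h1
    have h2 := H.wt.deg
    rw [h1, natDegree_one] at h2
    have h3 := H.hn
    omega
  have hd : (h %ₘ F).natDegree < n := by
    have h1 := natDegree_modByMonic_lt h H.wt.monic hF1
    rw [H.wt.deg] at h1
    exact h1
  rw [← H.ev_mod h, H.repr_ev hd i, dle_pol_iff]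
  by_cases h0 : (h %ₘ F).coeff (i : ℕ) = 0
  · exact Or.inl h0
  · right
    have h1 := WD.mod H.wt hh (i : ℕ) h0
    have h2 : (((h %ₘ F).coeff (i : ℕ)).natDegree : ℤ) + ((w * (i : ℕ) : ℕ) : ℤ) ≤ m := by
      exact_mod_cast h1
    show (((h %ₘ F).coeff (i : ℕ)).natDegree : ℤ) ≤ (m : ℤ) - ((w * (i : ℕ) : ℕ) : ℤ)
    linarith

private theorem KL.bdeg_pow (H : KL w n F y e dK d) (i : ℕ) :
    BDeg e (aa w n) ((w * i : ℕ) : ℤ) (y ^ i) := by
  have h1 := H.bdeg_ev (WD.ofX_pow (R := κ) (w := w) i)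
  rw [map_pow, ev_X] at h1
  exact h1

theorem KL.bdeg_mul (H : KL w n F y e dK d) {z z' : E} {m m' : ℤ} (hz : BDeg e (aa w n) m z)
    (hz' : BDeg e (aa w n) m' z') : BDeg e (aa w n) (m + m') (z * z') := by
  intro k
  rw [repr_mul']
  refine Dle.sum _ _ fun i _ => Dle.sum _ _ fun j _ => ?_
  have h1 : BDeg e (aa w n) ((w * ((i : ℕ) + (j : ℕ)) : ℕ) : ℤ) (e i * e j) := by
    rw [H.basis, H.basis, ← pow_add]
    exact H.bdeg_pow _
  refine (((hz i).mul (hz' j)).mul (h1 k)).mono ?_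
  show m - ((w * (i : ℕ) : ℕ) : ℤ) + (m' - ((w * (j : ℕ) : ℕ) : ℤ)) +
    (((w * ((i : ℕ) + (j : ℕ)) : ℕ) : ℤ) - ((w * (k : ℕ) : ℕ) : ℤ)) ≤
    m + m' - ((w * (k : ℕ) : ℕ) : ℤ)
  rw [mul_add]
  push_cast
  linarith

theorem KL.bdeg_tr (H : KL w n F y e dK d) {z : E} {m : ℤ} (hz : BDeg e (aa w n) m z) :
    Dle (Tr κ E z) m := by
  rw [tr_eq_sum (e := e)]
  refine Dle.sum _ _ fun k _ => ?_
  have h1 : BDeg e (aa w n) ((w * (k : ℕ) : ℕ) : ℤ) (e k) := by
    rw [H.basis]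
    exact H.bdeg_pow _
  refine (H.bdeg_mul hz h1 k).mono ?_
  show m + ((w * (k : ℕ) : ℕ) : ℤ) - ((w * (k : ℕ) : ℕ) : ℤ) ≤ m
  linarith

end MPadcLF
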