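import Pool.Agent.Lib.MP_adc574_ag_LF.InfA

/-!
# JOB InfB: the curve is unramified at infinity

`BDeg e (aa w n) m z` says that the `i`-th coordinate of `z` has degree at most `m - w i`. Write `BD m z`
for it.
* `bdeg_div`: `BD (m + w (n - 1)) (z * F_Y) → BD m z`. Let `u * top + v * top' = 1`
  (`KL.top`) and `ζ = x ^ (- w) y`, `BD 0 ζ`. By the weights of the coefficients of `F` and `F_Y`:
  `0 = x ^ (- w n) F (x, y) = top (ζ) + ε₁`, `x ^ (- w (n - 1)) F_Y = top' (ζ) + ε₂` with `BD (-1) ε₁`,
  `BD (-1) ε₂` (the coefficient `F_j` of `Y ^ j` is `c x ^ (w (n - j))` plus terms of lower degree). So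
  `v (ζ) * x ^ (- w (n - 1)) F_Y = 1 + ε` with `BD (-1) ε`, and `BD m ((1 + ε) * z)`. All
  coordinates of `z` have bounded degrees: `BD m' z` for some integer `m'` (`exists_bdeg`). If `m' > m` then
  `z = (1 + ε) z - ε z` has `BD (m' - 1)`; descending induction.
-/

set_option autoImplicit false

namespace MPadcLF

open Polynomial MPadcCov

variable {κ : Type*} [Field κ] {E : Type*} [Field E] [Algebra (RatFunc κ) E] {w n : ℕ}
  {F : κ[X][X]} {y : E} {e : Module.Basis (Fin n) (RatFunc κ) E} {dK : RatFunc κ → RatFunc κ}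
  {d : Derivation ℤ E E}

/-- homogenisation in degree `r`, weights `1` and `w` -/
private noncomputable def hm (w r : ℕ) (p : κ[X]) : κ[X][X] :=
  ∑ j ∈ Finset.range (r + 1), C (C (p.coeff j) * X ^ (w * (r - j))) * X ^ j

private theorem hm_coeff (w r : ℕ) (p : κ[X]) (j : ℕ) :
    (hm w r p).coeff j = if j ≤ r then C (p.coeff j) * X ^ (w * (r - j)) else 0 := by
  unfold hm
  rw [finsetSum_coeff]
  have h : ∀ i ∈ Finset.range (r + 1),
      (C (C (p.coeff i) * X ^ (w * (r - i))) * X ^ i : κ[X][X]).coeff j =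
        if j = i then C (p.coeff i) * X ^ (w * (r - i)) else 0 := by
    intro i _
    rw [coeff_C_mul, coeff_X_pow]
    split_ifs <;> simp
  rw [Finset.sum_congr rfl h, Finset.sum_ite_eq]
  simp only [Finset.mem_range, Nat.lt_succ_iff]

private theorem hm_wd (w r : ℕ) (p : κ[X]) : WD w (w * r) (hm w r p) := by
  intro j hj
  rw [hm_coeff] at hj ⊢
  split_ifs at hj ⊢ with h
  · have h1 : (C (p.coeff j) * X ^ (w * (r - j)) : κ[X]).natDegree ≤ w * (r - j) :=
      natDegree_C_mul_X_pow_le _ _
    have h2 : w * (r - j) + w * j = w * r := by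
      rw [← mul_add, Nat.sub_add_cancel h]
    omega
  · exact absurd rfl hj

private theorem hm_py (w r : ℕ) (p : κ[X]) : py (hm w (r + 1) p) = hm w r (derivative p) := by
  refine Polynomial.ext fun j => ?_
  unfold py
  rw [coeff_derivative, hm_coeff, hm_coeff, coeff_derivative]
  by_cases h : j ≤ r
  · rw [if_pos h, if_pos (by omega : j + 1 ≤ r + 1), Nat.add_sub_add_right, C_mul]
    have h1 : (C ((j : κ) + 1) : κ[X]) = (j : κ[X]) + 1 := by
      rw [C_add, C_1]
      rfl
    rw [h1]
    ring
  · rw [if_neg h, if_neg (by omega : ¬ (j + 1 ≤ r + 1)), zero_mul]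

/-- constants of `κ` in `E` -/
private noncomputable def io (κ : Type*) [Field κ] (E : Type*) [Field E] [Algebra (RatFunc κ) E] :
    κ →+* E :=
  (algebraMap (RatFunc κ) E).comp ((algebraMap κ[X] (RatFunc κ)).comp (C : κ →+* κ[X]))

private theorem hm_ev {x : E} (hx : x = inE (κ := κ) E (pol X)) (hx0 : x ≠ 0) (w r : ℕ) (p : κ[X])
    (hp : p.natDegree ≤ r) :
    ev y (hm w r p) = x ^ (w * r) * (eval₂RingHom (io κ E) (y / x ^ w)) p := by
  unfold hm
  rw [map_sum, coe_eval₂RingHom, eval₂_eq_sum_range' (io κ E) (Nat.lt_succ_of_le hp),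
    Finset.mul_sum]
  refine Finset.sum_congr rfl fun j hj => ?_
  have hj' : j ≤ r := Nat.lt_succ_iff.1 (Finset.mem_range.1 hj)
  have h1 : inE (κ := κ) E (pol (C (p.coeff j) * X ^ (w * (r - j)))) =
      (io κ E) (p.coeff j) * x ^ (w * (r - j)) := by
    unfold inE pol
    rw [map_mul, map_mul, map_pow, map_pow, hx]
    rfl
  have h2 : x ^ (w * r) = x ^ (w * (r - j)) * (x ^ w) ^ j := by
    rw [← pow_mul, ← pow_add, ← mul_add, Nat.sub_add_cancel hj']
  rw [map_mul, map_pow, ev_C, ev_X, h1, h2, div_pow]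
  have h3 : (x ^ w) ^ j ≠ 0 := pow_ne_zero _ (pow_ne_zero _ hx0)
  field_simp

/-- cancellation of a power of `x` -/
private theorem bdeg_cancel {a : Fin n → ℕ} {m : ℤ} (k : ℕ) {z : E}
    (h : BDeg e a (m + k) (inE (κ := κ) E (pol (X ^ k)) * z)) : BDeg e a m z := by
  intro i
  have h1 := h i
  rw [repr_inE_mul] at h1
  have h2 : (X ^ k : κ[X]) ≠ 0 := pow_ne_zero _ X_ne_zero
  refine dle_of_mul h2 (h1.mono ?_)
  rw [natDegree_X_pow]
  linarith

/-- the terms of lower weight -/
private theorem low_wd {w n : ℕ} {F : κ[X][X]} (hF : Wt w n F) :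
    WD w (w * n) (C X * (F - hm w n (topp w n F))) := by
  intro j hj
  rw [coeff_C_mul, coeff_sub, hm_coeff] at hj ⊢
  by_cases h : j ≤ n
  · rw [if_pos h] at hj ⊢
    have ht : (topp w n F).coeff j = (F.coeff j).coeff (w * (n - j)) := by
      unfold topp
      rw [finsetSum_coeff]
      have h' : ∀ i ∈ Finset.range (n + 1),
          (C ((F.coeff i).coeff (w * (n - i))) * X ^ i : κ[X]).coeff j =
            if j = i then (F.coeff i).coeff (w * (n - i)) else 0 := by
        intro i _
        rw [coeff_C_mul, coeff_X_pow]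
        split_ifs <;> simp
      rw [Finset.sum_congr rfl h', Finset.sum_ite_eq, if_pos (Finset.mem_range.2 (by omega))]
    rw [ht] at hj ⊢
    have hk : w * (n - j) + w * j = w * n := by
      rw [← mul_add, Nat.sub_add_cancel h]
    set k := w * (n - j) with hkdef
    have hd : (F.coeff j).natDegree ≤ k := by
      by_cases h0 : F.coeff j = 0
      · rw [h0, natDegree_zero]
        exact Nat.zero_le _
      · have := hF.wd j h0
        omega
    set g := F.coeff j - C ((F.coeff j).coeff k) * X ^ k with hg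
    have hg0 : g ≠ 0 := fun h0 => hj (by rw [h0, mul_zero])
    have hgd : g.natDegree ≤ k := by
      refine (natDegree_sub_le _ _).trans (max_le hd ?_)
      exact natDegree_C_mul_X_pow_le _ _
    have hgk : g.coeff k = 0 := by
      rw [hg, coeff_sub, coeff_C_mul, coeff_X_pow, if_pos rfl, mul_one, sub_self]
    have hlt : g.natDegree < k := by
      rcases Nat.lt_or_ge g.natDegree k with h1 | h1
      · exact h1
      · exfalso
        have h2 : g.natDegree = k := le_antisymm hgd h1
        have h3 : g.leadingCoeff = 0 := by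
          rw [leadingCoeff, h2, hgk]
        exact hg0 (leadingCoeff_eq_zero.1 h3)
    have h4 : (X * g).natDegree ≤ g.natDegree + 1 := by
      refine natDegree_mul_le.trans ?_
      rw [natDegree_X]
      omega
    omega
  · exfalso
    apply hj
    rw [if_neg h, coeff_eq_zero_of_natDegree_lt (by rw [hF.deg]; omega), sub_zero, mul_zero]

private theorem topp_natDegree (w n : ℕ) (F : κ[X][X]) : (topp w n F).natDegree ≤ n := by
  unfold topp
  refine natDegree_sum_le_of_forall_le _ _ fun j hj => ?_
  refine (natDegree_C_mul_X_pow_le _ _).trans ?_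
  exact Nat.lt_succ_iff.1 (Finset.mem_range.1 hj)

/-- one step of the descending induction -/
private theorem KL.step (H : KL w n F y e dK d) {z : E} {m m' : ℤ}
    (hz : BDeg e (aa w n) (m + w * (n - 1)) (z * ev y (py F))) (hz' : BDeg e (aa w n) m' z) :
    BDeg e (aa w n) (max m (m' - 1)) z := by
  obtain ⟨u, v, huv⟩ := H.top
  obtain ⟨n', rfl⟩ : ∃ n', n = n' + 1 := ⟨n - 1, by have := H.hn; omega⟩
  set x : E := inE (κ := κ) E (pol X) with hxdef
  have hx0 : x ≠ 0 := by
    intro h0
    have h1 : (pol X : RatFunc κ) = 0 := (map_eq_zero _).1 h0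
    rw [pol, map_eq_zero_iff _ pol_injective] at h1
    exact X_ne_zero h1
  set r : ℕ := max u.natDegree v.natDegree with hr
  set T := topp w (n' + 1) F with hT
  set θ := eval₂RingHom (io κ E) (y / x ^ w) with hθ
  set F1 := F - hm w (n' + 1) T with hF1
  have hTd : T.natDegree ≤ n' + 1 := topp_natDegree w (n' + 1) F
  have hTd' : (derivative T).natDegree ≤ n' := (natDegree_derivative_le T).trans (by omega)
  have eu : ev y (hm w r u) = x ^ (w * r) * θ u := hm_ev hxdef hx0 w r u (le_max_left _ _)
  have ev' : ev y (hm w (r + 1) v) = x ^ (w * (r + 1)) * θ v :=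
    hm_ev hxdef hx0 w (r + 1) v ((le_max_right _ _).trans (Nat.le_succ _))
  have eT : ev y (hm w (n' + 1) T) = x ^ (w * (n' + 1)) * θ T := hm_ev hxdef hx0 w (n' + 1) T hTd
  have eT' : ev y (hm w n' (derivative T)) = x ^ (w * n') * θ (derivative T) :=
    hm_ev hxdef hx0 w n' (derivative T) hTd'
  have eX : ev y (C X : κ[X][X]) = x := ev_C y X
  have e1 : ev y (C X * F1) = x * (-(x ^ (w * (n' + 1)) * θ T)) := by
    rw [map_mul, eX, hF1, map_sub, H.root, eT, zero_sub]
  have pF1 : py F1 = py F - hm w n' (derivative T) := by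
    rw [hF1, ← hm_py]
    exact derivative_sub
  have e2 : ev y (C X * py F1) = x * (ev y (py F) - x ^ (w * n') * θ (derivative T)) := by
    rw [map_mul, eX, pF1, map_sub, eT']
  have hbez : θ u * θ T + θ v * θ (derivative T) = 1 := by
    rw [← map_mul, ← map_mul, ← map_add, huv, C_1, map_one]
  have w1 : WD w (w * (n' + 1)) (C X * F1) := low_wd H.wt
  have w2 : WD w (w * n') (C X * py F1) := by
    have h := WD.ofpy w1
    have h1 : py (C X * F1) = C X * py F1 := by
      unfold py
      exact derivative_C_mul _ _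
    have h2 : w * (n' + 1) - w = w * n' := by
      rw [mul_add, mul_one, Nat.add_sub_cancel]
    rw [h1, h2] at h
    exact h
  set A : κ[X][X] := hm w r u * (C X * F1) + hm w (r + 1) v * (C X * py F1) with hA
  have wA : WD w (w * (r + (n' + 1))) A := by
    refine WD.add ?_ ?_
    · have h := WD.mul (hm_wd w r u) w1
      rw [← mul_add] at h
      exact h
    · have h := WD.mul (hm_wd w (r + 1) v) w2
      rw [← mul_add] at h
      have h2 : r + 1 + n' = r + (n' + 1) := by omega
      rw [h2] at h
      exact h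
  have wB : WD w (1 + w * (r + 1)) (C X * hm w (r + 1) v : κ[X][X]) :=
    WD.mul (WD.ofC (natDegree_X_le)) (hm_wd w (r + 1) v)
  have bA := H.bdeg_mul (H.bdeg_ev wA) hz'
  have bB := H.bdeg_mul (H.bdeg_ev wB) hz
  have key : inE (κ := κ) E (pol (X ^ (w * (r + (n' + 1)) + 1))) * z =
      ev y (C X * hm w (r + 1) v) * (z * ev y (py F)) - ev y A * z := by
    have h1 : inE (κ := κ) E (pol (X ^ (w * (r + (n' + 1)) + 1))) =
        x ^ (w * (r + (n' + 1)) + 1) := by
      unfold inE pol
      rw [map_pow, map_pow]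
    have h2 : ev y A = -(x ^ (w * (r + (n' + 1)) + 1) * (θ u * θ T + θ v * θ (derivative T))) +
        x ^ (w * (r + 1)) * θ v * x * ev y (py F) := by
      rw [hA, map_add, map_mul, map_mul (ev y) (hm w (r + 1) v), e1, e2, eu, ev']
      ring
    rw [h1, h2, hbez, map_mul, eX, ev']
    ring
  refine bdeg_cancel (w * (r + (n' + 1)) + 1) ?_
  rw [key]
  refine BDeg.sub (BDeg.mono bB ?_) (BDeg.mono bA ?_)
  · have h1 : m ≤ max m (m' - 1) := le_max_left _ _
    push_cast
    linarith
  · have h1 : m' - 1 ≤ max m (m' - 1) := le_max_right _ _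
    push_cast
    linarith

/-- The curve is unramified at infinity. -/
theorem KL.bdeg_div (H : KL w n F y e dK d) {z : E} {m : ℤ}
    (hz : BDeg e (aa w n) (m + w * (n - 1)) (z * ev y (py F))) : BDeg e (aa w n) m z := by
  obtain ⟨m', hm'⟩ := exists_bdeg z (aa w n) (e := e)
  have main : ∀ k : ℕ, BDeg e (aa w n) (m + k) z → BDeg e (aa w n) m z := by
    intro k
    induction k with
    | zero =>
      intro h
      exact BDeg.mono h (by push_cast; linarith)
    | succ k ih =>
      intro h
      refine ih (BDeg.mono (H.step hz h) (max_le ?_ ?_))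
      · have : (0 : ℤ) ≤ k := Int.natCast_nonneg k
        linarith
      · push_cast
        linarith
  refine main (m' - m).toNat (BDeg.mono hm' ?_)
  have := Int.self_le_toNat (m' - m)
  linarith

end MPadcLF
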