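import Pool.Agent.Lib.MP_adc574_ag_LF.ClaimL
import Pool.Agent.Lib.MP_adc574_ag_LF.Nat

/-!
# JOB IntR: integrality of the coordinates over power series

Paper 2.4. `R = PowerSeries κ`. If `Δ ≠ 0` write `Δ = X ^ m * unit` and use induction on `m` (general `q`, `c`,
`b`, `e`). For `m ≥ 1` apply `mp constantCoeff` to the equation: `0 = ∑ cbar η + br bbar + ebar Fbar`, so by
`claimL` (for `HB.map`, signs) `cbar = 0` and `bbar = cc r + gbar * Fbar`. Lift: `c a = X * c' a`, and
`b = cc (C r) + g * F + cc X * b'` (a polynomial over `R` all of whose coefficients have constant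
coefficient `0` is `cc X * b'`). Then `br F b = br F g * F + cc X * br F b'`, and
`(e + br F g) * F = cc X * (…)`, so, reducing modulo `X` (`Fbar` is monic, not a zero divisor),
`e + br F g = cc X * e'`. Divide the equation by `cc X` (not a zero divisor in `R[X][X]`).
-/

set_option autoImplicit false

namespace MPadcLF

open Polynomial MPadcCov

private theorem IntR_dvd {κ : Type*} [Field κ] (p : (PowerSeries κ)[X][X])
    (h : mp (PowerSeries.constantCoeff (R := κ)) p = 0) :
    ∃ p' : (PowerSeries κ)[X][X], p = cc PowerSeries.X * p' := by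
  have h1 : (C (C PowerSeries.X) : (PowerSeries κ)[X][X]) ∣ p := by
    rw [C_dvd_iff_dvd_coeff]
    intro i
    rw [C_dvd_iff_dvd_coeff]
    intro j
    rw [PowerSeries.X_dvd_iff]
    have h2 := congrArg (fun q => (q.coeff i).coeff j) h
    simpa using h2
  exact h1

private theorem IntR_br_cc {R : Type*} [CommRing R] (F : R[X][X]) (r : R) : br F (cc r) = 0 := by
  have h1 := br_cc_mul F r 1
  rw [mul_one, (isDer_br F).one, mul_zero] at h1
  exact h1

private theorem IntR_alg {A : Type*} [CommRing A] {x y q s t e F g b : A}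
    (h : x * y * q = x * s + b + e * F) (hbr : b + g * F = x * t) :
    (e - g) * F = x * (y * q - s - t) := by
  linear_combination -h - hbr

private theorem IntR_alg2 {A : Type*} [CommRing A] {x y q s t e F : A}
    (h : x * e * F = x * (y * q - s - t)) : x * (y * q) = x * (s + t + e * F) := by
  linear_combination -h

private theorem IntR_pow {κ : Type*} [Field κ] {w n : ℕ} (hw : 0 < w) (hn : 0 < n)
    {F : (PowerSeries κ)[X][X]} (hF : Wt w n F) {η : IX w n → (PowerSeries κ)[X][X]}
    (hη : HB w n F η) (hP : PLinf w n (mp (PowerSeries.constantCoeff (R := κ)) F)) (m : ℕ) :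
    ∀ (q b e : (PowerSeries κ)[X][X]) (c : IX w n → PowerSeries κ),
      cc (PowerSeries.X ^ m : PowerSeries κ) * q = ∑ a, cc (c a) * η a + br F b + e * F →
      ∀ a, PowerSeries.X ^ m ∣ c a := by
  induction m with
  | zero =>
    intro q b e c _ a
    rw [pow_zero]
    exact one_dvd _
  | succ m ih =>
    intro q b e c h
    have hF' := hF.map (PowerSeries.constantCoeff (R := κ))
    have hη' := hη.map (PowerSeries.constantCoeff (R := κ)) hF.monic
    have h1 := congrArg (mp (PowerSeries.constantCoeff (R := κ))) h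
    rw [map_mul, map_add, map_add, map_mul, map_sum, mp_cc, map_pow, PowerSeries.constantCoeff_X,
      zero_pow (Nat.succ_ne_zero m), mp_br F] at h1
    have h2 : ∑ a, cc (PowerSeries.constantCoeff (c a)) * mp (PowerSeries.constantCoeff (R := κ)) (η a) =
        br (mp (PowerSeries.constantCoeff (R := κ)) F) (-(mp (PowerSeries.constantCoeff (R := κ)) b)) +
        (-(mp (PowerSeries.constantCoeff (R := κ)) e)) * mp (PowerSeries.constantCoeff (R := κ)) F := by
      have h3 : ∑ a, mp (PowerSeries.constantCoeff (R := κ)) (cc (c a) * η a) =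
          ∑ a, cc (PowerSeries.constantCoeff (c a)) * mp (PowerSeries.constantCoeff (R := κ)) (η a) := by
        refine Finset.sum_congr rfl fun a _ => ?_
        rw [map_mul, mp_cc]
      rw [h3] at h1
      have h4 : (cc (0 : κ)) = 0 := by simp
      rw [h4, zero_mul] at h1
      rw [(isDer_br _).neg]
      linear_combination -h1
    obtain ⟨hc, r, g, hb⟩ := claimL hw hn hF' hη' hP _ _ _ h2
    obtain ⟨g', hg'⟩ := Polynomial.map_surjective
      (mapRingHom (PowerSeries.constantCoeff (R := κ)))
      (Polynomial.map_surjective _ PowerSeries.constantCoeff_surj) g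
    have hg'' : mp (PowerSeries.constantCoeff (R := κ)) g' = g := hg'
    have hb1 : mp (PowerSeries.constantCoeff (R := κ)) (b + cc (PowerSeries.C r) + g' * F) = 0 := by
      rw [map_add, map_add, map_mul, mp_cc, PowerSeries.constantCoeff_C, hg'']
      linear_combination -hb
    obtain ⟨b', hb'⟩ := IntR_dvd _ hb1
    have hcd : ∀ a, ∃ c' : PowerSeries κ, c a = PowerSeries.X * c' := by
      intro a
      have h3 : PowerSeries.constantCoeff (c a) = 0 := congrFun hc a
      exact PowerSeries.X_dvd_iff.2 h3
    choose c' hc' using hcd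
    have hbr : br F b + br F g' * F = cc PowerSeries.X * br F b' := by
      have h3 := congrArg (br F) hb'
      rw [br_cc_mul, (isDer_br F).add, (isDer_br F).add, (isDer_br F).mul, br_self, IntR_br_cc] at h3
      rw [← h3]
      ring
    have hsum : ∑ a, cc (c a) * η a = cc PowerSeries.X * ∑ a, cc (c' a) * η a := by
      rw [Finset.mul_sum]
      refine Finset.sum_congr rfl fun a _ => ?_
      rw [hc' a]
      simp only [cc, C_mul]
      ring
    have hpow : cc (PowerSeries.X ^ (m + 1) : PowerSeries κ) =
        cc PowerSeries.X * cc (PowerSeries.X ^ m : PowerSeries κ) := by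
      rw [pow_succ']
      simp only [cc, C_mul]
    have he1 : (e - br F g') * F = cc PowerSeries.X *
        (cc (PowerSeries.X ^ m : PowerSeries κ) * q - ∑ a, cc (c' a) * η a - br F b') := by
      rw [hsum, hpow] at h
      exact IntR_alg h hbr
    have he2 : mp (PowerSeries.constantCoeff (R := κ)) (e - br F g') = 0 := by
      have h3 := congrArg (mp (PowerSeries.constantCoeff (R := κ))) he1
      rw [map_mul, map_mul, mp_cc, PowerSeries.constantCoeff_X] at h3
      have h4 : (cc (0 : κ)) = 0 := by simp
      rw [h4, zero_mul] at h3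
      exact (mul_eq_zero.1 h3).resolve_right hF'.monic.ne_zero
    obtain ⟨e', he'⟩ := IntR_dvd _ he2
    have hX : (cc PowerSeries.X : (PowerSeries κ)[X][X]) ≠ 0 := by
      rw [Ne, C_eq_zero, C_eq_zero]
      exact PowerSeries.X_ne_zero
    have hfin : cc (PowerSeries.X ^ m : PowerSeries κ) * q =
        ∑ a, cc (c' a) * η a + br F b' + e' * F := by
      refine mul_left_cancel₀ hX ?_
      rw [he'] at he1
      exact IntR_alg2 he1
    intro a
    rw [hc' a, pow_succ']
    exact mul_dvd_mul_left _ (ih q b' e' c' hfin a)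

theorem intR {κ : Type*} [Field κ] {w n : ℕ} (hw : 0 < w) (hn : 0 < n)
    {F : (PowerSeries κ)[X][X]} (hF : Wt w n F) {η : IX w n → (PowerSeries κ)[X][X]}
    (hη : HB w n F η) (hP : PLinf w n (mp (PowerSeries.constantCoeff (R := κ)) F))
    (Δ : PowerSeries κ) (hΔ : Δ ≠ 0) (q b e : (PowerSeries κ)[X][X])
    (c : IX w n → PowerSeries κ) (h : cc Δ * q = ∑ a, cc (c a) * η a + br F b + e * F)
    (a : IX w n) : Δ ∣ c a := by
  obtain ⟨m, u, hu', hu⟩ : ∃ (m : ℕ) (u : PowerSeries κ), IsUnit u ∧ Δ = PowerSeries.X ^ m * u :=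
    ⟨Δ.order.toNat, PowerSeries.divXPowOrder Δ,
      ⟨PowerSeries.Unit_of_divided_by_X_pow_order Δ, PowerSeries.Unit_of_divided_by_X_pow_order_nonzero hΔ⟩,
      PowerSeries.X_pow_order_mul_divXPowOrder.symm⟩
  have h1 : cc (PowerSeries.X ^ m : PowerSeries κ) * (cc u * q) =
      ∑ a, cc (c a) * η a + br F b + e * F := by
    rw [← h, hu]
    simp only [cc, C_mul]
    ring
  have h2 := IntR_pow hw hn hF hη hP m _ b e c h1 a
  rw [hu]
  exact (IsUnit.mul_right_dvd hu').2 h2

end MPadcLF
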