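import Mathlib

/-!
# JOB LQ: rational bases, residues of logarithmic forms over power series

* `exists_indep`: the `ℚ`-span of the `l j` is finite dimensional; take a basis, coordinates `q j i ∈ ℚ`; let `N₀` be a
  common denominator, `μ i = basis i / N₀`.
* `res_zero`: `R = PowerSeries κ`, `Λ` its field of fractions, `DΛ` extends `d/ds`. With `s = algebraMap X`: `U i = s ^ (N i) v i`
  with `v i` a unit of `R`: `DΛ (U i) / U i = N i / s + (element of R)`. So `DΛ G + c / s ∈ R` with `c = ∑ μ i N i ∈ κ`. If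
  `G ∈ R` then `c / s ∈ R`, `c = 0`. Otherwise `G = s ^ (-m) v`, `v` a unit of `R`, `m ≥ 1`, and multiplying by
  `s ^ (m+1)`: `s v' - m v + c s ^ m ∈ s ^ (m+1) R`, so the constant coefficient `- m v(0)` is zero: contradiction.
* `exists_order`: every nonzero element of `Λ` is `s ^ N v` (`PowerSeries` is a discrete valuation ring; Mathlib:
  `PowerSeries.eq_unit_mul_X_pow`-type lemmas, `PowerSeries.Unit_of_divided_by_X_pow_order`).
-/

set_option autoImplicit false

namespace MPadcLF

theorem exists_indep {k : Type*} [Field k] [CharZero k] {m : ℕ} (l : Fin m → k) :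
    ∃ (r : ℕ) (μ : Fin r → k) (N : Fin m → Fin r → ℤ), LinearIndependent ℚ μ ∧
      ∀ j, l j = ∑ i, (N j i : k) * μ i := by
  classical
  have hfin : Module.Finite ℚ (Submodule.span ℚ (Set.range l)) :=
    Module.Finite.span_of_finite ℚ (Set.finite_range l)
  let S : Submodule ℚ k := Submodule.span ℚ (Set.range l)
  let b : Module.Basis (Fin (Module.finrank ℚ S)) ℚ S := Module.finBasis ℚ S
  have hl : ∀ j, l j ∈ S := fun j => Submodule.subset_span (Set.mem_range_self j)
  obtain ⟨q, hq⟩ : ∃ q : Fin m → Fin (Module.finrank ℚ S) → ℚ,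
      ∀ j, l j = ∑ i, q j i • (b i : k) := by
    refine ⟨fun j i => b.repr ⟨l j, hl j⟩ i, fun j => ?_⟩
    have h1 := congrArg (fun z : S => (z : k)) (b.sum_repr ⟨l j, hl j⟩)
    beta_reduce at h1
    rw [Submodule.coe_sum] at h1
    exact h1.symm
  obtain ⟨D, hD, hDq⟩ : ∃ D : ℚ, D ≠ 0 ∧ ∀ j i, ∃ z : ℤ, q j i * D = z := by
    refine ⟨((∏ j, ∏ i, (q j i).den : ℕ) : ℚ), ?_, fun j i => ?_⟩
    · rw [Nat.cast_ne_zero]
      exact Finset.prod_ne_zero_iff.2 fun j _ => Finset.prod_ne_zero_iff.2 fun i _ =>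
        (q j i).den_nz
    · obtain ⟨c, hc⟩ : (q j i).den ∣ ∏ j, ∏ i, (q j i).den :=
        (Finset.dvd_prod_of_mem (fun i => (q j i).den) (Finset.mem_univ i)).trans
          (Finset.dvd_prod_of_mem (fun j => ∏ i, (q j i).den) (Finset.mem_univ j))
      refine ⟨(q j i).num * c, ?_⟩
      rw [hc]
      push_cast
      rw [← mul_assoc, Rat.mul_den_eq_num]
  choose N hN using hDq
  have hD' : D⁻¹ ≠ 0 := inv_ne_zero hD
  refine ⟨Module.finrank ℚ S, fun i => D⁻¹ • (b i : k), N, ?_, fun j => ?_⟩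
  · have h1 : LinearIndependent ℚ fun i => ((b i : S) : k) :=
      b.linearIndependent.map' S.subtype (Submodule.ker_subtype S)
    exact h1.units_smul (fun _ => Units.mk0 D⁻¹ hD')
  · rw [hq j]
    refine Finset.sum_congr rfl fun i _ => ?_
    have h1 : (q j i : ℚ) = (N j i : ℚ) * D⁻¹ := by
      rw [← hN j i, mul_assoc, mul_inv_cancel₀ hD, mul_one]
    show q j i • (b i : k) = (N j i : k) * (D⁻¹ • (b i : k))
    rw [h1, mul_smul, Algebra.smul_def (N j i : ℚ), map_intCast]

variable {κ : Type*} [Field κ] {Λ : Type*} [Field Λ] [Algebra (PowerSeries κ) Λ]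
  [IsFractionRing (PowerSeries κ) Λ]

private theorem LQ_X_ne : algebraMap (PowerSeries κ) Λ PowerSeries.X ≠ 0 := by
  intro h
  have h1 := IsFractionRing.injective (PowerSeries κ) Λ (h.trans (map_zero _).symm)
  exact PowerSeries.X_ne_zero h1

private theorem LQ_pow (f : PowerSeries κ) (hf : f ≠ 0) : ∃ (N : ℕ) (v : PowerSeries κ), IsUnit v ∧
    f = PowerSeries.X ^ N * v := by
  refine ⟨f.order.toNat, PowerSeries.divXPowOrder f,
    PowerSeries.isUnit_divided_by_X_pow_order hf, ?_⟩
  exact PowerSeries.X_pow_order_mul_divXPowOrder.symm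

theorem exists_order (U : Λ) (hU : U ≠ 0) : ∃ (N : ℤ) (v : PowerSeries κ), IsUnit v ∧
    U = (algebraMap (PowerSeries κ) Λ PowerSeries.X) ^ N * algebraMap (PowerSeries κ) Λ v := by
  obtain ⟨a, b, hb, h⟩ := IsFractionRing.div_surjective (A := PowerSeries κ) U
  have hb0 : b ≠ 0 := nonZeroDivisors.ne_zero hb
  have ha0 : a ≠ 0 := by
    intro h0
    rw [h0, map_zero, zero_div] at h
    exact hU h.symm
  obtain ⟨na, va, hva, ha⟩ := LQ_pow a ha0
  obtain ⟨nb, vb, hvb, hb'⟩ := LQ_pow b hb0
  obtain ⟨ub, hub⟩ := hvb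
  have hX := LQ_X_ne (κ := κ) (Λ := Λ)
  refine ⟨(na : ℤ) - nb, va * ((ub⁻¹ : (PowerSeries κ)ˣ) : PowerSeries κ),
    hva.mul (Units.isUnit _), ?_⟩
  have h1 : algebraMap (PowerSeries κ) Λ vb *
      algebraMap (PowerSeries κ) Λ ((ub⁻¹ : (PowerSeries κ)ˣ) : PowerSeries κ) = 1 := by
    rw [← map_mul, ← hub, Units.mul_inv, map_one]
  have h2 : algebraMap (PowerSeries κ) Λ vb ≠ 0 := left_ne_zero_of_mul_eq_one h1
  rw [← h, ha, hb', map_mul, map_mul, map_mul, map_pow, map_pow, zpow_sub₀ hX, zpow_natCast,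
    zpow_natCast, eq_inv_of_mul_eq_one_right h1]
  field_simp

omit [IsFractionRing (PowerSeries κ) Λ] in
private theorem LQ_unit (v : PowerSeries κ) (hv : IsUnit v) (g : PowerSeries κ) :
    ∃ f : PowerSeries κ, algebraMap (PowerSeries κ) Λ g / algebraMap (PowerSeries κ) Λ v =
      algebraMap (PowerSeries κ) Λ f := by
  obtain ⟨u, rfl⟩ := hv
  refine ⟨g * ((u⁻¹ : (PowerSeries κ)ˣ) : PowerSeries κ), ?_⟩
  have h1 : algebraMap (PowerSeries κ) Λ (u : PowerSeries κ) *
      algebraMap (PowerSeries κ) Λ ((u⁻¹ : (PowerSeries κ)ˣ) : PowerSeries κ) = 1 := by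
    rw [← map_mul, Units.mul_inv, map_one]
  have h2 : algebraMap (PowerSeries κ) Λ (u : PowerSeries κ) ≠ 0 := left_ne_zero_of_mul_eq_one h1
  rw [div_eq_iff h2, map_mul, mul_assoc, mul_comm (algebraMap (PowerSeries κ) Λ _)
    (algebraMap (PowerSeries κ) Λ (u : PowerSeries κ)), h1, mul_one]

theorem res_zero [CharZero κ] (DΛ : Derivation ℤ Λ Λ)
    (hD : ∀ f : PowerSeries κ, DΛ (algebraMap (PowerSeries κ) Λ f) =
      algebraMap (PowerSeries κ) Λ (PowerSeries.derivative κ f)) (G : Λ) {r : ℕ}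
    (μ : Fin r → κ) (U : Fin r → Λ) (N : Fin r → ℤ) (v : Fin r → PowerSeries κ)
    (hv : ∀ i, IsUnit (v i))
    (hU : ∀ i, U i = (algebraMap (PowerSeries κ) Λ PowerSeries.X) ^ (N i) *
      algebraMap (PowerSeries κ) Λ (v i)) (f : PowerSeries κ)
    (h : DΛ G + ∑ i, algebraMap (PowerSeries κ) Λ (PowerSeries.C (μ i)) * (DΛ (U i) / U i) =
      algebraMap (PowerSeries κ) Λ f) :
    ∑ i, μ i * (N i : κ) = 0 := by
  classical
  have hX := LQ_X_ne (κ := κ) (Λ := Λ)
  have hDX : DΛ (algebraMap (PowerSeries κ) Λ PowerSeries.X) = 1 := by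
    rw [hD, PowerSeries.derivative_X, map_one]
  have hinj := IsFractionRing.injective (PowerSeries κ) Λ
  have hpow : ∀ M : ℤ, DΛ ((algebraMap (PowerSeries κ) Λ PowerSeries.X) ^ M) =
      (M : Λ) * (algebraMap (PowerSeries κ) Λ PowerSeries.X) ^ (M - 1) := by
    intro M
    rw [Derivation.leibniz_zpow, hDX, smul_eq_mul, mul_one, zsmul_eq_mul]
  have hdl : ∀ i, ∃ g : PowerSeries κ, DΛ (U i) / U i =
      (N i : Λ) / algebraMap (PowerSeries κ) Λ PowerSeries.X + algebraMap (PowerSeries κ) Λ g := by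
    intro i
    obtain ⟨g, hg⟩ := LQ_unit (Λ := Λ) (v i) (hv i) (PowerSeries.derivative κ (v i))
    refine ⟨g, ?_⟩
    have hv0 : algebraMap (PowerSeries κ) Λ (v i) ≠ 0 := by
      intro h0
      have h1 := hinj (h0.trans (map_zero _).symm)
      have h2 := hv i
      rw [h1] at h2
      exact not_isUnit_zero h2
    have hz := zpow_ne_zero (N i) hX
    rw [hU i, Derivation.leibniz, hpow, hD, ← hg, smul_eq_mul, smul_eq_mul,
      zpow_sub_one₀ hX]
    field_simp
    ring
  choose g hg using hdl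
  obtain ⟨c, hc⟩ : ∃ c, c = ∑ i, μ i * (N i : κ) := ⟨_, rfl⟩
  rw [← hc]
  have hN : ∀ z : ℤ, (z : Λ) = algebraMap (PowerSeries κ) Λ (PowerSeries.C (z : κ)) := by
    intro z
    rw [map_intCast, map_intCast]
  have hsum : ∑ i, algebraMap (PowerSeries κ) Λ (PowerSeries.C (μ i)) * (DΛ (U i) / U i) =
      algebraMap (PowerSeries κ) Λ (PowerSeries.C c) / algebraMap (PowerSeries κ) Λ PowerSeries.X +
        algebraMap (PowerSeries κ) Λ (∑ i, PowerSeries.C (μ i) * g i) := by
    rw [hc, map_sum PowerSeries.C, map_sum, map_sum, Finset.sum_div, ← Finset.sum_add_distrib]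
    refine Finset.sum_congr rfl fun i _ => ?_
    rw [hg i, hN, map_mul, map_mul, map_mul]
    ring
  rw [hsum] at h
  have hC : ∀ h' : PowerSeries κ, PowerSeries.C c = PowerSeries.X * h' → c = 0 := by
    intro h' e
    have e1 := congrArg PowerSeries.constantCoeff e
    rw [map_mul, PowerSeries.constantCoeff_X, zero_mul, PowerSeries.constantCoeff_C] at e1
    exact e1
  have hfrac : ∀ g' : PowerSeries κ, DΛ G = algebraMap (PowerSeries κ) Λ g' → c = 0 := by
    intro g' hg'
    rw [hg'] at h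
    refine hC (f - g' - ∑ i, PowerSeries.C (μ i) * g i) (hinj ?_)
    rw [map_mul, map_sub, map_sub, ← h]
    field_simp
    ring
  by_cases hG : G = 0
  · exact hfrac 0 (by rw [hG, map_zero, map_zero])
  · obtain ⟨M, v', hv', hGe⟩ := exists_order (κ := κ) G hG
    rcases le_or_gt 0 M with hM | hM
    · obtain ⟨m, rfl⟩ := Int.eq_ofNat_of_zero_le hM
      rw [zpow_natCast, ← map_pow, ← map_mul] at hGe
      refine hfrac (PowerSeries.derivative κ (PowerSeries.X ^ m * v')) ?_
      rw [hGe, hD]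
    · exfalso
      obtain ⟨m, hm⟩ : ∃ m : ℕ, M = -((m : ℤ) + 1) := ⟨(-M - 1).toNat, by omega⟩
      obtain ⟨cm, hcm⟩ : ∃ cm, cm = PowerSeries.C ((m : κ) + 1) := ⟨_, rfl⟩
      have e1 : algebraMap (PowerSeries κ) Λ (-(cm * v') +
          PowerSeries.X * PowerSeries.derivative κ v' + PowerSeries.C c * PowerSeries.X ^ (m + 1)) =
          algebraMap (PowerSeries κ) Λ
            (PowerSeries.X ^ (m + 2) * (f - ∑ i, PowerSeries.C (μ i) * g i)) := by
        have hcast : algebraMap (PowerSeries κ) Λ cm = (m : Λ) + 1 := by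
          rw [hcm, map_add, map_add, map_natCast, map_natCast, map_one, map_one]
        have hDG : DΛ G = -((m : Λ) + 1) *
            ((algebraMap (PowerSeries κ) Λ PowerSeries.X) ^ (m + 2))⁻¹ *
              algebraMap (PowerSeries κ) Λ v' +
            ((algebraMap (PowerSeries κ) Λ PowerSeries.X) ^ (m + 1))⁻¹ *
              algebraMap (PowerSeries κ) Λ (PowerSeries.derivative κ v') := by
          have z1 : (algebraMap (PowerSeries κ) Λ PowerSeries.X) ^ (M - 1) =
              ((algebraMap (PowerSeries κ) Λ PowerSeries.X) ^ (m + 2))⁻¹ := by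
            have e2 : M - 1 = -((m + 2 : ℕ) : ℤ) := by
              rw [hm]
              push_cast
              ring
            rw [e2, zpow_neg, zpow_natCast]
          have z2 : (algebraMap (PowerSeries κ) Λ PowerSeries.X) ^ M =
              ((algebraMap (PowerSeries κ) Λ PowerSeries.X) ^ (m + 1))⁻¹ := by
            have e3 : M = -((m + 1 : ℕ) : ℤ) := by
              rw [hm]
              push_cast
              ring
            rw [e3, zpow_neg, zpow_natCast]
          rw [hGe, Derivation.leibniz, hpow, hD, z1, z2, hm, smul_eq_mul, smul_eq_mul]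
          push_cast
          ring
        rw [hDG] at h
        rw [map_mul (algebraMap (PowerSeries κ) Λ) (PowerSeries.X ^ (m + 2)), map_sub, ← h]
        rw [map_add, map_add, map_neg, map_mul, map_mul, map_mul, map_pow, map_pow, hcast]
        field_simp
        ring
      have e2 := congrArg PowerSeries.constantCoeff (hinj e1)
      simp only [map_add, map_neg, map_mul, map_pow, PowerSeries.constantCoeff_X,
        PowerSeries.constantCoeff_C] at e2
      rw [zero_pow (by omega), zero_pow (by omega), zero_mul, zero_mul, mul_zero, add_zero,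
        add_zero, neg_eq_zero, hcm, PowerSeries.constantCoeff_C] at e2
      have e3 : IsUnit (PowerSeries.constantCoeff v') := PowerSeries.isUnit_iff_constantCoeff.1 hv'
      rcases mul_eq_zero.1 e2 with e4 | e4
      · exact Nat.cast_add_one_ne_zero m e4
      · exact e3.ne_zero e4

end MPadcLF
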