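import Mathlib
import Pool.Agent.Lib.MP_adc574_ag_Cov.Der

/-!
# JOB Sol: a fundamental matrix

Paper 5.2. `P = MvPolynomial (ι × ι) L`, `L' = FractionRing P`. A derivation of `P` which extends `D` and has the value
`- ∑ l, B i l X (l, k)` at `X (i, k)`: the sum of the coefficientwise derivation (define it by
`MvPolynomial`-induction, e.g. `f ↦ f.sum fun m c => monomial m (D c)`, or through
`TrivSqZeroExt`: the ring homomorphism `P → TrivSqZeroExt P P` given by `eval₂Hom` on `L` (`x ↦ C x + C (D x) ε`) and
`X (i, k) ↦ X (i, k) + value ε`; the second component is the derivation) and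
`MvPolynomial.mkDerivation`. Extend it to `L'` by `ext_frac` (Cov/Der.lean). `U i k = X (i, k)`; its determinant is
not zero (specialize `X` to the identity matrix: `MvPolynomial.eval`).
-/

set_option autoImplicit false

namespace MPadcLF

universe w

private theorem sol_aux {R : Type*} [CommRing R] [IsDomain R] {K : Type*} [Field K] [Algebra R K]
    [IsFractionRing R K] (φ : R →+* TrivSqZeroExt R R) (h : ∀ r, (φ r).fst = r) :
    ∃ d : Derivation ℤ K K, ∀ r, d (algebraMap R K r) = algebraMap R K (φ r).snd := by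
  let D : Derivation ℤ R R := Derivation.mk' (AddMonoidHom.toIntLinearMap
    { toFun := fun x => (φ x).snd
      map_zero' := by rw [map_zero, TrivSqZeroExt.snd_zero]
      map_add' := fun x y => by rw [map_add, TrivSqZeroExt.snd_add] }) (by
    intro x y
    show (φ (x * y)).snd = x • (φ y).snd + y • (φ x).snd
    rw [map_mul, TrivSqZeroExt.snd_mul, h x, h y]
    simp [mul_comm])
  obtain ⟨d, hd⟩ := MPadcCov.ext_frac (K := K) D
  exact ⟨d, fun r => hd r⟩

private theorem sol_hom {L P : Type*} [CommRing L] [CommRing P] (c : L →+* P) (D : Derivation ℤ L L) :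
    ∃ f : L →+* TrivSqZeroExt P P, ∀ x, (f x).fst = c x ∧ (f x).snd = c (D x) := by
  refine ⟨{ toFun := fun r => TrivSqZeroExt.inl (c r) + TrivSqZeroExt.inr (c (D r))
            map_one' := by ext <;> simp
            map_mul' := by
              intro a b
              ext
              · simp
              · simp only [Derivation.leibniz, smul_eq_mul, TrivSqZeroExt.snd_add, TrivSqZeroExt.snd_inl,
                  TrivSqZeroExt.snd_inr, TrivSqZeroExt.snd_mul, TrivSqZeroExt.fst_add,
                  TrivSqZeroExt.fst_inl, TrivSqZeroExt.fst_inr, MulOpposite.smul_eq_mul_unop,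
                  MulOpposite.unop_op, map_add, map_mul, add_zero, zero_add]
                ring
            map_zero' := by ext <;> simp
            map_add' := by
              intro a b
              ext <;> simp }, fun x => ⟨?_, ?_⟩⟩
  · show (TrivSqZeroExt.inl (c x) + TrivSqZeroExt.inr (c (D x)) : TrivSqZeroExt P P).fst = _
    simp
  · show (TrivSqZeroExt.inl (c x) + TrivSqZeroExt.inr (c (D x)) : TrivSqZeroExt P P).snd = _
    simp

theorem exists_sol {L : Type w} [Field L] {ι : Type} [Fintype ι] [DecidableEq ι]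
    (D : Derivation ℤ L L) (B : Matrix ι ι L) :
    ∃ (L' : Type w) (_ : Field L') (j : L →+* L') (D' : Derivation ℤ L' L') (U : Matrix ι ι L'),
      (∀ x, D' (j x) = j (D x)) ∧ U.det ≠ 0 ∧
      ∀ i k, D' (U i k) = -(B.map j * U) i k := by
  obtain ⟨f, hf⟩ := sol_hom (MvPolynomial.C : L →+* MvPolynomial (ι × ι) L) D
  let g : ι × ι → TrivSqZeroExt (MvPolynomial (ι × ι) L) (MvPolynomial (ι × ι) L) := fun p =>
    TrivSqZeroExt.inl (MvPolynomial.X p) +
      TrivSqZeroExt.inr (- ∑ l, MvPolynomial.C (B p.1 l) * MvPolynomial.X (l, p.2))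
  let φ : MvPolynomial (ι × ι) L →+* TrivSqZeroExt (MvPolynomial (ι × ι) L) (MvPolynomial (ι × ι) L) :=
    MvPolynomial.eval₂Hom f g
  have hC : ∀ x, φ (MvPolynomial.C x) = f x := fun x => MvPolynomial.eval₂Hom_C _ _ _
  have hX : ∀ p, φ (MvPolynomial.X p) = g p := fun p => MvPolynomial.eval₂Hom_X' _ _ _
  have hfst : (TrivSqZeroExt.fstHom ℤ (MvPolynomial (ι × ι) L) (MvPolynomial (ι × ι) L)).toRingHom.comp φ =
      RingHom.id _ := by
    apply MvPolynomial.ringHom_ext
    · intro x
      show (φ (MvPolynomial.C x)).fst = MvPolynomial.C x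
      rw [hC, (hf x).1]
    · intro p
      show (φ (MvPolynomial.X p)).fst = MvPolynomial.X p
      rw [hX]
      show (TrivSqZeroExt.inl (MvPolynomial.X p) +
        TrivSqZeroExt.inr (- ∑ l, MvPolynomial.C (B p.1 l) * MvPolynomial.X (l, p.2)) :
          TrivSqZeroExt (MvPolynomial (ι × ι) L) (MvPolynomial (ι × ι) L)).fst = _
      simp
  have hfst' : ∀ r, (φ r).fst = r := fun r => RingHom.congr_fun hfst r
  obtain ⟨d, hd⟩ := sol_aux (K := FractionRing (MvPolynomial (ι × ι) L)) φ hfst'
  have hinj : Function.Injective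
      (algebraMap (MvPolynomial (ι × ι) L) (FractionRing (MvPolynomial (ι × ι) L))) :=
    IsFractionRing.injective _ _
  refine ⟨FractionRing (MvPolynomial (ι × ι) L), inferInstance,
    (algebraMap (MvPolynomial (ι × ι) L) (FractionRing (MvPolynomial (ι × ι) L))).comp MvPolynomial.C, d,
    (Matrix.mvPolynomialX ι ι L).map
      (algebraMap (MvPolynomial (ι × ι) L) (FractionRing (MvPolynomial (ι × ι) L))), ?_, ?_, ?_⟩
  · intro x
    rw [RingHom.comp_apply, RingHom.comp_apply, hd, hC, (hf x).2]
  · have h1 : ((Matrix.mvPolynomialX ι ι L).map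
        (algebraMap (MvPolynomial (ι × ι) L) (FractionRing (MvPolynomial (ι × ι) L)))).det =
        algebraMap (MvPolynomial (ι × ι) L) (FractionRing (MvPolynomial (ι × ι) L))
          (Matrix.mvPolynomialX ι ι L).det :=
      (RingHom.map_det _ _).symm
    rw [h1]
    intro h2
    rw [← map_zero (algebraMap (MvPolynomial (ι × ι) L) (FractionRing (MvPolynomial (ι × ι) L)))] at h2
    exact Matrix.det_mvPolynomialX_ne_zero ι L (hinj h2)
  · intro i k
    rw [Matrix.map_apply, Matrix.mvPolynomialX_apply, hd, hX]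
    have h1 : (g (i, k)).snd = - ∑ l, MvPolynomial.C (B i l) * MvPolynomial.X (l, k) := by
      show (TrivSqZeroExt.inl (MvPolynomial.X (i, k)) +
        TrivSqZeroExt.inr (- ∑ l, MvPolynomial.C (B i l) * MvPolynomial.X (l, k)) :
          TrivSqZeroExt (MvPolynomial (ι × ι) L) (MvPolynomial (ι × ι) L)).snd = _
      simp
    rw [h1, map_neg, map_sum, Matrix.mul_apply]
    congr 1
    refine Finset.sum_congr rfl fun l _ => ?_
    rw [map_mul]
    rfl

end MPadcLF
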