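import Pool.Agent.Lib.MP_adc574_ag_LF.Defs
import Pool.Agent.Lib.MP_adc574_ag_LF.Cspan
import Pool.Agent.Lib.MP_adc574_ag_LF.Sol

/-!
# JOB LagX: extension of an isotropic stable subspace to a Lagrangian

Paper 5.2. `J = J0 L' γ`, `ι = γ ⊕ γ`, `nab` of LP/Defs: `nab D Δ G u = Δ D u + G u`.
`max_lag` (over a field `L'` with a fundamental matrix `U` for `B = G / Δ`, i.e. `nab D Δ G (U *ᵥ c) = 0` for vectors `c`
with `D c = 0`): among the subspaces `W'` with `W ≤ W'`, isotropic and stable, take one of maximal dimension.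
The orthogonal `W'⊥ = {u | ∀ x ∈ W', BB J u x = 0}` contains `W'` and is stable:
`Δ D (BB J u x) = BB J (nab u) x + BB J u (nab x)` by `hflat` (`Global_BB_deriv`-type lemma in LP/Global.lean). Suppose
`W' ≠ W'⊥`. `V = {c | U *ᵥ c ∈ W'⊥}` is stable under `D` (`nab (U c) = Δ U (D c)`), so by `span_const` it is spanned
by constant vectors, and there is a constant `c ∈ V` with `u = U *ᵥ c ∉ W'`. `W' ⊔ span {u}` is isotropic
(`BB J u u = 0`: `J` is alternating, `J0` has the explicit form `∑ …`; no characteristic assumption) and stable (`nab u = 0`).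
Contradiction. So `W' = W'⊥`, and its dimension is `card γ` (`J` is nondegenerate:
`finrank W' + finrank W'⊥ = 2 card γ`; `LinearMap.BilinForm.finrank_orthogonal` or duality
`Submodule.finrank_…dualAnnihilator`).
`exists_lag`: `exists_sol` for `B i k = G i k / Δ`, `W` replaced by the span `W₁` of the image of `W` under `j` (stable and
isotropic by bilinearity), then `max_lag`, a basis `w : γ → …` of `W'` (`Module.finBasisOfFinrankEq`, reindexed), the dual
vectors `V` (a linearly independent family has dual functionals: extend the basis, `Module.Basis.coord`, functionals on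
`ι → L'` are dot products), `M` the coordinates of `nab (w j)`.
-/

set_option autoImplicit false

namespace MPadcLF

open MPadcLP

universe w

variable {γ : Type} [Fintype γ] [DecidableEq γ]

private theorem LagX_J0_mulVec {E : Type*} [CommRing E] (w : γ ⊕ γ → E) :
    (J0 E γ).mulVec w = Sum.elim (fun a => -w (Sum.inr a)) (fun a => w (Sum.inl a)) := by
  unfold J0
  rw [Matrix.fromBlocks_mulVec]
  funext i
  rcases i with i | i
  · simp [Matrix.neg_mulVec]
  · simp

private theorem LagX_BB_eq {E : Type*} [CommRing E] (u w : γ ⊕ γ → E) :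
    BB (J0 E γ) u w =
      ∑ a, (u (Sum.inr a) * w (Sum.inl a) - u (Sum.inl a) * w (Sum.inr a)) := by
  unfold BB
  rw [LagX_J0_mulVec, dotProduct, Fintype.sum_sum_type]
  simp only [Sum.elim_inl, Sum.elim_inr, mul_neg, Finset.sum_neg_distrib, Finset.sum_sub_distrib]
  ring

private theorem LagX_BB_self {E : Type*} [CommRing E] (u : γ ⊕ γ → E) :
    BB (J0 E γ) u u = 0 := by
  rw [LagX_BB_eq]
  exact Finset.sum_eq_zero fun a _ => by ring

private theorem LagX_BB_swap {E : Type*} [CommRing E] (u w : γ ⊕ γ → E) :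
    BB (J0 E γ) u w = - BB (J0 E γ) w u := by
  rw [LagX_BB_eq, LagX_BB_eq, ← Finset.sum_neg_distrib]
  exact Finset.sum_congr rfl fun a _ => by ring

private theorem LagX_BB_add {E : Type*} [CommRing E] (u v w : γ ⊕ γ → E) :
    BB (J0 E γ) (u + v) w = BB (J0 E γ) u w + BB (J0 E γ) v w := by
  unfold BB
  rw [add_dotProduct]

private theorem LagX_BB_add' {E : Type*} [CommRing E] (u v w : γ ⊕ γ → E) :
    BB (J0 E γ) u (v + w) = BB (J0 E γ) u v + BB (J0 E γ) u w := by
  unfold BB
  rw [Matrix.mulVec_add, dotProduct_add]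

private theorem LagX_BB_smul {E : Type*} [CommRing E] (c : E) (u w : γ ⊕ γ → E) :
    BB (J0 E γ) (c • u) w = c * BB (J0 E γ) u w := by
  unfold BB
  rw [smul_dotProduct, smul_eq_mul]

private theorem LagX_BB_smul' {E : Type*} [CommRing E] (c : E) (u w : γ ⊕ γ → E) :
    BB (J0 E γ) u (c • w) = c * BB (J0 E γ) u w := by
  unfold BB
  rw [Matrix.mulVec_smul, dotProduct_smul, smul_eq_mul]

private theorem LagX_BB_deriv {E : Type*} [CommRing E] (D : Derivation ℤ E E)
    (u w : γ ⊕ γ → E) :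
    D (BB (J0 E γ) u w) =
      BB (J0 E γ) (fun i => D (u i)) w + BB (J0 E γ) u (fun i => D (w i)) := by
  rw [LagX_BB_eq, LagX_BB_eq, LagX_BB_eq, map_sum, ← Finset.sum_add_distrib]
  refine Finset.sum_congr rfl fun a _ => ?_
  rw [map_sub, D.leibniz, D.leibniz]
  simp only [smul_eq_mul]
  ring

omit [DecidableEq γ] in
private theorem LagX_BB_skew {E : Type*} [CommRing E] (J Γ : Matrix (γ ⊕ γ) (γ ⊕ γ) E)
    (h : Γ.transpose * J + J * Γ = 0) (u w : γ ⊕ γ → E) :
    BB J (Γ.mulVec u) w + BB J u (Γ.mulVec w) = 0 := by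
  have h1 : BB J (Γ.mulVec u) w = u ⬝ᵥ (Γ.transpose * J).mulVec w := by
    unfold BB
    rw [← Matrix.mulVec_mulVec, Matrix.dotProduct_mulVec u, Matrix.vecMul_transpose]
  have h2 : BB J u (Γ.mulVec w) = u ⬝ᵥ (J * Γ).mulVec w := by
    unfold BB
    rw [Matrix.mulVec_mulVec]
  rw [h1, h2, ← dotProduct_add, ← Matrix.add_mulVec, h, Matrix.zero_mulVec, dotProduct_zero]

private theorem LagX_BB_nab {E : Type*} [CommRing E] (D : Derivation ℤ E E) (Δ : E)
    (G : Matrix (γ ⊕ γ) (γ ⊕ γ) E) (hflat : G.transpose * J0 E γ + J0 E γ * G = 0)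
    (u w : γ ⊕ γ → E) :
    Δ * D (BB (J0 E γ) u w) =
      BB (J0 E γ) (nab D Δ G u) w + BB (J0 E γ) u (nab D Δ G w) := by
  have h1 := LagX_BB_deriv D u w
  have h2 := LagX_BB_skew _ G hflat u w
  have h3 : nab D Δ G u = Δ • (fun i => D (u i)) + G.mulVec u := rfl
  have h4 : nab D Δ G w = Δ • (fun i => D (w i)) + G.mulVec w := rfl
  rw [h3, h4, LagX_BB_add, LagX_BB_add', LagX_BB_smul, LagX_BB_smul', h1]
  linear_combination (-1 : E) * h2

omit [DecidableEq γ] in
private theorem LagX_nab_add {E : Type*} [CommRing E] (D : Derivation ℤ E E) (Δ : E)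
    (G : Matrix (γ ⊕ γ) (γ ⊕ γ) E) (u v : γ ⊕ γ → E) :
    nab D Δ G (u + v) = nab D Δ G u + nab D Δ G v := by
  unfold nab
  funext i
  simp only [Pi.add_apply, map_add, Matrix.mulVec_add]
  ring

omit [DecidableEq γ] in
private theorem LagX_nab_smul {E : Type*} [CommRing E] (D : Derivation ℤ E E) (Δ : E)
    (G : Matrix (γ ⊕ γ) (γ ⊕ γ) E) (c : E) (u : γ ⊕ γ → E) :
    nab D Δ G (c • u) = c • nab D Δ G u + (Δ * D c) • u := by
  unfold nab
  funext i
  simp only [Pi.add_apply, Pi.smul_apply, smul_eq_mul, Matrix.mulVec_smul, Derivation.leibniz]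
  ring

omit [DecidableEq γ] in
private theorem LagX_nab_U {E : Type*} [CommRing E] (D : Derivation ℤ E E) (Δ : E)
    (G U : Matrix (γ ⊕ γ) (γ ⊕ γ) E) (hUD : ∀ i k, Δ * D (U i k) = -(G * U) i k)
    (c : γ ⊕ γ → E) :
    nab D Δ G (U.mulVec c) = Δ • U.mulVec (fun i => D (c i)) := by
  unfold nab
  funext i
  have h1 : Δ * D (U.mulVec c i) = -((G * U).mulVec c i) + Δ * U.mulVec (fun i => D (c i)) i := by
    simp only [Matrix.mulVec, dotProduct, map_sum, Derivation.leibniz, smul_eq_mul,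
      Finset.mul_sum]
    rw [← Finset.sum_neg_distrib, ← Finset.sum_add_distrib]
    refine Finset.sum_congr rfl fun k _ => ?_
    have := hUD i k
    linear_combination c k * this
  rw [h1, Matrix.mulVec_mulVec, Pi.smul_apply, smul_eq_mul]
  ring

private noncomputable def LagX_B (E : Type*) [Field E] (γ : Type) [Fintype γ] [DecidableEq γ] :
    LinearMap.BilinForm E (γ ⊕ γ → E) :=
  LinearMap.mk₂ E (fun u v => BB (J0 E γ) u v) LagX_BB_add (fun c u v => LagX_BB_smul c u v)
    LagX_BB_add' (fun c u v => LagX_BB_smul' c u v)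

private theorem LagX_B_apply {E : Type*} [Field E] (u v : γ ⊕ γ → E) :
    LagX_B E γ u v = BB (J0 E γ) u v := rfl

private theorem LagX_B_ker {E : Type*} [Field E] : LinearMap.ker (LagX_B E γ) = ⊥ := by
  rw [LinearMap.ker_eq_bot']
  intro u hu
  have h1 : ∀ v, BB (J0 E γ) u v = 0 := fun v => by
    rw [← LagX_B_apply, hu, LinearMap.zero_apply]
  funext i
  rcases i with a | a
  · have h2 := h1 (Pi.single (Sum.inr a) 1)
    rw [LagX_BB_eq] at h2
    have h3 : ∀ b, u (Sum.inr b) * (Pi.single (Sum.inr a) 1 : γ ⊕ γ → E) (Sum.inl b) -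
        u (Sum.inl b) * (Pi.single (Sum.inr a) 1 : γ ⊕ γ → E) (Sum.inr b) =
        if b = a then - u (Sum.inl b) else 0 := by
      intro b
      by_cases hb : b = a
      · rw [if_pos hb, hb, Pi.single_eq_same, Pi.single_eq_of_ne (by simp)]
        ring
      · rw [if_neg hb, Pi.single_eq_of_ne (by simp), Pi.single_eq_of_ne (by simpa using hb)]
        ring
    rw [Finset.sum_congr rfl fun b _ => h3 b, Finset.sum_ite_eq' Finset.univ a,
      if_pos (Finset.mem_univ a)] at h2
    rw [Pi.zero_apply]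
    exact neg_eq_zero.mp h2
  · have h2 := h1 (Pi.single (Sum.inl a) 1)
    rw [LagX_BB_eq] at h2
    have h3 : ∀ b, u (Sum.inr b) * (Pi.single (Sum.inl a) 1 : γ ⊕ γ → E) (Sum.inl b) -
        u (Sum.inl b) * (Pi.single (Sum.inl a) 1 : γ ⊕ γ → E) (Sum.inr b) =
        if b = a then u (Sum.inr b) else 0 := by
      intro b
      by_cases hb : b = a
      · rw [if_pos hb, hb, Pi.single_eq_same, Pi.single_eq_of_ne (by simp)]
        ring
      · rw [if_neg hb, Pi.single_eq_of_ne (by simpa using hb), Pi.single_eq_of_ne (by simp)]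
        ring
    rw [Finset.sum_congr rfl fun b _ => h3 b, Finset.sum_ite_eq' Finset.univ a,
      if_pos (Finset.mem_univ a)] at h2
    rw [Pi.zero_apply]
    exact h2

private theorem LagX_mem_orth {E : Type*} [Field E] (W : Submodule E (γ ⊕ γ → E))
    (u : γ ⊕ γ → E) :
    u ∈ (LagX_B E γ).orthogonal W ↔ ∀ x ∈ W, BB (J0 E γ) x u = 0 := Iff.rfl

private theorem LagX_finrank {E : Type*} [Field E] (W : Submodule E (γ ⊕ γ → E)) :
    Module.finrank E W + Module.finrank E ((LagX_B E γ).orthogonal W) =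
      2 * Fintype.card γ := by
  have h1 := LinearMap.BilinForm.finrank_add_finrank_orthogonal' (B := LagX_B E γ) W
  rw [LagX_B_ker, inf_bot_eq, finrank_bot, add_zero, Module.finrank_fintype_fun_eq_card,
    Fintype.card_sum] at h1
  rw [h1]
  ring

theorem max_lag {L' : Type w} [Field L'] (D : Derivation ℤ L' L') (Δ : L') (hΔ : Δ ≠ 0)
    (G : Matrix (γ ⊕ γ) (γ ⊕ γ) L') (hflat : G.transpose * J0 L' γ + J0 L' γ * G = 0)
    (U : Matrix (γ ⊕ γ) (γ ⊕ γ) L') (hU : U.det ≠ 0)
    (hUD : ∀ i k, Δ * D (U i k) = -(G * U) i k) (W : Submodule L' (γ ⊕ γ → L'))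
    (hiso : ∀ u ∈ W, ∀ v ∈ W, BB (J0 L' γ) u v = 0) (hst : ∀ u ∈ W, nab D Δ G u ∈ W) :
    ∃ W' : Submodule L' (γ ⊕ γ → L'), W ≤ W' ∧ (∀ u ∈ W', ∀ v ∈ W', BB (J0 L' γ) u v = 0) ∧
      (∀ u ∈ W', nab D Δ G u ∈ W') ∧ Module.finrank L' W' = Fintype.card γ := by
  classical
  obtain ⟨W', ⟨hW1, hW2, hW3⟩, hmax⟩ := wellFounded_gt.has_min
    {X : Submodule L' (γ ⊕ γ → L') | W ≤ X ∧ (∀ u ∈ X, ∀ v ∈ X, BB (J0 L' γ) u v = 0) ∧
      ∀ u ∈ X, nab D Δ G u ∈ X} ⟨W, le_rfl, hiso, hst⟩
  have hWO : W' ≤ (LagX_B L' γ).orthogonal W' := fun u hu x hx => hW2 x hx u hu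
  have hOst : ∀ u ∈ (LagX_B L' γ).orthogonal W',
      nab D Δ G u ∈ (LagX_B L' γ).orthogonal W' := by
    intro u hu
    rw [LagX_mem_orth] at hu ⊢
    intro x hx
    have h1 := LagX_BB_nab D Δ G hflat x u
    rw [hu x hx, map_zero, mul_zero, hu _ (hW3 x hx), zero_add] at h1
    exact h1.symm
  have hOW : (LagX_B L' γ).orthogonal W' ≤ W' := by
    by_contra hcon
    -- the constant vectors
    have hex : ∃ c : γ ⊕ γ → L', (∀ i, D (c i) = 0) ∧
        U.mulVec c ∈ (LagX_B L' γ).orthogonal W' ∧ U.mulVec c ∉ W' := by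
      by_contra hno
      apply hcon
      have hV := span_const D (((LagX_B L' γ).orthogonal W').comap (Matrix.mulVecLin U)) (by
        intro c hc
        rw [Submodule.mem_comap, Matrix.mulVecLin_apply] at hc ⊢
        have h1 := hOst _ hc
        rw [LagX_nab_U D Δ G U hUD] at h1
        have h2 := Submodule.smul_mem _ Δ⁻¹ h1
        rwa [smul_smul, inv_mul_cancel₀ hΔ, one_smul] at h2)
      have hle : ((LagX_B L' γ).orthogonal W').comap (Matrix.mulVecLin U) ≤
          W'.comap (Matrix.mulVecLin U) := by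
        rw [hV, Submodule.span_le]
        rintro c ⟨hc1, hc2⟩
        change Matrix.mulVecLin U c ∈ W'
        rw [Matrix.mulVecLin_apply]
        by_contra hc3
        exact hno ⟨c, hc2, hc1, hc3⟩
      intro u hu
      have hUu : IsUnit U.det := isUnit_iff_ne_zero.mpr hU
      have h1 : U.mulVec (U⁻¹.mulVec u) = u := by
        rw [Matrix.mulVec_mulVec, Matrix.mul_nonsing_inv _ hUu, Matrix.one_mulVec]
      have h2 : U⁻¹.mulVec u ∈ ((LagX_B L' γ).orthogonal W').comap (Matrix.mulVecLin U) := by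
        rw [Submodule.mem_comap, Matrix.mulVecLin_apply, h1]
        exact hu
      have h3 := hle h2
      rw [Submodule.mem_comap, Matrix.mulVecLin_apply, h1] at h3
      exact h3
    obtain ⟨c, hc1, hc2, hc3⟩ := hex
    have hnab : nab D Δ G (U.mulVec c) = 0 := by
      rw [LagX_nab_U D Δ G U hUD]
      have h1 : (fun i => D (c i)) = 0 := funext hc1
      rw [h1, Matrix.mulVec_zero, smul_zero]
    generalize U.mulVec c = u at hc2 hc3 hnab
    rw [LagX_mem_orth] at hc2
    have hmem : ∀ x ∈ W' ⊔ Submodule.span L' {u}, ∃ y ∈ W', ∃ t : L', x = y + t • u := by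
      intro x hx
      obtain ⟨y, hy, z, hz, rfl⟩ := Submodule.mem_sup.mp hx
      obtain ⟨t, rfl⟩ := Submodule.mem_span_singleton.mp hz
      exact ⟨y, hy, t, rfl⟩
    have hu : u ∈ W' ⊔ Submodule.span L' {u} :=
      Submodule.mem_sup_right (Submodule.mem_span_singleton_self u)
    refine hmax (W' ⊔ Submodule.span L' {u}) ⟨hW1.trans le_sup_left, ?_, ?_⟩ ?_
    · intro x hx y hy
      obtain ⟨x', hx', t, rfl⟩ := hmem x hx
      obtain ⟨y', hy', s, rfl⟩ := hmem y hy
      rw [LagX_BB_add, LagX_BB_add', LagX_BB_add', LagX_BB_smul, LagX_BB_smul', LagX_BB_smul,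
        LagX_BB_smul', LagX_BB_self, LagX_BB_swap u y', hc2 x' hx', hc2 y' hy',
        hW2 x' hx' y' hy']
      ring
    · intro x hx
      obtain ⟨x', hx', t, rfl⟩ := hmem x hx
      rw [LagX_nab_add, LagX_nab_smul, hnab, smul_zero, zero_add]
      exact Submodule.add_mem _ (Submodule.mem_sup_left (hW3 x' hx')) (Submodule.smul_mem _ _ hu)
    · exact lt_of_le_of_ne le_sup_left fun h => hc3 (by rw [h]; exact hu)
  have hfin := LagX_finrank W'
  rw [le_antisymm hOW hWO] at hfin
  exact ⟨W', hW1, hW2, hW3, by omega⟩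

theorem exists_lag {L : Type w} [Field L] (D : Derivation ℤ L L) (Δ : L) (hΔ : Δ ≠ 0)
    (G : Matrix (γ ⊕ γ) (γ ⊕ γ) L) (hflat : G.transpose * J0 L γ + J0 L γ * G = 0)
    (W : Submodule L (γ ⊕ γ → L)) (hiso : ∀ u ∈ W, ∀ v ∈ W, BB (J0 L γ) u v = 0)
    (hst : ∀ u ∈ W, nab D Δ G u ∈ W) :
    ∃ (L' : Type w) (_ : Field L') (j : L →+* L') (D' : Derivation ℤ L' L')
      (w V : γ → γ ⊕ γ → L') (M : Matrix γ γ L'),
      (∀ x, D' (j x) = j (D x)) ∧ (∀ i k, V i ⬝ᵥ w k = if i = k then 1 else 0) ∧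
      (∀ i k, BB (J0 L' γ) (w i) (w k) = 0) ∧
      (∀ k, nab D' (j Δ) (G.map j) (w k) = ∑ i, M i k • w i) ∧
      ∀ x ∈ W, (fun i => j (x i)) ∈ Submodule.span L' (Set.range w) := by
  classical
  obtain ⟨L', iL', j, D', U, hjD, hUdet, hU⟩ :=
    exists_sol D (Matrix.of fun i k => Δ⁻¹ * G i k)
  have hjΔ : j Δ ≠ 0 := by
    rw [Ne, map_eq_zero]
    exact hΔ
  have hUD : ∀ i k, j Δ * D' (U i k) = -(G.map j * U) i k := by
    intro i k
    rw [hU i k]
    rw [Matrix.mul_apply, Matrix.mul_apply, mul_neg, Finset.mul_sum]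
    apply congrArg
    refine Finset.sum_congr rfl fun l _ => ?_
    rw [Matrix.map_apply, Matrix.map_apply, Matrix.of_apply, map_mul, map_inv₀, ← mul_assoc,
      ← mul_assoc, mul_inv_cancel₀ hjΔ, one_mul]
  have hJ : (J0 L γ).map j = J0 L' γ := by
    unfold J0
    rw [Matrix.fromBlocks_map]
    simp [Matrix.map_neg]
  have hflat' : (G.map j).transpose * J0 L' γ + J0 L' γ * G.map j = 0 := by
    have h1 := congrArg (fun M : Matrix (γ ⊕ γ) (γ ⊕ γ) L => M.map j) hflat
    rw [Matrix.map_add j (map_add j), Matrix.map_mul, Matrix.map_mul, hJ,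
      Matrix.map_zero _ (map_zero j)] at h1
    rw [Matrix.transpose_map] at *
    exact h1
  have hBB : ∀ u v : γ ⊕ γ → L, BB (J0 L' γ) (fun i => j (u i)) (fun i => j (v i)) =
      j (BB (J0 L γ) u v) := by
    intro u v
    rw [LagX_BB_eq, LagX_BB_eq, map_sum]
    refine Finset.sum_congr rfl fun a _ => ?_
    rw [map_sub, map_mul, map_mul]
  have hnab : ∀ u : γ ⊕ γ → L, nab D' (j Δ) (G.map j) (fun i => j (u i)) =
      fun i => j (nab D Δ G u i) := by
    intro u
    unfold nab
    funext i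
    rw [map_add, map_mul, hjD]
    simp only [Matrix.mulVec, dotProduct, map_sum, map_mul, Matrix.map_apply]
  obtain ⟨W₁, hW₁⟩ : ∃ W₁ : Submodule L' (γ ⊕ γ → L'),
      W₁ = Submodule.span L' ((fun (x : γ ⊕ γ → L) i => j (x i)) '' (W : Set (γ ⊕ γ → L))) :=
    ⟨_, rfl⟩
  have hiso₁ : ∀ u ∈ W₁, ∀ v ∈ W₁, BB (J0 L' γ) u v = 0 := by
    intro u hu v hv
    rw [hW₁] at hu hv
    induction hu using Submodule.span_induction with
    | mem u hu =>
      obtain ⟨x, hx, rfl⟩ := hu
      induction hv using Submodule.span_induction with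
      | mem v hv =>
        obtain ⟨y, hy, rfl⟩ := hv
        rw [hBB, hiso x hx y hy, map_zero]
      | zero =>
        unfold BB
        rw [Matrix.mulVec_zero, dotProduct_zero]
      | add v v' _ _ h1 h2 => rw [LagX_BB_add', h1, h2, add_zero]
      | smul c v _ h1 => rw [LagX_BB_smul', h1, mul_zero]
    | zero =>
      unfold BB
      rw [zero_dotProduct]
    | add u u' _ _ h1 h2 => rw [LagX_BB_add, h1, h2, add_zero]
    | smul c u _ h1 => rw [LagX_BB_smul, h1, mul_zero]
  have hst₁ : ∀ u ∈ W₁, nab D' (j Δ) (G.map j) u ∈ W₁ := by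
    intro u hu
    rw [hW₁] at hu ⊢
    induction hu using Submodule.span_induction with
    | mem u hu =>
      obtain ⟨x, hx, rfl⟩ := hu
      rw [hnab]
      exact Submodule.subset_span ⟨nab D Δ G x, hst x hx, rfl⟩
    | zero =>
      have h1 : nab D' (j Δ) (G.map j) (0 : γ ⊕ γ → L') = 0 := by
        unfold nab
        funext i
        rw [Matrix.mulVec_zero, Pi.zero_apply, map_zero, mul_zero, add_zero]
      rw [h1]
      exact Submodule.zero_mem _
    | add u u' _ _ h1 h2 =>
      rw [LagX_nab_add]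
      exact Submodule.add_mem _ h1 h2
    | smul c u hu h1 =>
      rw [LagX_nab_smul]
      exact Submodule.add_mem _ (Submodule.smul_mem _ _ h1) (Submodule.smul_mem _ _ hu)
  obtain ⟨W', hWW, hiso', hst', hfin⟩ :=
    max_lag D' (j Δ) hjΔ (G.map j) hflat' U hUdet hUD W₁ hiso₁ hst₁
  obtain ⟨b⟩ : Nonempty (Module.Basis γ L' W') :=
    ⟨(Module.finBasisOfFinrankEq L' W' hfin).reindex (Fintype.equivFin γ).symm⟩
  have hspan : Submodule.span L' (Set.range fun i => (b i : γ ⊕ γ → L')) = W' := by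
    have h1 := b.span_eq
    have h2 := congrArg (Submodule.map W'.subtype) h1
    rw [Submodule.map_top, Submodule.range_subtype, Submodule.map_span, ← Set.range_comp] at h2
    exact h2
  have hli : LinearIndependent L' fun i => (b i : γ ⊕ γ → L') :=
    b.linearIndependent.map' W'.subtype (Submodule.ker_subtype W')
  have hinj : LinearMap.ker (Fintype.linearCombination L' fun i => (b i : γ ⊕ γ → L')) = ⊥ := by
    rw [LinearMap.ker_eq_bot]
    exact hli.fintypeLinearCombination_injective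
  obtain ⟨g, hg⟩ := LinearMap.exists_leftInverse_of_injective _ hinj
  refine ⟨L', iL', j, D', fun i => (b i : γ ⊕ γ → L'), fun i m => g (Pi.single m 1) i,
    Matrix.of fun i k => b.repr ⟨nab D' (j Δ) (G.map j) (b k), hst' _ (b k).2⟩ i, hjD, ?_, ?_,
    ?_, ?_⟩
  · intro i k
    have h1 : (fun m => g (Pi.single m 1) i) ⬝ᵥ (b k : γ ⊕ γ → L') = g (b k : γ ⊕ γ → L') i := by
      have h2 : (b k : γ ⊕ γ → L') =
          ∑ m, (b k : γ ⊕ γ → L') m • (Pi.single m 1 : γ ⊕ γ → L') := by
        funext m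
        rw [Finset.sum_apply]
        simp [Pi.single_apply]
      conv_rhs => rw [h2]
      rw [map_sum, Finset.sum_apply]
      simp only [map_smul, Pi.smul_apply, smul_eq_mul, dotProduct]
      exact Finset.sum_congr rfl fun m _ => mul_comm _ _
    rw [h1]
    have h3 := LinearMap.congr_fun hg (Pi.single k 1)
    rw [LinearMap.comp_apply, Fintype.linearCombination_apply, LinearMap.id_apply] at h3
    have h4 : ∑ i, (Pi.single k 1 : γ → L') i • (b i : γ ⊕ γ → L') = b k := by
      simp [Pi.single_apply]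
    rw [h4] at h3
    rw [h3, Pi.single_apply]
  · intro i k
    exact hiso' _ (b i).2 _ (b k).2
  · intro k
    have h1 := b.sum_repr ⟨nab D' (j Δ) (G.map j) (b k), hst' _ (b k).2⟩
    have h2 := congrArg (Submodule.subtype W') h1
    rw [map_sum] at h2
    exact h2.symm
  · intro x hx
    rw [hspan]
    apply hWW
    rw [hW₁]
    exact Submodule.subset_span ⟨x, hx, rfl⟩

end MPadcLF
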