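import Mathlib
import Pool.Agent.Lib.MP_adc574_ag_LF.Final

/-!
# Dense ordinary reduction of the generic members of Lefschetz pencils of curves

`k` is an algebraically closed field of characteristic zero, `A` a finitely generated subring, and
`F(x, Y)` a polynomial over `A`, monic of degree `n` in `Y`, such that the coefficient of `Y ^ j` has
degree at most `w (n - j)` in `x`. Its zeros form an affine curve whose closure in the Hirzebruch
surface of degree `w` (the projective plane blown up in the point `(0 : 1 : 0)`, which is not on the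
curve, for `w = 1`) is a projective curve.

The curve `F = 0` is supposed to be smooth and to be the member with parameter `t`, transcendental
over a subfield `k₀`, of a family `Φ(T, x, Y) = 0` over `k₀` parametrized by the affine line with
coordinate `T`, such that all the members whose parameter is algebraic over `k₀` are smooth or have
exactly one singular point, a node in the affine part. The family is a pencil `G + T H` (there is no
condition on the member `H`) or, more generally, has no constant part: the relative de Rham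
cohomology of the smooth members has no nonzero horizontal sections.

Then for all large primes `p` there are many closed points `s` of `Spec A` of characteristic `p` such
that the reduced curve is ordinary: it has no nonzero exact regular differential.
-/

set_option autoImplicit false

namespace Pool.Agent.Results.MP_adc574_ag.LefschetzPencils

open Polynomial

universe u

section

variable (κ : Type*) [Field κ] {E : Type*} [CommRing E] [Algebra (RatFunc κ) E]

/-- The function `b` is integral over `κ[u]`, where `u` is a rational function of `x`. -/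
def IsIntegralOver (u : RatFunc κ) (b : E) : Prop :=
  ((algebraMap (RatFunc κ) E).comp
    (aeval u : κ[X] →ₐ[κ] RatFunc κ).toRingHom).IsIntegralElem b

/-- The differential `φ dx` on the smooth projective model of the curve over `κ` with the ring of
functions `E`, finite over `κ(x)`, is regular at the points with finite `x`: the trace of `φ b` is a
polynomial in `x` for all functions `b` integral over `κ[x]`. -/
def IsRegularAtFinite (φ : E) : Prop :=
  ∀ b : E, IsIntegralOver κ RatFunc.X b →
    ∃ q : κ[X], Algebra.trace (RatFunc κ) E (φ * b) = algebraMap κ[X] (RatFunc κ) q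

/-- The differential `φ dx` is regular at the points over `x = ∞`: the trace of `φ b` is zero or of
degree at most `-2` for all functions `b` integral over `κ[1/x]`. -/
def IsRegularAtInfinity (φ : E) : Prop :=
  ∀ b : E, IsIntegralOver κ RatFunc.X⁻¹ b →
    Algebra.trace (RatFunc κ) E (φ * b) = 0 ∨ (Algebra.trace (RatFunc κ) E (φ * b)).intDegree ≤ -2

/-- The differential `φ dx` is exact. -/
def IsExact [Algebra κ E] (φ : E) : Prop :=
  ∃ G : E, KaehlerDifferential.D κ E G =
    φ • KaehlerDifferential.D κ E (algebraMap (RatFunc κ) E RatFunc.X)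

end

section

variable {A : Type*} [CommRing A] {κ : Type*} [Field κ] (ρ : A →+* κ) (F : A[X][X])

/-- The polynomial `F(x, Y)` over the field `κ(x)`, for a homomorphism `ρ` from the ring of the
coefficients to `κ`. The curve `F = 0` over `κ` has the ring of functions
`AdjoinRoot (fibre ρ F) = κ(x)[Y]/(F)`. -/
noncomputable def fibre : (RatFunc κ)[X] :=
  F.map ((algebraMap κ[X] (RatFunc κ)).comp (mapRingHom ρ))

/-- The curve `F = 0` over `κ` is ordinary: it has no nonzero exact regular differential. -/
def IsOrdinary : Prop :=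
  ∀ φ : AdjoinRoot (fibre ρ F), IsRegularAtFinite κ φ → IsRegularAtInfinity κ φ → IsExact κ φ →
    φ = 0

/-- The geometric point over a point `s` of `Spec A`. -/
noncomputable def geometricPoint (s : PrimeSpectrum A) :
    A →+* AlgebraicClosure s.asIdeal.ResidueField :=
  algebraMap A (AlgebraicClosure s.asIdeal.ResidueField)

end

section

variable {R : Type*} [CommRing R]

/-- The polynomial `F` is monic of degree `n` in `Y`, and the coefficient of `Y ^ j` has degree at
most `w (n - j)` in `x`. -/
def HasShape (w n : ℕ) (F : R[X][X]) : Prop :=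
  F.Monic ∧ F.natDegree = n ∧ ∀ j < n, (F.coeff j).natDegree ≤ w * (n - j)

/-- The derivative with respect to the inner variable `x`. -/
noncomputable def derivativeX (F : R[X][X]) : R[X][X] :=
  F.sum fun j c => monomial j (derivative c)

/-- The ideal generated by `F`, `∂F/∂x`, `∂F/∂Y`. If `R` is an algebraically closed field, then it is
the unit ideal if and only if the affine curve `F = 0` is smooth, and a maximal ideal if and only if
the curve has exactly one singular point and this point is a node. -/
noncomputable def singularIdeal (F : R[X][X]) : Ideal R[X][X] :=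
  Ideal.span {F, derivativeX F, derivative F}

/-- The form at infinity `∑ j ≤ n, (F j)_(w (n - j)) z ^ j`, where `(F j)_a` is the coefficient of
`x ^ a Y ^ j`: its zeros are the points at infinity. -/
noncomputable def formAtInfinity (w n : ℕ) (F : R[X][X]) : R[X] :=
  ∑ j ∈ Finset.range (n + 1), C ((F.coeff j).coeff (w * (n - j))) * X ^ j

/-- The next form at infinity `∑ j < n, (F j)_(w (n - j) - 1) z ^ j`. -/
noncomputable def nextForm (w n : ℕ) (F : R[X][X]) : R[X] :=
  ∑ j ∈ Finset.range n, C ((F.coeff j).coeff (w * (n - j) - 1)) * X ^ j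

/-- The curve `F = 0` is smooth at infinity: in the coordinates `u = 1 / x`, `z = Y / x ^ w` its
equation is `formAtInfinity z + nextForm z u + O(u ^ 2)`. -/
def SmoothAtInfinity (w n : ℕ) (F : R[X][X]) : Prop :=
  ∀ z : R, (formAtInfinity w n F).eval z = 0 → (derivative (formAtInfinity w n F)).eval z = 0 →
    (nextForm w n F).eval z ≠ 0

/-- The family `Φ(T, x, Y)` (`T` is the innermost variable) is a pencil `G + T H` with `H ≠ 0`. -/
def IsPencil (Φ : R[X][X][X]) : Prop :=
  (∀ i j, ((Φ.coeff i).coeff j).natDegree ≤ 1) ∧ ∃ i j, ((Φ.coeff i).coeff j).coeff 1 ≠ 0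

end

/-- The member with parameter `τ` of the family `Φ(T, x, Y)` over `k₀`. -/
noncomputable def member {k : Type*} [Field k] (k₀ : Subfield k) (Φ : k₀[X][X][X]) (τ : k) :
    k[X][X] :=
  Φ.map (mapRingHom (eval₂RingHom (algebraMap k₀ k) τ))

/-- Let `E` be the ring of functions of a curve over `κ`, where `κ` is a field of functions of `T`
over `k₀`, let `d = d/dx` be the derivation of `E` over `κ` with `d x = 1` and `D = d/dT` the
derivation of `E` over `k₀` with `D T = 1`, `D x = 0`. Let the differential `φ dx` be of the second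
kind in the following sense: it is regular at the points with finite `x`, and for some function `b`
the differential `φ dx - db` is regular at the points over `x = ∞`. If `(D φ) dx` is exact, then
`φ dx` is exact. In other words, the de Rham cohomology has no nonzero horizontal elements. -/
def HorizontalFormsAreExact (k₀ : Type*) {κ : Type*} (E : Type*) [Field k₀] [Field κ] [CommRing E]
    [Algebra k₀ E] [Algebra κ E] [Algebra (RatFunc κ) E] (T : κ) : Prop :=
  ∀ (d : Derivation κ E E) (D : Derivation k₀ E E),
    d (algebraMap (RatFunc κ) E RatFunc.X) = 1 → D (algebraMap κ E T) = 1 →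
    D (algebraMap (RatFunc κ) E RatFunc.X) = 0 →
    ∀ φ b z : E, IsRegularAtFinite κ φ → IsRegularAtInfinity κ (φ - d b) → D φ = d z →
      ∃ u, φ = d u

/-- The family `Φ(T, x, Y)` over `k₀` has no constant part: all horizontal forms on its generic
member, the curve `Φ = 0` over `k₀(T)`, are exact. -/
def NoConstantPart {k₀ : Type*} [Field k₀] (Φ : k₀[X][X][X]) : Prop :=
  HorizontalFormsAreExact k₀ (AdjoinRoot (fibre (algebraMap k₀[X] (RatFunc k₀)) Φ))
    (RatFunc.X : RatFunc k₀)

section

variable {κ : Type*} [Field κ] {E : Type*} [CommRing E] [Algebra (RatFunc κ) E]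

private theorem fin_iff (φ : E) : IsRegularAtFinite κ φ ↔
    ∀ b : E, MPadcCov.IntX κ b → MPadcCov.IsPol (MPadcCov.Tr κ E (φ * b)) := by
  have h1 : (aeval (RatFunc.X : RatFunc κ) : κ[X] →ₐ[κ] RatFunc κ).toRingHom =
      algebraMap κ[X] (RatFunc κ) := by
    apply Polynomial.ringHom_ext
    · intro c
      simp
    · simp
  unfold IsRegularAtFinite MPadcCov.IntX MPadcCov.IsPol IsIntegralOver
  rw [h1]
  constructor
  · intro h2 b hb
    obtain ⟨q, hq⟩ := h2 b hb
    exact ⟨q, hq.symm⟩
  · intro h2 b hb
    obtain ⟨q, hq⟩ := h2 b hb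
    exact ⟨q, hq.symm⟩

private theorem inf_iff (φ : E) : IsRegularAtInfinity κ φ ↔
    ∀ b : E, MPadcCov.IntI κ b → MPadcCov.Dle (MPadcCov.Tr κ E (φ * b)) (-2) :=
  Iff.rfl

end

private theorem fibre_eq {A : Type*} [CommRing A] {κ : Type*} [Field κ] (ρ : A →+* κ)
    (F : A[X][X]) : fibre ρ F = (MPadcLF.mp ρ F).map (algebraMap κ[X] (RatFunc κ)) := by
  rw [fibre, MPadcLF.mp, coe_mapRingHom, Polynomial.map_map]

/-- A derivation given by a function. -/
private theorem exists_der {R L : Type*} [CommRing R] [CommRing L] [Algebra R L] (f : L → L)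
    (hf : MPadcLF.IsDer f) (h0 : ∀ r : R, f (algebraMap R L r) = 0) :
    ∃ d : Derivation R L L, ∀ z, d z = f z := by
  refine ⟨Derivation.mk' { toFun := f, map_add' := hf.add, map_smul' := fun r z => ?_ }
    (fun a b => ?_), fun z => rfl⟩
  · rw [Algebra.smul_def, hf.mul, h0, mul_zero, add_zero, RingHom.id_apply, Algebra.smul_def]
  · exact hf.mul a b

private theorem noConst {k₀ : Type*} [Field k₀] {Φ : k₀[X][X][X]} (h : NoConstantPart Φ) :
    MPadcLF.NoConst k₀ (MPadcLF.mp (algebraMap k₀[X] (RatFunc k₀)) Φ) := by
  unfold NoConstantPart HorizontalFormsAreExact at h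
  unfold MPadcLF.NoConst
  rw [fibre_eq] at h
  intro d D hd hD h1 h2 h3 h4 h5 φ b z h6 h7 h8
  obtain ⟨d', hd'⟩ := exists_der (R := RatFunc k₀) d hd (fun c => h1 c)
  obtain ⟨D', hD'⟩ := exists_der (R := k₀) D hD (fun c => h3 c)
  obtain ⟨u, hu⟩ := h d' D' ((hd' _).trans h2) ((hD' _).trans h4) ((hD' _).trans h5) φ b z
    ((fin_iff φ).2 h6) ((inf_iff _).2 (by rw [hd']; exact h7)) (by rw [hD', hd']; exact h8)
  exact ⟨u, by rw [hu, hd']⟩

private theorem wt {R : Type*} [CommRing R] [Nontrivial R] {w n : ℕ} {F : R[X][X]}
    (h : HasShape w n F) : MPadcLF.Wt w n F := by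
  obtain ⟨h1, h2, h3⟩ := h
  refine ⟨h1, h2, ?_⟩
  intro j hj
  rcases lt_trichotomy j n with h | h | h
  · have h5 := h3 j h
    have h6 : w * (n - j) + w * j = w * n := by
      rw [← Nat.mul_add, Nat.sub_add_cancel h.le]
    omega
  · have h5 : F.coeff j = 1 := by
      rw [h, ← h2]
      exact h1
    rw [h5, natDegree_one, zero_add, h]
  · exfalso
    apply hj
    exact coeff_eq_zero_of_natDegree_lt (by rw [h2]; exact h)

theorem result {k : Type u} [Field k] [IsAlgClosed k] [CharZero k] (A : Subalgebra ℤ k)
    (hA : A.FG) {w n : ℕ} (hn : 0 < n) (hw : 0 < w) (k₀ : Subfield k) (Φ : k₀[X][X][X])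
    (hΦ : HasShape w n Φ) (hΦ' : IsPencil Φ ∨ NoConstantPart Φ)
    (t : k) (ht : Transcendental k₀ t) (F : A[X][X])
    (hF : F.map (mapRingHom (algebraMap A k)) = member k₀ Φ t)
    (hsm : singularIdeal (member k₀ Φ t) = ⊤)
    (hsep : (formAtInfinity w n (member k₀ Φ t)).Separable)
    (hnodal : ∀ τ : k, IsAlgebraic k₀ τ → singularIdeal (member k₀ Φ τ) = ⊤ ∨
      (singularIdeal (member k₀ Φ τ)).IsMaximal)
    (hinf : ∀ τ : k, IsAlgebraic k₀ τ → SmoothAtInfinity w n (member k₀ Φ τ))
    (a : A) (ha : a ≠ 0) :
    ∃ p₀ : ℕ, ∀ p : ℕ, p₀ ≤ p → p.Prime →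
      ∃ s : PrimeSpectrum A, s.asIdeal.IsMaximal ∧ a ∉ s.asIdeal ∧ (p : A) ∈ s.asIdeal ∧
        Irreducible (fibre (geometricPoint s) F) ∧ IsOrdinary (geometricPoint s) F := by
  classical
  have hFmp : MPadcLF.mp (algebraMap A k) F = member k₀ Φ t := hF
  obtain ⟨p₀, hp₀⟩ := MPadcLF.final A hA hn hw F (by rw [hFmp]; exact hsm)
    (by rw [hFmp]; exact hsep) k₀ t ht Φ (wt hΦ) hFmp.symm hnodal hinf (hΦ'.imp id noConst) a ha
  refine ⟨p₀, fun p hp hprime => ?_⟩
  obtain ⟨𝔪, h𝔪, ha𝔪, hp𝔪, hker⟩ := hp₀ p hp hprime
  let s : PrimeSpectrum A := ⟨𝔪, h𝔪.isPrime⟩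
  have hρ : RingHom.ker (geometricPoint s) = 𝔪 := by
    have h1 : geometricPoint s = (algebraMap s.asIdeal.ResidueField
        (AlgebraicClosure s.asIdeal.ResidueField)).comp (algebraMap A s.asIdeal.ResidueField) :=
      IsScalarTower.algebraMap_eq A s.asIdeal.ResidueField _
    rw [h1, RingHom.ker_comp_of_injective _ (RingHom.injective _)]
    exact Ideal.ker_algebraMap_residueField s.asIdeal
  obtain ⟨h1, h2⟩ := hker _ (geometricPoint s) hρ
  refine ⟨s, h𝔪, ha𝔪, hp𝔪, ?_, ?_⟩
  · rw [fibre_eq]
    exact h1
  · unfold IsOrdinary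
    rw [fibre_eq]
    intro φ hφ hφ' hφe
    exact h2 φ ⟨(fin_iff φ).1 hφ, (inf_iff φ).1 hφ'⟩ hφe

end Pool.Agent.Results.MP_adc574_ag.LefschetzPencils
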