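import Pool.Agent.Lib.MP_adc574_ag_LF.Frc
import Pool.Agent.Lib.MP_adc574_ag_LF.LQ
import Pool.Agent.Lib.MP_adc574_ag_LF.PlF
import Pool.Agent.Lib.MP_adc574_ag_LF.PlI
import Pool.Agent.Lib.MP_adc574_ag_LF.NoHor
import Pool.Agent.Lib.MP_adc574_ag_Cov.Der

/-!
# JOB PenN: pencils have no constant part

Paper 6.2. `κb = AlgebraicClosure κ`, `Λ = FractionRing (PowerSeries κb)`, `DΛ` from `ext_frac` (Cov/Der.lean) for the
derivation `PowerSeries.derivative`.
* `pencil_form`: `φ = d G + ∑ l_j d u_j / u_j`. `exists_indep`: `l_j = ∑ N_ji μ_i`; `U_i = ∏ u_j ^ N_ji` (integer powers,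
  nonzero), so `φ = d G + ∑ μ_i d U_i / U_i` (logarithmic derivatives of products, `μ_i` as constants of `κ ⊇ k`).
* At a finite branch `χ` (`exists_place`): `θ (d z) = (c / θ F_Y) DΛ (θ z)`; `θ (φ F_Y) ∈ PowerSeries` (`φ F_Y ∈ B`, so
  `= ev h`). So `DΛ (θ G) + ∑ μ_i DΛ (θ U_i) / θ U_i = c⁻¹ θ (φ F_Y)` is in `PowerSeries κb`. `exists_order` and `res_zero`:
  `∑ μ_i N_i = 0` in `κb` for the orders `N_i` of the `θ U_i`; the `μ_i` are independent over `ℚ` (in `k`, `k → κb` injective), so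
  `N_i = 0` and `θ U_i`, `θ U_i⁻¹` are in `PowerSeries κb`. `inB_of_places`: `U_i ∈ B`.
* At infinity (`place_inf_der`, `place_inf_deg` with `m = 2`): `φ - d b = d (G - b) + ∑ μ_i d U_i / U_i`, and
  `θ (φ - d b) = s ^ 2 f`, `θ (d z) = - s ^ 2 DΛ (θ z)`, so `DΛ (θ (G - b)) + ∑ … = - f`: again `N_i = 0`,
  `bdeg_of_places`: `BDeg 0 U_i`.
* `InB e U` and `BDeg 0 U` imply `U = inE (pol (C c))` (the coordinates are polynomials of degree `≤ - w i`; `w > 0`), so
  `d U = 0`. So `φ = d G`.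
-/

set_option autoImplicit false

namespace MPadcLF

open Polynomial MPadcCov

section logder

variable {E : Type*} [Field E] (d : Derivation ℤ E E)

private theorem PenN_log_mul {a b : E} (ha : a ≠ 0) (hb : b ≠ 0) :
    d (a * b) / (a * b) = d a / a + d b / b := by
  rw [Derivation.leibniz, smul_eq_mul, smul_eq_mul]
  field_simp
  ring

private theorem PenN_log_prod {J : Type*} (s : Finset J) (f : J → E) (hf : ∀ j ∈ s, f j ≠ 0) :
    d (∏ j ∈ s, f j) / (∏ j ∈ s, f j) = ∑ j ∈ s, d (f j) / f j := by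
  classical
  induction s using Finset.induction_on with
  | empty => simp
  | insert a s ha ih =>
    have h1 : ∀ j ∈ s, f j ≠ 0 := fun j hj => hf j (Finset.mem_insert_of_mem hj)
    rw [Finset.prod_insert ha, Finset.sum_insert ha,
      PenN_log_mul d (hf a (Finset.mem_insert_self a s)) (Finset.prod_ne_zero_iff.2 h1), ih h1]

private theorem PenN_log_zpow {a : E} (ha : a ≠ 0) (m : ℤ) :
    d (a ^ m) / a ^ m = (m : E) * (d a / a) := by
  rw [Derivation.leibniz_zpow, zsmul_eq_mul, smul_eq_mul, zpow_sub_one₀ ha]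
  have h1 : a ^ m ≠ 0 := zpow_ne_zero m ha
  field_simp

end logder

private theorem PenN_der {R : Type*} [CommRing R] [IsDomain R] {K : Type*} [Field K] [Algebra R K]
    [IsFractionRing R K] (f : R → R) (hadd : ∀ a b, f (a + b) = f a + f b)
    (hmul : ∀ a b, f (a * b) = a * f b + b * f a) :
    ∃ d : Derivation ℤ K K, ∀ r, d (algebraMap R K r) = algebraMap R K (f r) := by
  have h0 : f 0 = 0 := by
    have h := hadd 0 0
    rw [add_zero] at h
    exact (add_eq_left.1 h.symm)
  let g : R →+ R := { toFun := f, map_zero' := h0, map_add' := hadd }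
  have hg : ∀ a b : R, g.toIntLinearMap (a * b) = a • g.toIntLinearMap b + b • g.toIntLinearMap a :=
    hmul
  obtain ⟨d, hd⟩ := ext_frac (K := K) (Derivation.mk' g.toIntLinearMap hg)
  exact ⟨d, hd⟩

section local_claim

variable {k : Type*} [Field k] [CharZero k] {κb : Type*} [Field κb] [CharZero κb] {Λ : Type*}
  [Field Λ] [Algebra (PowerSeries κb) Λ] [IsFractionRing (PowerSeries κb) Λ]

private theorem PenN_core (ρ : k →+* κb) (DΛ : Derivation ℤ Λ Λ)
    (hD : ∀ f : PowerSeries κb, DΛ (algebraMap (PowerSeries κb) Λ f) =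
      algebraMap (PowerSeries κb) Λ (PowerSeries.derivative κb f)) (G : Λ) {r : ℕ}
    (μ : Fin r → k) (hμ : LinearIndependent ℚ μ) (U : Fin r → Λ) (hU : ∀ i, U i ≠ 0)
    (f : PowerSeries κb)
    (h : DΛ G + ∑ i, algebraMap (PowerSeries κb) Λ (PowerSeries.C (ρ (μ i))) * (DΛ (U i) / U i) =
      algebraMap (PowerSeries κb) Λ f) (i : Fin r) :
    ∃ v : PowerSeries κb, U i = algebraMap (PowerSeries κb) Λ v := by
  choose N v hv hUv using fun i => exists_order (κ := κb) (U i) (hU i)
  have h1 := res_zero DΛ hD G (fun i => ρ (μ i)) U N v hv hUv f h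
  have h2 : ρ (∑ i, (N i : k) * μ i) = 0 := by
    rw [map_sum, ← h1]
    refine Finset.sum_congr rfl fun i _ => ?_
    rw [map_mul, map_intCast, mul_comm]
  have h3 : ∑ i, (N i : k) * μ i = 0 := (map_eq_zero ρ).1 h2
  have h4 : ∑ i, ((N i : ℤ) : ℚ) • μ i = 0 := by
    rw [← h3]
    refine Finset.sum_congr rfl fun i _ => ?_
    rw [Rat.smul_def, Rat.cast_intCast]
  have h5 := Fintype.linearIndependent_iff.1 hμ (fun i => ((N i : ℤ) : ℚ)) h4 i
  have h6 : N i = 0 := by exact_mod_cast h5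
  refine ⟨v i, ?_⟩
  rw [hUv i, h6, zpow_zero, one_mul]

end local_claim

section field_lemmas

variable {κ : Type*} [Field κ] {E : Type*} [Field E] [Algebra (RatFunc κ) E] {w n : ℕ}
  {F : κ[X][X]} {y : E} {e : Module.Basis (Fin n) (RatFunc κ) E} {dK : RatFunc κ → RatFunc κ}
  {d : Derivation ℤ E E}

private theorem PenN_inE_ne {q : κ[X]} (hq : q ≠ 0) : inE (κ := κ) E (pol q) ≠ 0 := by
  rw [inE, Ne, map_eq_zero, pol, map_eq_zero_iff _ pol_injective]
  exact hq

private theorem PenN_frac (H : KL w n F y e dK d) (z : E) : ∃ q : κ[X], q ≠ 0 ∧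
    ∃ h : κ[X][X], inE (κ := κ) E (pol q) * z = ev y h := by
  classical
  choose p q hq hpq using fun i => exists_rep (e.repr z i)
  refine ⟨∏ i, q i, Finset.prod_ne_zero_iff.mpr fun i _ => hq i, ?_⟩
  have hQB : InB e (inE E (pol (∏ i, q i)) * z) := by
    intro i
    refine ⟨(∏ j ∈ Finset.univ.erase i, q j) * p i, ?_⟩
    have h1 : pol ((∏ j ∈ Finset.univ.erase i, q j) * p i) =
        pol (∏ j ∈ Finset.univ.erase i, q j) * pol (p i) := map_mul _ _ _
    have h2 : pol (∏ j, q j) = pol (∏ j ∈ Finset.univ.erase i, q j) * pol (q i) := by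
      rw [← Finset.prod_erase_mul _ _ (Finset.mem_univ i)]
      exact map_mul _ _ _
    rw [repr_inE_mul, h1, ← hpq i, ← mul_assoc, ← h2]
  obtain ⟨b, -, hb⟩ := H.exists_ev hQB
  exact ⟨b, hb.symm⟩

private theorem PenN_ext (H : KL w n F y e dK d) {Λ : Type*} [Field Λ] {θ θ' : E →+* Λ}
    (h : ∀ g : κ[X][X], θ (ev y g) = θ' (ev y g)) (z : E) : θ z = θ' z := by
  obtain ⟨q, hq, g, hg⟩ := PenN_frac H z
  have h1 := congrArg θ hg
  have h2 := congrArg θ' hg
  rw [map_mul, ← ev_C y] at h1 h2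
  have h3 : θ' (ev y (C q)) ≠ 0 := by
    rw [Ne, map_eq_zero, ev_C]
    exact PenN_inE_ne hq
  rw [h] at h1
  rw [h, ← h2] at h1
  exact mul_left_cancel₀ h3 h1

/-- a function without poles is a constant -/
private theorem PenN_const (H : KL w n F y e dK d) {U : E} (h1 : InB e U)
    (h2 : BDeg e (aa w n) 0 U) : d U = 0 := by
  have hn := H.hn
  have hw := H.hw
  have h3 : ∀ i : Fin n, (i : ℕ) ≠ 0 → e.repr U i = 0 := by
    intro i hi
    obtain ⟨p, hp⟩ := h1 i
    have h4 := h2 i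
    rw [← hp, dle_pol_iff] at h4
    rcases h4 with h4 | h4
    · rw [← hp, h4]
      exact map_zero _
    · exfalso
      have h5 : (1 : ℤ) ≤ ((w * (i : ℕ) : ℕ) : ℤ) := by
        have h6 : 1 ≤ w * (i : ℕ) := Nat.mul_pos hw (Nat.pos_of_ne_zero hi)
        exact_mod_cast h6
      have h7 : (p.natDegree : ℤ) ≤ 0 - ((w * (i : ℕ) : ℕ) : ℤ) := h4
      omega
  obtain ⟨p, hp⟩ := h1 ⟨0, hn⟩
  have h4 := h2 ⟨0, hn⟩
  rw [← hp, dle_pol_iff] at h4
  have hpC : p = C (p.coeff 0) := by
    rcases h4 with h4 | h4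
    · rw [h4]
      simp
    · have h7 : (p.natDegree : ℤ) ≤ 0 - ((w * 0 : ℕ) : ℤ) := h4
      apply eq_C_of_natDegree_eq_zero
      rw [mul_zero] at h7
      omega
  have hU : U = inE (κ := κ) E (pol (C (p.coeff 0))) := by
    rw [← e.sum_repr U, Finset.sum_eq_single (⟨0, hn⟩ : Fin n)]
    · rw [H.basis, ← hp, ← hpC]
      show pol p • y ^ 0 = _
      rw [pow_zero, Algebra.smul_def, mul_one]
    · intro i _ hi
      have h5 : (i : ℕ) ≠ 0 := fun h6 => hi (Fin.ext h6)
      rw [h3 i h5, zero_smul]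
    · intro h5
      exact absurd (Finset.mem_univ _) h5
  rw [hU, inE, H.d_alg, H.dK_pol, derivative_C, pol, map_zero, map_zero]

end field_lemmas

theorem pencil_hN {k : Type*} [Field k] [IsAlgClosed k] [CharZero k] {κ : Type*} [Field κ]
    [Algebra k[X] κ] [IsFractionRing k[X] κ] {δ : κ → κ}
    (hδ : ∀ r : k[X], δ (algebraMap k[X] κ r) = algebraMap k[X] κ (derivative r))
    (F₀ F₁ : k[X][X]) (hF₁ : F₁ ≠ 0) {E : Type*} [Field E] [Algebra (RatFunc κ) E] {w n : ℕ}
    {y : E} {e : Module.Basis (Fin n) (RatFunc κ) E} {dK DK : RatFunc κ → RatFunc κ}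
    {d D : Derivation ℤ E E}
    (H : KD w n (mp ((algebraMap k[X] κ).comp C) F₀ +
      cc (algebraMap k[X] κ X) * mp ((algebraMap k[X] κ).comp C) F₁) y e δ dK DK d D)
    (hs : Sm (mp ((algebraMap k[X] κ).comp C) F₀ +
      cc (algebraMap k[X] κ X) * mp ((algebraMap k[X] κ).comp C) F₁) 1)
    (φ b : E)
    (hφ : InB e (φ * ev y (py (mp ((algebraMap k[X] κ).comp C) F₀ +
      cc (algebraMap k[X] κ X) * mp ((algebraMap k[X] κ).comp C) F₁))))
    (hb : BDeg e (aa w n) (-2) (φ - d b)) (hz : ∃ z, D φ = d z) : ∃ z, φ = d z := by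
  classical
  obtain ⟨z, hz⟩ := hz
  obtain ⟨G, m, l, u, hu, hform⟩ := pencil_form hδ F₀ F₁ hF₁ H φ z hz
  have H' := H.toKL
  generalize mp ((algebraMap k[X] κ).comp C) F₀ +
      cc (algebraMap k[X] κ X) * mp ((algebraMap k[X] κ).comp C) F₁ = F at H H' hs hφ
  obtain ⟨r, μ, N, hμ, hl⟩ := exists_indep l
  have hι : Function.Injective ((algebraMap k[X] κ).comp (C : k →+* k[X])) :=
    (IsFractionRing.injective k[X] κ).comp C_injective
  let κb := AlgebraicClosure κ
  have hκ0 : CharZero κ := charZero_of_injective_ringHom hι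
  have hκb0 : CharZero κb := charZero_of_injective_ringHom (algebraMap κ κb).injective
  let Λ := FractionRing (PowerSeries κb)
  obtain ⟨DΛ, hD⟩ := PenN_der (K := Λ) (fun f : PowerSeries κb => PowerSeries.derivative κb f)
    (fun a b => map_add _ a b) (fun a b => by
      have h := Derivation.leibniz (PowerSeries.derivative κb) a b
      rw [smul_eq_mul, smul_eq_mul] at h
      exact h)
  -- the functions
  set M : Fin r → E := fun i => inE (κ := κ) E (pol (C (algebraMap k[X] κ (C (μ i))))) with hM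
  set U : Fin r → E := fun i => ∏ j, u j ^ (N j i) with hUdef
  have hU0 : ∀ i, U i ≠ 0 := fun i => Finset.prod_ne_zero_iff.2 fun j _ => zpow_ne_zero _ (hu j)
  have hlogU : ∀ i, d (U i) / U i = ∑ j, (N j i : E) * (d (u j) / u j) := by
    intro i
    rw [hUdef]
    show d (∏ j, u j ^ (N j i)) / (∏ j, u j ^ (N j i)) = _
    rw [PenN_log_prod d Finset.univ _ fun j _ => zpow_ne_zero _ (hu j)]
    exact Finset.sum_congr rfl fun j _ => PenN_log_zpow d (hu j) _
  let τ : k →+* E := (algebraMap (RatFunc κ) E).comp ((algebraMap κ[X] (RatFunc κ)).comp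
    ((C : κ →+* κ[X]).comp ((algebraMap k[X] κ).comp C)))
  have hτ : ∀ c : k, inE (κ := κ) E (pol (C (algebraMap k[X] κ (C c)))) = τ c := fun c => rfl
  have hform2 : φ = d G + ∑ i, M i * (d (U i) / U i) := by
    rw [hform]
    congr 1
    have h1 : ∀ j, inE (κ := κ) E (pol (C (algebraMap k[X] κ (C (l j))))) * (d (u j) / u j) =
        ∑ i, M i * ((N j i : E) * (d (u j) / u j)) := by
      intro j
      rw [hτ, hl j, map_sum, Finset.sum_mul]
      refine Finset.sum_congr rfl fun i _ => ?_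
      rw [map_mul, map_intCast, hM]
      show (N j i : E) * τ (μ i) * (d (u j) / u j) = τ (μ i) * ((N j i : E) * (d (u j) / u j))
      ring
    rw [Finset.sum_congr rfl fun j _ => h1 j, Finset.sum_comm]
    refine Finset.sum_congr rfl fun i _ => ?_
    rw [hlogU, Finset.mul_sum]
  -- finite places
  have hfin : ∀ i, InB e (U i) := by
    intro i
    refine H'.inB_of_places (κb := κb) (Λ := Λ) hs (U i) ?_
    intro x₀ y₀ χ c θ hχ hθ
    obtain ⟨θ', hθ', hder'⟩ := H'.exists_place hs x₀ y₀ χ c hχ DΛ hD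
    have hθθ : ∀ z, θ' z = θ z := PenN_ext H' fun g => by rw [hθ, hθ']
    have hder : ∀ z, θ (d z) * θ (ev y (py F)) = algebraMap (PowerSeries κb) Λ c * DΛ (θ z) := by
      intro z
      rw [← hθθ, ← hθθ, ← hθθ]
      exact hder' z
    obtain ⟨h₀, -, hh₀⟩ := H'.exists_ev hφ
    obtain ⟨c', hc'⟩ := hχ.unit.exists_left_inv
    have hF0 : θ (ev y (py F)) ≠ 0 := by
      rw [Ne, map_eq_zero]
      exact H'.Fy
    have hcc : algebraMap (PowerSeries κb) Λ c' * algebraMap (PowerSeries κb) Λ c = 1 := by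
      rw [← map_mul, hc', map_one]
    have hsum : DΛ (θ G) + ∑ i, algebraMap (PowerSeries κb) Λ (PowerSeries.C
        ((algebraMap κ κb).comp ((algebraMap k[X] κ).comp C) (μ i))) * (DΛ (θ (U i)) / θ (U i)) =
        algebraMap (PowerSeries κb) Λ (c' * χ (mp (algebraMap κ κb) h₀)) := by
      rw [map_mul, ← hθ h₀, hh₀, map_mul, hform2, map_add, map_sum, add_mul, hder, Finset.sum_mul,
        mul_add, ← mul_assoc, hcc, one_mul, Finset.mul_sum]
      congr 1
      refine Finset.sum_congr rfl fun i _ => ?_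
      have h1 : θ (M i) = algebraMap (PowerSeries κb) Λ (PowerSeries.C
          ((algebraMap κ κb).comp ((algebraMap k[X] κ).comp C) (μ i))) := by
        have h2 : M i = ev y (cc (algebraMap k[X] κ (C (μ i)))) := by
          rw [hM, cc, ev_C]
        rw [h2, hθ]
        congr 1
        have h3 : mp (algebraMap κ κb) (cc (algebraMap k[X] κ (C (μ i)))) =
            cc (algebraMap κ κb (algebraMap k[X] κ (C (μ i)))) := by
          simp [mp, cc]
        rw [h3, hχ.const]
        rfl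
      rw [map_mul, map_div₀, h1]
      have h4 : θ (d (U i)) / θ (U i) * θ (ev y (py F)) =
          algebraMap (PowerSeries κb) Λ c * (DΛ (θ (U i)) / θ (U i)) := by
        rw [div_mul_eq_mul_div, hder, mul_div_assoc]
      rw [mul_assoc (algebraMap (PowerSeries κb) Λ (PowerSeries.C _)), h4]
      calc _ = (algebraMap (PowerSeries κb) Λ c' * algebraMap (PowerSeries κb) Λ c) *
            (algebraMap (PowerSeries κb) Λ (PowerSeries.C
              ((algebraMap κ κb).comp ((algebraMap k[X] κ).comp C) (μ i))) *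
              (DΛ (θ (U i)) / θ (U i))) := by rw [hcc, one_mul]
        _ = _ := by ring
    obtain ⟨v, hv⟩ := PenN_core ((algebraMap κ κb).comp ((algebraMap k[X] κ).comp C)) DΛ hD (θ G)
      μ hμ (fun i => θ (U i)) (fun i => by rw [Ne, map_eq_zero]; exact hU0 i) _ hsum i
    exact ⟨v, hv⟩
  -- infinite places
  have hinf : ∀ i, BDeg e (aa w n) 0 (U i) := by
    intro i
    refine H'.bdeg_of_places (κb := κb) (Λ := Λ) (U i) ?_
    intro θ Z hθ
    have hder := H'.place_inf_der hθ DΛ hD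
    obtain ⟨f, hf⟩ := H'.place_inf_deg hθ 2 (φ - d b) (by exact_mod_cast hb)
    have hX0 : algebraMap (PowerSeries κb) Λ (PowerSeries.X ^ 2) ≠ 0 := by
      rw [Ne, map_eq_zero_iff _ (IsFractionRing.injective (PowerSeries κb) Λ)]
      exact pow_ne_zero 2 PowerSeries.X_ne_zero
    have hsum : DΛ (θ (G - b)) + ∑ i, algebraMap (PowerSeries κb) Λ (PowerSeries.C
        ((algebraMap κ κb).comp ((algebraMap k[X] κ).comp C) (μ i))) * (DΛ (θ (U i)) / θ (U i)) =
        algebraMap (PowerSeries κb) Λ (-f) := by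
      have h1 : φ - d b = d (G - b) + ∑ i, M i * (d (U i) / U i) := by
        rw [hform2, map_sub]
        ring
      rw [h1, map_add, map_sum, hder, map_mul] at hf
      have h2 : ∀ i, θ (M i * (d (U i) / U i)) = -(algebraMap (PowerSeries κb) Λ (PowerSeries.X ^ 2)) *
          (algebraMap (PowerSeries κb) Λ (PowerSeries.C
          ((algebraMap κ κb).comp ((algebraMap k[X] κ).comp C) (μ i))) *
            (DΛ (θ (U i)) / θ (U i))) := by
        intro i
        have h3 : θ (M i) = algebraMap (PowerSeries κb) Λ (PowerSeries.C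
          ((algebraMap κ κb).comp ((algebraMap k[X] κ).comp C) (μ i))) := hθ.const _
        rw [map_mul, map_div₀, h3, hder]
        ring
      rw [Finset.sum_congr rfl fun i _ => h2 i, ← Finset.mul_sum, ← mul_add] at hf
      apply mul_left_cancel₀ hX0
      rw [map_neg, mul_neg, ← hf]
      ring
    obtain ⟨v, hv⟩ := PenN_core ((algebraMap κ κb).comp ((algebraMap k[X] κ).comp C)) DΛ hD
      (θ (G - b)) μ hμ (fun i => θ (U i)) (fun i => by rw [Ne, map_eq_zero]; exact hU0 i) _ hsum i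
    exact ⟨v, hv⟩
  refine ⟨G, ?_⟩
  rw [hform2]
  have h0 : ∑ i, M i * (d (U i) / U i) = 0 := by
    refine Finset.sum_eq_zero fun i _ => ?_
    rw [PenN_const H' (hfin i) (hinf i), zero_div, mul_zero]
  rw [h0, add_zero]

end MPadcLF
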