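import Pool.Agent.Lib.MP_adc574_ag_LF.Ev

/-!
# JOB PpA: characteristic `p`: iterated derivations

* `iterate_p`: `d^[p]` is a derivation in characteristic `p` which kills `RatFunc κ`; the same proof as
  `Cov0.iterate_p` in Cov/ExE.lean.
* `iterate_p_D`: if `δ^[p] = 0` then `D^[p] = 0`: `D^[p]` is a derivation, it kills the polynomials
  (`DK^[p] (pol q) = pol ((cm δ)^[p] q)`), so `RatFunc κ`, so it is zero by `sep`.
-/

set_option autoImplicit false

namespace MPadcLF

open Polynomial MPadcCov

private theorem PpA_iter {A : Type*} [CommRing A] (D : A → A)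
    (hadd : ∀ x y, D (x + y) = D x + D y) (hmul : ∀ x y, D (x * y) = x * D y + y * D x)
    (a b : A) (n : ℕ) :
    (D^[n]) (a * b) = ∑ ij ∈ Finset.HasAntidiagonal.antidiagonal n,
      n.choose ij.1 • ((D^[ij.1]) a * (D^[ij.2]) b) := by
  have h0 : D 0 = 0 := by
    have h1 := hadd 0 0
    rw [add_zero] at h1
    exact left_eq_add.mp h1
  let D' : A →+ A := { toFun := D, map_zero' := h0, map_add' := hadd }
  have hsum : ∀ (s : Finset (ℕ × ℕ)) (f : ℕ × ℕ → A), D (∑ i ∈ s, f i) = ∑ i ∈ s, D (f i) :=
    fun s f => map_sum D' f s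
  have hns : ∀ (m : ℕ) (x : A), D (m • x) = m • D x := fun m x => map_nsmul D' m x
  induction n with
  | zero => simp
  | succ n ih =>
    rw [Finset.sum_antidiagonal_choose_succ_nsmul
      (fun i j => (D^[i]) a * (D^[j]) b) n, Function.iterate_succ_apply', ih, hsum,
      ← Finset.sum_add_distrib]
    refine Finset.sum_congr rfl fun ij hij => ?_
    have h1 : n.choose ij.2 = n.choose ij.1 :=
      Nat.choose_symm_of_eq_add (by rw [Finset.HasAntidiagonal.mem_antidiagonal] at hij; omega)
    rw [h1, ← smul_add, hns, hmul, Function.iterate_succ_apply',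
      Function.iterate_succ_apply']
    congr 1
    ring

private theorem PpA_iterp {A : Type*} [CommRing A] (p : ℕ) [hp : Fact p.Prime]
    (hA : ((p : ℕ) : A) = 0) (D : A → A)
    (hadd : ∀ x y, D (x + y) = D x + D y) (hmul : ∀ x y, D (x * y) = x * D y + y * D x)
    (a b : A) : (D^[p]) (a * b) = a * (D^[p]) b + b * (D^[p]) a := by
  have hp1 := hp.out.pos
  rw [PpA_iter D hadd hmul, Finset.Nat.sum_antidiagonal_eq_sum_range_succ_mk,
    Finset.sum_range_succ, Finset.sum_eq_single_of_mem 0 (Finset.mem_range.mpr hp1)]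
  · simp only [Nat.choose_zero_right, Nat.choose_self, one_smul, Nat.sub_zero, Nat.sub_self,
      Function.iterate_zero, id_eq]
    ring
  · intro k hk hk0
    have h1 : p ∣ p.choose k := hp.out.dvd_choose_self hk0 (Finset.mem_range.mp hk)
    obtain ⟨c, hc⟩ := h1
    show p.choose k • _ = _
    rw [nsmul_eq_mul, hc, Nat.cast_mul, hA, zero_mul, zero_mul]

/-- a derivation of the rational functions whose iterate kills the polynomials -/
private theorem PpA_ratfunc {κ : Type*} [Field κ] (p : ℕ) [hp : Fact p.Prime] [CharP κ p]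
    (dK : RatFunc κ → RatFunc κ) (hadd : ∀ x y, dK (x + y) = dK x + dK y)
    (hmul : ∀ x y, dK (x * y) = x * dK y + y * dK x)
    (h3 : ∀ q : κ[X], (dK^[p]) (pol q) = 0) (r : RatFunc κ) : (dK^[p]) r = 0 := by
  have hpK : ((p : ℕ) : RatFunc κ) = 0 := by
    have h1 : ((p : ℕ) : κ) = 0 := CharP.cast_eq_zero κ p
    rw [← map_natCast (algebraMap κ (RatFunc κ)), h1, map_zero]
  have h4 := PpA_iterp p hpK dK hadd hmul r (pol r.denom)
  have h7 : pol r.denom ≠ 0 := RatFunc.algebraMap_ne_zero r.denom_ne_zero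
  have h5 : r * pol r.denom = pol r.num := ((div_eq_iff h7).mp r.num_div_denom).symm
  rw [h5, h3, h3, mul_zero, zero_add] at h4
  exact (mul_eq_zero.mp h4.symm).resolve_left h7

/-- a derivation of `E` whose iterate kills the rational functions -/
private theorem PpA_gen {κ : Type*} [Field κ] {E : Type*} [Field E] [Algebra (RatFunc κ) E]
    (sep : ∀ θ : Derivation (RatFunc κ) E E, θ = 0) (p : ℕ) [hp : Fact p.Prime] [CharP κ p]
    (dK : RatFunc κ → RatFunc κ) (d : Derivation ℤ E E)
    (hd : ∀ r, d (algebraMap (RatFunc κ) E r) = algebraMap (RatFunc κ) E (dK r))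
    (hK : ∀ r, (dK^[p]) r = 0) (z : E) : (d^[p]) z = 0 := by
  have hpE : ((p : ℕ) : E) = 0 := by
    have h1 : ((p : ℕ) : κ) = 0 := CharP.cast_eq_zero κ p
    rw [← map_natCast ((algebraMap (RatFunc κ) E).comp (algebraMap κ (RatFunc κ))), h1, map_zero]
  have h1 : ∀ (m : ℕ) (r : RatFunc κ), (d^[m]) (algebraMap (RatFunc κ) E r) =
      algebraMap (RatFunc κ) E ((dK^[m]) r) := by
    intro m
    induction m with
    | zero => intro r; rfl
    | succ m ih =>
      intro r
      rw [Function.iterate_succ_apply, Function.iterate_succ_apply, hd, ih]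
  have hit : ∀ x y : E, (d^[p]) (x * y) = x * (d^[p]) y + y * (d^[p]) x := fun x y =>
    PpA_iterp p hpE (fun x => d x) (fun x y => map_add d x y) (fun x y => d.leibniz x y) x y
  let Δ : Derivation (RatFunc κ) E E := Derivation.mk'
    { toFun := fun z => (d^[p]) z
      map_add' := fun x y => iterate_map_add d p x y
      map_smul' := by
        intro r x
        rw [Algebra.smul_def, hit, h1, hK, map_zero, mul_zero,
          add_zero, RingHom.id_apply, Algebra.smul_def] }
    (fun x y => hit x y)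
  have h2 : Δ z = 0 := by rw [sep Δ, Derivation.zero_apply]
  exact h2

variable {κ : Type*} [Field κ] {E : Type*} [Field E] [Algebra (RatFunc κ) E] {w n : ℕ}
  {F : κ[X][X]} {y : E} {e : Module.Basis (Fin n) (RatFunc κ) E} {dK : RatFunc κ → RatFunc κ}
  {d : Derivation ℤ E E} (p : ℕ) [Fact p.Prime] [CharP κ p]

theorem KL.iterate_p (H : KL w n F y e dK d) (z : E) : d^[p] z = 0 := by
  refine PpA_gen H.sep p dK d H.d_alg ?_ z
  refine PpA_ratfunc p dK H.dK_add H.dK_mul ?_
  have h1 : ∀ (m : ℕ) (q : κ[X]), (dK^[m]) (pol q) = pol (derivative^[m] q) := by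
    intro m
    induction m with
    | zero => intro q; rfl
    | succ m ih =>
      intro q
      rw [Function.iterate_succ_apply, Function.iterate_succ_apply, H.dK_pol, ih]
  have h2 : ∀ q : κ[X], derivative^[p] q = 0 := by
    intro q
    rw [iterate_derivative_eq_factorial_smul_sum]
    obtain ⟨c, hc⟩ := Nat.dvd_factorial (Fact.out : p.Prime).pos le_rfl
    have h3 : ((p.factorial : ℕ) : κ[X]) = 0 := by
      rw [hc, Nat.cast_mul, ← map_natCast (C : κ →+* κ[X]) p, CharP.cast_eq_zero κ p, map_zero,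
        zero_mul]
    rw [nsmul_eq_mul, h3, zero_mul]
  intro q
  rw [h1, h2]
  exact map_zero _

theorem KD.iterate_p_D {δ : κ → κ} {DK : RatFunc κ → RatFunc κ} {D : Derivation ℤ E E}
    (H : KD w n F y e δ dK DK d D) (hδ : ∀ r, δ^[p] r = 0) (z : E) : D^[p] z = 0 := by
  refine PpA_gen H.sep p DK D H.D_alg ?_ z
  refine PpA_ratfunc p DK H.DK_add H.DK_mul ?_
  have h1 : ∀ (m : ℕ) (q : κ[X]), (DK^[m]) (pol q) = pol ((cm δ)^[m] q) := by
    intro m
    induction m with
    | zero => intro q; rfl
    | succ m ih =>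
      intro q
      rw [Function.iterate_succ_apply, Function.iterate_succ_apply, H.DK_pol, ih]
  have h2 : ∀ (m : ℕ) (q : κ[X]) (j : ℕ), ((cm δ)^[m] q).coeff j = δ^[m] (q.coeff j) := by
    intro m
    induction m with
    | zero => intro q j; rfl
    | succ m ih =>
      intro q j
      rw [Function.iterate_succ_apply, Function.iterate_succ_apply, ih, coeff_cm H.der.zero]
  intro q
  have h3 : (cm δ)^[p] q = 0 := by
    ext j
    rw [h2, hδ, coeff_zero]
  rw [h1, h3]
  exact map_zero _

end MPadcLF
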