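import Pool.Agent.Lib.MP_adc574_ag_LF.Defs

/-!
# JOB Px: the partial derivatives of polynomials in two variables

Everything coefficientwise: `coeff_cm` first (`Polynomial.sum_def`, `finset_sum_coeff`, `coeff_monomial`).
`isDer_cm`: compare the coefficients (`coeff_mul`, antidiagonal sums, `IsDer` commutes with finite sums).
`br F` is a derivation, `br F F = 0`. `isDer_px = isDer_cm isDer_derivative`, etc.
-/

set_option autoImplicit false

namespace MPadcLF

open Polynomial MPadcCov

section der

variable {S : Type*} [CommRing S] {f : S → S}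

theorem IsDer.zero (h : IsDer f) : f 0 = 0 := by
  have h1 := h.add 0 0
  rw [add_zero] at h1
  exact left_eq_add.mp h1

theorem IsDer.one (h : IsDer f) : f 1 = 0 := by
  have h1 := h.mul 1 1
  rw [mul_one, one_mul] at h1
  exact left_eq_add.mp h1

theorem IsDer.neg (h : IsDer f) (a : S) : f (-a) = -f a := by
  have h1 := h.add a (-a)
  rw [add_neg_cancel, h.zero] at h1
  exact eq_neg_of_add_eq_zero_right h1.symm

theorem IsDer.sub (h : IsDer f) (a b : S) : f (a - b) = f a - f b := by
  rw [sub_eq_add_neg, h.add, h.neg, ← sub_eq_add_neg]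

theorem IsDer.sum (h : IsDer f) {ι : Type*} (s : Finset ι) (g : ι → S) :
    f (∑ i ∈ s, g i) = ∑ i ∈ s, f (g i) := by
  classical
  induction s using Finset.induction_on with
  | empty =>
    rw [Finset.sum_empty, Finset.sum_empty]
    exact h.zero
  | insert a s ha ih => rw [Finset.sum_insert ha, Finset.sum_insert ha, h.add, ih]

theorem IsDer.natCast (h : IsDer f) (m : ℕ) : f (m : S) = 0 := by
  induction m with
  | zero =>
    rw [Nat.cast_zero]
    exact h.zero
  | succ m ih => rw [Nat.cast_succ, h.add, ih, h.one, add_zero]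

theorem IsDer.pow (h : IsDer f) (a : S) (m : ℕ) : f (a ^ m) = (m : S) * a ^ (m - 1) * f a := by
  induction m with
  | zero =>
    rw [pow_zero, h.one]
    simp
  | succ m ih =>
    rw [pow_succ, h.mul, ih]
    cases m with
    | zero => simp
    | succ k =>
      simp only [Nat.add_sub_cancel, Nat.cast_add, Nat.cast_one]
      ring

theorem coeff_cm (h0 : f 0 = 0) (p : S[X]) (m : ℕ) : (cm f p).coeff m = f (p.coeff m) := by
  unfold cm
  rw [sum_def, finsetSum_coeff]
  simp only [coeff_monomial]
  rw [Finset.sum_ite_eq']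
  split_ifs with hm
  · rfl
  · rw [notMem_support_iff.mp hm, h0]

theorem isDer_cm (h : IsDer f) : IsDer (cm f) := by
  constructor
  · intro a b
    ext m
    rw [coeff_add, coeff_cm h.zero, coeff_cm h.zero, coeff_cm h.zero, coeff_add, h.add]
  · intro a b
    ext m
    rw [mul_comm b (cm f a), coeff_add, coeff_cm h.zero, coeff_mul, coeff_mul, coeff_mul, h.sum,
      ← Finset.sum_add_distrib]
    refine Finset.sum_congr rfl fun x _ => ?_
    rw [coeff_cm h.zero, coeff_cm h.zero, h.mul]
    ring

theorem cm_C (h0 : f 0 = 0) (a : S) : cm f (C a) = C (f a) := by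
  ext m
  rw [coeff_cm h0, coeff_C, coeff_C]
  split_ifs
  · rfl
  · exact h0

theorem cm_X (h : IsDer f) : cm f (X : S[X]) = 0 := by
  ext m
  rw [coeff_cm h.zero, coeff_X, coeff_zero]
  split_ifs
  · exact h.one
  · exact h.zero

theorem isDer_derivative (S : Type*) [CommRing S] :
    IsDer (fun p : S[X] => derivative p) := by
  constructor
  · intro a b
    exact derivative_add
  · intro a b
    show derivative (a * b) = a * derivative b + b * derivative a
    rw [derivative_mul]
    ring

theorem cm_map {S' : Type*} [CommRing S'] {f' : S' → S'} (φ : S →+* S') (h0 : f 0 = 0)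
    (h0' : f' 0 = 0) (h : ∀ a, φ (f a) = f' (φ a)) (p : S[X]) : (cm f p).map φ = cm f' (p.map φ) := by
  ext m
  rw [coeff_map, coeff_cm h0, coeff_cm h0', coeff_map, h]

private theorem Px_cm_derivative (h : IsDer f) (p : S[X]) : derivative (cm f p) = cm f (derivative p) := by
  ext m
  rw [coeff_derivative, coeff_cm h.zero, coeff_cm h.zero, coeff_derivative, h.mul]
  have h1 : f ((m : S) + 1) = 0 := by
    have h2 := h.natCast (m + 1)
    rwa [Nat.cast_succ] at h2
  rw [h1]
  ring

end der

section two

variable {R : Type*} [CommRing R] (F : R[X][X])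

theorem isDer_px : IsDer (px : R[X][X] → R[X][X]) := isDer_cm (isDer_derivative R)

theorem isDer_py : IsDer (py : R[X][X] → R[X][X]) := isDer_derivative (R[X])

theorem isDer_pT {D : R → R} (hD : IsDer D) : IsDer (pT D) := isDer_cm (isDer_cm hD)

theorem isDer_br : IsDer (br F) := by
  constructor
  · intro a b
    unfold br
    rw [isDer_px.add, isDer_py.add]
    ring
  · intro a b
    unfold br
    rw [isDer_px.mul, isDer_py.mul]
    ring

theorem br_self : br F F = 0 := by
  unfold br
  ring

theorem py_px (h : R[X][X]) : py (px h) = px (py h) := Px_cm_derivative (isDer_derivative R) h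

theorem pT_px {D : R → R} (hD : IsDer D) (h : R[X][X]) : pT D (px h) = px (pT D h) := by
  unfold pT px
  ext1 m
  rw [coeff_cm (isDer_cm hD).zero, coeff_cm (isDer_derivative R).zero, coeff_cm (isDer_derivative R).zero,
    coeff_cm (isDer_cm hD).zero]
  exact (Px_cm_derivative hD _).symm

theorem pT_py {D : R → R} (hD : IsDer D) (h : R[X][X]) : pT D (py h) = py (pT D h) :=
  (Px_cm_derivative (isDer_cm hD) h).symm

theorem px_C (q : R[X]) : px (C q) = C (derivative q) := cm_C (isDer_derivative R).zero q

theorem py_C (q : R[X]) : py (C q : R[X][X]) = 0 := derivative_C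

theorem px_X : px (X : R[X][X]) = 0 := cm_X (isDer_derivative R)

theorem py_X : py (X : R[X][X]) = 1 := derivative_X

theorem pT_cc {D : R → R} (hD : IsDer D) (r : R) : pT D (cc r) = cc (D r) := by
  unfold pT cc
  rw [cm_C (isDer_cm hD).zero, cm_C hD.zero]

theorem pT_CX {D : R → R} (hD : IsDer D) : pT D (C X : R[X][X]) = 0 := by
  unfold pT
  rw [cm_C (isDer_cm hD).zero, cm_X hD, C_0]

theorem pT_X {D : R → R} (hD : IsDer D) : pT D (X : R[X][X]) = 0 := cm_X (isDer_cm hD)

private theorem Px_br_C (q : R[X]) : br F (C q) = C (derivative q) * py F := by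
  unfold br
  rw [px_C, py_C]
  ring

theorem br_cc_mul (r : R) (h : R[X][X]) : br F (cc r * h) = cc r * br F h := by
  rw [(isDer_br F).mul, Px_br_C, derivative_C, C_0]
  ring

theorem dN_add (N : ℕ) (g h : R[X][X]) : dN F N (g + h) = dN F N g + dN F N h := by
  unfold dN
  rw [(isDer_br F).add]
  ring

theorem dN_sub (N : ℕ) (g h : R[X][X]) : dN F N (g - h) = dN F N g - dN F N h := by
  unfold dN
  rw [(isDer_br F).sub]
  ring

theorem dN_cc_mul (N : ℕ) (r : R) (h : R[X][X]) : dN F N (cc r * h) = cc r * dN F N h := by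
  unfold dN
  rw [br_cc_mul]
  ring

/-- `x ^ (N + 1) F_Y d (x ^ N b / x ^ N)`. -/
theorem dN_pow_mul (N : ℕ) (b : R[X][X]) : dN F N (C (X ^ N) * b) = C (X ^ (N + 1)) * br F b := by
  unfold dN
  rw [(isDer_br F).mul, Px_br_C]
  have h1 : (C (X * derivative (X ^ N : R[X])) : R[X][X]) = (N : R[X][X]) * C (X ^ N) := by
    rw [derivative_X_pow]
    cases N with
    | zero => simp
    | succ k =>
      rw [Nat.add_sub_cancel]
      have h2 : (X : R[X]) * (C ((k + 1 : ℕ) : R) * X ^ k) = ((k + 1 : ℕ) : R[X]) * X ^ (k + 1) := by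
        rw [C_eq_natCast, pow_succ]
        ring
      rw [h2, C_mul, ← C_eq_natCast]
      congr 1
  have h3 : (C (X ^ (N + 1)) : R[X][X]) = C X * C (X ^ N) := by
    rw [← C_mul, pow_succ']
  rw [C_mul] at h1
  rw [h3]
  linear_combination (b * py F) * h1

theorem dN_mul_self (N : ℕ) (b : R[X][X]) : dN F N (b * F) = (dN F N b) * F := by
  unfold dN
  rw [(isDer_br F).mul, br_self]
  ring

section map

variable {R' : Type*} [CommRing R'] (φ : R →+* R')

theorem mp_px (h : R[X][X]) : mp φ (px h) = px (mp φ h) :=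
  cm_map (mapRingHom φ) (isDer_derivative R).zero (isDer_derivative R').zero
    (fun a => (derivative_map a φ).symm) h

theorem mp_py (h : R[X][X]) : mp φ (py h) = py (mp φ h) := (derivative_map h (mapRingHom φ)).symm

theorem mp_pT {D : R → R} {D' : R' → R'} (hD : IsDer D) (hD' : IsDer D')
    (h : ∀ a, φ (D a) = D' (φ a)) (g : R[X][X]) : mp φ (pT D g) = pT D' (mp φ g) :=
  cm_map (mapRingHom φ) (isDer_cm hD).zero (isDer_cm hD').zero
    (fun a => cm_map φ hD.zero hD'.zero h a) g

theorem mp_br (h : R[X][X]) : mp φ (br F h) = br (mp φ F) (mp φ h) := by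
  unfold br
  rw [map_sub, map_mul, map_mul, mp_px, mp_py, mp_px, mp_py]

theorem mp_cc (r : R) : mp φ (cc r) = cc (φ r) := by
  simp [mp, cc]

theorem mp_dN (N : ℕ) (h : R[X][X]) : mp φ (dN F N h) = dN (mp φ F) N (mp φ h) := by
  unfold dN
  rw [map_sub, map_mul, map_mul, map_mul, mp_br, mp_py, map_natCast]
  simp

theorem mp_gg {w n : ℕ} (c : Gx w n) : mp φ (gg c : R[X][X]) = gg c := by
  simp [mp, gg]

end map

end two

end MPadcLF
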