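import Pool.Agent.Lib.MP_adc574_ag_LF.Inf
import Pool.Agent.Lib.MP_adc574_ag_Cov.Birk

/-!
# JOB Res: the residue at infinity on rational functions

* `exists_res`: `κ(x) = κ[x] ⊕ κ x⁻¹ ⊕ {degree ≤ -2}`: every `r` is `pol p + c / x` plus a function of degree
  `≤ -2` with a unique `c`, by division of the numerator by the denominator and `Birk.exists_residue`.
* `IsRes.deriv`: a polynomial plus a function of degree `≤ -1`, whose derivative has degree `≤ -2`.
* `IsRes.par`: on the three parts: `DK (pol p)` is a polynomial; `DK (c / x) = δ c / x` (`DK X⁻¹ = 0`);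
  degree `≤ -2` is preserved.
* `IsRes.coeff`: `x ^ (- l - 1) q`: expand `q` in monomials.
-/

set_option autoImplicit false

namespace MPadcLF

open Polynomial MPadcCov

/-- A derivation which lowers the degrees of the polynomials by `k` lowers all degrees by `k`. -/
private theorem Res_dle {κ : Type*} [Field κ] (Δ : RatFunc κ → RatFunc κ) (hadd : ∀ r s, Δ (r + s) = Δ r + Δ s)
    (hmul : ∀ r s, Δ (r * s) = r * Δ s + s * Δ r) (k : ℤ)
    (hΔ : ∀ q : κ[X], Dle (Δ (pol q)) (q.natDegree - k)) {r : RatFunc κ} {m : ℤ} (hr : Dle r m) :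
    Dle (Δ r) (m - k) := by
  have h00 : Δ 0 = 0 := by
    have := hadd 0 0
    rw [add_zero] at this
    exact left_eq_add.1 this
  obtain ⟨p, q, hq, h⟩ := exists_rep r
  rcases eq_or_ne r 0 with h0 | h0
  · rw [h0, h00]; exact Dle.zero _
  apply dle_of_mul hq
  have h1 : pol q * Δ r = Δ (pol p) - Δ (pol q) * r := by
    rw [← h, hmul]
    ring
  have hp0 : p ≠ 0 := by
    rintro rfl
    rw [pol, pol, map_zero] at h
    rcases mul_eq_zero.1 h with h2 | h2
    · rw [map_eq_zero_iff _ pol_injective] at h2; exact hq h2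
    · exact h0 h2
  have hp : (p.natDegree : ℤ) ≤ q.natDegree + m := by
    have h2 : Dle (pol p) (q.natDegree + m) := by
      rw [← h]
      exact Dle.mul (dle_pol_iff.2 (Or.inr le_rfl)) hr
    exact (dle_pol_iff.1 h2).resolve_left hp0
  rw [h1]
  apply Dle.sub
  · exact (hΔ p).mono (by linarith)
  · exact ((hΔ q).mul hr).mono (by linarith)

private theorem Res_x (κ : Type*) [Field κ] : (Birk.xz 1 : RatFunc κ) = RatFunc.X := by
  unfold Birk.xz
  rw [zpow_one]

private theorem Res_xinv (κ : Type*) [Field κ] : (Birk.xz (-1) : RatFunc κ) = RatFunc.X⁻¹ := by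
  unfold Birk.xz
  rw [zpow_neg_one]

private theorem Res_pow (κ : Type*) [Field κ] (m : ℕ) : (Birk.xz (-(m : ℤ)) : RatFunc κ) = (RatFunc.X⁻¹) ^ m := by
  unfold Birk.xz
  rw [zpow_neg, zpow_natCast, inv_pow]

private theorem Res_xz {κ : Type*} [Field κ] (m : ℤ) : Dle (Birk.xz m : RatFunc κ) m :=
  Or.inr (Birk.intDegree_xz m).le

/-- the polynomial part -/
private theorem Res_one {κ : Type*} [Field κ] (r : RatFunc κ) : ∃ p : κ[X], Dle (r - pol p) (-1) := by
  have hmon : r.denom.Monic := RatFunc.monic_denom r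
  have hq0 : r.denom ≠ 0 := r.denom_ne_zero
  have h1 : pol r.denom * r = pol r.num := by
    have h2 : pol r.denom ≠ 0 := by
      rw [Ne, pol, map_eq_zero_iff _ pol_injective]; exact hq0
    rw [mul_comm, ← eq_div_iff h2]
    exact (RatFunc.num_div_denom r).symm
  refine ⟨r.num /ₘ r.denom, dle_of_mul hq0 ?_⟩
  have h2 : pol r.denom * (r - pol (r.num /ₘ r.denom)) = pol (r.num %ₘ r.denom) := by
    rw [mul_sub, h1]
    have h3 := modByMonic_add_div r.num r.denom
    have h4 : r.num %ₘ r.denom = r.num - r.denom * (r.num /ₘ r.denom) := by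
      rw [eq_sub_iff_add_eq]
      exact h3
    rw [h4]
    simp only [pol, map_sub, map_mul]
  rw [h2, dle_pol_iff]
  by_cases h3 : r.num %ₘ r.denom = 0
  · exact Or.inl h3
  · right
    have h4 := natDegree_lt_natDegree h3 (degree_modByMonic_lt r.num hmon)
    omega

private theorem Res_two {κ : Type*} [Field κ] (r : RatFunc κ) :
    ∃ (c : κ) (p : κ[X]), Dle (r - pol p - pol (C c) * RatFunc.X⁻¹) (-2) := by
  obtain ⟨p, hp⟩ := Res_one r
  have h1 : Dle (Birk.xz 1 * (r - pol p)) 0 := (((Res_xz 1).mul hp).mono (by norm_num))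
  obtain ⟨c, hc⟩ := Birk.exists_residue h1
  refine ⟨c, p, ?_⟩
  have h2 : r - pol p - pol (C c) * RatFunc.X⁻¹ =
      Birk.xz (-1) * (Birk.xz 1 * (r - pol p) - pol (C c)) := by
    rw [mul_sub, ← mul_assoc, Birk.xz_neg_mul, one_mul, Res_xinv]
    ring
  rw [h2]
  exact ((Res_xz (-1)).mul hc).mono (by norm_num)

/-- uniqueness of the residue -/
private theorem Res_uniq {κ : Type*} [Field κ] {c : κ} {p : κ[X]}
    (h : Dle (pol p + pol (C c) * RatFunc.X⁻¹ : RatFunc κ) (-2)) : c = 0 := by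
  have h1 : Dle (Birk.xz 1 * (pol p + pol (C c) * RatFunc.X⁻¹ : RatFunc κ)) (-1) :=
    ((Res_xz 1).mul h).mono (by norm_num)
  have h2 : Birk.xz 1 * (pol p + pol (C c) * RatFunc.X⁻¹ : RatFunc κ) = pol (X * p + C c) := by
    rw [Res_x, mul_add, pol, pol, pol, map_add, map_mul, RatFunc.algebraMap_X]
    congr 1
    rw [mul_comm, mul_assoc, inv_mul_cancel₀ RatFunc.X_ne_zero, mul_one]
  rw [h2, dle_pol_iff] at h1
  have h3 : X * p + C c = 0 := by
    rcases h1 with h1 | h1
    · exact h1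
    · omega
  have h4 := congrArg (fun q : κ[X] => q.coeff 0) h3
  simpa using h4

private theorem Res_uniq2 {κ : Type*} [Field κ] {r : RatFunc κ} {c c' : κ} {p p' : κ[X]}
    (h : Dle (r - pol p - pol (C c) * RatFunc.X⁻¹) (-2)) (h' : Dle (r - pol p' - pol (C c') * RatFunc.X⁻¹) (-2)) :
    c = c' := by
  have h1 := h.sub h'
  have h2 : (r - pol p - pol (C c) * RatFunc.X⁻¹) - (r - pol p' - pol (C c') * RatFunc.X⁻¹) =
      pol (p' - p) + pol (C (c' - c)) * RatFunc.X⁻¹ := by
    rw [C_sub]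
    simp only [pol, map_sub]
    ring
  rw [h2] at h1
  have h3 := Res_uniq h1
  exact (sub_eq_zero.1 h3).symm

theorem exists_res (κ : Type*) [Field κ] : ∃ res : RatFunc κ → κ, IsRes res := by
  choose res P hres using (fun r : RatFunc κ => Res_two r)
  refine ⟨res, ⟨?_, ?_, ?_, ?_, ?_⟩⟩
  · intro r s
    refine Res_uniq2 (hres (r + s)) (p' := P r + P s) ?_
    have h1 := (hres r).add (hres s)
    have h2 : (r - pol (P r) - pol (C (res r)) * RatFunc.X⁻¹) + (s - pol (P s) - pol (C (res s)) * RatFunc.X⁻¹) =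
        r + s - pol (P r + P s) - pol (C (res r + res s)) * RatFunc.X⁻¹ := by
      rw [C_add]
      simp only [pol, map_add]
      ring
    rw [← h2]
    exact h1
  · intro c r
    refine Res_uniq2 (hres (pol (C c) * r)) (p' := C c * P r) ?_
    have h1 : Dle (pol (C c) : RatFunc κ) 0 := by
      rw [dle_pol_iff]
      right
      rw [natDegree_C]
      exact le_rfl
    have h2 := h1.mul (hres r)
    have h3 : pol (C c) * (r - pol (P r) - pol (C (res r)) * RatFunc.X⁻¹) =
        pol (C c) * r - pol (C c * P r) - pol (C (c * res r)) * RatFunc.X⁻¹ := by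
      rw [C_mul]
      simp only [pol, map_mul]
      ring
    rw [← h3]
    exact h2.mono (by norm_num)
  · intro p
    refine Res_uniq2 (hres (pol p)) (p' := p) ?_
    rw [C_0]
    simp only [pol, map_zero, zero_mul, sub_self]
    exact Dle.zero _
  · intro r hr
    refine Res_uniq2 (hres r) (p' := 0) ?_
    rw [C_0]
    simp only [pol, map_zero, zero_mul, sub_zero]
    exact hr
  · refine Res_uniq2 (hres (RatFunc.X⁻¹)) (p' := 0) ?_
    rw [C_1]
    simp only [pol, map_zero, map_one, one_mul, sub_zero, sub_self]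
    exact Dle.zero _

variable {κ : Type*} [Field κ] {res : RatFunc κ → κ}

theorem IsRes.zero (hr : IsRes res) : res 0 = 0 := hr.low 0 (Dle.zero _)

theorem IsRes.neg (hr : IsRes res) (r : RatFunc κ) : res (-r) = -res r := by
  have h := hr.add r (-r)
  rw [add_neg_cancel, hr.zero] at h
  exact (neg_eq_of_add_eq_zero_right h.symm).symm

theorem IsRes.sub (hr : IsRes res) (r s : RatFunc κ) : res (r - s) = res r - res s := by
  rw [sub_eq_add_neg, hr.add, hr.neg, sub_eq_add_neg]

theorem IsRes.sum (hr : IsRes res) {ι : Type*} (s : Finset ι) (f : ι → RatFunc κ) :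
    res (∑ i ∈ s, f i) = ∑ i ∈ s, res (f i) := by
  classical
  induction s using Finset.induction_on with
  | empty => rw [Finset.sum_empty, Finset.sum_empty, hr.zero]
  | insert a s ha ih => rw [Finset.sum_insert ha, Finset.sum_insert ha, hr.add, ih]

theorem IsRes.coeff (hr : IsRes res) (l : ℕ) (q : κ[X]) :
    res ((RatFunc.X⁻¹) ^ (l + 1) * pol q) = q.coeff l := by
  induction q using Polynomial.induction_on' with
  | add p q hp hq =>
    have h1 : (RatFunc.X⁻¹) ^ (l + 1) * pol (p + q) =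
        (RatFunc.X⁻¹) ^ (l + 1) * pol p + (RatFunc.X⁻¹) ^ (l + 1) * pol q := by
      simp only [pol, map_add]
      ring
    rw [h1, hr.add, hp, hq, coeff_add]
  | monomial i a =>
    have hX : (RatFunc.X : RatFunc κ) ≠ 0 := RatFunc.X_ne_zero
    have h1 : (RatFunc.X⁻¹) ^ (l + 1) * pol (monomial i a) =
        pol (C a) * ((RatFunc.X⁻¹) ^ (l + 1) * RatFunc.X ^ i : RatFunc κ) := by
      rw [← C_mul_X_pow_eq_monomial]
      simp only [pol, map_mul, map_pow, RatFunc.algebraMap_X]
      ring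
    rw [h1, hr.smul, coeff_monomial]
    rcases lt_trichotomy i l with h | h | h
    · rw [if_neg (by omega)]
      have h2 : ((RatFunc.X⁻¹) ^ (l + 1) * RatFunc.X ^ i : RatFunc κ) = Birk.xz (-((l + 1 - i : ℕ) : ℤ)) := by
        rw [Res_pow]
        obtain ⟨j, hj⟩ : ∃ j, l + 1 = i + j := ⟨l + 1 - i, by omega⟩
        have hj' : l + 1 - i = j := by omega
        rw [hj', hj, pow_add, mul_right_comm, ← mul_pow, inv_mul_cancel₀ hX, one_pow, one_mul]
      rw [h2, hr.low _ ((Res_xz _).mono (by omega)), mul_zero]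
    · subst h
      rw [if_pos rfl, pow_succ', mul_assoc, ← mul_pow, inv_mul_cancel₀ hX, one_pow, mul_one, hr.one, mul_one]
    · rw [if_neg (by omega)]
      have h2 : ((RatFunc.X⁻¹) ^ (l + 1) * RatFunc.X ^ i : RatFunc κ) = pol (X ^ (i - (l + 1))) := by
        obtain ⟨j, hj⟩ : ∃ j, i = l + 1 + j := ⟨i - (l + 1), by omega⟩
        have hj' : i - (l + 1) = j := by omega
        have h3 : (RatFunc.X : RatFunc κ) ^ (l + 1 + j) = RatFunc.X ^ (l + 1) * RatFunc.X ^ j := pow_add _ _ _
        rw [hj', hj, h3, ← mul_assoc, ← mul_pow, inv_mul_cancel₀ hX, one_pow, one_mul]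
        simp only [pol, map_pow, RatFunc.algebraMap_X]
      rw [h2, hr.poly, mul_zero]

theorem IsRes.isPol (hr : IsRes res) {r : RatFunc κ} (h : IsPol r) : res r = 0 := by
  obtain ⟨p, rfl⟩ := h
  exact hr.poly p

theorem IsRes.deriv (hr : IsRes res) (dK : RatFunc κ → RatFunc κ)
    (hadd : ∀ r s, dK (r + s) = dK r + dK s) (hmul : ∀ r s, dK (r * s) = r * dK s + s * dK r)
    (hpol : ∀ p : κ[X], dK (pol p) = pol (derivative p)) (r : RatFunc κ) : res (dK r) = 0 := by
  obtain ⟨p, hp⟩ := Res_one r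
  have h1 : r = pol p + (r - pol p) := by ring
  have h2 : Dle (dK (r - pol p)) (-1 - 1) := by
    refine Res_dle dK hadd hmul 1 (fun q => ?_) hp
    rw [hpol, dle_pol_iff]
    by_cases h0 : derivative q = 0
    · exact Or.inl h0
    · right
      have h1 : q.natDegree ≠ 0 := by
        intro h2
        apply h0
        rw [eq_C_of_natDegree_eq_zero h2, derivative_C]
      have h3 := natDegree_derivative_lt h1
      omega
  rw [h1, hadd, hr.add, hpol, hr.poly, zero_add]
  exact hr.low _ (h2.mono (by norm_num))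

theorem IsRes.par (hr : IsRes res) (δ : κ → κ) (hδ : IsDer δ) (DK : RatFunc κ → RatFunc κ)
    (hadd : ∀ r s, DK (r + s) = DK r + DK s) (hmul : ∀ r s, DK (r * s) = r * DK s + s * DK r)
    (hpol : ∀ p : κ[X], DK (pol p) = pol (cm δ p)) (r : RatFunc κ) :
    res (DK r) = δ (res r) := by
  obtain ⟨c, p, hcp⟩ := Res_two r
  obtain ⟨s, hs⟩ : ∃ s, s = r - pol p - pol (C c) * RatFunc.X⁻¹ := ⟨_, rfl⟩
  rw [← hs] at hcp
  have h1 : r = pol p + (pol (C c) * RatFunc.X⁻¹ + s) := by
    rw [hs]
    ring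
  have hX : (RatFunc.X : RatFunc κ) ≠ 0 := RatFunc.X_ne_zero
  have hDX : DK RatFunc.X = 0 := by
    have h2 := hpol (X : κ[X])
    rw [cm_X hδ] at h2
    rw [pol, pol, RatFunc.algebraMap_X, map_zero] at h2
    exact h2
  have hD1 : DK 1 = 0 := by
    have h2 := hmul 1 1
    rw [one_mul, one_mul] at h2
    exact left_eq_add.1 h2
  have hDi : DK (RatFunc.X⁻¹) = 0 := by
    have h2 := hmul RatFunc.X (RatFunc.X⁻¹)
    rw [mul_inv_cancel₀ hX, hD1, hDX, mul_zero, add_zero] at h2
    rcases mul_eq_zero.1 h2.symm with h3 | h3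
    · exact absurd h3 hX
    · exact h3
  have hDs : Dle (DK s) (-2 - 0) := by
    refine Res_dle DK hadd hmul 0 (fun q => ?_) hcp
    rw [hpol, dle_pol_iff]
    right
    have h1 : (cm δ q).natDegree ≤ q.natDegree := by
      rw [natDegree_le_iff_coeff_eq_zero]
      intro N hN
      rw [coeff_cm (IsDer.zero hδ), coeff_eq_zero_of_natDegree_lt hN, IsDer.zero hδ]
    omega
  have h2 : res r = c := by
    rw [h1, hr.add, hr.poly, hr.add, hr.smul, hr.one, hr.low s hcp, mul_one, add_zero, zero_add]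
  have h3 : DK r = pol (cm δ p) + (pol (C (δ c)) * RatFunc.X⁻¹ + DK s) := by
    rw [h1, hadd, hadd, hmul, hpol, hpol, cm_C (IsDer.zero hδ), hDi, mul_zero, zero_add, mul_comm (RatFunc.X⁻¹)]
  rw [h2, h3, hr.add, hr.poly, hr.add, hr.smul, hr.one, hr.low _ (hDs.mono (by norm_num)), mul_one, add_zero,
    zero_add]

section KL

variable {E : Type*} [Field E] [Algebra (RatFunc κ) E] {w n : ℕ}
  {F : κ[X][X]} {y : E} {e : Module.Basis (Fin n) (RatFunc κ) E} {dK : RatFunc κ → RatFunc κ}
  {d : Derivation ℤ E E}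

theorem IsRes.tr_d (hr : IsRes res) (H : KL w n F y e dK d) (z : E) : res (Tr κ E (d z)) = 0 := by
  rw [H.tr_d]
  exact hr.deriv dK H.dK_add H.dK_mul H.dK_pol _

theorem IsRes.tr_D (hr : IsRes res) {δ : κ → κ} {DK : RatFunc κ → RatFunc κ}
    {D : Derivation ℤ E E} (H : KD w n F y e δ dK DK d D) (z : E) :
    res (Tr κ E (D z)) = δ (res (Tr κ E z)) := by
  rw [H.tr_D]
  exact hr.par δ H.der DK H.DK_add H.DK_mul H.DK_pol _

theorem IsRes.tr_low (hr : IsRes res) (H : KL w n F y e dK d) {z : E}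
    (hz : BDeg e (aa w n) (-2) z) : res (Tr κ E z) = 0 :=
  hr.low _ (H.bdeg_tr hz)

theorem IsRes.tr_pol (hr : IsRes res) (H : KL w n F y e dK d) {z z' : E}
    (hz : InB e (z * ev y (py F))) (hz' : InB e z') : res (Tr κ E (z * z')) = 0 :=
  hr.isPol (H.tr_inB hz hz')

end KL

end MPadcLF
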