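import Pool.Agent.Lib.MP_adc574_ag_LF.Bas
import Pool.Agent.Lib.MP_adc574_ag_Cov.Birk

/-!
# JOB SK: forms of the second kind

Paper 3.5.
* `split_rat`: every `r : RatFunc κ` is `pol p + ∑ l < L, c l x ^ (- l - 1) + r'` with `Dle r' (-1 - L)`:
  induction on `L`, `L = 0`: division of the numerator by the denominator; the step: `Birk.exists_residue`
  (Cov/Birk) for `x ^ (L + 1) r'`.
* `split_E`: apply it to the coordinates `r_i` of `b`, with `L = w i - 1` (for `i = 0`: `L = 0`, `Dle r' (-1)`,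
  so `Dle r' 0`; for `i ≥ 1`: `Dle r' (- w i)`): `b = ev g + ∑ c, c_c f_c + β` with `BDeg 0 β`.
* `sk`: `z = ev h / F_Y - ∑ c_c m_(inr c) - d (ev g)`: `z F_Y ∈ B` (`KL.d_ev`), and
  `z = (m - d b) + ∑ c_c (d f_c - m_(inr c)) + d β` has `BDeg (-2)` (`KL.low`, `bdeg_two`). So
  `z F_Y = ev h'` with `h'.natDegree < n`, `Tr (z y ^ i) = pol (tau F (X ^ i * h'))` has degree
  `≤ w i - 2` (`bdeg_mul`, `bdeg_tr`), and `h' = ∑ i, C (tau F (X ^ i * h')) * bb F i` (`mod_eq_sum`), where the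
  coefficient of `bb F i` is a combination of `x ^ l`, `l < w i - 1` (and `0` for `i = 0`): so
  `h' = ∑ c, cc (c_c) * η (inl c)`. Finally `ev_eq_zero_iff`.
-/

set_option autoImplicit false

namespace MPadcLF

open Polynomial MPadcCov

private theorem SK_base {κ : Type*} [Field κ] (r : RatFunc κ) :
    ∃ (p : κ[X]) (r' : RatFunc κ), Dle r' (-1) ∧ r = pol p + r' := by
  have hmon : r.denom.Monic := RatFunc.monic_denom r
  have hq0 : r.denom ≠ 0 := r.denom_ne_zero
  have h2 : pol r.denom ≠ 0 := by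
    rw [Ne, pol, map_eq_zero_iff _ pol_injective]; exact hq0
  have h1 : pol r.denom * r = pol r.num := by
    rw [mul_comm, ← eq_div_iff h2]
    exact (RatFunc.num_div_denom r).symm
  refine ⟨r.num /ₘ r.denom, r - pol (r.num /ₘ r.denom), ?_, by ring⟩
  apply dle_of_mul hq0
  have h3 : pol r.denom * (r - pol (r.num /ₘ r.denom)) = pol (r.num %ₘ r.denom) := by
    have h4 := modByMonic_add_div r.num r.denom
    have h5 : r.num %ₘ r.denom = r.num - r.denom * (r.num /ₘ r.denom) := by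
      linear_combination h4
    rw [h5, mul_sub, h1]
    simp only [pol, map_sub, map_mul]
  rw [h3, dle_pol_iff]
  by_cases h0 : r.num %ₘ r.denom = 0
  · exact Or.inl h0
  · right
    have h6 := degree_modByMonic_lt r.num hmon
    have h7 : (r.num %ₘ r.denom).natDegree < r.denom.natDegree := natDegree_lt_natDegree h0 h6
    omega

theorem split_rat {κ : Type*} [Field κ] (r : RatFunc κ) (L : ℕ) :
    ∃ (p : κ[X]) (c : Fin L → κ) (r' : RatFunc κ), Dle r' (-1 - L) ∧
      r = pol p + (∑ l, pol (C (c l)) * (RatFunc.X⁻¹) ^ ((l : ℕ) + 1)) + r' := by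
  induction L with
  | zero =>
    obtain ⟨p, r', h1, h2⟩ := SK_base r
    refine ⟨p, fun l => l.elim0, r', ?_, ?_⟩
    · have h3 : (-1 : ℤ) - ((0 : ℕ) : ℤ) = -1 := by simp
      rw [h3]
      exact h1
    · rw [Fin.sum_univ_zero, add_zero]
      exact h2
  | succ L ih =>
    obtain ⟨p, c, r', h1, h2⟩ := ih
    have h3 : Dle (Birk.xz ((L : ℤ) + 1) * r') 0 := by
      have h4 := (Birk.dle_xz_mul (r := r') (m := (L : ℤ) + 1) (l := -1 - L)).2 h1
      have h5 : ((L : ℤ) + 1) + (-1 - L) = 0 := by ring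
      rw [h5] at h4
      exact h4
    obtain ⟨c0, hc0⟩ := Birk.exists_residue h3
    have hX : (RatFunc.X : RatFunc κ) ≠ 0 := RatFunc.X_ne_zero
    have h6 : Birk.xz ((L : ℤ) + 1) * (r' - pol (C c0) * (RatFunc.X⁻¹) ^ (L + 1)) =
        Birk.xz ((L : ℤ) + 1) * r' - pol (C c0) := by
      have h7 : (Birk.xz ((L : ℤ) + 1) : RatFunc κ) = RatFunc.X ^ (L + 1) := by
        rw [Birk.xz, ← zpow_natCast, Nat.cast_succ]
      rw [h7, mul_sub, mul_left_comm, ← mul_pow, mul_inv_cancel₀ hX, one_pow, mul_one]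
    refine ⟨p, Fin.snoc c c0, r' - pol (C c0) * (RatFunc.X⁻¹) ^ (L + 1), ?_, ?_⟩
    · have h8 : Dle (Birk.xz ((L : ℤ) + 1) * (r' - pol (C c0) * (RatFunc.X⁻¹) ^ (L + 1)))
          (((L : ℤ) + 1) + (-1 - ((L + 1 : ℕ) : ℤ))) := by
        have h9 : ((L : ℤ) + 1) + (-1 - ((L + 1 : ℕ) : ℤ)) = -1 := by
          push_cast
          ring
        rw [h9, h6]
        exact hc0
      exact Birk.dle_xz_mul.1 h8
    · rw [Fin.sum_univ_castSucc]
      simp only [Fin.snoc_castSucc, Fin.snoc_last, Fin.val_castSucc, Fin.val_last]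
      rw [h2]
      ring

variable {κ : Type*} [Field κ] {E : Type*} [Field E] [Algebra (RatFunc κ) E] {w n : ℕ}
  {F : κ[X][X]} {y : E} {e : Module.Basis (Fin n) (RatFunc κ) E} {dK : RatFunc κ → RatFunc κ}
  {d : Derivation ℤ E E} {η : IX w n → κ[X][X]}

theorem KL.split_E (H : KL w n F y e dK d) (b : E) :
    ∃ (g : κ[X][X]) (c : Gx w n → κ) (β : E), BDeg e (aa w n) 0 β ∧
      b = ev y g + (∑ a, inE (κ := κ) E (pol (C (c a))) * fE (κ := κ) y a) + β := by
  choose p c r' h1 h2 using fun i : Fin n => split_rat (e.repr b i) (w * (i : ℕ) - 1)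
  refine ⟨∑ i : Fin n, C (p i) * X ^ (i : ℕ), fun a => c a.1 a.2,
    ∑ i : Fin n, r' i • e i, ?_, ?_⟩
  · intro i
    rw [Module.Basis.repr_sum_self]
    refine (h1 i).mono ?_
    change (-1 : ℤ) - ((w * (i : ℕ) - 1 : ℕ) : ℤ) ≤ 0 - ((w * (i : ℕ) : ℕ) : ℤ)
    omega
  · have h3 : b = ∑ i : Fin n, e.repr b i • e i := (e.sum_repr b).symm
    have h4 : ev y (∑ i : Fin n, C (p i) * X ^ (i : ℕ)) = ∑ i : Fin n, pol (p i) • e i := by
      rw [map_sum]
      refine Finset.sum_congr rfl fun i _ => ?_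
      rw [map_mul, map_pow, ev_C, ev_X, H.basis i, Algebra.smul_def]
    have h5 : (∑ a : Gx w n, inE (κ := κ) E (pol (C (c a.1 a.2))) * fE (κ := κ) y a) =
        ∑ i : Fin n, (∑ l : Fin (w * (i : ℕ) - 1), pol (C (c i l)) *
          (RatFunc.X⁻¹) ^ ((l : ℕ) + 1)) • e i := by
      rw [Fintype.sum_sigma]
      refine Finset.sum_congr rfl fun i _ => ?_
      rw [Finset.sum_smul]
      refine Finset.sum_congr rfl fun l _ => ?_
      rw [fE, H.basis i, Algebra.smul_def, map_mul, mul_assoc]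
    rw [h4, h5, ← Finset.sum_add_distrib, ← Finset.sum_add_distrib]
    refine h3.trans (Finset.sum_congr rfl fun i _ => ?_)
    rw [← add_smul, ← add_smul]
    congr 1
    exact h2 i

private theorem SK_fo (F : κ[X][X]) (q : ℕ → κ[X])
    (hq : ∀ i < n, q i = 0 ∨ ((q i).natDegree : ℤ) ≤ ((w * i : ℕ) : ℤ) - 2) :
    ∑ j ∈ Finset.range n, C (q j) * bb F j =
      fo F (fun a : Gx w n => (q (a.1 : ℕ)).coeff (a.2 : ℕ)) := by
  rw [fo, Fintype.sum_sigma, Finset.sum_range]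
  refine Finset.sum_congr rfl fun i _ => ?_
  have h1 : q (i : ℕ) = ∑ l : Fin (w * (i : ℕ) - 1), C ((q (i : ℕ)).coeff (l : ℕ)) * X ^ (l : ℕ) := by
    rcases hq i i.2 with h0 | h0
    · rw [h0]
      simp
    · have h2 : (q (i : ℕ)).natDegree < w * (i : ℕ) - 1 := by omega
      rw [← Finset.sum_range (fun l => C ((q (i : ℕ)).coeff l) * X ^ l)]
      exact as_sum_range_C_mul_X_pow' _ h2
  have h3 : C (q (i : ℕ)) * bb F (i : ℕ) = ∑ l : Fin (w * (i : ℕ) - 1),
      cc ((q (i : ℕ)).coeff (l : ℕ)) * (C (X ^ (l : ℕ)) * bb F (i : ℕ)) := by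
    conv_lhs => rw [h1]
    rw [map_sum, Finset.sum_mul]
    refine Finset.sum_congr rfl fun l _ => ?_
    rw [C_mul, mul_assoc]
  exact h3

/-- A form which is regular on the affine curve and at infinity. -/
theorem KL.reg (H : KL w n F y e dK d) (h : κ[X][X])
    (hl : BDeg e (aa w n) (-2) (ev y h / ev y (py F))) :
    ∃ (c : Gx w n → κ) (g : κ[X][X]), h = fo F c + g * F := by
  obtain ⟨g, hg⟩ := exists_mod H.wt.monic h
  refine ⟨fun a => (tau F (X ^ (a.1 : ℕ) * h)).coeff (a.2 : ℕ), g, ?_⟩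
  have h1 := mod_eq_sum H.wt.monic H.wt.deg h
  rw [h1] at hg
  rw [← SK_fo (w := w) (n := n) F (fun i => tau F (X ^ i * h)) ?_]
  · exact hg
  · intro i hi
    have h2 := H.tr_ev_div h (X ^ i)
    have h3 : BDeg e (aa w n) ((w * i : ℕ) : ℤ) (ev y (X ^ i : κ[X][X])) :=
      H.bdeg_ev (WD.ofX_pow i)
    have h4 := H.bdeg_tr (H.bdeg_mul hl h3)
    rw [h2, mul_comm h (X ^ i)] at h4
    have h5 : (-2 : ℤ) + ((w * i : ℕ) : ℤ) = ((w * i : ℕ) : ℤ) - 2 := by ring
    rw [h5] at h4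
    exact dle_pol_iff.1 h4

theorem KL.sk (H : KL w n F y e dK d) (hη : HB w n F η) (h : κ[X][X]) (b : E)
    (hb : BDeg e (aa w n) (-2) (ev y h / ev y (py F) - d b)) :
    ∃ (c : IX w n → κ) (g e' : κ[X][X]), h = ∑ a, cc (c a) * η a + br F g + e' * F := by
  obtain ⟨g, c, β, hβ, hbs⟩ := H.split_E b
  have hFy := H.Fy
  have h1 : ev y (h - (∑ a, cc (c a) * η (Sum.inr a)) - br F g) / ev y (py F) =
      ev y h / ev y (py F) -
        (∑ a, inE (κ := κ) E (pol (C (c a))) * mE F y η (Sum.inr a)) - d (ev y g) := by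
    rw [map_sub, map_sub, sub_div, sub_div, map_sum, Finset.sum_div, ← H.d_ev g,
      mul_div_assoc, div_self hFy, mul_one]
    congr 2
    refine Finset.sum_congr rfl fun a _ => ?_
    rw [map_mul, cc, ev_C, mE, mul_div_assoc]
  have h2 : d b = d (ev y g) + (∑ a, inE (κ := κ) E (pol (C (c a))) * d (fE (κ := κ) y a)) +
      d β := by
    conv_lhs => rw [hbs]
    rw [map_add, map_add, map_sum]
    congr 2
    refine Finset.sum_congr rfl fun a _ => ?_
    exact H.d_const (c a) _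
  have h3 : ev y h / ev y (py F) -
        (∑ a, inE (κ := κ) E (pol (C (c a))) * mE F y η (Sum.inr a)) - d (ev y g) =
      (ev y h / ev y (py F) - d b) - (∑ a, inE (κ := κ) E (pol (C (c a))) *
        (mE F y η (Sum.inr a) - d (bE κ y (Sum.inr a)))) + d β := by
    have h4 : (∑ a, inE (κ := κ) E (pol (C (c a))) *
        (mE F y η (Sum.inr a) - d (bE κ y (Sum.inr a)))) =
        (∑ a, inE (κ := κ) E (pol (C (c a))) * mE F y η (Sum.inr a)) -
        (∑ a, inE (κ := κ) E (pol (C (c a))) * d (fE (κ := κ) y a)) := by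
      rw [← Finset.sum_sub_distrib]
      refine Finset.sum_congr rfl fun a _ => ?_
      rw [mul_sub]
      rfl
    rw [h4, h2]
    ring
  have h5 : BDeg e (aa w n) (-2)
      (ev y (h - (∑ a, cc (c a) * η (Sum.inr a)) - br F g) / ev y (py F)) := by
    rw [h1, h3]
    refine BDeg.add (BDeg.sub hb (BDeg.sum _ _ fun a _ => ?_)) (H.bdeg_two hβ)
    have h6 : Dle (pol (C (c a))) 0 := by
      rw [dle_pol_iff, natDegree_C]
      right
      exact le_refl _
    have h7 := BDeg.smul h6 (H.low hη (Sum.inr a))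
    rw [add_zero] at h7
    exact h7
  obtain ⟨c', g', h8⟩ := H.reg _ h5
  refine ⟨Sum.elim c' c, g, g', ?_⟩
  have h9 : ∑ a, cc (Sum.elim c' c a) * η a =
      fo F c' + ∑ a, cc (c a) * η (Sum.inr a) := by
    rw [Fintype.sum_sum_type, fo]
    congr 1
    refine Finset.sum_congr rfl fun a _ => ?_
    rw [Sum.elim_inl, hη.phi a]
  rw [h9]
  linear_combination h8

end MPadcLF
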