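import Pool.Agent.Lib.MP_adc574_ag_LF.Defs
import Pool.Agent.Lib.MP_adc574_ag_Cov.Birk

/-!
# JOB Slope: slopes at infinity of nilpotent connections

Paper 5.5. `K = κ(T)`, `Dle r 0` defines the ring `O`, `y j = T ^ j • ∇^j v`, `θ = T • ∇`:
`θ (y j) = j y j + y (j + 1)` (`DK (T ^ j) = j T ^ (j - 1)`).
* `O` is a ring, `DK` maps `Dle r m` to `Dle (DK r) (m - 1)`.
* `Λ = {∑ j < M, c j • y j | Dle (c j) 0}` is an `O`-module, stable under `θ` (`y M = 0`), and contains all `y j`.
  `Λ₁ = {x | T • x ∈ Λ}` (this is `T⁻¹ Λ`).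
* Claim: if `∑ i < r, C (β i) • y i ∈ Λ₁` with constants `β i ∈ κ` then `β = 0`. Otherwise let `s < r` be maximal with
  `β s ≠ 0`, so `y s ∈ S + Λ₁`, `S = span_κ (y i, i < s)`. By induction on `j ≥ s`: `y j ∈ S + Λ₁`: apply `θ - j`:
  `θ (T⁻¹ x) = T⁻¹ (θ - 1) x`, `θ S ⊆ S + κ y s ⊆ S + Λ₁`. So `Λ ⊆ S_O + Λ₁` with `S_O` the `O`-span of the `y i`,
  `i < s`. Let `f : span_K (y i, i < r) → K` be linear with `f (y i) = 0` for `i < s`, `f (y s) = 1` (the `y i`, `i < r`, are
  independent; all `y j` lie in their span: `∇^r v = ∑ a i ∇^i v`, induction). Let `m` be the maximum of the degrees of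
  the `f (y j)`, `j < M`, `f (y j) ≠ 0` (`f (y s) = 1`, so it is `≥ 0`), attained at `j₁`:
  `y j₁ = (element of S_O) + T⁻¹ λ`, `λ ∈ Λ`, so `f (y j₁) = T⁻¹ f (λ)` has degree `≤ m - 1`: contradiction.
* `y r = ∑ b i • y i` with `b i = T ^ (r - i) a i`. Let `m` be the maximum of the degrees of the `b i ≠ 0` and suppose
  `m > 0`: `T ^ (- m) y r = ∑ T ^ (- m) b i • y i`, `T ^ (- m) b i = β i + (degree ≤ -1)` (`Birk.exists_residue` in
  Cov/Birk), `β ≠ 0`, so `∑ β i y i ∈ Λ₁`: contradiction. So `Dle (b i) 0`, `Dle (a i) (i - r)`.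
-/

set_option autoImplicit false

namespace MPadcLF

open Polynomial MPadcCov

section aux

variable {κ : Type*} [Field κ]

/-- A derivation which lowers the degrees of the polynomials by one lowers all degrees by one. -/
private theorem slope_dle {DK : RatFunc κ → RatFunc κ} (hD : IsDer DK)
    (hpol : ∀ p : κ[X], DK (pol p) = pol (derivative p)) {r : RatFunc κ} {m : ℤ} (hr : Dle r m) :
    Dle (DK r) (m - 1) := by
  have hΔ : ∀ q : κ[X], Dle (DK (pol q)) (q.natDegree - 1) := by
    intro q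
    rw [hpol, dle_pol_iff]
    by_cases h0 : derivative q = 0
    · exact Or.inl h0
    · right
      have h1 : q.natDegree ≠ 0 := by
        intro h2
        apply h0
        rw [eq_C_of_natDegree_eq_zero h2, derivative_C]
      have h3 := natDegree_derivative_lt h1
      omega
  have h00 : DK 0 = 0 := by
    have := hD.add 0 0
    rw [add_zero] at this
    exact left_eq_add.1 this
  obtain ⟨p, q, hq, h⟩ := exists_rep r
  rcases eq_or_ne r 0 with h0 | h0
  · rw [h0, h00]; exact Dle.zero _
  apply dle_of_mul hq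
  have h1 : pol q * DK r = DK (pol p) - DK (pol q) * r := by
    rw [← h, hD.mul]
    ring
  have hp0 : p ≠ 0 := by
    rintro rfl
    rw [pol, pol, map_zero] at h
    rcases mul_eq_zero.1 h with h2 | h2
    · rw [map_eq_zero_iff _ pol_injective] at h2; exact hq h2
    · exact h0 h2
  have hp : (p.natDegree : ℤ) ≤ q.natDegree + m := by
    have h2 : Dle (pol p) (q.natDegree + m) := by
      rw [← h]
      exact Dle.mul (dle_pol_iff.2 (Or.inr le_rfl)) hr
    exact (dle_pol_iff.1 h2).resolve_left hp0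
  rw [h1]
  apply Dle.sub
  · exact (hΔ p).mono (by linarith)
  · exact ((hΔ q).mul hr).mono (by linarith)

private theorem slope_one : Dle (1 : RatFunc κ) 0 := by
  right
  rw [RatFunc.intDegree_one]

private theorem slope_X : Dle (RatFunc.X : RatFunc κ) 1 := by
  right
  rw [RatFunc.intDegree_X]

private theorem slope_Xinv : Dle (RatFunc.X⁻¹ : RatFunc κ) (-1) := by
  right
  rw [RatFunc.intDegree_inv, RatFunc.intDegree_X]

private theorem slope_C (c : κ) : Dle (pol (C c) : RatFunc κ) 0 := by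
  rw [dle_pol_iff]
  right
  simp

private theorem slope_polX : (pol X : RatFunc κ) = RatFunc.X := RatFunc.algebraMap_X

private theorem slope_nat (j : ℕ) : Dle (j : RatFunc κ) 0 := by
  have h := slope_C (κ := κ) (j : κ)
  rw [pol, C_eq_natCast, map_natCast] at h
  exact h

private theorem slope_DX {DK : RatFunc κ → RatFunc κ}
    (hpol : ∀ p : κ[X], DK (pol p) = pol (derivative p)) (j : ℕ) :
    RatFunc.X * DK (RatFunc.X ^ j) = (j : RatFunc κ) * RatFunc.X ^ j := by
  have h1 : (RatFunc.X ^ j : RatFunc κ) = pol (X ^ j) := by rw [pol, map_pow, ← pol, slope_polX]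
  have h2 : (RatFunc.X : RatFunc κ) = pol X := slope_polX.symm
  rw [h1, hpol, h2, ← map_mul, derivative_X_pow]
  have h3 : (j : RatFunc κ) = pol (C (j : κ)) := by
    rw [pol, C_eq_natCast, map_natCast]
  rw [h3, ← map_mul]
  congr 1
  rcases j with _ | j
  · simp
  · rw [Nat.add_sub_cancel, pow_succ]
    ring

variable {V : Type*} [AddCommGroup V] [Module (RatFunc κ) V]

private theorem slope_smul (Q : Submodule (Oinf κ) V) {c : RatFunc κ} (hc : Dle c 0) {x : V}
    (hx : x ∈ Q) : c • x ∈ Q := Q.smul_mem (⟨c, hc⟩ : Oinf κ) hx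

private theorem slope_stab {DK : RatFunc κ → RatFunc κ}
    (hO : ∀ c : RatFunc κ, Dle c 0 → Dle (RatFunc.X * DK c) 0) (nabla : V → V)
    (hadd : ∀ u v, nabla (u + v) = nabla u + nabla v)
    (hsm : ∀ (r : RatFunc κ) v, nabla (r • v) = DK r • v + r • nabla v) (S : Set V)
    (Q : Submodule (Oinf κ) V) (h1 : ∀ x ∈ S, x ∈ Q)
    (h2 : ∀ x ∈ S, (RatFunc.X : RatFunc κ) • nabla x ∈ Q) (x : V)
    (hx : x ∈ Submodule.span (Oinf κ) S) : (RatFunc.X : RatFunc κ) • nabla x ∈ Q := by
  have hn0 : nabla 0 = 0 := by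
    have := hadd 0 0
    rw [add_zero] at this
    exact left_eq_add.1 this
  have hsub : Submodule.span (Oinf κ) S ≤ Q := Submodule.span_le.2 h1
  induction hx using Submodule.span_induction with
  | mem x hx => exact h2 x hx
  | zero => rw [hn0, smul_zero]; exact Q.zero_mem
  | add x y hx hy ihx ihy => rw [hadd, smul_add]; exact Q.add_mem ihx ihy
  | smul c x hx ih =>
    have h3 : nabla (c • x) = DK (c : RatFunc κ) • x + (c : RatFunc κ) • nabla x := hsm _ _
    rw [h3, smul_add, smul_smul, smul_comm]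
    exact Q.add_mem (slope_smul Q (hO _ c.2) (hsub hx)) (slope_smul Q c.2 ih)

end aux

theorem slope {κ : Type*} [Field κ] (DK : RatFunc κ → RatFunc κ) (hD : IsDer DK)
    (hpol : ∀ p : κ[X], DK (pol p) = pol (derivative p)) {V : Type*} [AddCommGroup V]
    [Module (RatFunc κ) V] (nabla : V → V) (hadd : ∀ u v, nabla (u + v) = nabla u + nabla v)
    (hsm : ∀ (r : RatFunc κ) v, nabla (r • v) = DK r • v + r • nabla v) (v : V) (M : ℕ)
    (hM : nabla^[M] v = 0) (r : ℕ)
    (hli : LinearIndependent (RatFunc κ) (fun i : Fin r => nabla^[(i : ℕ)] v))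
    (a : Fin r → RatFunc κ) (ha : nabla^[r] v = ∑ i, a i • nabla^[(i : ℕ)] v) (i : Fin r) :
    Dle (a i) ((i : ℕ) - r) := by
  have hT0 : (RatFunc.X : RatFunc κ) ≠ 0 := RatFunc.X_ne_zero
  have hO : ∀ c : RatFunc κ, Dle c 0 → Dle (RatFunc.X * DK c) 0 := by
    intro c hc
    have h1 := slope_X.mul (slope_dle hD hpol hc)
    exact h1.mono (by norm_num)
  have hn0 : nabla 0 = 0 := by
    have := hadd 0 0
    rw [add_zero] at this
    exact left_eq_add.1 this
  set y : ℕ → V := fun j => (RatFunc.X ^ j : RatFunc κ) • nabla^[j] v with hy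
  have hNz : ∀ j, M ≤ j → nabla^[j] v = 0 := by
    intro j hj
    obtain ⟨k, rfl⟩ := Nat.exists_eq_add_of_le hj
    clear hj
    induction k with
    | zero => exact hM
    | succ k ih => rw [← add_assoc, Function.iterate_succ_apply', ih, hn0]
  have hyz : ∀ j, M ≤ j → y j = 0 := fun j hj => by
    show (RatFunc.X ^ j : RatFunc κ) • nabla^[j] v = 0
    rw [hNz j hj, smul_zero]
  have hθ : ∀ j, (RatFunc.X : RatFunc κ) • nabla (y j) = (j : RatFunc κ) • y j + y (j + 1) := by
    intro j
    show (RatFunc.X : RatFunc κ) • nabla ((RatFunc.X ^ j : RatFunc κ) • nabla^[j] v) =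
      (j : RatFunc κ) • ((RatFunc.X ^ j : RatFunc κ) • nabla^[j] v) +
        (RatFunc.X ^ (j + 1) : RatFunc κ) • nabla^[j + 1] v
    rw [hsm, smul_add, smul_smul, slope_DX hpol, smul_smul, smul_smul, ← pow_succ',
      Function.iterate_succ_apply']
  -- the lattice
  set Λ : Submodule (Oinf κ) V := Submodule.span (Oinf κ) (Set.range y) with hΛ
  have hyΛ : ∀ j, y j ∈ Λ := fun j => Submodule.subset_span ⟨j, rfl⟩
  have hΛθ : ∀ x ∈ Λ, (RatFunc.X : RatFunc κ) • nabla x ∈ Λ := by
    refine slope_stab hO nabla hadd hsm (Set.range y) Λ ?_ ?_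
    · rintro _ ⟨j, rfl⟩
      exact hyΛ j
    · rintro _ ⟨j, rfl⟩
      rw [hθ]
      exact Λ.add_mem (slope_smul Λ (slope_nat j) (hyΛ j)) (hyΛ _)
  let Λ₁ : Submodule (Oinf κ) V :=
    { carrier := {x | (RatFunc.X : RatFunc κ) • x ∈ Λ}
      add_mem' := by
        intro p q hp hq
        show (RatFunc.X : RatFunc κ) • (p + q) ∈ Λ
        rw [smul_add]
        exact Λ.add_mem hp hq
      zero_mem' := by
        show (RatFunc.X : RatFunc κ) • (0 : V) ∈ Λ
        rw [smul_zero]
        exact Λ.zero_mem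
      smul_mem' := by
        intro c x hx
        show (RatFunc.X : RatFunc κ) • ((c : RatFunc κ) • x) ∈ Λ
        rw [smul_comm]
        exact slope_smul Λ c.2 hx }
  have hΛ₁ : ∀ x, x ∈ Λ₁ ↔ (RatFunc.X : RatFunc κ) • x ∈ Λ := fun x => Iff.rfl
  have hDX : DK RatFunc.X = 1 := by
    rw [← slope_polX, hpol, derivative_X, pol, map_one]
  have hΛ₁θ : ∀ x ∈ Λ₁, (RatFunc.X : RatFunc κ) • nabla x ∈ Λ₁ := by
    intro x hx
    rw [hΛ₁] at hx ⊢
    have h1 := hΛθ _ hx
    have h2 : (RatFunc.X : RatFunc κ) • (RatFunc.X : RatFunc κ) • nabla x =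
        (RatFunc.X : RatFunc κ) • nabla ((RatFunc.X : RatFunc κ) • x) -
          (RatFunc.X : RatFunc κ) • x := by
      rw [hsm, hDX, one_smul, smul_add, add_sub_cancel_left]
    rw [h2]
    exact Λ.sub_mem h1 hx
  -- the coordinates
  obtain ⟨g, hg⟩ : ∃ g : V →ₗ[RatFunc κ] (Fin r → RatFunc κ),
      ∀ i : Fin r, g (nabla^[(i : ℕ)] v) = Pi.single i 1 := by
    have h1 : LinearMap.ker (Fintype.linearCombination (RatFunc κ)
        (fun i : Fin r => nabla^[(i : ℕ)] v)) = ⊥ :=
      LinearMap.ker_eq_bot.2 (linearIndependent_iff_injective_fintypeLinearCombination.1 hli)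
    obtain ⟨g, hg⟩ := LinearMap.exists_leftInverse_of_injective _ h1
    refine ⟨g, fun i => ?_⟩
    have h2 := LinearMap.congr_fun hg (Pi.single i 1)
    rw [LinearMap.comp_apply, Fintype.linearCombination_apply_single, one_smul,
      LinearMap.id_apply] at h2
    exact h2
  -- the claim
  have claim : ∀ β : Fin r → κ, ∑ i, pol (C (β i)) • y i ∈ Λ₁ → β = 0 := by
    intro β hβ
    by_contra hne
    classical
    have hex : (Finset.univ.filter fun i => β i ≠ 0).Nonempty := by
      rw [Finset.filter_nonempty_iff]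
      by_contra h
      push Not at h
      exact hne (funext fun i => h i (Finset.mem_univ _))
    obtain ⟨s, hs, hmax⟩ := Finset.exists_max_image _ (fun i : Fin r => (i : ℕ)) hex
    rw [Finset.mem_filter] at hs
    have hs0 := hs.2
    have hbig : ∀ i : Fin r, (s : ℕ) < i → β i = 0 := by
      intro i hi
      by_contra h
      have := hmax i (Finset.mem_filter.2 ⟨Finset.mem_univ _, h⟩)
      omega
    set S : Set V := y '' {i | i < (s : ℕ)} with hS
    set Q : Submodule (Oinf κ) V := Submodule.span (Oinf κ) S ⊔ Λ₁ with hQ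
    have hSQ : ∀ i < (s : ℕ), y i ∈ Q := fun i hi =>
      Submodule.mem_sup_left (Submodule.subset_span ⟨i, hi, rfl⟩)
    have hsQ : y s ∈ Q := by
      have h1 : ∑ i, pol (C (β i)) • y i ∈ Q := Submodule.mem_sup_right hβ
      rw [← Finset.add_sum_erase _ _ (Finset.mem_univ s)] at h1
      have h2 : ∑ i ∈ Finset.univ.erase s, pol (C (β i)) • y i ∈ Q := by
        refine Q.sum_mem fun i hi => ?_
        rcases lt_trichotomy (i : ℕ) s with h | h | h
        · exact slope_smul Q (slope_C _) (hSQ i h)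
        · exact absurd (Fin.ext h) (Finset.ne_of_mem_erase hi)
        · rw [hbig i h, C_0, pol, map_zero, zero_smul]
          exact Q.zero_mem
      have h3 := Q.sub_mem h1 h2
      rw [add_sub_cancel_right] at h3
      have h4 := slope_smul Q (slope_C (β s)⁻¹) h3
      rw [smul_smul, pol, pol, ← map_mul, ← C_mul, inv_mul_cancel₀ hs0, C_1, map_one,
        one_smul] at h4
      exact h4
    have hQθ : ∀ x ∈ Q, (RatFunc.X : RatFunc κ) • nabla x ∈ Q := by
      intro x hx
      rw [hQ, Submodule.mem_sup] at hx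
      obtain ⟨p, hp, q, hq, rfl⟩ := hx
      rw [hadd, smul_add]
      refine Q.add_mem ?_ (Submodule.mem_sup_right (hΛ₁θ q hq))
      refine slope_stab hO nabla hadd hsm S Q ?_ ?_ p hp
      · rintro _ ⟨i, hi, rfl⟩
        exact hSQ i hi
      · rintro _ ⟨i, hi, rfl⟩
        rw [hθ]
        refine Q.add_mem (slope_smul Q (slope_nat i) (hSQ i hi)) ?_
        have hi' : i < (s : ℕ) := hi
        rcases Nat.lt_or_ge (i + 1) s with h | h
        · exact hSQ _ h
        · have h5 : i + 1 = (s : ℕ) := by omega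
          rw [h5]
          exact hsQ
    have hall : ∀ j, y j ∈ Q := by
      intro j
      induction j with
      | zero =>
        rcases Nat.eq_zero_or_pos (s : ℕ) with h | h
        · rw [← h]; exact hsQ
        · exact hSQ 0 h
      | succ j ih =>
        have h1 := hQθ _ ih
        rw [hθ] at h1
        have h2 := Q.sub_mem h1 (slope_smul Q (slope_nat j) ih)
        rw [add_sub_cancel_left] at h2
        exact h2
    -- the functional
    let f : V →ₗ[RatFunc κ] RatFunc κ := (RatFunc.X ^ (s : ℕ) : RatFunc κ)⁻¹ •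
      ((LinearMap.proj s).comp g)
    have hf : ∀ x, f x = (RatFunc.X ^ (s : ℕ) : RatFunc κ)⁻¹ * g x s := fun x => rfl
    have hfi : ∀ i < (s : ℕ), f (y i) = 0 := by
      intro i hi
      have h1 : y i = (RatFunc.X ^ i : RatFunc κ) • nabla^[((⟨i, hi.trans s.2⟩ : Fin r) : ℕ)] v :=
        rfl
      rw [hf, h1, map_smul, hg, Pi.smul_apply, Pi.single_apply, if_neg, smul_zero, mul_zero]
      intro h
      have := congrArg Fin.val h
      simp only at this
      omega
    have hfs : f (y s) = 1 := by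
      have h1 : y s = (RatFunc.X ^ (s : ℕ) : RatFunc κ) • nabla^[(s : ℕ)] v := rfl
      rw [hf, h1, map_smul, hg, Pi.smul_apply, Pi.single_eq_same, smul_eq_mul, mul_one,
        inv_mul_cancel₀ (pow_ne_zero _ hT0)]
    have hfS : ∀ x ∈ Submodule.span (Oinf κ) S, f x = 0 := by
      intro x hx
      induction hx using Submodule.span_induction with
      | mem x hx =>
        obtain ⟨i, hi, rfl⟩ := hx
        exact hfi i hi
      | zero => exact map_zero f
      | add x y _ _ ihx ihy => rw [map_add, ihx, ihy, add_zero]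
      | smul c x _ ih =>
        have h3 : f (c • x) = (c : RatFunc κ) * f x := map_smul f (c : RatFunc κ) x
        rw [h3, ih, mul_zero]
    have hΛf : ∀ m : ℤ, (∀ j, Dle (f (y j)) m) → ∀ x ∈ Λ, Dle (f x) m := by
      intro m hm x hx
      induction hx using Submodule.span_induction with
      | mem x hx =>
        obtain ⟨j, rfl⟩ := hx
        exact hm j
      | zero => rw [map_zero f]; exact Dle.zero _
      | add x y _ _ ihx ihy => rw [map_add]; exact ihx.add ihy
      | smul c x _ ih =>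
        have h3 : f (c • x) = (c : RatFunc κ) * f x := map_smul f (c : RatFunc κ) x
        rw [h3]
        have h4 : Dle (c : RatFunc κ) 0 := c.2
        exact (h4.mul ih).mono (by linarith)
    have hstep : ∀ m : ℤ, (∀ j, Dle (f (y j)) m) → ∀ j, Dle (f (y j)) (m - 1) := by
      intro m hm j
      obtain ⟨p, hp, q, hq, hpq⟩ := Submodule.mem_sup.1 (hall j)
      have h1 : f (y j) = RatFunc.X⁻¹ * f ((RatFunc.X : RatFunc κ) • q) := by
        rw [← hpq, map_add, hfS p hp, zero_add, map_smul, smul_eq_mul, ← mul_assoc,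
          inv_mul_cancel₀ hT0, one_mul]
      rw [h1]
      exact (slope_Xinv.mul (hΛf m hm _ hq)).mono (by linarith)
    obtain ⟨m₀, hm₀⟩ : ∃ m₀ : ℕ, ∀ j, Dle (f (y j)) m₀ := by
      refine ⟨∑ j ∈ Finset.range M, (f (y j)).intDegree.natAbs, fun j => ?_⟩
      rcases Nat.lt_or_ge j M with h | h
      · right
        have h1 : (f (y j)).intDegree.natAbs ≤
            ∑ j ∈ Finset.range M, (f (y j)).intDegree.natAbs :=
          Finset.single_le_sum (f := fun j => (f (y j)).intDegree.natAbs)
            (fun _ _ => Nat.zero_le _) (Finset.mem_range.2 h)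
        have h2 : (f (y j)).intDegree ≤ ((f (y j)).intDegree.natAbs : ℤ) := Int.le_natAbs
        have h3 : ((f (y j)).intDegree.natAbs : ℤ) ≤
            ((∑ j ∈ Finset.range M, (f (y j)).intDegree.natAbs : ℕ) : ℤ) := by exact_mod_cast h1
        exact h2.trans h3
      · rw [hyz j h, map_zero]
        exact Dle.zero _
    have hdesc : ∀ n : ℕ, ∀ j, Dle (f (y j)) ((m₀ : ℤ) - n) := by
      intro n
      induction n with
      | zero => intro j; exact (hm₀ j).mono (by simp)
      | succ n ih =>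
        intro j
        refine (hstep _ ih j).mono ?_
        push_cast
        linarith
    have hfin := hdesc (m₀ + 1) s
    rw [hfs] at hfin
    rcases hfin with h | h
    · exact one_ne_zero h
    · rw [RatFunc.intDegree_one] at h
      push_cast at h
      linarith
  -- the coefficients
  set b : Fin r → RatFunc κ := fun i => Birk.xz ((r : ℤ) - (i : ℕ)) * a i with hb
  have hyr : y r = ∑ i, b i • y i := by
    show (RatFunc.X ^ r : RatFunc κ) • nabla^[r] v =
      ∑ i : Fin r, b i • ((RatFunc.X ^ (i : ℕ) : RatFunc κ) • nabla^[(i : ℕ)] v)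
    rw [ha, Finset.smul_sum]
    refine Finset.sum_congr rfl fun i _ => ?_
    rw [smul_smul, smul_smul]
    congr 1
    show RatFunc.X ^ r * a i = Birk.xz ((r : ℤ) - (i : ℕ)) * a i * RatFunc.X ^ (i : ℕ)
    have h1 : (RatFunc.X ^ r : RatFunc κ) = Birk.xz ((r : ℤ) - (i : ℕ)) * RatFunc.X ^ (i : ℕ) := by
      have h2 : (RatFunc.X ^ (i : ℕ) : RatFunc κ) = Birk.xz ((i : ℕ) : ℤ) := by
        rw [Birk.xz, zpow_natCast]
      rw [h2, ← Birk.xz_add, sub_add_cancel, Birk.xz, zpow_natCast]
    rw [h1]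
    ring
  have hbstep : ∀ m : ℤ, 0 < m → (∀ i, Dle (b i) m) → ∀ i, Dle (b i) (m - 1) := by
    intro m hm hbm
    have hc : ∀ i, Dle ((Birk.xz (-m) : RatFunc κ) * b i) 0 := by
      intro i
      have h1 := (Birk.dle_xz_mul (r := b i) (m := -m) (l := m)).2 (hbm i)
      rwa [neg_add_cancel] at h1
    choose β hβ using fun i => Birk.exists_residue (hc i)
    have h1 : β = 0 := by
      apply claim
      have h2 : ∑ i, pol (C (β i)) • y i = (Birk.xz (-m) : RatFunc κ) • y r -
          ∑ i, ((Birk.xz (-m) : RatFunc κ) * b i - pol (C (β i))) • y i := by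
        rw [hyr, Finset.smul_sum, ← Finset.sum_sub_distrib]
        refine Finset.sum_congr rfl fun i _ => ?_
        rw [sub_smul, smul_smul (Birk.xz (-m) : RatFunc κ) (b i) (y i), sub_sub_cancel]
      rw [h2]
      have h3 : ∀ (c : RatFunc κ), Dle c (-1) → ∀ j, c • y j ∈ Λ₁ := by
        intro c hc j
        rw [hΛ₁, smul_smul]
        have h4 := slope_X.mul hc
        exact slope_smul Λ (h4.mono (by norm_num)) (hyΛ j)
      refine Λ₁.sub_mem (h3 _ ?_ r) (Λ₁.sum_mem fun i _ => h3 _ (hβ i) i)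
      right
      rw [Birk.intDegree_xz]
      omega
    intro i
    have h2 := hβ i
    rw [h1, Pi.zero_apply, C_0, pol, map_zero, sub_zero] at h2
    have h3 : Dle ((Birk.xz (-m) : RatFunc κ) * b i) (-m + (m - 1)) := h2.mono (by linarith)
    exact Birk.dle_xz_mul.1 h3
  obtain ⟨m₀, hm₀⟩ : ∃ m₀ : ℕ, ∀ i, Dle (b i) m₀ := by
    refine ⟨∑ j, (b j).intDegree.natAbs, fun j => ?_⟩
    right
    have h1 : (b j).intDegree.natAbs ≤ ∑ j, (b j).intDegree.natAbs :=
      Finset.single_le_sum (f := fun j => (b j).intDegree.natAbs)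
        (fun _ _ => Nat.zero_le _) (Finset.mem_univ j)
    have h2 : (b j).intDegree ≤ ((b j).intDegree.natAbs : ℤ) := Int.le_natAbs
    have h3 : ((b j).intDegree.natAbs : ℤ) ≤ ((∑ j, (b j).intDegree.natAbs : ℕ) : ℤ) := by
      exact_mod_cast h1
    exact h2.trans h3
  have hb0 : ∀ n : ℕ, n ≤ m₀ → ∀ i, Dle (b i) ((m₀ : ℤ) - n) := by
    intro n
    induction n with
    | zero => intro _ i; exact (hm₀ i).mono (by simp)
    | succ n ih =>
      intro hn i
      refine (hbstep _ ?_ (ih (by omega)) i).mono ?_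
      · omega
      · push_cast
        linarith
  have h1 := hb0 m₀ le_rfl i
  rw [sub_self] at h1
  have h2 : Dle (Birk.xz ((r : ℤ) - (i : ℕ)) * a i) (((r : ℤ) - (i : ℕ)) + ((i : ℕ) - r)) := by
    exact h1.mono (by linarith)
  exact Birk.dle_xz_mul.1 h2

end MPadcLF
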