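import Pool.Agent.Lib.MP_adc574_ag_LF.Herm
import Pool.Agent.Lib.MP_adc574_ag_LF.Px

/-!
# JOB Ssq: closed forms with simple poles have constant residues

`F` a field of characteristic `0` with a derivation `D` whose constants algebraic … : here `F = RatFunc k` with
`D = d/dx`, `k` algebraically closed. `Q` monic squarefree, `deg N < deg Q`, and `∂_x (N / Q) = ∂_Y (M / H)`.
* By `pole_sq` (the left side is `(N_x Q - N Q_x) / Q ^ 2`) we may assume `H = Q`: `M' Q - M Q' = N_x Q - N Q_x`, where
  `N_x = cm D N`, `M' = derivative M`.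
* `Q'` is invertible modulo `Q` (`Q` squarefree in characteristic `0`: `Polynomial.separable`), so there are `R`, `V` with
  `N = R Q' + V Q`. Modulo `Q`: `M Q' ≡ N Q_x ≡ R Q' Q_x`, so `M = R Q_x + S Q`. Insert:
  `R' Q_x - R_x Q' = (V_x - S') Q` (derivatives: `Q'_x = (Q_x)'`).
* Let `μ ∈ F[Z]` be the minimal polynomial of the class of `R` in `F[Y] / Q` (`minpoly F (AdjoinRoot.mk Q R)`): monic,
  `Q ∣ μ (R)`. Apply `D` to `μ (R) = U Q`: `μ^D (R) + μ' (R) R_x = U_x Q + U Q_x`, and `∂_Y`:
  `μ' (R) R' = U' Q + U Q'`. So `Q' (μ^D (R) + μ' (R) R_x) - Q_x μ' (R) R' ≡ 0 mod Q`, hence `Q' μ^D (R) ≡ 0`, so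
  `Q ∣ μ^D (R)`; `μ^D` has degree `< deg μ` (`μ` monic), so `μ^D = 0`: all coefficients of `μ` have derivative zero,
  so they are constants: `μ ∈ k[Z]` (an element of `k(x)` with derivative zero is in `k`, characteristic `0`). `μ` is
  squarefree (`F[Y]/Q` is reduced), so `μ = ∏ (Z - λ_j)` with distinct `λ_j ∈ k`. `Q ∣ ∏ (R - λ_j)`.
* `W_j = gcd (Q, R - λ_j)`, pairwise coprime (the `R - λ_j` are), `∏ W_j ∣ Q` and `Q ∣ ∏ (R - λ_j)` squarefree gives
  `Q ~ ∏ W_j`; take them monic, `Q = ∏ W_j`. `N ≡ R Q' ≡ λ_j Q' ≡ λ_j W_j' ∏_{i ≠ j} W_i` modulo `W_j`. So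
  `N - ∑ λ_j W_j' ∏_{i ≠ j} W_i` is divisible by `Q`, of smaller degree: zero.
-/

set_option autoImplicit false

namespace MPadcLF

open Polynomial MPadcCov

/-- An element of `k(x)` with derivative zero is a constant. -/
private theorem Ssq_const {k : Type*} [Field k] [CharZero k]
    (D : RatFunc k → RatFunc k) (hD : IsDer D) (hpol : ∀ p : k[X], D (pol p) = pol (derivative p))
    (r : RatFunc k) (hr : D r = 0) : ∃ c : k, pol (C c) = r := by
  have hb0 : r.denom ≠ 0 := r.denom_ne_zero
  have hb1 : pol r.denom ≠ 0 := by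
    rw [Ne, pol, map_eq_zero_iff _ pol_injective]
    exact hb0
  have h1 : pol r.denom * r = pol r.num := by
    have h := r.num_div_denom
    rw [div_eq_iff hb1] at h
    rw [mul_comm]
    exact h.symm
  have h2 : r * pol (derivative r.denom) = pol (derivative r.num) := by
    have h3 := congrArg D h1
    rw [hD.mul, hr, mul_zero, zero_add, hpol, hpol] at h3
    exact h3
  have h3 : r.num * derivative r.denom = r.denom * derivative r.num := by
    apply pol_injective
    show pol (r.num * derivative r.denom) = pol (r.denom * derivative r.num)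
    have e1 : pol (r.num * derivative r.denom) = pol r.num * pol (derivative r.denom) := map_mul _ _ _
    have e2 : pol (r.denom * derivative r.num) = pol r.denom * pol (derivative r.num) := map_mul _ _ _
    rw [e1, e2, ← h1, ← h2]
    ring
  have h4 : r.denom ∣ derivative r.denom :=
    (r.isCoprime_num_denom.symm).dvd_of_dvd_mul_left ⟨_, h3⟩
  have h5 : derivative r.denom = 0 := dvd_derivative_iff.1 h4
  have h6 : derivative r.num = 0 := by
    rw [h5, mul_zero] at h3
    exact (mul_eq_zero.1 h3.symm).resolve_left hb0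
  have e1 := eq_C_of_derivative_eq_zero h5
  have e2 := eq_C_of_derivative_eq_zero h6
  have hc : r.denom.coeff 0 ≠ 0 := by
    intro h
    rw [h, C_0] at e1
    exact hb0 e1
  refine ⟨(r.denom.coeff 0)⁻¹ * r.num.coeff 0, ?_⟩
  apply mul_left_cancel₀ hb1
  rw [h1]
  have e3 : pol r.denom * pol (C ((r.denom.coeff 0)⁻¹ * r.num.coeff 0)) =
      pol (r.denom * C ((r.denom.coeff 0)⁻¹ * r.num.coeff 0)) := (map_mul _ _ _).symm
  rw [e3]
  have e4 : r.denom * C ((r.denom.coeff 0)⁻¹ * r.num.coeff 0) = r.num := by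
    rw [C_mul, ← mul_assoc]
    nth_rewrite 1 [e1]
    rw [← C_mul, mul_inv_cancel₀ hc, C_1, one_mul]
    exact e2.symm
  rw [e4]

private theorem Ssq_cm_derivative {S : Type*} [CommRing S] {f : S → S} (h : IsDer f) (p : S[X]) :
    cm f (derivative p) = derivative (cm f p) := by
  ext m
  rw [coeff_derivative, coeff_cm h.zero, coeff_cm h.zero, coeff_derivative, h.mul]
  have h1 : f ((m : S) + 1) = 0 := by
    have h2 := h.natCast (m + 1)
    rwa [Nat.cast_succ] at h2
  rw [h1]
  ring

/-- The chain rule. -/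
private theorem Ssq_chain {S : Type*} [CommRing S] {f : S → S} (h : IsDer f) (p R : S[X]) :
    cm f (p.comp R) = (cm f p).comp R + (derivative p).comp R * cm f R := by
  have hd := isDer_cm h
  induction p using Polynomial.induction_on' with
  | add p q hp hq =>
    rw [add_comp, hd.add, hp, hq, hd.add, add_comp, derivative_add, add_comp]
    ring
  | monomial n a =>
    have e : cm f (monomial n a) = monomial n (f a) := by
      ext m
      rw [coeff_cm h.zero, coeff_monomial, coeff_monomial]
      split_ifs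
      · rfl
      · exact h.zero
    rw [e, monomial_comp, monomial_comp, derivative_monomial, monomial_comp, hd.mul, hd.pow, cm_C h.zero,
      C_mul, C_eq_natCast]
    ring

/-- A divisor of a product is a product of divisors. -/
private theorem Ssq_fact {F : Type*} [Field F] (m : ℕ) : ∀ (T : Fin m → F[X]) (Q : F[X]), Q.Monic →
    Q ∣ ∏ j, T j → ∃ W : Fin m → F[X], (∀ j, (W j).Monic) ∧ Q = ∏ j, W j ∧ ∀ j, W j ∣ T j := by
  induction m with
  | zero =>
    intro T Q hQ h
    refine ⟨fun _ => 1, fun _ => monic_one, ?_, fun j => one_dvd _⟩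
    rw [Fin.prod_univ_zero] at h ⊢
    exact hQ.eq_one_of_isUnit (isUnit_of_dvd_one h)
  | succ m ih =>
    intro T Q hQ h
    rw [Fin.prod_univ_succ] at h
    obtain ⟨A, B, hA, hB, hAB⟩ := exists_dvd_and_dvd_of_dvd_mul h
    have hab : A.leadingCoeff * B.leadingCoeff = 1 := by
      rw [← leadingCoeff_mul, ← hAB]
      exact hQ
    have hW : (C B.leadingCoeff * A).Monic := by
      unfold Monic
      rw [leadingCoeff_mul, leadingCoeff_C, mul_comm]
      exact hab
    have hW' : (C A.leadingCoeff * B).Monic := by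
      unfold Monic
      rw [leadingCoeff_mul, leadingCoeff_C]
      exact hab
    have hCC : C A.leadingCoeff * C B.leadingCoeff = (1 : F[X]) := by
      rw [← C_mul, hab, C_1]
    have d1 : C B.leadingCoeff * A ∣ T 0 := by
      obtain ⟨t, ht⟩ := hA
      refine ⟨C A.leadingCoeff * t, ?_⟩
      calc T 0 = 1 * (A * t) := by rw [one_mul, ht]
        _ = _ := by rw [← hCC]; ring
    have d2 : C A.leadingCoeff * B ∣ ∏ j : Fin m, T j.succ := by
      obtain ⟨t, ht⟩ := hB
      refine ⟨C B.leadingCoeff * t, ?_⟩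
      calc ∏ j : Fin m, T j.succ = 1 * (B * t) := by rw [one_mul, ht]
        _ = _ := by rw [← hCC]; ring
    obtain ⟨W, h1, h2, h3⟩ := ih (fun j => T j.succ) _ hW' d2
    refine ⟨Fin.cons (C B.leadingCoeff * A) W, ?_, ?_, ?_⟩
    · intro j
      refine Fin.cases ?_ (fun i => ?_) j
      · rw [Fin.cons_zero]
        exact hW
      · rw [Fin.cons_succ]
        exact h1 i
    · rw [Fin.prod_cons, ← h2, hAB]
      calc A * B = 1 * (A * B) := by rw [one_mul]
        _ = _ := by rw [← hCC]; ring
    · intro j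
      refine Fin.cases ?_ (fun i => ?_) j
      · rw [Fin.cons_zero]
        exact d1
      · rw [Fin.cons_succ]
        exact h3 i

/-- The minimal polynomial of `R` modulo `Q` has constant coefficients. -/
private theorem Ssq_roots {k : Type*} [Field k] [IsAlgClosed k] [CharZero k]
    (D : RatFunc k → RatFunc k) (hD : IsDer D) (hpol : ∀ p : k[X], D (pol p) = pol (derivative p))
    (Q R V : (RatFunc k)[X]) (hQ : Q.Monic) (hcop : IsCoprime Q (derivative Q))
    (h : derivative R * cm D Q - cm D R * derivative Q = V * Q) :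
    ∃ (m : ℕ) (l : Fin m → k), Q ∣ ∏ j, (R - C (pol (C (l j)))) := by
  have hd := isDer_cm hD
  have hfin : Module.Finite (RatFunc k) (AdjoinRoot Q) := hQ.finite_adjoinRoot
  have hint : IsIntegral (RatFunc k) (AdjoinRoot.mk Q R) := IsIntegral.of_finite _ _
  have hval : ∀ p : (RatFunc k)[X], aeval (AdjoinRoot.mk Q R) p = AdjoinRoot.mk Q (p.comp R) := by
    intro p
    have h1 := aeval_algHom_apply (AdjoinRoot.mkₐ Q) R p
    rw [AdjoinRoot.coe_mkₐ] at h1
    exact h1
  have hdvd : ∀ p : (RatFunc k)[X], aeval (AdjoinRoot.mk Q R) p = 0 ↔ Q ∣ p.comp R := by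
    intro p
    rw [hval, AdjoinRoot.mk_eq_zero]
  set μ := minpoly (RatFunc k) (AdjoinRoot.mk Q R) with hμ
  have hmon : μ.Monic := minpoly.monic hint
  obtain ⟨U, hU⟩ := (hdvd μ).1 (minpoly.aeval _ _)
  -- the coefficients are constant
  have h1 : (cm D μ).comp R + (derivative μ).comp R * cm D R = Q * cm D U + U * cm D Q := by
    rw [← Ssq_chain hD, hU, hd.mul]
  have h2 : derivative R * (derivative μ).comp R = derivative Q * U + Q * derivative U := by
    rw [← derivative_comp, hU, derivative_mul]
  have h3 : Q ∣ derivative Q * (cm D μ).comp R := by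
    refine ⟨derivative Q * cm D U - cm D Q * derivative U + (derivative μ).comp R * V, ?_⟩
    linear_combination derivative Q * h1 - cm D Q * h2 + (derivative μ).comp R * h
  have h4 : Q ∣ (cm D μ).comp R := hcop.dvd_of_dvd_mul_left h3
  have h5 : cm D μ = 0 := by
    by_contra h0
    have h6 := minpoly.degree_le_of_ne_zero (RatFunc k) (AdjoinRoot.mk Q R) h0 ((hdvd _).2 h4)
    have h7 : (cm D μ).degree < μ.degree := by
      rw [degree_eq_natDegree hmon.ne_zero, degree_lt_iff_coeff_zero]
      intro m hm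
      rw [coeff_cm hD.zero]
      rcases eq_or_lt_of_le hm with e | e
      · rw [← e]
        have h8 : μ.coeff μ.natDegree = 1 := hmon
        rw [h8, hD.one]
      · rw [coeff_eq_zero_of_natDegree_lt e, hD.zero]
    exact absurd h6 (not_le.2 h7)
  have h6 : ∀ n, D (μ.coeff n) = 0 := by
    intro n
    rw [← coeff_cm hD.zero, h5, coeff_zero]
  let φ : k →+* RatFunc k := (algebraMap k[X] (RatFunc k)).comp C
  have h7 : μ ∈ lifts φ := by
    rw [lifts_iff_coeff_lifts]
    intro n
    obtain ⟨c, hc⟩ := Ssq_const D hD hpol _ (h6 n)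
    exact ⟨c, hc⟩
  obtain ⟨μ₀, h8, _, h9⟩ := lifts_and_degree_eq_and_monic h7 hmon
  have h10 := (IsAlgClosed.splits μ₀).eq_prod_roots_of_monic h9
  refine ⟨μ₀.roots.toList.length, fun i => μ₀.roots.toList[i.1], ?_⟩
  have h11 : μ.comp R = ∏ j : Fin μ₀.roots.toList.length, (R - C (pol (C (μ₀.roots.toList[j.1])))) := by
    have e1 : μ₀ = ∏ j : Fin μ₀.roots.toList.length, (X - C (μ₀.roots.toList[j.1])) := by
      rw [Fin.prod_univ_fun_getElem μ₀.roots.toList (fun a => X - C a), ← Multiset.prod_coe, ← Multiset.map_coe,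
        Multiset.coe_toList]
      exact h10
    have e2 : μ = ∏ j : Fin μ₀.roots.toList.length, (X - C (pol (C (μ₀.roots.toList[j.1])))) := by
      rw [← h8]
      have e3 := congrArg (Polynomial.map φ) e1
      rw [Polynomial.map_prod] at e3
      rw [e3]
      refine Finset.prod_congr rfl fun j _ => ?_
      rw [Polynomial.map_sub, map_X, map_C]
      rfl
    have e4 := congrArg (fun p => p.comp R) e2
    rw [Polynomial.prod_comp] at e4
    rw [e4]
    refine Finset.prod_congr rfl fun j _ => ?_
    rw [sub_comp, X_comp, C_comp]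
  rw [← h11]
  exact ⟨U, hU⟩

theorem const_residues {k : Type*} [Field k] [IsAlgClosed k] [CharZero k]
    (D : RatFunc k → RatFunc k) (hD : IsDer D) (hpol : ∀ p : k[X], D (pol p) = pol (derivative p))
    (N Q M H : (RatFunc k)[X]) (hQ : Q.Monic) (hsq : Squarefree Q) (hN : N.degree < Q.degree)
    (hH : H ≠ 0)
    (hc : Q ^ 2 * (derivative M * H - M * derivative H) = H ^ 2 * (cm D N * Q - N * cm D Q)) :
    ∃ (m : ℕ) (l : Fin m → k) (W : Fin m → (RatFunc k)[X]), (∀ j, (W j).Monic) ∧
      Q = ∏ j, W j ∧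
      N = ∑ j, C (pol (C (l j))) * derivative (W j) * ∏ i ∈ Finset.univ.erase j, W i := by
  classical
  have hd := isDer_cm hD
  have hQ0 : Q ≠ 0 := hQ.ne_zero
  have : CharZero (RatFunc k) := charZero_of_injective_algebraMap (algebraMap k (RatFunc k)).injective
  obtain ⟨M₁, hM₁⟩ := pole_sq M H Q _ hH hsq hc
  have hM₂ : derivative Q * M + Q * derivative M = derivative H * M₁ + H * derivative M₁ := by
    rw [← derivative_mul, hM₁, derivative_mul]
  have hk1 : derivative M₁ * Q - M₁ * derivative Q = cm D N * Q - N * cm D Q := by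
    apply mul_left_cancel₀ (pow_ne_zero 2 hH)
    rw [← hc]
    linear_combination (-Q * H) * hM₂ + (Q * derivative H + H * derivative Q) * hM₁
  have hcop : IsCoprime Q (derivative Q) := PerfectField.separable_iff_squarefree.2 hsq
  obtain ⟨a, b, hab⟩ := hcop
  have hNR : N = (N * b) * derivative Q + (N * a) * Q := by
    linear_combination (-N) * hab
  set R := N * b with hR
  set V := N * a with hV
  have hcop' : IsCoprime Q (derivative Q) := ⟨a, b, hab⟩
  obtain ⟨S, hS⟩ : Q ∣ M₁ - R * cm D Q := by
    refine hcop'.dvd_of_dvd_mul_left ⟨derivative M₁ - cm D N + V * cm D Q, ?_⟩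
    linear_combination (-1) * hk1 + cm D Q * hNR
  have hNx : cm D N = R * derivative (cm D Q) + derivative Q * cm D R + (V * cm D Q + Q * cm D V) := by
    rw [← Ssq_cm_derivative hD, ← hd.mul, ← hd.mul, ← hd.add, ← hNR]
  have hM1 : M₁ = R * cm D Q + Q * S := by
    linear_combination hS
  have hM1' : derivative M₁ = derivative R * cm D Q + R * derivative (cm D Q) +
      (derivative Q * S + Q * derivative S) := by
    rw [← derivative_mul, ← derivative_mul, ← derivative_add, ← hM1]
  have hkey : derivative R * cm D Q - cm D R * derivative Q = (cm D V - derivative S) * Q := by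
    apply mul_left_cancel₀ hQ0
    linear_combination hk1 - cm D Q * hNR - Q * hM1' + derivative Q * hM1 + Q * hNx
  obtain ⟨m, l, hl⟩ := Ssq_roots D hD hpol Q R _ hQ hcop' hkey
  obtain ⟨W, hW1, hW2, hW3⟩ := Ssq_fact m _ Q hQ hl
  refine ⟨m, l, W, hW1, hW2, ?_⟩
  choose t ht using hW3
  have hQ' : derivative Q = ∑ j, (∏ i ∈ Finset.univ.erase j, W i) * derivative (W j) := by
    nth_rewrite 1 [hW2]
    exact derivative_prod_finset
  have hdv : Q ∣ N - ∑ j, C (pol (C (l j))) * derivative (W j) * ∏ i ∈ Finset.univ.erase j, W i := by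
    have e1 : N - ∑ j, C (pol (C (l j))) * derivative (W j) * ∏ i ∈ Finset.univ.erase j, W i =
        V * Q + ∑ j, (R - C (pol (C (l j)))) * derivative (W j) * ∏ i ∈ Finset.univ.erase j, W i := by
      have e2 : ∑ j, (R - C (pol (C (l j)))) * derivative (W j) * ∏ i ∈ Finset.univ.erase j, W i =
          R * derivative Q - ∑ j, C (pol (C (l j))) * derivative (W j) * ∏ i ∈ Finset.univ.erase j, W i := by
        rw [hQ', Finset.mul_sum, ← Finset.sum_sub_distrib]
        refine Finset.sum_congr rfl fun j _ => ?_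
        ring
      rw [e2]
      linear_combination hNR
    rw [e1]
    refine dvd_add (dvd_mul_left _ _) (Finset.dvd_sum fun j _ => ?_)
    rw [ht j]
    refine ⟨t j * derivative (W j), ?_⟩
    have e3 : Q = W j * ∏ i ∈ Finset.univ.erase j, W i := by
      rw [Finset.mul_prod_erase Finset.univ W (Finset.mem_univ j)]
      exact hW2
    nth_rewrite 1 [e3]
    ring
  have hdeg : (N - ∑ j, C (pol (C (l j))) * derivative (W j) * ∏ i ∈ Finset.univ.erase j, W i).degree < Q.degree := by
    have hmem : ∀ p : (RatFunc k)[X], p ∈ degreeLT (RatFunc k) Q.natDegree ↔ p.degree < Q.degree := by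
      intro p
      rw [mem_degreeLT, degree_eq_natDegree hQ0]
    rw [← hmem]
    refine Submodule.sub_mem _ ((hmem _).2 hN) (Submodule.sum_mem _ fun j _ => ?_)
    rw [hmem]
    have e3 : Q = W j * ∏ i ∈ Finset.univ.erase j, W i := by
      rw [Finset.mul_prod_erase Finset.univ W (Finset.mem_univ j)]
      exact hW2
    have hP : (∏ i ∈ Finset.univ.erase j, W i) ≠ 0 := Finset.prod_ne_zero_iff.2 fun i _ => (hW1 i).ne_zero
    rw [e3, degree_mul, degree_mul, degree_mul]
    have h1 : (C (pol (C (l j)))).degree + (derivative (W j)).degree ≤ (derivative (W j)).degree := by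
      have h2 : (C (pol (C (l j))) : (RatFunc k)[X]).degree ≤ 0 := degree_C_le
      calc _ ≤ 0 + (derivative (W j)).degree := by gcongr
        _ = _ := zero_add _
    have h2 : (derivative (W j)).degree < (W j).degree := degree_derivative_lt (hW1 j).ne_zero
    exact WithBot.add_lt_add_right (degree_ne_bot.2 hP) (lt_of_le_of_lt h1 h2)
  exact sub_eq_zero.1 (eq_zero_of_dvd_of_degree_lt hdv hdeg)

end MPadcLF
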